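import Pool.Agent.H72.ES.Defs

/-! Elementary inequalities between the constants `n`, `Q ≥ 2^n`, `b = Q^(7 n^2)`. -/

namespace Pool.Agent.H72.ES

variable {n Q : ℕ}

theorem sq_le_two_pow (hn : 4 ≤ n) : n ^ 2 ≤ 2 ^ n := by
  induction n, hn using Nat.le_induction with
  | base => norm_num
  | succ k hk ih =>
    have : 2 ^ (k + 1) = 2 * 2 ^ k := by ring
    rw [this]
    nlinarith

theorem sq_le_Q (hn : 4 ≤ n) (hQ : 2 ^ n ≤ Q) : n ^ 2 ≤ Q := (sq_le_two_pow hn).trans hQ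

theorem sixteen_le (hn : 4 ≤ n) (hQ : 2 ^ n ≤ Q) : 16 ≤ Q := by
  have := sq_le_Q hn hQ
  nlinarith

theorem one_le_QR (hn : 4 ≤ n) (hQ : 2 ^ n ≤ Q) : (1 : ℝ) ≤ Q := by
  have := sixteen_le hn hQ
  exact_mod_cast (by omega : 1 ≤ Q)

theorem sixteen_leR (hn : 4 ≤ n) (hQ : 2 ^ n ≤ Q) : (16 : ℝ) ≤ Q := by
  exact_mod_cast sixteen_le hn hQ

theorem n_sq_leR (hn : 4 ≤ n) (hQ : 2 ^ n ≤ Q) : (n : ℝ) ^ 2 ≤ Q := by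
  exact_mod_cast sq_le_Q hn hQ

theorem n_add_one_le (hn : 4 ≤ n) (hQ : 2 ^ n ≤ Q) : n + 1 ≤ Q := by
  have := sq_le_Q hn hQ
  nlinarith

theorem n_add_one_leR (hn : 4 ≤ n) (hQ : 2 ^ n ≤ Q) : (n : ℝ) + 1 ≤ Q := by
  exact_mod_cast n_add_one_le hn hQ

theorem n_leR (hn : 4 ≤ n) (hQ : 2 ^ n ≤ Q) : (n : ℝ) ≤ Q := by
  linarith [n_add_one_leR hn hQ]

theorem nQ_le (hn : 4 ≤ n) (hQ : 2 ^ n ≤ Q) : (n : ℝ) * Q ≤ (Q : ℝ) ^ 2 := by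
  have h1 := n_leR hn hQ
  have h2 := one_le_QR hn hQ
  nlinarith

theorem two_pow_leR (hQ : 2 ^ n ≤ Q) : (2 : ℝ) ^ n ≤ Q := by exact_mod_cast hQ

theorem Qpow_mono (hn : 4 ≤ n) (hQ : 2 ^ n ≤ Q) {k l : ℕ} (h : k ≤ l) :
    (Q : ℝ) ^ k ≤ (Q : ℝ) ^ l := pow_le_pow_right₀ (one_le_QR hn hQ) h

theorem Qpow_le_bb (hn : 4 ≤ n) (hQ : 2 ^ n ≤ Q) {k : ℕ} (h : k ≤ 7 * n ^ 2) :
    (Q : ℝ) ^ k ≤ bb n Q := Qpow_mono hn hQ h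

theorem one_le_bb (hn : 4 ≤ n) (hQ : 2 ^ n ≤ Q) : 1 ≤ bb n Q := one_le_pow₀ (one_le_QR hn hQ)

theorem bb_pos (hn : 4 ≤ n) (hQ : 2 ^ n ≤ Q) : 0 < bb n Q :=
  lt_of_lt_of_le one_pos (one_le_bb hn hQ)

theorem bbpow_mono (hn : 4 ≤ n) (hQ : 2 ^ n ≤ Q) {k l : ℕ} (h : k ≤ l) :
    bb n Q ^ k ≤ bb n Q ^ l := pow_le_pow_right₀ (one_le_bb hn hQ) h

theorem Q_le_bb (hn : 4 ≤ n) (hQ : 2 ^ n ≤ Q) : (Q : ℝ) ≤ bb n Q := by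
  have := Qpow_le_bb hn hQ (k := 1) (by nlinarith)
  simpa using this

/-- `b` is at least `2^448` -/
theorem two_pow_le_bb (hn : 4 ≤ n) (hQ : 2 ^ n ≤ Q) : (2 : ℝ) ^ 448 ≤ bb n Q := by
  have h1 : (2 : ℝ) ^ 4 ≤ Q := le_trans (by norm_num) (sixteen_leR hn hQ)
  calc (2 : ℝ) ^ 448 = ((2 : ℝ) ^ 4) ^ 112 := by rw [← pow_mul]
    _ ≤ (Q : ℝ) ^ 112 := pow_le_pow_left₀ (by norm_num) h1 _
    _ ≤ bb n Q := Qpow_le_bb hn hQ (by nlinarith)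

theorem two_pow_le_bb' (hn : 4 ≤ n) (hQ : 2 ^ n ≤ Q) {k : ℕ} (hk : k ≤ 448) :
    (2 : ℝ) ^ k ≤ bb n Q :=
  (pow_le_pow_right₀ (by norm_num) hk).trans (two_pow_le_bb hn hQ)

theorem thousand_le_bb (hn : 4 ≤ n) (hQ : 2 ^ n ≤ Q) : (1000 : ℝ) ≤ bb n Q :=
  le_trans (by norm_num) (two_pow_le_bb' hn hQ (k := 10) (by norm_num))

end Pool.Agent.H72.ES
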