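import Pool.Agent.H72.ES.SNorm
import Pool.Agent.H72.ES.Const

/-! # [ES-TAYLOR] Taylor coefficients of the homogenised polynomial at `(0, α)`

`evt n F t (α + v) = ∑_{a+l ≤ n} F_al t^(n-a-l) (α+v)^l`; put `i = n - a - l` and expand
`(α+v)^l = ∑_j C(l,j) α^(l-j) v^j`. `tc n F α i j = ∑_{l ≤ n-i} F (n-i-l) l * C(l,j) * α^(l-j)`.

Bounds (all for `i, j ≤ n`): `|F| ≤ Q`, `C(l,j) ≤ 2^n ≤ Q`, `ν α ≤ n Q ≤ Q^2` so
`ν (α^k) ≤ Q^(2 n)` for `k ≤ n`, at most `n+1 ≤ Q` terms: `ν (tc i j) ≤ Q^(2n+3) ≤ Q^(3n)`.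
`κ = f'(α) = ∑_{j=1}^n j f_j α^(j-1)`: `ν κ ≤ n * n * Q * Q^(2(n-1)) ≤ Q^(2n)` since
`n^2 ≤ Q`. `κ ≠ 0` by `O.indep` (degree `n-1`, leading coefficient `n`). Liouville:
`1 ≤ ‖φ κ‖ Q^(4n) ν(κ)^n ≤ ‖φ κ‖ Q^(4n+2n²) ≤ ‖φ κ‖ Q^(3n²)`. -/

namespace Pool.Agent.H72.ES

open Finset Polynomial

theorem taylor_reindex {M : Type*} [AddCommMonoid M] (n : ℕ) (g : ℕ → ℕ → M) :
    ∑ a ∈ range (n + 1), ∑ l ∈ range (n + 1 - a), g a l =
      ∑ i ∈ range (n + 1), ∑ l ∈ range (n + 1 - i), g (n - i - l) l := by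
  have h1 : ∑ a ∈ range (n + 1), ∑ l ∈ range (n + 1 - a), g a l =
      ∑ l ∈ range (n + 1), ∑ a ∈ range (n + 1 - l), g a l := by
    apply Finset.sum_comm'
    intro a l
    simp only [mem_range]
    omega
  have h2 : ∑ i ∈ range (n + 1), ∑ l ∈ range (n + 1 - i), g (n - i - l) l =
      ∑ l ∈ range (n + 1), ∑ i ∈ range (n + 1 - l), g (n - i - l) l := by
    apply Finset.sum_comm'
    intro a l
    simp only [mem_range]
    omega
  rw [h1, h2]
  refine sum_congr rfl fun l hl => ?_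
  rw [← Finset.sum_range_reflect]
  refine sum_congr rfl fun a ha => ?_
  simp only [mem_range] at ha hl
  congr 1
  omega

theorem evt_taylor {S : Type*} [CommRing S] (n : ℕ) (F : ℕ → ℕ → ℤ) (t α v : S) :
    evt n (cst S F) t (α + v) =
      ∑ i ∈ range (n + 1), ∑ j ∈ range (n + 1), tc n F α i j * t ^ i * v ^ j := by
  unfold evt tc cst
  rw [taylor_reindex n (fun i j => ((F i j : ℤ) : S) * t ^ (n - i - j) * (α + v) ^ j)]
  refine sum_congr rfl fun i hi => ?_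
  simp only [sum_mul]
  rw [Finset.sum_comm]
  refine sum_congr rfl fun l hl => ?_
  simp only [mem_range] at hi hl
  have h1 : n - (n - i - l) - l = i := by omega
  rw [h1]
  have h2 : (α + v) ^ l = ∑ j ∈ range (n + 1), (l.choose j : S) * α ^ (l - j) * v ^ j := by
    rw [add_comm α v, add_pow]
    have h3 : range (l + 1) ⊆ range (n + 1) := by
      intro x hx
      simp only [mem_range] at hx ⊢
      omega
    rw [← Finset.sum_subset h3]
    · refine sum_congr rfl fun j _ => ?_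
      ring
    · intro j _ hj
      simp only [mem_range, not_lt] at hj
      rw [Nat.choose_eq_zero_of_lt (by omega)]
      simp
  rw [h2, mul_sum]
  refine sum_congr rfl fun j _ => ?_
  ring

theorem tc_zero_zero {S : Type*} [CommRing S] (n : ℕ) (F : ℕ → ℕ → ℤ) (α : S) :
    tc n F α 0 0 = aeval α (lead n F) := by
  simp [tc, lead]

theorem tc_zero_one {S : Type*} [CommRing S] (n : ℕ) (F : ℕ → ℕ → ℤ) (α : S) :
    tc n F α 0 1 = aeval α (derivative (lead n F)) := by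
  simp only [tc, lead, derivative_sum, derivative_mul, derivative_C, derivative_X_pow, map_sum,
    zero_mul, zero_add, map_mul, map_pow, aeval_X, aeval_C, Nat.choose_one_right, tsub_zero]
  refine sum_congr rfl fun l _ => ?_
  simp
  ring

theorem tc_map {S S' : Type*} [CommRing S] [CommRing S'] (ψ : S →+* S') (n : ℕ)
    (F : ℕ → ℕ → ℤ) (α : S) (i j : ℕ) : ψ (tc n F α i j) = tc n F (ψ α) i j := by
  simp [tc, map_sum, map_mul, map_pow]

variable {𝕜 : Type} [RCLike 𝕜] {n Q : ℕ} {f : ℤ[X]} {θ : 𝕜}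

theorem nu_alpha_pow (O : Ord 𝕜 n Q f θ) {F : ℕ → ℕ → ℤ} (hF : Norml n Q f F) (k : ℕ) :
    O.ν (O.α ^ k) ≤ (Q : ℝ) ^ (2 * k) := by
  refine (O.subMul.pow _ _).trans ?_
  rw [pow_mul]
  exact pow_le_pow_left₀ (O.ν_nonneg _) (O.ν_α.trans (nQ_le hF.hn hF.hQ)) _

theorem nu_nat (O : Ord 𝕜 n Q f θ) (k : ℕ) : O.ν (k : O.R) ≤ k := by
  have := O.ν_int (k : ℤ)
  simpa using this

theorem tc_bound (O : Ord 𝕜 n Q f θ) {F : ℕ → ℕ → ℤ} (hF : Norml n Q f F) {i j : ℕ}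
    (hi : i ≤ n) (hj : j ≤ n) : O.ν (tc n F O.α i j) ≤ (Q : ℝ) ^ (3 * n) := by
  have hQ1 := one_le_QR hF.hn hF.hQ
  have hQ0 : (0 : ℝ) ≤ Q := by linarith
  unfold tc
  refine (O.subMul.sum _ _).trans ?_
  have h1 : ∀ l ∈ range (n + 1 - i),
      O.ν ((F (n - i - l) l : O.R) * (l.choose j : O.R) * O.α ^ (l - j)) ≤
        (Q : ℝ) ^ (2 * n + 2) := by
    intro l hl
    simp only [mem_range] at hl
    have hF1 : O.ν (F (n - i - l) l : O.R) ≤ Q := by
      refine (O.ν_int _).trans ?_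
      have := hF.bound (n - i - l) l (by omega)
      exact_mod_cast this
    have hc : O.ν (l.choose j : O.R) ≤ Q := by
      refine (nu_nat O _).trans ?_
      have h2 : l.choose j ≤ 2 ^ l := Nat.choose_le_two_pow l j
      have h3 : 2 ^ l ≤ 2 ^ n := Nat.pow_le_pow_right (by norm_num) (by omega)
      exact_mod_cast (h2.trans h3).trans hF.hQ
    have hα : O.ν (O.α ^ (l - j)) ≤ (Q : ℝ) ^ (2 * n) :=
      (nu_alpha_pow O hF _).trans (Qpow_mono hF.hn hF.hQ (by omega))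
    calc O.ν ((F (n - i - l) l : O.R) * (l.choose j : O.R) * O.α ^ (l - j))
        ≤ O.ν ((F (n - i - l) l : O.R) * (l.choose j : O.R)) * O.ν (O.α ^ (l - j)) := O.ν_mul _ _
      _ ≤ (O.ν (F (n - i - l) l : O.R) * O.ν (l.choose j : O.R)) * O.ν (O.α ^ (l - j)) :=
          mul_le_mul_of_nonneg_right (O.ν_mul _ _) (O.ν_nonneg _)
      _ ≤ ((Q : ℝ) * Q) * (Q : ℝ) ^ (2 * n) := by
          refine mul_le_mul (mul_le_mul hF1 hc (O.ν_nonneg _) hQ0) hα (O.ν_nonneg _) (by positivity)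
      _ = (Q : ℝ) ^ (2 * n + 2) := by ring
  refine (sum_le_sum h1).trans ?_
  rw [sum_const, card_range, nsmul_eq_mul]
  have h2 : ((n + 1 - i : ℕ) : ℝ) ≤ Q := by
    have : n + 1 - i ≤ Q := (Nat.sub_le _ _).trans (n_add_one_le hF.hn hF.hQ)
    exact_mod_cast this
  calc ((n + 1 - i : ℕ) : ℝ) * (Q : ℝ) ^ (2 * n + 2) ≤ Q * (Q : ℝ) ^ (2 * n + 2) :=
        mul_le_mul_of_nonneg_right h2 (by positivity)
    _ = (Q : ℝ) ^ (2 * n + 3) := by ring
    _ ≤ (Q : ℝ) ^ (3 * n) := Qpow_mono hF.hn hF.hQ (by have := hF.hn; omega)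

theorem lead_coeff (n : ℕ) (F : ℕ → ℕ → ℤ) (j : ℕ) :
    (lead n F).coeff j = if j ≤ n then F (n - j) j else 0 := by
  unfold lead
  rw [finset_sum_coeff]
  simp only [coeff_C_mul, coeff_X_pow, mul_ite, mul_one, mul_zero]
  rw [Finset.sum_ite_eq (range (n + 1)) j]
  simp only [mem_range, Nat.lt_succ_iff]

/-- properties of the leading polynomial -/
theorem Norml.lead_props {F : ℕ → ℕ → ℤ} (hF : Norml n Q f F) :
    f.Monic ∧ f.natDegree = n ∧ ∀ j, |f.coeff j| ≤ (Q : ℤ) := by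
  have hc : ∀ j, f.coeff j = if j ≤ n then F (n - j) j else 0 := by
    intro j
    rw [← hF.lead_eq]
    exact lead_coeff n F j
  have hcn : f.coeff n = 1 := by
    rw [hc, if_pos le_rfl, Nat.sub_self]
    exact hF.top
  have hdeg : f.natDegree = n := by
    apply le_antisymm
    · rw [natDegree_le_iff_coeff_eq_zero]
      intro N hN
      rw [hc, if_neg (by omega)]
    · exact le_natDegree_of_ne_zero (by rw [hcn]; norm_num)
  refine ⟨?_, hdeg, ?_⟩
  · rw [Monic, leadingCoeff, hdeg, hcn]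
  · intro j
    rw [hc]
    split_ifs with h
    · exact hF.bound _ _ (by omega)
    · simp

theorem kappa_eq_tc (O : Ord 𝕜 n Q f θ) {F : ℕ → ℕ → ℤ} (hF : Norml n Q f F) :
    O.κ = tc n F O.α 0 1 := by
  rw [tc_zero_one, hF.lead_eq]
  rfl

theorem kappa_bound (O : Ord 𝕜 n Q f θ) {F : ℕ → ℕ → ℤ} (hF : Norml n Q f F) :
    O.ν O.κ ≤ (Q : ℝ) ^ (2 * n) := by
  have hQ1 := one_le_QR hF.hn hF.hQ
  have hQ0 : (0 : ℝ) ≤ Q := by linarith
  have hn4 := hF.hn
  rw [kappa_eq_tc O hF]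
  unfold tc
  rw [tsub_zero, sum_range_succ']
  have h0 : (F (n - 0 - 0) 0 : O.R) * (Nat.choose 0 1 : O.R) * O.α ^ (0 - 1) = 0 := by simp
  rw [h0, add_zero]
  refine (O.subMul.sum _ _).trans ?_
  have h1 : ∀ l ∈ range n,
      O.ν ((F (n - 0 - (l + 1)) (l + 1) : O.R) * ((l + 1).choose 1 : O.R) *
        O.α ^ (l + 1 - 1)) ≤ n * (Q : ℝ) ^ (2 * n - 1) := by
    intro l hl
    simp only [mem_range] at hl
    have hF1 : O.ν (F (n - 0 - (l + 1)) (l + 1) : O.R) ≤ Q := by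
      refine (O.ν_int _).trans ?_
      have := hF.bound (n - 0 - (l + 1)) (l + 1) (by omega)
      exact_mod_cast this
    have hc : O.ν ((l + 1).choose 1 : O.R) ≤ n := by
      refine (nu_nat O _).trans ?_
      rw [Nat.choose_one_right]
      exact_mod_cast (by omega : l + 1 ≤ n)
    have hα : O.ν (O.α ^ (l + 1 - 1)) ≤ (Q : ℝ) ^ (2 * n - 2) :=
      (nu_alpha_pow O hF _).trans (Qpow_mono hF.hn hF.hQ (by omega))
    calc O.ν ((F (n - 0 - (l + 1)) (l + 1) : O.R) * ((l + 1).choose 1 : O.R) *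
          O.α ^ (l + 1 - 1))
        ≤ O.ν ((F (n - 0 - (l + 1)) (l + 1) : O.R) * ((l + 1).choose 1 : O.R)) *
          O.ν (O.α ^ (l + 1 - 1)) := O.ν_mul _ _
      _ ≤ (O.ν (F (n - 0 - (l + 1)) (l + 1) : O.R) * O.ν ((l + 1).choose 1 : O.R)) *
          O.ν (O.α ^ (l + 1 - 1)) := mul_le_mul_of_nonneg_right (O.ν_mul _ _) (O.ν_nonneg _)
      _ ≤ ((Q : ℝ) * n) * (Q : ℝ) ^ (2 * n - 2) := by
          refine mul_le_mul (mul_le_mul hF1 hc (O.ν_nonneg _) hQ0) hα (O.ν_nonneg _) (by positivity)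
      _ = n * (Q : ℝ) ^ (2 * n - 1) := by
          have : 2 * n - 1 = (2 * n - 2) + 1 := by omega
          rw [this, pow_succ]
          ring
  refine (sum_le_sum h1).trans ?_
  rw [sum_const, card_range, nsmul_eq_mul]
  have h2 := n_sq_leR hF.hn hF.hQ
  calc (n : ℝ) * (n * (Q : ℝ) ^ (2 * n - 1)) = (n : ℝ) ^ 2 * (Q : ℝ) ^ (2 * n - 1) := by ring
    _ ≤ Q * (Q : ℝ) ^ (2 * n - 1) := mul_le_mul_of_nonneg_right h2 (by positivity)
    _ = (Q : ℝ) ^ (2 * n) := by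
        rw [← pow_succ']
        congr 1
        omega

theorem kappa_ne (O : Ord 𝕜 n Q f θ) {F : ℕ → ℕ → ℤ} (hF : Norml n Q f F) : O.κ ≠ 0 := by
  obtain ⟨hm, hd, -⟩ := hF.lead_props
  have hn4 := hF.hn
  intro h0
  have h1 : (derivative f).natDegree < n := by
    have := natDegree_derivative_lt (p := f) (by omega)
    omega
  have h2 := O.indep (derivative f) h1 h0
  have h3 : (derivative f).coeff (n - 1) = n := by
    rw [coeff_derivative]
    have h4 : n - 1 + 1 = n := by omega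
    rw [h4]
    have h5 : f.coeff n = 1 := by
      have := hm.coeff_natDegree
      rwa [hd] at this
    rw [h5]
    have h6 : ((n - 1 : ℕ) : ℤ) + 1 = n := by omega
    rw [h6, one_mul]
  rw [h2, coeff_zero] at h3
  omega

theorem kappa_lower (O : Ord 𝕜 n Q f θ) {F : ℕ → ℕ → ℤ} (hF : Norml n Q f F) :
    1 ≤ ‖O.φ O.κ‖ * (Q : ℝ) ^ (3 * n ^ 2) := by
  have hn4 := hF.hn
  have hQ1 := one_le_QR hF.hn hF.hQ
  refine (O.liouville _ (kappa_ne O hF)).trans ?_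
  refine mul_le_mul_of_nonneg_left ?_ (norm_nonneg _)
  calc (Q : ℝ) ^ (4 * n) * O.ν O.κ ^ n ≤ (Q : ℝ) ^ (4 * n) * ((Q : ℝ) ^ (2 * n)) ^ n := by
        refine mul_le_mul_of_nonneg_left ?_ (by positivity)
        exact pow_le_pow_left₀ (O.ν_nonneg _) (kappa_bound O hF) _
    _ = (Q : ℝ) ^ (4 * n + 2 * n * n) := by rw [← pow_mul, ← pow_add]
    _ ≤ (Q : ℝ) ^ (3 * n ^ 2) := Qpow_mono hF.hn hF.hQ (by nlinarith)

end Pool.Agent.H72.ES
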