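import Pool.Agent.H72.ES.Biv
import Pool.Agent.H72.ES.Taylor

/-! # [ES-INJ] Functions of `y`-degree `< n` do not vanish identically along a series solution

`x = xs x₁ κ = x₁ + κ X` (`x₁, κ ≠ 0`), `Y` with `F(x, Y) = 0`, `p ∈ ℤ[x][y]` nonzero of
`y`-degree `< n`. Then `p(x, Y) ≠ 0`.

(1) `F~(t,z) = evt n F` as a polynomial in `ℤ[t][z]`, `Ft = ∑ C (C (F i j) * X^(n-i-j)) * X^j`, is
monic of degree `n` in `z` (`F 0 n = 1`) and its image under `t ↦ 0` is `f` (`lead n F = f`),
irreducible; so `Ft` is irreducible (`Polynomial.Monic.irreducible_of_irreducible_map` with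
`Polynomial.constantCoeff`/`evalRingHom 0 : ℤ[X] →+* ℤ`), and irreducible over
`RatFunc ℚ`/`FractionRing ℤ[X]` by Gauss (`Polynomial.Monic.irreducible_iff_irreducible_map_
fraction_map`).
(2) Let `d` be large, `pt(t,z) = ∑ t^(d-i-j) z^j p_ij` (nonzero, `z`-degree `< n`). Over the
fraction field of `ℤ[t]`, `Ft` and `pt` are coprime.
(3) The homomorphism `ℤ[t] → Frac ℤ⟦X⟧`, `t ↦ 1/x` is injective since `x = x₁ + κ X` with
`κ ≠ 0`, so it extends to the fraction field. Put `z = t Y`. `Ft(t,z) =
t^n F(x,Y) = 0`; if `p(x,Y) = 0` then `pt(t,z) = t^d p(x,Y) = 0` and the Bezout identity gives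
`0 = 1`. -/

namespace Pool.Agent.H72.ES

open Finset Polynomial

/-- coefficients of the homogenised bivariate polynomial -/
theorem inj_coeff (d : ℕ) (c : ℕ → ℕ → ℤ) (j k : ℕ) :
    ((evt d (cst ℤ[X][X] c) (C X) X).coeff j).coeff k =
      if j + k ≤ d then c (d - j - k) j else 0 := by
  have h1 : evt d (cst ℤ[X][X] c) (C X) X =
      ∑ i ∈ range (d + 1), ∑ j ∈ range (d + 1 - i), C (C (c i j) * X ^ (d - i - j)) * X ^ j := by
    unfold evt cst
    refine sum_congr rfl fun i _ => sum_congr rfl fun j _ => ?_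
    simp [map_mul, map_pow]
  rw [h1]
  simp only [finsetSum_coeff, coeff_C_mul_X_pow]
  have h2 : ∀ i ∈ range (d + 1), ∑ x ∈ range (d + 1 - i),
      (if j = x then C (c i x) * X ^ (d - i - x) else (0 : ℤ[X])).coeff k =
      if i = d - j - k then (if j + k ≤ d then c i j else 0) else 0 := by
    intro i hi
    simp only [mem_range] at hi
    have h3 : ∀ x ∈ range (d + 1 - i),
        (if j = x then C (c i x) * X ^ (d - i - x) else (0 : ℤ[X])).coeff k =
        if j = x then (if k = d - i - x then c i x else 0) else 0 := by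
      intro x _
      split_ifs with h4 h5
      · rw [coeff_C_mul_X_pow, if_pos h5]
      · rw [coeff_C_mul_X_pow, if_neg h5]
      · simp
    rw [sum_congr rfl h3, sum_ite_eq]
    simp only [mem_range]
    split_ifs <;> first | rfl | omega
  rw [sum_congr rfl h2, sum_ite_eq']
  simp only [mem_range]
  split_ifs <;> first | rfl | omega

/-- coefficients of `toP` -/
theorem toP_coeff (d : ℕ) (c : ℕ → ℕ → ℤ) (j k : ℕ) :
    ((toP d c).coeff j).coeff k = if k + j ≤ d then c k j else 0 := by
  unfold toP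
  simp only [finsetSum_coeff, coeff_C_mul_X_pow]
  have h2 : ∀ i ∈ range (d + 1), ∑ x ∈ range (d + 1 - i),
      (if j = x then C (c i x) * X ^ i else (0 : ℤ[X])).coeff k =
      if k = i then (if k + j ≤ d then c k j else 0) else 0 := by
    intro i hi
    simp only [mem_range] at hi
    have h3 : ∀ x ∈ range (d + 1 - i),
        (if j = x then C (c i x) * X ^ i else (0 : ℤ[X])).coeff k =
        if j = x then (if k = i then c i x else 0) else 0 := by
      intro x _
      split_ifs with h4 h5
      · rw [coeff_C_mul_X_pow, if_pos h5]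
      · rw [coeff_C_mul_X_pow, if_neg h5]
      · simp
    rw [sum_congr rfl h3, sum_ite_eq]
    simp only [mem_range]
    split_ifs with h4 h5 h6 h7 h8
    · rw [h5]
    · omega
    · rfl
    · omega
    · rfl
    · rfl
  rw [sum_congr rfl h2, sum_ite_eq]
  simp only [mem_range]
  split_ifs <;> first | rfl | omega

theorem inj {n Q : ℕ} {f : ℤ[X]} {F : ℕ → ℕ → ℤ} (hF : Norml n Q f F) (hf : Irreducible f)
    (x1 κ : ℤ) (hx1 : x1 ≠ 0) (hκ : κ ≠ 0) (Y : PowerSeries ℤ)
    (hY : Lam (xs x1 κ) Y (toP n F) = 0) (p : ℤ[X][X]) (hp : p ≠ 0) (hdeg : p.natDegree < n) :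
    Lam (xs x1 κ) Y p ≠ 0 := by
  classical
  intro hpY
  -- the homogenised equation
  set Ft : ℤ[X][X] := evt n (cst ℤ[X][X] F) (C X) X with hFt
  have hFtc : ∀ j k, (Ft.coeff j).coeff k = if j + k ≤ n then F (n - j - k) j else 0 :=
    inj_coeff n F
  have hcn : Ft.coeff n = 1 := by
    ext k
    rw [hFtc, coeff_one]
    by_cases hk : k = 0
    · subst hk
      simp [hF.top]
    · rw [if_neg (by omega), if_neg hk]
  have hdegle : Ft.natDegree ≤ n := by
    rw [natDegree_le_iff_coeff_eq_zero]
    intro j hj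
    ext k
    rw [hFtc, if_neg (by omega), coeff_zero]
  have hmonic : Ft.Monic := monic_of_natDegree_le_of_coeff_eq_one n hdegle hcn
  have hnat : Ft.natDegree = n := by
    apply le_antisymm hdegle
    apply le_natDegree_of_ne_zero
    rw [hcn]
    exact one_ne_zero
  have hmap : Ft.map (evalRingHom (0 : ℤ)) = f := by
    rw [← hF.lead_eq]
    ext j
    rw [coeff_map, coe_evalRingHom, ← coeff_zero_eq_eval_zero, hFtc, lead, finsetSum_coeff]
    simp only [coeff_C_mul_X_pow, sum_ite_eq, mem_range]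
    simp only [add_zero, Nat.sub_zero]
    split_ifs <;> first | rfl | omega
  have hirr : Irreducible Ft := by
    apply hmonic.irreducible_of_irreducible_map (evalRingHom (0 : ℤ))
    rw [hmap]
    exact hf
  -- the fraction field
  let K := FractionRing ℤ[X]
  have hirrK : Irreducible (Ft.map (algebraMap ℤ[X] K)) :=
    (hmonic.irreducible_iff_irreducible_map_fraction_map (K := K)).1 hirr
  -- the array of p
  let c : ℕ → ℕ → ℤ := fun i j => (p.coeff j).coeff i
  let d : ℕ := p.natDegree + ∑ j ∈ p.support, (p.coeff j).natDegree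
  have hcd : ∀ i j, c i j ≠ 0 → i + j ≤ d := by
    intro i j h
    have h1 : p.coeff j ≠ 0 := by
      intro h0
      apply h
      simp [c, h0]
    have h2 : j ≤ p.natDegree := le_natDegree_of_ne_zero h1
    have h3 : i ≤ (p.coeff j).natDegree := le_natDegree_of_ne_zero h
    have h4 : (p.coeff j).natDegree ≤ ∑ j ∈ p.support, (p.coeff j).natDegree :=
      single_le_sum (f := fun j => (p.coeff j).natDegree) (fun _ _ => Nat.zero_le _)
        (mem_support_iff.2 h1)
    show i + j ≤ p.natDegree + ∑ j ∈ p.support, (p.coeff j).natDegree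
    omega
  have hpc : toP d c = p := by
    ext j k
    rw [toP_coeff]
    split_ifs with h
    · rfl
    · by_contra hc
      exact h (hcd k j (Ne.symm hc))
  set pt : ℤ[X][X] := evt d (cst ℤ[X][X] c) (C X) X with hpt
  have hptc : ∀ j k, (pt.coeff j).coeff k = if j + k ≤ d then c (d - j - k) j else 0 :=
    inj_coeff d c
  have hpt0 : pt ≠ 0 := by
    intro h0
    apply hp
    ext j i
    rw [coeff_zero, coeff_zero]
    by_contra hc
    have h1 := hcd i j hc
    have h2 := hptc j (d - i - j)
    rw [h0, coeff_zero, coeff_zero, if_pos (by omega)] at h2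
    have h3 : d - j - (d - i - j) = i := by omega
    rw [h3] at h2
    exact hc h2.symm
  have hptdeg : pt.natDegree < n := by
    refine lt_of_le_of_lt ?_ hdeg
    rw [natDegree_le_iff_coeff_eq_zero]
    intro j hj
    ext k
    rw [hptc, coeff_zero]
    split_ifs
    · show (p.coeff j).coeff _ = 0
      rw [coeff_eq_zero_of_natDegree_lt hj, coeff_zero]
    · rfl
  have hinjK : Function.Injective (algebraMap ℤ[X] K) := IsFractionRing.injective _ _
  have hcop : IsCoprime (Ft.map (algebraMap ℤ[X] K)) (pt.map (algebraMap ℤ[X] K)) := by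
    rw [hirrK.coprime_iff_not_dvd]
    intro hdvd
    have h1 : pt.map (algebraMap ℤ[X] K) ≠ 0 := by
      rw [Ne, Polynomial.map_eq_zero_iff hinjK]
      exact hpt0
    have h2 := natDegree_le_of_dvd hdvd h1
    rw [natDegree_map_eq_of_injective hinjK, natDegree_map_eq_of_injective hinjK, hnat] at h2
    omega
  -- the target field
  let L := FractionRing (PowerSeries ℤ)
  let ι : PowerSeries ℤ →+* L := algebraMap (PowerSeries ℤ) L
  have hι : Function.Injective ι := IsFractionRing.injective _ _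
  -- the series `x`
  have hxpoly : xs x1 κ = ((C x1 + C κ * X : ℤ[X]) : PowerSeries ℤ) := by
    rw [xs, Polynomial.coe_add, Polynomial.coe_mul, Polynomial.coe_C, Polynomial.coe_C,
      Polynomial.coe_X]
  have hev : ∀ r : ℤ[X], eval₂ (Int.castRingHom (PowerSeries ℤ)) (xs x1 κ) r = 0 → r = 0 := by
    intro r hr
    have h1 : eval₂ (Int.castRingHom (PowerSeries ℤ)) (xs x1 κ) r =
        ((r.comp (C x1 + C κ * X) : ℤ[X]) : PowerSeries ℤ) := by
      have h2 := Polynomial.hom_eval₂ r (C : ℤ →+* ℤ[X])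
        (Polynomial.coeToPowerSeries.ringHom (R := ℤ)) (C x1 + C κ * X)
      rw [comp, ← Polynomial.coeToPowerSeries.ringHom_apply, h2,
        Polynomial.coeToPowerSeries.ringHom_apply, ← hxpoly]
      congr 1
      exact Subsingleton.elim _ _
    rw [h1, Polynomial.coe_eq_zero_iff, comp_eq_zero_iff] at hr
    rcases hr with hr | ⟨_, hr⟩
    · exact hr
    · exfalso
      have := congrArg (fun q : ℤ[X] => q.coeff 1) hr
      simp at this
      exact hκ this
  have hxne : xs x1 κ ≠ 0 := by
    intro h0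
    have := hev X (by rw [eval₂_X]; exact h0)
    exact X_ne_zero this
  set x : L := ι (xs x1 κ) with hx
  have hx0 : x ≠ 0 := by
    rw [hx, Ne, map_eq_zero_iff ι hι]
    exact hxne
  set t : L := x⁻¹ with ht
  have htx : t * x = 1 := inv_mul_cancel₀ hx0
  have ht0 : t ≠ 0 := inv_ne_zero hx0
  let ψ : ℤ[X] →+* L := eval₂RingHom (Int.castRingHom L) t
  have hψ : Function.Injective ψ := by
    rw [injective_iff_map_eq_zero]
    intro q hq
    let : Invertible t := invertibleOfNonzero ht0
    have h1 : eval₂ (Int.castRingHom L) t q = 0 := hq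
    rw [← eval₂_reverse_eq_zero_iff] at h1
    have h2 : (⅟t : L) = ι (xs x1 κ) := by
      rw [invOf_eq_inv, ht, inv_inv, hx]
    rw [h2] at h1
    have h3 : eval₂ (Int.castRingHom L) (ι (xs x1 κ)) q.reverse =
        ι (eval₂ (Int.castRingHom (PowerSeries ℤ)) (xs x1 κ) q.reverse) := by
      rw [Polynomial.hom_eval₂]
      congr 1
      exact Subsingleton.elim _ _
    rw [h3, map_eq_zero_iff ι hι] at h1
    exact reverse_eq_zero.1 (hev _ h1)
  let Ψ : K →+* L := IsFractionRing.lift hψ
  have hΨ : ∀ a, Ψ (algebraMap ℤ[X] K a) = ψ a := fun a => IsFractionRing.lift_algebraMap hψ a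
  -- evaluation
  set z : L := t * ι Y with hz
  have hval : ∀ (d' : ℕ) (c' : ℕ → ℕ → ℤ),
      eval₂ Ψ z ((evt d' (cst ℤ[X][X] c') (C X) X).map (algebraMap ℤ[X] K)) =
        evt d' (cst L c') t z := by
    intro d' c'
    rw [eval₂_map]
    have h1 : Ψ.comp (algebraMap ℤ[X] K) = ψ := by
      ext a <;> exact hΨ _
    rw [h1]
    have h2 := evt_map (eval₂RingHom ψ z) d' (cst ℤ[X][X] c') (C X) X
    rw [coe_eval₂RingHom] at h2
    rw [h2, eval₂_C, eval₂_X]
    have h3 : ψ X = t := by
      show eval₂ (Int.castRingHom L) t X = t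
      rw [eval₂_X]
    rw [h3]
    have h4 := cst_map (eval₂RingHom ψ z) c'
    rw [coe_eval₂RingHom] at h4
    rw [h4]
  have hvan : ∀ (d' : ℕ) (c' : ℕ → ℕ → ℤ), Lam (xs x1 κ) Y (toP d' c') = 0 →
      evt d' (cst L c') t z = 0 := by
    intro d' c' h
    rw [hz, evt_eq_ev d' (cst L c') x (ι Y) t htx]
    have h1 : ev d' (cst L c') x (ι Y) = ι (Lam (xs x1 κ) Y (toP d' c')) := by
      rw [Lam_toP, ev_map, cst_map]
    rw [h1, h, map_zero, mul_zero]
  obtain ⟨u, v, huv⟩ := hcop
  have h1 := congrArg (eval₂ Ψ z) huv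
  rw [eval₂_add, eval₂_mul, eval₂_mul, hFt, hpt, hval, hval, hvan n F hY,
    hvan d c (by rw [hpc]; exact hpY), eval₂_one] at h1
  simp at h1

end Pool.Agent.H72.ES
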