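import Pool.Agent.H72.ES.Biv

/-! # [ES-CHAIN] The derivation `F_y ∂_x - F_x ∂_y` along a series solution

`x = x₁ + κ X` (`x' = κ`), `Y` with `Lam x Y F = 0`, `Λ = Lam x Y : ℤ[X][X] → ℤ⟦X⟧`. Chain rule:
`(Λ p)' = κ Λ(p_x) + Y' Λ(p_y)`. Applied to `F`: `κ Λ(F_x) + Y' Λ(F_y) = 0`. Hence
`Λ(F_y) (Λ p)' = κ Λ(F_y p_x) + Λ(p_y) (Y' Λ(F_y)) = κ Λ(F_y p_x - F_x p_y) = κ Λ(Dop F p)`.
The chain rule: both sides are derivations in `p` vanishing suitably; check on monomials
`C (C a * X^i) * X^j` and add (`Polynomial.induction_on` twice). -/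

namespace Pool.Agent.H72.ES

open Finset Polynomial

theorem chain_dX_coeff (p : ℤ[X][X]) (j : ℕ) : (dX p).coeff j = derivative (p.coeff j) := by
  unfold dX
  rw [finsetSum_coeff]
  simp only [coeff_C_mul_X_pow]
  rw [Finset.sum_ite_eq]
  split_ifs with h
  · rfl
  · rw [notMem_support_iff.mp h, derivative_zero]

theorem chain_dX_add (p q : ℤ[X][X]) : dX (p + q) = dX p + dX q := by
  ext1 j
  rw [coeff_add, chain_dX_coeff, chain_dX_coeff, chain_dX_coeff, coeff_add, derivative_add]

theorem chain_dX_monomial (j : ℕ) (a : ℤ[X]) : dX (monomial j a) = monomial j (derivative a) := by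
  ext1 i
  rw [chain_dX_coeff, coeff_monomial, coeff_monomial]
  split_ifs
  · rfl
  · exact derivative_zero

theorem chain_inner (x1 κ : ℤ) (a : ℤ[X]) :
    PowerSeries.derivative ℤ (eval₂ (Int.castRingHom (PowerSeries ℤ)) (xs x1 κ) a) =
      PowerSeries.C κ * eval₂ (Int.castRingHom (PowerSeries ℤ)) (xs x1 κ) (derivative a) := by
  have hx : PowerSeries.derivative ℤ (xs x1 κ) = PowerSeries.C κ := by
    unfold xs
    rw [map_add, PowerSeries.derivative_C, zero_add, Derivation.leibniz, PowerSeries.derivative_C,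
      PowerSeries.derivative_X]
    simp
  induction a using Polynomial.induction_on' with
  | add p q hp hq => rw [eval₂_add, map_add, hp, hq, derivative_add, eval₂_add, mul_add]
  | monomial n c =>
    rw [eval₂_monomial, derivative_monomial, eval₂_monomial, Derivation.leibniz,
      Derivation.leibniz_pow, hx]
    have hc : PowerSeries.derivative ℤ ((Int.castRingHom (PowerSeries ℤ)) c) = 0 := by
      have : (Int.castRingHom (PowerSeries ℤ)) c = PowerSeries.C c := by simp
      rw [this, PowerSeries.derivative_C]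
    rw [hc]
    simp only [smul_eq_mul, mul_zero, add_zero, nsmul_eq_mul, map_mul, map_natCast]
    ring

theorem chain_rule (x1 κ : ℤ) (Y : PowerSeries ℤ) (p : ℤ[X][X]) :
    PowerSeries.derivative ℤ (Lam (xs x1 κ) Y p) =
      PowerSeries.C κ * Lam (xs x1 κ) Y (dX p) +
        PowerSeries.derivative ℤ Y * Lam (xs x1 κ) Y (derivative p) := by
  induction p using Polynomial.induction_on' with
  | add p q hp hq =>
    rw [map_add, map_add, hp, hq, chain_dX_add, derivative_add, map_add, map_add]
    ring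
  | monomial n c =>
    rw [chain_dX_monomial, derivative_monomial]
    have hL : ∀ (m : ℕ) (e : ℤ[X]), Lam (xs x1 κ) Y (monomial m e) =
        eval₂ (Int.castRingHom (PowerSeries ℤ)) (xs x1 κ) e * Y ^ m := by
      intro m e
      unfold Lam
      rw [coe_eval₂RingHom, eval₂_monomial]
      rfl
    rw [hL, hL, hL, Derivation.leibniz, Derivation.leibniz_pow, chain_inner, eval₂_mul]
    simp only [smul_eq_mul, nsmul_eq_mul, eval₂_natCast]
    ring

theorem Dop_chain (x1 κ : ℤ) (Y : PowerSeries ℤ) (F : ℤ[X][X])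
    (hF : Lam (xs x1 κ) Y F = 0) (p : ℤ[X][X]) :
    PowerSeries.C κ * Lam (xs x1 κ) Y (Dop F p) =
      Lam (xs x1 κ) Y (derivative F) * PowerSeries.derivative ℤ (Lam (xs x1 κ) Y p) := by
  have h1 := chain_rule x1 κ Y p
  have h2 := chain_rule x1 κ Y F
  rw [hF, map_zero] at h2
  rw [h1]
  unfold Dop
  rw [map_sub, map_mul, map_mul]
  linear_combination (Lam (xs x1 κ) Y (derivative p)) * h2

theorem chain_dX_smul (c : ℤ) (p : ℤ[X][X]) : dX (c • p) = c • dX p := by
  ext1 j
  rw [chain_dX_coeff, coeff_smul, coeff_smul, chain_dX_coeff, derivative_smul]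

/-- the derivation is additive, hence commutes with integer combinations -/
theorem Dop_sum {ι : Type*} (s : Finset ι) (F : ℤ[X][X]) (c : ι → ℤ) (g : ι → ℤ[X][X]) :
    Dop F (∑ l ∈ s, c l • g l) = ∑ l ∈ s, c l • Dop F (g l) := by
  classical
  induction s using Finset.induction_on with
  | empty =>
    rw [Finset.sum_empty, Finset.sum_empty]
    unfold Dop
    have : dX (0 : ℤ[X][X]) = 0 := by
      ext1 j
      rw [chain_dX_coeff, coeff_zero, derivative_zero]
    rw [this]
    simp
  | insert a s ha ih =>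
    rw [Finset.sum_insert ha, Finset.sum_insert ha, ← ih]
    unfold Dop
    rw [chain_dX_add, derivative_add, chain_dX_smul, derivative_smul]
    simp only [zsmul_eq_mul]
    ring

end Pool.Agent.H72.ES
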