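import Pool.Agent.H72.ES.Biv

/-! # [ES-LOW] A zero of high order at a large integer forces large coefficients

`N(x₁ + κ X)` divisible by `X^k`, `κ ≠ 0`: the Taylor coefficients of `N` at `x₁` of index `< k`
vanish (`coeff i (N(x₁ + κX)) = κ^i * (hasseDeriv i N)(x₁)`, or use `Polynomial.taylor`), so
`(X - C x₁)^k ∣ N` in `ℤ[X]`. `N = (X - x₁)^k M`; let `e` be the lowest exponent of `N`
(`natTrailingDegree`): that coefficient of `N` is `(-x₁)^k` times the trailing coefficient of `M`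
(`x₁ ≠ 0`; `Polynomial.trailingCoeff_mul`), a nonzero integer, so
`|x₁|^k ≤ |trailing coefficient of N| ≤ L1 N`. -/

namespace Pool.Agent.H72.ES

open Finset Polynomial

theorem low_coe (N : ℤ[X]) (x1 κ : ℤ) :
    N.eval₂ (Int.castRingHom (PowerSeries ℤ)) (xs x1 κ) =
      ((N.comp (C x1 + C κ * X) : ℤ[X]) : PowerSeries ℤ) := by
  unfold Polynomial.comp
  have h : (Polynomial.coeToPowerSeries.ringHom (R := ℤ)) (N.eval₂ C (C x1 + C κ * X)) =
      N.eval₂ ((Polynomial.coeToPowerSeries.ringHom (R := ℤ)).comp C)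
        ((Polynomial.coeToPowerSeries.ringHom (R := ℤ)) (C x1 + C κ * X)) :=
    Polynomial.hom_eval₂ _ _ _ _
  rw [Polynomial.coeToPowerSeries.ringHom_apply] at h
  rw [h]
  congr 1
  · exact RingHom.ext_int _ _
  · unfold xs
    rw [Polynomial.coeToPowerSeries.ringHom_apply, Polynomial.coe_add, Polynomial.coe_mul,
      Polynomial.coe_C, Polynomial.coe_C, Polynomial.coe_X]

theorem low_taylor (N : ℤ[X]) (x1 κ : ℤ) (i : ℕ) :
    (N.comp (C x1 + C κ * X)).coeff i = (Polynomial.taylor x1 N).coeff i * κ ^ i := by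
  rw [← Polynomial.comp_C_mul_X_coeff, Polynomial.taylor_apply, Polynomial.comp_assoc]
  congr 2
  simp [add_comm]

theorem low_trailing (x1 : ℤ) (hx1 : x1 ≠ 0) (k : ℕ) (M : ℤ[X]) :
    ((X - C x1) ^ k * M).trailingCoeff = (-x1) ^ k * M.trailingCoeff := by
  induction k with
  | zero => simp
  | succ k ih =>
    rw [pow_succ', mul_assoc, Polynomial.trailingCoeff_mul, ih, pow_succ', mul_assoc]
    congr 1
    have h0 : (X - C x1 : ℤ[X]).natTrailingDegree = 0 := by
      rw [Polynomial.natTrailingDegree_eq_zero]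
      right
      simpa using hx1
    unfold Polynomial.trailingCoeff
    rw [h0]
    simp

theorem low_coeff_le (p : ℤ[X]) (i : ℕ) : |((p.coeff i : ℤ) : ℝ)| ≤ L1 p := by
  unfold L1
  by_cases h : i ∈ p.support
  · exact Finset.single_le_sum (f := fun i => |((p.coeff i : ℤ) : ℝ)|)
      (fun _ _ => abs_nonneg _) h
  · rw [Polynomial.notMem_support_iff.1 h]
    simp only [Int.cast_zero, abs_zero]
    exact Finset.sum_nonneg fun _ _ => abs_nonneg _

theorem low (N : ℤ[X]) (hN : N ≠ 0) (x1 κ : ℤ) (hx1 : x1 ≠ 0) (hκ : κ ≠ 0) (k : ℕ)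
    (h : (PowerSeries.X : PowerSeries ℤ) ^ k ∣
      N.eval₂ (Int.castRingHom (PowerSeries ℤ)) (xs x1 κ)) :
    |(x1 : ℝ)| ^ k ≤ L1 N := by
  rw [low_coe, PowerSeries.X_pow_dvd_iff] at h
  have h1 : ∀ i < k, (Polynomial.taylor x1 N).coeff i = 0 := by
    intro i hi
    have h2 := h i hi
    rw [Polynomial.coeff_coe, low_taylor] at h2
    exact (mul_eq_zero.1 h2).resolve_right (pow_ne_zero _ hκ)
  have h3 : (X : ℤ[X]) ^ k ∣ Polynomial.taylor x1 N := by
    rw [Polynomial.X_pow_dvd_iff]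
    exact h1
  obtain ⟨M', hM'⟩ := h3
  have h4 : N = (X - C x1) ^ k * Polynomial.taylor (-x1) M' := by
    have h5 : Polynomial.taylor (-x1) (Polynomial.taylor x1 N) = N := by
      rw [Polynomial.taylor_taylor]
      simp
    rw [← h5, hM', Polynomial.taylor_mul, Polynomial.taylor_X_pow]
    congr 2
    simp [sub_eq_add_neg]
  set M := Polynomial.taylor (-x1) M' with hM
  have hM0 : M ≠ 0 := by
    rintro h0
    rw [h0, mul_zero] at h4
    exact hN h4
  have h6 : N.trailingCoeff = (-x1) ^ k * M.trailingCoeff := by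
    rw [h4]
    exact low_trailing x1 hx1 k M
  have h7 : |((N.trailingCoeff : ℤ) : ℝ)| ≤ L1 N := low_coeff_le N _
  refine le_trans ?_ h7
  rw [h6]
  push_cast
  rw [abs_mul, abs_pow, abs_neg]
  have h8 : (1 : ℝ) ≤ |((M.trailingCoeff : ℤ) : ℝ)| := by
    have h9 : M.trailingCoeff ≠ 0 := Polynomial.trailingCoeff_nonzero_iff_nonzero.2 hM0
    exact_mod_cast Int.one_le_abs h9
  exact le_mul_of_one_le_right (by positivity) h8

end Pool.Agent.H72.ES
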