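import Mathlib

/-! # [ES-WRONSK] Nonvanishing of a Wronskian in `ℤ⟦X⟧`

`a i l ∈ ℤ⟦X⟧`, `m * a (i+1) l = g * (a i l)'` with an integer `m ≠ 0` and `g` with nonzero
constant coefficient; `a 0 l` (`l < r`) linearly independent over `ℤ`. Then
`det (a i l)_{i,l<r} ≠ 0`.

Proof. The map `a 0 ↦ a i` is `ℤ`-linear (it is `(g/m ∂)^i` over `ℚ`). Choose a `ℚ`-basis
`b_1..b_r` of the span of the `a 0 l` over `ℚ` (in `ℚ⟦X⟧`) with distinct orders
`e_1 < ... < e_r` (Gaussian elimination: a finite dimensional space of power series has a basis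
with strictly increasing orders; e.g. induction on `r`). The determinant changes by a nonzero
constant. Let `D = (g/m) d/dX` on `ℚ⟦X⟧`, `g_0 = constantCoeff g / m ≠ 0`. `X^i D^i b_j = X^(e_j) *
(g_0^i (e_j)(e_j - 1)...(e_j - i + 1) c_j + O(X))`, `c_j` the leading coefficient. So
`X^(r(r-1)/2) det(D^i b_j) = X^(∑ e_j) (det (g_0^i (e_j)_i c_j) + O(X))` and
`det ((e_j)_i) = ∏_{i<j} (e_j - e_i) ≠ 0` (`Matrix.det_eval_matrixOfPolynomials_eq_det_vandermonde`
with `descPochhammer`, `Matrix.det_vandermonde_ne_zero_iff`).

Alternative proof (differential algebra): let `L` be the fraction field of `ℚ⟦X⟧` (Laurent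
series) with the extended derivation `D`; `ker D = ℚ`; induction on `r` with Cramer's rule: if the
`r`-Wronskian vanishes and the `(r-1)`-Wronskian does not, the unique solution `f` of
`∑_{l<r-1} f_l D^i a_l = D^i a_{r-1}` (`i < r-1`, then also `i = r-1`) satisfies `D f_l = 0`. -/

namespace Pool.Agent.H72.ES

open Finset

lemma wronsk_factor {q : PowerSeries ℤ} (hq : q ≠ 0) :
    ∃ (e : ℕ) (q1 : PowerSeries ℤ), PowerSeries.constantCoeff q1 ≠ 0 ∧
      q = PowerSeries.X ^ e * q1 := by
  obtain ⟨q1, h1⟩ := PowerSeries.X_pow_order_dvd (φ := q)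
  have h2 := PowerSeries.coeff_order hq
  refine ⟨q.order.toNat, q1, ?_, h1⟩
  generalize q.order.toNat = n at h1 h2
  have h3 : PowerSeries.coeff n q = PowerSeries.constantCoeff q1 := by
    rw [h1, PowerSeries.coeff_X_pow_mul']
    simp
  rwa [h3] at h2

lemma wronsk_X_mul_der (n : ℕ) (u : PowerSeries ℤ) :
    PowerSeries.X * PowerSeries.derivative ℤ (PowerSeries.X ^ n * u) =
      PowerSeries.X ^ n * ((n : PowerSeries ℤ) * u +
        PowerSeries.X * PowerSeries.derivative ℤ u) := by
  cases n with
  | zero => simp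
  | succ n =>
    rw [Derivation.leibniz, Derivation.leibniz_pow, PowerSeries.derivative_X]
    simp only [smul_eq_mul, nsmul_eq_mul, Nat.add_sub_cancel, mul_one]
    push_cast
    ring

/-- power series with the same logarithmic derivative are proportional -/
lemma wronsk_prop {q : PowerSeries ℤ} (hq : q ≠ 0) :
    ∃ e : ℕ, PowerSeries.coeff e q ≠ 0 ∧ ∀ p : PowerSeries ℤ,
      PowerSeries.derivative ℤ p * q = p * PowerSeries.derivative ℤ q →
      PowerSeries.C (PowerSeries.coeff e q) * p = PowerSeries.C (PowerSeries.coeff e p) * q := by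
  obtain ⟨e, q1, hq1, hqe⟩ := wronsk_factor hq
  have hce : PowerSeries.coeff e q = PowerSeries.constantCoeff q1 := by
    rw [hqe, PowerSeries.coeff_X_pow_mul']
    simp
  refine ⟨e, by rwa [hce], fun p h => ?_⟩
  set h0 : PowerSeries ℤ := PowerSeries.C (PowerSeries.coeff e q) * p -
    PowerSeries.C (PowerSeries.coeff e p) * q with hh0
  have hcoeff : PowerSeries.coeff e h0 = 0 := by
    rw [hh0, map_sub, PowerSeries.coeff_C_mul, PowerSeries.coeff_C_mul]
    ring
  have hder : PowerSeries.derivative ℤ h0 * q = h0 * PowerSeries.derivative ℤ q := by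
    rw [hh0, map_sub, Derivation.leibniz, Derivation.leibniz, PowerSeries.derivative_C,
      PowerSeries.derivative_C]
    simp only [smul_eq_mul, mul_zero, add_zero]
    linear_combination PowerSeries.C (PowerSeries.coeff e q) * h
  suffices hz : h0 = 0 by
    rw [hh0] at hz
    exact sub_eq_zero.1 hz
  by_contra hne
  obtain ⟨f, h1, hh1, hhf⟩ := wronsk_factor hne
  have k1 := wronsk_X_mul_der f h1
  have k2 := wronsk_X_mul_der e q1
  rw [← hhf] at k1
  rw [← hqe] at k2
  have k3 : PowerSeries.X ^ (f + e) * (((f : PowerSeries ℤ) * h1 +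
      PowerSeries.X * PowerSeries.derivative ℤ h1) * q1) =
      PowerSeries.X ^ (f + e) * (h1 * ((e : PowerSeries ℤ) * q1 +
      PowerSeries.X * PowerSeries.derivative ℤ q1)) := by
    have k4 : (PowerSeries.X * PowerSeries.derivative ℤ h0) * q =
        h0 * (PowerSeries.X * PowerSeries.derivative ℤ q) := by
      linear_combination PowerSeries.X * hder
    rw [k1, k2] at k4
    rw [pow_add]
    have e1 : q = PowerSeries.X ^ e * q1 := hqe
    have e2 : h0 = PowerSeries.X ^ f * h1 := hhf
    rw [e1, e2] at k4
    linear_combination k4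
  have hX : (PowerSeries.X : PowerSeries ℤ) ^ (f + e) ≠ 0 := pow_ne_zero _ PowerSeries.X_ne_zero
  have k5 := congrArg PowerSeries.constantCoeff (mul_left_cancel₀ hX k3)
  simp only [map_mul, map_add, PowerSeries.constantCoeff_X, zero_mul, add_zero, map_natCast] at k5
  have k6 : (f : ℤ) = e := by
    have : ((f : ℤ) - e) * (PowerSeries.constantCoeff h1 * PowerSeries.constantCoeff q1) = 0 := by
      linear_combination k5
    rcases mul_eq_zero.1 this with h | h
    · linarith
    · exact absurd h (mul_ne_zero hh1 hq1)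
  have k7 : f = e := by exact_mod_cast k6
  rw [hhf, k7, PowerSeries.coeff_X_pow_mul'] at hcoeff
  simp at hcoeff
  exact hh1 hcoeff

theorem wronsk {r : ℕ} (m : ℤ) (hm : m ≠ 0) (g : PowerSeries ℤ)
    (hg : PowerSeries.constantCoeff g ≠ 0) (a : ℕ → Fin r → PowerSeries ℤ)
    (hrec : ∀ i l, PowerSeries.C m * a (i + 1) l = g * PowerSeries.derivative ℤ (a i l))
    (hind : ∀ c : Fin r → ℤ, ∑ l, PowerSeries.C (c l) * a 0 l = 0 → c = 0) :
    (Matrix.of fun (i l : Fin r) => a i l).det ≠ 0 := by
  have hg0 : g ≠ 0 := by
    rintro rfl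
    exact hg (map_zero _)
  induction r with
  | zero => simp
  | succ r ih =>
    intro hdet
    have ih' := ih (fun i l => a i l.castSucc) (fun i l => hrec i _) (fun c hc => by
      have h1 := hind (Fin.snoc c 0) (by
        rw [Fin.sum_univ_castSucc]
        simpa using hc)
      funext l
      have h2 := congrFun h1 l.castSucc
      simpa using h2)
    obtain ⟨v, hv0, hv⟩ := Matrix.exists_mulVec_eq_zero_iff.2 hdet
    have hrel : ∀ i : Fin (r + 1), ∑ l, a i l * v l = 0 := fun i => by
      have := congrFun hv i
      simpa [Matrix.mulVec, dotProduct] using this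
    have hlast : v (Fin.last r) ≠ 0 := by
      intro hl
      apply hv0
      have h1 : (fun l : Fin r => v l.castSucc) = 0 := by
        refine Matrix.eq_zero_of_mulVec_eq_zero ih' ?_
        funext i
        have h2 := hrel i.castSucc
        rw [Fin.sum_univ_castSucc, hl, mul_zero, add_zero] at h2
        simpa [Matrix.mulVec, dotProduct] using h2
      funext l
      refine Fin.lastCases hl (fun j => ?_) l
      exact congrFun h1 j
    have hder : ∀ i : Fin r, ∑ l, a i l * PowerSeries.derivative ℤ (v l) = 0 := by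
      intro i
      have h1 := hrel i.castSucc
      have h2 := hrel i.succ
      have h3 := congrArg (PowerSeries.derivative ℤ) h1
      rw [map_sum, map_zero] at h3
      have h4 : g * ∑ l, a i l * PowerSeries.derivative ℤ (v l) = 0 := by
        have h5 : g * ∑ l, PowerSeries.derivative ℤ (a (i.castSucc : Fin (r + 1)) l * v l) = 0 := by
          rw [h3, mul_zero]
        have h6 : PowerSeries.C m * ∑ l, a (i.succ : Fin (r + 1)) l * v l = 0 := by
          rw [h2, mul_zero]
        rw [Finset.mul_sum] at h5 h6 ⊢
        rw [← h5, ← sub_zero (∑ l, g * PowerSeries.derivative ℤ _), ← h6,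
          ← Finset.sum_sub_distrib]
        refine Finset.sum_congr rfl fun l _ => ?_
        rw [Derivation.leibniz]
        simp only [smul_eq_mul, Fin.val_castSucc, Fin.val_succ]
        linear_combination v l * hrec i l
      exact (mul_eq_zero.1 h4).resolve_left hg0
    have hw : (fun l : Fin r => v (Fin.last r) * PowerSeries.derivative ℤ (v l.castSucc) -
        PowerSeries.derivative ℤ (v (Fin.last r)) * v l.castSucc) = 0 := by
      refine Matrix.eq_zero_of_mulVec_eq_zero ih' ?_
      funext i
      have h1 := hrel i.castSucc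
      have h2 := hder i
      rw [Fin.sum_univ_castSucc] at h1 h2
      simp only [Matrix.mulVec, dotProduct, Matrix.of_apply, Pi.zero_apply]
      have h3 : ∑ l : Fin r, a i l.castSucc * (v (Fin.last r) *
          PowerSeries.derivative ℤ (v l.castSucc) -
          PowerSeries.derivative ℤ (v (Fin.last r)) * v l.castSucc) =
          v (Fin.last r) * (∑ l : Fin r, a i l.castSucc *
            PowerSeries.derivative ℤ (v l.castSucc)) -
          PowerSeries.derivative ℤ (v (Fin.last r)) * ∑ l : Fin r, a i l.castSucc *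
            v l.castSucc := by
        rw [Finset.mul_sum, Finset.mul_sum, ← Finset.sum_sub_distrib]
        refine Finset.sum_congr rfl fun l _ => ?_
        ring
      rw [h3]
      simp only [Fin.val_castSucc] at h1
      linear_combination v (Fin.last r) * h2 - PowerSeries.derivative ℤ (v (Fin.last r)) * h1
    obtain ⟨e, he, hprop⟩ := wronsk_prop hlast
    have hc : ∀ l, PowerSeries.C (PowerSeries.coeff e (v (Fin.last r))) * v l =
        PowerSeries.C (PowerSeries.coeff e (v l)) * v (Fin.last r) := by
      intro l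
      refine Fin.lastCases rfl (fun j => ?_) l
      refine hprop _ ?_
      have := congrFun hw j
      simp only [Pi.zero_apply] at this
      linear_combination this
    have hfin : ∑ l, PowerSeries.C (PowerSeries.coeff e (v l)) * a 0 l = 0 := by
      have h1 : v (Fin.last r) * ∑ l, PowerSeries.C (PowerSeries.coeff e (v l)) * a 0 l = 0 := by
        have h2 := hrel 0
        have h3 : PowerSeries.C (PowerSeries.coeff e (v (Fin.last r))) *
            ∑ l, a (0 : Fin (r + 1)) l * v l = 0 := by
          rw [h2, mul_zero]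
        rw [Finset.mul_sum] at h3 ⊢
        rw [← h3]
        refine Finset.sum_congr rfl fun l _ => ?_
        have h4 := hc l
        simp only [Fin.val_zero]
        linear_combination - a 0 l * h4
      exact (mul_eq_zero.1 h1).resolve_left hlast
    have := congrFun (hind _ hfin) (Fin.last r)
    exact he this

/-- orders drop by at most one at each step -/
theorem order_drop (m : ℤ) (hm : m ≠ 0) (g a a' : PowerSeries ℤ)
    (h : PowerSeries.C m * a' = g * PowerSeries.derivative ℤ a) (k : ℕ)
    (hk : PowerSeries.X ^ (k + 1) ∣ a) : PowerSeries.X ^ k ∣ a' := by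
  obtain ⟨b, rfl⟩ := hk
  have h1 : PowerSeries.X ^ k ∣ PowerSeries.C m * a' := by
    rw [h]
    refine Dvd.dvd.mul_left ?_ g
    have h2 := wronsk_X_mul_der (k + 1) b
    refine ⟨((k + 1 : ℕ) : PowerSeries ℤ) * b + PowerSeries.X * PowerSeries.derivative ℤ b,
      mul_left_cancel₀ PowerSeries.X_ne_zero ?_⟩
    rw [h2, pow_succ']
    ring
  rw [PowerSeries.X_pow_dvd_iff] at h1 ⊢
  intro j hj
  have := h1 j hj
  rw [PowerSeries.coeff_C_mul] at this
  exact (mul_eq_zero.1 this).resolve_left hm

end Pool.Agent.H72.ES
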