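import Pool.Agent.H72.ES.Series

/-! # [ES-LOCAL] Integral local series of a curve at an integer point (Eisenstein trick)

`κ₁ = ∂F/∂y (x₁, y₁)`. If `κ₁ = 0` take `Y = C y₁`. Otherwise look for
`Y = C y₁ + C κ₁ * w`, `x = x₁ + κ₁² X`. Taylor expansion at `(x₁, y₁)`:
`ev n F (x₁ + κ₁² X) (y₁ + κ₁ w) = ∑_{i,j ≤ n} F⁽ⁱʲ⁾ κ₁^(2i+j) X^i w^j`, with the Hasse
derivatives `F⁽ⁱʲ⁾ = ∑_{a,c} F a c C(a,i) C(c,j) x₁^(a-i) y₁^(c-j)` (integers),
`F⁽⁰⁰⁾ = 0`, `F⁽⁰¹⁾ = κ₁`, so it equals `κ₁² (w - Φ(w))`,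
`Φ(w) = ∑' (-F⁽ⁱʲ⁾ κ₁^(2i+j-2)) X^i w^j` over `(i,j) ≠ (0,0),(0,1)`; apply `exists_series`. -/

namespace Pool.Agent.H72.ES

open Finset

/-- Hasse derivatives of the polynomial at `(x1, y1)` -/
def hasseD (n : ℕ) (F : ℕ → ℕ → ℤ) (x1 y1 : ℤ) (i j : ℕ) : ℤ :=
  ∑ a ∈ range (n + 1), ∑ c ∈ range (n + 1 - a),
    F a c * (a.choose i : ℤ) * (c.choose j : ℤ) * x1 ^ (a - i) * y1 ^ (c - j)

theorem hasseD_zero_zero (n : ℕ) (F : ℕ → ℕ → ℤ) (x1 y1 : ℤ) :
    hasseD n F x1 y1 0 0 = ev n F x1 y1 := by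
  unfold hasseD ev
  refine Finset.sum_congr rfl fun a _ => Finset.sum_congr rfl fun c _ => ?_
  simp

theorem hasseD_zero_one (n : ℕ) (F : ℕ → ℕ → ℤ) (x1 y1 : ℤ) :
    hasseD n F x1 y1 0 1 = evy n F x1 y1 := by
  unfold hasseD evy
  refine Finset.sum_congr rfl fun a _ => Finset.sum_congr rfl fun c _ => ?_
  simp
  ring

/-- binomial expansion with a longer range -/
theorem add_pow_range {S : Type*} [CommRing S] (n a : ℕ) (ha : a ≤ n) (x y : S) :
    (x + y) ^ a = ∑ i ∈ range (n + 1), (a.choose i : S) * x ^ (a - i) * y ^ i := by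
  rw [add_comm x y, add_pow]
  have h1 : range (a + 1) ⊆ range (n + 1) := range_subset_range.mpr (by omega)
  rw [← Finset.sum_subset h1]
  · refine Finset.sum_congr rfl fun i _ => ?_
    ring
  · intro i _ hi
    have : a < i := by
      rw [mem_range] at hi
      omega
    rw [Nat.choose_eq_zero_of_lt this]
    simp

theorem ev_expand (n : ℕ) (F : ℕ → ℕ → ℤ) (x1 y1 : ℤ) (u v : PowerSeries ℤ) :
    ev n (cst (PowerSeries ℤ) F) (PowerSeries.C x1 + u) (PowerSeries.C y1 + v) =
      ∑ i ∈ range (n + 1), ∑ j ∈ range (n + 1),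
        PowerSeries.C (hasseD n F x1 y1 i j) * u ^ i * v ^ j := by
  unfold ev hasseD cst
  have h1 : ∀ i j : ℕ, PowerSeries.C (∑ a ∈ range (n + 1), ∑ c ∈ range (n + 1 - a),
        F a c * (a.choose i : ℤ) * (c.choose j : ℤ) * x1 ^ (a - i) * y1 ^ (c - j)) * u ^ i *
          v ^ j = ∑ a ∈ range (n + 1), ∑ c ∈ range (n + 1 - a),
      ((F a c : ℤ) : PowerSeries ℤ) * ((a.choose i : PowerSeries ℤ) *
        PowerSeries.C x1 ^ (a - i) * u ^ i) *
        ((c.choose j : PowerSeries ℤ) * PowerSeries.C y1 ^ (c - j) * v ^ j) := by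
    intro i j
    rw [map_sum, Finset.sum_mul, Finset.sum_mul]
    refine Finset.sum_congr rfl fun a _ => ?_
    rw [map_sum, Finset.sum_mul, Finset.sum_mul]
    refine Finset.sum_congr rfl fun c _ => ?_
    simp only [map_mul, map_pow, map_natCast]
    have : PowerSeries.C (F a c) = ((F a c : ℤ) : PowerSeries ℤ) := by
      simp
    rw [this]
    ring
  rw [Finset.sum_congr rfl fun i _ => Finset.sum_congr rfl fun j _ => h1 i j]
  have h2 : ∀ i ∈ range (n + 1), (∑ j ∈ range (n + 1), ∑ a ∈ range (n + 1),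
      ∑ c ∈ range (n + 1 - a),
      ((F a c : ℤ) : PowerSeries ℤ) * ((a.choose i : PowerSeries ℤ) *
        PowerSeries.C x1 ^ (a - i) * u ^ i) *
        ((c.choose j : PowerSeries ℤ) * PowerSeries.C y1 ^ (c - j) * v ^ j)) =
      ∑ a ∈ range (n + 1), ∑ c ∈ range (n + 1 - a), ∑ j ∈ range (n + 1),
      ((F a c : ℤ) : PowerSeries ℤ) * ((a.choose i : PowerSeries ℤ) *
        PowerSeries.C x1 ^ (a - i) * u ^ i) *
        ((c.choose j : PowerSeries ℤ) * PowerSeries.C y1 ^ (c - j) * v ^ j) := by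
    intro i _
    rw [Finset.sum_comm]
    refine Finset.sum_congr rfl fun a _ => ?_
    rw [Finset.sum_comm]
  rw [Finset.sum_congr rfl h2, Finset.sum_comm]
  refine Finset.sum_congr rfl fun a ha => ?_
  rw [Finset.sum_comm]
  refine Finset.sum_congr rfl fun c hc => ?_
  rw [mem_range] at ha hc
  rw [add_pow_range n a (by omega) (PowerSeries.C x1) u,
    add_pow_range n c (by omega) (PowerSeries.C y1) v]
  rw [Finset.mul_sum, Finset.sum_comm]
  refine Finset.sum_congr rfl fun j _ => ?_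
  rw [Finset.mul_sum, Finset.sum_mul]

theorem exists_local (n : ℕ) (F : ℕ → ℕ → ℤ) (x1 y1 : ℤ) (h : ev n F x1 y1 = 0) :
    ∃ Y : PowerSeries ℤ, PowerSeries.constantCoeff Y = y1 ∧
      ev n (cst (PowerSeries ℤ) F)
        (PowerSeries.C x1 + PowerSeries.C (evy n F x1 y1 ^ 2) * PowerSeries.X) Y = 0 := by
  set κ : ℤ := evy n F x1 y1 with hκ
  by_cases hκ0 : κ = 0
  · refine ⟨PowerSeries.C y1, by simp, ?_⟩
    have h1 := ev_expand n F x1 y1 0 0
    rw [add_zero, add_zero] at h1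
    rw [hκ0]
    simp only [ne_eq, OfNat.ofNat_ne_zero, not_false_eq_true, zero_pow, map_zero, zero_mul,
      add_zero]
    rw [h1]
    refine Finset.sum_eq_zero fun i _ => Finset.sum_eq_zero fun j _ => ?_
    rcases i with _ | i
    · rcases j with _ | j
      · rw [hasseD_zero_zero, h]
        simp
      · simp
    · simp
  · have hn : 1 ≤ n := by
      by_contra hn
      have hn0 : n = 0 := by omega
      apply hκ0
      rw [hκ, hn0]
      simp [evy]
    obtain ⟨w, hw0, hw⟩ := exists_series (R := ℤ) n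
      (fun i j => if i = 0 ∧ j ≤ 1 then 0 else - (hasseD n F x1 y1 i j * κ ^ (2 * i + j - 2)))
      (by simp) (by simp)
    refine ⟨PowerSeries.C y1 + PowerSeries.C κ * w, by simp [hw0], ?_⟩
    rw [ev_expand]
    have h1 : ∀ i ∈ range (n + 1), ∀ j ∈ range (n + 1),
        PowerSeries.C (hasseD n F x1 y1 i j) * (PowerSeries.C (κ ^ 2) * PowerSeries.X) ^ i *
          (PowerSeries.C κ * w) ^ j =
        (if i = 0 ∧ j = 1 then PowerSeries.C (κ ^ 2) * w else 0) -
          PowerSeries.C (κ ^ 2) * (PowerSeries.C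
            (if i = 0 ∧ j ≤ 1 then 0 else
              - (hasseD n F x1 y1 i j * κ ^ (2 * i + j - 2))) * PowerSeries.X ^ i * w ^ j) := by
      intro i _ j _
      by_cases hij : i = 0 ∧ j ≤ 1
      · obtain ⟨hi, hj⟩ := hij
        subst hi
        interval_cases j
        · rw [hasseD_zero_zero, h]
          simp
        · rw [hasseD_zero_one, ← hκ]
          simp
          ring
      · rw [if_neg hij]
        have hij2 : ¬ (i = 0 ∧ j = 1) := fun h2 => hij ⟨h2.1, by omega⟩
        rw [if_neg hij2]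
        have hexp : κ ^ (2 * i + j) = κ ^ 2 * κ ^ (2 * i + j - 2) := by
          rw [← pow_add]
          congr 1
          omega
        have h3 : PowerSeries.C (κ ^ 2 : ℤ) ^ i * PowerSeries.C κ ^ j =
            PowerSeries.C (κ ^ 2) * PowerSeries.C (κ ^ (2 * i + j - 2)) := by
          rw [← map_mul, ← hexp, ← map_pow, ← map_pow, ← map_mul]
          congr 1
          ring
        rw [map_neg, map_mul, mul_pow, mul_pow]
        linear_combination (PowerSeries.C (hasseD n F x1 y1 i j) * PowerSeries.X ^ i * w ^ j) * h3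
    rw [Finset.sum_congr rfl fun i hi => Finset.sum_congr rfl fun j hj => h1 i hi j hj]
    simp only [Finset.sum_sub_distrib, ← Finset.mul_sum]
    rw [← hw]
    have h2 : (∑ i ∈ range (n + 1), ∑ j ∈ range (n + 1),
        (if i = 0 ∧ j = 1 then PowerSeries.C (κ ^ 2) * w else 0)) =
        PowerSeries.C (κ ^ 2) * w := by
      rw [Finset.sum_eq_single 0, Finset.sum_eq_single 1]
      · simp
      · intro j _ hj
        simp [hj]
      · intro hj
        exact absurd (mem_range.mpr (by omega)) hj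
      · intro i _ hi
        simp [hi]
      · intro hi
        exact absurd (mem_range.mpr (by omega)) hi
    rw [h2, sub_self]

end Pool.Agent.H72.ES
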