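import Pool.Agent.H72.ES.BivNorm
import Pool.Agent.H72.ES.Inj

/-! # [ES-NORMPOLY] The norm to `ℤ[x]` of a function on the curve

`Fp = toP n F ∈ ℤ[x][y]` is monic of degree `n` in `y`. `Γ` = its companion matrix over `ℤ[x]`
(`Γ` acts on the row vector `(1, y, ..., y^(n-1))`: `(1,y,..,y^(n-1)) Γ = y (1,y,...,y^(n-1))`
modulo `Fp`). `M = ∑_k W_k Γ^k` (`W_k = W.coeff k ∈ ℤ[x]`), `N = det M`.
* the column-sum norm of `Γ` is `≤ Q³`, so that of `M` is
  `≤ L2 W (Q³)^D`, and `L1 N ≤ n! (L2 W (Q³)^D)^n` (Leibniz).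
* `Λ = Lam (xs x₁ κ) Y`. The row vector `v = (1, Y, ..., Y^(n-1))` satisfies `v Λ(Γ) = Y v`
  (as `Λ Fp = 0`), hence `v Λ(M) = Λ(W) v` and `v Λ(N) = v Λ(M) adj Λ(M) = Λ(W) v adj Λ(M)`;
  first entry: `Λ(W) ∣ Λ(N)`.
* `N ≠ 0`: otherwise there is a nonzero vector `p ∈ ℤ[x]^n` with `M p = 0`
  (`Matrix.exists_mulVec_eq_zero_iff`), so `0 = v Λ(M) Λ(p) = Λ(W) Λ(∑ p_j y^j)`, and
  `Λ(∑ p_j y^j) = 0` contradicts `inj` (`ℤ⟦X⟧` is a domain, `Λ(W) ≠ 0`). -/

namespace Pool.Agent.H72.ES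

open Finset Polynomial

theorem L1_zero : L1 0 = 0 := by
  simp [L1]

theorem L1_monomial (i : ℕ) (a : ℤ) : L1 (C a * X ^ i) = |(a : ℝ)| := by
  rw [C_mul_X_pow_eq_monomial]
  unfold L1
  by_cases ha : a = 0
  · simp [ha]
  · rw [support_monomial i ha, sum_singleton, coeff_monomial_same]

theorem L1_prod_le {ι : Type*} (s : Finset ι) (g : ι → ℤ[X]) :
    L1 (∏ i ∈ s, g i) ≤ ∏ i ∈ s, L1 (g i) := by
  classical
  induction s using Finset.induction_on with
  | empty => simp [L1_one]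
  | insert a s ha ih =>
    rw [prod_insert ha, prod_insert ha]
    exact (L1_mul_le _ _).trans (mul_le_mul_of_nonneg_left ih (L1_nonneg _))

/-- bound for the column sums -/
def ColB {n : ℕ} (M : Matrix (Fin n) (Fin n) ℤ[X]) (c : ℝ) : Prop :=
  ∀ j, ∑ i, L1 (M i j) ≤ c

theorem ColB.mul {n : ℕ} {M N : Matrix (Fin n) (Fin n) ℤ[X]} {c d : ℝ} (hM : ColB M c)
    (hN : ColB N d) (hc : 0 ≤ c) : ColB (M * N) (c * d) := by
  intro j
  have h1 : ∀ i, L1 ((M * N) i j) ≤ ∑ k, L1 (M i k) * L1 (N k j) := by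
    intro i
    rw [Matrix.mul_apply]
    exact (L1_sum_le _ _).trans (sum_le_sum fun k _ => L1_mul_le _ _)
  calc ∑ i, L1 ((M * N) i j) ≤ ∑ i, ∑ k, L1 (M i k) * L1 (N k j) := sum_le_sum fun i _ => h1 i
    _ = ∑ k, (∑ i, L1 (M i k)) * L1 (N k j) := by
        rw [sum_comm]
        exact sum_congr rfl fun k _ => by rw [sum_mul]
    _ ≤ ∑ k, c * L1 (N k j) :=
        sum_le_sum fun k _ => mul_le_mul_of_nonneg_right (hM k) (L1_nonneg _)
    _ = c * ∑ k, L1 (N k j) := by rw [mul_sum]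
    _ ≤ c * d := mul_le_mul_of_nonneg_left (hN j) hc

theorem ColB.one {n : ℕ} : ColB (1 : Matrix (Fin n) (Fin n) ℤ[X]) 1 := by
  intro j
  rw [sum_eq_single j]
  · simp [L1_one]
  · intro i _ hij
    rw [Matrix.one_apply_ne hij, L1_zero]
  · simp

theorem ColB.pow {n : ℕ} {M : Matrix (Fin n) (Fin n) ℤ[X]} {c : ℝ} (hM : ColB M c)
    (hc : 0 ≤ c) (k : ℕ) : ColB (M ^ k) (c ^ k) := by
  induction k with
  | zero => simpa using ColB.one
  | succ k ih =>
    rw [pow_succ, pow_succ]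
    exact ih.mul hM (pow_nonneg hc k)

theorem ColB.smul {n : ℕ} {M : Matrix (Fin n) (Fin n) ℤ[X]} {c : ℝ} (hM : ColB M c)
    (a : ℤ[X]) : ColB (a • M) (L1 a * c) := by
  intro j
  calc ∑ i, L1 ((a • M) i j) ≤ ∑ i, L1 a * L1 (M i j) :=
        sum_le_sum fun i _ => by
          rw [Matrix.smul_apply, smul_eq_mul]
          exact L1_mul_le _ _
    _ = L1 a * ∑ i, L1 (M i j) := by rw [mul_sum]
    _ ≤ _ := mul_le_mul_of_nonneg_left (hM j) (L1_nonneg _)

theorem ColB.sum {n : ℕ} {ι : Type*} (s : Finset ι) (M : ι → Matrix (Fin n) (Fin n) ℤ[X])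
    (c : ι → ℝ) (h : ∀ k ∈ s, ColB (M k) (c k)) : ColB (∑ k ∈ s, M k) (∑ k ∈ s, c k) := by
  intro j
  calc ∑ i, L1 ((∑ k ∈ s, M k) i j) ≤ ∑ i, ∑ k ∈ s, L1 (M k i j) :=
        sum_le_sum fun i _ => by
          rw [Matrix.sum_apply]
          exact L1_sum_le _ _
    _ = ∑ k ∈ s, ∑ i, L1 (M k i j) := sum_comm
    _ ≤ _ := sum_le_sum fun k hk => h k hk j

theorem ColB.det {n : ℕ} {M : Matrix (Fin n) (Fin n) ℤ[X]} {c : ℝ} (hM : ColB M c) :
    L1 M.det ≤ (n.factorial : ℝ) * c ^ n := by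
  rw [Matrix.det_apply]
  refine (L1_sum_le _ _).trans ?_
  have h1 : ∀ σ : Equiv.Perm (Fin n), L1 (Equiv.Perm.sign σ • ∏ i, M (σ i) i) ≤ c ^ n := by
    intro σ
    have h2 : L1 (Equiv.Perm.sign σ • ∏ i, M (σ i) i) = L1 (∏ i, M (σ i) i) := by
      rcases Int.units_eq_one_or (Equiv.Perm.sign σ) with h | h
      · rw [h, one_smul]
      · rw [h, Units.neg_smul, one_smul, L1_neg]
    rw [h2]
    refine (L1_prod_le _ _).trans ?_
    calc ∏ i, L1 (M (σ i) i) ≤ ∏ _i : Fin n, c := by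
          refine prod_le_prod (fun i _ => L1_nonneg _) fun i _ => ?_
          exact (single_le_sum (f := fun k => L1 (M k i)) (fun k _ => L1_nonneg _)
            (mem_univ (σ i))).trans (hM i)
      _ = c ^ n := by simp
  calc ∑ σ : Equiv.Perm (Fin n), L1 (Equiv.Perm.sign σ • ∏ i, M (σ i) i)
      ≤ ∑ _σ : Equiv.Perm (Fin n), c ^ n := sum_le_sum fun σ _ => h1 σ
    _ = (n.factorial : ℝ) * c ^ n := by
        rw [sum_const, nsmul_eq_mul, card_univ, Fintype.card_perm, Fintype.card_fin]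

theorem coeff_toP (d : ℕ) (A : ℕ → ℕ → ℤ) (j : ℕ) :
    (toP d A).coeff j = ∑ i ∈ range (d + 1), if j < d + 1 - i then C (A i j) * X ^ i else 0 := by
  unfold toP
  rw [finset_sum_coeff]
  refine sum_congr rfl fun i _ => ?_
  rw [finset_sum_coeff]
  simp only [coeff_C_mul, coeff_X_pow, mul_ite, mul_one, mul_zero]
  rw [sum_ite_eq]
  simp only [mem_range]

theorem toP_coeff_top {n Q : ℕ} {f : ℤ[X]} {F : ℕ → ℕ → ℤ} (hF : Norml n Q f F) :
    (toP n F).coeff n = 1 := by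
  rw [coeff_toP, sum_eq_single 0]
  · simp [hF.top]
  · intro i _ hi
    rw [if_neg (by omega)]
  · simp

theorem toP_coeff_gt (n : ℕ) (F : ℕ → ℕ → ℤ) {j : ℕ} (hj : n < j) : (toP n F).coeff j = 0 := by
  rw [coeff_toP]
  refine sum_eq_zero fun i _ => ?_
  rw [if_neg (by omega)]

theorem toP_coeff_L1 {n Q : ℕ} {f : ℤ[X]} {F : ℕ → ℕ → ℤ} (hF : Norml n Q f F) (j : ℕ) :
    L1 ((toP n F).coeff j) ≤ (n + 1) * Q := by
  rw [coeff_toP]
  refine (L1_sum_le _ _).trans ?_
  have h : ∀ i ∈ range (n + 1), L1 (if j < n + 1 - i then C (F i j) * X ^ i else 0) ≤ (Q : ℝ) := by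
    intro i _
    split_ifs with h
    · rw [L1_monomial]
      have := hF.bound i j (by omega)
      exact_mod_cast this
    · rw [L1_zero]
      positivity
  refine (sum_le_sum h).trans ?_
  rw [sum_const, card_range, nsmul_eq_mul]
  push_cast
  exact le_rfl

theorem Lam_eq_sum {S : Type*} [CommRing S] (x y : S) (p : ℤ[X][X]) {m : ℕ}
    (hm : p.natDegree < m) :
    Lam x y p = ∑ j ∈ range m, (p.coeff j).eval₂ (Int.castRingHom S) x * y ^ j := by
  unfold Lam
  rw [coe_eval₂RingHom, eval₂_eq_sum_range' _ hm]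
  rfl

/-- the companion matrix -/
noncomputable def comp (n : ℕ) (F : ℕ → ℕ → ℤ) : Matrix (Fin n) (Fin n) ℤ[X] := fun i j =>
  if (j : ℕ) + 1 = n then -(toP n F).coeff i else if (i : ℕ) = (j : ℕ) + 1 then 1 else 0

theorem comp_colB {n Q : ℕ} {f : ℤ[X]} {F : ℕ → ℕ → ℤ} (hF : Norml n Q f F) :
    ColB (comp n F) ((Q : ℝ) ^ 3) := by
  have hn := hF.hn
  have hQ := hF.hQ
  have hQ1 := one_le_QR hn hQ
  intro j
  by_cases hj : (j : ℕ) + 1 = n
  · calc ∑ i, L1 (comp n F i j) = ∑ i : Fin n, L1 ((toP n F).coeff i) := by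
          refine sum_congr rfl fun i _ => ?_
          simp only [comp, if_pos hj, L1_neg]
      _ ≤ ∑ _i : Fin n, ((n : ℝ) + 1) * Q := sum_le_sum fun i _ => toP_coeff_L1 hF _
      _ = n * (((n : ℝ) + 1) * Q) := by simp
      _ ≤ Q * (Q * Q) := by
          refine mul_le_mul (n_leR hn hQ) ?_ (by positivity) (by positivity)
          exact mul_le_mul_of_nonneg_right (n_add_one_leR hn hQ) (by positivity)
      _ = (Q : ℝ) ^ 3 := by ring
  · have hj' : (j : ℕ) + 1 < n := by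
      have := j.2
      omega
    rw [sum_eq_single (⟨(j : ℕ) + 1, hj'⟩ : Fin n)]
    · simp only [comp, if_neg hj, if_true]
      rw [L1_one]
      exact one_le_pow₀ hQ1
    · intro i _ hi
      have : ¬ (i : ℕ) = (j : ℕ) + 1 := fun h => hi (Fin.ext h)
      simp only [comp, if_neg hj, if_neg this, L1_zero]
    · simp

theorem norm_poly {n Q : ℕ} {f : ℤ[X]} {F : ℕ → ℕ → ℤ} (hF : Norml n Q f F)
    (hf : Irreducible f) (x1 κ : ℤ) (hx1 : x1 ≠ 0) (hκ : κ ≠ 0) (Y : PowerSeries ℤ)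
    (hY : Lam (xs x1 κ) Y (toP n F) = 0) (W : ℤ[X][X]) (hW : Lam (xs x1 κ) Y W ≠ 0) (D : ℕ)
    (hWd : W.natDegree ≤ D) :
    ∃ N : ℤ[X], N ≠ 0 ∧ L1 N ≤ (n.factorial : ℝ) * (L2 W * ((Q : ℝ) ^ 3) ^ D) ^ n ∧
      Lam (xs x1 κ) Y W ∣ N.eval₂ (Int.castRingHom (PowerSeries ℤ)) (xs x1 κ) := by
  have hn := hF.hn
  have hQ := hF.hQ
  have hQ1 := one_le_QR hn hQ
  set ψ : ℤ[X] →+* PowerSeries ℤ := eval₂RingHom (Int.castRingHom (PowerSeries ℤ)) (xs x1 κ)
    with hψ
  set Γ := comp n F with hΓ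
  set M : Matrix (Fin n) (Fin n) ℤ[X] := ∑ k ∈ range (D + 1), W.coeff k • Γ ^ k with hM
  set v : Fin n → PowerSeries ℤ := fun i => Y ^ (i : ℕ) with hv
  -- column bound
  have hMb : ColB M (L2 W * ((Q : ℝ) ^ 3) ^ D) := by
    have h1 : ColB M (∑ k ∈ range (D + 1), L1 (W.coeff k) * ((Q : ℝ) ^ 3) ^ k) := by
      refine ColB.sum _ _ _ fun k _ => ?_
      exact ((comp_colB hF).pow (by positivity) k).smul _
    have h2 : ∑ k ∈ range (D + 1), L1 (W.coeff k) * ((Q : ℝ) ^ 3) ^ k ≤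
        L2 W * ((Q : ℝ) ^ 3) ^ D := by
      calc ∑ k ∈ range (D + 1), L1 (W.coeff k) * ((Q : ℝ) ^ 3) ^ k
          ≤ ∑ k ∈ range (D + 1), L1 (W.coeff k) * ((Q : ℝ) ^ 3) ^ D := by
            refine sum_le_sum fun k hk => mul_le_mul_of_nonneg_left ?_ (L1_nonneg _)
            refine pow_le_pow_right₀ (one_le_pow₀ hQ1) ?_
            simp only [mem_range] at hk
            omega
        _ = (∑ k ∈ range (D + 1), L1 (W.coeff k)) * ((Q : ℝ) ^ 3) ^ D := by rw [sum_mul]
        _ ≤ L2 W * ((Q : ℝ) ^ 3) ^ D := by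
            refine mul_le_mul_of_nonneg_right ?_ (by positivity)
            unfold L2
            refine le_of_eq (Eq.symm (sum_subset ?_ ?_))
            · intro k hk
              simp only [mem_range]
              have := le_natDegree_of_mem_supp k hk
              omega
            · intro k _ hk
              rw [notMem_support_iff.1 hk, L1_zero]
    intro j
    exact (h1 j).trans h2
  -- action on v
  have hYn : Y ^ n = - ∑ i ∈ range n, ψ ((toP n F).coeff i) * Y ^ i := by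
    have hdeg : (toP n F).natDegree < n + 1 := by
      rw [Nat.lt_succ_iff]
      exact natDegree_le_iff_coeff_eq_zero.2 fun j hj => toP_coeff_gt n F hj
    rw [Lam_eq_sum _ _ _ hdeg, sum_range_succ, toP_coeff_top hF, eval₂_one, one_mul] at hY
    exact eq_neg_of_add_eq_zero_right hY
  have hact : Matrix.vecMul v (ψ.mapMatrix Γ) = Y • v := by
    funext j
    simp only [Matrix.vecMul, dotProduct, hv, RingHom.mapMatrix_apply, Matrix.map_apply,
      Pi.smul_apply, smul_eq_mul]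
    by_cases hj : (j : ℕ) + 1 = n
    · have h1 : ∀ i : Fin n, Y ^ (i : ℕ) * ψ (Γ i j) =
          -(ψ ((toP n F).coeff i) * Y ^ (i : ℕ)) := by
        intro i
        simp only [hΓ, comp, if_pos hj, map_neg]
        ring
      rw [sum_congr rfl fun i _ => h1 i, sum_neg_distrib,
        Fin.sum_univ_eq_sum_range (fun i => ψ ((toP n F).coeff i) * Y ^ i) n, ← hYn]
      rw [← pow_succ', hj]
    · have hj' : (j : ℕ) + 1 < n := by
        have := j.2
        omega
      rw [sum_eq_single (⟨(j : ℕ) + 1, hj'⟩ : Fin n)]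
      · simp only [hΓ, comp, if_neg hj, if_true, map_one, mul_one]
        rw [pow_succ']
      · intro i _ hi
        have : ¬ (i : ℕ) = (j : ℕ) + 1 := fun h => hi (Fin.ext h)
        simp only [hΓ, comp, if_neg hj, if_neg this, map_zero, mul_zero]
      · simp
  have hactk : ∀ k : ℕ, Matrix.vecMul v (ψ.mapMatrix (Γ ^ k)) = Y ^ k • v := by
    intro k
    induction k with
    | zero => simp
    | succ k ih =>
      rw [pow_succ, map_mul, ← Matrix.vecMul_vecMul, ih, Matrix.smul_vecMul, hact, smul_smul,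
        pow_succ]
  have hW' : Lam (xs x1 κ) Y W = ∑ k ∈ range (D + 1), ψ (W.coeff k) * Y ^ k := by
    rw [Lam_eq_sum _ _ _ (Nat.lt_succ_of_le hWd)]
    rfl
  have hactM : Matrix.vecMul v (ψ.mapMatrix M) = Lam (xs x1 κ) Y W • v := by
    rw [hM, map_sum, Matrix.vecMul_sum, hW', sum_smul]
    refine sum_congr rfl fun k _ => ?_
    have h1 : ψ.mapMatrix (W.coeff k • Γ ^ k) = ψ (W.coeff k) • ψ.mapMatrix (Γ ^ k) := by
      ext i j
      simp [Matrix.map_apply]
    rw [h1, Matrix.vecMul_smul, hactk, smul_smul]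
  refine ⟨M.det, ?_, hMb.det, ?_⟩
  · intro hdet
    obtain ⟨p, hp, hMp⟩ := Matrix.exists_mulVec_eq_zero_iff.2 hdet
    have h1 : dotProduct v (Matrix.mulVec (ψ.mapMatrix M) (fun i => ψ (p i))) = 0 := by
      have h2 : Matrix.mulVec (ψ.mapMatrix M) (fun i => ψ (p i)) = 0 := by
        funext i
        have := congrArg ψ (congrFun hMp i)
        simpa [Matrix.mulVec, dotProduct, map_sum] using this
      rw [h2]
      simp
    rw [Matrix.dotProduct_mulVec, hactM, smul_dotProduct, smul_eq_mul] at h1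
    have h3 : dotProduct v (fun i => ψ (p i)) = 0 := by
      rcases mul_eq_zero.1 h1 with h | h
      · exact absurd h hW
      · exact h
    set P : ℤ[X][X] := ∑ i : Fin n, C (p i) * X ^ (i : ℕ) with hP
    have hcoef : ∀ i : Fin n, P.coeff i = p i := by
      intro i
      rw [hP, finset_sum_coeff, sum_eq_single i]
      · simp
      · intro j _ hj
        rw [coeff_C_mul, coeff_X_pow, if_neg (fun h => hj (Fin.ext h.symm)), mul_zero]
      · simp
    have hPdeg : P.natDegree < n := by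
      have h4 : P.natDegree ≤ n - 1 := by
        refine natDegree_sum_le_of_forall_le _ _ fun i _ => ?_
        refine (natDegree_C_mul_X_pow_le _ _).trans ?_
        have := i.2
        omega
      omega
    have hPne : P ≠ 0 := by
      intro h
      apply hp
      funext i
      rw [← hcoef i, h]
      simp
    have hLP : Lam (xs x1 κ) Y P = dotProduct v (fun i => ψ (p i)) := by
      rw [Lam_eq_sum _ _ _ hPdeg, ← Fin.sum_univ_eq_sum_range
        (fun j => (P.coeff j).eval₂ (Int.castRingHom (PowerSeries ℤ)) (xs x1 κ) * Y ^ j) n]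
      refine sum_congr rfl fun i _ => ?_
      rw [hcoef i, mul_comm]
      rfl
    exact inj hF hf x1 κ hx1 hκ Y hY P hPne hPdeg (hLP.trans h3)
  · have h1 : Matrix.vecMul v (ψ.mapMatrix M * (ψ.mapMatrix M).adjugate) =
        (ψ M.det) • v := by
      rw [Matrix.mul_adjugate, ← RingHom.map_det, Matrix.vecMul_smul, Matrix.vecMul_one]
    rw [← Matrix.vecMul_vecMul, hactM, Matrix.smul_vecMul] at h1
    have h2 := congrFun h1 (⟨0, by omega⟩ : Fin n)
    simp only [Pi.smul_apply, smul_eq_mul, hv, pow_zero, mul_one] at h2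
    exact ⟨_, h2.symm⟩

end Pool.Agent.H72.ES
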