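import Pool.Agent.H72.ES.Defs

/-! Weighted truncated `ℓ¹` seminorms of power series. -/

namespace Pool.Agent.H72.ES

open Finset

variable {R : Type*} [CommRing R] {ν : R → ℝ} {ρ : ℝ}

theorem Ord.subMul {𝕜 : Type} [RCLike 𝕜] {n Q : ℕ} {f : Polynomial ℤ} {θ : 𝕜}
    (O : Ord 𝕜 n Q f θ) : SubMul O.ν where
  nonneg := O.ν_nonneg
  zero := O.ν_zero
  neg := O.ν_neg
  add := O.ν_add
  mul := O.ν_mul
  one := by simpa using O.ν_int 1

theorem subMul_abs : SubMul (fun a : ℝ => |a|) where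
  nonneg := abs_nonneg
  zero := abs_zero
  neg := abs_neg
  add := abs_add_le
  mul := fun a b => (abs_mul a b).le
  one := by simp

theorem SubMul.sum (h : SubMul ν) {ι : Type*} (s : Finset ι) (g : ι → R) :
    ν (∑ i ∈ s, g i) ≤ ∑ i ∈ s, ν (g i) := by
  classical
  induction s using Finset.induction_on with
  | empty => simp [h.zero]
  | insert a s ha ih =>
    rw [sum_insert ha, sum_insert ha]
    exact (h.add _ _).trans (by linarith)

theorem SubMul.pow (h : SubMul ν) (a : R) (k : ℕ) : ν (a ^ k) ≤ ν a ^ k := by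
  induction k with
  | zero => simpa using h.one
  | succ k ih =>
    rw [pow_succ, pow_succ]
    exact (h.mul _ _).trans (mul_le_mul_of_nonneg_right ih (h.nonneg _))

theorem SubMul.sub (h : SubMul ν) (a b : R) : ν (a - b) ≤ ν a + ν b := by
  rw [sub_eq_add_neg]
  have := h.add a (-b)
  rwa [h.neg] at this

theorem wn_nonneg (h : SubMul ν) (hρ : 0 ≤ ρ) (K : ℕ) (a : PowerSeries R) : 0 ≤ wn ν ρ K a :=
  sum_nonneg fun _ _ => mul_nonneg (h.nonneg _) (pow_nonneg hρ _)

theorem wn_mono (h : SubMul ν) (hρ : 0 ≤ ρ) {K K' : ℕ} (hK : K ≤ K') (a : PowerSeries R) :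
    wn ν ρ K a ≤ wn ν ρ K' a := by
  refine sum_le_sum_of_subset_of_nonneg ?_ ?_
  · intro k hk
    simp only [mem_range] at hk ⊢
    omega
  · intro _ _ _
    exact mul_nonneg (h.nonneg _) (pow_nonneg hρ _)

theorem coeff_le_wn (h : SubMul ν) (hρ : 0 ≤ ρ) {k K : ℕ} (hk : k ≤ K) (a : PowerSeries R) :
    ν (PowerSeries.coeff k a) * ρ ^ k ≤ wn ν ρ K a := by
  refine single_le_sum (f := fun k => ν (PowerSeries.coeff k a) * ρ ^ k) ?_ ?_
  · intro _ _
    exact mul_nonneg (h.nonneg _) (pow_nonneg hρ _)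
  · simp only [mem_range]
    omega

theorem wn_zero (h : SubMul ν) (K : ℕ) : wn ν ρ K (0 : PowerSeries R) = 0 := by
  simp [wn, h.zero]

theorem wn_add_le (h : SubMul ν) (hρ : 0 ≤ ρ) (K : ℕ) (a b : PowerSeries R) :
    wn ν ρ K (a + b) ≤ wn ν ρ K a + wn ν ρ K b := by
  simp only [wn, ← sum_add_distrib, map_add]
  refine sum_le_sum fun k _ => ?_
  rw [← add_mul]
  exact mul_le_mul_of_nonneg_right (h.add _ _) (pow_nonneg hρ _)

theorem wn_neg (h : SubMul ν) (K : ℕ) (a : PowerSeries R) : wn ν ρ K (-a) = wn ν ρ K a := by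
  simp [wn, h.neg]

theorem wn_sub_le (h : SubMul ν) (hρ : 0 ≤ ρ) (K : ℕ) (a b : PowerSeries R) :
    wn ν ρ K (a - b) ≤ wn ν ρ K a + wn ν ρ K b := by
  rw [sub_eq_add_neg]
  have := wn_add_le h hρ K a (-b)
  rwa [wn_neg h] at this

theorem wn_mul_le (h : SubMul ν) (hρ : 0 ≤ ρ) (K : ℕ) (a b : PowerSeries R) :
    wn ν ρ K (a * b) ≤ wn ν ρ K a * wn ν ρ K b := by
  have h1 : wn ν ρ K (a * b) ≤ ∑ k ∈ range (K + 1), ∑ p ∈ antidiagonal k,
      (ν (PowerSeries.coeff p.1 a) * ρ ^ p.1) * (ν (PowerSeries.coeff p.2 b) * ρ ^ p.2) := by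
    refine sum_le_sum fun k _ => ?_
    rw [PowerSeries.coeff_mul]
    refine (mul_le_mul_of_nonneg_right (h.sum _ _) (pow_nonneg hρ _)).trans ?_
    rw [sum_mul]
    refine sum_le_sum fun p hp => ?_
    have : ρ ^ k = ρ ^ p.1 * ρ ^ p.2 := by rw [← pow_add, mem_antidiagonal.1 hp]
    rw [this]
    calc ν (PowerSeries.coeff p.1 a * PowerSeries.coeff p.2 b) * (ρ ^ p.1 * ρ ^ p.2)
        ≤ (ν (PowerSeries.coeff p.1 a) * ν (PowerSeries.coeff p.2 b)) * (ρ ^ p.1 * ρ ^ p.2) :=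
          mul_le_mul_of_nonneg_right (h.mul _ _) (by positivity)
      _ = _ := by ring
  refine h1.trans ?_
  unfold wn
  rw [sum_mul_sum, ← sum_product']
  set g : ℕ × ℕ → ℝ := fun p =>
    (ν (PowerSeries.coeff p.1 a) * ρ ^ p.1) * (ν (PowerSeries.coeff p.2 b) * ρ ^ p.2) with hg
  have hg0 : ∀ p, 0 ≤ g p := fun p =>
    mul_nonneg (mul_nonneg (h.nonneg _) (pow_nonneg hρ _))
      (mul_nonneg (h.nonneg _) (pow_nonneg hρ _))
  set s : Finset (ℕ × ℕ) := (range (K + 1) ×ˢ range (K + 1)).filter (fun p => p.1 + p.2 ≤ K)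
    with hs
  have h2 : ∑ k ∈ range (K + 1), ∑ p ∈ antidiagonal k, g p = ∑ p ∈ s, g p := by
    rw [← sum_fiberwise_of_maps_to (s := s) (t := range (K + 1)) (g := fun p => p.1 + p.2)]
    · refine sum_congr rfl fun k hk => sum_congr ?_ fun _ _ => rfl
      ext p
      simp only [mem_range] at hk
      simp only [HasAntidiagonal.mem_antidiagonal, hs, mem_filter, mem_product, mem_range]
      omega
    · intro p hp
      simp only [hs, mem_filter, mem_product, mem_range] at hp ⊢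
      omega
  have h3 : ∑ k ∈ range (K + 1), ∑ p ∈ antidiagonal k,
      (ν (PowerSeries.coeff p.1 a) * ρ ^ p.1) * (ν (PowerSeries.coeff p.2 b) * ρ ^ p.2)
      = ∑ p ∈ s, g p := h2
  rw [h3]
  exact sum_le_sum_of_subset_of_nonneg (filter_subset _ _) fun p _ _ => hg0 p

theorem wn_C (h : SubMul ν) (K : ℕ) (r : R) : wn ν ρ K (PowerSeries.C r) = ν r := by
  unfold wn
  rw [sum_range_succ']
  simp [PowerSeries.coeff_C, h.zero]

theorem wn_one_le (h : SubMul ν) (K : ℕ) : wn ν ρ K (1 : PowerSeries R) ≤ 1 := by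
  have := wn_C (ρ := ρ) h K (1 : R)
  rw [map_one] at this
  rw [this]
  exact h.one

theorem wn_pow_le (h : SubMul ν) (hρ : 0 ≤ ρ) (K : ℕ) (a : PowerSeries R) (j : ℕ) :
    wn ν ρ K (a ^ j) ≤ wn ν ρ K a ^ j := by
  induction j with
  | zero => simpa using wn_one_le h K
  | succ j ih =>
    rw [pow_succ, pow_succ]
    exact (wn_mul_le h hρ K _ _).trans (mul_le_mul_of_nonneg_right ih (wn_nonneg h hρ K a))

theorem wn_X_le (h : SubMul ν) (hρ : 0 ≤ ρ) (K : ℕ) :
    wn ν ρ K (PowerSeries.X : PowerSeries R) ≤ ρ := by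
  unfold wn
  rw [sum_range_succ']
  have h1 : ∀ k ∈ range K, ν (PowerSeries.coeff (k + 1) (PowerSeries.X : PowerSeries R)) *
      ρ ^ (k + 1) ≤ if k = 0 then ρ else 0 := by
    intro k _
    rw [PowerSeries.coeff_X]
    by_cases hk : k = 0
    · subst hk
      simp only [zero_add, if_true, pow_one]
      exact (mul_le_mul_of_nonneg_right h.one hρ).trans (by simp)
    · simp [hk, h.zero]
  have h2 := sum_le_sum h1
  have h3 : ∑ k ∈ range K, (if k = 0 then ρ else 0) ≤ ρ := by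
    rw [sum_ite_eq' (range K) 0 (fun _ => ρ)]
    split_ifs <;> simp [hρ]
  have h4 : ν (PowerSeries.coeff 0 (PowerSeries.X : PowerSeries R)) * ρ ^ 0 = 0 := by
    simp [h.zero]
  linarith

theorem wn_sum_le (h : SubMul ν) (hρ : 0 ≤ ρ) (K : ℕ) {ι : Type*} (s : Finset ι)
    (g : ι → PowerSeries R) : wn ν ρ K (∑ i ∈ s, g i) ≤ ∑ i ∈ s, wn ν ρ K (g i) := by
  classical
  induction s using Finset.induction_on with
  | empty => simp [wn_zero h]
  | insert a s ha ih =>
    rw [sum_insert ha, sum_insert ha]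
    exact (wn_add_le h hρ K _ _).trans (by linarith)

theorem ev_map {S S' : Type*} [CommRing S] [CommRing S'] (ψ : S →+* S') (n : ℕ)
    (c : ℕ → ℕ → S) (x y : S) :
    ψ (ev n c x y) = ev n (fun i j => ψ (c i j)) (ψ x) (ψ y) := by
  simp [ev, map_sum, map_mul, map_pow]

theorem evt_map {S S' : Type*} [CommRing S] [CommRing S'] (ψ : S →+* S') (n : ℕ)
    (c : ℕ → ℕ → S) (t z : S) :
    ψ (evt n c t z) = evt n (fun i j => ψ (c i j)) (ψ t) (ψ z) := by
  simp [evt, map_sum, map_mul, map_pow]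

theorem evy_map {S S' : Type*} [CommRing S] [CommRing S'] (ψ : S →+* S') (n : ℕ)
    (c : ℕ → ℕ → S) (x y : S) :
    ψ (evy n c x y) = evy n (fun i j => ψ (c i j)) (ψ x) (ψ y) := by
  simp [evy, map_sum, map_mul, map_pow]

theorem cst_map {S S' : Type*} [CommRing S] [CommRing S'] (ψ : S →+* S') (F : ℕ → ℕ → ℤ) :
    (fun i j => ψ (cst S F i j)) = cst S' F := by
  funext i j
  simp [cst]

/-- `ev` in terms of `evt` when `t = 1/x`, `z = y/x`. -/
theorem ev_eq_evt {S : Type*} [CommRing S] (n : ℕ) (c : ℕ → ℕ → S) (x y t : S) (h : t * x = 1) :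
    ev n c x y = x ^ n * evt n c t (t * y) := by
  unfold ev evt
  rw [mul_sum]
  refine sum_congr rfl fun i hi => ?_
  rw [mul_sum]
  refine sum_congr rfl fun j hj => ?_
  simp only [mem_range] at hi hj
  have h1 : x ^ n = x ^ i * x ^ (n - i - j) * x ^ j := by
    rw [← pow_add, ← pow_add]
    congr 1
    omega
  have h2 : x ^ (n - i - j) * t ^ (n - i - j) = 1 := by
    rw [← mul_pow, mul_comm x t, h, one_pow]
  have h3 : x ^ j * t ^ j = 1 := by rw [← mul_pow, mul_comm x t, h, one_pow]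
  rw [h1, mul_pow]
  calc c i j * x ^ i * y ^ j = c i j * x ^ i * y ^ j * (x ^ (n - i - j) * t ^ (n - i - j)) *
        (x ^ j * t ^ j) := by rw [h2, h3]; ring
    _ = _ := by ring

theorem evt_eq_ev {S : Type*} [CommRing S] (n : ℕ) (c : ℕ → ℕ → S) (x y t : S) (h : t * x = 1) :
    evt n c t (t * y) = t ^ n * ev n c x y := by
  rw [ev_eq_evt n c x y t h, ← mul_assoc, ← mul_pow, h, one_pow, one_mul]

/-- linearity of `ev` in the coefficients -/
theorem ev_sum {S : Type*} [CommRing S] {ι : Type*} (s : Finset ι) (n : ℕ)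
    (c : ι → ℕ → ℕ → S) (r : ι → S) (x y : S) :
    ev n (fun i j => ∑ m ∈ s, r m * c m i j) x y = ∑ m ∈ s, r m * ev n (c m) x y := by
  unfold ev
  simp only [mul_sum, sum_mul]
  rw [sum_comm]
  refine sum_congr rfl fun i _ => ?_
  rw [sum_comm]
  refine sum_congr rfl fun j _ => ?_
  refine sum_congr rfl fun m _ => ?_
  ring

/-- linearity of `evt` in the coefficients -/
theorem evt_sum {S : Type*} [CommRing S] {ι : Type*} (s : Finset ι) (n : ℕ)
    (c : ι → ℕ → ℕ → S) (r : ι → S) (x y : S) :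
    evt n (fun i j => ∑ m ∈ s, r m * c m i j) x y = ∑ m ∈ s, r m * evt n (c m) x y := by
  unfold evt
  simp only [mul_sum, sum_mul]
  rw [sum_comm]
  refine sum_congr rfl fun i _ => ?_
  rw [sum_comm]
  refine sum_congr rfl fun j _ => ?_
  refine sum_congr rfl fun m _ => ?_
  ring

end Pool.Agent.H72.ES
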