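import Mathlib

/-! # [ES-CHOOSE5] Five points with no three collinear

If every line through two distinct points of the plane contains at most `L` points of the finite
set `S` and `#S > 6 L` (`L ≥ 1`), then `S` contains 5 distinct points no three of which are
collinear: choose greedily, avoiding the (at most 6) lines through two points chosen before;
each removes at most `L` points. -/

namespace Pool.Agent.H72.ES

open Finset

/-- collinearity of three integer points -/
def Col (P P' R : ℤ × ℤ) : Prop :=
  (P'.1 - P.1) * (R.2 - P.2) = (R.1 - P.1) * (P'.2 - P.2)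

theorem Col.swap12 {P P' R : ℤ × ℤ} (h : Col P P' R) : Col P' P R := by
  unfold Col at *; linarith

theorem Col.swap23 {P P' R : ℤ × ℤ} (h : Col P P' R) : Col P R P' := by
  unfold Col at *; linarith

theorem pairs_card (k : ℕ) (hk : k ≤ 4) :
    ((univ : Finset (Fin k × Fin k)).filter (fun ij => ij.1 < ij.2)).card ≤ 6 := by
  interval_cases k <;> decide

theorem pairs_card_zero (k : ℕ) (hk : k < 2) :
    ((univ : Finset (Fin k × Fin k)).filter (fun ij => ij.1 < ij.2)).card = 0 := by
  interval_cases k <;> decide

theorem choose_aux (S : Finset (ℤ × ℤ)) (L : ℝ) (hL : 1 ≤ L)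
    (hline : ∀ P ∈ S, ∀ P' ∈ S, P ≠ P' → ∀ S' ⊆ S, (∀ R ∈ S', Col P P' R) → (S'.card : ℝ) ≤ L)
    (hS : 6 * L < S.card) (k : ℕ) (hk : k ≤ 5) :
    ∃ p : Fin k → ℤ × ℤ, (∀ i, p i ∈ S) ∧ Function.Injective p ∧
      ∀ i j l, i ≠ j → i ≠ l → j ≠ l → ¬ Col (p i) (p j) (p l) := by
  classical
  induction k with
  | zero => exact ⟨Fin.elim0, fun i => i.elim0, fun i => i.elim0, fun i => i.elim0⟩
  | succ k ih =>
    obtain ⟨p, hpS, hpi, hpc⟩ := ih (by omega)
    set I : Finset (Fin k × Fin k) := univ.filter (fun ij => ij.1 < ij.2) with hI
    have hIcard : I.card ≤ 6 := pairs_card k (by omega)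
    set B : Finset (ℤ × ℤ) := I.biUnion (fun ij => S.filter (fun R => Col (p ij.1) (p ij.2) R))
      with hB
    have hBcard : (B.card : ℝ) ≤ I.card * L := by
      have h1 : B.card ≤ ∑ ij ∈ I, (S.filter (fun R => Col (p ij.1) (p ij.2) R)).card :=
        card_biUnion_le
      have h2 : ((∑ ij ∈ I, (S.filter (fun R => Col (p ij.1) (p ij.2) R)).card : ℕ) : ℝ) ≤
          ∑ _ij ∈ I, L := by
        push_cast
        refine sum_le_sum fun ij hij => ?_
        rw [hI, mem_filter] at hij
        exact hline _ (hpS _) _ (hpS _) (fun h => hij.2.ne (hpi h)) _ (filter_subset _ _)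
          (fun R hR => (mem_filter.mp hR).2)
      rw [sum_const, nsmul_eq_mul] at h2
      exact le_trans (by exact_mod_cast h1) h2
    have hex : ∃ R ∈ S, R ∉ B ∧ R ∉ univ.image p := by
      by_contra hcon
      push Not at hcon
      have hsub : S ⊆ B ∪ univ.image p := by
        intro R hR
        rw [mem_union]
        by_cases h : R ∈ B
        · exact Or.inl h
        · exact Or.inr (hcon R hR h)
      rcases Nat.lt_or_ge k 2 with h2 | h2
      · have h3 : I.card = 0 := pairs_card_zero k h2
        have h4 := (card_le_card hsub).trans (card_union_le _ _)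
        have h5 : (univ.image p).card ≤ k := by
          refine card_image_le.trans ?_
          simp
        rw [h3] at hBcard
        have h6 : B.card = 0 := by
          have : (B.card : ℝ) ≤ 0 := by simpa using hBcard
          exact_mod_cast le_antisymm this (Nat.cast_nonneg _)
        have h7 : (S.card : ℝ) ≤ 1 := by exact_mod_cast (show S.card ≤ 1 by omega)
        linarith
      · have hsub2 : S ⊆ B := by
          intro R hR
          rcases mem_union.mp (hsub hR) with h | h
          · exact h
          · obtain ⟨i, -, rfl⟩ := mem_image.mp h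
            have hj : ∃ j : Fin k, j ≠ i := by
              have : Nontrivial (Fin k) := Fin.nontrivial_iff_two_le.mpr h2
              exact exists_ne i
            obtain ⟨j, hj⟩ := hj
            rw [hB, mem_biUnion]
            rcases lt_or_gt_of_ne hj with hlt | hlt
            · refine ⟨(j, i), by rw [hI, mem_filter]; exact ⟨mem_univ _, hlt⟩, ?_⟩
              rw [mem_filter]
              refine ⟨hR, ?_⟩
              unfold Col; ring
            · refine ⟨(i, j), by rw [hI, mem_filter]; exact ⟨mem_univ _, hlt⟩, ?_⟩
              rw [mem_filter]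
              refine ⟨hR, ?_⟩
              unfold Col; ring
        have h4 : (S.card : ℝ) ≤ B.card := by exact_mod_cast card_le_card hsub2
        have h5 : (I.card : ℝ) ≤ 6 := by exact_mod_cast hIcard
        nlinarith
    obtain ⟨R, hRS, hRB, hRp⟩ := hex
    have hcolR : ∀ i j : Fin k, i ≠ j → ¬ Col (p i) (p j) R := by
      intro i j hij hc
      apply hRB
      rw [hB, mem_biUnion]
      rcases lt_or_gt_of_ne hij with hlt | hlt
      · exact ⟨(i, j), by rw [hI, mem_filter]; exact ⟨mem_univ _, hlt⟩,
          mem_filter.mpr ⟨hRS, hc⟩⟩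
      · exact ⟨(j, i), by rw [hI, mem_filter]; exact ⟨mem_univ _, hlt⟩,
          mem_filter.mpr ⟨hRS, hc.swap12⟩⟩
    have hRne : ∀ i, p i ≠ R := fun i h => hRp (mem_image.mpr ⟨i, mem_univ _, h⟩)
    refine ⟨Fin.cons R p, ?_, ?_, ?_⟩
    · intro i
      refine Fin.cases ?_ (fun i => ?_) i
      · exact hRS
      · rw [Fin.cons_succ]; exact hpS i
    · rw [Fin.cons_injective_iff]
      refine ⟨?_, hpi⟩
      rintro ⟨i, hi⟩
      exact hRne i hi
    · intro i j l hij hil hjl
      induction i using Fin.cases with
      | zero =>
        induction j using Fin.cases with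
        | zero => exact absurd rfl hij
        | succ j =>
          induction l using Fin.cases with
          | zero => exact absurd rfl hil
          | succ l =>
            rw [Fin.cons_zero, Fin.cons_succ, Fin.cons_succ]
            intro hc
            exact hcolR j l (fun h => hjl (by rw [h])) hc.swap12.swap23
      | succ i =>
        induction j using Fin.cases with
        | zero =>
          induction l using Fin.cases with
          | zero => exact absurd rfl hjl
          | succ l =>
            rw [Fin.cons_zero, Fin.cons_succ, Fin.cons_succ]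
            intro hc
            exact hcolR i l (fun h => hil (by rw [h])) hc.swap23
        | succ j =>
          induction l using Fin.cases with
          | zero =>
            rw [Fin.cons_zero, Fin.cons_succ, Fin.cons_succ]
            intro hc
            exact hcolR i j (fun h => hij (by rw [h])) hc
          | succ l =>
            rw [Fin.cons_succ, Fin.cons_succ, Fin.cons_succ]
            exact hpc i j l (fun h => hij (by rw [h])) (fun h => hil (by rw [h]))
              (fun h => hjl (by rw [h]))

theorem choose5 (S : Finset (ℤ × ℤ)) (L : ℝ) (hL : 1 ≤ L)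
    (hline : ∀ P ∈ S, ∀ P' ∈ S, P ≠ P' → ∀ S' ⊆ S, (∀ R ∈ S', Col P P' R) → (S'.card : ℝ) ≤ L)
    (hS : 6 * L < S.card) :
    ∃ p : Fin 5 → ℤ × ℤ, (∀ i, p i ∈ S) ∧ Function.Injective p ∧
      ∀ i j k, i ≠ j → i ≠ k → j ≠ k → ¬ Col (p i) (p j) (p k) :=
  choose_aux S L hL hline hS 5 le_rfl

end Pool.Agent.H72.ES
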