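import Pool.Agent.H72.ES.Taylor
import Pool.Agent.H72.ES.Choose5

/-! # [ES-NOCOL] Three points near a branch with nonzero second coefficient are not collinear

Three distinct integer points `P_i = (x_i, y_i)`, `X ≤ |x_i| ≤ X^(1 + 1/(3n))`, `X ≥ b^(60 n²)`,
`y_i = θ x_i + be + ga/x_i + r_i`, `r_i = de/x_i² + ρ_i`, `|ρ_i| ≤ b^25/|x_i|³`,
`|be|,|ga|,|de| ≤ b^10`, `|ga| ≥ b^(-4n)`. Claim: not collinear. Put `δ = 1/(3n)`.

(0) `x_i` are distinct: if `x_i = x_j` then `|y_i - y_j| ≤ 2 b^25/X³ < 1`, so `P_i = P_j`.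

(1) Two-point gap. `i ≠ j`, `D = |x_i - x_j| ≥ 1`. `q = (y_i - y_j) - θ (x_i - x_j)
= ga/x_i - ga/x_j + r_i - r_j`, `|q| ≤ 2b^10/X + 2b^10/X² + 2b^25/X³ ≤ b^11/X`.
`a = (y_i - y_j) - α (x_i - x_j) ∈ O.R` is nonzero (`O.indep` for `p = C (y_i-y_j) - C (x_i-x_j)*X`,
degree `≤ 1 < n`), `φ a = q`, `ν a ≤ |y_i - y_j| + D * ν α ≤ (|θ| D + |q|) + D Q² ≤ b D`
(`|θ| ≤ ν α ≤ n Q ≤ Q²`). `O.liouville`: `1 ≤ |q| Q^(4n) (b D)^n ≤ (b^11/X) b (b D)^n`, so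
`X ≤ b^(12+n) D^n`.

(2) If collinear, `(x2-x1)(y3-y1) = (x3-x1)(y2-y1)`; subtract the linear part `θ x + be`:
`(x2-x1)(ga/x3 - ga/x1 + r3 - r1) = (x3-x1)(ga/x2 - ga/x1 + r2 - r1)`. With
`V = (x2-x1)(x3-x1)(x3-x2)`:
`ga * V/(x1 x2 x3) = (x3-x1)(r2-r1) - (x2-x1)(r3-r1)`, and the `de` part of the right side is
`- de * V * (x1 x2 + x1 x3 + x2 x3)/(x1 x2 x3)²`. So, dividing by `V`,
`|ga|/|x1x2x3| ≤ |de| * 3 X^(2+2δ)/(|x1x2x3| X³) + 4 b^25 X^(-3)/D²` where `D` = smallest distance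
(`|x2-x1|, |x3-x1|, |x3-x2| ≥ D`). The first term is `≤ |ga|/(2|x1x2x3|)` since
`6 b^10 b^(4n) X^(-1+2δ) ≤ 1`. As `|x1x2x3| ≤ X^(3+3δ)`:
`b^(-4n) X^(-3-3δ)/2 ≤ 4 b^25 X^(-3)/D²`, i.e. `D² ≤ 8 b^(25+4n) X^(3δ) ≤ b^(26+4n) X^(1/n)`.

(3) Raise to the power `n`: `D^(2n) ≤ b^(26n+4n²) X`, and (1) squared: `X² ≤ b^(24+2n) D^(2n)`.
So `X ≤ b^(24+28n+4n²) < b^(60 n²)`: contradiction (`n ≥ 4`: `24+28n+4n² ≤ 12.5 n²`). -/

namespace Pool.Agent.H72.ES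

open Finset Polynomial

variable {n Q : ℕ} {f : ℤ[X]} {θ : ℝ}

theorem noCol_identity {x1 x2 x3 ga de R1 R2 R3 : ℝ} (h1 : x1 ≠ 0) (h2 : x2 ≠ 0) (h3 : x3 ≠ 0)
    (h12 : x2 - x1 ≠ 0) (h13 : x3 - x1 ≠ 0) (h23 : x3 - x2 ≠ 0)
    (h : (x2 - x1) * ((ga / x3 + de / x3 ^ 2 + R3) - (ga / x1 + de / x1 ^ 2 + R1)) =
      (x3 - x1) * ((ga / x2 + de / x2 ^ 2 + R2) - (ga / x1 + de / x1 ^ 2 + R1))) :
    ga / (x1 * x2 * x3) = -(de * (x1 * x2 + x1 * x3 + x2 * x3) / (x1 * x2 * x3) ^ 2) -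
      ((R3 - R1) / ((x3 - x1) * (x3 - x2)) - (R2 - R1) / ((x2 - x1) * (x3 - x2))) := by
  have key : ga / (x1 * x2 * x3) - (-(de * (x1 * x2 + x1 * x3 + x2 * x3) /
      (x1 * x2 * x3) ^ 2) -
      ((R3 - R1) / ((x3 - x1) * (x3 - x2)) - (R2 - R1) / ((x2 - x1) * (x3 - x2)))) =
      ((x2 - x1) * ((ga / x3 + de / x3 ^ 2 + R3) - (ga / x1 + de / x1 ^ 2 + R1)) -
      (x3 - x1) * ((ga / x2 + de / x2 ^ 2 + R2) - (ga / x1 + de / x1 ^ 2 + R1))) /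
      ((x2 - x1) * (x3 - x1) * (x3 - x2)) := by
    field_simp
    ring
  rw [h, sub_self, zero_div] at key
  linarith

theorem noCol_core {n : ℕ} {b X Y D x1 x2 x3 ga de R1 R2 R3 : ℝ} (hb : 1 ≤ b) (hX : 0 < X)
    (hY : 1 ≤ Y) (hD : 0 < D) (hde : |de| ≤ b ^ 10) (hga : 1 ≤ |ga| * b ^ (4 * n))
    (hXY : 6 * b ^ (10 + 4 * n) * Y ^ 2 ≤ X)
    (hx1 : X ≤ |x1|) (hx2 : X ≤ |x2|) (hx3 : X ≤ |x3|) (hx1' : |x1| ≤ X * Y)
    (hx2' : |x2| ≤ X * Y) (hx3' : |x3| ≤ X * Y) (hR1 : |R1| ≤ b ^ 25 / X ^ 3)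
    (hR2 : |R2| ≤ b ^ 25 / X ^ 3) (hR3 : |R3| ≤ b ^ 25 / X ^ 3)
    (h12 : D ≤ |x2 - x1|) (h13 : D ≤ |x3 - x1|) (h23 : D ≤ |x3 - x2|)
    (h : (x2 - x1) * ((ga / x3 + de / x3 ^ 2 + R3) - (ga / x1 + de / x1 ^ 2 + R1)) =
      (x3 - x1) * ((ga / x2 + de / x2 ^ 2 + R2) - (ga / x1 + de / x1 ^ 2 + R1))) :
    D ^ 2 ≤ 8 * b ^ (25 + 4 * n) * Y ^ 3 := by
  have hb0 : 0 < b := by linarith
  have hY0 : 0 < Y := by linarith
  have a1 : 0 < |x1| := hX.trans_le hx1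
  have a2 : 0 < |x2| := hX.trans_le hx2
  have a3 : 0 < |x3| := hX.trans_le hx3
  have hid := noCol_identity (abs_pos.1 a1) (abs_pos.1 a2) (abs_pos.1 a3)
    (abs_pos.1 (hD.trans_le h12)) (abs_pos.1 (hD.trans_le h13)) (abs_pos.1 (hD.trans_le h23)) h
  set e3 : ℝ := |x1 * x2 * x3| with he3
  have he3' : e3 = |x1| * |x2| * |x3| := by rw [he3, abs_mul, abs_mul]
  have he3X : X ^ 3 ≤ e3 := by
    rw [he3']
    calc X ^ 3 = X * X * X := by ring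
      _ ≤ |x1| * |x2| * |x3| :=
        mul_le_mul (mul_le_mul hx1 hx2 hX.le a1.le) hx3 hX.le (by positivity)
  have he3Y : e3 ≤ X ^ 3 * Y ^ 3 := by
    rw [he3']
    calc |x1| * |x2| * |x3| ≤ (X * Y) * (X * Y) * (X * Y) :=
        mul_le_mul (mul_le_mul hx1' hx2' a2.le (by positivity)) hx3' a3.le (by positivity)
      _ = X ^ 3 * Y ^ 3 := by ring
  have he30 : 0 < e3 := (by positivity : 0 < X ^ 3).trans_le he3X
  have hga0 : 0 < |ga| := by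
    rcases (abs_nonneg ga).lt_or_eq with h0 | h0
    · exact h0
    · rw [← h0, zero_mul] at hga; linarith
  -- the second order term
  have he2 : |x1 * x2 + x1 * x3 + x2 * x3| ≤ 3 * (X ^ 2 * Y ^ 2) := by
    have t12 : |x1 * x2| ≤ X ^ 2 * Y ^ 2 := by
      rw [abs_mul]
      calc |x1| * |x2| ≤ (X * Y) * (X * Y) := mul_le_mul hx1' hx2' a2.le (by positivity)
        _ = _ := by ring
    have t13 : |x1 * x3| ≤ X ^ 2 * Y ^ 2 := by
      rw [abs_mul]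
      calc |x1| * |x3| ≤ (X * Y) * (X * Y) := mul_le_mul hx1' hx3' a3.le (by positivity)
        _ = _ := by ring
    have t23 : |x2 * x3| ≤ X ^ 2 * Y ^ 2 := by
      rw [abs_mul]
      calc |x2| * |x3| ≤ (X * Y) * (X * Y) := mul_le_mul hx2' hx3' a3.le (by positivity)
        _ = _ := by ring
    calc |x1 * x2 + x1 * x3 + x2 * x3| ≤ |x1 * x2 + x1 * x3| + |x2 * x3| := abs_add_le _ _
      _ ≤ |x1 * x2| + |x1 * x3| + |x2 * x3| := by linarith [abs_add_le (x1 * x2) (x1 * x3)]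
      _ ≤ _ := by linarith
  have hterm : |de * (x1 * x2 + x1 * x3 + x2 * x3) / (x1 * x2 * x3) ^ 2| ≤ |ga| / (2 * e3) := by
    rw [abs_div, abs_mul, abs_pow, ← he3, div_le_div_iff₀ (by positivity) (by positivity)]
    have s1 : |de| * |x1 * x2 + x1 * x3 + x2 * x3| ≤ b ^ 10 * (3 * (X ^ 2 * Y ^ 2)) :=
      mul_le_mul hde he2 (abs_nonneg _) (by positivity)
    have s2 : 6 * b ^ 10 * Y ^ 2 ≤ |ga| * X := by
      have s3 : 6 * b ^ (10 + 4 * n) * Y ^ 2 * 1 ≤ X * (|ga| * b ^ (4 * n)) :=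
        mul_le_mul hXY hga zero_le_one hX.le
      have s4 : 6 * b ^ (10 + 4 * n) * Y ^ 2 * 1 = (6 * b ^ 10 * Y ^ 2) * b ^ (4 * n) := by
        rw [pow_add]; ring
      have s5 : X * (|ga| * b ^ (4 * n)) = (|ga| * X) * b ^ (4 * n) := by ring
      rw [s4, s5] at s3
      exact le_of_mul_le_mul_right s3 (by positivity)
    calc |de| * |x1 * x2 + x1 * x3 + x2 * x3| * (2 * e3)
        ≤ b ^ 10 * (3 * (X ^ 2 * Y ^ 2)) * (2 * e3) :=
          mul_le_mul_of_nonneg_right s1 (by positivity)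
      _ = (6 * b ^ 10 * Y ^ 2) * (X ^ 2 * e3) := by ring
      _ ≤ (|ga| * X) * (X ^ 2 * e3) := mul_le_mul_of_nonneg_right s2 (by positivity)
      _ = |ga| * (X ^ 3 * e3) := by ring
      _ ≤ |ga| * (e3 * e3) :=
          mul_le_mul_of_nonneg_left (mul_le_mul_of_nonneg_right he3X he30.le) hga0.le
      _ = |ga| * e3 ^ 2 := by ring
  -- the error terms
  have herr : ∀ {R R' u v : ℝ}, |R| ≤ b ^ 25 / X ^ 3 → |R'| ≤ b ^ 25 / X ^ 3 → D ≤ |u| →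
      D ≤ |v| → |(R - R') / (u * v)| ≤ 2 * b ^ 25 / (X ^ 3 * D ^ 2) := by
    intro R R' u v hR hR' hu hv
    rw [abs_div, abs_mul]
    have t1 : |R - R'| ≤ 2 * b ^ 25 / X ^ 3 := by
      have := abs_sub R R'
      calc |R - R'| ≤ |R| + |R'| := abs_sub _ _
        _ ≤ b ^ 25 / X ^ 3 + b ^ 25 / X ^ 3 := add_le_add hR hR'
        _ = _ := by ring
    have t2 : D ^ 2 ≤ |u| * |v| := by
      calc D ^ 2 = D * D := by ring
        _ ≤ |u| * |v| := mul_le_mul hu hv hD.le (abs_nonneg _)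
    calc |R - R'| / (|u| * |v|) ≤ (2 * b ^ 25 / X ^ 3) / D ^ 2 :=
          div_le_div₀ (by positivity) t1 (by positivity) t2
      _ = _ := by rw [div_div]
  have hE1 := herr hR3 hR1 h13 h23
  have hE2 := herr hR2 hR1 h12 h23
  have hmain : |ga| / e3 ≤ |ga| / (2 * e3) + 4 * b ^ 25 / (X ^ 3 * D ^ 2) := by
    have t1 : |ga| / e3 = |ga / (x1 * x2 * x3)| := by rw [abs_div]
    rw [t1, hid]
    have t2 := abs_sub (-(de * (x1 * x2 + x1 * x3 + x2 * x3) / (x1 * x2 * x3) ^ 2))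
      ((R3 - R1) / ((x3 - x1) * (x3 - x2)) - (R2 - R1) / ((x2 - x1) * (x3 - x2)))
    have t3 := abs_sub ((R3 - R1) / ((x3 - x1) * (x3 - x2)))
      ((R2 - R1) / ((x2 - x1) * (x3 - x2)))
    rw [abs_neg] at t2
    have t4 : 4 * b ^ 25 / (X ^ 3 * D ^ 2) = 2 * b ^ 25 / (X ^ 3 * D ^ 2) +
      2 * b ^ 25 / (X ^ 3 * D ^ 2) := by ring
    rw [t4]
    linarith
  have h5 : |ga| / (2 * e3) ≤ 4 * b ^ 25 / (X ^ 3 * D ^ 2) := by
    have t1 : |ga| / e3 = |ga| / (2 * e3) + |ga| / (2 * e3) := by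
      field_simp
      ring
    linarith
  rw [div_le_div_iff₀ (by positivity) (by positivity)] at h5
  have h6 : |ga| * D ^ 2 ≤ 8 * b ^ 25 * Y ^ 3 := by
    have t1 : |ga| * (X ^ 3 * D ^ 2) ≤ 4 * b ^ 25 * (2 * (X ^ 3 * Y ^ 3)) :=
      h5.trans (mul_le_mul_of_nonneg_left (by linarith) (by positivity))
    have t2 : (|ga| * D ^ 2) * X ^ 3 ≤ (8 * b ^ 25 * Y ^ 3) * X ^ 3 := by
      calc (|ga| * D ^ 2) * X ^ 3 = |ga| * (X ^ 3 * D ^ 2) := by ring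
        _ ≤ 4 * b ^ 25 * (2 * (X ^ 3 * Y ^ 3)) := t1
        _ = _ := by ring
    exact le_of_mul_le_mul_right t2 (by positivity)
  calc D ^ 2 = 1 * D ^ 2 := (one_mul _).symm
    _ ≤ (|ga| * b ^ (4 * n)) * D ^ 2 := mul_le_mul_of_nonneg_right hga (by positivity)
    _ = b ^ (4 * n) * (|ga| * D ^ 2) := by ring
    _ ≤ b ^ (4 * n) * (8 * b ^ 25 * Y ^ 3) := mul_le_mul_of_nonneg_left h6 (by positivity)
    _ = 8 * b ^ (25 + 4 * n) * Y ^ 3 := by rw [pow_add]; ring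

theorem noCol_gap (hn : 4 ≤ n) (hQ : 2 ^ n ≤ Q) (O : Ord ℝ n Q f θ) (be ga de : ℝ)
    (hga : |ga| ≤ bb n Q ^ 10) (hde : |de| ≤ bb n Q ^ 10) (X : ℝ)
    (hX : bb n Q ^ (60 * n ^ 2) ≤ X) (x y x' y' : ℤ) (hne : x ≠ x') (hx : X ≤ |(x : ℝ)|)
    (hx' : X ≤ |(x' : ℝ)|) {R R' : ℝ}
    (hy : (y : ℝ) = θ * x + be + (ga / x + de / (x : ℝ) ^ 2 + R))
    (hy' : (y' : ℝ) = θ * x' + be + (ga / x' + de / (x' : ℝ) ^ 2 + R'))
    (hR : |R| ≤ bb n Q ^ 25 / X ^ 3) (hR' : |R'| ≤ bb n Q ^ 25 / X ^ 3) :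
    X ≤ bb n Q ^ (12 + n) * |(x : ℝ) - x'| ^ n := by
  set b := bb n Q with hbdef
  have hb1 : 1 ≤ b := one_le_bb hn hQ
  have hb0 : 0 < b := bb_pos hn hQ
  have hb1000 : 1000 ≤ b := thousand_le_bb hn hQ
  have hQ1 := one_le_QR hn hQ
  have hbX : b ^ 25 ≤ X := (pow_le_pow_right₀ hb1 (by nlinarith)).trans hX
  have hX1 : 1 ≤ X := (one_le_pow₀ hb1).trans hbX
  have hX0 : 0 < X := by linarith
  -- the linear form
  set q : ℝ := ((y : ℝ) - y') - θ * ((x : ℝ) - x') with hq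
  have hterm : ∀ {u : ℝ}, X ≤ |u| → |ga / u| ≤ b ^ 10 / X ∧ |de / u ^ 2| ≤ b ^ 10 / X := by
    intro u hu
    have hu0 : 0 < |u| := hX0.trans_le hu
    constructor
    · rw [abs_div]
      exact div_le_div₀ (by positivity) hga hX0 hu
    · rw [abs_div, abs_pow]
      refine div_le_div₀ (by positivity) hde hX0 ?_
      nlinarith
  have hRX : b ^ 25 / X ^ 3 ≤ b ^ 10 / X := by
    rw [div_le_div_iff₀ (by positivity) hX0]
    have h1 : b ^ 15 ≤ X ^ 2 := by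
      calc b ^ 15 ≤ b ^ 25 := pow_le_pow_right₀ hb1 (by norm_num)
        _ ≤ X := hbX
        _ ≤ X ^ 2 := by nlinarith
    calc b ^ 25 * X = (b ^ 10 * X) * b ^ 15 := by ring
      _ ≤ (b ^ 10 * X) * X ^ 2 := mul_le_mul_of_nonneg_left h1 (by positivity)
      _ = b ^ 10 * X ^ 3 := by ring
  have hqX : |q| ≤ b ^ 11 / X := by
    have e1 : q = (ga / x + de / (x : ℝ) ^ 2 + R) - (ga / x' + de / (x' : ℝ) ^ 2 + R') := by
      rw [hq, hy, hy']; ring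
    obtain ⟨g1, g2⟩ := hterm hx
    obtain ⟨g1', g2'⟩ := hterm hx'
    have h6 : |q| ≤ 6 * (b ^ 10 / X) := by
      rw [e1]
      have t1 := abs_sub (ga / x + de / (x : ℝ) ^ 2 + R) (ga / x' + de / (x' : ℝ) ^ 2 + R')
      have t2 := abs_add_le (ga / x + de / (x : ℝ) ^ 2) R
      have t3 := abs_add_le (ga / (x : ℝ)) (de / (x : ℝ) ^ 2)
      have t4 := abs_add_le (ga / x' + de / (x' : ℝ) ^ 2) R'
      have t5 := abs_add_le (ga / (x' : ℝ)) (de / (x' : ℝ) ^ 2)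
      linarith
    refine h6.trans ?_
    rw [← mul_div_assoc]
    refine div_le_div_of_nonneg_right ?_ hX0.le
    calc 6 * b ^ 10 ≤ b * b ^ 10 := mul_le_mul_of_nonneg_right (by linarith) (by positivity)
      _ = b ^ 11 := by ring
  have hq1 : |q| ≤ 1 := by
    refine hqX.trans ?_
    rw [div_le_one hX0]
    exact (pow_le_pow_right₀ hb1 (by norm_num)).trans hbX
  -- the algebraic number
  set D : ℝ := |(x : ℝ) - x'| with hD
  have hD1 : 1 ≤ D := by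
    have h1 : 1 ≤ |x - x'| := Int.one_le_abs (sub_ne_zero.2 hne)
    have h2 : ((|x - x'| : ℤ) : ℝ) = D := by rw [hD]; push_cast; rfl
    rw [← h2]
    exact_mod_cast h1
  set a : O.R := ((y - y' : ℤ) : O.R) - ((x - x' : ℤ) : O.R) * O.α with ha
  have hφa : O.φ a = q := by
    rw [ha, hq]
    simp only [map_sub, map_mul, map_intCast, O.φ_α]
    push_cast
    ring
  have ha0 : a ≠ 0 := by
    intro h0
    have h1 := O.indep (C (y - y') - C (x - x') * Polynomial.X) ?_ ?_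
    · have h2 := congrArg (fun p => Polynomial.coeff p 1) h1
      simp only [coeff_sub, coeff_C_mul, coeff_X_one, coeff_C_succ, coeff_zero] at h2
      apply hne
      linarith
    · refine lt_of_le_of_lt (natDegree_sub_le _ _) ?_
      refine max_lt ?_ ?_
      · rw [natDegree_C]; omega
      · refine lt_of_le_of_lt (natDegree_C_mul_le _ _) ?_
        rw [natDegree_X]; omega
    · rw [← h0, ha]
      simp
  have hQ2 : (1 : ℝ) ≤ (Q : ℝ) ^ 2 := one_le_pow₀ hQ1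
  have hθ : |θ| ≤ (Q : ℝ) ^ 2 := by
    have h1 := O.φ_le O.α
    rw [O.φ_α, Real.norm_eq_abs] at h1
    exact h1.trans (O.ν_α.trans (nQ_le hn hQ))
  have hνa : O.ν a ≤ b * D := by
    have t1 : O.ν a ≤ |((y - y' : ℤ) : ℝ)| + |((x - x' : ℤ) : ℝ)| * (Q : ℝ) ^ 2 := by
      refine (O.subMul.sub _ _).trans (add_le_add (O.ν_int _) ?_)
      refine (O.ν_mul _ _).trans ?_
      exact mul_le_mul (O.ν_int _) (O.ν_α.trans (nQ_le hn hQ)) (O.ν_nonneg _) (abs_nonneg _)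
    have t2 : |((x - x' : ℤ) : ℝ)| = D := by rw [hD]; push_cast; rfl
    have t3 : |((y - y' : ℤ) : ℝ)| ≤ (Q : ℝ) ^ 2 * D + 1 := by
      have e1 : ((y - y' : ℤ) : ℝ) = θ * ((x : ℝ) - x') + q := by
        rw [hq]; push_cast; ring
      rw [e1]
      refine (abs_add_le _ _).trans (add_le_add ?_ hq1)
      rw [abs_mul]
      exact mul_le_mul_of_nonneg_right hθ (abs_nonneg _)
    have t4 : 3 * (Q : ℝ) ^ 2 ≤ b := by
      calc 3 * (Q : ℝ) ^ 2 ≤ Q * (Q : ℝ) ^ 2 :=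
            mul_le_mul_of_nonneg_right (by linarith [sixteen_leR hn hQ]) (by positivity)
        _ = (Q : ℝ) ^ 3 := by ring
        _ ≤ b := Qpow_le_bb hn hQ (by nlinarith)
    rw [t2] at t1
    have t5 : 1 ≤ (Q : ℝ) ^ 2 * D := by nlinarith
    calc O.ν a ≤ ((Q : ℝ) ^ 2 * D + 1) + D * (Q : ℝ) ^ 2 := t1.trans (by linarith)
      _ ≤ (3 * (Q : ℝ) ^ 2) * D := by linarith
      _ ≤ b * D := mul_le_mul_of_nonneg_right t4 (by linarith)
  have hl := O.liouville a ha0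
  rw [hφa, Real.norm_eq_abs] at hl
  have hQ4 : (Q : ℝ) ^ (4 * n) ≤ b := Qpow_le_bb hn hQ (by nlinarith)
  have h1 : 1 ≤ b ^ 11 / X * (b * (b * D) ^ n) := by
    refine hl.trans (mul_le_mul hqX ?_ ?_ (by positivity))
    · exact mul_le_mul hQ4 (pow_le_pow_left₀ (O.ν_nonneg _) hνa n)
        (pow_nonneg (O.ν_nonneg _) _) hb0.le
    · exact mul_nonneg (by positivity) (pow_nonneg (O.ν_nonneg _) _)
  have h2 : b ^ 11 / X * (b * (b * D) ^ n) = b ^ (12 + n) * D ^ n / X := by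
    rw [mul_pow, pow_add]
    field_simp
  rw [h2, le_div_iff₀ hX0, one_mul] at h1
  exact h1

theorem no_col (hn : 4 ≤ n) (hQ : 2 ^ n ≤ Q) (O : Ord ℝ n Q f θ) (be ga de : ℝ)
    (hbe : |be| ≤ bb n Q ^ 10) (hga : |ga| ≤ bb n Q ^ 10) (hde : |de| ≤ bb n Q ^ 10)
    (hga0 : 1 ≤ |ga| * bb n Q ^ (4 * n)) (X : ℝ) (hX : bb n Q ^ (60 * n ^ 2) ≤ X)
    (P1 P2 P3 : ℤ × ℤ) (h12 : P1 ≠ P2) (h13 : P1 ≠ P3) (h23 : P2 ≠ P3)
    (hX1 : ∀ P ∈ ({P1, P2, P3} : Set (ℤ × ℤ)), X ≤ |(P.1 : ℝ)|)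
    (hX2 : ∀ P ∈ ({P1, P2, P3} : Set (ℤ × ℤ)), |(P.1 : ℝ)| ≤ X ^ (1 + 1 / (3 * (n : ℝ))))
    (hE : ∀ P ∈ ({P1, P2, P3} : Set (ℤ × ℤ)),
      |(P.2 : ℝ) - (θ * P.1 + be + ga / P.1 + de / (P.1 : ℝ) ^ 2)| ≤
        bb n Q ^ 25 / |(P.1 : ℝ)| ^ 3) :
    ¬ Col P1 P2 P3 := by
  intro hcol
  have hb1 : 1 ≤ bb n Q := one_le_bb hn hQ
  have hb0 : 0 < bb n Q := bb_pos hn hQ
  have hb1000 : 1000 ≤ bb n Q := thousand_le_bb hn hQ
  have hbX : bb n Q ^ 26 ≤ X := (pow_le_pow_right₀ hb1 (by nlinarith)).trans hX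
  have hX1' : 1 ≤ X := (one_le_pow₀ hb1).trans hbX
  have hX0 : 0 < X := by linarith
  have hnR : (0 : ℝ) < n := by exact_mod_cast (by omega : 0 < n)
  -- the root of X
  set Y : ℝ := X ^ (1 / (3 * (n : ℝ))) with hY
  have hY1 : 1 ≤ Y := Real.one_le_rpow hX1' (by positivity)
  have hYn : Y ^ (3 * n) = X := by
    rw [hY, ← Real.rpow_natCast, ← Real.rpow_mul hX0.le]
    push_cast
    rw [one_div_mul_cancel (by positivity), Real.rpow_one]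
  have hXY : X ^ (1 + 1 / (3 * (n : ℝ))) = X * Y := by
    rw [Real.rpow_add hX0, Real.rpow_one]
  have hYb : bb n Q ^ (20 * n) ≤ Y := by
    have h1 : (bb n Q ^ (20 * n)) ^ (3 * n) ≤ Y ^ (3 * n) := by
      rw [hYn, ← pow_mul]
      refine le_trans (le_of_eq ?_) hX
      congr 1
      ring
    exact le_of_pow_le_pow_left₀ (by omega) (by linarith) h1
  have hcond : 6 * bb n Q ^ (10 + 4 * n) * Y ^ 2 ≤ X := by
    have h1 : 6 * bb n Q ^ (10 + 4 * n) ≤ Y := by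
      calc 6 * bb n Q ^ (10 + 4 * n) ≤ bb n Q * bb n Q ^ (10 + 4 * n) :=
            mul_le_mul_of_nonneg_right (by linarith) (by positivity)
        _ = bb n Q ^ (11 + 4 * n) := by ring
        _ ≤ bb n Q ^ (20 * n) := pow_le_pow_right₀ hb1 (by omega)
        _ ≤ Y := hYb
    calc 6 * bb n Q ^ (10 + 4 * n) * Y ^ 2 ≤ Y * Y ^ 2 :=
          mul_le_mul_of_nonneg_right h1 (by positivity)
      _ = Y ^ 3 := by ring
      _ ≤ Y ^ (3 * n) := pow_le_pow_right₀ hY1 (by omega)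
      _ = X := hYn
  -- the error terms
  set Rf : ℤ × ℤ → ℝ := fun P => (P.2 : ℝ) - (θ * P.1 + be + ga / P.1 + de / (P.1 : ℝ) ^ 2)
    with hRf
  have hRy : ∀ P : ℤ × ℤ, (P.2 : ℝ) = θ * P.1 + be + (ga / P.1 + de / (P.1 : ℝ) ^ 2 + Rf P) := by
    intro P
    simp only [hRf]
    ring
  have hRb : ∀ P ∈ ({P1, P2, P3} : Set (ℤ × ℤ)), |Rf P| ≤ bb n Q ^ 25 / X ^ 3 := by
    intro P hP
    refine (hE P hP).trans ?_
    refine div_le_div_of_nonneg_left (by positivity) (by positivity) ?_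
    exact pow_le_pow_left₀ hX0.le (hX1 P hP) 3
  clear_value Rf
  have m1 : P1 ∈ ({P1, P2, P3} : Set (ℤ × ℤ)) := by simp
  have m2 : P2 ∈ ({P1, P2, P3} : Set (ℤ × ℤ)) := by simp
  have m3 : P3 ∈ ({P1, P2, P3} : Set (ℤ × ℤ)) := by simp
  -- the first coordinates are different
  have hxne : ∀ P ∈ ({P1, P2, P3} : Set (ℤ × ℤ)), ∀ P' ∈ ({P1, P2, P3} : Set (ℤ × ℤ)),
      P ≠ P' → P.1 ≠ P'.1 := by
    intro P hP P' hP' hne hx
    apply hne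
    refine Prod.ext hx ?_
    have h1 := hRy P
    have h2 := hRy P'
    have hx' : (P.1 : ℝ) = P'.1 := by rw [hx]
    have h3 : (P.2 : ℝ) - P'.2 = Rf P - Rf P' := by
      rw [h1, h2, hx']; ring
    have h4 : |(P.2 : ℝ) - P'.2| < 1 := by
      rw [h3]
      have h5 := abs_sub (Rf P) (Rf P')
      have h6 := hRb P hP
      have h7 := hRb P' hP'
      have h8 : bb n Q ^ 25 / X ^ 3 < 1 / 2 := by
        rw [div_lt_iff₀ (by positivity)]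
        have h9 : bb n Q ^ 26 ≤ X ^ 3 := hbX.trans (by nlinarith [sq_nonneg X])
        have h10 : 1000 * bb n Q ^ 25 ≤ bb n Q ^ 26 := by
          calc 1000 * bb n Q ^ 25 ≤ bb n Q * bb n Q ^ 25 :=
                mul_le_mul_of_nonneg_right hb1000 (by positivity)
            _ = bb n Q ^ 26 := by ring
        have h11 : 0 < bb n Q ^ 25 := by positivity
        linarith
      linarith
    have h5 : |P.2 - P'.2| < 1 := by exact_mod_cast h4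
    rw [Int.abs_lt_one_iff] at h5
    linarith
  have x12 := hxne P1 m1 P2 m2 h12
  have x13 := hxne P1 m1 P3 m3 h13
  have x23 := hxne P2 m2 P3 m3 h23
  -- gaps
  have hgap : ∀ P ∈ ({P1, P2, P3} : Set (ℤ × ℤ)), ∀ P' ∈ ({P1, P2, P3} : Set (ℤ × ℤ)),
      P.1 ≠ P'.1 → X ≤ bb n Q ^ (12 + n) * |(P.1 : ℝ) - P'.1| ^ n := by
    intro P hP P' hP' hne
    exact noCol_gap hn hQ O be ga de hga hde X hX P.1 P.2 P'.1 P'.2 hne (hX1 P hP) (hX1 P' hP')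
      (hRy P) (hRy P') (hRb P hP) (hRb P' hP')
  have g12 := hgap P2 m2 P1 m1 x12.symm
  have g13 := hgap P3 m3 P1 m1 x13.symm
  have g23 := hgap P3 m3 P2 m2 x23.symm
  -- the smallest distance
  obtain ⟨D, hD0, hD12, hD13, hD23, hDg⟩ : ∃ D : ℝ, 0 < D ∧ D ≤ |(P2.1 : ℝ) - P1.1| ∧
      D ≤ |(P3.1 : ℝ) - P1.1| ∧ D ≤ |(P3.1 : ℝ) - P2.1| ∧ X ≤ bb n Q ^ (12 + n) * D ^ n := by
    have p12 : 0 < |(P2.1 : ℝ) - P1.1| := by
      rw [abs_pos, sub_ne_zero]; exact_mod_cast x12.symm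
    have p13 : 0 < |(P3.1 : ℝ) - P1.1| := by
      rw [abs_pos, sub_ne_zero]; exact_mod_cast x13.symm
    have p23 : 0 < |(P3.1 : ℝ) - P2.1| := by
      rw [abs_pos, sub_ne_zero]; exact_mod_cast x23.symm
    rcases le_total |(P2.1 : ℝ) - P1.1| |(P3.1 : ℝ) - P1.1| with c1 | c1
    · rcases le_total |(P2.1 : ℝ) - P1.1| |(P3.1 : ℝ) - P2.1| with c2 | c2
      · exact ⟨_, p12, le_rfl, c1, c2, g12⟩
      · exact ⟨_, p23, c2, c2.trans c1, le_rfl, g23⟩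
    · rcases le_total |(P3.1 : ℝ) - P1.1| |(P3.1 : ℝ) - P2.1| with c2 | c2
      · exact ⟨_, p13, c1, le_rfl, c2, g13⟩
      · exact ⟨_, p23, c2.trans c1, c2, le_rfl, g23⟩
  have hcore := noCol_core (n := n) hb1 hX0 hY1 hD0 hde hga0 hcond (hX1 P1 m1) (hX1 P2 m2)
    (hX1 P3 m3) (by rw [← hXY]; exact hX2 P1 m1) (by rw [← hXY]; exact hX2 P2 m2)
    (by rw [← hXY]; exact hX2 P3 m3) (hRb P1 m1) (hRb P2 m2) (hRb P3 m3) hD12 hD13 hD23 (by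
      unfold Col at hcol
      have hc : ((P2.1 : ℝ) - P1.1) * (P3.2 - P1.2) = (P3.1 - P1.1) * (P2.2 - P1.2) := by
        exact_mod_cast hcol
      rw [hRy P1, hRy P2, hRy P3] at hc
      linear_combination hc)
  -- the contradiction
  have h1 : D ^ (2 * n) ≤ bb n Q ^ ((26 + 4 * n) * n) * X := by
    have h2 : D ^ 2 ≤ bb n Q ^ (26 + 4 * n) * Y ^ 3 := by
      refine hcore.trans (mul_le_mul_of_nonneg_right ?_ (by positivity))
      calc 8 * bb n Q ^ (25 + 4 * n) ≤ bb n Q * bb n Q ^ (25 + 4 * n) :=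
            mul_le_mul_of_nonneg_right (by linarith) (by positivity)
        _ = bb n Q ^ (26 + 4 * n) := by ring
    calc D ^ (2 * n) = (D ^ 2) ^ n := pow_mul _ _ _
      _ ≤ (bb n Q ^ (26 + 4 * n) * Y ^ 3) ^ n := pow_le_pow_left₀ (by positivity) h2 n
      _ = bb n Q ^ ((26 + 4 * n) * n) * Y ^ (3 * n) := by rw [mul_pow, ← pow_mul, ← pow_mul]
      _ = _ := by rw [hYn]
  have h2 : X * X ≤ bb n Q ^ (24 + 28 * n + 4 * n ^ 2) * X := by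
    calc X * X ≤ (bb n Q ^ (12 + n) * D ^ n) * (bb n Q ^ (12 + n) * D ^ n) :=
          mul_le_mul hDg hDg hX0.le (by positivity)
      _ = bb n Q ^ (24 + 2 * n) * D ^ (2 * n) := by ring
      _ ≤ bb n Q ^ (24 + 2 * n) * (bb n Q ^ ((26 + 4 * n) * n) * X) :=
          mul_le_mul_of_nonneg_left h1 (by positivity)
      _ = bb n Q ^ (24 + 28 * n + 4 * n ^ 2) * X := by
          rw [← mul_assoc, ← pow_add]
          congr 2
          ring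
  have h3 : X ≤ bb n Q ^ (24 + 28 * n + 4 * n ^ 2) := le_of_mul_le_mul_right h2 hX0
  have h4 : bb n Q ^ (24 + 28 * n + 4 * n ^ 2) < bb n Q ^ (60 * n ^ 2) :=
    pow_lt_pow_right₀ (by linarith) (by nlinarith)
  linarith

end Pool.Agent.H72.ES
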