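import Pool.Agent.H72.ES.BridgeB

/-! # Final forms -/

namespace Pool.Agent.H72.ES

open Finset Polynomial

/-- arrays of polynomials that differ in low degree -/
theorem top4_arrM {n : ℕ} (hn : 4 ≤ n) {F G : MvPolynomial (Fin 2) ℤ}
    (h : (F - G).totalDegree ≤ n - 4) : Top4 n (arrM F) (arrM G) := by
  intro i j _ h4
  have h1 := arrM_supp h i j (by omega)
  have h2 : arrM (F - G) i j = arrM F i j - arrM G i j := by
    simp [arrM]
  rw [h2] at h1
  linarith

theorem totalDegree_le_of_sub {n k : ℕ} {F G : MvPolynomial (Fin 2) ℤ} (hG : G.totalDegree ≤ n)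
    (hk : k ≤ n) (h : (F - G).totalDegree ≤ k) : F.totalDegree ≤ n := by
  have h1 : F = (F - G) + G := by ring
  rw [h1]
  exact (MvPolynomial.totalDegree_add _ _).trans (max_le (h.trans hk) hG)

/-- pairs (curve, large integer point) with given terms of degree `≥ n - 3`, no flex at infinity -/
theorem bounded_exceptions {n : ℕ} (hn : 4 ≤ n) {H : ℕ} (hH : 2 ≤ H)
    (G : MvPolynomial (Fin 2) ℤ) (hdeg : G.totalDegree = n)
    (hirr : Irreducible (MvPolynomial.map (Int.castRingHom ℚ)
      (MvPolynomial.homogeneousComponent n G)))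
    (hflex : ∀ θ β : ℝ, n - 2 ≤ (MvPolynomial.aeval ![X, C θ * X + C β] G : ℝ[X]).natDegree)
    (T : Finset (MvPolynomial (Fin 2) ℤ × (ℤ × ℤ)))
    (hT : ∀ q ∈ T, (q.1 - G).totalDegree ≤ n - 4 ∧ (∀ m, |q.1.coeff m| ≤ (H : ℤ)) ∧
      MvPolynomial.eval ![q.2.1, q.2.2] q.1 = 0 ∧
      (H : ℤ) ^ (600 * n ^ 5) < max |q.2.1| |q.2.2|) :
    T.card ≤ 80 * n ^ 3 := by
  classical
  by_cases hne : T.Nonempty
  · obtain ⟨q0, hq0⟩ := hne
    set F0 := q0.1 with hF0
    obtain ⟨ha, hirr'⟩ := leadQ_of_irreducible (by omega : 2 ≤ n) hirr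
    have hflex' : ∀ θ : ℝ, aeval θ (part n 0 (arrM G)) = 0 → aeval θ (flexP n (arrM G)) ≠ 0 := by
      refine flexP_ne_of_contact hn (arrM G) hirr' ?_
      intro θ β
      have h1 := hflex θ β
      have h2 : MvPolynomial.aeval ![X, C θ * X + C β] G =
          ev n (cst ℝ[X] (arrM G)) X (C θ * X + C β) := by
        rw [← eval₂_arrM hdeg.le, MvPolynomial.aeval_def]
        congr 1
      rw [h2] at h1
      exact h1
    -- replace `G` by a member of the family
    have hF0G := top4_arrM hn (hT q0 hq0).1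
    have hle : leadQ n (arrM F0) = leadQ n (arrM G) := by
      unfold leadQ
      refine sum_congr rfl fun j hj => ?_
      simp only [mem_range] at hj
      rw [hF0G (n - j) j (by omega) (by omega)]
    have hpart : ∀ k, k ≤ 2 → part n k (arrM F0) = part n k (arrM G) := by
      intro k hk
      unfold part
      refine sum_congr rfl fun j hj => ?_
      simp only [mem_range] at hj
      rw [hF0G (n - k - j) j (by omega) (by omega)]
    have hflexP : flexP n (arrM F0) = flexP n (arrM G) := by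
      unfold flexP
      rw [hpart 0 (by omega), hpart 1 (by omega), hpart 2 (by omega)]
    have ha0 : arrM F0 0 n ≠ 0 := by
      rw [hF0G 0 n (by omega) (by omega)]
      exact ha
    have hirr0 : Irreducible (leadQ n (arrM F0)) := by
      rw [hle]
      exact hirr'
    have hdegT : ∀ q ∈ T, q.1.totalDegree ≤ n := fun q hq =>
      totalDegree_le_of_sub hdeg.le (by omega) (hT q hq).1
    have htop : ∀ q ∈ T, Top4 n (arrM q.1) (arrM F0) := by
      intro q hq i j hij h5
      rw [top4_arrM hn (hT q hq).1 i j hij h5, hF0G i j hij h5]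
    have hinj : Set.InjOn (fun q : MvPolynomial (Fin 2) ℤ × (ℤ × ℤ) => q.2) T := by
      intro q hq r hr hqr
      have hq' : q ∈ T := hq
      have hr' : r ∈ T := hr
      simp only at hqr
      have h1 : arrM q.1 = arrM r.1 := by
        refine shared_point hn hH (arrM F0) ha0 hirr0 (arrM q.1) (arrM r.1)
          (fun i j _ => (hT q hq').2.1 _) (fun i j _ => (hT r hr').2.1 _) (htop q hq') (htop r hr')
          (arrM_supp (hdegT q hq')) (arrM_supp (hdegT r hr')) q.2 (hT q hq').2.2.2 ?_ ?_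
        · rw [← eval_arrM (hdegT q hq')]
          exact (hT q hq').2.2.1
        · rw [hqr, ← eval_arrM (hdegT r hr')]
          exact (hT r hr').2.2.1
      exact Prod.ext (arrM_inj h1) hqr
    rw [← card_image_of_injOn hinj]
    refine main_countB hn hH (arrM F0) (fun i j _ => (hT q0 hq0).2.1 _) ha0 hirr0 ?_ _ ?_
    · rw [hflexP, hpart 0 (by omega)]
      exact hflex'
    · intro P hP
      obtain ⟨q, hq, rfl⟩ := mem_image.1 hP
      refine ⟨(hT q hq).2.2.2, arrM q.1, fun i j _ => (hT q hq).2.1 _, htop q hq, ?_⟩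
      rw [← eval_arrM (hdegT q hq)]
      exact (hT q hq).2.2.1
  · rw [not_nonempty_iff_eq_empty] at hne
    rw [hne]
    simp

/-- large points with small values -/
theorem few_values {n : ℕ} (hn : 4 ≤ n) {H : ℕ} (hH : 2 ≤ H)
    (G : MvPolynomial (Fin 2) ℤ) (hdeg : G.totalDegree = n) (hG : ∀ m, |G.coeff m| ≤ (H : ℤ))
    (hirr : Irreducible (MvPolynomial.map (Int.castRingHom ℚ)
      (MvPolynomial.homogeneousComponent n G)))
    (S : Finset (ℤ × ℤ))
    (hS : ∀ P ∈ S, |MvPolynomial.eval ![P.1, P.2] G| ≤ (H : ℤ) ∧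
      (H : ℤ) ^ (2500 * n ^ 4) < max |P.1| |P.2|) :
    (S.card : ℝ) ≤ 360 * n ^ 4 * (H : ℝ) ^ (1 / (n : ℝ)) := by
  obtain ⟨ha, hirr'⟩ := leadQ_of_irreducible (by omega : 2 ≤ n) hirr
  refine main_count hn hH (arrM G) (fun i j _ => hG _) ha hirr' S ?_
  intro P hP
  refine ⟨(hS P hP).2, ?_⟩
  rw [← eval_arrM hdeg.le]
  exact (hS P hP).1

/-- from finite subsets to `encard` -/
theorem encard_le_of_finset {α : Type*} (s : Set α) (k : ℕ)
    (h : ∀ T : Finset α, (∀ a ∈ T, a ∈ s) → T.card ≤ k) : s.encard ≤ k := by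
  classical
  by_contra hc
  push Not at hc
  have h1 : ((k + 1 : ℕ) : ℕ∞) ≤ s.encard := by
    have := Order.add_one_le_of_lt hc
    exact_mod_cast this
  obtain ⟨t, hts, ht⟩ := Set.exists_subset_encard_eq h1
  have hfin : t.Finite := Set.finite_of_encard_eq_coe ht
  have h2 := h hfin.toFinset (fun a ha => hts (hfin.mem_toFinset.1 ha))
  have h3 : (hfin.toFinset.card : ℕ∞) = ((k + 1 : ℕ) : ℕ∞) := by
    rw [← Set.Finite.encard_eq_coe_toFinset_card, ht]
  have h4 : hfin.toFinset.card = k + 1 := by exact_mod_cast h3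
  omega

end Pool.Agent.H72.ES
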