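import Mathlib

/-! # [ES-RED] The number of reducible integer polynomials of degree `n` and height `≤ H`

Claim: at most `C(n) H^n` integer vectors `(c_0, ..., c_n)`, `|c_i| ≤ H`, `c_n ≠ 0`, give a
polynomial `p = ∑ c_i X^i` that is not irreducible over `ℚ` (`n ≥ 3`).

Proof. `p` has degree `n ≥ 1`, so by Gauss (`Polynomial.IsPrimitive.Int.irreducible_iff_
irreducible_map_cast` for the primitive part, then move the content into one factor) `p = g h` in
`ℤ[X]` with `natDegree g = k`, `natDegree h = n - k`, `1 ≤ k ≤ n/2` (order the factors).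
Mahler measures over `ℂ`: `M(g) M(h) = M(p) ≤ (n+1) H` (`mahlerMeasure_mul`,
`mahlerMeasure_le_sum_norm_coeff`), coefficients `≤ 2^n M` (`norm_coeff_le_choose_mul_mahlerMeasure`).
Hence `|g_i| |h_j| ≤ B := 4^n (n+1) H` for all `i`, `j`. Let `m` be the largest `|g_i|` and let `i`
with `2^i ≤ m < 2^(i+1)`. Then `g` has coefficients `≤ 2^(i+1)`, `h` has coefficients `≤ B/2^i`,
and `1 ≤ 2^i ≤ B`. The number of pairs for given `(k, i)` is, with `x = 2^i`, `y = B/x`,
`≤ (5x)^(k+1) (3y)^(n-k+1) ≤ 5^(n+2) x^(n-1) y^n = 5^(n+2) B^n / x`; sum over `i` and `k`. -/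

namespace Pool.Agent.H72.ES

open Finset Polynomial

/-- the polynomial with coefficient vector `c` over `ℚ` -/
noncomputable def vecP {n : ℕ} (c : Fin (n + 1) → ℤ) : ℚ[X] :=
  ∑ i, C ((c i : ℤ) : ℚ) * X ^ (i : ℕ)

/-- the polynomial with coefficient vector `c` over `ℤ` -/
private noncomputable def vecZ {n : ℕ} (c : Fin (n + 1) → ℤ) : ℤ[X] :=
  ∑ i, C (c i) * X ^ (i : ℕ)

private theorem vecZ_coeff {n : ℕ} (c : Fin (n + 1) → ℤ) (i : Fin (n + 1)) :
    (vecZ c).coeff i = c i := by
  simp only [vecZ, finsetSum_coeff, coeff_C_mul, coeff_X_pow]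
  rw [Finset.sum_eq_single i]
  · simp
  · intro j _ hj
    have : (i : ℕ) ≠ j := fun h => hj (Fin.ext h.symm)
    simp [this]
  · simp

private theorem vecZ_coeff_of_lt {n : ℕ} (c : Fin (n + 1) → ℤ) (i : ℕ) (hi : n < i) :
    (vecZ c).coeff i = 0 := by
  simp only [vecZ, finsetSum_coeff, coeff_C_mul, coeff_X_pow]
  apply Finset.sum_eq_zero
  intro j _
  have : i ≠ j := by
    have := j.2
    omega
  simp [this]

private theorem vecZ_injective {n : ℕ} : Function.Injective (vecZ (n := n)) := by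
  intro c d h
  funext i
  rw [← vecZ_coeff c i, ← vecZ_coeff d i, h]

private theorem vecZ_map {n : ℕ} (c : Fin (n + 1) → ℤ) :
    (vecZ c).map (Int.castRingHom ℚ) = vecP c := by
  simp [vecZ, vecP, Polynomial.map_sum]

private theorem vecZ_natDegree_le {n : ℕ} (c : Fin (n + 1) → ℤ) : (vecZ c).natDegree ≤ n :=
  natDegree_le_iff_coeff_eq_zero.2 fun i hi => vecZ_coeff_of_lt c i hi

private theorem vecZ_natDegree {n : ℕ} (c : Fin (n + 1) → ℤ) (hc : c (Fin.last n) ≠ 0) :
    (vecZ c).natDegree = n := by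
  apply le_antisymm (vecZ_natDegree_le c)
  apply le_natDegree_of_ne_zero
  have := vecZ_coeff c (Fin.last n)
  rw [Fin.val_last] at this
  rwa [this]

private theorem exists_factor (P : ℤ[X]) (n : ℕ) (hn : 1 ≤ n) (hP : P.natDegree = n)
    (hirr : ¬ Irreducible (P.map (Int.castRingHom ℚ))) :
    ∃ g h : ℤ[X], P = g * h ∧ 1 ≤ g.natDegree ∧ g.natDegree ≤ h.natDegree ∧
      g.natDegree + h.natDegree = n := by
  have hP0 : P ≠ 0 := by
    rintro rfl
    simp at hP
    omega
  have hcont : P.content ≠ 0 := by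
    rwa [Ne, content_eq_zero_iff]
  have hprim : P.primPart.IsPrimitive := P.isPrimitive_primPart
  have hdeg : P.primPart.natDegree = n := by rw [natDegree_primPart, hP]
  have hdecomp := P.eq_C_content_mul_primPart
  have hirr2 : ¬ Irreducible P.primPart := by
    intro h
    rw [IsPrimitive.Int.irreducible_iff_irreducible_map_cast hprim] at h
    apply hirr
    rw [hdecomp, Polynomial.map_mul, map_C]
    have hu : IsUnit (C ((Int.castRingHom ℚ) P.content)) := by
      rw [isUnit_C]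
      exact isUnit_iff_ne_zero.2 (by simpa using hcont)
    exact (irreducible_isUnit_mul hu).2 h
  have hnu : ¬ IsUnit P.primPart := by
    intro h
    have := natDegree_eq_zero_of_isUnit h
    omega
  rw [irreducible_iff] at hirr2
  push Not at hirr2
  obtain ⟨a, b, hab, ha, hb⟩ := hirr2 hnu
  have key : ∀ u v : ℤ[X], P.primPart = u * v → ¬ IsUnit u → 1 ≤ u.natDegree := by
    intro u v huv hu
    by_contra hlt
    have h0 : u.natDegree = 0 := by omega
    rw [eq_C_of_natDegree_eq_zero h0] at huv hu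
    apply hu
    rw [isUnit_C]
    exact hprim _ ⟨v, huv⟩
  have ha1 := key a b hab ha
  have hb1 := key b a (by rw [hab, mul_comm]) hb
  have ha0 : a ≠ 0 := by
    rintro rfl
    simp at ha1
  have hb0 : b ≠ 0 := by
    rintro rfl
    simp at hb1
  have hsum : a.natDegree + b.natDegree = n := by
    rw [← natDegree_mul ha0 hb0, ← hab, hdeg]
  have hCa : ∀ q : ℤ[X], (C P.content * q).natDegree = q.natDegree := fun q =>
    natDegree_C_mul hcont
  rcases le_total a.natDegree b.natDegree with hle | hle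
  · refine ⟨C P.content * a, b, ?_, ?_, ?_, ?_⟩
    · rw [mul_assoc, ← hab]
      exact hdecomp
    · rw [hCa]
      exact ha1
    · rw [hCa]
      exact hle
    · rw [hCa]
      exact hsum
  · refine ⟨C P.content * b, a, ?_, ?_, ?_, ?_⟩
    · rw [mul_assoc, mul_comm b a, ← hab]
      exact hdecomp
    · rw [hCa]
      exact hb1
    · rw [hCa]
      exact hle
    · rw [hCa]
      omega

private theorem coeff_mul_coeff_le (P g h : ℤ[X]) (n H : ℕ) (hP : P = g * h)
    (hPn : P.natDegree = n) (hPH : ∀ i, |P.coeff i| ≤ (H : ℤ)) (hg : g.natDegree ≤ n)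
    (hh : h.natDegree ≤ n) (i j : ℕ) :
    (g.coeff i).natAbs * (h.coeff j).natAbs ≤ 4 ^ n * (n + 1) * H := by
  set φ := Int.castRingHom ℂ with hφ
  have hinj : Function.Injective φ := φ.injective_int
  have h1 : ∀ (q : ℤ[X]) (i : ℕ), q.natDegree ≤ n →
      ((q.coeff i).natAbs : ℝ) ≤ 2 ^ n * (q.map φ).mahlerMeasure := by
    intro q i hq
    have h2 := norm_coeff_le_choose_mul_mahlerMeasure i (q.map φ)
    rw [coeff_map, natDegree_map_eq_of_injective hinj] at h2
    have h3 : ‖φ (q.coeff i)‖ = ((q.coeff i).natAbs : ℝ) := by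
      rw [hφ, eq_intCast, Complex.norm_intCast, Nat.cast_natAbs, Int.cast_abs]
    rw [h3] at h2
    refine h2.trans ?_
    apply mul_le_mul_of_nonneg_right _ (mahlerMeasure_nonneg _)
    calc ((q.natDegree.choose i : ℕ) : ℝ) ≤ ((2 ^ q.natDegree : ℕ) : ℝ) := by
          exact_mod_cast Nat.choose_le_two_pow _ _
      _ ≤ 2 ^ n := by
          push_cast
          exact pow_le_pow_right₀ (by norm_num) hq
  have h2 : (P.map φ).mahlerMeasure ≤ (n + 1) * H := by
    refine (mahlerMeasure_le_sum_norm_coeff _).trans ?_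
    rw [Polynomial.sum_over_range' _ _ (n + 1)
      (by rw [natDegree_map_eq_of_injective hinj]; omega)]
    · calc ∑ a ∈ range (n + 1), ‖(P.map φ).coeff a‖ ≤ ∑ a ∈ range (n + 1), (H : ℝ) := by
            apply Finset.sum_le_sum
            intro a _
            rw [coeff_map, hφ, eq_intCast, Complex.norm_intCast]
            have := hPH a
            exact_mod_cast this
        _ = (n + 1) * H := by simp
    · intro i
      simp
  have h3 : (P.map φ).mahlerMeasure = (g.map φ).mahlerMeasure * (h.map φ).mahlerMeasure := by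
    rw [hP, Polynomial.map_mul, mahlerMeasure_mul]
  have h4 : (((g.coeff i).natAbs * (h.coeff j).natAbs : ℕ) : ℝ) ≤
      ((4 ^ n * (n + 1) * H : ℕ) : ℝ) := by
    push_cast
    calc ((g.coeff i).natAbs : ℝ) * ((h.coeff j).natAbs : ℝ)
        ≤ (2 ^ n * (g.map φ).mahlerMeasure) * (2 ^ n * (h.map φ).mahlerMeasure) := by
          apply mul_le_mul (h1 g i hg) (h1 h j hh) (by positivity)
          exact mul_nonneg (by positivity) (mahlerMeasure_nonneg _)
      _ = 4 ^ n * (P.map φ).mahlerMeasure := by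
          rw [h3, show (4 : ℝ) = 2 * 2 by norm_num, mul_pow]
          ring
      _ ≤ 4 ^ n * ((n + 1) * H) := by
          apply mul_le_mul_of_nonneg_left h2 (by positivity)
      _ = 4 ^ n * (n + 1) * H := by ring
  exact_mod_cast h4

/-- integer polynomials of degree at most `d` with coefficients bounded by `A` -/
private noncomputable def box (d A : ℕ) : Finset ℤ[X] := by
  classical
  exact (Fintype.piFinset fun _ : Fin (d + 1) => Finset.Icc (-(A : ℤ)) A).image vecZ

private theorem card_box (d A : ℕ) : (box d A).card ≤ (2 * A + 1) ^ (d + 1) := by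
  classical
  unfold box
  refine Finset.card_image_le.trans ?_
  rw [Fintype.card_piFinset]
  simp only [Int.card_Icc, Finset.prod_const, Finset.card_univ, Fintype.card_fin]
  apply Nat.pow_le_pow_left
  omega

private theorem mem_box (d A : ℕ) (q : ℤ[X]) (hd : q.natDegree ≤ d)
    (hA : ∀ i, (q.coeff i).natAbs ≤ A) : q ∈ box d A := by
  classical
  unfold box
  rw [Finset.mem_image]
  refine ⟨fun i => q.coeff i, ?_, ?_⟩
  · rw [Fintype.mem_piFinset]
    intro i
    rw [Finset.mem_Icc]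
    have := hA i
    omega
  · ext i
    rcases lt_or_ge i (d + 1) with hi | hi
    · exact vecZ_coeff (fun i : Fin (d + 1) => q.coeff i) ⟨i, hi⟩
    · rw [vecZ_coeff_of_lt _ i (by omega), coeff_eq_zero_of_natDegree_lt (by omega)]

private theorem term_bound (n k x B : ℕ) (hn : 3 ≤ n) (hk1 : 1 ≤ k) (hk2 : 2 * k ≤ n)
    (hx : 1 ≤ x) (hxB : x ≤ B) :
    (((2 * (2 * x) + 1) ^ (k + 1) * (2 * (B / x) + 1) ^ (n - k + 1) : ℕ) : ℝ) ≤
      5 ^ (n + 2) * (B : ℝ) ^ n / x := by
  have hx0 : (0 : ℝ) < x := by exact_mod_cast hx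
  have hx1 : (1 : ℝ) ≤ x := by exact_mod_cast hx
  have hxB' : (x : ℝ) ≤ B := by exact_mod_cast hxB
  set y : ℝ := (B : ℝ) / x with hy
  have hy1 : 1 ≤ y := by
    rw [hy, le_div_iff₀ hx0]
    linarith
  have hfl : ((B / x : ℕ) : ℝ) ≤ y := Nat.cast_div_le
  push_cast
  have e1 : (2 * (2 * (x : ℝ)) + 1) ^ (k + 1) ≤ 5 ^ (k + 1) * x ^ (n - 1) := by
    calc (2 * (2 * (x : ℝ)) + 1) ^ (k + 1) ≤ (5 * x) ^ (k + 1) := by
          apply pow_le_pow_left₀ (by positivity)
          linarith
      _ = 5 ^ (k + 1) * x ^ (k + 1) := by rw [mul_pow]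
      _ ≤ 5 ^ (k + 1) * x ^ (n - 1) := by
          apply mul_le_mul_of_nonneg_left _ (by positivity)
          exact pow_le_pow_right₀ hx1 (by omega)
  have e2 : (2 * ((B / x : ℕ) : ℝ) + 1) ^ (n - k + 1) ≤ 5 ^ (n - k + 1) * y ^ n := by
    calc (2 * ((B / x : ℕ) : ℝ) + 1) ^ (n - k + 1) ≤ (5 * y) ^ (n - k + 1) := by
          apply pow_le_pow_left₀ (by positivity)
          linarith
      _ = 5 ^ (n - k + 1) * y ^ (n - k + 1) := by rw [mul_pow]
      _ ≤ 5 ^ (n - k + 1) * y ^ n := by
          apply mul_le_mul_of_nonneg_left _ (by positivity)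
          exact pow_le_pow_right₀ hy1 (by omega)
  calc (2 * (2 * (x : ℝ)) + 1) ^ (k + 1) * (2 * ((B / x : ℕ) : ℝ) + 1) ^ (n - k + 1)
      ≤ (5 ^ (k + 1) * x ^ (n - 1)) * (5 ^ (n - k + 1) * y ^ n) := by
        apply mul_le_mul e1 e2 (by positivity) (by positivity)
    _ = 5 ^ (n + 2) * (B : ℝ) ^ n / x := by
        have hB : (B : ℝ) = x * y := by
          rw [hy]
          field_simp
        have h5 : (5 : ℝ) ^ (n + 2) = 5 ^ (k + 1) * 5 ^ (n - k + 1) := by
          rw [← pow_add]
          congr 1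
          omega
        have hxn : (x : ℝ) ^ n = x ^ (n - 1) * x := by
          rw [← pow_succ]
          congr 1
          omega
        rw [h5, hB, mul_pow, hxn]
        field_simp

theorem red_count (n : ℕ) (hn : 3 ≤ n) : ∃ C : ℝ, 0 ≤ C ∧ ∀ H : ℕ, 1 ≤ H →
    ∀ T : Finset (Fin (n + 1) → ℤ), (∀ c ∈ T, (∀ i, |c i| ≤ (H : ℤ)) ∧ c (Fin.last n) ≠ 0 ∧
      ¬ Irreducible (vecP c)) → (T.card : ℝ) ≤ C * (2 * (H : ℝ) + 1) ^ n := by
  classical
  refine ⟨n * (2 * (5 ^ (n + 2) * ((4 : ℝ) ^ n * (n + 1)) ^ n)), by positivity, ?_⟩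
  intro H hH T hT
  set B : ℕ := 4 ^ n * (n + 1) * H with hB
  have hB1 : 1 ≤ B := by
    rw [hB]
    exact Nat.one_le_iff_ne_zero.2 (by positivity)
  have hfac : ∀ c : Fin (n + 1) → ℤ, c ∈ T → ∃ p : ℤ[X] × ℤ[X], vecZ c = p.1 * p.2 ∧
      1 ≤ p.1.natDegree ∧ p.1.natDegree ≤ p.2.natDegree ∧
      p.1.natDegree + p.2.natDegree = n := by
    intro c hc
    obtain ⟨hc1, hc2, hc3⟩ := hT c hc
    obtain ⟨g, h, h1, h2, h3, h4⟩ := exists_factor (vecZ c) n (by omega)
      (vecZ_natDegree c hc2) (by rwa [vecZ_map])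
    exact ⟨(g, h), h1, h2, h3, h4⟩
  choose! F hF using hfac
  set S : Finset (ℤ[X] × ℤ[X]) := (Finset.Icc 1 (n / 2)).biUnion fun k =>
    (Finset.range (Nat.log 2 B + 1)).biUnion fun i =>
      box k (2 * 2 ^ i) ×ˢ box (n - k) (B / 2 ^ i) with hS
  have hmap : ∀ c ∈ T, F c ∈ S := by
    intro c hc
    obtain ⟨h1, h2, h3, h4⟩ := hF c hc
    obtain ⟨hc1, hc2, hc3⟩ := hT c hc
    set g := (F c).1 with hg
    set h := (F c).2 with hh
    have hbd : ∀ i j, (g.coeff i).natAbs * (h.coeff j).natAbs ≤ B := by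
      intro i j
      refine coeff_mul_coeff_le (vecZ c) g h n H h1 (vecZ_natDegree c hc2) ?_ (by omega)
        (by omega) i j
      intro a
      rcases lt_or_ge a (n + 1) with ha | ha
      · have := vecZ_coeff c ⟨a, ha⟩
        simp only at this
        rw [this]
        exact hc1 _
      · rw [vecZ_coeff_of_lt c a (by omega)]
        simp
    have hg0 : g ≠ 0 := by
      intro h0
      rw [h0] at h2
      simp at h2
    have hh0 : h ≠ 0 := by
      intro h0
      rw [h0] at h3
      simp at h3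
      omega
    -- the largest coefficient of `g`
    obtain ⟨i0, hi0, hmax⟩ := Finset.exists_max_image (Finset.range (g.natDegree + 1))
      (fun i => (g.coeff i).natAbs) ⟨0, by simp⟩
    set m := (g.coeff i0).natAbs with hm
    have hmall : ∀ i, (g.coeff i).natAbs ≤ m := by
      intro i
      rcases lt_or_ge i (g.natDegree + 1) with hi | hi
      · exact hmax i (Finset.mem_range.2 hi)
      · rw [coeff_eq_zero_of_natDegree_lt (by omega)]
        simp
    have hm1 : 1 ≤ m := by
      have := hmall g.natDegree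
      have h5 : g.coeff g.natDegree ≠ 0 := by
        rw [coeff_natDegree]
        exact leadingCoeff_ne_zero.2 hg0
      have h6 : (g.coeff g.natDegree).natAbs ≠ 0 := Int.natAbs_ne_zero.2 h5
      omega
    have hlogle : 2 ^ Nat.log 2 m ≤ m := Nat.pow_log_le_self 2 (by omega)
    have hloglt : m < 2 ^ (Nat.log 2 m + 1) := Nat.lt_pow_succ_log_self (by norm_num) m
    have hmB : m ≤ B := by
      have h5 : h.coeff h.natDegree ≠ 0 := by
        rw [coeff_natDegree]
        exact leadingCoeff_ne_zero.2 hh0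
      have h6 : (h.coeff h.natDegree).natAbs ≠ 0 := Int.natAbs_ne_zero.2 h5
      calc m = m * 1 := by ring
        _ ≤ m * (h.coeff h.natDegree).natAbs := Nat.mul_le_mul_left _ (by omega)
        _ ≤ B := hbd i0 _
    rw [hS, Finset.mem_biUnion]
    refine ⟨g.natDegree, Finset.mem_Icc.2 ⟨h2, by omega⟩, ?_⟩
    rw [Finset.mem_biUnion]
    refine ⟨Nat.log 2 m, Finset.mem_range.2 (Nat.lt_succ_of_le (Nat.log_mono_right hmB)), ?_⟩
    rw [Finset.mem_product]
    constructor
    · apply mem_box _ _ _ le_rfl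
      intro i
      have := hmall i
      rw [pow_succ] at hloglt
      change (g.coeff i).natAbs ≤ 2 * 2 ^ Nat.log 2 m
      omega
    · apply mem_box
      · change h.natDegree ≤ n - g.natDegree
        omega
      · intro j
        change (h.coeff j).natAbs ≤ B / 2 ^ Nat.log 2 m
        rw [Nat.le_div_iff_mul_le (by positivity)]
        calc (h.coeff j).natAbs * 2 ^ Nat.log 2 m ≤ (h.coeff j).natAbs * m :=
              Nat.mul_le_mul_left _ hlogle
          _ = m * (h.coeff j).natAbs := by ring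
          _ ≤ B := hbd i0 j
  have hinj : Set.InjOn F T := by
    intro c hc d hd hcd
    apply vecZ_injective
    rw [(hF c hc).1, (hF d hd).1, hcd]
  have hcard : T.card ≤ S.card := Finset.card_le_card_of_injOn F hmap hinj
  have hScard : (S.card : ℝ) ≤ ∑ k ∈ Finset.Icc 1 (n / 2),
      ∑ i ∈ Finset.range (Nat.log 2 B + 1), 5 ^ (n + 2) * (B : ℝ) ^ n * (1 / 2) ^ i := by
    have h1 : S.card ≤ ∑ k ∈ Finset.Icc 1 (n / 2), ∑ i ∈ Finset.range (Nat.log 2 B + 1),
        (2 * (2 * 2 ^ i) + 1) ^ (k + 1) * (2 * (B / 2 ^ i) + 1) ^ (n - k + 1) := by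
      rw [hS]
      refine Finset.card_biUnion_le.trans (Finset.sum_le_sum fun k _ => ?_)
      refine Finset.card_biUnion_le.trans (Finset.sum_le_sum fun i _ => ?_)
      rw [Finset.card_product]
      exact Nat.mul_le_mul (card_box _ _) (card_box _ _)
    have h2 : (S.card : ℝ) ≤ ((∑ k ∈ Finset.Icc 1 (n / 2),
        ∑ i ∈ Finset.range (Nat.log 2 B + 1),
        (2 * (2 * 2 ^ i) + 1) ^ (k + 1) * (2 * (B / 2 ^ i) + 1) ^ (n - k + 1) : ℕ) : ℝ) := by
      exact_mod_cast h1
    refine h2.trans ?_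
    rw [Nat.cast_sum]
    apply Finset.sum_le_sum
    intro k hk
    rw [Nat.cast_sum]
    apply Finset.sum_le_sum
    intro i hi
    rw [Finset.mem_Icc] at hk
    rw [Finset.mem_range] at hi
    have hpow : 2 ^ i ≤ B := (Nat.pow_le_pow_right (by norm_num) (by omega)).trans
      (Nat.pow_log_le_self 2 (by omega))
    have := term_bound n k (2 ^ i) B hn hk.1 (by omega) Nat.one_le_two_pow hpow
    refine this.trans (le_of_eq ?_)
    push_cast
    rw [div_eq_mul_inv, one_div, inv_pow]
  have hgeo : ∑ i ∈ Finset.range (Nat.log 2 B + 1), ((1 : ℝ) / 2) ^ i ≤ 2 := by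
    have := geom_sum_eq (show ((1 : ℝ) / 2) ≠ 1 by norm_num) (Nat.log 2 B + 1)
    rw [this]
    have h3 : (0 : ℝ) < (1 / 2) ^ (Nat.log 2 B + 1) := by positivity
    have h4 : ((1 / 2 : ℝ) ^ (Nat.log 2 B + 1) - 1) / (1 / 2 - 1) =
        2 - 2 * (1 / 2 : ℝ) ^ (Nat.log 2 B + 1) := by ring
    rw [h4]
    linarith
  have hH0 : (0 : ℝ) ≤ H := by positivity
  calc (T.card : ℝ) ≤ S.card := by exact_mod_cast hcard
    _ ≤ _ := hScard
    _ = ((n / 2 : ℕ) : ℝ) * (5 ^ (n + 2) * (B : ℝ) ^ n *
        ∑ i ∈ Finset.range (Nat.log 2 B + 1), ((1 : ℝ) / 2) ^ i) := by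
          simp only [← Finset.mul_sum, Finset.sum_const, Nat.card_Icc, nsmul_eq_mul]
          norm_num
          ring
    _ ≤ (n : ℝ) * (5 ^ (n + 2) * (B : ℝ) ^ n * 2) := by
          apply mul_le_mul
          · exact_mod_cast Nat.div_le_self n 2
          · exact mul_le_mul_of_nonneg_left hgeo (by positivity)
          · positivity
          · positivity
    _ = n * (2 * (5 ^ (n + 2) * ((4 : ℝ) ^ n * (n + 1)) ^ n)) * (H : ℝ) ^ n := by
          rw [hB]
          push_cast
          rw [mul_pow ((4 : ℝ) ^ n * (n + 1)) (H : ℝ) n]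
          ring
    _ ≤ n * (2 * (5 ^ (n + 2) * ((4 : ℝ) ^ n * (n + 1)) ^ n)) * (2 * (H : ℝ) + 1) ^ n := by
          apply mul_le_mul_of_nonneg_left _ (by positivity)
          apply pow_le_pow_left₀ hH0
          linarith

end Pool.Agent.H72.ES
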