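import Pool.Agent.H72.ES.Excep
import Pool.Agent.H72.ES.RedCount

/-! # One hundred per cent of all curves satisfy the effective bound -/

namespace Pool.Agent.H72.ES

open Finset Polynomial

/-- index set of the monomials `x^(d-j) y^j`, `0 ≤ j ≤ d ≤ n` -/
abbrev Mon (n : ℕ) : Type := (d : Fin (n + 1)) × Fin ((d : ℕ) + 1)

/-- value at `(x, y)` of the polynomial with coefficients `F` -/
def val {n : ℕ} (F : Mon n → ℤ) (x y : ℤ) : ℤ :=
  ∑ m : Mon n, F m * x ^ ((m.1 : ℕ) - (m.2 : ℕ)) * y ^ (m.2 : ℕ)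

/-- the monomial `x^i y^j` -/
def mo {n : ℕ} (i j : ℕ) (h : i + j ≤ n) : Mon n :=
  ⟨⟨i + j, Nat.lt_succ_of_le h⟩, ⟨j, Nat.lt_succ_of_le (Nat.le_add_left j i)⟩⟩

/-- the coefficient array -/
def arr {n : ℕ} (F : Mon n → ℤ) : ℕ → ℕ → ℤ := fun i j =>
  if h : i + j ≤ n then F (mo i j h) else 0

theorem arr_eq {n : ℕ} (F : Mon n → ℤ) (i j : ℕ) (h : i + j ≤ n) : arr F i j = F (mo i j h) := by
  simp [arr, h]

theorem mo_eq {n : ℕ} (m : Mon n) : ∃ h, mo ((m.1 : ℕ) - m.2) (m.2 : ℕ) h = m := by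
  obtain ⟨⟨d, hd⟩, ⟨j, hj⟩⟩ := m
  simp only at hj ⊢
  have h1 : d - j + j = d := by omega
  refine ⟨by omega, ?_⟩
  simp only [mo]
  congr 1
  · exact Fin.ext h1
  · congr 1
    · rw [h1]
    · exact proof_irrel_heq _ _

theorem arr_mon {n : ℕ} (F : Mon n → ℤ) (m : Mon n) :
    arr F ((m.1 : ℕ) - m.2) (m.2 : ℕ) = F m := by
  obtain ⟨h, hm⟩ := mo_eq m
  rw [arr_eq F _ _ h, hm]

theorem arr_inj {n : ℕ} {F G : Mon n → ℤ} (h : arr F = arr G) : F = G := by
  funext m
  rw [← arr_mon F m, ← arr_mon G m, h]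

theorem arr_supp {n : ℕ} (F : Mon n → ℤ) (i j : ℕ) (h : n < i + j) : arr F i j = 0 := by
  simp only [arr]
  rw [dif_neg (by omega)]

theorem ev_arr {n : ℕ} (F : Mon n → ℤ) (x y : ℤ) : ev n (arr F) x y = val F x y := by
  unfold ev val
  rw [sum_sigma', Finset.univ_sigma_univ.symm]
  symm
  refine sum_bij' (fun m _ => ⟨(m.1 : ℕ) - m.2, (m.2 : ℕ)⟩)
    (fun p hp => mo p.1 p.2 (by
      simp only [mem_sigma, mem_range] at hp
      omega)) ?_ ?_ ?_ ?_ ?_
  · rintro ⟨⟨d, hd⟩, ⟨j, hj⟩⟩ _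
    simp only [mem_sigma, mem_range] at hj ⊢
    omega
  · intro p _
    simp
  · intro m _
    obtain ⟨h, hm⟩ := mo_eq m
    exact hm
  · rintro ⟨i, j⟩ hp
    simp [mo]
  · intro m _
    simp only
    rw [arr_mon]

/-- the box of all coefficient vectors of height `≤ H` -/
noncomputable def box (n H : ℕ) : Finset (Mon n → ℤ) := Fintype.piFinset fun _ => Icc (-(H : ℤ)) H

theorem mem_box {n H : ℕ} {F : Mon n → ℤ} : F ∈ box n H ↔ ∀ m, |F m| ≤ (H : ℤ) := by
  simp [box, Fintype.mem_piFinset, mem_Icc, abs_le]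

theorem card_Icc_box (H : ℕ) : (Icc (-(H : ℤ)) H).card = 2 * H + 1 := by
  rw [Int.card_Icc]
  omega

theorem card_box (n H : ℕ) : (box n H).card = (2 * H + 1) ^ Fintype.card (Mon n) := by
  rw [box, Fintype.card_piFinset]
  simp only [card_Icc_box, prod_const, card_univ]

theorem arr_bound {n H : ℕ} {F : Mon n → ℤ} (h : F ∈ box n H) (i j : ℕ) :
    |arr F i j| ≤ (H : ℤ) := by
  by_cases hij : i + j ≤ n
  · rw [arr_eq F i j hij]
    exact mem_box.1 h _
  · rw [arr_supp F i j (by omega)]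
    simp

section fiber

variable {M : Type} [Fintype M] [DecidableEq M]

/-- restriction of integer vectors -/
def rs (A : Finset M) (F : M → ℤ) : A → ℤ := fun m => F m

theorem image_bound (H : ℕ) (A : Finset M) (S : Finset (M → ℤ))
    (hS : ∀ F ∈ S, ∀ m, |F m| ≤ (H : ℤ)) : (S.image (rs A)).card ≤ (2 * H + 1) ^ A.card := by
  have h1 : S.image (rs A) ⊆ Fintype.piFinset fun _ : A => Icc (-(H : ℤ)) H := by
    intro c hc
    obtain ⟨F, hF, rfl⟩ := mem_image.1 hc
    rw [Fintype.mem_piFinset]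
    intro m
    rw [mem_Icc]
    exact abs_le.1 (hS F hF m)
  refine (card_le_card h1).trans ?_
  rw [Fintype.card_piFinset]
  simp only [card_Icc_box, prod_const, card_univ, Fintype.card_coe]
  exact le_refl _

theorem fiber_bound' {β : Type} [DecidableEq β] (r : (M → ℤ) → β) (S : Finset (M → ℤ)) (K I : ℕ)
    (hI : (S.image r).card ≤ I)
    (hK : ∀ F0 ∈ S, ∀ T ⊆ S, (∀ F ∈ T, r F = r F0) → T.card ≤ K) :
    S.card ≤ K * I := by
  have h1 : S.card ≤ K * (S.image r).card := by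
    refine card_le_mul_card_image _ _ ?_
    intro c hc
    obtain ⟨F0, hF0, rfl⟩ := mem_image.1 hc
    refine hK F0 hF0 _ (filter_subset _ _) ?_
    intro F hF
    exact (mem_filter.1 hF).2
  exact h1.trans (Nat.mul_le_mul_left _ hI)

theorem fiber_bound (A : Finset M) (S : Finset (M → ℤ)) (K I : ℕ)
    (hI : (S.image (rs A)).card ≤ I)
    (hK : ∀ F0 ∈ S, ∀ T ⊆ S, (∀ F ∈ T, ∀ m ∈ A, F m = F0 m) → T.card ≤ K) :
    S.card ≤ K * I := by
  refine fiber_bound' (rs A) S K I hI ?_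
  intro F0 hF0 T hT h
  refine hK F0 hF0 T hT ?_
  intro F hF m hm
  exact congrFun (h F hF) ⟨m, hm⟩

/-- vectors that agree on `A` and are determined by their values on `A` -/
theorem unique_bound (H : ℕ) (A : Finset M) (S : Finset (M → ℤ))
    (hS : ∀ F ∈ S, ∀ m, |F m| ≤ (H : ℤ))
    (hu : ∀ F ∈ S, ∀ F' ∈ S, (∀ m ∈ A, F m = F' m) → F = F') :
    S.card ≤ (2 * H + 1) ^ A.card := by
  have := fiber_bound A S 1 _ (image_bound H A S hS) (by
    intro F0 hF0 T hT h
    rw [card_le_one]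
    intro a ha b hb
    exact hu a (hT ha) b (hT hb) fun m hm => (h a ha m hm).trans (h b hb m hm).symm)
  simpa using this

theorem pow_card_le (H : ℕ) (A : Finset M) (m0 : M) (h : m0 ∉ A) :
    (2 * H + 1) ^ A.card ≤ (2 * H + 1) ^ (Fintype.card M - 1) := by
  refine Nat.pow_le_pow_right (by omega) ?_
  have : A ⊆ univ.erase m0 := by
    intro m hm
    refine mem_erase.2 ⟨?_, mem_univ _⟩
    rintro rfl
    exact h hm
  refine (card_le_card this).trans ?_
  rw [card_erase_of_mem (mem_univ _), card_univ]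

end fiber

/-- exceptional for the height `H` -/
def Exc (n H : ℕ) (F : Mon n → ℤ) : Prop :=
  ∃ x y : ℤ, (H : ℤ) ^ (600 * n ^ 5) < max |x| |y| ∧ val F x y = 0

/-- monomials of degree `n - 2` -/
theorem flex_determined {n : ℕ} (hn : 4 ≤ n) (F F' : ℕ → ℕ → ℤ) (ha : F 0 n ≠ 0)
    (hirr : Irreducible (leadQ n F)) (h0 : part n 0 F = part n 0 F')
    (h1 : part n 1 F = part n 1 F') (θ θ' : ℝ) (hθ : aeval θ (part n 0 F) = 0)
    (hθ' : aeval θ' (part n 0 F') = 0) (hfl : aeval θ (flexP n F) = 0)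
    (hfl' : aeval θ' (flexP n F') = 0) : part n 2 F = part n 2 F' := by
  -- the leading polynomial over `ℚ`
  have hmap : (part n 0 F).map (algebraMap ℤ ℚ) = leadQ n F := by
    unfold part leadQ
    rw [Polynomial.map_sum]
    refine sum_congr rfl fun j _ => ?_
    simp
  have hdvd : ∀ (t : ℝ) (q : ℤ[X]), aeval t (part n 0 F) = 0 → aeval t q = 0 →
      leadQ n F ∣ q.map (algebraMap ℤ ℚ) := by
    intro t q ht hq
    have h2 : aeval t (leadQ n F) = 0 := by
      rw [← hmap, aeval_map_algebraMap]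
      exact ht
    have h3 : aeval t (q.map (algebraMap ℤ ℚ)) = 0 := by
      rw [aeval_map_algebraMap]
      exact hq
    have hint : IsIntegral ℚ t :=
      IsAlgebraic.isIntegral ⟨leadQ n F, hirr.ne_zero, h2⟩
    have hmin : Associated (minpoly ℚ t) (leadQ n F) :=
      (minpoly.irreducible hint).associated_of_dvd hirr (minpoly.dvd ℚ t h2)
    exact hmin.symm.dvd.trans (minpoly.dvd ℚ t h3)
  have d1 := hdvd θ _ hθ hfl
  have d2 := hdvd θ' _ (by rw [h0]; exact hθ') hfl'
  have d3 := dvd_sub d1 d2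
  have e1 : (flexP n F).map (algebraMap ℤ ℚ) - (flexP n F').map (algebraMap ℤ ℚ) =
      2 * (derivative (part n 0 F)).map (algebraMap ℤ ℚ) ^ 2 *
        ((part n 2 F - part n 2 F').map (algebraMap ℤ ℚ)) := by
    unfold flexP
    rw [← h0, ← h1]
    simp only [Polynomial.map_add, Polynomial.map_sub, Polynomial.map_mul, Polynomial.map_pow,
      Polynomial.map_ofNat]
    ring
  rw [e1] at d3
  have hprime : Prime (leadQ n F) := hirr.prime
  have hdeg : (leadQ n F).natDegree = n := by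
    have haQ : ((F 0 n : ℤ) : ℚ) ≠ 0 := by exact_mod_cast ha
    have h5 : leadQ n F = C ((F 0 n : ℤ) : ℚ) * X ^ n +
        ∑ j ∈ range n, C ((F (n - j) j : ℤ) : ℚ) * X ^ j := by
      unfold leadQ
      rw [sum_range_succ, Nat.sub_self]
      ring
    rw [h5, natDegree_add_eq_left_of_degree_lt]
    · exact natDegree_C_mul_X_pow n _ haQ
    · rw [degree_C_mul_X_pow n haQ]
      exact deg_sum_lt n _
  have hsmall : ∀ q : ℚ[X], q.degree < (n : WithBot ℕ) → leadQ n F ∣ q → q = 0 := by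
    intro q hq hd
    by_contra hne
    have := degree_le_of_dvd hd hne
    rw [degree_eq_natDegree hirr.ne_zero, hdeg] at this
    exact absurd (lt_of_le_of_lt this hq) (lt_irrefl _)
  have hf' : ¬ leadQ n F ∣ (derivative (part n 0 F)).map (algebraMap ℤ ℚ) := by
    intro hd
    have hm2 : (derivative (part n 0 F)).map (algebraMap ℤ ℚ) = derivative (leadQ n F) := by
      rw [← hmap, derivative_map]
    rw [hm2] at hd
    have hz := hsmall _ (by
      refine lt_of_lt_of_le (degree_derivative_lt hirr.ne_zero) ?_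
      rw [degree_eq_natDegree hirr.ne_zero, hdeg]) hd
    have := derivative_eq_zero.1 hz
    omega
  have h2u : ¬ leadQ n F ∣ (2 : ℚ[X]) := by
    intro hd
    have : IsUnit (2 : ℚ[X]) := by
      have h22 : (2 : ℚ[X]) = C 2 := rfl
      rw [h22]
      exact isUnit_C.2 (by norm_num)
    exact hirr.not_isUnit (isUnit_of_dvd_unit hd this)
  rcases hprime.dvd_or_dvd d3 with h | h
  · rcases hprime.dvd_or_dvd h with h | h
    · exact absurd h h2u
    · exact absurd (hprime.dvd_of_dvd_pow h) hf'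
  · have hz := hsmall _ (by
      have : ((part n 2 F - part n 2 F').map (algebraMap ℤ ℚ)) =
          ∑ j ∈ range (n + 1 - 2), C (((F (n - 2 - j) j - F' (n - 2 - j) j : ℤ)) : ℚ) * X ^ j := by
        unfold part
        rw [← sum_sub_distrib, Polynomial.map_sum]
        refine sum_congr rfl fun j _ => ?_
        simp [sub_mul]
      rw [this]
      refine lt_of_lt_of_le (deg_sum_lt _ _) ?_
      exact_mod_cast (by omega : n + 1 - 2 ≤ n)) h
    have h3 : part n 2 F - part n 2 F' = 0 :=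
      (Polynomial.map_eq_zero_iff (RingHom.injective_int (algebraMap ℤ ℚ))).1 hz
    exact sub_eq_zero.1 h3

end Pool.Agent.H72.ES
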