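import Pool.Agent.H72.ES.Excep

/-! # From polynomials in two variables to coefficient arrays -/

namespace Pool.Agent.H72.ES

open Finset Polynomial

/-- the exponent of `x^i y^j` -/
noncomputable def ex (i j : ℕ) : Fin 2 →₀ ℕ := Finsupp.single 0 i + Finsupp.single 1 j

theorem ex_zero (i j : ℕ) : ex i j 0 = i := by simp [ex]

theorem ex_one (i j : ℕ) : ex i j 1 = j := by simp [ex]

theorem ex_eta (m : Fin 2 →₀ ℕ) : ex (m 0) (m 1) = m := by
  ext i
  fin_cases i
  · exact ex_zero _ _
  · exact ex_one _ _

theorem ex_deg (m : Fin 2 →₀ ℕ) : m.degree = m 0 + m 1 := by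
  rw [Finsupp.degree_eq_sum, Fin.sum_univ_two]

/-- the coefficient array of a polynomial in two variables -/
noncomputable def arrM (G : MvPolynomial (Fin 2) ℤ) : ℕ → ℕ → ℤ := fun i j => G.coeff (ex i j)

theorem arrM_inj {F G : MvPolynomial (Fin 2) ℤ} (h : arrM F = arrM G) : F = G := by
  ext m
  rw [← ex_eta m]
  exact congrFun (congrFun h (m 0)) (m 1)

theorem arrM_supp {n : ℕ} {G : MvPolynomial (Fin 2) ℤ} (hG : G.totalDegree ≤ n) (i j : ℕ)
    (h : n < i + j) : arrM G i j = 0 := by
  refine MvPolynomial.coeff_eq_zero_of_totalDegree_lt ?_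
  refine lt_of_le_of_lt hG ?_
  have : ∑ k ∈ (ex i j).support, ex i j k = i + j := by
    have h1 := ex_deg (ex i j)
    rw [ex_zero, ex_one] at h1
    rw [← h1]
    rfl
  rw [this]
  exact h

theorem eval₂_arrM {S : Type*} [CommRing S] {n : ℕ} {G : MvPolynomial (Fin 2) ℤ}
    (hG : G.totalDegree ≤ n) (x y : S) :
    MvPolynomial.eval₂ (Int.castRingHom S) ![x, y] G = ev n (cst S (arrM G)) x y := by
  rw [MvPolynomial.eval₂_eq']
  set T := (range (n + 1)).sigma fun i => range (n + 1 - i) with hT
  have hinj : Function.Injective (fun p : (_ : ℕ) × ℕ => ex p.1 p.2) := by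
    intro p q h
    have h0 : p.1 = q.1 := by
      have := DFunLike.congr_fun h 0
      simpa only [ex_zero] using this
    have h1 : p.2 = q.2 := by
      have := DFunLike.congr_fun h 1
      simpa only [ex_one] using this
    obtain ⟨a, b⟩ := p
    obtain ⟨c, d⟩ := q
    simp only at h0 h1
    subst h0
    subst h1
    rfl
  have hsub : G.support ⊆ T.image (fun p : (_ : ℕ) × ℕ => ex p.1 p.2) := by
    intro m hm
    refine mem_image.2 ⟨⟨m 0, m 1⟩, ?_, ex_eta m⟩
    have h1 : m.degree ≤ n := by
      have := MvPolynomial.le_totalDegree hm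
      exact this.trans hG
    rw [ex_deg] at h1
    simp only [hT, mem_sigma, mem_range]
    omega
  rw [sum_subset hsub]
  · rw [sum_image (fun _ _ _ _ h => hinj h), sum_sigma]
    unfold ev
    refine sum_congr rfl fun i _ => sum_congr rfl fun j _ => ?_
    simp only [Fin.prod_univ_two, ex_zero, ex_one, Matrix.cons_val_zero, Matrix.cons_val_one]
    simp only [cst, arrM, eq_intCast]
    ring
  · intro m _ hm
    rw [MvPolynomial.notMem_support_iff.1 hm]
    simp

theorem eval_arrM {n : ℕ} {G : MvPolynomial (Fin 2) ℤ} (hG : G.totalDegree ≤ n) (x y : ℤ) :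
    MvPolynomial.eval ![x, y] G = ev n (arrM G) x y := by
  have h := eval₂_arrM (S := ℤ) hG x y
  have h1 : cst ℤ (arrM G) = arrM G := by
    funext i j
    simp [cst]
  rw [h1] at h
  rw [← h]
  have h2 : Int.castRingHom ℤ = RingHom.id ℤ := RingHom.ext_int _ _
  rw [h2]
  rfl

theorem ev_zero_left {S : Type*} [CommRing S] (n : ℕ) (c : ℕ → ℕ → S)
    (hc : ∀ i j, i + j ≠ n → c i j = 0) (y : S) :
    ev n c 1 y = ∑ j ∈ range (n + 1), c (n - j) j * y ^ j := by
  unfold ev
  simp only [one_pow, mul_one]
  have h1 : ∀ i ∈ range (n + 1), ∑ j ∈ range (n + 1 - i), c i j * y ^ j =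
      c i (n - i) * y ^ (n - i) := by
    intro i hi
    rw [sum_eq_single (n - i)]
    · intro j hj hne
      simp only [mem_range] at hi hj
      rw [hc i j (by omega), zero_mul]
    · intro h
      exact absurd (mem_range.2 (by simp only [mem_range] at hi; omega)) h
  rw [sum_congr rfl h1, ← sum_range_reflect]
  refine sum_congr rfl fun j hj => ?_
  simp only [mem_range] at hj
  have e1 : n + 1 - 1 - j = n - j := by omega
  have e2 : n - (n - j) = j := by omega
  rw [e1, e2]

/-- irreducibility of the leading form -/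
theorem leadQ_of_irreducible {n : ℕ} (hn : 2 ≤ n) {G : MvPolynomial (Fin 2) ℤ}
    (hirr : Irreducible (MvPolynomial.map (Int.castRingHom ℚ)
      (MvPolynomial.homogeneousComponent n G))) :
    arrM G 0 n ≠ 0 ∧ Irreducible (leadQ n (arrM G)) := by
  set L := MvPolynomial.homogeneousComponent n G with hL
  set φ : MvPolynomial (Fin 2) ℚ := MvPolynomial.map (Int.castRingHom ℚ) L with hφ
  have hLhom : L.IsHomogeneous n := MvPolynomial.homogeneousComponent_isHomogeneous n G
  have hφhom : φ.IsHomogeneous n := hLhom.map _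
  have hLdeg : L.totalDegree ≤ n := hLhom.totalDegree_le
  have hLarr : ∀ i j, arrM L i j = if i + j = n then arrM G i j else 0 := by
    intro i j
    simp only [arrM, hL]
    rw [MvPolynomial.coeff_homogeneousComponent, ex_deg, ex_zero, ex_one]
  -- the swapped form is the homogenisation of `leadQ`
  set σ := MvPolynomial.renameEquiv ℚ (Equiv.swap (0 : Fin 2) 1) with hσ
  have hσhom : (σ φ).IsHomogeneous n := by
    have := hφhom.rename_isHomogeneous (f := (Equiv.swap (0 : Fin 2) 1))
    exact this
  have hval : MvPolynomial.aeval ![(X : ℚ[X]), 1] (σ φ) = leadQ n (arrM G) := by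
    have h1 : MvPolynomial.aeval ![(X : ℚ[X]), 1] (σ φ) =
        MvPolynomial.aeval ![(1 : ℚ[X]), X] φ := by
      rw [hσ]
      simp only [MvPolynomial.renameEquiv_apply, MvPolynomial.aeval_rename]
      congr 1
      ext i
      fin_cases i <;> simp
    rw [h1, hφ]
    have h2 : MvPolynomial.aeval ![(1 : ℚ[X]), X] (MvPolynomial.map (Int.castRingHom ℚ) L) =
        MvPolynomial.eval₂ (Int.castRingHom ℚ[X]) ![(1 : ℚ[X]), X] L := by
      rw [MvPolynomial.aeval_def, MvPolynomial.eval₂_map]
      congr 1
    rw [h2, eval₂_arrM hLdeg, ev_zero_left]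
    · unfold leadQ
      refine sum_congr rfl fun j hj => ?_
      simp only [mem_range] at hj
      simp only [cst]
      rw [hLarr, if_pos (by omega)]
      simp
    · intro i j hij
      simp only [cst]
      rw [hLarr, if_neg hij]
      simp
  have hhomog : (leadQ n (arrM G)).homogenize n = σ φ :=
    homogenize_eq_of_isHomogeneous hσhom hval
  have hirrσ : Irreducible (σ φ) := (MulEquiv.irreducible_iff σ).2 hirr
  have hdeg_le : (leadQ n (arrM G)).natDegree ≤ n := by
    unfold leadQ
    refine natDegree_sum_le_of_forall_le _ _ fun j hj => ?_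
    refine (natDegree_C_mul_X_pow_le _ _).trans ?_
    simp only [mem_range] at hj
    omega
  have hX1 : ∀ p : ℚ[X], ∀ k l : ℕ, p.natDegree ≤ k → p.homogenize (k + l) =
      p.homogenize k * MvPolynomial.X 1 ^ l := by
    intro p k l hk
    have := homogenize_mul p 1 (m := k) (n := l) hk (by simp)
    rw [mul_one, homogenize_one] at this
    exact this
  have hunit_deg : ∀ q : MvPolynomial (Fin 2) ℚ, ∀ k, 1 ≤ k → q.IsHomogeneous k → ¬ IsUnit q := by
    intro q k hk hq hu
    have h0 : q.totalDegree = 0 := by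
      obtain ⟨r, hr, hqr⟩ := MvPolynomial.isUnit_iff_eq_C_of_isReduced.1 hu
      rw [hqr]
      exact MvPolynomial.totalDegree_C r
    have hq0 : q ≠ 0 := hu.ne_zero
    rw [hq.totalDegree hq0] at h0
    omega
  have htop : arrM G 0 n ≠ 0 := by
    intro h0
    -- then the degree of `leadQ` is `≤ n - 1`
    have hd : (leadQ n (arrM G)).natDegree ≤ n - 1 := by
      unfold leadQ
      rw [sum_range_succ, Nat.sub_self, h0]
      simp only [Int.cast_zero, map_zero, zero_mul, add_zero]
      refine natDegree_sum_le_of_forall_le _ _ fun j hj => ?_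
      refine (natDegree_C_mul_X_pow_le _ _).trans ?_
      simp only [mem_range] at hj
      omega
    have h1 := hX1 _ (n - 1) 1 hd
    have h2 : n - 1 + 1 = n := by omega
    rw [h2, hhomog, pow_one] at h1
    rcases hirrσ.isUnit_or_isUnit h1 with hu | hu
    · exact hunit_deg _ (n - 1) (by omega) (isHomogeneous_homogenize _) hu
    · exact hunit_deg _ 1 (by omega) (MvPolynomial.isHomogeneous_X _ _) hu
  refine ⟨htop, ?_⟩
  have hcoeff : (leadQ n (arrM G)).coeff n = ((arrM G 0 n : ℤ) : ℚ) := by
    unfold leadQ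
    rw [finsetSum_coeff, sum_eq_single n]
    · simp
    · intro j _ hj
      simp [coeff_X_pow, hj.symm]
    · intro h
      exact absurd (mem_range.2 (Nat.lt_succ_self n)) h
  have hne : (leadQ n (arrM G)).coeff n ≠ 0 := by
    rw [hcoeff]
    exact_mod_cast htop
  have hdeg : (leadQ n (arrM G)).natDegree = n :=
    le_antisymm hdeg_le (le_natDegree_of_ne_zero hne)
  have hlne : leadQ n (arrM G) ≠ 0 := by
    intro h
    rw [h] at hne
    simp at hne
  refine ⟨?_, ?_⟩
  · intro hu
    have := natDegree_eq_zero_of_isUnit hu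
    omega
  · intro g h hgh
    by_contra hc
    push Not at hc
    obtain ⟨hg, hh⟩ := hc
    have hg0 : g ≠ 0 := by
      rintro rfl
      rw [zero_mul] at hgh
      exact hlne hgh
    have hh0 : h ≠ 0 := by
      rintro rfl
      rw [mul_zero] at hgh
      exact hlne hgh
    have hgd : 1 ≤ g.natDegree := by
      by_contra h1
      have h2 : g.natDegree = 0 := by omega
      rw [eq_C_of_natDegree_eq_zero h2] at hg hg0
      exact hg (isUnit_C.2 (IsUnit.mk0 _ (by
        intro h3
        rw [h3, map_zero] at hg0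
        exact hg0 rfl)))
    have hhd : 1 ≤ h.natDegree := by
      by_contra h1
      have h2 : h.natDegree = 0 := by omega
      rw [eq_C_of_natDegree_eq_zero h2] at hh hh0
      exact hh (isUnit_C.2 (IsUnit.mk0 _ (by
        intro h3
        rw [h3, map_zero] at hh0
        exact hh0 rfl)))
    have hsum : g.natDegree + h.natDegree = n := by
      rw [← natDegree_mul hg0 hh0, ← hgh, hdeg]
    have h1 := homogenize_mul g h (m := g.natDegree) (n := h.natDegree) le_rfl le_rfl
    rw [← hgh, hsum, hhomog] at h1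
    rcases hirrσ.isUnit_or_isUnit h1 with hu | hu
    · exact hunit_deg _ _ hgd (isHomogeneous_homogenize _) hu
    · exact hunit_deg _ _ hhd (isHomogeneous_homogenize _) hu

end Pool.Agent.H72.ES
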