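import Pool.Agent.H72.ES.Dens

/-! # Counting the exceptional curves in the box -/

namespace Pool.Agent.H72.ES

open Finset Polynomial

theorem part_coeff (n k : ℕ) (F : ℕ → ℕ → ℤ) (j : ℕ) (hj : j < n + 1 - k) :
    (part n k F).coeff j = F (n - k - j) j := by
  unfold part
  rw [finsetSum_coeff]
  simp only [coeff_C_mul, coeff_X_pow]
  rw [sum_eq_single j]
  · simp
  · intro b _ hb
    simp [hb.symm]
  · intro h
    exact absurd (mem_range.2 hj) h

theorem arr_congr {n : ℕ} {F F' : Mon n → ℤ} {i j : ℕ} (h : i + j ≤ n)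
    (he : F (mo i j h) = F' (mo i j h)) : arr F i j = arr F' i j := by
  rw [arr_eq F i j h, arr_eq F' i j h, he]

theorem mo_deg {n : ℕ} (i j : ℕ) (h : i + j ≤ n) : ((mo i j h : Mon n).1 : ℕ) = i + j := rfl

/-- the vector of the coefficients of degree `n` -/
def tv {n : ℕ} (F : Mon n → ℤ) : Fin (n + 1) → ℤ := fun j => F ⟨Fin.last n, j⟩

theorem tv_eq {n : ℕ} (F : Mon n → ℤ) (j : Fin (n + 1)) : tv F j = arr F (n - j) j :=
  (arr_mon F ⟨Fin.last n, j⟩).symm

theorem leadQ_tv {n : ℕ} (F : Mon n → ℤ) : leadQ n (arr F) = vecP (tv F) := by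
  unfold leadQ vecP
  rw [Finset.sum_range]
  refine sum_congr rfl fun j _ => ?_
  rw [tv_eq]

/-- monomials of degree `n` -/
theorem card_top (n : ℕ) :
    (univ.filter fun m : Mon n => m.1 = Fin.last n).card = n + 1 := by
  have : (univ.filter fun m : Mon n => m.1 = Fin.last n) =
      (univ : Finset (Fin (n + 1))).image (fun j => (⟨Fin.last n, j⟩ : Mon n)) := by
    ext m
    simp only [mem_filter, mem_univ, true_and, mem_image]
    constructor
    · intro h
      obtain ⟨d, j⟩ := m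
      simp only at h
      subst h
      exact ⟨j, rfl⟩
    · rintro ⟨j, rfl⟩
      rfl
  have hinj : Function.Injective (fun j : Fin (n + 1) => (⟨Fin.last n, j⟩ : Mon n)) := by
    intro i j h
    simpa using h
  rw [this]
  exact (card_image_of_injective (univ : Finset (Fin (n + 1))) hinj).trans (by simp)

theorem card_mon_ge (n : ℕ) : n + 1 ≤ Fintype.card (Mon n) := by
  calc n + 1 = (univ.filter fun m : Mon n => m.1 = Fin.last n).card := (card_top n).symm
    _ ≤ (univ : Finset (Mon n)).card := card_le_card (filter_subset _ _)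
    _ = Fintype.card (Mon n) := card_univ

theorem exc_zero {n H : ℕ} (S : Finset (Mon n → ℤ)) (hS : ∀ F ∈ S, F ∈ box n H)
    (h0 : ∀ F ∈ S, arr F 0 n = 0) : S.card ≤ (2 * H + 1) ^ (Fintype.card (Mon n) - 1) := by
  classical
  have hle : 0 + n ≤ n := by omega
  refine le_trans (unique_bound H (univ.erase (mo 0 n hle)) S
    (fun F hF => mem_box.1 (hS F hF)) ?_) (pow_card_le H _ (mo 0 n hle) (by simp))
  intro F hF F' hF' h
  funext m
  by_cases hm : m = mo 0 n hle
  · rw [hm, ← arr_eq F 0 n hle, ← arr_eq F' 0 n hle, h0 F hF, h0 F' hF']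
  · exact h m (mem_erase.2 ⟨hm, mem_univ _⟩)

theorem exc_red {n : ℕ} (hn : 3 ≤ n) : ∃ C : ℕ, ∀ H : ℕ, 1 ≤ H → ∀ S : Finset (Mon n → ℤ),
    (∀ F ∈ S, F ∈ box n H) → (∀ F ∈ S, arr F 0 n ≠ 0 ∧ ¬ Irreducible (leadQ n (arr F))) →
    S.card ≤ C * (2 * H + 1) ^ (Fintype.card (Mon n) - 1) := by
  classical
  obtain ⟨C, hC0, hC⟩ := red_count n hn
  refine ⟨⌈C⌉₊, fun H hH S hS h1 => ?_⟩
  have hI : (S.image tv).card ≤ ⌈C⌉₊ * (2 * H + 1) ^ n := by
    have h2 := hC H hH (S.image tv) ?_
    · have h3 : ((S.image tv).card : ℝ) ≤ ((⌈C⌉₊ * (2 * H + 1) ^ n : ℕ) : ℝ) := by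
        push_cast
        refine h2.trans ?_
        gcongr
        exact Nat.le_ceil C
      exact_mod_cast h3
    · intro c hc
      obtain ⟨F, hF, rfl⟩ := mem_image.1 hc
      refine ⟨fun i => mem_box.1 (hS F hF) _, ?_, ?_⟩
      · rw [tv_eq]
        simpa using (h1 F hF).1
      · rw [← leadQ_tv]
        exact (h1 F hF).2
  have hK : ∀ F0 ∈ S, ∀ T ⊆ S, (∀ F ∈ T, tv F = tv F0) →
      T.card ≤ (2 * H + 1) ^ (Fintype.card (Mon n) - (n + 1)) := by
    intro F0 _ T hT h
    have h2 := unique_bound H (univ.filter fun m : Mon n => ¬ m.1 = Fin.last n) T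
      (fun F hF => mem_box.1 (hS F (hT hF))) ?_
    · have h3 : (univ.filter fun m : Mon n => ¬ m.1 = Fin.last n).card =
          Fintype.card (Mon n) - (n + 1) := by
        have h4 := card_filter_add_card_filter_not (s := (univ : Finset (Mon n)))
          (fun m : Mon n => m.1 = Fin.last n)
        rw [card_top, card_univ] at h4
        omega
      rw [h3] at h2
      exact h2
    · intro F hF F' hF' h3
      funext m
      by_cases hm : m.1 = Fin.last n
      · obtain ⟨d, j⟩ := m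
        simp only at hm
        subst hm
        have := (h F hF).trans (h F' hF').symm
        exact congrFun this j
      · exact h3 m (by simp [hm])
  have h4 := fiber_bound' tv S _ _ hI hK
  refine h4.trans (le_of_eq ?_)
  have h5 := card_mon_ge n
  have h6 : Fintype.card (Mon n) - 1 = (Fintype.card (Mon n) - (n + 1)) + n := by omega
  rw [h6, pow_add]
  ring

theorem exc_flex {n H : ℕ} (hn : 4 ≤ n) (S : Finset (Mon n → ℤ)) (hS : ∀ F ∈ S, F ∈ box n H)
    (h1 : ∀ F ∈ S, arr F 0 n ≠ 0 ∧ Irreducible (leadQ n (arr F)) ∧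
      ∃ θ : ℝ, aeval θ (part n 0 (arr F)) = 0 ∧ aeval θ (flexP n (arr F)) = 0) :
    S.card ≤ (2 * H + 1) ^ (Fintype.card (Mon n) - 1) := by
  classical
  have hle : (n - 2) + 0 ≤ n := by omega
  refine le_trans (unique_bound H (univ.filter fun m : Mon n => (m.1 : ℕ) ≠ n - 2) S
    (fun F hF => mem_box.1 (hS F hF)) ?_) (pow_card_le H _ (mo (n - 2) 0 hle) (by simp [mo]))
  intro F hF F' hF' h
  have hagree : ∀ i j, i + j ≠ n - 2 → arr F i j = arr F' i j := by
    intro i j hij
    by_cases hle : i + j ≤ n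
    · refine arr_congr hle (h _ ?_)
      simp only [mem_filter, mem_univ, true_and, mo_deg]
      exact hij
    · rw [arr_supp F i j (by omega), arr_supp F' i j (by omega)]
  have hp0 : part n 0 (arr F) = part n 0 (arr F') := by
    unfold part
    refine sum_congr rfl fun j hj => ?_
    simp only [mem_range] at hj
    rw [hagree _ _ (by omega)]
  have hp1 : part n 1 (arr F) = part n 1 (arr F') := by
    unfold part
    refine sum_congr rfl fun j hj => ?_
    simp only [mem_range] at hj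
    rw [hagree _ _ (by omega)]
  obtain ⟨ha, hirr, θ, hθ, hfl⟩ := h1 F hF
  obtain ⟨_, _, θ', hθ', hfl'⟩ := h1 F' hF'
  have hp2 := flex_determined hn (arr F) (arr F') ha hirr hp0 hp1 θ θ' hθ hθ' hfl hfl'
  apply arr_inj
  funext i j
  by_cases hij : i + j = n - 2
  · have h2 : (part n 2 (arr F)).coeff j = (part n 2 (arr F')).coeff j := by rw [hp2]
    rw [part_coeff n 2 _ j (by omega), part_coeff n 2 _ j (by omega)] at h2
    have h3 : n - 2 - j = i := by omega
    rw [h3] at h2
    exact h2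
  · exact hagree i j hij

theorem exc_main {n H : ℕ} (hn : 4 ≤ n) (hH : 2 ≤ H) (S : Finset (Mon n → ℤ))
    (hS : ∀ F ∈ S, F ∈ box n H ∧ Exc n H F)
    (h1 : ∀ F ∈ S, arr F 0 n ≠ 0 ∧ Irreducible (leadQ n (arr F)) ∧
      ∀ θ : ℝ, aeval θ (part n 0 (arr F)) = 0 → aeval θ (flexP n (arr F)) ≠ 0) :
    S.card ≤ 80 * n ^ 3 * (2 * H + 1) ^ (Fintype.card (Mon n) - 1) := by
  classical
  have hle : 0 + 0 ≤ n := by omega
  set A := univ.filter fun m : Mon n => n < (m.1 : ℕ) + 4 with hA
  have h2 := fiber_bound A S (80 * n ^ 3) ((2 * H + 1) ^ (Fintype.card (Mon n) - 1))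
    ((image_bound H A S fun F hF => mem_box.1 (hS F hF).1).trans
      (pow_card_le H A (mo 0 0 hle) (by simp only [hA, mem_filter, mem_univ, true_and, mo_deg]; omega))) ?_
  · exact h2
  · intro F0 hF0 T hT h
    rw [← card_image_of_injective T (f := arr) (fun _ _ => arr_inj)]
    obtain ⟨ha, hirr, hfl⟩ := h1 F0 hF0
    refine exceptional_count hn hH (arr F0) (fun i j _ => arr_bound (hS F0 hF0).1 i j) ha hirr hfl
      (T.image arr) ?_
    intro F' hF'
    obtain ⟨F, hF, rfl⟩ := mem_image.1 hF'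
    obtain ⟨hbox, x, y, hxy, h0⟩ := hS F (hT hF)
    refine ⟨fun i j _ => arr_bound hbox i j, ?_, arr_supp F, (x, y), hxy, ?_⟩
    · intro i j hij h4
      refine arr_congr hij (h F hF _ ?_)
      simp only [hA, mem_filter, mem_univ, true_and, mo_deg]
      exact h4
    · rw [ev_arr]
      exact h0

/-- the exceptional curves in the box -/
theorem exc_count {n : ℕ} (hn : 4 ≤ n) : ∃ C : ℕ, ∀ H : ℕ, 2 ≤ H → ∀ S : Finset (Mon n → ℤ),
    (∀ F ∈ S, F ∈ box n H ∧ Exc n H F) →
    S.card ≤ C * (2 * H + 1) ^ (Fintype.card (Mon n) - 1) := by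
  classical
  obtain ⟨C, hC⟩ := exc_red (n := n) (by omega)
  refine ⟨1 + C + 1 + 80 * n ^ 3, fun H hH S hS => ?_⟩
  set D := (2 * H + 1) ^ (Fintype.card (Mon n) - 1) with hD
  set S0 := S.filter (fun F => arr F 0 n = 0) with hS0
  set S' := S.filter (fun F => ¬ arr F 0 n = 0) with hS'
  set S1 := S'.filter (fun F => ¬ Irreducible (leadQ n (arr F))) with hS1
  set S'' := S'.filter (fun F => ¬ ¬ Irreducible (leadQ n (arr F))) with hS''
  set S2 := S''.filter (fun F => ∃ θ : ℝ, aeval θ (part n 0 (arr F)) = 0 ∧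
    aeval θ (flexP n (arr F)) = 0) with hS2
  set S3 := S''.filter (fun F => ¬ ∃ θ : ℝ, aeval θ (part n 0 (arr F)) = 0 ∧
    aeval θ (flexP n (arr F)) = 0) with hS3
  have e1 : S0.card + S'.card = S.card := card_filter_add_card_filter_not _
  have e2 : S1.card + S''.card = S'.card := card_filter_add_card_filter_not _
  have e3 : S2.card + S3.card = S''.card := card_filter_add_card_filter_not _
  have s' : S' ⊆ S := filter_subset _ _
  have s'' : S'' ⊆ S' := filter_subset _ _
  have b0 : S0.card ≤ D := exc_zero S0 (fun F hF => (hS F (mem_filter.1 hF).1).1)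
    (fun F hF => (mem_filter.1 hF).2)
  have b1 : S1.card ≤ C * D := by
    refine hC H (by omega) S1 (fun F hF => (hS F (s' (mem_filter.1 hF).1)).1) ?_
    intro F hF
    exact ⟨(mem_filter.1 (mem_filter.1 hF).1).2, (mem_filter.1 hF).2⟩
  have b2 : S2.card ≤ D := by
    refine exc_flex hn S2 (fun F hF => (hS F (s' (s'' (mem_filter.1 hF).1))).1) ?_
    intro F hF
    have h1 := mem_filter.1 hF
    have h2 := mem_filter.1 h1.1
    exact ⟨(mem_filter.1 h2.1).2, not_not.1 h2.2, h1.2⟩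
  have b3 : S3.card ≤ 80 * n ^ 3 * D := by
    refine exc_main hn hH S3 (fun F hF => hS F (s' (s'' (mem_filter.1 hF).1))) ?_
    intro F hF
    have h1 := mem_filter.1 hF
    have h2 := mem_filter.1 h1.1
    refine ⟨(mem_filter.1 h2.1).2, not_not.1 h2.2, ?_⟩
    intro θ hθ hz
    exact h1.2 ⟨θ, hθ, hz⟩
  calc S.card = S0.card + (S1.card + (S2.card + S3.card)) := by rw [← e1, ← e2, ← e3]
    _ ≤ D + (C * D + (D + 80 * n ^ 3 * D)) := by omega
    _ = (1 + C + 1 + 80 * n ^ 3) * D := by ring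

/-- the height of a polynomial, at least 2 -/
def ht {n : ℕ} (F : Mon n → ℤ) : ℕ := max 2 (univ.sup fun m => (F m).natAbs)

theorem le_ht {n : ℕ} (F : Mon n → ℤ) (m : Mon n) : |F m| ≤ (ht F : ℤ) := by
  have h1 : (F m).natAbs ≤ ht F := by
    refine le_trans ?_ (le_max_right _ _)
    exact Finset.le_sup (f := fun m => (F m).natAbs) (mem_univ m)
  rw [Int.abs_eq_natAbs]
  exact_mod_cast h1

theorem two_le_ht {n : ℕ} (F : Mon n → ℤ) : 2 ≤ ht F := le_max_left _ _

/-- **One hundred per cent of all curves of degree `n ≥ 4`.** -/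
theorem density {n : ℕ} (hn : 4 ≤ n) : ∃ C : ℕ, ∀ H : ℕ, 2 ≤ H → ∀ S : Finset (Mon n → ℤ),
    (∀ F ∈ S, F ∈ box n H ∧
      ∃ x y : ℤ, val F x y = 0 ∧ (ht F : ℤ) ^ (1200 * n ^ 5) < max |x| |y|) →
    S.card ≤ C * (2 * H + 1) ^ (Fintype.card (Mon n) - 1) := by
  classical
  obtain ⟨C, hC⟩ := exc_count hn
  refine ⟨C + 4, fun H hH S hS => ?_⟩
  set D := (2 * H + 1) ^ (Fintype.card (Mon n) - 1) with hD
  set S1 := S.filter (fun F => H ≤ ht F ^ 2) with hS1
  set S2 := S.filter (fun F => ¬ H ≤ ht F ^ 2) with hS2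
  have e1 : S1.card + S2.card = S.card := card_filter_add_card_filter_not _
  have b1 : S1.card ≤ C * D := by
    refine hC H hH S1 ?_
    intro F hF
    have h1 := mem_filter.1 hF
    obtain ⟨hbox, x, y, h0, hxy⟩ := hS F h1.1
    refine ⟨hbox, x, y, lt_of_le_of_lt ?_ hxy, h0⟩
    have h2 : H ^ (600 * n ^ 5) ≤ ht F ^ (1200 * n ^ 5) := by
      calc H ^ (600 * n ^ 5) ≤ (ht F ^ 2) ^ (600 * n ^ 5) := Nat.pow_le_pow_left h1.2 _
        _ = ht F ^ (1200 * n ^ 5) := by
          rw [← pow_mul]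
          congr 1
          ring
    exact_mod_cast h2
  have b2 : S2.card ≤ 4 * D := by
    set s := Nat.sqrt H with hs
    have hsub : S2 ⊆ box n s := by
      intro F hF
      have h1 := (mem_filter.1 hF).2
      push Not at h1
      rw [mem_box]
      intro m
      refine (le_ht F m).trans ?_
      have : ht F ≤ s := by
        rw [hs, Nat.le_sqrt, ← pow_two]
        exact h1.le
      exact_mod_cast this
    refine (card_le_card hsub).trans ?_
    rw [card_box]
    have hN : 2 ≤ Fintype.card (Mon n) := by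
      have h5 := card_mon_ge n
      omega
    obtain ⟨N, hN'⟩ : ∃ N, Fintype.card (Mon n) = N + 2 := ⟨_ - 2, (Nat.sub_add_cancel hN).symm⟩
    rw [hD, hN']
    have h3 : s * s ≤ H := Nat.sqrt_le H
    have h4 : s ≤ H := Nat.sqrt_le_self H
    have h5 : (2 * s + 1) ^ 2 ≤ 4 * (2 * H + 1) := by nlinarith
    calc (2 * s + 1) ^ (N + 2) = (2 * s + 1) ^ N * (2 * s + 1) ^ 2 := by rw [pow_add]
      _ ≤ (2 * H + 1) ^ N * (4 * (2 * H + 1)) := by gcongr
      _ = 4 * (2 * H + 1) ^ (N + 2 - 1) := by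
        have : N + 2 - 1 = N + 1 := by omega
        rw [this, pow_succ]
        ring
  calc S.card = S1.card + S2.card := e1.symm
    _ ≤ C * D + 4 * D := by omega
    _ = (C + 4) * D := by ring

end Pool.Agent.H72.ES
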