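import Pool.Agent.H72.ES.Defs

/-! # [ES-LINE] Few integer points with `|G| ≤ H` on a line

`g(s) = G(x₀ + s u₁, y₀ + s u₂)` is a polynomial of degree `≤ n` in `s` with leading coefficient
`f(u) = ∑_j G (n-j) j u₁^(n-j) u₂^j`, a nonzero integer. Let `L = ⌊2 H^(1/n)⌋ + 1`. If `S` has more
than `n L` elements, sort it and take `s_0 < s_1 < ... < s_n` with at least `L` steps between
consecutive ones (indices `0, L, 2L, ..., nL`), so `|s_i - s_j| ≥ L`. Lagrange:
`f(u) = ∑_i g(s_i) / ∏_{j≠i} (s_i - s_j)`, so `1 ≤ (n + 1) H / L^n < 1`. Contradiction, so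
`#S ≤ n L ≤ n (2 H^(1/n) + 1) ≤ 3 n H^(1/n)`. -/

namespace Pool.Agent.H72.ES

open Finset

section aux

open Polynomial

/-- the restriction of the polynomial to a line -/
noncomputable def lineP (n : ℕ) (G : ℕ → ℕ → ℤ) (x0 y0 u1 u2 : ℤ) : ℝ[X] :=
  ∑ i ∈ range (n + 1), ∑ j ∈ range (n + 1 - i),
    C ((G i j : ℤ) : ℝ) * (C (x0 : ℝ) + C (u1 : ℝ) * X) ^ i * (C (y0 : ℝ) + C (u2 : ℝ) * X) ^ j

theorem lin_natDegree (a b : ℝ) : (C a + C b * X : ℝ[X]).natDegree ≤ 1 := by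
  refine (natDegree_add_le _ _).trans (max_le ?_ ?_)
  · rw [natDegree_C]; exact Nat.zero_le _
  · exact (natDegree_C_mul_le _ _).trans natDegree_X_le

theorem lin_coeff (a b : ℝ) : (C a + C b * X : ℝ[X]).coeff 1 = b := by
  simp [coeff_C]

theorem lineP_natDegree (n : ℕ) (G : ℕ → ℕ → ℤ) (x0 y0 u1 u2 : ℤ) :
    (lineP n G x0 y0 u1 u2).natDegree ≤ n := by
  unfold lineP
  refine natDegree_sum_le_of_forall_le _ _ fun i hi => ?_
  refine natDegree_sum_le_of_forall_le _ _ fun j hj => ?_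
  rw [mem_range] at hi hj
  have h1 : ((C (x0 : ℝ) + C (u1 : ℝ) * X) ^ i : ℝ[X]).natDegree ≤ i := by
    refine natDegree_pow_le.trans ?_
    have := lin_natDegree (x0 : ℝ) (u1 : ℝ)
    nlinarith
  have h2 : ((C (y0 : ℝ) + C (u2 : ℝ) * X) ^ j : ℝ[X]).natDegree ≤ j := by
    refine natDegree_pow_le.trans ?_
    have := lin_natDegree (y0 : ℝ) (u2 : ℝ)
    nlinarith
  have h3 : (C ((G i j : ℤ) : ℝ) * (C (x0 : ℝ) + C (u1 : ℝ) * X) ^ i : ℝ[X]).natDegree ≤ i :=
    (natDegree_C_mul_le _ _).trans h1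
  have h4 := natDegree_mul_le_of_le h3 h2
  exact h4.trans (by omega)

theorem lineP_coeff (n : ℕ) (G : ℕ → ℕ → ℤ) (x0 y0 u1 u2 : ℤ) :
    (lineP n G x0 y0 u1 u2).coeff n =
      ((∑ j ∈ range (n + 1), G (n - j) j * u1 ^ (n - j) * u2 ^ j : ℤ) : ℝ) := by
  unfold lineP
  rw [finsetSum_coeff]
  have hx : ∀ (a b : ℝ) (k : ℕ), ((C a + C b * X : ℝ[X]) ^ k).coeff k = b ^ k := by
    intro a b k
    have := coeff_pow_of_natDegree_le (p := (C a + C b * X : ℝ[X])) (n := 1) (m := k)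
      (lin_natDegree a b)
    rw [mul_one] at this
    rw [this, lin_coeff]
  have hd : ∀ (a b : ℝ) (k : ℕ), ((C a + C b * X : ℝ[X]) ^ k).natDegree ≤ k := by
    intro a b k
    refine natDegree_pow_le.trans ?_
    have := lin_natDegree a b
    nlinarith
  have key : ∀ i ∈ range (n + 1), (∑ j ∈ range (n + 1 - i),
      C ((G i j : ℤ) : ℝ) * (C (x0 : ℝ) + C (u1 : ℝ) * X) ^ i *
        (C (y0 : ℝ) + C (u2 : ℝ) * X) ^ j : ℝ[X]).coeff n =
      ((G i (n - i) : ℤ) : ℝ) * (u1 : ℝ) ^ i * (u2 : ℝ) ^ (n - i) := by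
    intro i hi
    rw [mem_range] at hi
    rw [finsetSum_coeff, sum_eq_single (n - i)]
    · have h3 : (C ((G i (n - i) : ℤ) : ℝ) * (C (x0 : ℝ) + C (u1 : ℝ) * X) ^ i : ℝ[X]).natDegree
          ≤ i := (natDegree_C_mul_le _ _).trans (hd _ _ _)
      have h4 := coeff_mul_add_eq_of_natDegree_le h3 (hd (y0 : ℝ) (u2 : ℝ) (n - i))
      rw [show i + (n - i) = n by omega] at h4
      rw [h4, coeff_C_mul, hx, hx]
    · intro j hj hjn
      rw [mem_range] at hj
      apply coeff_eq_zero_of_natDegree_lt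
      have h3 : (C ((G i j : ℤ) : ℝ) * (C (x0 : ℝ) + C (u1 : ℝ) * X) ^ i : ℝ[X]).natDegree
          ≤ i := (natDegree_C_mul_le _ _).trans (hd _ _ _)
      have h4 := natDegree_mul_le_of_le h3 (hd (y0 : ℝ) (u2 : ℝ) j)
      omega
    · intro h
      exact absurd (mem_range.mpr (by omega)) h
  rw [sum_congr rfl key]
  push_cast
  rw [← sum_range_reflect]
  refine sum_congr rfl fun j hj => ?_
  rw [mem_range] at hj
  rw [show n + 1 - 1 - j = n - j by omega, show n - (n - j) = j by omega]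

theorem lineP_eval (n : ℕ) (G : ℕ → ℕ → ℤ) (x0 y0 u1 u2 s : ℤ) :
    (lineP n G x0 y0 u1 u2).eval (s : ℝ) = ((ev n G (x0 + s * u1) (y0 + s * u2) : ℤ) : ℝ) := by
  unfold lineP ev
  simp only [eval_finsetSum, eval_mul, eval_pow, eval_add, eval_C, eval_X]
  push_cast
  refine sum_congr rfl fun i _ => sum_congr rfl fun j _ => ?_
  ring

end aux

theorem strictMono_gap {N : ℕ} (f : Fin N → ℤ) (hf : StrictMono f) (a : Fin N) :
    ∀ d : ℕ, ∀ b : Fin N, (b : ℕ) = a + d → (d : ℤ) ≤ f b - f a := by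
  intro d
  induction d with
  | zero =>
    intro b hb
    have : b = a := Fin.ext (by omega)
    subst this; simp
  | succ d ih =>
    intro b hb
    have hlt : (a : ℕ) + d < N := by have := b.2; omega
    have h1 := ih ⟨a + d, hlt⟩ rfl
    have h2 : f ⟨a + d, hlt⟩ < f b := hf (by rw [Fin.lt_def]; simp only; omega)
    push_cast
    omega

theorem line_bound {n : ℕ} (hn : 1 ≤ n) (G : ℕ → ℕ → ℤ) (x0 y0 u1 u2 : ℤ)
    (hlead : ∑ j ∈ range (n + 1), G (n - j) j * u1 ^ (n - j) * u2 ^ j ≠ 0) (H : ℕ) (hH : 1 ≤ H)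
    (S : Finset ℤ) (hS : ∀ s ∈ S, |ev n G (x0 + s * u1) (y0 + s * u2)| ≤ (H : ℤ)) :
    (S.card : ℝ) ≤ 3 * n * (H : ℝ) ^ (1 / (n : ℝ)) := by
  set R : ℝ := (H : ℝ) ^ (1 / (n : ℝ)) with hR
  have hH1 : (1 : ℝ) ≤ H := by exact_mod_cast hH
  have hn1 : (1 : ℝ) ≤ n := by exact_mod_cast hn
  have hR1 : 1 ≤ R := Real.one_le_rpow hH1 (by positivity)
  have hRn : R ^ n = H := by
    rw [hR, ← Real.rpow_natCast, ← Real.rpow_mul (by positivity), one_div,
      inv_mul_cancel₀ (by positivity), Real.rpow_one]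
  set L : ℕ := ⌊2 * R⌋₊ + 1 with hL
  have hL1 : 2 * R < L := by rw [hL]; push_cast; exact Nat.lt_floor_add_one _
  have hL2 : (L : ℝ) ≤ 2 * R + 1 := by
    rw [hL]; push_cast
    have := Nat.floor_le (show 0 ≤ 2 * R by positivity)
    linarith
  have hmain : S.card ≤ n * L := by
    by_contra hcon
    push Not at hcon
    have hlt : ∀ i : ℕ, i ≤ n → i * L < S.card := by
      intro i hi
      exact lt_of_le_of_lt (Nat.mul_le_mul_right L hi) hcon
    set v : ℕ → ℤ := fun i => if h : i ≤ n then S.orderEmbOfFin rfl ⟨i * L, hlt i h⟩ else 0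
      with hv
    have hvS : ∀ i, i ≤ n → v i ∈ S := by
      intro i hi
      rw [hv]; simp only [hi, dif_pos]
      exact Finset.orderEmbOfFin_mem _ _ _
    have hgap : ∀ i j, i < j → j ≤ n → (L : ℤ) ≤ v j - v i := by
      intro i j hij hj
      have hi : i ≤ n := by omega
      rw [hv]; simp only [hi, hj, dif_pos]
      have hmul : i * L + L ≤ j * L := by
        calc i * L + L = (i + 1) * L := by ring
          _ ≤ j * L := Nat.mul_le_mul_right L hij
      have h1 := strictMono_gap (fun x => S.orderEmbOfFin rfl x)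
        (S.orderEmbOfFin rfl).strictMono ⟨i * L, hlt i hi⟩ (j * L - i * L) ⟨j * L, hlt j hj⟩
        (by simp only; omega)
      have h2 : (L : ℤ) ≤ ((j * L - i * L : ℕ) : ℤ) := by omega
      exact h2.trans h1
    have hgap' : ∀ i j, i ≤ n → j ≤ n → i ≠ j → (L : ℝ) ≤ |((v i : ℤ) : ℝ) - (v j : ℤ)| := by
      intro i j hi hj hij
      rcases lt_or_gt_of_ne hij with h | h
      · have h1 : (L : ℝ) ≤ (v j : ℤ) - (v i : ℤ) := by exact_mod_cast hgap i j h hj
        rw [abs_sub_comm]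
        exact h1.trans (le_abs_self _)
      · have h1 : (L : ℝ) ≤ (v i : ℤ) - (v j : ℤ) := by exact_mod_cast hgap j i h hi
        exact h1.trans (le_abs_self _)
    have hLpos : (0 : ℝ) < L := by linarith
    have hinj : Set.InjOn (fun i => ((v i : ℤ) : ℝ)) (range (n + 1) : Finset ℕ) := by
      intro i hi j hj hij
      rw [mem_coe, mem_range] at hi hj
      by_contra hne
      have h1 := hgap' i j (by omega) (by omega) hne
      simp only at hij
      rw [hij, sub_self, abs_zero] at h1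
      linarith
    have hdeg : (lineP n G x0 y0 u1 u2).degree < ((range (n + 1)).card : ℕ) := by
      rw [card_range]
      refine lt_of_le_of_lt Polynomial.degree_le_natDegree ?_
      exact_mod_cast Nat.lt_succ_of_le (lineP_natDegree n G x0 y0 u1 u2)
    have hlag := Lagrange.coeff_eq_sum hinj hdeg
    rw [card_range, Nat.add_sub_cancel, lineP_coeff] at hlag
    have h1 : (1 : ℝ) ≤ |((∑ j ∈ range (n + 1), G (n - j) j * u1 ^ (n - j) * u2 ^ j : ℤ) : ℝ)| := by
      exact_mod_cast Int.one_le_abs hlead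
    rw [hlag] at h1
    have h2 : ∀ i ∈ range (n + 1), |(lineP n G x0 y0 u1 u2).eval ((v i : ℤ) : ℝ) /
        ∏ j ∈ (range (n + 1)).erase i, (((v i : ℤ) : ℝ) - ((v j : ℤ) : ℝ))| ≤ H / (L : ℝ) ^ n := by
      intro i hi
      have hi' := mem_range.mp hi
      rw [abs_div, lineP_eval, abs_prod]
      refine div_le_div₀ (by positivity) ?_ (by positivity) ?_
      · exact_mod_cast hS (v i) (hvS i (by omega))
      · have h3 : ∏ _j ∈ (range (n + 1)).erase i, (L : ℝ) = (L : ℝ) ^ n := by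
          rw [prod_const, card_erase_of_mem hi, card_range, Nat.add_sub_cancel]
        rw [← h3]
        refine prod_le_prod (fun _ _ => hLpos.le) fun j hj => ?_
        have hj1 := mem_erase.mp hj
        have hj2 := mem_range.mp hj1.2
        exact hgap' i j (by omega) (by omega) (Ne.symm hj1.1)
    have h4 : (1 : ℝ) ≤ (n + 1) * (H / (L : ℝ) ^ n) := by
      refine h1.trans ((abs_sum_le_sum_abs _ _).trans ((sum_le_sum h2).trans ?_))
      rw [sum_const, card_range, nsmul_eq_mul]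
      push_cast
      exact le_refl _
    have h5 : (2 * R) ^ n < (L : ℝ) ^ n := pow_lt_pow_left₀ hL1 (by positivity) (by omega)
    rw [mul_pow, hRn] at h5
    have h6 : (n : ℝ) + 1 ≤ 2 ^ n := by
      have : n + 1 ≤ 2 ^ n := Nat.lt_two_pow_self
      exact_mod_cast this
    have h7 : (1 : ℝ) * (L : ℝ) ^ n ≤ (n + 1) * H := by
      have h8 := mul_le_mul_of_nonneg_right h4 (show (0 : ℝ) ≤ (L : ℝ) ^ n by positivity)
      rw [mul_assoc, div_mul_cancel₀ _ (by positivity)] at h8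
      exact h8
    have h9 : ((n : ℝ) + 1) * H ≤ 2 ^ n * H := mul_le_mul_of_nonneg_right h6 (by linarith)
    linarith
  calc (S.card : ℝ) ≤ ((n * L : ℕ) : ℝ) := by exact_mod_cast hmain
    _ = n * L := by push_cast; rfl
    _ ≤ n * (2 * R + 1) := mul_le_mul_of_nonneg_left hL2 (by linarith)
    _ ≤ n * (3 * R) := mul_le_mul_of_nonneg_left (by linarith) (by linarith)
    _ = 3 * n * R := by ring

/-- a set of integer points on a line, in determinant form -/
theorem line_bound_points {n : ℕ} (hn : 1 ≤ n) (G : ℕ → ℕ → ℤ)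
    (hlead : ∀ u1 u2 : ℤ, (u1 ≠ 0 ∨ u2 ≠ 0) →
      ∑ j ∈ range (n + 1), G (n - j) j * u1 ^ (n - j) * u2 ^ j ≠ 0) (H : ℕ) (hH : 1 ≤ H)
    (P P' : ℤ × ℤ) (hPP : P ≠ P') (S : Finset (ℤ × ℤ))
    (hcol : ∀ R ∈ S, (P'.1 - P.1) * (R.2 - P.2) = (R.1 - P.1) * (P'.2 - P.2))
    (hS : ∀ R ∈ S, |ev n G R.1 R.2| ≤ (H : ℤ)) :
    (S.card : ℝ) ≤ 3 * n * (H : ℝ) ^ (1 / (n : ℝ)) := by
  classical
  set a := P'.1 - P.1 with ha
  set b := P'.2 - P.2 with hb
  have hab : a ≠ 0 ∨ b ≠ 0 := by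
    by_contra hcon
    push Not at hcon
    exact hPP (Prod.ext (by omega) (by omega))
  have hg : 0 < Int.gcd a b := by
    rw [Nat.pos_iff_ne_zero]
    intro h
    rw [Int.gcd_eq_zero_iff] at h
    omega
  obtain ⟨g, hgdef⟩ : ∃ g : ℕ, g = Int.gcd a b := ⟨_, rfl⟩
  obtain ⟨u1, hu1⟩ := Int.gcd_dvd_left (a := a) (b := b)
  obtain ⟨u2, hu2⟩ := Int.gcd_dvd_right (a := a) (b := b)
  have hcop : IsCoprime u1 u2 := by
    rw [Int.isCoprime_iff_gcd_eq_one]
    rw [← hgdef] at hu1 hu2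
    have h1 : Int.gcd a b = g * Int.gcd u1 u2 := by
      rw [hu1, hu2, Int.gcd_mul_left, Int.natAbs_natCast]
    have h2 : g * 1 = g * Int.gcd u1 u2 := by rw [mul_one, ← h1]; exact hgdef
    rw [← hgdef] at hg
    exact (Nat.eq_of_mul_eq_mul_left hg h2).symm
  have hu : u1 ≠ 0 ∨ u2 ≠ 0 := by
    rcases hab with h | h
    · left; rintro rfl; apply h; rw [hu1]; simp
    · right; rintro rfl; apply h; rw [hu2]; simp
  have hgz : ((Int.gcd a b : ℕ) : ℤ) ≠ 0 := by exact_mod_cast hg.ne'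
  have hpar : ∀ R ∈ S, ∃ s : ℤ, R.1 = P.1 + s * u1 ∧ R.2 = P.2 + s * u2 := by
    intro R hR
    have h1 := hcol R hR
    rw [← hgdef] at hu1 hu2 hgz
    rw [hu1, hu2] at h1
    have h2 : u1 * (R.2 - P.2) = (R.1 - P.1) * u2 := by
      apply mul_left_cancel₀ hgz
      linarith
    rcases hu with h | h
    · obtain ⟨s, hs⟩ : u1 ∣ R.1 - P.1 := hcop.dvd_of_dvd_mul_right (Dvd.intro _ h2)
      refine ⟨s, by linarith, ?_⟩
      have h3 : R.2 - P.2 = s * u2 := by
        apply mul_left_cancel₀ h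
        rw [h2, hs]; ring
      linarith
    · obtain ⟨s, hs⟩ : u2 ∣ R.2 - P.2 := hcop.symm.dvd_of_dvd_mul_left (Dvd.intro_left _ h2.symm)
      refine ⟨s, ?_, by linarith⟩
      have h3 : R.1 - P.1 = s * u1 := by
        apply mul_right_cancel₀ h
        rw [← h2, hs]; ring
      linarith
  choose! φ hφ1 hφ2 using hpar
  have hinj : Set.InjOn φ (S : Set (ℤ × ℤ)) := by
    intro R hR R' hR' h
    exact Prod.ext (by rw [hφ1 R hR, hφ1 R' hR', h]) (by rw [hφ2 R hR, hφ2 R' hR', h])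
  have hcard := card_image_of_injOn hinj
  rw [← hcard]
  refine line_bound hn G P.1 P.2 u1 u2 (hlead u1 u2 hu) H hH _ ?_
  intro s hs
  obtain ⟨R, hR, rfl⟩ := mem_image.mp hs
  rw [← hφ1 R hR, ← hφ2 R hR]
  exact hS R hR

end Pool.Agent.H72.ES
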