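import Pool.Agent.H72.ES.Count
import Pool.Agent.H72.ES.Line

/-! # Normalisation: making the polynomial monic in `y` -/

namespace Pool.Agent.H72.ES

open Finset Polynomial

/-- the leading form at `(1, z)` over `ℚ` -/
noncomputable def leadQ (n : ℕ) (G : ℕ → ℕ → ℤ) : ℚ[X] :=
  ∑ j ∈ range (n + 1), C ((G (n - j) j : ℤ) : ℚ) * X ^ j

/-- `G'(x, y') = a^(n-1) G(x, y'/a)`, `a = G 0 n` -/
def nrm (n : ℕ) (G : ℕ → ℕ → ℤ) : ℕ → ℕ → ℤ :=
  fun i j => if j = n then 1 else (G 0 n) ^ (n - 1 - j) * G i j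

theorem ev_nrm {n : ℕ} (hn : 1 ≤ n) (G : ℕ → ℕ → ℤ) (x y : ℤ) :
    ev n (nrm n G) x (G 0 n * y) = (G 0 n) ^ (n - 1) * ev n G x y := by
  unfold ev
  rw [mul_sum]
  refine sum_congr rfl fun i hi => ?_
  rw [mul_sum]
  refine sum_congr rfl fun j hj => ?_
  simp only [mem_range] at hi hj
  by_cases h : j = n
  · have hi0 : i = 0 := by omega
    subst h
    subst hi0
    simp only [nrm, if_true]
    obtain ⟨m, rfl⟩ : ∃ m, j = m + 1 := ⟨j - 1, by omega⟩
    simp only [Nat.add_sub_cancel]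
    rw [mul_pow]
    ring
  · simp only [nrm, h, if_false]
    have h1 : G 0 n ^ (n - 1) = G 0 n ^ (n - 1 - j) * G 0 n ^ j := by
      rw [← pow_add]
      congr 1
      omega
    rw [h1, mul_pow]
    ring

theorem nrm_bound {n : ℕ} (hn : 1 ≤ n) (G : ℕ → ℕ → ℤ) (H : ℕ) (hH : 1 ≤ H)
    (hG : ∀ i j, i + j ≤ n → |G i j| ≤ (H : ℤ)) (i j : ℕ) (hij : i + j ≤ n) :
    |nrm n G i j| ≤ ((H ^ n : ℕ) : ℤ) := by
  have hH1 : (1 : ℤ) ≤ H := by exact_mod_cast hH
  by_cases h : j = n
  · simp only [nrm, h, if_true]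
    push_cast
    simpa using one_le_pow₀ hH1
  · simp only [nrm, h, if_false]
    rw [abs_mul, abs_pow]
    push_cast
    calc |G 0 n| ^ (n - 1 - j) * |G i j| ≤ (H : ℤ) ^ (n - 1 - j) * H :=
          mul_le_mul (pow_le_pow_left₀ (abs_nonneg _) (hG 0 n (by omega)) _) (hG i j hij)
            (abs_nonneg _) (by positivity)
      _ = (H : ℤ) ^ (n - 1 - j + 1) := by ring
      _ ≤ (H : ℤ) ^ n := pow_le_pow_right₀ hH1 (by omega)

theorem deg_sum_lt {R : Type*} [CommRing R] (n : ℕ) (c : ℕ → R) :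
    (∑ j ∈ range n, C (c j) * X ^ j : R[X]).degree < (n : WithBot ℕ) := by
  refine mem_degreeLT.1 (Submodule.sum_mem _ fun j hj => mem_degreeLT.2 ?_)
  refine lt_of_le_of_lt (degree_C_mul_X_pow_le j _) ?_
  exact_mod_cast mem_range.1 hj

theorem lead_nrm_monic {n : ℕ} (G : ℕ → ℕ → ℤ) :
    (lead n (nrm n G)).Monic ∧ (lead n (nrm n G)).natDegree = n := by
  have h1 : lead n (nrm n G) =
      X ^ n + ∑ j ∈ range n, C (nrm n G (n - j) j) * X ^ j := by
    unfold lead
    rw [sum_range_succ]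
    simp only [nrm, if_true, map_one, one_mul]
    ring
  have h2 : (∑ j ∈ range n, C (nrm n G (n - j) j) * X ^ j : ℤ[X]).degree < (n : WithBot ℕ) :=
    deg_sum_lt n _
  rw [h1]
  refine ⟨monic_X_pow_add h2, ?_⟩
  rw [natDegree_add_eq_left_of_degree_lt]
  · exact natDegree_X_pow n
  · rw [degree_X_pow]
    exact h2

theorem lead_nrm_irreducible {n : ℕ} (hn : 1 ≤ n) (G : ℕ → ℕ → ℤ) (ha : G 0 n ≠ 0)
    (hirr : Irreducible (leadQ n G)) : Irreducible (lead n (nrm n G)) := by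
  rw [(lead_nrm_monic G).1.irreducible_iff_irreducible_map_fraction_map (K := ℚ)]
  set a : ℚ := ((G 0 n : ℤ) : ℚ) with haq
  have ha0 : a ≠ 0 := by rw [haq]; exact_mod_cast ha
  have : Invertible (a⁻¹) := invertibleOfNonzero (inv_ne_zero ha0)
  let e := algEquivCMulXAddC (a⁻¹) (0 : ℚ)
  have h1 : map (algebraMap ℤ ℚ) (lead n (nrm n G)) = C (a ^ (n - 1)) * e (leadQ n G) := by
    have h2 : ∀ p : ℚ[X], e p = p.comp (C a⁻¹ * X) := by
      intro p
      simp [e, algEquivCMulXAddC, aeval_def, Polynomial.comp]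
    rw [h2]
    unfold lead leadQ
    rw [Polynomial.map_sum, Polynomial.sum_comp, mul_sum]
    refine sum_congr rfl fun j hj => ?_
    simp only [mem_range] at hj
    simp only [Polynomial.map_mul, map_C, Polynomial.map_pow, map_X, mul_comp, C_comp, pow_comp,
      X_comp, mul_pow]
    have h3 : (algebraMap ℤ ℚ) (nrm n G (n - j) j) =
        a ^ (n - 1) * ((G (n - j) j : ℤ) : ℚ) * (a⁻¹) ^ j := by
      by_cases h : j = n
      · subst h
        simp only [nrm, if_true, map_one, Nat.sub_self]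
        obtain ⟨m, rfl⟩ : ∃ m, j = m + 1 := ⟨j - 1, by omega⟩
        simp only [Nat.add_sub_cancel]
        rw [← haq, ← pow_succ, ← mul_pow, mul_inv_cancel₀ ha0, one_pow]
      · simp only [nrm, h, if_false]
        have h4 : a ^ (n - 1) = a ^ (n - 1 - j) * a ^ j := by
          rw [← pow_add]
          congr 1
          omega
        rw [h4]
        have h5 : a ^ j * (a⁻¹) ^ j = 1 := by rw [← mul_pow, mul_inv_cancel₀ ha0, one_pow]
        simp only [algebraMap_int_eq, eq_intCast, Int.cast_mul, Int.cast_pow]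
        rw [← haq]
        calc a ^ (n - 1 - j) * ((G (n - j) j : ℤ) : ℚ)
            = a ^ (n - 1 - j) * ((G (n - j) j : ℤ) : ℚ) * (a ^ j * (a⁻¹) ^ j) := by rw [h5, mul_one]
          _ = _ := by ring
    rw [h3]
    simp only [map_mul, map_pow]
    ring
  rw [h1]
  have h2 : IsUnit (C (a ^ (n - 1)) : ℚ[X]) := isUnit_C.2 (IsUnit.mk0 _ (pow_ne_zero _ ha0))
  rw [irreducible_isUnit_mul h2]
  exact (MulEquiv.irreducible_iff e).2 hirr

/-- the leading form does not vanish at integer points -/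
theorem lead_ne {n : ℕ} (hn : 2 ≤ n) (G : ℕ → ℕ → ℤ) (ha : G 0 n ≠ 0)
    (hirr : Irreducible (leadQ n G)) (u1 u2 : ℤ) (hu : u1 ≠ 0 ∨ u2 ≠ 0) :
    ∑ j ∈ range (n + 1), G (n - j) j * u1 ^ (n - j) * u2 ^ j ≠ 0 := by
  intro h0
  by_cases h : u1 = 0
  · subst h
    rw [sum_range_succ] at h0
    have h1 : ∑ j ∈ range n, G (n - j) j * (0 : ℤ) ^ (n - j) * u2 ^ j = 0 := by
      refine sum_eq_zero fun j hj => ?_
      have : n - j ≠ 0 := by
        have := mem_range.1 hj
        omega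
      rw [zero_pow this]
      ring
    rw [h1, zero_add, Nat.sub_self, pow_zero, mul_one] at h0
    rcases mul_eq_zero.1 h0 with h2 | h2
    · exact ha h2
    · exact (hu.resolve_left (by simp)) (pow_eq_zero_iff (by omega) |>.1 h2)
  · have hu1 : (u1 : ℚ) ≠ 0 := by exact_mod_cast h
    have h1 : (leadQ n G).eval ((u2 : ℚ) / u1) = 0 := by
      have h2 : (u1 : ℚ) ^ n * (leadQ n G).eval ((u2 : ℚ) / u1) = 0 := by
        have h3 : (((∑ j ∈ range (n + 1), G (n - j) j * u1 ^ (n - j) * u2 ^ j : ℤ)) : ℚ) = 0 := by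
          rw [h0]; simp
        rw [← h3]
        unfold leadQ
        rw [eval_finsetSum, mul_sum]
        push_cast
        refine sum_congr rfl fun j hj => ?_
        simp only [mem_range] at hj
        simp only [eval_mul, eval_C, eval_pow, eval_X]
        have h4 : (u1 : ℚ) ^ n = (u1 : ℚ) ^ (n - j) * (u1 : ℚ) ^ j := by
          rw [← pow_add]
          congr 1
          omega
        rw [h4, div_pow]
        field_simp
      exact (mul_eq_zero.1 h2).resolve_left (pow_ne_zero _ hu1)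
    have hdeg : (leadQ n G).natDegree = n := by
      have h5 : leadQ n G = C ((G 0 n : ℤ) : ℚ) * X ^ n +
          ∑ j ∈ range n, C ((G (n - j) j : ℤ) : ℚ) * X ^ j := by
        unfold leadQ
        rw [sum_range_succ, Nat.sub_self]
        ring
      have h6 : (∑ j ∈ range n, C ((G (n - j) j : ℤ) : ℚ) * X ^ j : ℚ[X]).degree <
          (n : WithBot ℕ) := deg_sum_lt n _
      have haQ : ((G 0 n : ℤ) : ℚ) ≠ 0 := by exact_mod_cast ha
      rw [h5, natDegree_add_eq_left_of_degree_lt]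
      · exact natDegree_C_mul_X_pow n _ haQ
      · rw [degree_C_mul_X_pow n haQ]
        exact h6
    have h7 := degree_eq_one_of_irreducible_of_root hirr h1
    have h8 : (leadQ n G).natDegree = 1 := natDegree_eq_of_degree_eq_some h7
    omega

/-- **Main counting theorem.** -/
theorem main_count {n H : ℕ} (hn : 4 ≤ n) (hH : 2 ≤ H) (G : ℕ → ℕ → ℤ)
    (hG : ∀ i j, i + j ≤ n → |G i j| ≤ (H : ℤ)) (ha : G 0 n ≠ 0)
    (hirr : Irreducible (leadQ n G)) (S : Finset (ℤ × ℤ))
    (hS : ∀ P ∈ S, (H : ℤ) ^ (2500 * n ^ 4) < max |P.1| |P.2| ∧ |ev n G P.1 P.2| ≤ (H : ℤ)) :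
    (S.card : ℝ) ≤ 360 * n ^ 4 * (H : ℝ) ^ (1 / (n : ℝ)) := by
  classical
  set a := G 0 n with hadef
  set M : ℕ := H ^ n with hM
  set Q : ℕ := 2 * M with hQ
  have hM2 : 2 ^ n ≤ M := Nat.pow_le_pow_left hH n
  have hfam : Fam n Q M (lead n (nrm n G)) (nrm n G) :=
    { hn := hn
      hQ := by omega
      hM := le_refl _
      irr := lead_nrm_irreducible (by omega) G ha hirr
      lead_eq := rfl
      top := by simp [nrm]
      bound := fun i j hij => nrm_bound (by omega) G H (by omega) hG i j hij }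
  set g : ℤ × ℤ → ℤ × ℤ := fun P => (P.1, a * P.2) with hg
  have hginj : Function.Injective g := by
    intro P P' h
    simp only [hg, Prod.mk.injEq] at h
    exact Prod.ext h.1 (mul_left_cancel₀ ha h.2)
  set L : ℝ := 3 * n * (H : ℝ) ^ (1 / (n : ℝ)) with hL
  have hHR : (1 : ℝ) ≤ H := by exact_mod_cast (by omega : 1 ≤ H)
  have hnR : (4 : ℝ) ≤ n := by exact_mod_cast hn
  have hH1n : (1 : ℝ) ≤ (H : ℝ) ^ (1 / (n : ℝ)) := Real.one_le_rpow hHR (by positivity)
  have hL1 : 1 ≤ L := by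
    rw [hL]
    nlinarith
  have hmax : ∀ P : ℤ × ℤ, max |P.1| |P.2| ≤ max |P.1| |a * P.2| := by
    intro P
    refine max_le_max le_rfl ?_
    rw [abs_mul]
    have : 1 ≤ |a| := Int.one_le_abs ha
    nlinarith [abs_nonneg P.2]
  have hcard : (S.image g).card = S.card := card_image_of_injective _ hginj
  rw [← hcard]
  have h1 := family_count hfam L hL1 (S.image g) ?_ ?_ ?_
  · calc ((S.image g).card : ℝ) ≤ 120 * L * n ^ 3 := h1
      _ = 360 * n ^ 4 * (H : ℝ) ^ (1 / (n : ℝ)) := by rw [hL]; ring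
  · -- small values
    intro P hP
    obtain ⟨R, hR, rfl⟩ := mem_image.1 hP
    simp only [hg]
    rw [hadef, ev_nrm (by omega), abs_mul, abs_pow, hM]
    push_cast
    calc |G 0 n| ^ (n - 1) * |ev n G R.1 R.2| ≤ (H : ℤ) ^ (n - 1) * H :=
          mul_le_mul (pow_le_pow_left₀ (abs_nonneg _) (hG 0 n (by omega)) _) (hS R hR).2
            (abs_nonneg _) (by positivity)
      _ = (H : ℤ) ^ n := by
          rw [← pow_succ]
          congr 1
          omega
  · -- lines
    intro P hP P' hP' hne S' hS' hcol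
    obtain ⟨R, hR, rfl⟩ := mem_image.1 hP
    obtain ⟨R', hR', rfl⟩ := mem_image.1 hP'
    have hRR : R ≠ R' := fun h => hne (by rw [h])
    set S0 := S.filter (fun P => g P ∈ S') with hS0
    have hS0' : S' = S0.image g := by
      ext P
      constructor
      · intro hP
        obtain ⟨T, hT, rfl⟩ := mem_image.1 (hS' hP)
        exact mem_image.2 ⟨T, mem_filter.2 ⟨hT, hP⟩, rfl⟩
      · intro hP
        obtain ⟨T, hT, rfl⟩ := mem_image.1 hP
        exact (mem_filter.1 hT).2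
    rw [hS0', card_image_of_injective _ hginj]
    refine line_bound_points (by omega) G (lead_ne (by omega) G ha hirr) H (by omega) R R' hRR S0
      ?_ ?_
    · intro T hT
      have h2 := hcol (g T) (mem_filter.1 hT).2
      simp only [Col, hg] at h2
      have h3 : a * ((R'.1 - R.1) * (T.2 - R.2)) = a * ((T.1 - R.1) * (R'.2 - R.2)) := by
        linarith
      exact mul_left_cancel₀ ha h3
    · exact fun T hT => (hS T (mem_filter.1 hT).1).2
  · -- far away
    intro P hP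
    obtain ⟨R, hR, rfl⟩ := mem_image.1 hP
    have h2 : (((H : ℤ) ^ (2500 * n ^ 4) : ℤ) : ℝ) ≤ ((max |(g R).1| |(g R).2| : ℤ) : ℝ) := by
      exact_mod_cast ((hS R hR).1.le.trans (hmax R))
    refine le_trans ?_ h2
    have hQH : (Q : ℝ) ≤ (H : ℝ) ^ (n + 1) := by
      rw [hQ, hM]
      push_cast
      have : (2 : ℝ) ≤ H := by exact_mod_cast hH
      calc 2 * (H : ℝ) ^ n ≤ H * (H : ℝ) ^ n := by gcongr
        _ = (H : ℝ) ^ (n + 1) := by ring
    have hQ0 : (0 : ℝ) ≤ Q := Nat.cast_nonneg _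
    unfold bb
    push_cast
    calc (Q : ℝ) ^ 2 * ((Q : ℝ) ^ (7 * n ^ 2)) ^ (250 * n) = (Q : ℝ) ^ (2 + 1750 * n ^ 3) := by
          rw [← pow_mul, ← pow_add]
          congr 1
          ring
      _ ≤ ((H : ℝ) ^ (n + 1)) ^ (2 + 1750 * n ^ 3) := pow_le_pow_left₀ hQ0 hQH _
      _ = (H : ℝ) ^ ((n + 1) * (2 + 1750 * n ^ 3)) := by rw [← pow_mul]
      _ ≤ (H : ℝ) ^ (2500 * n ^ 4) := by
          refine pow_le_pow_right₀ hHR ?_
          have h3 : 4 * (n + 1) ≤ 5 * n := by omega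
          have h4 : 2 + 1750 * n ^ 3 ≤ 1751 * n ^ 3 := by
            have : 2 ≤ n ^ 3 := by
              calc 2 ≤ 4 ^ 3 := by norm_num
                _ ≤ n ^ 3 := Nat.pow_le_pow_left hn 3
            omega
          have h5 : 4 * ((n + 1) * (2 + 1750 * n ^ 3)) ≤ 4 * (2500 * n ^ 4) := by
            calc 4 * ((n + 1) * (2 + 1750 * n ^ 3)) = (4 * (n + 1)) * (2 + 1750 * n ^ 3) := by ring
              _ ≤ (5 * n) * (1751 * n ^ 3) := Nat.mul_le_mul h3 h4
              _ = 8755 * n ^ 4 := by ring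
              _ ≤ 10000 * n ^ 4 := Nat.mul_le_mul_right _ (by norm_num)
              _ = 4 * (2500 * n ^ 4) := by ring
          omega

end Pool.Agent.H72.ES
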