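import Pool.Agent.H72.ES.TwoB

/-! # The two-point theorem -/

namespace Pool.Agent.H72.ES

open Finset Polynomial

variable {n Q : ℕ} {f : ℤ[X]} {θ : ℝ}

theorem TT_le (la e : ℕ) (hla : 24 ≤ la) (he : e = la / 12 + 1) (j : Fin 6) :
    TT la e j ≤ 5 * la := by
  fin_cases j <;> simp [TT] <;> omega

theorem TT_sum (la e : ℕ) (he : e = la / 12 + 1) : 2 * ∑ j, TT la e j ≤ 23 * la + 18 := by
  simp [TT, Fin.sum_univ_succ]
  omega

/-- **Two-point theorem.** A huge integer point on `F₁ = 0` repels integer points on `F₂ = 0` near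
the same asymptotic direction. -/
theorem two_point (hf : Irreducible f) (O : Ord ℝ n Q f θ) {F1 F2 : ℕ → ℕ → ℤ}
    (hF1 : Norml n Q f F1) (hF2 : Norml n Q f F2) (x1 y1 x2 y2 : ℤ)
    (h1 : ev n F1 x1 y1 = 0) (h2 : ev n F2 x2 y2 = 0)
    (hy1 : |(y1 : ℝ) / x1 - θ| ≤ 1 / bb n Q) (hy2 : |(y2 : ℝ) / x2 - θ| ≤ 1 / bb n Q)
    (hx1 : bb n Q ^ (220000 * n ^ 2) ≤ |(x1 : ℝ)|)
    (hx2 : |(x1 : ℝ)| ^ (2000 * n) ≤ |(x2 : ℝ)|) : False := by
  have hn := hF1.hn
  have hQ := hF1.hQ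
  have hb1 := one_le_bb hn hQ
  have h4b : (4 : ℝ) ≤ bb n Q := le_trans (by norm_num) (thousand_le_bb hn hQ)
  set X : ℝ := |(x1 : ℝ)| with hX
  obtain ⟨br1⟩ := exists_branch O hF1
  obtain ⟨br2⟩ := exists_branch O hF2
  have hκne : O.φ O.κ ≠ 0 := by
    intro h0
    have := kappa_lower O hF1
    rw [h0] at this
    simp at this
    linarith
  set b := bb n Q with hb
  have hb0 : 0 < b := by linarith
  have hbb : 1 < b := by linarith
  have hbk : ∀ {k l : ℕ}, k ≤ l → b ^ k ≤ b ^ l := fun h => pow_le_pow_right₀ hb1 h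
  have hnn : 1 ≤ n ^ 2 := Nat.one_le_pow _ _ (by omega)
  have hXb : ∀ k, k ≤ 220000 * n ^ 2 → b ^ k ≤ X := fun k hk => (hbk hk).trans hx1
  have hX1 : 1 < X := lt_of_lt_of_le hbb (by simpa using hXb 1 (by omega))
  have hX0 : 0 < X := by linarith
  -- choice of la
  obtain ⟨la, hla1, hla2⟩ := exists_nat_pow_near (x := |(x2 : ℝ)|)
    ((one_le_pow₀ hX1.le).trans hx2) hX1
  have hla : 2000 * n ≤ la := by
    by_contra hc
    have : X ^ (la + 1) ≤ X ^ (2000 * n) := pow_le_pow_right₀ hX1.le (by omega)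
    linarith
  have hla8 : 8000 ≤ la := by omega
  obtain ⟨e, he⟩ : ∃ e, e = la / 12 + 1 := ⟨_, rfl⟩
  set w1 := PowerSeries.coeff 1 br2.w with hw1
  set w2 := PowerSeries.coeff 2 br2.w with hw2
  have S := O.subMul
  have hw1b : O.ν w1 ≤ b := by
    have e1 := coeff_le_wn S (ρ := 1 / b ^ 2) (by positivity) (le_refl 1) br2.w
    have e2 := e1.trans (br2.bd 1)
    rw [pow_one, mul_one_div, div_le_iff₀ (by positivity)] at e2
    calc O.ν w1 ≤ 1 / bb n Q * b ^ 2 := e2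
      _ = b := by rw [← hb]; field_simp
  have hw2b : O.ν w2 ≤ b ^ 3 := by
    have e1 := coeff_le_wn S (ρ := 1 / b ^ 2) (by positivity) (le_refl 2) br2.w
    have e2 := e1.trans (br2.bd 2)
    rw [div_pow, one_pow, mul_one_div, div_le_iff₀ (by positivity)] at e2
    calc O.ν w2 ≤ 1 / bb n Q * (b ^ 2) ^ 2 := e2
      _ = b ^ 3 := by rw [← hb]; field_simp
  have hΨ := Psi_bound O hF2 w1 w2 hw1b hw2b
  obtain ⟨A, hA0, hAs, hAb, hAv⟩ := siegel O hF1 br1 (Psi O w1 w2) hΨ la (by omega) (TT la e)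
    (TT_le la e (by omega) he) (TT_sum la e he)
  rw [← hb] at hAb
  -- local series at the first point
  have hx5 : b ^ 5 ≤ X := hXb 5 (by omega)
  obtain ⟨hκ1, hκ1b⟩ := evy_bounds O hF1 x1 y1 hx5 hy1
  rw [← hX, ← hb] at hκ1b
  set κ1 : ℤ := evy n F1 x1 y1 with hκ1d
  obtain ⟨Y, hY0, hY⟩ := exists_local n F1 x1 y1 h1
  rw [← hκ1d] at hY
  have hx1ne : x1 ≠ 0 := by
    rintro rfl
    simp at hX
    linarith
  have hx1R : (x1 : ℝ) ≠ 0 := by exact_mod_cast hx1ne
  have hκ1R : (κ1 : ℝ) ≠ 0 := by exact_mod_cast hκ1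
  obtain ⟨t, ht1, ht0, htb⟩ := exists_inv (x1 : ℝ) (κ1 : ℝ) hx1R hκ1R
  rw [← hX] at htb
  set ρ : ℝ := X / (4 * (κ1 : ℝ) ^ 2) with hρd
  have hκsq : 0 < (κ1 : ℝ) ^ 2 := by positivity
  have hρ : 0 < ρ := by positivity
  set ψ := PowerSeries.map (Int.castRingHom ℝ) with hψ
  set xx : PowerSeries ℤ := PowerSeries.C x1 + PowerSeries.C (κ1 ^ 2) * PowerSeries.X with hxx
  have hψx : ψ xx = PowerSeries.C (x1 : ℝ) + PowerSeries.C ((κ1 : ℝ) ^ 2) * PowerSeries.X := by
    simp [hψ, hxx]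
  have ht : t * ψ xx = 1 := by rw [hψx]; exact ht1
  set z := t * ψ Y with hz
  have hτ : ∀ K, wn (fun a : ℝ => |a|) ρ K t ≤ 2 / X := htb
  have h2X : 2 / X ≤ 1 / b ^ 2 := by
    rw [div_le_div_iff₀ hX0 (by positivity)]
    have e1 : b ^ 3 ≤ X := hXb 3 (by omega)
    have e2 : b ^ 3 = b * b ^ 2 := by ring
    nlinarith [show (0:ℝ) < b ^ 2 by positivity]
  have hτb : 2 / X * bb n Q ^ 5 ≤ 1 := by
    rw [← hb, div_mul_eq_mul_div, div_le_one hX0]
    have e1 : b ^ 6 ≤ X := hXb 6 (by omega)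
    have e2 : b ^ 6 = b * b ^ 5 := by ring
    nlinarith [show (0:ℝ) < b ^ 5 by positivity]
  have heq : evt n (cst (PowerSeries ℝ) F1) t z = 0 := by
    have e1 := ev_eq_evt n (cst (PowerSeries ℝ) F1) (ψ xx) (ψ Y) t ht
    have e2 : ev n (cst (PowerSeries ℝ) F1) (ψ xx) (ψ Y) = 0 := by
      rw [← cst_map ψ, ← ev_map, hY, map_zero]
    rw [e2] at e1
    have e3 : ψ xx ≠ 0 := by
      intro h0
      rw [h0, mul_zero] at ht
      exact zero_ne_one ht
    have := (mul_eq_zero.1 e1.symm).resolve_left (pow_ne_zero _ e3)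
    exact this
  have hz0 : PowerSeries.constantCoeff z = (y1 : ℝ) / x1 := by
    rw [hz, map_mul, ht0]
    have : PowerSeries.constantCoeff (ψ Y) = (y1 : ℝ) := by
      rw [← PowerSeries.coeff_zero_eq_constantCoeff_apply, hψ, PowerSeries.coeff_map,
        PowerSeries.coeff_zero_eq_constantCoeff_apply, hY0]
      simp
    rw [this]
    ring
  have hest := est_e O hF1 t z ρ hρ (fun K => (hτ K).trans h2X) (by rw [hz0]; exact hy1) heq
  -- h as a real series
  set μ : Fin 6 → ℤ := mono x2 y2 with hμ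
  set hser : PowerSeries ℤ :=
    ev (2 * la) (cst (PowerSeries ℤ) (fun i k => ∑ m, μ m * A m i k)) xx Y with hhser
  have hid := h_identity O hκne w1 w2 A x2 y2 (2 * la) xx Y t ht
  rw [← hμ, ← hhser, ← hψ, ← hz] at hid
  set c := cj O w1 w2 A with hc
  have hsm : ∀ j K, wn (fun a : ℝ => |a|) ρ K
      (evt (2 * la) (fun i k => PowerSeries.C (O.φ (c j i k))) t z) ≤
      (((2 * la : ℕ) : ℝ) + 1) * (6 * (b ^ 5 * b ^ (600 * la))) * b ^ 4 *
        (2 / X * b ^ 4) ^ (TT la e j) := by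
    intro j K
    refine small_tilde O hF1 br1 t z ρ hρ (2 / X) hτ hτb hest heq (2 * la) (c j) ?_
      (6 * (b ^ 5 * b ^ (600 * la))) ?_ (TT la e j) ?_ K
    · intro i k hik
      have := cj_support O w1 w2 A (2 * la) n hAs j i k hik
      exact ⟨this.1, this.2.le⟩
    · intro i k
      exact cj_bound O w1 w2 A _ _ hΨ hAb j i k
    · intro k hk
      rw [hc, cj_vanish]
      exact hAv j k hk
  -- bound of the weighted norm of h
  have hwx : ∀ K, wn (fun a : ℝ => |a|) ρ K (ψ xx) ≤ 2 * X := by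
    intro K
    rw [hψx]
    refine (wn_add_le subMul_abs hρ.le K _ _).trans ?_
    refine (add_le_add (wn_C subMul_abs K _).le (wn_mul_le subMul_abs hρ.le K _ _)).trans ?_
    rw [wn_C subMul_abs]
    have e1 := wn_X_le (R := ℝ) subMul_abs hρ.le K
    have e2 : |(κ1 : ℝ) ^ 2| = (κ1 : ℝ) ^ 2 := abs_of_pos hκsq
    simp only [e2]
    have e3 : (κ1 : ℝ) ^ 2 * wn (fun a : ℝ => |a|) ρ K PowerSeries.X ≤ (κ1 : ℝ) ^ 2 * ρ :=
      mul_le_mul_of_nonneg_left e1 hκsq.le
    have e4 : (κ1 : ℝ) ^ 2 * ρ = X / 4 := by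
      rw [hρd]
      field_simp
    rw [← hX]
    linarith
  have hbig2 : b ^ 30 ≤ |(x2 : ℝ)| := by
    calc b ^ 30 ≤ X := hXb 30 (by omega)
      _ = X ^ 1 := (pow_one X).symm
      _ ≤ X ^ la := pow_le_pow_right₀ hX1.le (by omega)
      _ ≤ |(x2 : ℝ)| := hla1
  have hκlow : ∀ j : Fin 6, |1 / O.φ O.κ ^ sc j| ≤ b ^ 3 := by
    intro j
    have e1 := kappa_lower O hF1
    have e2 : (Q : ℝ) ^ (3 * n ^ 2) ≤ b := Qpow_le_bb hn hQ (by nlinarith)
    have e3 : 1 / |O.φ O.κ| ≤ b := by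
      rw [div_le_iff₀ (abs_pos.2 hκne)]
      rw [Real.norm_eq_abs] at e1
      nlinarith [abs_nonneg (O.φ O.κ)]
    have e4 : sc j ≤ 3 := by fin_cases j <;> simp [sc]
    rw [abs_div, abs_one, abs_pow]
    calc 1 / |O.φ O.κ| ^ sc j = (1 / |O.φ O.κ|) ^ sc j := by rw [div_pow, one_pow]
      _ ≤ b ^ sc j := pow_le_pow_left₀ (by positivity) e3 _
      _ ≤ b ^ 3 := hbk e4
  have hterm : ∀ j K, 6 * (wn (fun a : ℝ => |a|) ρ K
      (PowerSeries.C (psi θ (O.φ w1 / O.φ O.κ) (O.φ w2 / O.φ O.κ ^ 3) x2 y2 j / O.φ O.κ ^ sc j) *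
        (ψ xx ^ (2 * la) *
          evt (2 * la) (fun i k => PowerSeries.C (O.φ (c j i k))) t z)) * X ^ e) ≤
      b ^ (622 * la) := by
    intro j K
    have hp := psi_bounds O hF2 br2 x2 y2 h2 hy2 X hX1.le la e hbig2 hla1 hla2.le j
    rw [← hb] at hp
    have hpsi : psi θ br2.be br2.ga x2 y2 j =
        psi θ (O.φ w1 / O.φ O.κ) (O.φ w2 / O.φ O.κ ^ 3) x2 y2 j := rfl
    rw [hpsi] at hp
    set p := psi θ (O.φ w1 / O.φ O.κ) (O.φ w2 / O.φ O.κ ^ 3) x2 y2 j with hpd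
    have hwb := weight_bound hn hQ |p| (abs_nonneg _) X hX1.le la e (TT la e j)
      (TT_le la e (by omega) he j) (by omega) hp |1 / O.φ O.κ ^ sc j| (abs_nonneg _) (hκlow j)
    rw [← hb] at hwb
    refine le_trans ?_ hwb
    gcongr
    refine (wn_mul_le subMul_abs hρ.le K _ _).trans ?_
    rw [wn_C subMul_abs]
    have e1 : |p / O.φ O.κ ^ sc j| = |p| * |1 / O.φ O.κ ^ sc j| := by
      rw [← abs_mul, mul_one_div]
    simp only [e1]
    refine mul_le_mul_of_nonneg_left ?_ (by positivity)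
    refine (wn_mul_le subMul_abs hρ.le K _ _).trans ?_
    have e2 := (wn_pow_le subMul_abs hρ.le K (ψ xx) (2 * la)).trans
      (pow_le_pow_left₀ (wn_nonneg subMul_abs hρ.le K _) (hwx K) (2 * la))
    have e3 := hsm j K
    push_cast at e3
    exact mul_le_mul e2 e3 (wn_nonneg subMul_abs hρ.le K _) (by positivity)
  have hwh : ∀ K, wn (fun a : ℝ => |a|) ρ K (ψ hser) * X ^ e ≤ b ^ (622 * la) := by
    intro K
    rw [hid]
    have e1 := wn_sum_le subMul_abs hρ.le K (univ : Finset (Fin 6)) (fun j =>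
      PowerSeries.C (psi θ (O.φ w1 / O.φ O.κ) (O.φ w2 / O.φ O.κ ^ 3) x2 y2 j / O.φ O.κ ^ sc j) *
        (ψ xx ^ (2 * la) *
          evt (2 * la) (fun i k => PowerSeries.C (O.φ (c j i k))) t z))
    refine (mul_le_mul_of_nonneg_right e1 (by positivity)).trans ?_
    rw [sum_mul]
    have e2 : ∀ j ∈ (univ : Finset (Fin 6)), wn (fun a : ℝ => |a|) ρ K
      (PowerSeries.C (psi θ (O.φ w1 / O.φ O.κ) (O.φ w2 / O.φ O.κ ^ 3) x2 y2 j / O.φ O.κ ^ sc j) *
        (ψ xx ^ (2 * la) *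
          evt (2 * la) (fun i k => PowerSeries.C (O.φ (c j i k))) t z)) * X ^ e ≤
        b ^ (622 * la) / 6 := by
      intro j _
      have := hterm j K
      linarith
    refine (sum_le_sum e2).trans ?_
    simp
    linarith
  -- the low coefficients vanish
  obtain ⟨K, hK⟩ : ∃ K, K = la / (48 * n) := ⟨_, rfl⟩
  have hKn : 48 * n * K ≤ la := by rw [hK]; exact Nat.mul_div_le la (48 * n)
  have hKn' : la < 48 * n * (K + 1) := by
    rw [hK]
    exact Nat.lt_mul_div_succ la (by omega)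
  have hvan : ∀ k ≤ K, PowerSeries.coeff k hser = 0 := by
    intro k hk
    have e1 := coeff_le_wn subMul_abs hρ.le (le_refl k) (ψ hser)
    have e2 : PowerSeries.coeff k (ψ hser) = ((PowerSeries.coeff k hser : ℤ) : ℝ) := by
      rw [hψ, PowerSeries.coeff_map]
      simp
    simp only [e2] at e1
    have e3 : |((PowerSeries.coeff k hser : ℤ) : ℝ)| * ρ ^ k * X ^ e ≤ b ^ (622 * la) :=
      (mul_le_mul_of_nonneg_right e1 (by positivity)).trans (hwh k)
    have e4 : |((PowerSeries.coeff k hser : ℤ) : ℝ)| < 1 := by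
      refine small_lt_one hn hQ X (hXb 14999 (by omega)) la e k (by omega) (by omega)
        ((Nat.mul_le_mul_left _ hk).trans hKn) _ |(κ1 : ℝ)| (abs_nonneg _) (abs_pos.2 hκ1R)
        hκ1b ?_
      rw [sq_abs, ← hρd, ← hb]
      exact e3
    have e5 : |PowerSeries.coeff k hser| < 1 := by exact_mod_cast e4
    exact Int.abs_lt_one_iff.1 e5
  -- h is not the zero array
  obtain ⟨m0, i0, j0, hm0⟩ := hA0
  have hne : ∃ i j, ∑ m, μ m * A m i j ≠ 0 := by
    refine ⟨i0, j0, ?_⟩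
    have e1 := conic_ne hF2 br2 (fun m => A m i0 j0) (by
      intro h0
      exact hm0 (congrFun h0 m0)) (b ^ (600 * la)) (one_le_pow₀ hb1) (fun m => hAb m i0 j0)
      x2 y2 ?_ hy2 h2
    · intro h0
      apply e1
      rw [← h0]
      refine sum_congr rfl fun m _ => ?_
      ring
    · rw [← hb]
      calc (b ^ 20 * b ^ (600 * la)) ^ (n + 1) = b ^ ((20 + 600 * la) * (n + 1)) := by
            rw [← pow_add, ← pow_mul]
        _ < b ^ (220000 * n ^ 2 * la) := by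
            apply pow_lt_pow_right₀ hbb
            have e2 : (20 + 600 * la) ≤ 601 * la := by omega
            have e3 : n + 1 ≤ 2 * n := by omega
            have e4 : n ≤ n ^ 2 := Nat.le_self_pow (by norm_num) n
            calc (20 + 600 * la) * (n + 1) ≤ (601 * la) * (2 * n) := Nat.mul_le_mul e2 e3
              _ = 1202 * (n * la) := by ring
              _ ≤ 1202 * (n ^ 2 * la) :=
                Nat.mul_le_mul_left _ (Nat.mul_le_mul_right _ e4)
              _ < 220000 * (n ^ 2 * la) := by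
                have : 0 < n ^ 2 * la := by positivity
                omega
              _ = 220000 * n ^ 2 * la := by ring
        _ = (b ^ (220000 * n ^ 2)) ^ la := by rw [pow_mul]
        _ ≤ X ^ la := pow_le_pow_left₀ (by positivity) hx1 _
        _ ≤ |(x2 : ℝ)| := hla1
  -- multiplicity estimate
  have hmult := mult hF1 hf x1 y1 hx1ne hκ1 Y hY0 hY (2 * la) A hAs (b ^ (600 * la)) hAb μ hne K
    hvan
  rw [← hX] at hmult
  exact final_contra hn hQ X hx1 la K hla hKn' hmult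

end Pool.Agent.H72.ES
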