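import Pool.Agent.H72.ES.Final
import Pool.Agent.H8.UL.Two

/-! # Exceptional points of all heights at once

For fixed terms of degree `≥ n - 3` (irreducible leading form, no real flex at infinity) all pairs
(curve, huge integer point), the point being huge compared with the height of its own curve, are at
most `39 n³` in number. -/

namespace Pool.Agent.H72.ES

open Finset Polynomial Pool.Agent.H8.UL

variable {n : ℕ} {f : ℤ[X]} {θ : ℝ}

/-- `P` lies near `θ` on the curve `F` of height `≤ Q` of the family of `G` and is huge compared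
with `Q` -/
structure BigAt (n : ℕ) (f : ℤ[X]) (G : ℕ → ℕ → ℤ) (θ : ℝ) (P : ℤ × ℤ) (Q : ℕ)
    (F : ℕ → ℕ → ℤ) : Prop where
  norml : Norml n Q f F
  top4 : Top4 n F G
  zero : ev n F P.1 P.2 = 0
  near : |(P.2 : ℝ) / P.1 - θ| ≤ bb n Q ^ 4 / |(P.1 : ℝ)|
  big : bb n Q ^ (600000 * n ^ 2) ≤ |(P.1 : ℝ)|

theorem Norml.up {Q Q' : ℕ} {F : ℕ → ℕ → ℤ} (h : Norml n Q f F) (hQ : Q ≤ Q') :
    Norml n Q' f F where
  hn := h.hn
  hQ := h.hQ.trans hQ
  lead_eq := h.lead_eq
  top := h.top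
  bound := fun i j hij => (h.bound i j hij).trans (by exact_mod_cast hQ)

theorem Top4.symm {F G : ℕ → ℕ → ℤ} (h : Top4 n F G) : Top4 n G F :=
  fun i j h1 h2 => (h i j h1 h2).symm

theorem Top4.trans {F G K : ℕ → ℕ → ℤ} (h : Top4 n F G) (h' : Top4 n G K) : Top4 n F K :=
  fun i j h1 h2 => (h i j h1 h2).trans (h' i j h1 h2)

/-- the slope is approximated to within `O(1/x)` -/
theorem near_improve {Q : ℕ} {F : ℕ → ℕ → ℤ} (hN : Norml n Q f F) (O : Ord ℝ n Q f θ) (x y : ℤ)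
    (hx : bb n Q ^ 20 ≤ |(x : ℝ)|) (hy : |(y : ℝ) / x - θ| ≤ 1 / bb n Q)
    (h0 : ev n F x y = 0) : |(y : ℝ) / x - θ| ≤ bb n Q ^ 4 / |(x : ℝ)| := by
  obtain ⟨br⟩ := exists_branch O hN
  obtain ⟨hbe, hga, hde⟩ := expand_bounds hN br
  have hb1 := one_le_bb hN.hn hN.hQ
  have h4b : (4 : ℝ) ≤ bb n Q := le_trans (by norm_num) (thousand_le_bb hN.hn hN.hQ)
  have h := expand3 hN br x y ((pow_le_pow_right₀ hb1 (by norm_num)).trans hx) hy h0
  set b := bb n Q with hb
  have hb0 : 0 < b := by linarith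
  have hx0 : 0 < |(x : ℝ)| := lt_of_lt_of_le (by positivity) hx
  have hxne : (x : ℝ) ≠ 0 := abs_pos.1 hx0
  have hsq : (x : ℝ) ^ 2 = |(x : ℝ)| ^ 2 := (sq_abs _).symm
  have e1 : (y : ℝ) / x - θ = ((y : ℝ) - θ * x) / x := by field_simp
  rw [e1, abs_div]
  refine div_le_div_of_nonneg_right ?_ hx0.le
  have e2 : |br.ga / x| ≤ 1 := by
    rw [abs_div, div_le_one hx0]
    exact hga.trans ((pow_le_pow_right₀ hb1 (by norm_num)).trans hx)
  have e3 : b ^ 20 / (x : ℝ) ^ 2 ≤ 1 := by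
    rw [hsq, div_le_one (by positivity)]
    have h1x : 1 ≤ |(x : ℝ)| := (one_le_pow₀ hb1).trans hx
    nlinarith
  have e4 : (y : ℝ) - θ * x = ((y : ℝ) - (θ * x + br.be + br.ga / x)) + br.be + br.ga / x := by
    ring
  rw [e4]
  refine (abs_add_three _ _ _).trans ?_
  have e6 : 4 ≤ b ^ 2 := by nlinarith
  have e5 : b ^ 2 + 2 ≤ b ^ 4 := by
    have : b ^ 4 = b ^ 2 * b ^ 2 := by ring
    nlinarith
  linarith

theorem BigAt.near' {G F : ℕ → ℕ → ℤ} {P : ℤ × ℤ} {Q Q' : ℕ} (h : BigAt n f G θ P Q F)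
    (hQ : Q ≤ Q') (hx : bb n Q' ^ 5 ≤ |(P.1 : ℝ)|) : |(P.2 : ℝ) / P.1 - θ| ≤ 1 / bb n Q' := by
  have hn := h.norml.hn
  have hQ2 := (h.norml.up hQ).hQ
  have hb1 := one_le_bb hn hQ2
  have hmono := bb_mono (n := n) hQ
  have hb1' := one_le_bb hn h.norml.hQ
  have hx0 : 0 < |(P.1 : ℝ)| := lt_of_lt_of_le (by positivity) hx
  refine h.near.trans ?_
  rw [div_le_div_iff₀ hx0 (by linarith), one_mul]
  calc bb n Q ^ 4 * bb n Q' ≤ bb n Q' ^ 4 * bb n Q' := by gcongr
    _ = bb n Q' ^ 5 := by ring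
    _ ≤ _ := hx

theorem flexv_congr {F G : ℕ → ℕ → ℤ} (_hn : 4 ≤ n) (h : Top4 n F G) (θ : ℝ) :
    flexv n F θ = flexv n G θ := by
  have htc : ∀ i j, i ≤ 2 → tc n F θ i j = tc n G θ i j := by
    intro i j hi
    unfold tc
    refine sum_congr rfl fun l hl => ?_
    simp only [mem_range] at hl
    rw [h (n - i - l) l (by omega) (by omega)]
  unfold flexv
  rw [htc 2 0 le_rfl, htc 0 1 (by omega), htc 1 1 (by omega), htc 1 0 (by omega),
    htc 0 2 (by omega)]

/-- at most four exceptional points (of any heights) in one window -/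
theorem one_window_total {G : ℕ → ℕ → ℤ} (hf : Irreducible f) (hroot : aeval θ f = 0)
    (hflex : flexv n G θ ≠ 0) (S : Finset (ℤ × ℤ))
    (hS : ∀ P ∈ S, ∃ Q F, BigAt n f G θ P Q F) (X : ℝ) (hX : 1 ≤ X)
    (h1 : ∀ P ∈ S, X ≤ |(P.1 : ℝ)|)
    (h2 : ∀ P ∈ S, |(P.1 : ℝ)| ≤ X ^ (1 + 1 / (3 * (n : ℝ)))) : S.card ≤ 4 := by
  classical
  by_cases hne : S.Nonempty
  · choose! Q F hQF using hS
    obtain ⟨P0, hP0, hmax⟩ := S.exists_max_image Q hne
    have h0 := hQF P0 hP0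
    have hN0 := h0.norml
    have hn := hN0.hn
    have hb1 := one_le_bb hn hN0.hQ
    obtain ⟨hm, hd, hc⟩ := hN0.lead_props
    obtain ⟨O⟩ := exists_ord ℝ hn hN0.hQ hm hd hc hf θ hroot
    obtain ⟨br⟩ := exists_branch O hN0
    have hfl : flexv n (F P0) θ ≠ 0 := by
      rw [flexv_congr hn h0.top4]
      exact hflex
    have hn0 : (0 : ℝ) < n := by exact_mod_cast (by omega : 0 < n)
    have hXX : bb n (Q P0) ^ (300000 * n ^ 2) ≤ X := by
      have e1 : (bb n (Q P0) ^ (300000 * n ^ 2)) ^ 2 ≤ X ^ 2 := by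
        calc (bb n (Q P0) ^ (300000 * n ^ 2)) ^ 2 = bb n (Q P0) ^ (600000 * n ^ 2) := by
              rw [← pow_mul]
              congr 1
              ring
          _ ≤ |(P0.1 : ℝ)| := h0.big
          _ ≤ X ^ (1 + 1 / (3 * (n : ℝ))) := h2 P0 hP0
          _ ≤ X ^ (2 : ℝ) := by
              refine Real.rpow_le_rpow_of_exponent_le hX ?_
              have : 1 / (3 * (n : ℝ)) ≤ 1 := by
                rw [div_le_one (by positivity)]
                have : (1 : ℝ) ≤ n := by exact_mod_cast (by omega : 1 ≤ n)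
                linarith
              linarith
          _ = X ^ 2 := by norm_cast
      exact le_of_sq_le_sq e1 (by linarith)
    have hnn : 1 ≤ n ^ 2 := Nat.one_le_pow _ _ (by omega)
    refine one_windowB hN0 O br (ga_lower O hN0 br hfl) S ⟨?_, ?_⟩ X
      ((pow_le_pow_right₀ hb1 (by omega)).trans hXX) h1 h2
    · intro P hP
      have hP' := hQF P hP
      exact ⟨F P, hP'.norml.up (hmax P hP), hP'.top4.trans h0.top4.symm, hP'.zero⟩
    · intro P hP
      exact (hQF P hP).near' (hmax P hP)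
        (((pow_le_pow_right₀ hb1 (by omega)).trans hXX).trans (h1 P hP))
  · rw [not_nonempty_iff_eq_empty] at hne
    rw [hne]
    simp

theorem windows_total {G : ℕ → ℕ → ℤ} (hn : 4 ≤ n) (hf : Irreducible f) (hroot : aeval θ f = 0)
    (hflex : flexv n G θ ≠ 0) (m : ℕ) :
    ∀ (S : Finset (ℤ × ℤ)), (∀ P ∈ S, ∃ Q F, BigAt n f G θ P Q F) → ∀ X : ℝ,
    1 ≤ X → (∀ P ∈ S, X ≤ |(P.1 : ℝ)|) →
    (∀ P ∈ S, |(P.1 : ℝ)| < X ^ ((1 + 1 / (3 * (n : ℝ))) ^ m)) → S.card ≤ 4 * m := by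
  induction m with
  | zero =>
    intro S _ X _ h1 h2
    have : S = ∅ := by
      apply eq_empty_of_forall_notMem
      intro P hP
      have e1 := h1 P hP
      have e2 := h2 P hP
      simp only [pow_zero, Real.rpow_one] at e2
      linarith
    simp [this]
  | succ m ih =>
    intro S hS X hX1 h1 h2
    have hX0 : 0 < X := by linarith
    set δ : ℝ := 1 + 1 / (3 * (n : ℝ)) with hδ
    have hn0 : (0 : ℝ) < n := by exact_mod_cast (by omega : 0 < n)
    have hδ1 : 1 ≤ δ := by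
      have : (0 : ℝ) ≤ 1 / (3 * (n : ℝ)) := by positivity
      linarith
    have hXδ : X ≤ X ^ δ := by
      calc X = X ^ (1 : ℝ) := (Real.rpow_one X).symm
        _ ≤ X ^ δ := Real.rpow_le_rpow_of_exponent_le hX1 hδ1
    set S1 := S.filter (fun P => |(P.1 : ℝ)| < X ^ δ) with hS1
    set S2 := S.filter (fun P => ¬ |(P.1 : ℝ)| < X ^ δ) with hS2
    have hs1 : S1 ⊆ S := filter_subset _ _
    have hs2 : S2 ⊆ S := filter_subset _ _
    have e1 : S1.card ≤ 4 := by
      refine one_window_total hf hroot hflex S1 (fun P hP => hS P (hs1 hP)) X hX1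
        (fun P hP => h1 P (hs1 hP)) ?_
      intro P hP
      exact ((mem_filter.1 hP).2).le
    have e2 : S2.card ≤ 4 * m := by
      refine ih S2 (fun P hP => hS P (hs2 hP)) (X ^ δ) (hX1.trans hXδ) ?_ ?_
      · intro P hP
        exact not_lt.1 (mem_filter.1 hP).2
      · intro P hP
        have := h2 P (hs2 hP)
        rw [← Real.rpow_mul hX0.le]
        have e3 : δ * δ ^ m = δ ^ (m + 1) := by ring
        rw [e3]
        exact this
    have e3 : S1.card + S2.card = S.card := by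
      rw [hS1, hS2]
      exact card_filter_add_card_filter_not _
    omega

/-- the exceptional points of all heights near one root -/
theorem class_total {G : ℕ → ℕ → ℤ} (hn : 4 ≤ n) (hf : Irreducible f) (hroot : aeval θ f = 0)
    (hflex : flexv n G θ ≠ 0) (S : Finset (ℤ × ℤ))
    (hS : ∀ P ∈ S, ∃ Q F, BigAt n f G θ P Q F) : S.card ≤ 39 * n ^ 2 := by
  classical
  have hA2 : ((2000 * n : ℕ) : ℝ) ≤ (1 + 1 / (3 * (n : ℝ))) ^ (3 * n * (n + 9)) := by
    refine le_trans ?_ (two_pow_le_window (by omega) (n + 9))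
    have : 2000 * n ≤ 2 ^ (n + 9) := by
      rw [pow_add]
      have := four_n_le hn
      omega
    exact_mod_cast this
  have key : S.card ≤ 4 * (3 * n * (n + 9)) := by
    by_cases hne : S.Nonempty
    · obtain ⟨P1, hP1, hmin⟩ := S.exists_min_image (fun P => |(P.1 : ℝ)|) hne
      obtain ⟨Q1, F1, h1⟩ := hS P1 hP1
      have hb1 := one_le_bb hn h1.norml.hQ
      have hX1 : 1 ≤ |(P1.1 : ℝ)| := (one_le_pow₀ hb1).trans h1.big
      refine windows_total hn hf hroot hflex _ S hS |(P1.1 : ℝ)| hX1 hmin ?_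
      intro P hP
      obtain ⟨Q2, F2, h2⟩ := hS P hP
      have hb2 := one_le_bb hn h2.norml.hQ
      have hnn : 1 ≤ n ^ 2 := Nat.one_le_pow _ _ (by omega)
      have hlt : |(P.1 : ℝ)| < |(P1.1 : ℝ)| ^ (2000 * n) := by
        by_contra hc
        push Not at hc
        obtain ⟨hm, hd, hc'⟩ := h1.norml.lead_props
        obtain ⟨O⟩ := exists_ord ℝ hn h1.norml.hQ hm hd hc' hf θ hroot
        have hx1 : bb n Q1 ^ (400000 * n ^ 2) ≤ |(P1.1 : ℝ)| :=
          (pow_le_pow_right₀ hb1 (by omega)).trans h1.big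
        have hy1 := h1.near' le_rfl ((pow_le_pow_right₀ hb1 (by omega)).trans h1.big)
        by_cases hQ : Q1 ≤ Q2
        · exact two_point2 hf O hQ h1.norml h2.norml P1.1 P1.2 P.1 P.2 h1.zero h2.zero hy1
            (h2.near' le_rfl ((pow_le_pow_right₀ hb2 (by omega)).trans h2.big)) hx1 h2.big hc
        · have hQ' : Q2 ≤ Q1 := by omega
          have hbig : bb n Q1 ^ (600000 * n ^ 2) ≤ |(P.1 : ℝ)| := h1.big.trans (hmin P hP)
          exact two_point2 hf O le_rfl h1.norml (h2.norml.up hQ') P1.1 P1.2 P.1 P.2 h1.zero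
            h2.zero hy1 (h2.near' hQ' ((pow_le_pow_right₀ hb1 (by omega)).trans hbig)) hx1 hbig hc
      refine lt_of_lt_of_le hlt ?_
      rw [← Real.rpow_natCast]
      exact Real.rpow_le_rpow_of_exponent_le hX1 hA2
    · rw [not_nonempty_iff_eq_empty] at hne
      rw [hne]
      simp
  have e4 : n * 4 ≤ n ^ 2 := by nlinarith
  nlinarith

/-- the exceptional points of all heights on normalised curves -/
theorem family_total {G : ℕ → ℕ → ℤ} (hn : 4 ≤ n) (hf : Irreducible f)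
    (hflex : ∀ θ : ℝ, aeval θ f = 0 → flexv n G θ ≠ 0) (S : Finset (ℤ × ℤ))
    (hs : ∀ P ∈ S, ∃ Q F, Norml n Q f F ∧ Top4 n F G ∧ ev n F P.1 P.2 = 0 ∧
      (Q : ℝ) ^ 2 * bb n Q ^ (600000 * n ^ 2) ≤ ((max |P.1| |P.2| : ℤ) : ℝ)) :
    S.card ≤ 39 * n ^ 3 := by
  classical
  by_cases hne : S.Nonempty
  · obtain ⟨P0, hP0⟩ := hne
    obtain ⟨Q0, F0, hN0, -, -, -⟩ := hs P0 hP0
    obtain ⟨hm, hd, hc⟩ := hN0.lead_props
    set rts : Finset ℝ := (f.map (Int.castRingHom ℝ)).roots.toFinset with hrts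
    have hmR : (f.map (Int.castRingHom ℝ)).Monic := hm.map _
    have hcard : rts.card ≤ n := by
      calc rts.card ≤ Multiset.card (f.map (Int.castRingHom ℝ)).roots :=
            Multiset.toFinset_card_le _
        _ ≤ (f.map (Int.castRingHom ℝ)).natDegree := Polynomial.card_roots' _
        _ = n := by rw [hm.natDegree_map, hd]
    have hmem : ∀ θ : ℝ, aeval θ f = 0 → θ ∈ rts := by
      intro θ hθ
      rw [hrts, Multiset.mem_toFinset, mem_roots hmR.ne_zero, IsRoot.def, eval_map,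
        ← algebraMap_int_eq, ← aeval_def]
      exact hθ
    have hmem' : ∀ θ ∈ rts, aeval θ f = 0 := by
      intro θ hθ
      rw [hrts, Multiset.mem_toFinset, mem_roots hmR.ne_zero, IsRoot.def, eval_map,
        ← algebraMap_int_eq, ← aeval_def] at hθ
      exact hθ
    set T : ℝ → Finset (ℤ × ℤ) := fun θ => S.filter (fun P => ∃ Q F, BigAt n f G θ P Q F) with hT
    have hsub : S ⊆ rts.biUnion T := by
      intro P hP
      obtain ⟨Q, F, hN, hFG, h0, hbig⟩ := hs P hP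
      have hb1 := one_le_bb hn hN.hQ
      have hnn : 1 ≤ n ^ 2 := Nat.one_le_pow _ _ (by omega)
      have hB : bb n Q ^ (n + 3) ≤ bb n Q ^ (600000 * n ^ 2) :=
        pow_le_pow_right₀ hb1 (by nlinarith)
      obtain ⟨hx, θ, hθ, hnear⟩ := far_pointB hN hf P.1 P.2 (by rw [h0]; simp) _ hB hbig
      obtain ⟨hm', hd', hc'⟩ := hN.lead_props
      obtain ⟨O⟩ := exists_ord ℝ hn hN.hQ hm' hd' hc' hf θ hθ
      refine mem_biUnion.2 ⟨θ, hmem θ hθ, mem_filter.2 ⟨hP, Q, F, hN, hFG, h0, ?_, hx⟩⟩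
      exact near_improve hN O P.1 P.2 ((pow_le_pow_right₀ hb1 (by omega)).trans hx) hnear h0
    have hclass : ∀ θ ∈ rts, (T θ).card ≤ 39 * n ^ 2 := by
      intro θ hθ
      exact class_total hn hf (hmem' θ hθ) (hflex θ (hmem' θ hθ)) (T θ)
        (fun P hP => (mem_filter.1 hP).2)
    calc S.card ≤ ∑ θ ∈ rts, (T θ).card := (card_le_card hsub).trans card_biUnion_le
      _ ≤ ∑ θ ∈ rts, (39 * n ^ 2) := sum_le_sum hclass
      _ = rts.card * (39 * n ^ 2) := by rw [sum_const, smul_eq_mul]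
      _ ≤ n * (39 * n ^ 2) := Nat.mul_le_mul_right _ hcard
      _ = 39 * n ^ 3 := by ring
  · rw [not_nonempty_iff_eq_empty] at hne
    rw [hne]
    simp

theorem threshold_total {n H : ℕ} (hn : 4 ≤ n) (hH : 2 ≤ H) :
    (((2 * H ^ n : ℕ) : ℝ)) ^ 2 * bb n (2 * H ^ n) ^ (600000 * n ^ 2) ≤
      (H : ℝ) ^ (5300000 * n ^ 5) := by
  have hHR : (1 : ℝ) ≤ H := by exact_mod_cast (by omega : 1 ≤ H)
  have hQH : ((2 * H ^ n : ℕ) : ℝ) ≤ (H : ℝ) ^ (n + 1) := by
    push_cast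
    have : (2 : ℝ) ≤ H := by exact_mod_cast hH
    calc 2 * (H : ℝ) ^ n ≤ H * (H : ℝ) ^ n := by gcongr
      _ = (H : ℝ) ^ (n + 1) := by ring
  unfold bb
  set Q : ℝ := ((2 * H ^ n : ℕ) : ℝ) with hQ
  have hQ0 : (0 : ℝ) ≤ Q := Nat.cast_nonneg _
  calc Q ^ 2 * (Q ^ (7 * n ^ 2)) ^ (600000 * n ^ 2) = Q ^ (2 + 4200000 * n ^ 4) := by
        rw [← pow_mul, ← pow_add]
        congr 1
        ring
    _ ≤ ((H : ℝ) ^ (n + 1)) ^ (2 + 4200000 * n ^ 4) := pow_le_pow_left₀ hQ0 hQH _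
    _ = (H : ℝ) ^ ((n + 1) * (2 + 4200000 * n ^ 4)) := by rw [← pow_mul]
    _ ≤ (H : ℝ) ^ (5300000 * n ^ 5) := by
        refine pow_le_pow_right₀ hHR ?_
        have h3 : 4 * (n + 1) ≤ 5 * n := by omega
        have h4 : 2 + 4200000 * n ^ 4 ≤ 4200001 * n ^ 4 := by
          have : 2 ≤ n ^ 4 := by
            calc 2 ≤ 4 ^ 4 := by norm_num
              _ ≤ n ^ 4 := Nat.pow_le_pow_left hn 4
          omega
        have h5 : 4 * ((n + 1) * (2 + 4200000 * n ^ 4)) ≤ 4 * (5300000 * n ^ 5) := by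
          calc 4 * ((n + 1) * (2 + 4200000 * n ^ 4)) =
                (4 * (n + 1)) * (2 + 4200000 * n ^ 4) := by ring
            _ ≤ (5 * n) * (4200001 * n ^ 4) := Nat.mul_le_mul h3 h4
            _ = 21000005 * n ^ 5 := by ring
            _ ≤ 21200000 * n ^ 5 := Nat.mul_le_mul_right _ (by norm_num)
            _ = 4 * (5300000 * n ^ 5) := by ring
        omega

/-- **Exceptional points of all heights.** -/
theorem main_total {n : ℕ} (hn : 4 ≤ n) (G : ℕ → ℕ → ℤ) (ha : G 0 n ≠ 0)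
    (hirr : Irreducible (leadQ n G))
    (hflex : ∀ θ : ℝ, aeval θ (part n 0 G) = 0 → aeval θ (flexP n G) ≠ 0)
    (S : Finset (ℤ × ℤ))
    (hS : ∀ P ∈ S, ∃ H : ℕ, 2 ≤ H ∧ (H : ℤ) ^ (5300000 * n ^ 5) < max |P.1| |P.2| ∧
      ∃ F : ℕ → ℕ → ℤ, (∀ i j, i + j ≤ n → |F i j| ≤ (H : ℤ)) ∧ Top4 n F G ∧
        ev n F P.1 P.2 = 0) :
    S.card ≤ 39 * n ^ 3 := by
  classical
  set a := G 0 n with hadef
  have hirr' := lead_nrm_irreducible (by omega : 1 ≤ n) G ha hirr
  set g : ℤ × ℤ → ℤ × ℤ := fun P => (P.1, a * P.2) with hg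
  have hginj : Function.Injective g := by
    intro P P' h
    simp only [hg, Prod.mk.injEq] at h
    exact Prod.ext h.1 (mul_left_cancel₀ ha h.2)
  have hmax : ∀ P : ℤ × ℤ, max |P.1| |P.2| ≤ max |P.1| |a * P.2| := by
    intro P
    refine max_le_max le_rfl ?_
    rw [abs_mul]
    have : 1 ≤ |a| := Int.one_le_abs ha
    nlinarith [abs_nonneg P.2]
  rw [← card_image_of_injective S hginj]
  refine family_total (G := nrm n G) hn hirr' ?_ (S.image g) ?_
  · intro θ hθ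
    obtain ⟨θ', rfl, hθ'⟩ := lead_nrm_root (by omega) G ha θ hθ
    refine flexv_nrm (by omega) G ha θ' ?_
    have h1 := hflex θ' hθ'
    rw [flexP_eval] at h1
    exact right_ne_zero_of_mul h1
  · intro P hP
    obtain ⟨R, hR, rfl⟩ := mem_image.1 hP
    obtain ⟨H, hH, hbig, F, hF, hFG, h0⟩ := hS R hR
    refine ⟨2 * H ^ n, nrm n F, norml_nrm hn hH hFG hF, top4_nrm hn hFG, ?_, ?_⟩
    · have hF0 : F 0 n = a := hFG 0 n (by omega) (by omega)
      have h1 := ev_nrm (by omega : 1 ≤ n) F R.1 R.2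
      rw [hF0] at h1
      simp only [hg]
      rw [h1, h0, mul_zero]
    · have h2 : (((H : ℤ) ^ (5300000 * n ^ 5) : ℤ) : ℝ) ≤
          ((max |(g R).1| |(g R).2| : ℤ) : ℝ) := by
        exact_mod_cast (hbig.le.trans (hmax R))
      refine le_trans (threshold_total hn hH) ?_
      push_cast at h2 ⊢
      exact h2

/-- all pairs (curve, large integer point) with given terms of degree `≥ n - 3`, no flex at
infinity, the point being large compared with the height of the curve -/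
theorem total_exceptions {n : ℕ} (hn : 4 ≤ n)
    (G : MvPolynomial (Fin 2) ℤ) (hdeg : G.totalDegree = n)
    (hirr : Irreducible (MvPolynomial.map (Int.castRingHom ℚ)
      (MvPolynomial.homogeneousComponent n G)))
    (hflex : ∀ θ β : ℝ, n - 2 ≤ (MvPolynomial.aeval ![X, C θ * X + C β] G : ℝ[X]).natDegree)
    (T : Finset (MvPolynomial (Fin 2) ℤ × (ℤ × ℤ)))
    (hT : ∀ q ∈ T, (q.1 - G).totalDegree ≤ n - 4 ∧
      MvPolynomial.eval ![q.2.1, q.2.2] q.1 = 0 ∧
      ∃ H : ℕ, 2 ≤ H ∧ (∀ m, |q.1.coeff m| ≤ (H : ℤ)) ∧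
      (H : ℤ) ^ (5300000 * n ^ 5) < max |q.2.1| |q.2.2|) :
    T.card ≤ 39 * n ^ 3 := by
  classical
  obtain ⟨ha, hirr'⟩ := leadQ_of_irreducible (by omega : 2 ≤ n) hirr
  have hflex' : ∀ θ : ℝ, aeval θ (part n 0 (arrM G)) = 0 → aeval θ (flexP n (arrM G)) ≠ 0 := by
    refine flexP_ne_of_contact hn (arrM G) hirr' ?_
    intro θ β
    have h1 := hflex θ β
    have h2 : MvPolynomial.aeval ![X, C θ * X + C β] G =
        ev n (cst ℝ[X] (arrM G)) X (C θ * X + C β) := by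
      rw [← eval₂_arrM hdeg.le, MvPolynomial.aeval_def]
      congr 1
    rw [h2] at h1
    exact h1
  have hdegT : ∀ q ∈ T, q.1.totalDegree ≤ n := fun q hq =>
    totalDegree_le_of_sub hdeg.le (by omega) (hT q hq).1
  have htop : ∀ q ∈ T, Top4 n (arrM q.1) (arrM G) := fun q hq => top4_arrM hn (hT q hq).1
  have hinj : Set.InjOn (fun q : MvPolynomial (Fin 2) ℤ × (ℤ × ℤ) => q.2) T := by
    intro q hq r hr hqr
    have hq' : q ∈ T := hq
    have hr' : r ∈ T := hr
    simp only at hqr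
    obtain ⟨H1, hH1, hb1, hl1⟩ := (hT q hq').2.2
    obtain ⟨H2, hH2, hb2, hl2⟩ := (hT r hr').2.2
    have key : ∀ H : ℕ, (H : ℤ) ^ (5300000 * n ^ 5) < max |q.2.1| |q.2.2| → 2 ≤ H →
        (H : ℤ) ^ (600 * n ^ 5) < max |q.2.1| |q.2.2| := by
      intro H hH h2
      refine lt_of_le_of_lt ?_ hH
      exact pow_le_pow_right₀ (by exact_mod_cast (by omega : 1 ≤ H))
        (Nat.mul_le_mul_right _ (by norm_num))
    have h1 : arrM q.1 = arrM r.1 := by
      refine shared_point (H := max H1 H2) hn (le_max_of_le_left hH1) (arrM G) ha hirr'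
        (arrM q.1) (arrM r.1)
        (fun i j _ => ((hb1 _).trans (by exact_mod_cast le_max_left H1 H2)))
        (fun i j _ => ((hb2 _).trans (by exact_mod_cast le_max_right H1 H2)))
        (htop q hq') (htop r hr')
        (arrM_supp (hdegT q hq')) (arrM_supp (hdegT r hr')) q.2 ?_ ?_ ?_
      · rcases max_choice H1 H2 with h | h
        · rw [h]
          exact key H1 hl1 hH1
        · rw [h]
          refine key H2 ?_ hH2
          rw [hqr]
          exact hl2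
      · rw [← eval_arrM (hdegT q hq')]
        exact (hT q hq').2.1
      · rw [hqr, ← eval_arrM (hdegT r hr')]
        exact (hT r hr').2.1
    exact Prod.ext (arrM_inj h1) hqr
  rw [← card_image_of_injOn hinj]
  refine main_total hn (arrM G) ha hirr' hflex' _ ?_
  intro P hP
  obtain ⟨q, hq, rfl⟩ := mem_image.1 hP
  obtain ⟨H, hH, hb, hl⟩ := (hT q hq).2.2
  refine ⟨H, hH, hl, arrM q.1, fun i j _ => hb _, htop q hq, ?_⟩
  rw [← eval_arrM (hdegT q hq)]
  exact (hT q hq).2.1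

end Pool.Agent.H72.ES
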