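import Pool.Agent.H72.ES.Taylor

/-! # [ES-EVY] The partial derivative in `y` at a point near the branch

`evy n F x y = x^(n-1) * F~_z(1/x, y/x)`, where, by differentiating `evt_taylor` in `v`,
`F~_z(t, θ + e) = ∑_{i,j≤n} c_ij t^i j e^(j-1)`, `c_ij = tc n F θ i j` (real),
`|c_ij| ≤ Q^(3n)`, `c_01 = κ = O.φ O.κ`. All other terms have `i ≥ 1` or `j ≥ 2`, so
`|F~_z - κ| ≤ (n+1)² Q^(3n) n (|t| + |e|) ≤ 2 Q^(3n+3)/b ≤ Q^(-3n²)/2 ≤ |κ|/2`.
Hence `F~_z ≠ 0` and `|F~_z| ≤ 2|κ| ≤ 2 Q^(2n) ≤ b`. (For the differentiated expansion one may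
use `evt n F t (θ+e+h) - evt n F t (θ+e)` divided by `h`, or compare the two sides as
polynomials in `v`; or do the direct computation with `Nat.choose` as for `evt_taylor`.) -/

namespace Pool.Agent.H72.ES

open Finset Polynomial

variable {n Q : ℕ} {f : ℤ[X]} {θ : ℝ}

/-- the derivative of `evt` in `z` -/
noncomputable def evz (n : ℕ) (F : ℕ → ℕ → ℤ) (t z : ℝ) : ℝ :=
  ∑ i ∈ range (n + 1), ∑ j ∈ range (n + 1 - i),
    (F i j : ℝ) * t ^ (n - i - j) * ((j : ℝ) * z ^ (j - 1))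

theorem evz_taylor (n : ℕ) (F : ℕ → ℕ → ℤ) (t θ e : ℝ) :
    evz n F t (θ + e) = ∑ i ∈ range (n + 1), ∑ j ∈ range (n + 1),
      tc n F θ i j * t ^ i * ((j : ℝ) * e ^ (j - 1)) := by
  have h := evt_taylor (S := ℝ[X]) n F (C t) (C θ) X
  have h2 := congrArg (fun p => (derivative p).eval e) h
  have htc : ∀ i j, tc n F (C θ : ℝ[X]) i j = C (tc n F θ i j) := fun i j =>
    (tc_map (C : ℝ →+* ℝ[X]) n F θ i j).symm
  simp only [evt, cst, htc, derivative_sum, eval_finsetSum, derivative_mul, derivative_intCast,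
    derivative_C, derivative_pow, derivative_add, derivative_X, eval_add, eval_mul, eval_pow,
    eval_C, eval_X, eval_intCast, zero_mul, mul_zero, zero_add,
    mul_one] at h2
  simp only [evz]
  rw [h2]

theorem evy_eq (n : ℕ) (hn : 1 ≤ n) (F : ℕ → ℕ → ℤ) (x y : ℤ) (hx : (x : ℝ) ≠ 0) :
    ((evy n F x y : ℤ) : ℝ) = (x : ℝ) ^ (n - 1) * evz n F (1 / x) ((y : ℝ) / x) := by
  simp only [evy, evz, Int.cast_sum, Int.cast_mul, Int.cast_pow, Int.cast_natCast, Finset.mul_sum]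
  refine Finset.sum_congr rfl fun i hi => Finset.sum_congr rfl fun j hj => ?_
  rw [Finset.mem_range] at hi hj
  rcases Nat.eq_zero_or_pos j with h0 | h0
  · simp [h0]
  · obtain ⟨k, rfl⟩ := Nat.exists_eq_succ_of_ne_zero h0.ne'
    obtain ⟨d, hd⟩ : ∃ d, n = i + (k + 1) + d := ⟨n - (i + (k + 1)), by omega⟩
    have e1 : n - 1 = i + k + d := by omega
    have e2 : n - i - (k + 1) = d := by omega
    rw [Nat.succ_eq_add_one, e1, e2]
    simp only [Nat.add_sub_cancel]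
    rw [pow_add, pow_add, div_pow, div_pow, one_pow]
    field_simp

theorem evy_bounds (O : Ord ℝ n Q f θ) {F : ℕ → ℕ → ℤ} (hF : Norml n Q f F) (x y : ℤ)
    (hx : bb n Q ^ 5 ≤ |(x : ℝ)|) (hy : |(y : ℝ) / x - θ| ≤ 1 / bb n Q) :
    evy n F x y ≠ 0 ∧ |((evy n F x y : ℤ) : ℝ)| ≤ bb n Q * |(x : ℝ)| ^ (n - 1) := by
  have hn := hF.hn
  have hQ := hF.hQ
  have hb := bb_pos hn hQ
  have hb1 := one_le_bb hn hQ
  have hQ1 := one_le_QR hn hQ
  have hx0 : 0 < |(x : ℝ)| := lt_of_lt_of_le (pow_pos hb 5) hx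
  have hxne : (x : ℝ) ≠ 0 := abs_pos.1 hx0
  set t : ℝ := 1 / x with ht
  set e : ℝ := (y : ℝ) / x - θ with he
  have hz : (y : ℝ) / x = θ + e := by rw [he]; ring
  have ht1 : |t| ≤ 1 / bb n Q := by
    rw [ht, abs_div, abs_one]
    apply one_div_le_one_div_of_le hb
    calc bb n Q = bb n Q ^ 1 := (pow_one _).symm
      _ ≤ bb n Q ^ 5 := bbpow_mono hn hQ (by norm_num)
      _ ≤ _ := hx
  have hb' : 1 / bb n Q ≤ 1 := by
    rw [div_le_one hb]; exact hb1
  have ht2 : |t| ≤ 1 := ht1.trans hb'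
  have he2 : |e| ≤ 1 := hy.trans hb'
  have hbinv : 0 ≤ 1 / bb n Q := by positivity
  -- coefficients
  have hc : ∀ i j, i ≤ n → j ≤ n → |tc n F θ i j| ≤ (Q : ℝ) ^ (3 * n) := by
    intro i j hi hj
    have h1 := O.φ_le (tc n F O.α i j)
    rw [tc_map O.φ, O.φ_α, Real.norm_eq_abs] at h1
    exact h1.trans (tc_bound O hF hi hj)
  have hκ : tc n F θ 0 1 = O.φ O.κ := by
    have h1 : O.φ (tc n F O.α 0 1) = tc n F (O.φ O.α) 0 1 := tc_map O.φ n F O.α 0 1
    rw [O.φ_α] at h1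
    rw [← h1, tc_zero_one, hF.lead_eq]
    rfl
  have hκ1 := kappa_lower O hF
  have hκ2 : |O.φ O.κ| ≤ (Q : ℝ) ^ (2 * n) := (O.φ_le O.κ).trans (kappa_bound O hF)
  rw [Real.norm_eq_abs] at hκ1
  -- the difference
  have hdiff : |evz n F t (θ + e) - O.φ O.κ| ≤ (Q : ℝ) ^ (3 * n + 3) / bb n Q := by
    rw [evz_taylor, ← hκ]
    have hsplit : tc n F θ 0 1 = ∑ i ∈ range (n + 1), ∑ j ∈ range (n + 1),
        (if i = 0 ∧ j = 1 then tc n F θ 0 1 else 0) := by
      rw [Finset.sum_eq_single 0]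
      · rw [Finset.sum_eq_single 1]
        · simp
        · intro j _ hj
          simp [hj]
        · intro h
          exact absurd (Finset.mem_range.2 (by omega)) h
      · intro i _ hi
        simp [hi]
      · intro h
        exact absurd (Finset.mem_range.2 (by omega)) h
    conv_lhs => rw [hsplit]
    rw [← Finset.sum_sub_distrib]
    simp_rw [← Finset.sum_sub_distrib]
    have hterm : ∀ i ∈ range (n + 1), ∀ j ∈ range (n + 1),
        |tc n F θ i j * t ^ i * ((j : ℝ) * e ^ (j - 1)) -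
          (if i = 0 ∧ j = 1 then tc n F θ 0 1 else 0)| ≤ (Q : ℝ) ^ (3 * n) * n * (1 / bb n Q) := by
      intro i hi j hj
      rw [Finset.mem_range] at hi hj
      by_cases h01 : i = 0 ∧ j = 1
      · obtain ⟨rfl, rfl⟩ := h01
        simp
        positivity
      · rw [if_neg h01, sub_zero]
        rcases Nat.eq_zero_or_pos j with h0 | h0
        · simp [h0]
          positivity
        · rw [abs_mul, abs_mul, abs_mul, abs_pow, abs_pow, Nat.abs_cast]
          have h3 : |t| ^ i * |e| ^ (j - 1) ≤ 1 / bb n Q := by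
            rcases Nat.eq_zero_or_pos i with hi0 | hi0
            · have hj2 : 1 ≤ j - 1 := by
                rcases Nat.lt_or_ge j 2 with h | h
                · exact absurd ⟨hi0, by omega⟩ h01
                · omega
              calc |t| ^ i * |e| ^ (j - 1) ≤ 1 * |e| ^ 1 :=
                    mul_le_mul (pow_le_one₀ (abs_nonneg _) ht2)
                      (pow_le_pow_of_le_one (abs_nonneg _) he2 hj2) (by positivity) (by norm_num)
                _ ≤ 1 / bb n Q := by simpa using hy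
            · calc |t| ^ i * |e| ^ (j - 1) ≤ |t| ^ 1 * 1 :=
                    mul_le_mul (pow_le_pow_of_le_one (abs_nonneg _) ht2 hi0)
                      (pow_le_one₀ (abs_nonneg _) he2) (by positivity) (by positivity)
                _ ≤ 1 / bb n Q := by simpa using ht1
          have h4 : (j : ℝ) ≤ n := by exact_mod_cast (by omega : j ≤ n)
          have h5 := hc i j (by omega) (by omega)
          calc |tc n F θ i j| * |t| ^ i * ((j : ℝ) * |e| ^ (j - 1))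
              = |tc n F θ i j| * (j : ℝ) * (|t| ^ i * |e| ^ (j - 1)) := by ring
            _ ≤ (Q : ℝ) ^ (3 * n) * n * (1 / bb n Q) :=
              mul_le_mul (mul_le_mul h5 h4 (by positivity) (by positivity)) h3 (by positivity)
                (by positivity)
    calc |∑ i ∈ range (n + 1), ∑ j ∈ range (n + 1),
          (tc n F θ i j * t ^ i * ((j : ℝ) * e ^ (j - 1)) -
            (if i = 0 ∧ j = 1 then tc n F θ 0 1 else 0))|
        ≤ ∑ i ∈ range (n + 1), |∑ j ∈ range (n + 1),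
          (tc n F θ i j * t ^ i * ((j : ℝ) * e ^ (j - 1)) -
            (if i = 0 ∧ j = 1 then tc n F θ 0 1 else 0))| := Finset.abs_sum_le_sum_abs _ _
      _ ≤ ∑ i ∈ range (n + 1), ∑ j ∈ range (n + 1),
          |tc n F θ i j * t ^ i * ((j : ℝ) * e ^ (j - 1)) -
            (if i = 0 ∧ j = 1 then tc n F θ 0 1 else 0)| :=
        Finset.sum_le_sum fun i _ => Finset.abs_sum_le_sum_abs _ _
      _ ≤ ∑ i ∈ range (n + 1), ∑ j ∈ range (n + 1), (Q : ℝ) ^ (3 * n) * n * (1 / bb n Q) :=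
        Finset.sum_le_sum fun i hi => Finset.sum_le_sum fun j hj => hterm i hi j hj
      _ = ((n : ℝ) + 1) * (((n : ℝ) + 1) * ((Q : ℝ) ^ (3 * n) * n * (1 / bb n Q))) := by
        simp [Finset.sum_const, Finset.card_range, nsmul_eq_mul]
      _ ≤ (Q : ℝ) * ((Q : ℝ) * ((Q : ℝ) ^ (3 * n) * Q * (1 / bb n Q))) := by
        have h6 := n_add_one_leR hn hQ
        have h7 := n_leR hn hQ
        gcongr
      _ = (Q : ℝ) ^ (3 * n + 3) / bb n Q := by ring
  -- size of the error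
  have herr : (Q : ℝ) ^ (3 * n + 3) / bb n Q * (2 * (Q : ℝ) ^ (3 * n ^ 2)) ≤ 1 := by
    rw [div_mul_eq_mul_div, div_le_one hb]
    calc (Q : ℝ) ^ (3 * n + 3) * (2 * (Q : ℝ) ^ (3 * n ^ 2))
        ≤ (Q : ℝ) ^ (3 * n + 3) * ((Q : ℝ) ^ 1 * (Q : ℝ) ^ (3 * n ^ 2)) := by
          have : (2 : ℝ) ≤ (Q : ℝ) ^ 1 := by
            rw [pow_one]; linarith [sixteen_leR hn hQ]
          gcongr
      _ = (Q : ℝ) ^ (3 * n + 3 + (1 + 3 * n ^ 2)) := by rw [← pow_add, ← pow_add]
      _ ≤ bb n Q := Qpow_le_bb hn hQ (by nlinarith)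
  have hQ3 : 0 < (Q : ℝ) ^ (3 * n ^ 2) := by positivity
  set δ : ℝ := (Q : ℝ) ^ (3 * n + 3) / bb n Q with hδ
  have hδ1 : δ ≤ |O.φ O.κ| / 2 := by
    have h1 : δ * (2 * (Q : ℝ) ^ (3 * n ^ 2)) ≤ |O.φ O.κ| * (Q : ℝ) ^ (3 * n ^ 2) :=
      herr.trans hκ1
    have h2 : (δ * 2) * (Q : ℝ) ^ (3 * n ^ 2) ≤ |O.φ O.κ| * (Q : ℝ) ^ (3 * n ^ 2) := by
      linarith
    have h3 := le_of_mul_le_mul_right h2 hQ3
    linarith
  have hκpos : 0 < |O.φ O.κ| := by
    by_contra h
    have h0 : |O.φ O.κ| = 0 := le_antisymm (not_lt.1 h) (abs_nonneg _)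
    rw [h0, zero_mul] at hκ1
    linarith
  have hlow : 0 < |evz n F t (θ + e)| := by
    have h1 : |O.φ O.κ| - |evz n F t (θ + e)| ≤ |O.φ O.κ - evz n F t (θ + e)| :=
      abs_sub_abs_le_abs_sub _ _
    rw [abs_sub_comm] at h1
    linarith
  have hup : |evz n F t (θ + e)| ≤ bb n Q := by
    have h1 : |evz n F t (θ + e)| - |O.φ O.κ| ≤ |evz n F t (θ + e) - O.φ O.κ| :=
      abs_sub_abs_le_abs_sub _ _
    have h2 : |evz n F t (θ + e)| ≤ 2 * (Q : ℝ) ^ (2 * n) := by linarith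
    calc |evz n F t (θ + e)| ≤ 2 * (Q : ℝ) ^ (2 * n) := h2
      _ ≤ (Q : ℝ) ^ 1 * (Q : ℝ) ^ (2 * n) := by
        have : (2 : ℝ) ≤ (Q : ℝ) ^ 1 := by
          rw [pow_one]; linarith [sixteen_leR hn hQ]
        gcongr
      _ = (Q : ℝ) ^ (1 + 2 * n) := by rw [← pow_add]
      _ ≤ bb n Q := Qpow_le_bb hn hQ (by nlinarith)
  have heq := evy_eq n (by omega) F x y hxne
  rw [← ht, hz] at heq
  constructor
  · intro h0
    rw [h0, Int.cast_zero] at heq
    rcases mul_eq_zero.1 heq.symm with h | h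
    · exact hxne (pow_eq_zero_iff (by omega) |>.1 h)
    · rw [h, abs_zero] at hlow
      exact lt_irrefl _ hlow
  · rw [heq, abs_mul, abs_pow, mul_comm]
    exact mul_le_mul_of_nonneg_right hup (by positivity)

end Pool.Agent.H72.ES
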