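import Pool.Agent.H72.ES.Liou

/-! # [ES-NORM] Existence of the order `ℤ[α]` with a submultiplicative size

`R = AdjoinRoot f`, `α = AdjoinRoot.root f`. Coordinates: `coord a k = coeff k` of the
representative of degree `< n` (`AdjoinRoot.modByMonicHom hm a`, or `AdjoinRoot.powerBasis' hm`).
`ℓ(a) = ∑_{i<n} |coord a i|` and `ν a = max_{k<n} ℓ(a * α^k)` (the operator norm of the
multiplication by `a` for the `ℓ¹` norm of coordinates).

* `ν (a+b) ≤ ν a + ν b`, `ν (-a) = ν a`, `ν 0 = 0` clear.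
* `ℓ(a*c) ≤ ν a * ℓ(c)` since `c = ∑ coord c k • α^k`; hence `ν (a*b) ≤ ν a * ν b`.
* `ν m ≤ |m|` for an integer `m`: `m * α^k` has the single coordinate `m` (for `k < n`).
* `ν α ≤ n * Q`: `α * α^k = α^(k+1)` has `ℓ = 1` for `k < n-1`, and
  `α^n = -∑_{i<n} f_i α^i` has `ℓ ≤ n Q`.
* `|coord a k| ≤ ℓ(a) = ℓ(a * α^0) ≤ ν a`.
* `φ = AdjoinRoot.lift (Int.castRingHom 𝕜) θ _`. `φ(a) θ^k = ∑_i M_ik θ^i` with
  `M_ik = coord (a α^k) i`. Take `k` with `‖θ^k‖` maximal: `‖φ a‖ ≤ ∑_i |M_ik| ≤ ν a`.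
* Liouville: `M` integer matrix of the multiplication, `det M ≠ 0` because `R` is a domain
  (a nonzero integer vector `c` in the kernel of `M` gives `a * ∑ c_k α^k = 0`), apply
  `liou_matrix` with `v_i = θ^i`, `m = ν a ≥ 1` (a nonzero element has a nonzero integer
  coordinate), `‖θ‖ ≤ ν α ≤ n Q`, `V = (n Q)^(n-1)`; note
  `n * (n Q)^(n-1) * n! ≤ n^(2n) Q^(n-1) ≤ Q^(4 n)` since `n^2 ≤ Q` (`n_sq_leR`).
* `R` is a domain: `f` is irreducible in the UFD `ℤ[X]`, hence prime.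
* `indep`: `aeval α p = AdjoinRoot.mk f p`, zero iff `f ∣ p`; degrees. -/

namespace Pool.Agent.H72.ES

open Polynomial

section nrm

variable {R : Type} [CommRing R] {n : ℕ} (B : Module.Basis (Fin n) ℤ R) (α : R)

/-- `ℓ¹` norm of the coordinates -/
noncomputable def nrmL (a : R) : ℝ := ∑ i, |((B.repr a i : ℤ) : ℝ)|

theorem nrmL_nonneg (a : R) : 0 ≤ nrmL B a := Finset.sum_nonneg fun _ _ => abs_nonneg _

theorem nrmL_zero : nrmL B 0 = 0 := by simp [nrmL]

theorem nrmL_neg (a : R) : nrmL B (-a) = nrmL B a := by simp [nrmL]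

theorem nrmL_add (a b : R) : nrmL B (a + b) ≤ nrmL B a + nrmL B b := by
  unfold nrmL
  rw [← Finset.sum_add_distrib]
  refine Finset.sum_le_sum fun i _ => ?_
  rw [map_add, Finsupp.add_apply]
  push_cast
  exact abs_add_le _ _

theorem nrmL_smul (c : ℤ) (a : R) : nrmL B (c • a) = |(c : ℝ)| * nrmL B a := by
  unfold nrmL
  rw [Finset.mul_sum]
  refine Finset.sum_congr rfl fun i _ => ?_
  rw [map_smul, Finsupp.smul_apply, smul_eq_mul]
  push_cast
  exact abs_mul _ _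

theorem nrmL_sum {ι : Type*} (s : Finset ι) (g : ι → R) :
    nrmL B (∑ i ∈ s, g i) ≤ ∑ i ∈ s, nrmL B (g i) := by
  classical
  induction s using Finset.induction_on with
  | empty => simp [nrmL_zero]
  | insert a s ha ih =>
    rw [Finset.sum_insert ha, Finset.sum_insert ha]
    exact (nrmL_add B _ _).trans (by linarith)

theorem nrmL_basis (i : Fin n) : nrmL B (B i) = 1 := by
  classical
  unfold nrmL
  rw [Finset.sum_eq_single i]
  · simp
  · intro j _ hj
    rw [B.repr_self, Finsupp.single_apply, if_neg (fun h => hj h.symm)]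
    simp
  · intro h
    exact absurd (Finset.mem_univ _) h

theorem abs_le_nrmL (a : R) (i : Fin n) : |((B.repr a i : ℤ) : ℝ)| ≤ nrmL B a :=
  Finset.single_le_sum (f := fun i => |((B.repr a i : ℤ) : ℝ)|) (fun _ _ => abs_nonneg _)
    (Finset.mem_univ i)

variable [NeZero n]

/-- operator norm of the multiplication -/
noncomputable def nrmN (a : R) : ℝ :=
  Finset.univ.sup' ⟨(0 : Fin n), Finset.mem_univ _⟩ fun k : Fin n => nrmL B (a * B k)

theorem nrmL_le_nrmN (a : R) (k : Fin n) : nrmL B (a * B k) ≤ nrmN B a :=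
  Finset.le_sup' (fun k : Fin n => nrmL B (a * B k)) (Finset.mem_univ k)

theorem nrmN_le {a : R} {c : ℝ} (h : ∀ k, nrmL B (a * B k) ≤ c) : nrmN B a ≤ c :=
  Finset.sup'_le _ _ fun k _ => h k

theorem nrmN_nonneg (a : R) : 0 ≤ nrmN B a :=
  (nrmL_nonneg B _).trans (nrmL_le_nrmN B a 0)

theorem nrmN_zero : nrmN B 0 = 0 := by
  refine le_antisymm (nrmN_le B fun k => ?_) (nrmN_nonneg B 0)
  rw [zero_mul, nrmL_zero]

theorem nrmN_neg (a : R) : nrmN B (-a) = nrmN B a := by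
  refine le_antisymm (nrmN_le B fun k => ?_) (nrmN_le B fun k => ?_)
  · rw [neg_mul, nrmL_neg]
    exact nrmL_le_nrmN B a k
  · have h := nrmL_le_nrmN B (-a) k
    rwa [neg_mul, nrmL_neg] at h

theorem nrmN_add (a b : R) : nrmN B (a + b) ≤ nrmN B a + nrmN B b := by
  refine nrmN_le B fun k => ?_
  rw [add_mul]
  exact (nrmL_add B _ _).trans (add_le_add (nrmL_le_nrmN B a k) (nrmL_le_nrmN B b k))

theorem nrmL_mul (a c : R) : nrmL B (a * c) ≤ nrmN B a * nrmL B c := by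
  have h1 : a * c = ∑ k, B.repr c k • (a * B k) := by
    conv_lhs => rw [← B.sum_repr c]
    rw [Finset.mul_sum]
    refine Finset.sum_congr rfl fun k _ => ?_
    rw [mul_smul_comm]
  rw [h1]
  refine (nrmL_sum B _ _).trans ?_
  have h2 : nrmN B a * nrmL B c = ∑ k, |((B.repr c k : ℤ) : ℝ)| * nrmN B a := by
    rw [mul_comm]
    unfold nrmL
    rw [Finset.sum_mul]
  rw [h2]
  refine Finset.sum_le_sum fun k _ => ?_
  rw [nrmL_smul]
  exact mul_le_mul_of_nonneg_left (nrmL_le_nrmN B a k) (abs_nonneg _)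

theorem nrmN_mul (a b : R) : nrmN B (a * b) ≤ nrmN B a * nrmN B b := by
  refine nrmN_le B fun k => ?_
  rw [mul_assoc]
  exact (nrmL_mul B a _).trans
    (mul_le_mul_of_nonneg_left (nrmL_le_nrmN B b k) (nrmN_nonneg B a))

theorem nrmN_int (m : ℤ) : nrmN B (m : R) ≤ |(m : ℝ)| := by
  refine nrmN_le B fun k => ?_
  have h : (m : R) * B k = m • B k := by rw [zsmul_eq_mul]
  rw [h, nrmL_smul, nrmL_basis, mul_one]

variable (hB : ∀ i, B i = α ^ (i : ℕ))
include hB

theorem nrm_B0 : B (0 : Fin n) = 1 := by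
  rw [hB]
  simp

theorem nrmL_le_self (a : R) : nrmL B a ≤ nrmN B a := by
  have h := nrmL_le_nrmN B a 0
  rwa [nrm_B0 B α hB, mul_one] at h

theorem nrmN_α {f : ℤ[X]} {Q : ℕ} (hQ : 1 ≤ Q) (hm : f.Monic) (hd : f.natDegree = n)
    (hc : ∀ j, |f.coeff j| ≤ (Q : ℤ)) (hr : aeval α f = 0) : nrmN B α ≤ n * Q := by
  have hn1 : (1 : ℝ) ≤ n := by
    have : 1 ≤ n := Nat.one_le_iff_ne_zero.2 (NeZero.ne n)
    exact_mod_cast this
  have hQ1 : (1 : ℝ) ≤ Q := by exact_mod_cast hQ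
  refine nrmN_le B fun k => ?_
  rw [hB, ← pow_succ']
  by_cases hk : (k : ℕ) + 1 < n
  · have h1 : α ^ ((k : ℕ) + 1) = B ⟨(k : ℕ) + 1, hk⟩ := by rw [hB]
    rw [h1, nrmL_basis]
    nlinarith
  · have hk' : (k : ℕ) + 1 = n := by
      have := k.2
      omega
    rw [hk']
    have h1 : α ^ n = ∑ i : Fin n, (- f.coeff i) • B i := by
      rw [aeval_eq_sum_range, hd, Finset.sum_range_succ] at hr
      have h2 : f.coeff n = 1 := by
        rw [← hd]
        exact hm
      rw [h2, one_smul] at hr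
      have h3 : α ^ n = - ∑ i ∈ Finset.range n, f.coeff i • α ^ i := by
        linear_combination hr
      rw [h3, ← Fin.sum_univ_eq_sum_range (fun i => f.coeff i • α ^ i), ← Finset.sum_neg_distrib]
      refine Finset.sum_congr rfl fun i _ => ?_
      rw [hB, neg_smul]
    rw [h1]
    refine (nrmL_sum B _ _).trans ?_
    have h4 : ∀ i ∈ Finset.univ, nrmL B ((- f.coeff (i : Fin n)) • B i) ≤ (Q : ℝ) := by
      intro i _
      rw [nrmL_smul, nrmL_basis, mul_one, Int.cast_neg, abs_neg]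
      have := hc i
      have h5 : ((|f.coeff i| : ℤ) : ℝ) ≤ ((Q : ℤ) : ℝ) := by exact_mod_cast this
      push_cast at h5
      exact h5
    refine (Finset.sum_le_card_nsmul _ _ _ h4).trans (le_of_eq ?_)
    rw [Finset.card_univ, Fintype.card_fin, nsmul_eq_mul]

variable {𝕜 : Type} [RCLike 𝕜] (φ : R →+* 𝕜)

omit [NeZero n] in
theorem nrm_phi (a : R) (k : Fin n) :
    ∑ i : Fin n, φ α ^ (i : ℕ) * ((B.repr (a * B k) i : ℤ) : 𝕜) = φ a * φ α ^ (k : ℕ) := by
  have h1 : φ (a * B k) = ∑ i, φ (B.repr (a * B k) i • B i) := by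
    conv_lhs => rw [← B.sum_repr (a * B k)]
    rw [map_sum]
  rw [hB k, φ.map_mul, φ.map_pow] at h1
  rw [hB k, h1]
  refine Finset.sum_congr rfl fun i _ => ?_
  rw [zsmul_eq_mul, φ.map_mul, map_intCast φ, hB i, φ.map_pow, mul_comm]

theorem nrm_phi_le (a : R) : ‖φ a‖ ≤ nrmN B a := by
  obtain ⟨k, -, hk⟩ := Finset.exists_max_image (Finset.univ : Finset (Fin n))
    (fun k => ‖φ α ^ (k : ℕ)‖) ⟨0, Finset.mem_univ _⟩
  have h1 : 0 < ‖φ α ^ (k : ℕ)‖ := by
    have h2 := hk 0 (Finset.mem_univ _)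
    have h3 : ((0 : Fin n) : ℕ) = 0 := by simp
    rw [h3, pow_zero, norm_one] at h2
    linarith
  have h4 : ‖φ a‖ * ‖φ α ^ (k : ℕ)‖ ≤ nrmN B a * ‖φ α ^ (k : ℕ)‖ := by
    rw [← norm_mul, ← nrm_phi B α hB φ a k]
    refine (norm_sum_le _ _).trans ?_
    have h5 : ∀ i ∈ Finset.univ, ‖φ α ^ ((i : Fin n) : ℕ) * ((B.repr (a * B k) i : ℤ) : 𝕜)‖ ≤
        ‖φ α ^ (k : ℕ)‖ * |((B.repr (a * B k) i : ℤ) : ℝ)| := by
      intro i hi
      rw [norm_mul, liou_norm_int]
      exact mul_le_mul_of_nonneg_right (hk i hi) (abs_nonneg _)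
    refine (Finset.sum_le_sum h5).trans ?_
    rw [← Finset.mul_sum, mul_comm (nrmN B a)]
    exact mul_le_mul_of_nonneg_left (nrmL_le_nrmN B a k) (norm_nonneg _)
  exact le_of_mul_le_mul_right h4 h1

theorem one_le_nrmN {a : R} (ha : a ≠ 0) : 1 ≤ nrmN B a := by
  have h1 : ∃ i, B.repr a i ≠ 0 := by
    by_contra hcon
    push Not at hcon
    apply ha
    have : B.repr a = 0 := by
      ext i
      exact hcon i
    exact (LinearEquiv.map_eq_zero_iff B.repr).1 this
  obtain ⟨i, hi⟩ := h1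
  have h2 : (1 : ℝ) ≤ |((B.repr a i : ℤ) : ℝ)| := by exact_mod_cast Int.one_le_abs hi
  exact h2.trans ((abs_le_nrmL B a i).trans (nrmL_le_self B α hB a))

theorem nrm_liouville [IsDomain R] {Q : ℕ} (hn : 4 ≤ n) (hQ : 2 ^ n ≤ Q)
    (hα : nrmN B α ≤ n * Q) {a : R} (ha : a ≠ 0) :
    1 ≤ ‖φ a‖ * ((Q : ℝ) ^ (4 * n) * nrmN B a ^ n) := by
  classical
  have hQ1 := one_le_QR hn hQ
  have hnn : (1 : ℝ) ≤ n := by exact_mod_cast (by omega : 1 ≤ n)
  let M : Matrix (Fin n) (Fin n) ℤ := fun i k => B.repr (a * B k) i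
  have hdet : M.det ≠ 0 := by
    intro h0
    obtain ⟨c, hc, hMc⟩ := Matrix.exists_mulVec_eq_zero_iff.2 h0
    apply hc
    have h1 : a * ∑ k, c k • B k = 0 := by
      have h2 : B.repr (a * ∑ k, c k • B k) = 0 := by
        ext i
        have h3 := congrFun hMc i
        rw [Matrix.mulVec, dotProduct, Pi.zero_apply] at h3
        rw [Finset.mul_sum, map_sum, Finsupp.finsetSum_apply, Finsupp.zero_apply]
        rw [← h3]
        refine Finset.sum_congr rfl fun k _ => ?_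
        rw [mul_smul_comm, map_smul, Finsupp.smul_apply, smul_eq_mul, mul_comm]
      exact (LinearEquiv.map_eq_zero_iff B.repr).1 h2
    have h4 : ∑ k, c k • B k = 0 := by
      rcases mul_eq_zero.1 h1 with h | h
      · exact absurd h ha
      · exact h
    have h5 := (Fintype.linearIndependent_iff.1 B.linearIndependent) c h4
    funext k
    exact h5 k
  have hθ : ‖φ α‖ ≤ n * Q := (nrm_phi_le B α hB φ α).trans hα
  have hnQ : (1 : ℝ) ≤ n * Q := by nlinarith
  have h := liou_matrix (𝕜 := 𝕜) (by omega : 0 < n) M hdet (nrmN B a)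
    (one_le_nrmN B α hB ha)
    (fun i k => (abs_le_nrmL B _ i).trans (nrmL_le_nrmN B a k))
    (fun i => φ α ^ (i : ℕ)) (((n : ℝ) * Q) ^ (n - 1)) (by simp)
    (fun i => by
      rw [norm_pow]
      refine (pow_le_pow_left₀ (norm_nonneg _) hθ _).trans (pow_le_pow_right₀ hnQ ?_)
      have := i.2
      omega)
    (φ a) (fun k => nrm_phi B α hB φ a k)
  refine h.trans (mul_le_mul_of_nonneg_left ?_ (norm_nonneg _))
  refine mul_le_mul_of_nonneg_right ?_ (pow_nonneg (nrmN_nonneg B a) n)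
  have h1 : (n.factorial : ℝ) ≤ (n : ℝ) ^ n := by exact_mod_cast Nat.factorial_le_pow n
  have h2 : (n : ℝ) * ((n : ℝ) * Q) ^ (n - 1) = (n : ℝ) ^ n * (Q : ℝ) ^ (n - 1) := by
    rw [mul_pow, ← mul_assoc, ← pow_succ']
    congr 2
    omega
  rw [h2]
  have h3 : (n : ℝ) ^ n * (n : ℝ) ^ n ≤ (Q : ℝ) ^ n := by
    rw [← mul_pow]
    refine pow_le_pow_left₀ (by positivity) ?_ _
    have := n_sq_leR hn hQ
    nlinarith
  calc (n : ℝ) ^ n * (Q : ℝ) ^ (n - 1) * n.factorial
      ≤ (n : ℝ) ^ n * (Q : ℝ) ^ (n - 1) * (n : ℝ) ^ n :=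
        mul_le_mul_of_nonneg_left h1 (by positivity)
    _ = ((n : ℝ) ^ n * (n : ℝ) ^ n) * (Q : ℝ) ^ (n - 1) := by ring
    _ ≤ (Q : ℝ) ^ n * (Q : ℝ) ^ (n - 1) := mul_le_mul_of_nonneg_right h3 (by positivity)
    _ = (Q : ℝ) ^ (n + (n - 1)) := by rw [pow_add]
    _ ≤ (Q : ℝ) ^ (4 * n) := Qpow_mono hn hQ (by omega)

end nrm

theorem exists_ord (𝕜 : Type) [RCLike 𝕜] {n Q : ℕ} {f : ℤ[X]} (hn : 4 ≤ n) (hQ : 2 ^ n ≤ Q)
    (hm : f.Monic) (hd : f.natDegree = n) (hc : ∀ j, |f.coeff j| ≤ (Q : ℤ))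
    (hf : Irreducible f) (θ : 𝕜) (hθ : aeval θ f = 0) : Nonempty (Ord 𝕜 n Q f θ) := by
  subst hd
  have hprime : Prime f := hf.prime
  have : IsDomain (AdjoinRoot f) := AdjoinRoot.isDomain_of_prime hprime
  have : NeZero f.natDegree := ⟨by omega⟩
  let B : Module.Basis (Fin f.natDegree) ℤ (AdjoinRoot f) := (AdjoinRoot.powerBasis' hm).basis
  have hB : ∀ i, B i = AdjoinRoot.root f ^ (i : ℕ) := by
    intro i
    have h := congrFun (AdjoinRoot.powerBasis' hm).coe_basis i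
    rw [AdjoinRoot.powerBasis'_gen] at h
    exact h
  have hroot : aeval (AdjoinRoot.root f) f = 0 := by
    rw [AdjoinRoot.aeval_eq, AdjoinRoot.mk_self]
  have hθ' : eval₂ (Int.castRingHom 𝕜) θ f = 0 := by
    rw [aeval_def] at hθ
    exact hθ
  have hQ1 : 1 ≤ Q := le_trans Nat.one_le_two_pow hQ
  have hα := nrmN_α B (AdjoinRoot.root f) hB hQ1 hm rfl hc hroot
  exact ⟨{ R := AdjoinRoot f
           α := AdjoinRoot.root f
           ν := nrmN B
           coord := B.equivFun.toLinearMap.toAddMonoidHom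
           φ := AdjoinRoot.lift (Int.castRingHom 𝕜) θ hθ'
           root := hroot
           ν_nonneg := nrmN_nonneg B
           ν_zero := nrmN_zero B
           ν_neg := nrmN_neg B
           ν_add := nrmN_add B
           ν_mul := nrmN_mul B
           ν_int := nrmN_int B
           ν_α := hα
           coord_inj := B.equivFun.injective
           coord_le := fun a k => (abs_le_nrmL B a k).trans
             (nrmL_le_self B (AdjoinRoot.root f) hB a)
           φ_α := AdjoinRoot.lift_root hθ'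
           φ_le := nrm_phi_le B (AdjoinRoot.root f) hB _
           liouville := fun a ha => nrm_liouville B (AdjoinRoot.root f) hB _ hn hQ hα ha
           indep := by
             intro p hp h0
             have h1 : aeval (AdjoinRoot.root f) p = 0 := h0
             rw [AdjoinRoot.aeval_eq, AdjoinRoot.mk_eq_zero] at h1
             exact Polynomial.eq_zero_of_dvd_of_natDegree_lt h1 hp }⟩

end Pool.Agent.H72.ES
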