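import Pool.Agent.H72.ES.SNorm
import Pool.Agent.H72.ES.Const

/-! # Bivariate polynomials `ℤ[X][X]` (inner variable `x`, outer variable `y`): definitions -/

namespace Pool.Agent.H72.ES

open Finset Polynomial

/-- evaluation of a bivariate polynomial (inner variable at `x`, outer variable at `y`) -/
noncomputable def Lam {S : Type*} [CommRing S] (x y : S) : ℤ[X][X] →+* S :=
  eval₂RingHom (eval₂RingHom (Int.castRingHom S) x) y

/-- array to bivariate polynomial -/
noncomputable def toP (d : ℕ) (A : ℕ → ℕ → ℤ) : ℤ[X][X] :=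
  ∑ i ∈ range (d + 1), ∑ j ∈ range (d + 1 - i), C (C (A i j) * X ^ i) * X ^ j

/-- `ℓ¹` norm of an integer polynomial -/
noncomputable def L1 (p : ℤ[X]) : ℝ := ∑ i ∈ p.support, |((p.coeff i : ℤ) : ℝ)|

/-- `ℓ¹` norm of a bivariate integer polynomial -/
noncomputable def L2 (p : ℤ[X][X]) : ℝ := ∑ j ∈ p.support, L1 (p.coeff j)

/-- the partial derivative in the inner variable `x` -/
noncomputable def dX (p : ℤ[X][X]) : ℤ[X][X] := ∑ j ∈ p.support, C (derivative (p.coeff j)) * X ^ j

/-- the Hamiltonian derivation `F_y ∂_x - F_x ∂_y` -/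
noncomputable def Dop (F p : ℤ[X][X]) : ℤ[X][X] := derivative F * dX p - dX F * derivative p

/-- the series `x₁ + κ X` -/
noncomputable def xs (x1 κ : ℤ) : PowerSeries ℤ := PowerSeries.C x1 + PowerSeries.C κ * PowerSeries.X

theorem Lam_toP {S : Type*} [CommRing S] (x y : S) (d : ℕ) (A : ℕ → ℕ → ℤ) :
    Lam x y (toP d A) = ev d (cst S A) x y := by
  simp [Lam, toP, ev, cst, map_sum, map_mul, map_pow]

end Pool.Agent.H72.ES
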