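import Pool.Agent.H72.ES.Series
import Pool.Agent.H72.ES.Taylor

/-! # [ES-BRANCH] The branch at infinity over the order

In `O.R⟦X⟧` put `t = κ² X`, `v = κ w`, `c_ij = tc n F α i j` (`c_00 = f(α) = 0` by `O.root`,
`c_01 = κ`). `evt n F t (α + v) = ∑ c_ij κ^(2i+j) X^i w^j = κ² (w - Φ(w))` with
`Φ(w) = ∑'_{i,j ≤ n} (-c_ij κ^(2i+j-2)) X^i w^j`, the sum over `(i,j) ≠ (0,0), (0,1)`
(there `2i+j ≥ 2`). `exists_series` gives `w`.

Bound: `b = Q^(7n²)`, `ρ = 1/b²`, `r = 1/b`. Coefficients of `Φ` have `ν ≤ Q^(3n) *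
Q^(2n(3n-2)) ≤ Q^(6n²)`, at most `(n+1)² ≤ Q²` terms, each is `≤ Q^(6n²) r²` at
`(ρ, r)` (`i ≥ 1` gives a factor `ρ = r²`, `i = 0` gives `j ≥ 2`, factor `r²`).
Induction on `K`: `wn K w ≤ r → wn (K+1) w ≤ r`, because
`wn (K+1) (X^i w^j) ≤ ρ^i (wn K w)^j` whenever `i ≥ 1` or `j ≥ 2` (write `w = X u`). -/

namespace Pool.Agent.H72.ES

open Finset Polynomial

section aux

variable {R : Type*} [CommRing R] {ν : R → ℝ} {ρ : ℝ}

theorem wn_succ_X_mul (h : SubMul ν) (K : ℕ) (a : PowerSeries R) :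
    wn ν ρ (K + 1) (PowerSeries.X * a) = ρ * wn ν ρ K a := by
  unfold wn
  rw [sum_range_succ' _ (K + 1), mul_sum]
  have h0 : ν (PowerSeries.coeff 0 (PowerSeries.X * a)) = 0 := by
    simp [h.zero]
  rw [h0, zero_mul, add_zero]
  refine sum_congr rfl fun k _ => ?_
  rw [PowerSeries.coeff_succ_X_mul]
  ring

theorem wn_zero_X_mul (h : SubMul ν) (a : PowerSeries R) :
    wn ν ρ 0 (PowerSeries.X * a) = 0 := by
  unfold wn
  simp [h.zero]

theorem wn_X_pow_mul_le (h : SubMul ν) (hρ : 0 ≤ ρ) (K i : ℕ) (a : PowerSeries R) :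
    wn ν ρ K (PowerSeries.X ^ i * a) ≤ ρ ^ i * wn ν ρ K a := by
  refine (wn_mul_le h hρ K _ _).trans ?_
  refine mul_le_mul_of_nonneg_right ?_ (wn_nonneg h hρ K a)
  refine (wn_pow_le h hρ K _ i).trans ?_
  exact pow_le_pow_left₀ (wn_nonneg h hρ K _) (wn_X_le h hρ K) i

theorem wn_term_le (h : SubMul ν) (hρ : 0 ≤ ρ) (K i j : ℕ) (w : PowerSeries R)
    (hw : PowerSeries.constantCoeff w = 0) (hij : 1 ≤ i ∨ 2 ≤ j) :
    wn ν ρ (K + 1) (PowerSeries.X ^ i * w ^ j) ≤ ρ ^ i * wn ν ρ K w ^ j := by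
  rcases Nat.eq_zero_or_pos i with hi | hi
  · subst hi
    have hj : 2 ≤ j := by omega
    obtain ⟨u, hu⟩ : ∃ u, w = PowerSeries.X * u := by
      have := PowerSeries.X_dvd_iff.2 hw
      exact this
    obtain ⟨m, rfl⟩ : ∃ m, j = m + 2 := ⟨j - 2, by omega⟩
    have e : (PowerSeries.X : PowerSeries R) ^ 0 * w ^ (m + 2) =
        PowerSeries.X * (PowerSeries.X * (PowerSeries.X ^ m * u ^ (m + 2))) := by
      rw [hu, mul_pow]
      ring
    rw [e, wn_succ_X_mul h]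
    cases K with
    | zero =>
      rw [wn_zero_X_mul h, mul_zero, pow_zero, one_mul]
      exact pow_nonneg (wn_nonneg h hρ 0 w) _
    | succ K =>
      rw [wn_succ_X_mul h]
      have h1 : wn ν ρ (K + 1) w = ρ * wn ν ρ K u := by
        rw [hu, wn_succ_X_mul h]
      rw [h1]
      have h2 : wn ν ρ K (PowerSeries.X ^ m * u ^ (m + 2)) ≤ ρ ^ m * wn ν ρ K u ^ (m + 2) :=
        (wn_X_pow_mul_le h hρ K m _).trans
          (mul_le_mul_of_nonneg_left (wn_pow_le h hρ K u _) (pow_nonneg hρ _))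
      calc ρ * (ρ * wn ν ρ K (PowerSeries.X ^ m * u ^ (m + 2)))
          ≤ ρ * (ρ * (ρ ^ m * wn ν ρ K u ^ (m + 2))) :=
            mul_le_mul_of_nonneg_left (mul_le_mul_of_nonneg_left h2 hρ) hρ
        _ = ρ ^ 0 * (ρ * wn ν ρ K u) ^ (m + 2) := by
            rw [mul_pow]
            ring
  · obtain ⟨m, rfl⟩ : ∃ m, i = m + 1 := ⟨i - 1, by omega⟩
    have e : (PowerSeries.X : PowerSeries R) ^ (m + 1) * w ^ j =
        PowerSeries.X * (PowerSeries.X ^ m * w ^ j) := by ring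
    rw [e, wn_succ_X_mul h]
    have h2 : wn ν ρ K (PowerSeries.X ^ m * w ^ j) ≤ ρ ^ m * wn ν ρ K w ^ j :=
      (wn_X_pow_mul_le h hρ K m _).trans
        (mul_le_mul_of_nonneg_left (wn_pow_le h hρ K w _) (pow_nonneg hρ _))
    calc ρ * wn ν ρ K (PowerSeries.X ^ m * w ^ j) ≤ ρ * (ρ ^ m * wn ν ρ K w ^ j) :=
          mul_le_mul_of_nonneg_left h2 hρ
      _ = ρ ^ (m + 1) * wn ν ρ K w ^ j := by ring

theorem branch_eq (n : ℕ) (hn : 1 ≤ n) (F : ℕ → ℕ → ℤ) (α κ : R) (h00 : tc n F α 0 0 = 0)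
    (h01 : tc n F α 0 1 = κ) (g : ℕ → ℕ → R) (hg0 : g 0 0 = 0) (hg1 : g 0 1 = 0)
    (hg : ∀ i j, ¬ (i = 0 ∧ j ≤ 1) → g i j = -(tc n F α i j * κ ^ (2 * i + j - 2)))
    (w : PowerSeries R) (hw : w = ∑ i ∈ range (n + 1), ∑ j ∈ range (n + 1),
        PowerSeries.C (g i j) * PowerSeries.X ^ i * w ^ j) :
    evt n (cst (PowerSeries R) F) (PowerSeries.C κ ^ 2 * PowerSeries.X)
      (PowerSeries.C α + PowerSeries.C κ * w) = 0 := by
  rw [evt_taylor]
  have hc : ∀ i j, tc n F (PowerSeries.C α) i j = PowerSeries.C (tc n F α i j) := by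
    intro i j
    rw [tc_map]
  have key : ∀ i j : ℕ, tc n F (PowerSeries.C α) i j *
      (PowerSeries.C κ ^ 2 * PowerSeries.X) ^ i * (PowerSeries.C κ * w) ^ j =
      (if i = 0 ∧ j = 1 then PowerSeries.C κ ^ 2 * w else 0) -
      PowerSeries.C κ ^ 2 * (PowerSeries.C (g i j) * PowerSeries.X ^ i * w ^ j) := by
    intro i j
    rw [hc]
    by_cases h1 : i = 0 ∧ j = 1
    · obtain ⟨rfl, rfl⟩ := h1
      rw [h01, hg1, if_pos ⟨rfl, rfl⟩, map_zero]
      ring
    · rw [if_neg h1]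
      by_cases h2 : i = 0 ∧ j ≤ 1
      · have hj0 : j = 0 := by omega
        obtain ⟨rfl, -⟩ := h2
        subst hj0
        rw [h00, hg0, map_zero]
        ring
      · rw [hg i j h2, map_neg, map_mul, map_pow]
        have h4 : 2 * i + j = (2 * i + j - 2) + 2 := by omega
        have h5 : (PowerSeries.C κ ^ 2 * PowerSeries.X) ^ i * (PowerSeries.C κ * w) ^ j =
            PowerSeries.C κ ^ (2 * i + j - 2) * PowerSeries.C κ ^ 2 *
              (PowerSeries.X ^ i * w ^ j) := by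
          rw [← pow_add, ← h4, mul_pow, mul_pow, ← pow_mul, pow_add]
          ring
        rw [mul_assoc, h5]
        ring
  simp only [key, sum_sub_distrib]
  have e1 : ∑ i ∈ range (n + 1), ∑ j ∈ range (n + 1),
      (if i = 0 ∧ j = 1 then PowerSeries.C κ ^ 2 * w else 0) = PowerSeries.C κ ^ 2 * w := by
    rw [sum_eq_single 0]
    · rw [sum_eq_single 1]
      · simp
      · intro j _ hj
        simp [hj]
      · intro h
        exfalso
        apply h
        simp only [mem_range]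
        omega
    · intro i _ hi
      simp [hi]
    · intro h
      exfalso
      apply h
      simp
  have e2 : ∑ i ∈ range (n + 1), ∑ j ∈ range (n + 1), PowerSeries.C κ ^ 2 *
      (PowerSeries.C (g i j) * PowerSeries.X ^ i * w ^ j) = PowerSeries.C κ ^ 2 * w := by
    simp only [← mul_sum]
    rw [← hw]
  rw [e1, e2, sub_self]

end aux

variable {𝕜 : Type} [RCLike 𝕜] {n Q : ℕ} {f : ℤ[X]} {θ : 𝕜}

/-- coefficients of the fixed point equation -/
noncomputable def brCoef (O : Ord 𝕜 n Q f θ) (F : ℕ → ℕ → ℤ) (i j : ℕ) : O.R :=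
  if i = 0 ∧ j ≤ 1 then 0 else -(tc n F O.α i j * O.κ ^ (2 * i + j - 2))

theorem brCoef_bound (O : Ord 𝕜 n Q f θ) {F : ℕ → ℕ → ℤ} (hF : Norml n Q f F) {i j : ℕ}
    (hi : i ≤ n) (hj : j ≤ n) : O.ν (brCoef O F i j) ≤ (Q : ℝ) ^ (6 * n ^ 2) := by
  have hQ1 := one_le_QR hF.hn hF.hQ
  unfold brCoef
  split_ifs with h
  · rw [O.ν_zero]
    positivity
  · rw [O.ν_neg]
    refine (O.ν_mul _ _).trans ?_
    have h1 := tc_bound O hF hi hj
    have h2 : O.ν (O.κ ^ (2 * i + j - 2)) ≤ ((Q : ℝ) ^ (2 * n)) ^ (2 * i + j - 2) :=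
      (O.subMul.pow _ _).trans (pow_le_pow_left₀ (O.ν_nonneg _) (kappa_bound O hF) _)
    calc O.ν (tc n F O.α i j) * O.ν (O.κ ^ (2 * i + j - 2))
        ≤ (Q : ℝ) ^ (3 * n) * ((Q : ℝ) ^ (2 * n)) ^ (2 * i + j - 2) :=
          mul_le_mul h1 h2 (O.ν_nonneg _) (by positivity)
      _ = (Q : ℝ) ^ (3 * n + 2 * n * (2 * i + j - 2)) := by
          rw [← pow_mul, ← pow_add]
      _ ≤ (Q : ℝ) ^ (6 * n ^ 2) := by
          refine Qpow_mono hF.hn hF.hQ ?_
          have h3 : 2 * i + j - 2 ≤ 3 * n - 2 := by omega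
          have hn := hF.hn
          have h4 : 2 * n * (2 * i + j - 2) ≤ 2 * n * (3 * n - 2) := Nat.mul_le_mul_left _ h3
          have h5 : 2 * n * (3 * n - 2) = 6 * n ^ 2 - 4 * n := by
            rw [Nat.mul_sub]
            congr 1 <;> ring
          have h6 : 4 * n ≤ 6 * n ^ 2 := by nlinarith
          omega

theorem exists_branch (O : Ord 𝕜 n Q f θ) {F : ℕ → ℕ → ℤ} (hF : Norml n Q f F) :
    Nonempty (Branch O F) := by
  obtain ⟨w, hw0, hw⟩ := exists_series n (brCoef O F) (by simp [brCoef]) (by simp [brCoef])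
  have hn := hF.hn
  have hQ := hF.hQ
  have hQ1 := one_le_QR hn hQ
  have hb := bb_pos hn hQ
  have hb1 := one_le_bb hn hQ
  have hρ : (0 : ℝ) ≤ 1 / bb n Q ^ 2 := by positivity
  have hterm : ∀ K i j : ℕ, i ≤ n → j ≤ n → wn O.ν (1 / bb n Q ^ 2) K w ≤ 1 / bb n Q →
      wn O.ν (1 / bb n Q ^ 2) (K + 1)
        (PowerSeries.C (brCoef O F i j) * PowerSeries.X ^ i * w ^ j) ≤
      (Q : ℝ) ^ (6 * n ^ 2) * (1 / bb n Q ^ 2) := by
    intro K i j hi hj hK
    by_cases hij : i = 0 ∧ j ≤ 1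
    · have : brCoef O F i j = 0 := by simp [brCoef, hij]
      rw [this, map_zero, zero_mul, zero_mul, wn_zero O.subMul]
      positivity
    · have hij' : 1 ≤ i ∨ 2 ≤ j := by omega
      rw [mul_assoc]
      refine (wn_mul_le O.subMul hρ _ _ _).trans ?_
      rw [wn_C O.subMul]
      refine mul_le_mul (brCoef_bound O hF hi hj) ?_ (wn_nonneg O.subMul hρ _ _) (by positivity)
      refine (wn_term_le O.subMul hρ K i j w hw0 hij').trans ?_
      have hr0 := wn_nonneg O.subMul hρ K w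
      have hr1 : (1 : ℝ) / bb n Q ≤ 1 := by
        rw [div_le_one hb]
        exact hb1
      have hρ1 : (1 : ℝ) / bb n Q ^ 2 ≤ 1 := by
        rw [div_le_one (by positivity)]
        exact one_le_pow₀ hb1
      rcases hij' with h | h
      · have h1 : (1 / bb n Q ^ 2) ^ i ≤ (1 / bb n Q ^ 2) ^ 1 :=
          pow_le_pow_of_le_one hρ hρ1 h
        have h2 : wn O.ν (1 / bb n Q ^ 2) K w ^ j ≤ 1 :=
          pow_le_one₀ hr0 (hK.trans hr1)
        rw [pow_one] at h1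
        calc (1 / bb n Q ^ 2) ^ i * wn O.ν (1 / bb n Q ^ 2) K w ^ j
            ≤ (1 / bb n Q ^ 2) * 1 := mul_le_mul h1 h2 (pow_nonneg hr0 _) hρ
          _ = _ := mul_one _
      · have h1 : (1 / bb n Q ^ 2) ^ i ≤ 1 := pow_le_one₀ hρ hρ1
        have h2 : wn O.ν (1 / bb n Q ^ 2) K w ^ j ≤ (1 / bb n Q) ^ j :=
          pow_le_pow_left₀ hr0 hK j
        have h3 : (1 / bb n Q) ^ j ≤ (1 / bb n Q) ^ 2 :=
          pow_le_pow_of_le_one (by positivity) hr1 h
        calc (1 / bb n Q ^ 2) ^ i * wn O.ν (1 / bb n Q ^ 2) K w ^ j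
            ≤ 1 * (1 / bb n Q) ^ 2 :=
              mul_le_mul h1 (h2.trans h3) (pow_nonneg hr0 _) zero_le_one
          _ = _ := by rw [one_mul, div_pow, one_pow]
  refine ⟨⟨w, hw0, ?_, ?_⟩⟩
  · -- the equation
    refine branch_eq n (by omega) F O.α O.κ ?_ ?_ (brCoef O F) (by simp [brCoef]) (by simp [brCoef]) ?_ w hw
    · rw [tc_zero_zero, hF.lead_eq, O.root]
    · rw [tc_zero_one, hF.lead_eq]
      rfl
    · intro i j hij
      simp [brCoef, hij]
  · -- the bound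
    intro K
    induction K with
    | zero =>
      have : wn O.ν (1 / bb n Q ^ 2) 0 w = 0 := by
        unfold wn
        simp [hw0, O.ν_zero]
      rw [this]
      positivity
    | succ K ih =>
      have h1 : wn O.ν (1 / bb n Q ^ 2) (K + 1) w ≤
          ∑ i ∈ range (n + 1), ∑ j ∈ range (n + 1), (Q : ℝ) ^ (6 * n ^ 2) * (1 / bb n Q ^ 2) := by
        conv_lhs => rw [hw]
        refine (wn_sum_le O.subMul hρ _ _ _).trans (sum_le_sum fun i hi => ?_)
        refine (wn_sum_le O.subMul hρ _ _ _).trans (sum_le_sum fun j hj => ?_)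
        simp only [mem_range] at hi hj
        exact hterm K i j (by omega) (by omega) ih
      refine h1.trans ?_
      simp only [sum_const, card_range, nsmul_eq_mul]
      have h2 : ((n : ℝ) + 1) ≤ Q := n_add_one_leR hn hQ
      have h3 : ((n + 1 : ℕ) : ℝ) * (((n + 1 : ℕ) : ℝ) *
          ((Q : ℝ) ^ (6 * n ^ 2) * (1 / bb n Q ^ 2))) ≤
          (Q : ℝ) ^ (6 * n ^ 2 + 2) * (1 / bb n Q ^ 2) := by
        push_cast
        have h4 : ((n : ℝ) + 1) * ((n : ℝ) + 1) ≤ (Q : ℝ) * Q :=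
          mul_le_mul h2 h2 (by positivity) (by positivity)
        calc ((n : ℝ) + 1) * (((n : ℝ) + 1) * ((Q : ℝ) ^ (6 * n ^ 2) * (1 / bb n Q ^ 2)))
            = (((n : ℝ) + 1) * ((n : ℝ) + 1)) * ((Q : ℝ) ^ (6 * n ^ 2) * (1 / bb n Q ^ 2)) := by
              ring
          _ ≤ ((Q : ℝ) * Q) * ((Q : ℝ) ^ (6 * n ^ 2) * (1 / bb n Q ^ 2)) :=
              mul_le_mul_of_nonneg_right h4 (by positivity)
          _ = _ := by ring
      refine h3.trans ?_
      have h5 : (Q : ℝ) ^ (6 * n ^ 2 + 2) ≤ bb n Q := Qpow_le_bb hn hQ (by nlinarith)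
      calc (Q : ℝ) ^ (6 * n ^ 2 + 2) * (1 / bb n Q ^ 2) ≤ bb n Q * (1 / bb n Q ^ 2) :=
            mul_le_mul_of_nonneg_right h5 hρ
        _ = 1 / bb n Q := by
            field_simp

end Pool.Agent.H72.ES
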