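import Pool.Agent.H72.ES.SNorm
import Pool.Agent.H72.ES.Taylor

/-! # [ES-ESTE] A series solution of the curve equation that starts near `θ` stays near `θ`

`b = Q^(7n²)`, real series `t, z` with `F~(t, z) = 0` (`F~ = evt n F`), weighted norms
`N_K = wn |.| ρ K`, `N_K(t) ≤ τ := 1/b²` for all `K`, `|z_0 - θ| ≤ 1/b`. Put `e = z - θ`,
`c_ij = tc n F θ i j = O.φ (tc n F O.α i j)`, `|c_ij| ≤ Q^(3n)` (`tc_map`, `tc_bound`, `φ_le`),
`c_00 = f(θ) = 0`, `c_01 = κ := O.φ O.κ`, `|κ| ≥ Q^(-3n²)` (`kappa_lower`).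
`evt_taylor`: `κ e = - Ψ(e)`, `Ψ(e) = ∑'_{i,j≤n} c_ij t^i e^j` over `i ≥ 1` or `j ≥ 2`.

Claim by induction on `K`: `N_K(e) ≤ 1/b =: r`.
* `K = 0`: hypothesis.
* Step. First `|κ| N_K(e) = N_K(Ψ(e)) ≤ (n+1)² Q^(3n) (τ + r²) ≤ 2 Q^(3n+2)/b²`, so
  `N_K(e) ≤ 2 Q^(3n+2+3n²)/b² ≤ r/4` (as `8 Q^(3n²+3n+2) ≤ Q^(3n²+3n+3) ≤ b`).
  Let `e'` = `e` truncated after `X^K` (as a power series), so `e = e' + e_{K+1} X^(K+1) + ...`.
  Compare coefficients of `X^(K+1)` in `κ e + Ψ(e) = 0`: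
  `[κ e + Ψ(e)]_{K+1} = [Ψ(e')]_{K+1} + U * e_{K+1}`, `U = κ + ∑' c_ij j t_0^i e_0^(j-1)`
  (`[κ e']_{K+1} = 0`; `e^j - e'^j = j e_0^(j-1) e_{K+1} X^(K+1) + O(X^(K+2))`).
  `|U - κ| ≤ (n+1)² Q^(3n) n (τ + r) ≤ 2 Q^(3n+3)/b ≤ |κ|/2`. And
  `|[Ψ(e')]_{K+1}| ρ^(K+1) ≤ N_{K+1}(Ψ(e')) ≤ Q^(3n+2)(τ + r²)` because
  `N_{K+1}(e') = N_K(e) ≤ r`. Hence `|e_{K+1}| ρ^(K+1) ≤ (2/|κ|) 2 Q^(3n+2)/b² ≤ r/2`, and
  `N_{K+1}(e) = N_K(e) + |e_{K+1}| ρ^(K+1) ≤ 3r/4`. -/

namespace Pool.Agent.H72.ES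

open Finset Polynomial

variable {n Q : ℕ} {f : ℤ[X]} {θ : ℝ}

/-- Taylor coefficients without the constant and the linear one -/
noncomputable def ee_d (n : ℕ) (F : ℕ → ℕ → ℤ) (θ : ℝ) (i j : ℕ) : ℝ :=
  if i = 0 ∧ j ≤ 1 then 0 else tc n F θ i j

/-- the higher order part -/
noncomputable def ee_P (n : ℕ) (F : ℕ → ℕ → ℤ) (θ : ℝ) (t e : PowerSeries ℝ) : PowerSeries ℝ :=
  ∑ i ∈ range (n + 1), ∑ j ∈ range (n + 1), PowerSeries.C (ee_d n F θ i j) * t ^ i * e ^ j

/-- the difference quotient of the higher order part -/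
noncomputable def ee_H (n : ℕ) (F : ℕ → ℕ → ℤ) (θ : ℝ) (t e e' : PowerSeries ℝ) :
    PowerSeries ℝ :=
  ∑ i ∈ range (n + 1), ∑ j ∈ range (n + 1), PowerSeries.C (ee_d n F θ i j) * t ^ i *
    ∑ a ∈ range j, e ^ a * e' ^ (j - 1 - a)

theorem ee_P_sub (n : ℕ) (F : ℕ → ℕ → ℤ) (θ : ℝ) (t e e' : PowerSeries ℝ) :
    ee_P n F θ t e - ee_P n F θ t e' = (e - e') * ee_H n F θ t e e' := by
  unfold ee_P ee_H
  rw [← sum_sub_distrib, mul_sum]
  refine sum_congr rfl fun i _ => ?_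
  rw [← sum_sub_distrib, mul_sum]
  refine sum_congr rfl fun j _ => ?_
  have h := geom_sum₂_mul e e' j
  rw [← mul_sub, ← h]
  ring

theorem ee_C_mul (ρ : ℝ) (K : ℕ) (a : ℝ) (e : PowerSeries ℝ) :
    wn (fun a : ℝ => |a|) ρ K (PowerSeries.C a * e) = |a| * wn (fun a : ℝ => |a|) ρ K e := by
  unfold wn
  rw [mul_sum]
  refine sum_congr rfl fun k _ => ?_
  rw [PowerSeries.coeff_C_mul]
  change |a * PowerSeries.coeff k e| * ρ ^ k = |a| * (|PowerSeries.coeff k e| * ρ ^ k)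
  rw [abs_mul]
  ring

theorem ee_root (O : Ord ℝ n Q f θ) {F : ℕ → ℕ → ℤ} (hF : Norml n Q f F) :
    tc n F θ 0 0 = 0 ∧ tc n F θ 0 1 = O.φ O.κ := by
  constructor
  · have h : O.φ (tc n F O.α 0 0) = 0 := by
      rw [tc_zero_zero, hF.lead_eq, O.root, map_zero]
    rwa [tc_map, O.φ_α] at h
  · have h : O.φ (tc n F O.α 0 1) = O.φ O.κ := by
      rw [tc_zero_one, hF.lead_eq]
      rfl
    rwa [tc_map, O.φ_α] at h

theorem ee_d_bound (O : Ord ℝ n Q f θ) {F : ℕ → ℕ → ℤ} (hF : Norml n Q f F) {i j : ℕ}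
    (hi : i ≤ n) (hj : j ≤ n) : |ee_d n F θ i j| ≤ (Q : ℝ) ^ (3 * n) := by
  unfold ee_d
  split_ifs
  · rw [abs_zero]
    positivity
  · rw [← O.φ_α, ← tc_map, ← Real.norm_eq_abs]
    exact (O.φ_le _).trans (tc_bound O hF hi hj)

/-- Taylor expansion with the linear part isolated -/
theorem ee_taylor (O : Ord ℝ n Q f θ) {F : ℕ → ℕ → ℤ} (hF : Norml n Q f F)
    (t e : PowerSeries ℝ) :
    evt n (cst (PowerSeries ℝ) F) t (PowerSeries.C θ + e) =
      PowerSeries.C (O.φ O.κ) * e + ee_P n F θ t e := by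
  obtain ⟨h00, h01⟩ := ee_root O hF
  have hn := hF.hn
  rw [evt_taylor]
  have h1 : ∀ i j, tc n F (PowerSeries.C θ) i j = PowerSeries.C (ee_d n F θ i j) +
      PowerSeries.C (if i = 0 ∧ j = 1 then O.φ O.κ else 0) := by
    intro i j
    rw [← tc_map (PowerSeries.C (R := ℝ)), ← map_add]
    congr 1
    unfold ee_d
    by_cases hi : i = 0
    · subst hi
      by_cases hj : j = 0
      · subst hj
        simp [h00]
      · by_cases hj1 : j = 1
        · subst hj1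
          simp [h01]
        · have h3 : ¬ (0 = 0 ∧ j ≤ 1) := by omega
          have h4 : ¬ (0 = 0 ∧ j = 1) := by omega
          rw [if_neg h3, if_neg h4, add_zero]
    · have h3 : ¬ (i = 0 ∧ j ≤ 1) := by omega
      have h4 : ¬ (i = 0 ∧ j = 1) := by omega
      rw [if_neg h3, if_neg h4, add_zero]
  have h2 : ∑ i ∈ range (n + 1), ∑ j ∈ range (n + 1),
      PowerSeries.C (if i = 0 ∧ j = 1 then O.φ O.κ else 0) * t ^ i * e ^ j =
      PowerSeries.C (O.φ O.κ) * e := by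
    rw [sum_eq_single 0, sum_eq_single 1]
    · simp
    · intro j _ hj
      simp [hj]
    · intro h
      simp only [mem_range] at h
      omega
    · intro i _ hi
      refine sum_eq_zero fun j _ => ?_
      simp [hi]
    · intro h
      simp only [mem_range] at h
      omega
  rw [← h2]
  unfold ee_P
  rw [← sum_add_distrib]
  refine sum_congr rfl fun i _ => ?_
  rw [← sum_add_distrib]
  refine sum_congr rfl fun j _ => ?_
  rw [h1]
  ring

theorem ee_P_wn (O : Ord ℝ n Q f θ) {F : ℕ → ℕ → ℤ} (hF : Norml n Q f F)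
    {t e : PowerSeries ℝ} {ρ τ r : ℝ} (hρ : 0 ≤ ρ) (hτ0 : 0 ≤ τ) (hτ1 : τ ≤ 1) (hr0 : 0 ≤ r)
    (hr1 : r ≤ 1) {K : ℕ} (ht : wn (fun a : ℝ => |a|) ρ K t ≤ τ)
    (he : wn (fun a : ℝ => |a|) ρ K e ≤ r) :
    wn (fun a : ℝ => |a|) ρ K (ee_P n F θ t e) ≤
      ((n : ℝ) + 1) ^ 2 * (Q : ℝ) ^ (3 * n) * (τ + r ^ 2) := by
  have hsm := subMul_abs
  unfold ee_P
  refine (wn_sum_le hsm hρ K _ _).trans ?_
  have h1 : ∀ i ∈ range (n + 1), wn (fun a : ℝ => |a|) ρ K (∑ j ∈ range (n + 1),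
      PowerSeries.C (ee_d n F θ i j) * t ^ i * e ^ j) ≤
      ((n : ℝ) + 1) * ((Q : ℝ) ^ (3 * n) * (τ + r ^ 2)) := by
    intro i hi
    refine (wn_sum_le hsm hρ K _ _).trans ?_
    have h2 : ∀ j ∈ range (n + 1), wn (fun a : ℝ => |a|) ρ K
        (PowerSeries.C (ee_d n F θ i j) * t ^ i * e ^ j) ≤ (Q : ℝ) ^ (3 * n) * (τ + r ^ 2) := by
      intro j hj
      rw [mem_range, Nat.lt_succ_iff] at hi hj
      rw [mul_assoc, ee_C_mul]
      by_cases hz : i = 0 ∧ j ≤ 1
      · have : ee_d n F θ i j = 0 := if_pos hz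
        rw [this, abs_zero, zero_mul]
        positivity
      · have hb := ee_d_bound O hF hi hj
        have h3 : wn (fun a : ℝ => |a|) ρ K (t ^ i * e ^ j) ≤ τ ^ i * r ^ j := by
          refine (wn_mul_le hsm hρ K _ _).trans ?_
          refine mul_le_mul ((wn_pow_le hsm hρ K _ _).trans
            (pow_le_pow_left₀ (wn_nonneg hsm hρ K _) ht _))
            ((wn_pow_le hsm hρ K _ _).trans (pow_le_pow_left₀ (wn_nonneg hsm hρ K _) he _))
            (wn_nonneg hsm hρ K _) (by positivity)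
        have h4 : τ ^ i * r ^ j ≤ τ + r ^ 2 := by
          by_cases hi0 : i = 0
          · have hj2 : 2 ≤ j := by omega
            subst hi0
            rw [pow_zero, one_mul]
            have := pow_le_pow_of_le_one hr0 hr1 hj2
            linarith
          · have h5 : τ ^ i ≤ τ ^ 1 := pow_le_pow_of_le_one hτ0 hτ1 (by omega)
            have h6 : r ^ j ≤ 1 := pow_le_one₀ hr0 hr1
            have h7 : τ ^ i * r ^ j ≤ τ ^ 1 * 1 :=
              mul_le_mul h5 h6 (by positivity) (by positivity)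
            rw [pow_one, mul_one] at h7
            have : 0 ≤ r ^ 2 := by positivity
            linarith
        exact mul_le_mul hb (h3.trans h4) (wn_nonneg hsm hρ K _) (by positivity)
    refine (sum_le_card_nsmul _ _ _ h2).trans (le_of_eq ?_)
    rw [card_range, nsmul_eq_mul]
    push_cast
    ring
  refine (sum_le_card_nsmul _ _ _ h1).trans (le_of_eq ?_)
  rw [card_range, nsmul_eq_mul]
  push_cast
  ring

theorem ee_H_wn (O : Ord ℝ n Q f θ) {F : ℕ → ℕ → ℤ} (hF : Norml n Q f F)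
    {t e e' : PowerSeries ℝ} {ρ τ r : ℝ} (hρ : 0 ≤ ρ) (hτ0 : 0 ≤ τ) (hτ1 : τ ≤ 1) (hr0 : 0 ≤ r)
    (hr1 : r ≤ 1) {K : ℕ} (ht : wn (fun a : ℝ => |a|) ρ K t ≤ τ)
    (he : wn (fun a : ℝ => |a|) ρ K e ≤ r) (he' : wn (fun a : ℝ => |a|) ρ K e' ≤ r) :
    wn (fun a : ℝ => |a|) ρ K (ee_H n F θ t e e') ≤
      (n : ℝ) * (((n : ℝ) + 1) ^ 2 * (Q : ℝ) ^ (3 * n)) * (τ + r) := by
  have hsm := subMul_abs
  unfold ee_H
  refine (wn_sum_le hsm hρ K _ _).trans ?_
  have h1 : ∀ i ∈ range (n + 1), wn (fun a : ℝ => |a|) ρ K (∑ j ∈ range (n + 1),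
      PowerSeries.C (ee_d n F θ i j) * t ^ i * ∑ a ∈ range j, e ^ a * e' ^ (j - 1 - a)) ≤
      ((n : ℝ) + 1) * ((Q : ℝ) ^ (3 * n) * (n * (τ + r))) := by
    intro i hi
    refine (wn_sum_le hsm hρ K _ _).trans ?_
    have h2 : ∀ j ∈ range (n + 1), wn (fun a : ℝ => |a|) ρ K
        (PowerSeries.C (ee_d n F θ i j) * t ^ i * ∑ a ∈ range j, e ^ a * e' ^ (j - 1 - a)) ≤
        (Q : ℝ) ^ (3 * n) * (n * (τ + r)) := by
      intro j hj
      rw [mem_range, Nat.lt_succ_iff] at hi hj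
      rw [mul_assoc, ee_C_mul]
      by_cases hz : i = 0 ∧ j ≤ 1
      · have : ee_d n F θ i j = 0 := if_pos hz
        rw [this, abs_zero, zero_mul]
        positivity
      · have hb := ee_d_bound O hF hi hj
        have h3 : wn (fun a : ℝ => |a|) ρ K (t ^ i * ∑ a ∈ range j, e ^ a * e' ^ (j - 1 - a)) ≤
            τ ^ i * ∑ a ∈ range j, r ^ (j - 1) := by
          refine (wn_mul_le hsm hρ K _ _).trans ?_
          refine mul_le_mul ((wn_pow_le hsm hρ K _ _).trans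
            (pow_le_pow_left₀ (wn_nonneg hsm hρ K _) ht _)) ?_
            (wn_nonneg hsm hρ K _) (by positivity)
          refine (wn_sum_le hsm hρ K _ _).trans (sum_le_sum fun a ha => ?_)
          rw [mem_range] at ha
          refine (wn_mul_le hsm hρ K _ _).trans ?_
          have e1 : r ^ (j - 1) = r ^ a * r ^ (j - 1 - a) := by
            rw [← pow_add]
            congr 1
            omega
          rw [e1]
          refine mul_le_mul ((wn_pow_le hsm hρ K _ _).trans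
            (pow_le_pow_left₀ (wn_nonneg hsm hρ K _) he _))
            ((wn_pow_le hsm hρ K _ _).trans (pow_le_pow_left₀ (wn_nonneg hsm hρ K _) he' _))
            (wn_nonneg hsm hρ K _) (by positivity)
        rw [sum_const, card_range, nsmul_eq_mul] at h3
        have hjn : (j : ℝ) ≤ n := by exact_mod_cast hj
        have h4 : τ ^ i * (j * r ^ (j - 1)) ≤ n * (τ + r) := by
          by_cases hi0 : i = 0
          · have hj2 : 2 ≤ j := by omega
            subst hi0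
            rw [pow_zero, one_mul]
            have h5 : r ^ (j - 1) ≤ r ^ 1 := pow_le_pow_of_le_one hr0 hr1 (by omega)
            rw [pow_one] at h5
            exact mul_le_mul hjn (by linarith) (by positivity) (by positivity)
          · have h5 : τ ^ i ≤ τ ^ 1 := pow_le_pow_of_le_one hτ0 hτ1 (by omega)
            rw [pow_one] at h5
            have h6 : r ^ (j - 1) ≤ 1 := pow_le_one₀ hr0 hr1
            calc τ ^ i * (j * r ^ (j - 1)) ≤ τ * (n * 1) :=
                  mul_le_mul h5 (mul_le_mul hjn h6 (by positivity) (by positivity))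
                    (by positivity) hτ0
              _ = n * τ := by ring
              _ ≤ n * (τ + r) := by
                  refine mul_le_mul_of_nonneg_left (by linarith) (by positivity)
        exact mul_le_mul hb (h3.trans h4) (wn_nonneg hsm hρ K _) (by positivity)
    refine (sum_le_card_nsmul _ _ _ h2).trans (le_of_eq ?_)
    rw [card_range, nsmul_eq_mul]
    push_cast
    ring
  refine (sum_le_card_nsmul _ _ _ h1).trans (le_of_eq ?_)
  rw [card_range, nsmul_eq_mul]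
  push_cast
  ring

/-- the constants are small compared to `b` -/
theorem ee_const (hn : 4 ≤ n) (hQ : 2 ^ n ≤ Q) :
    8 * n * (((n : ℝ) + 1) ^ 2 * (Q : ℝ) ^ (3 * n)) * (Q : ℝ) ^ (3 * n ^ 2) ≤ bb n Q := by
  have h1 := n_add_one_leR hn hQ
  have h2 := sixteen_leR hn hQ
  have h3 := n_leR hn hQ
  have hQ0 : (0 : ℝ) ≤ Q := by positivity
  have h4 : ((n : ℝ) + 1) ^ 2 ≤ (Q : ℝ) ^ 2 := pow_le_pow_left₀ (by positivity) h1 2
  have h5 : 8 * (n : ℝ) ≤ (Q : ℝ) * Q := mul_le_mul (by linarith) h3 (by positivity) hQ0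
  calc 8 * n * (((n : ℝ) + 1) ^ 2 * (Q : ℝ) ^ (3 * n)) * (Q : ℝ) ^ (3 * n ^ 2)
      ≤ ((Q : ℝ) * Q) * ((Q : ℝ) ^ 2 * (Q : ℝ) ^ (3 * n)) * (Q : ℝ) ^ (3 * n ^ 2) := by
        refine mul_le_mul_of_nonneg_right ?_ (by positivity)
        refine mul_le_mul h5 ?_ (by positivity) (by positivity)
        exact mul_le_mul_of_nonneg_right h4 (by positivity)
    _ = (Q : ℝ) ^ (4 + 3 * n + 3 * n ^ 2) := by
        rw [pow_add, pow_add]
        ring
    _ ≤ bb n Q := Qpow_le_bb hn hQ (by nlinarith)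

theorem ee_coeff_mul (g H : PowerSeries ℝ) (K : ℕ) (hg : ∀ k ≤ K, PowerSeries.coeff k g = 0) :
    PowerSeries.coeff (K + 1) (g * H) =
      PowerSeries.coeff (K + 1) g * PowerSeries.coeff 0 H := by
  rw [PowerSeries.coeff_mul, sum_eq_single (K + 1, 0)]
  · intro p hp hne
    rw [HasAntidiagonal.mem_antidiagonal] at hp
    have h1 : p.1 ≤ K := by
      by_contra hcon
      apply hne
      ext <;> simp <;> omega
    rw [hg p.1 h1, zero_mul]
  · intro h
    exact absurd (HasAntidiagonal.mem_antidiagonal.2 (by simp)) h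

/-- truncated power series -/
noncomputable def ee_tr (K : ℕ) (e : PowerSeries ℝ) : PowerSeries ℝ :=
  PowerSeries.mk fun k => if k ≤ K then PowerSeries.coeff k e else 0

theorem ee_tr_wn (ρ : ℝ) (K : ℕ) (e : PowerSeries ℝ) :
    wn (fun a : ℝ => |a|) ρ (K + 1) (ee_tr K e) = wn (fun a : ℝ => |a|) ρ K e := by
  unfold wn
  rw [sum_range_succ]
  have h1 : PowerSeries.coeff (K + 1) (ee_tr K e) = 0 := by
    unfold ee_tr
    rw [PowerSeries.coeff_mk, if_neg (by omega)]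
  rw [h1]
  simp only [abs_zero, zero_mul, add_zero]
  refine sum_congr rfl fun k hk => ?_
  rw [mem_range] at hk
  unfold ee_tr
  rw [PowerSeries.coeff_mk, if_pos (by omega)]

theorem ee_tr_wn_le {ρ : ℝ} (hρ : 0 ≤ ρ) (K : ℕ) (e : PowerSeries ℝ) :
    wn (fun a : ℝ => |a|) ρ 0 (ee_tr K e) ≤ wn (fun a : ℝ => |a|) ρ K e :=
  (wn_mono subMul_abs hρ (Nat.zero_le (K + 1)) _).trans (ee_tr_wn ρ K e).le

theorem est_e (O : Ord ℝ n Q f θ) {F : ℕ → ℕ → ℤ} (hF : Norml n Q f F) (t z : PowerSeries ℝ)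
    (ρ : ℝ) (hρ : 0 < ρ) (ht : ∀ K, wn (fun a : ℝ => |a|) ρ K t ≤ 1 / bb n Q ^ 2)
    (h0 : |PowerSeries.constantCoeff z - θ| ≤ 1 / bb n Q)
    (heq : evt n (cst (PowerSeries ℝ) F) t z = 0) (K : ℕ) :
    wn (fun a : ℝ => |a|) ρ K (z - PowerSeries.C θ) ≤ 1 / bb n Q := by
  have hn := hF.hn
  have hQ := hF.hQ
  have hsm := subMul_abs
  have hb1 := one_le_bb hn hQ
  have hb0 : 0 < bb n Q := by linarith
  set b := bb n Q with hbdef
  set κ := O.φ O.κ with hκdef
  set A : ℝ := ((n : ℝ) + 1) ^ 2 * (Q : ℝ) ^ (3 * n) with hA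
  set G : ℝ := (Q : ℝ) ^ (3 * n ^ 2) with hG
  have hnn : (4 : ℝ) ≤ n := by exact_mod_cast hn
  have hA0 : 0 ≤ A := by positivity
  have hQ1 := one_le_QR hn hQ
  have hG0 : 0 < G := by
    have : (0 : ℝ) < Q := by linarith
    positivity
  have hκ1 : 1 ≤ |κ| * G := by
    have := kappa_lower O hF
    rwa [Real.norm_eq_abs] at this
  have hκ0 : 0 < |κ| := by
    by_contra hcon
    have h : |κ| = 0 := le_antisymm (not_lt.1 hcon) (abs_nonneg _)
    rw [h, zero_mul] at hκ1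
    linarith
  have hconst : 8 * n * A * G ≤ b := ee_const hn hQ
  have hAG : 0 ≤ A * G := by positivity
  have hc6 : 6 * (A * G) ≤ b := by nlinarith
  have hr0 : 0 ≤ 1 / b := by positivity
  have hr1 : 1 / b ≤ 1 := by
    rw [div_le_one hb0]
    exact hb1
  have hτ0 : 0 ≤ 1 / b ^ 2 := by positivity
  have hτr : 1 / b ^ 2 = (1 / b) ^ 2 := by rw [div_pow, one_pow]
  have hτ1 : 1 / b ^ 2 ≤ 1 := by
    rw [hτr]
    exact pow_le_one₀ hr0 hr1
  have hτle : 1 / b ^ 2 ≤ 1 / b := by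
    rw [hτr]
    calc (1 / b) ^ 2 ≤ (1 / b) ^ 1 := pow_le_pow_of_le_one hr0 hr1 (by norm_num)
      _ = 1 / b := pow_one _
  set e := z - PowerSeries.C θ with he
  have hze : z = PowerSeries.C θ + e := by
    rw [he]
    ring
  rw [hze, ee_taylor O hF] at heq
  clear_value e
  -- the bound from the equation
  have hkey : ∀ K, wn (fun a : ℝ => |a|) ρ K e ≤ 1 / b →
      wn (fun a : ℝ => |a|) ρ K e ≤ 2 * (A * G) / b ^ 2 := by
    intro K hK
    have h1 := ee_P_wn O hF hρ.le hτ0 hτ1 hr0 hr1 (ht K) hK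
    have h2 : PowerSeries.C κ * e = - ee_P n F θ t e := by
      linear_combination heq
    have h3 := congrArg (wn (fun a : ℝ => |a|) ρ K) h2
    rw [ee_C_mul, wn_neg hsm] at h3
    rw [← h3, ← hτr] at h1
    have h4 : 0 ≤ wn (fun a : ℝ => |a|) ρ K e := wn_nonneg hsm hρ.le K e
    calc wn (fun a : ℝ => |a|) ρ K e = wn (fun a : ℝ => |a|) ρ K e * 1 := (mul_one _).symm
      _ ≤ wn (fun a : ℝ => |a|) ρ K e * (|κ| * G) := mul_le_mul_of_nonneg_left hκ1 h4
      _ = (|κ| * wn (fun a : ℝ => |a|) ρ K e) * G := by ring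
      _ ≤ (A * (1 / b ^ 2 + 1 / b ^ 2)) * G := mul_le_mul_of_nonneg_right h1 hG0.le
      _ = 2 * (A * G) / b ^ 2 := by ring
  have hthird : 2 * (A * G) / b ^ 2 ≤ 1 / 3 * (1 / b) := by
    rw [div_le_iff₀ (by positivity)]
    have : 1 / 3 * (1 / b) * b ^ 2 = 1 / 3 * b := by field_simp
    rw [this]
    linarith
  induction K with
  | zero =>
    unfold wn
    rw [zero_add, sum_range_one, pow_zero, mul_one]
    have : PowerSeries.coeff 0 e = PowerSeries.constantCoeff z - θ := by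
      rw [he, map_sub, PowerSeries.coeff_zero_eq_constantCoeff_apply,
        PowerSeries.coeff_zero_eq_constantCoeff_apply, PowerSeries.constantCoeff_C]
    rw [this]
    exact h0
  | succ K ih =>
    have h1 := (hkey K ih).trans hthird
    have hsplit : wn (fun a : ℝ => |a|) ρ (K + 1) e =
        wn (fun a : ℝ => |a|) ρ K e + |PowerSeries.coeff (K + 1) e| * ρ ^ (K + 1) := by
      unfold wn
      rw [sum_range_succ]
    set x := |PowerSeries.coeff (K + 1) e| with hx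
    set e' := ee_tr K e with he'
    have hg : ∀ k ≤ K, PowerSeries.coeff k (e - e') = 0 := by
      intro k hk
      rw [map_sub, he', ee_tr, PowerSeries.coeff_mk, if_pos hk, sub_self]
    have hg1 : PowerSeries.coeff (K + 1) (e - e') = PowerSeries.coeff (K + 1) e := by
      rw [map_sub, he', ee_tr, PowerSeries.coeff_mk, if_neg (by omega), sub_zero]
    have hcoef : κ * PowerSeries.coeff (K + 1) e = - PowerSeries.coeff (K + 1) (ee_P n F θ t e') -
        PowerSeries.coeff (K + 1) e * PowerSeries.coeff 0 (ee_H n F θ t e e') := by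
      have h2 := ee_P_sub n F θ t e e'
      have h3 : PowerSeries.C κ * e = - ee_P n F θ t e' - (e - e') * ee_H n F θ t e e' := by
        linear_combination heq - h2
      have h4 := congrArg (PowerSeries.coeff (K + 1)) h3
      rw [PowerSeries.coeff_C_mul, map_sub, map_neg, ee_coeff_mul _ _ K hg, hg1] at h4
      exact h4
    have hH : |PowerSeries.coeff 0 (ee_H n F θ t e e')| ≤ |κ| / 2 := by
      have h5 : wn (fun a : ℝ => |a|) ρ 0 e ≤ 1 / b :=
        (wn_mono hsm hρ.le (Nat.zero_le K) e).trans ih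
      have h6 : wn (fun a : ℝ => |a|) ρ 0 e' ≤ 1 / b := (ee_tr_wn_le hρ.le K e).trans ih
      have h7 := ee_H_wn O hF hρ.le hτ0 hτ1 hr0 hr1 (ht 0) h5 h6
      have h8 := coeff_le_wn hsm hρ.le (le_refl 0) (ee_H n F θ t e e')
      rw [pow_zero, mul_one] at h8
      have h9 : (n : ℝ) * A * (1 / b ^ 2 + 1 / b) ≤ |κ| / 2 := by
        calc (n : ℝ) * A * (1 / b ^ 2 + 1 / b) ≤ (n : ℝ) * A * (1 / b + 1 / b) :=
              mul_le_mul_of_nonneg_left (by linarith) (by positivity)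
          _ = (2 * n * A) * 1 / b := by ring
          _ ≤ (2 * n * A) * (|κ| * G) / b :=
              div_le_div_of_nonneg_right (mul_le_mul_of_nonneg_left hκ1 (by positivity)) hb0.le
          _ ≤ |κ| / 2 := by
              rw [div_le_iff₀ hb0]
              nlinarith
      exact (h8.trans h7).trans h9
    have hx0 : 0 ≤ x := abs_nonneg _
    have hmain : |κ| / 2 * x ≤ |PowerSeries.coeff (K + 1) (ee_P n F θ t e')| := by
      have h2 : |κ| * x = |κ * PowerSeries.coeff (K + 1) e| := (abs_mul _ _).symm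
      have h3 : |κ| * x ≤ |PowerSeries.coeff (K + 1) (ee_P n F θ t e')| + x * (|κ| / 2) := by
        rw [h2, hcoef]
        refine (abs_sub _ _).trans ?_
        rw [abs_neg, abs_mul]
        exact add_le_add le_rfl (mul_le_mul_of_nonneg_left hH hx0)
      linarith
    have hPe : |PowerSeries.coeff (K + 1) (ee_P n F θ t e')| * ρ ^ (K + 1) ≤
        A * (1 / b ^ 2 + (1 / b) ^ 2) := by
      have h5 : wn (fun a : ℝ => |a|) ρ (K + 1) e' ≤ 1 / b := by
        rw [he', ee_tr_wn]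
        exact ih
      exact (coeff_le_wn hsm hρ.le (le_refl (K + 1)) _).trans
        (ee_P_wn O hF hρ.le hτ0 hτ1 hr0 hr1 (ht (K + 1)) h5)
    have hρK : 0 ≤ ρ ^ (K + 1) := by positivity
    have hxb : x * ρ ^ (K + 1) ≤ 2 / 3 * (1 / b) := by
      have h2 : |κ| / 2 * (x * ρ ^ (K + 1)) ≤ A * (1 / b ^ 2 + (1 / b) ^ 2) := by
        calc |κ| / 2 * (x * ρ ^ (K + 1)) = (|κ| / 2 * x) * ρ ^ (K + 1) := by ring
          _ ≤ |PowerSeries.coeff (K + 1) (ee_P n F θ t e')| * ρ ^ (K + 1) :=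
              mul_le_mul_of_nonneg_right hmain hρK
          _ ≤ _ := hPe
      rw [← hτr] at h2
      have h3 : 0 ≤ x * ρ ^ (K + 1) := mul_nonneg hx0 hρK
      calc x * ρ ^ (K + 1) = x * ρ ^ (K + 1) * 1 := (mul_one _).symm
        _ ≤ x * ρ ^ (K + 1) * (|κ| * G) := mul_le_mul_of_nonneg_left hκ1 h3
        _ = 2 * (|κ| / 2 * (x * ρ ^ (K + 1))) * G := by ring
        _ ≤ 2 * (A * (1 / b ^ 2 + 1 / b ^ 2)) * G := by
            refine mul_le_mul_of_nonneg_right ?_ hG0.le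
            exact mul_le_mul_of_nonneg_left h2 (by norm_num)
        _ = 2 * (2 * (A * G) / b ^ 2) := by ring
        _ ≤ 2 * (1 / 3 * (1 / b)) := mul_le_mul_of_nonneg_left hthird (by norm_num)
        _ = 2 / 3 * (1 / b) := by ring
    rw [hsplit]
    linarith

end Pool.Agent.H72.ES
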