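import Pool.Agent.H72.ES.EvalSmall
import Pool.Agent.H72.ES.Taylor
import Pool.Agent.H72.ES.EstE

/-! # [ES-APPROX] The truncated branch approximates any near solution

`zT t T = θ + κ w_{<T}(t/κ²)`, where `w_{<T} = trunc T w`. Let `F~ = evt n F`.

(1) Let `P = evt d (C c_ij) (C κ² X) (C α + C κ * trunc T w) ∈ O.R[X]` for an array `c` over
`O.R` with `ν c_ij ≤ M` that vanishes unless `i + j ≤ d`, `j ≤ n`. Then for all `K`
`wn ν (1/b²) K P ≤ (d+1)(n+1) M (2 Q²)^n` (`ν(κ)²/b² ≤ 1`, `ν(α) + ν(κ) wn(w) ≤ Q² + 1`,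
`wn (trunc T w) ≤ wn w`), and its coefficients below `T` are those of
`evt d (C c_ij) (C κ² X) (C α + C κ * w) ∈ O.R⟦X⟧` (the difference is divisible by `X^T`).
Evaluating at `u = C (1/κ²) * t` (real series, `wn u ≤ τ b² ≤ 1/b²`) with `eval_small`
(`r = 1/b²`, `μ = τ b²`, `μ / r = τ b⁴`) gives, if the coefficients below `T` vanish,
`wn (evt d (C (φ c_ij)) t (zT t T)) ≤ (d+1)(n+1) M (2Q²)^n (τ b⁴)^T`.

(2) For `c = F` (`d = n`, `M = Q`): coefficients vanish by `br.eq`, so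
`wn (F~(t, zT)) ≤ b (τ b⁴)^T` (`(n+1)² Q (2Q²)^n ≤ Q^(3n+3) ≤ b`).

(3) `e = z - θ`, `e' = zT - θ`, `wn e ≤ 1/b`, `wn e' ≤ |κ| ∑_{1≤k<T} ν(w_k) (τ b²)^k ≤ 1/b`
(`τ b² ≤ 1/b³`...). `F~(t,z) - F~(t,zT) = ∑ c_ij t^i (e^j - e'^j) = κ (e - e') + (e - e') V`
with `wn V ≤ (n+1)² Q^(3n) n (τ + 1/b) ≤ |κ|/2` (`c_00` cancels, `c_01 = κ`, the others have
`i ≥ 1` or `j ≥ 2`). Hence `|κ| wn(e-e') ≤ ε + b(τb⁴)^T + wn(e-e') |κ|/2`, i.e.
`wn (z - zT) ≤ (2/|κ|)(ε + b (τ b⁴)^T) ≤ 2 b (ε + b (τ b⁴)^T)`. -/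

namespace Pool.Agent.H72.ES

open Finset Polynomial

variable {n Q : ℕ} {f : ℤ[X]} {θ : ℝ}

/-- the truncated branch evaluated at a real series `t` -/
noncomputable def zT {O : Ord ℝ n Q f θ} {F : ℕ → ℕ → ℤ} (br : Branch O F)
    (t : PowerSeries ℝ) (T : ℕ) : PowerSeries ℝ :=
  PowerSeries.C θ + PowerSeries.C (O.φ O.κ) *
    Polynomial.eval₂ ((PowerSeries.C (R := ℝ)).comp O.φ)
      (PowerSeries.C (1 / O.φ O.κ ^ 2) * t) (PowerSeries.trunc T br.w)

/-- `κ` at the real place -/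
theorem ap_kappa (O : Ord ℝ n Q f θ) {F : ℕ → ℕ → ℤ} (hF : Norml n Q f F) :
    0 < |O.φ O.κ| ∧ |O.φ O.κ| ≤ (Q : ℝ) ^ (2 * n) ∧ 1 ≤ |O.φ O.κ| * (Q : ℝ) ^ (3 * n ^ 2) := by
  have h1 := kappa_lower O hF
  rw [Real.norm_eq_abs] at h1
  refine ⟨?_, ?_, h1⟩
  · by_contra hcon
    have h : |O.φ O.κ| = 0 := le_antisymm (not_lt.1 hcon) (abs_nonneg _)
    rw [h, zero_mul] at h1
    linarith
  · rw [← Real.norm_eq_abs]
    exact (O.φ_le _).trans (kappa_bound O hF)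

/-- the argument of the truncated branch -/
noncomputable def ap_u (O : Ord ℝ n Q f θ) (t : PowerSeries ℝ) : PowerSeries ℝ :=
  PowerSeries.C (1 / O.φ O.κ ^ 2) * t

theorem ap_tau {τ b : ℝ} (hb : 1 ≤ b) (hτ0 : 0 ≤ τ) (hτb : τ * b ^ 5 ≤ 1) :
    τ * b ^ 2 ≤ 1 / b ^ 2 ∧ τ * b ^ 4 ≤ 1 / b ∧ τ ≤ 1 / b ∧ τ ≤ 1 := by
  have hb0 : 0 < b := by linarith
  have e5 : τ * b ^ 5 = τ * b ^ 4 * b := by ring
  have h4 : τ * b ^ 4 ≤ 1 / b := by
    rw [le_div_iff₀ hb0, ← e5]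
    exact hτb
  have hb1 : 1 / b ≤ 1 := by
    rw [div_le_one hb0]
    exact hb
  have h2 : τ * b ^ 2 ≤ 1 / b ^ 2 := by
    rw [le_div_iff₀ (by positivity)]
    have e4 : τ * b ^ 2 * b ^ 2 = τ * b ^ 4 := by ring
    rw [e4]
    exact h4.trans hb1
  have h3 : τ ≤ τ * b ^ 4 := by
    calc τ = τ * 1 := (mul_one _).symm
      _ ≤ τ * b ^ 4 := mul_le_mul_of_nonneg_left (one_le_pow₀ hb) hτ0
  exact ⟨h2, h4, h3.trans h4, (h3.trans h4).trans hb1⟩

theorem ap_u_wn (O : Ord ℝ n Q f θ) {F : ℕ → ℕ → ℤ} (hF : Norml n Q f F) {t : PowerSeries ℝ}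
    {ρ τ : ℝ} (hρ : 0 ≤ ρ) {K : ℕ} (hτ : wn (fun a : ℝ => |a|) ρ K t ≤ τ) :
    wn (fun a : ℝ => |a|) ρ K (ap_u O t) ≤ τ * bb n Q ^ 2 := by
  obtain ⟨h0, -, h1⟩ := ap_kappa O hF
  have hn := hF.hn
  have hQ := hF.hQ
  have hb1 := one_le_bb hn hQ
  have hτ0 : 0 ≤ τ := (wn_nonneg subMul_abs hρ K t).trans hτ
  unfold ap_u
  rw [ee_C_mul, mul_comm]
  refine mul_le_mul hτ ?_ (abs_nonneg _) hτ0
  have h2 : |1 / O.φ O.κ ^ 2| = 1 / |O.φ O.κ| ^ 2 := by
    rw [abs_div, abs_one, abs_pow]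
  rw [h2, div_le_iff₀ (by positivity)]
  have h3 : (Q : ℝ) ^ (3 * n ^ 2) ≤ bb n Q := Qpow_le_bb hn hQ (by nlinarith)
  have h4 : 1 ≤ |O.φ O.κ| * bb n Q :=
    h1.trans (mul_le_mul_of_nonneg_left h3 (abs_nonneg _))
  have h5 : 1 ≤ (|O.φ O.κ| * bb n Q) ^ 2 := one_le_pow₀ h4
  calc (1 : ℝ) ≤ (|O.φ O.κ| * bb n Q) ^ 2 := h5
    _ = bb n Q ^ 2 * |O.φ O.κ| ^ 2 := by ring

/-- bound for the homogenised value over the order -/
theorem ap_evt_wn (O : Ord ℝ n Q f θ) {F : ℕ → ℕ → ℤ} (hF : Norml n Q f F)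
    (w : PowerSeries O.R) (hw : ∀ K, wn O.ν (1 / bb n Q ^ 2) K w ≤ 1 / bb n Q)
    (d : ℕ) (c : ℕ → ℕ → O.R) (hc : ∀ i j, c i j ≠ 0 → i + j ≤ d ∧ j ≤ n) (M : ℝ)
    (hM : ∀ i j, O.ν (c i j) ≤ M) (K : ℕ) :
    wn O.ν (1 / bb n Q ^ 2) K (evt d (fun i j => PowerSeries.C (c i j))
      (PowerSeries.C O.κ ^ 2 * PowerSeries.X) (PowerSeries.C O.α + PowerSeries.C O.κ * w)) ≤
      (d + 1) * (n + 1) * M * (2 * (Q : ℝ) ^ 2) ^ n := by
  have hn := hF.hn
  have hQ := hF.hQ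
  have hsm := O.subMul
  have hb1 := one_le_bb hn hQ
  have hb0 : 0 < bb n Q := by linarith
  have hM0 : 0 ≤ M := (O.ν_nonneg _).trans (hM 0 0)
  have hρ : 0 ≤ 1 / bb n Q ^ 2 := by positivity
  have hQ1 := one_le_QR hn hQ
  have hκ := kappa_bound O hF
  have hκb : O.ν O.κ ≤ bb n Q := hκ.trans (Qpow_le_bb hn hQ (by nlinarith))
  have hκ0 := O.ν_nonneg O.κ
  set ρ := 1 / bb n Q ^ 2 with hρdef
  have hX : wn O.ν ρ K (PowerSeries.C O.κ ^ 2 * PowerSeries.X) ≤ 1 := by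
    refine (wn_mul_le hsm hρ K _ _).trans ?_
    have h1 : wn O.ν ρ K (PowerSeries.C O.κ ^ 2) ≤ bb n Q ^ 2 := by
      refine (wn_pow_le hsm hρ K _ _).trans ?_
      rw [wn_C hsm]
      exact pow_le_pow_left₀ hκ0 hκb 2
    calc wn O.ν ρ K (PowerSeries.C O.κ ^ 2) * wn O.ν ρ K PowerSeries.X
        ≤ bb n Q ^ 2 * ρ := mul_le_mul h1 (wn_X_le hsm hρ K) (wn_nonneg hsm hρ K _) (by positivity)
      _ = 1 := by
          rw [hρdef]
          field_simp
  have hZ : wn O.ν ρ K (PowerSeries.C O.α + PowerSeries.C O.κ * w) ≤ 2 * (Q : ℝ) ^ 2 := by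
    refine (wn_add_le hsm hρ K _ _).trans ?_
    rw [wn_C hsm]
    have h1 : O.ν O.α ≤ (Q : ℝ) ^ 2 := O.ν_α.trans (nQ_le hn hQ)
    have h2 : wn O.ν ρ K (PowerSeries.C O.κ * w) ≤ (Q : ℝ) ^ 2 := by
      refine (wn_mul_le hsm hρ K _ _).trans ?_
      rw [wn_C hsm]
      calc O.ν O.κ * wn O.ν ρ K w ≤ bb n Q * (1 / bb n Q) :=
            mul_le_mul hκb (hw K) (wn_nonneg hsm hρ K _) hb0.le
        _ = 1 := by field_simp
        _ ≤ (Q : ℝ) ^ 2 := one_le_pow₀ hQ1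
    linarith
  have h2Q : (1 : ℝ) ≤ 2 * (Q : ℝ) ^ 2 := by
    have : (1 : ℝ) ≤ (Q : ℝ) ^ 2 := one_le_pow₀ hQ1
    linarith
  unfold evt
  refine (wn_sum_le hsm hρ K _ _).trans ?_
  have hi : ∀ i ∈ range (d + 1), wn O.ν ρ K (∑ j ∈ range (d + 1 - i), PowerSeries.C (c i j) *
      (PowerSeries.C O.κ ^ 2 * PowerSeries.X) ^ (d - i - j) *
      (PowerSeries.C O.α + PowerSeries.C O.κ * w) ^ j) ≤
      (n + 1) * (M * (2 * (Q : ℝ) ^ 2) ^ n) := by
    intro i _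
    refine (wn_sum_le hsm hρ K _ _).trans ?_
    have hj : ∀ j ∈ range (d + 1 - i), wn O.ν ρ K (PowerSeries.C (c i j) *
        (PowerSeries.C O.κ ^ 2 * PowerSeries.X) ^ (d - i - j) *
        (PowerSeries.C O.α + PowerSeries.C O.κ * w) ^ j) ≤
        if j ≤ n then M * (2 * (Q : ℝ) ^ 2) ^ n else 0 := by
      intro j _
      by_cases h0 : c i j = 0
      · rw [h0, map_zero, zero_mul, zero_mul, wn_zero hsm]
        split_ifs <;> positivity
      · have hjn := (hc i j h0).2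
        rw [if_pos hjn, mul_assoc]
        refine (wn_mul_le hsm hρ K _ _).trans ?_
        rw [wn_C hsm]
        refine mul_le_mul (hM i j) ?_ (wn_nonneg hsm hρ K _) hM0
        refine (wn_mul_le hsm hρ K _ _).trans ?_
        have h1 : wn O.ν ρ K ((PowerSeries.C O.κ ^ 2 * PowerSeries.X) ^ (d - i - j)) ≤ 1 :=
          (wn_pow_le hsm hρ K _ _).trans (pow_le_one₀ (wn_nonneg hsm hρ K _) hX)
        have h2 : wn O.ν ρ K ((PowerSeries.C O.α + PowerSeries.C O.κ * w) ^ j) ≤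
            (2 * (Q : ℝ) ^ 2) ^ n :=
          ((wn_pow_le hsm hρ K _ _).trans (pow_le_pow_left₀ (wn_nonneg hsm hρ K _) hZ j)).trans
            (pow_le_pow_right₀ h2Q hjn)
        calc _ ≤ 1 * (2 * (Q : ℝ) ^ 2) ^ n :=
              mul_le_mul h1 h2 (wn_nonneg hsm hρ K _) zero_le_one
          _ = _ := one_mul _
    refine (sum_le_sum hj).trans ?_
    rw [← sum_filter, sum_const, nsmul_eq_mul]
    refine mul_le_mul_of_nonneg_right ?_ (by positivity)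
    have hcard : ((range (d + 1 - i)).filter fun j => j ≤ n).card ≤ n + 1 := by
      calc _ ≤ (range (n + 1)).card := by
            refine card_le_card fun j hj => ?_
            rw [mem_filter] at hj
            rw [mem_range]
            omega
        _ = n + 1 := card_range _
    exact_mod_cast hcard
  refine (sum_le_card_nsmul _ _ _ hi).trans (le_of_eq ?_)
  rw [card_range, nsmul_eq_mul]
  push_cast
  ring

theorem ap_trunc_wn (O : Ord ℝ n Q f θ) {ρ : ℝ} (hρ : 0 ≤ ρ) (w : PowerSeries O.R) (T K : ℕ) :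
    wn O.ν ρ K ((PowerSeries.trunc T w : O.R[X]) : PowerSeries O.R) ≤ wn O.ν ρ K w := by
  unfold wn
  refine sum_le_sum fun k _ => mul_le_mul_of_nonneg_right ?_ (pow_nonneg hρ _)
  rw [Polynomial.coeff_coe, PowerSeries.coeff_trunc]
  split_ifs
  · exact le_rfl
  · rw [O.ν_zero]
    exact O.ν_nonneg _

/-- replacing `w` by its truncation does not change the low coefficients -/
theorem ap_dvd (O : Ord ℝ n Q f θ) (w : PowerSeries O.R) (T d : ℕ) (c : ℕ → ℕ → O.R) :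
    PowerSeries.X ^ T ∣
      evt d (fun i j => PowerSeries.C (c i j)) (PowerSeries.C O.κ ^ 2 * PowerSeries.X)
        (PowerSeries.C O.α + PowerSeries.C O.κ * ((PowerSeries.trunc T w : O.R[X]) :
          PowerSeries O.R)) -
      evt d (fun i j => PowerSeries.C (c i j)) (PowerSeries.C O.κ ^ 2 * PowerSeries.X)
        (PowerSeries.C O.α + PowerSeries.C O.κ * w) := by
  have h0 : (PowerSeries.X : PowerSeries O.R) ^ T ∣
      ((PowerSeries.trunc T w : O.R[X]) : PowerSeries O.R) - w := by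
    rw [PowerSeries.X_pow_dvd_iff]
    intro m hm
    rw [map_sub, Polynomial.coeff_coe, PowerSeries.coeff_trunc, if_pos hm, sub_self]
  unfold evt
  rw [← sum_sub_distrib]
  refine Finset.dvd_sum fun i _ => ?_
  rw [← sum_sub_distrib]
  refine Finset.dvd_sum fun j _ => ?_
  rw [← mul_sub]
  refine Dvd.dvd.mul_left ?_ _
  refine dvd_trans ?_ (sub_dvd_pow_sub_pow _ _ j)
  have h1 : PowerSeries.C O.α + PowerSeries.C O.κ * ((PowerSeries.trunc T w : O.R[X]) :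
      PowerSeries O.R) - (PowerSeries.C O.α + PowerSeries.C O.κ * w) =
      PowerSeries.C O.κ * (((PowerSeries.trunc T w : O.R[X]) : PowerSeries O.R) - w) := by ring
  rw [h1]
  exact Dvd.dvd.mul_left h0 _

/-- only the coefficients with `i + j ≤ n` matter -/
theorem ap_evt_congr {S : Type*} [CommRing S] (n : ℕ) {c c' : ℕ → ℕ → S}
    (h : ∀ i j, i + j ≤ n → c i j = c' i j) (t z : S) : evt n c t z = evt n c' t z := by
  unfold evt
  refine sum_congr rfl fun i hi => sum_congr rfl fun j hj => ?_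
  rw [mem_range] at hi hj
  rw [h i j (by omega)]

theorem eval_zT (O : Ord ℝ n Q f θ) {F : ℕ → ℕ → ℤ} (hF : Norml n Q f F) (br : Branch O F)
    (t : PowerSeries ℝ) (ρ : ℝ) (hρ : 0 < ρ) (τ : ℝ)
    (hτ : ∀ K, wn (fun a : ℝ => |a|) ρ K t ≤ τ) (hτb : τ * bb n Q ^ 5 ≤ 1)
    (d : ℕ) (c : ℕ → ℕ → O.R) (hc : ∀ i j, c i j ≠ 0 → i + j ≤ d ∧ j ≤ n) (M : ℝ)
    (hM : ∀ i j, O.ν (c i j) ≤ M) (T : ℕ)
    (hT : ∀ k < T, PowerSeries.coeff k (evt d (fun i j => PowerSeries.C (c i j))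
      (PowerSeries.C O.κ ^ 2 * PowerSeries.X) (PowerSeries.C O.α + PowerSeries.C O.κ * br.w)) = 0)
    (K : ℕ) :
    wn (fun a : ℝ => |a|) ρ K (evt d (fun i j => PowerSeries.C (O.φ (c i j))) t (zT br t T)) ≤
      (d + 1) * (n + 1) * M * (2 * (Q : ℝ) ^ 2) ^ n * (τ * bb n Q ^ 4) ^ T := by
  have hn := hF.hn
  have hQ := hF.hQ
  have hb1 := one_le_bb hn hQ
  have hb0 : 0 < bb n Q := by linarith
  have hτ0 : 0 ≤ τ := (wn_nonneg subMul_abs hρ.le 0 t).trans (hτ 0)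
  obtain ⟨hκ0, -, -⟩ := ap_kappa O hF
  have hκne : O.φ O.κ ≠ 0 := abs_pos.1 hκ0
  obtain ⟨ht2, -, -, -⟩ := ap_tau hb1 hτ0 hτb
  let P : O.R[X] := evt d (fun i j => Polynomial.C (c i j)) (Polynomial.C O.κ ^ 2 * Polynomial.X)
    (Polynomial.C O.α + Polynomial.C O.κ * PowerSeries.trunc T br.w)
  have hcoe : (P : PowerSeries O.R) = evt d (fun i j => PowerSeries.C (c i j))
      (PowerSeries.C O.κ ^ 2 * PowerSeries.X)
        (PowerSeries.C O.α + PowerSeries.C O.κ * ((PowerSeries.trunc T br.w : O.R[X]) :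
          PowerSeries O.R)) := by
    have h := evt_map (Polynomial.coeToPowerSeries.ringHom (R := O.R)) d
      (fun i j => Polynomial.C (c i j)) (Polynomial.C O.κ ^ 2 * Polynomial.X)
      (Polynomial.C O.α + Polynomial.C O.κ * PowerSeries.trunc T br.w)
    simp only [Polynomial.coeToPowerSeries.ringHom_apply, map_add, map_mul, map_pow] at h
    simp only [Polynomial.coe_C, Polynomial.coe_X] at h
    exact h
  have heval : Polynomial.eval₂ ((PowerSeries.C (R := ℝ)).comp O.φ) (ap_u O t) P =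
      evt d (fun i j => PowerSeries.C (O.φ (c i j))) t (zT br t T) := by
    have h := evt_map (Polynomial.eval₂RingHom ((PowerSeries.C (R := ℝ)).comp O.φ) (ap_u O t)) d
      (fun i j => Polynomial.C (c i j)) (Polynomial.C O.κ ^ 2 * Polynomial.X)
      (Polynomial.C O.α + Polynomial.C O.κ * PowerSeries.trunc T br.w)
    simp only [Polynomial.coe_eval₂RingHom, Polynomial.eval₂_C, Polynomial.eval₂_add,
      Polynomial.eval₂_mul, Polynomial.eval₂_pow, Polynomial.eval₂_X, RingHom.comp_apply] at h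
    have e1 : PowerSeries.C (O.φ O.κ) ^ 2 * ap_u O t = t := by
      unfold ap_u
      rw [← mul_assoc, ← map_pow, ← map_mul, mul_one_div_cancel (pow_ne_zero 2 hκne), map_one,
        one_mul]
    have e2 : PowerSeries.C (O.φ O.α) + PowerSeries.C (O.φ O.κ) *
        Polynomial.eval₂ ((PowerSeries.C (R := ℝ)).comp O.φ) (ap_u O t)
          (PowerSeries.trunc T br.w) = zT br t T := by
      rw [O.φ_α]
      rfl
    rw [e1, e2] at h
    exact h
  rw [← heval]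
  have hwn : ∀ K, wn O.ν (1 / bb n Q ^ 2) K (P : PowerSeries O.R) ≤
      (d + 1) * (n + 1) * M * (2 * (Q : ℝ) ^ 2) ^ n := by
    intro K
    rw [hcoe]
    exact ap_evt_wn O hF _ (fun K => (ap_trunc_wn O (by positivity) br.w T K).trans (br.bd K))
      d c hc M hM K
  have hcoef : ∀ k < T, P.coeff k = 0 := by
    intro k hk
    rw [← Polynomial.coeff_coe, hcoe]
    have h1 := (PowerSeries.X_pow_dvd_iff.1 (ap_dvd O br.w T d c)) k hk
    rw [map_sub, hT k hk, sub_zero] at h1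
    exact h1
  refine (eval_small O P (1 / bb n Q ^ 2) (by positivity) _ hwn T hcoef ρ hρ.le (ap_u O t)
    (τ * bb n Q ^ 2) (fun K => ap_u_wn O hF hρ.le (hτ K)) ht2 K).trans (le_of_eq ?_)
  congr 2
  field_simp

theorem wn_zT_le (O : Ord ℝ n Q f θ) {F : ℕ → ℕ → ℤ} (hF : Norml n Q f F) (br : Branch O F)
    (t : PowerSeries ℝ) (ρ : ℝ) (hρ : 0 < ρ) (τ : ℝ)
    (hτ : ∀ K, wn (fun a : ℝ => |a|) ρ K t ≤ τ) (hτb : τ * bb n Q ^ 5 ≤ 1) (T K : ℕ) :
    wn (fun a : ℝ => |a|) ρ K (zT br t T - PowerSeries.C θ) ≤ 1 / bb n Q := by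
  have hn := hF.hn
  have hQ := hF.hQ
  have hb1 := one_le_bb hn hQ
  have hb0 : 0 < bb n Q := by linarith
  have hτ0 : 0 ≤ τ := (wn_nonneg subMul_abs hρ.le 0 t).trans (hτ 0)
  obtain ⟨hκ0, hκ1, -⟩ := ap_kappa O hF
  obtain ⟨ht2, ht4, -, -⟩ := ap_tau hb1 hτ0 hτb
  have h1 : zT br t T - PowerSeries.C θ = PowerSeries.C (O.φ O.κ) *
      Polynomial.eval₂ ((PowerSeries.C (R := ℝ)).comp O.φ) (ap_u O t)
        (PowerSeries.trunc T br.w) := by
    unfold zT ap_u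
    ring
  rw [h1, ee_C_mul]
  have hc0 : ∀ k < 1, (PowerSeries.trunc T br.w).coeff k = 0 := by
    intro k hk
    obtain rfl : k = 0 := by omega
    rw [PowerSeries.coeff_trunc]
    split_ifs
    · rw [PowerSeries.coeff_zero_eq_constantCoeff_apply, br.h0]
    · rfl
  have h2 := eval_small O (PowerSeries.trunc T br.w) (1 / bb n Q ^ 2) (by positivity)
    (1 / bb n Q) (fun K => (ap_trunc_wn O (by positivity) br.w T K).trans (br.bd K)) 1 hc0 ρ
    hρ.le (ap_u O t) (τ * bb n Q ^ 2) (fun K => ap_u_wn O hF hρ.le (hτ K)) ht2 K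
  have e1 : τ * bb n Q ^ 2 / (1 / bb n Q ^ 2) = τ * bb n Q ^ 4 := by field_simp
  rw [e1, pow_one] at h2
  have h3 : |O.φ O.κ| ≤ bb n Q := hκ1.trans (Qpow_le_bb hn hQ (by nlinarith))
  have h4 : 1 / bb n Q * (τ * bb n Q ^ 4) ≤ 1 / bb n Q * (1 / bb n Q) :=
    mul_le_mul_of_nonneg_left ht4 (by positivity)
  calc |O.φ O.κ| * wn (fun a : ℝ => |a|) ρ K (Polynomial.eval₂ ((PowerSeries.C (R := ℝ)).comp O.φ)
        (ap_u O t) (PowerSeries.trunc T br.w))
      ≤ bb n Q * (1 / bb n Q * (1 / bb n Q)) :=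
        mul_le_mul h3 (h2.trans h4) (wn_nonneg subMul_abs hρ.le K _) hb0.le
    _ = 1 / bb n Q := by field_simp

theorem approx_z (O : Ord ℝ n Q f θ) {F : ℕ → ℕ → ℤ} (hF : Norml n Q f F) (br : Branch O F)
    (t z : PowerSeries ℝ) (ρ : ℝ) (hρ : 0 < ρ) (τ : ℝ)
    (hτ : ∀ K, wn (fun a : ℝ => |a|) ρ K t ≤ τ) (hτb : τ * bb n Q ^ 5 ≤ 1)
    (he : ∀ K, wn (fun a : ℝ => |a|) ρ K (z - PowerSeries.C θ) ≤ 1 / bb n Q) (ε : ℝ)
    (hE : ∀ K, wn (fun a : ℝ => |a|) ρ K (evt n (cst (PowerSeries ℝ) F) t z) ≤ ε)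
    (T K : ℕ) :
    wn (fun a : ℝ => |a|) ρ K (z - zT br t T) ≤
      2 * bb n Q * (ε + bb n Q * (τ * bb n Q ^ 4) ^ T) := by
  have hn := hF.hn
  have hQ := hF.hQ
  have hsm := subMul_abs
  have hb1 := one_le_bb hn hQ
  have hb0 : 0 < bb n Q := by linarith
  have hτ0 : 0 ≤ τ := (wn_nonneg subMul_abs hρ.le 0 t).trans (hτ 0)
  obtain ⟨hκ0, hκ1, hκ2⟩ := ap_kappa O hF
  obtain ⟨ht2, ht4, htb, ht1⟩ := ap_tau hb1 hτ0 hτb
  have hQ1 := one_le_QR hn hQ
  have hr0 : 0 ≤ 1 / bb n Q := by positivity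
  have hr1 : 1 / bb n Q ≤ 1 := by
    rw [div_le_one hb0]
    exact hb1
  -- the value at the truncated branch
  have hval : wn (fun a : ℝ => |a|) ρ K (evt n (cst (PowerSeries ℝ) F) t (zT br t T)) ≤
      bb n Q * (τ * bb n Q ^ 4) ^ T := by
    let c : ℕ → ℕ → O.R := fun i j => if i + j ≤ n then (F i j : O.R) else 0
    have hc : ∀ i j, c i j ≠ 0 → i + j ≤ n ∧ j ≤ n := by
      intro i j h
      by_cases hij : i + j ≤ n
      · exact ⟨hij, by omega⟩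
      · exact absurd (if_neg hij) h
    have hM : ∀ i j, O.ν (c i j) ≤ (Q : ℝ) := by
      intro i j
      by_cases hij : i + j ≤ n
      · have h1 : c i j = (F i j : O.R) := if_pos hij
        rw [h1]
        refine (O.ν_int _).trans ?_
        have h2 := hF.bound i j hij
        have h3 : ((|F i j| : ℤ) : ℝ) ≤ ((Q : ℤ) : ℝ) := by exact_mod_cast h2
        push_cast at h3
        exact h3
      · have h1 : c i j = 0 := if_neg hij
        rw [h1, O.ν_zero]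
        positivity
    have hT0 : ∀ k < T, PowerSeries.coeff k (evt n (fun i j => PowerSeries.C (c i j))
        (PowerSeries.C O.κ ^ 2 * PowerSeries.X)
        (PowerSeries.C O.α + PowerSeries.C O.κ * br.w)) = 0 := by
      intro k _
      have h1 : evt n (fun i j => PowerSeries.C (c i j)) (PowerSeries.C O.κ ^ 2 * PowerSeries.X)
          (PowerSeries.C O.α + PowerSeries.C O.κ * br.w) = 0 := by
        rw [← br.eq]
        refine ap_evt_congr n (fun i j hij => ?_) _ _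
        have h2 : c i j = (F i j : O.R) := if_pos hij
        rw [h2, map_intCast]
        rfl
      rw [h1, map_zero]
    have h1 := eval_zT O hF br t ρ hρ τ hτ hτb n c hc Q hM T hT0 K
    have h2 : evt n (fun i j => PowerSeries.C (O.φ (c i j))) t (zT br t T) =
        evt n (cst (PowerSeries ℝ) F) t (zT br t T) := by
      refine ap_evt_congr n (fun i j hij => ?_) _ _
      have h2 : c i j = (F i j : O.R) := if_pos hij
      rw [h2, map_intCast, map_intCast]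
      rfl
    rw [h2] at h1
    refine h1.trans (mul_le_mul_of_nonneg_right ?_ (by positivity))
    have h4 := n_add_one_leR hn hQ
    have h5 := two_pow_leR (n := n) hQ
    calc ((n : ℝ) + 1) * (n + 1) * Q * (2 * (Q : ℝ) ^ 2) ^ n
        = ((n : ℝ) + 1) * (n + 1) * Q * ((2 : ℝ) ^ n * (Q : ℝ) ^ (2 * n)) := by
          rw [mul_pow, ← pow_mul]
      _ ≤ (Q : ℝ) * Q * Q * ((Q : ℝ) * (Q : ℝ) ^ (2 * n)) := by
          refine mul_le_mul ?_ ?_ (by positivity) (by positivity)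
          · refine mul_le_mul_of_nonneg_right ?_ (by positivity)
            exact mul_le_mul h4 h4 (by positivity) (by positivity)
          · exact mul_le_mul_of_nonneg_right h5 (by positivity)
      _ = (Q : ℝ) ^ (2 * n + 4) := by ring
      _ ≤ bb n Q := Qpow_le_bb hn hQ (by nlinarith)
  set e := z - PowerSeries.C θ with hedef
  set e' := zT br t T - PowerSeries.C θ with hedef'
  have hz : z = PowerSeries.C θ + e := by
    rw [hedef]
    ring
  have hz' : zT br t T = PowerSeries.C θ + e' := by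
    rw [hedef']
    ring
  have hδ : z - zT br t T = e - e' := by
    rw [hedef, hedef']
    ring
  have he' : wn (fun a : ℝ => |a|) ρ K e' ≤ 1 / bb n Q :=
    wn_zT_le O hF br t ρ hρ τ hτ hτb T K
  have heK := he K
  have hEK := hE K
  rw [hδ]
  rw [hz'] at hval
  rw [hz] at hEK
  clear_value e e'
  have t1 := ee_taylor O hF t e
  have t2 := ee_taylor O hF t e'
  have t3 := ee_P_sub n F θ t e e'
  have hmain : PowerSeries.C (O.φ O.κ) * (e - e') =
      evt n (cst (PowerSeries ℝ) F) t (PowerSeries.C θ + e) -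
      evt n (cst (PowerSeries ℝ) F) t (PowerSeries.C θ + e') -
      (e - e') * ee_H n F θ t e e' := by
    rw [t1, t2, ← t3]
    ring
  have hH := ee_H_wn O hF hρ.le hτ0 ht1 hr0 hr1 (hτ K) heK he'
  have hH2 : wn (fun a : ℝ => |a|) ρ K (ee_H n F θ t e e') ≤ |O.φ O.κ| / 2 := by
    refine hH.trans ?_
    have hconst := ee_const hn hQ
    set A : ℝ := ((n : ℝ) + 1) ^ 2 * (Q : ℝ) ^ (3 * n) with hA
    set G : ℝ := (Q : ℝ) ^ (3 * n ^ 2) with hG
    have hA0 : 0 ≤ A := by positivity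
    have hnn : (0 : ℝ) ≤ n := Nat.cast_nonneg _
    calc (n : ℝ) * A * (τ + 1 / bb n Q) ≤ (n : ℝ) * A * (1 / bb n Q + 1 / bb n Q) :=
          mul_le_mul_of_nonneg_left (by linarith) (by positivity)
      _ = (2 * n * A) * 1 / bb n Q := by ring
      _ ≤ (2 * n * A) * (|O.φ O.κ| * G) / bb n Q :=
          div_le_div_of_nonneg_right (mul_le_mul_of_nonneg_left hκ2 (by positivity)) hb0.le
      _ ≤ |O.φ O.κ| / 2 := by
          rw [div_le_iff₀ hb0]
          nlinarith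
  set N := wn (fun a : ℝ => |a|) ρ K (e - e') with hN
  have hN0 : 0 ≤ N := wn_nonneg hsm hρ.le K _
  have h5 : |O.φ O.κ| * N ≤ (ε + bb n Q * (τ * bb n Q ^ 4) ^ T) + N * (|O.φ O.κ| / 2) := by
    have h6 := congrArg (wn (fun a : ℝ => |a|) ρ K) hmain
    rw [ee_C_mul] at h6
    rw [hN, h6]
    refine (wn_sub_le hsm hρ.le K _ _).trans (add_le_add ?_ ?_)
    · exact (wn_sub_le hsm hρ.le K _ _).trans (add_le_add hEK hval)
    · exact (wn_mul_le hsm hρ.le K _ _).trans (mul_le_mul_of_nonneg_left hH2 hN0)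
  set R := ε + bb n Q * (τ * bb n Q ^ 4) ^ T with hR
  have hG3 : (Q : ℝ) ^ (3 * n ^ 2) ≤ bb n Q := Qpow_le_bb hn hQ (by nlinarith)
  have h6 : 1 ≤ |O.φ O.κ| * bb n Q :=
    hκ2.trans (mul_le_mul_of_nonneg_left hG3 (abs_nonneg _))
  calc N = N * 1 := (mul_one _).symm
    _ ≤ N * (|O.φ O.κ| * bb n Q) := mul_le_mul_of_nonneg_left h6 hN0
    _ = 2 * bb n Q * (|O.φ O.κ| * N - N * (|O.φ O.κ| / 2)) := by ring
    _ ≤ 2 * bb n Q * R := mul_le_mul_of_nonneg_left (by linarith) (by positivity)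

end Pool.Agent.H72.ES
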