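import Pool.Agent.H72.ES.Biv

/-! # [ES-BIVNORM] `ℓ¹` norms of bivariate integer polynomials

`L1 p = ∑ |coeff|`, `L2 p = ∑_j L1 (coeff j)` are submultiplicative and subadditive.
`L1 (p') ≤ deg(p) L1 p`. For `Dop F p = F_y p_x - F_x p_y`:
`L2 (Dop F p) ≤ (n L2 F)(dx L2 p) + (n L2 F)(natDegree p * L2 p)` if the `x`- and `y`-degrees of
`F` are `≤ n` and the `x`-degree of `p` is `≤ dx` (all coefficients have `natDegree ≤ dx`). -/

namespace Pool.Agent.H72.ES

open Finset Polynomial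

section LN

variable {R : Type*} [CommRing R] {ν : R → ℝ}

/-- sum of the sizes of the coefficients of a polynomial -/
noncomputable def LN (ν : R → ℝ) (p : R[X]) : ℝ := ∑ i ∈ p.support, ν (p.coeff i)

theorem LN_eq_sum (h0 : ν 0 = 0) (p : R[X]) {s : Finset ℕ} (hs : p.support ⊆ s) :
    LN ν p = ∑ i ∈ s, ν (p.coeff i) := by
  refine sum_subset hs fun i _ hi => ?_
  rw [notMem_support_iff.1 hi, h0]

theorem LN_eq_range (h0 : ν 0 = 0) (p : R[X]) {K : ℕ} (hK : p.natDegree ≤ K) :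
    LN ν p = ∑ i ∈ range (K + 1), ν (p.coeff i) := by
  refine LN_eq_sum h0 p fun i hi => ?_
  rw [mem_range]
  exact Nat.lt_succ_of_le ((le_natDegree_of_mem_supp i hi).trans hK)

theorem LN_eq_wn (h0 : ν 0 = 0) (p : R[X]) {K : ℕ} (hK : p.natDegree ≤ K) :
    LN ν p = wn ν 1 K (p : PowerSeries R) := by
  rw [LN_eq_range h0 p hK]
  simp [wn]

theorem LN_nonneg (h : SubMul ν) (p : R[X]) : 0 ≤ LN ν p := sum_nonneg fun _ _ => h.nonneg _

theorem LN_add_le (h : SubMul ν) (p q : R[X]) : LN ν (p + q) ≤ LN ν p + LN ν q := by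
  have h1 : (p + q).natDegree ≤ max p.natDegree q.natDegree := natDegree_add_le p q
  rw [LN_eq_wn h.zero (p + q) h1, LN_eq_wn h.zero p (le_max_left _ _),
    LN_eq_wn h.zero q (le_max_right _ _), Polynomial.coe_add]
  exact wn_add_le h zero_le_one _ _ _

theorem LN_neg (h : SubMul ν) (p : R[X]) : LN ν (-p) = LN ν p := by
  unfold LN
  rw [support_neg]
  refine sum_congr rfl fun i _ => ?_
  rw [coeff_neg, h.neg]

theorem LN_mul_le (h : SubMul ν) (p q : R[X]) : LN ν (p * q) ≤ LN ν p * LN ν q := by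
  have h1 : (p * q).natDegree ≤ p.natDegree + q.natDegree := natDegree_mul_le
  rw [LN_eq_wn h.zero (p * q) h1, LN_eq_wn h.zero p (Nat.le_add_right _ _),
    LN_eq_wn h.zero q (Nat.le_add_left _ _), Polynomial.coe_mul]
  exact wn_mul_le h zero_le_one _ _ _

theorem LN_zero : LN ν (0 : R[X]) = 0 := by simp [LN]

theorem LN_C (h : SubMul ν) (a : R) : LN ν (C a) = ν a := by
  rw [LN_eq_range h.zero (C a) (K := 0) (by simp)]
  simp

theorem SubMul.LN (h : SubMul ν) : SubMul (LN ν) where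
  nonneg := LN_nonneg h
  zero := LN_zero
  neg := LN_neg h
  add := LN_add_le h
  mul := LN_mul_le h
  one := by
    rw [← C_1, LN_C h]
    exact h.one

theorem LN_X_le (h : SubMul ν) : Pool.Agent.H72.ES.LN ν (X : R[X]) ≤ 1 := by
  rw [LN_eq_range h.zero X (K := 1) natDegree_X_le, sum_range_succ, sum_range_one]
  simp only [coeff_X_zero, coeff_X_one, h.zero, zero_add]
  exact h.one

theorem LN_X_pow_le (h : SubMul ν) (j : ℕ) : Pool.Agent.H72.ES.LN ν (X ^ j : R[X]) ≤ 1 :=
  (h.LN.pow X j).trans (pow_le_one₀ (LN_nonneg h X) (LN_X_le h))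

theorem SubMul.mul_natCast (h : SubMul ν) (a : R) (m : ℕ) : ν (a * (m : R)) ≤ m * ν a := by
  induction m with
  | zero => simp [h.zero]
  | succ m ih =>
    push_cast
    rw [mul_add, mul_one, add_mul, one_mul]
    exact (h.add _ _).trans (by linarith)

theorem coeff_le_LN (h : SubMul ν) (p : R[X]) (i : ℕ) :
    ν (p.coeff i) ≤ Pool.Agent.H72.ES.LN ν p := by
  by_cases hi : i ∈ p.support
  · exact single_le_sum (f := fun i => ν (p.coeff i)) (fun _ _ => h.nonneg _) hi
  · rw [notMem_support_iff.1 hi, h.zero]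
    exact LN_nonneg h p

theorem LN_derivative_le (h : SubMul ν) (p : R[X]) {K : ℕ} (hK : p.natDegree ≤ K) :
    Pool.Agent.H72.ES.LN ν (derivative p) ≤ K * Pool.Agent.H72.ES.LN ν p := by
  have h1 : (derivative p).natDegree ≤ K := (natDegree_derivative_le p).trans (by omega)
  rw [LN_eq_range h.zero (derivative p) h1, LN_eq_range h.zero p hK, sum_range_succ]
  have h2 : (derivative p).coeff K = 0 := by
    rw [coeff_derivative, coeff_eq_zero_of_natDegree_lt (by omega), zero_mul]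
  rw [h2, h.zero, add_zero, sum_range_succ']
  have h3 : ∀ i ∈ range K, ν ((derivative p).coeff i) ≤ K * ν (p.coeff (i + 1)) := by
    intro i hi
    rw [mem_range] at hi
    rw [coeff_derivative]
    have := h.mul_natCast (p.coeff (i + 1)) (i + 1)
    push_cast at this
    refine this.trans (mul_le_mul_of_nonneg_right ?_ (h.nonneg _))
    exact_mod_cast hi
  have h4 := sum_le_sum h3
  rw [← mul_sum] at h4
  rw [mul_add]
  have h5 : 0 ≤ (K : ℝ) * ν (p.coeff 0) := mul_nonneg (Nat.cast_nonneg _) (h.nonneg _)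
  linarith

end LN

theorem subMul_intAbs : SubMul (fun a : ℤ => |(a : ℝ)|) where
  nonneg := fun _ => abs_nonneg _
  zero := by simp
  neg := fun a => by simp
  add := fun a b => by push_cast; exact abs_add_le _ _
  mul := fun a b => by push_cast; exact (abs_mul _ _).le
  one := by simp

theorem L1_eq_LN : L1 = LN (fun a : ℤ => |(a : ℝ)|) := rfl

theorem subMul_L1 : SubMul L1 := subMul_intAbs.LN

theorem L2_eq_LN : L2 = LN L1 := rfl

theorem subMul_L2 : SubMul L2 := subMul_L1.LN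

theorem L1_nonneg (p : ℤ[X]) : 0 ≤ L1 p := subMul_L1.nonneg p

theorem L2_nonneg (p : ℤ[X][X]) : 0 ≤ L2 p := subMul_L2.nonneg p

theorem L1_add_le (p q : ℤ[X]) : L1 (p + q) ≤ L1 p + L1 q := subMul_L1.add p q

theorem L1_mul_le (p q : ℤ[X]) : L1 (p * q) ≤ L1 p * L1 q := subMul_L1.mul p q

theorem L1_neg (p : ℤ[X]) : L1 (-p) = L1 p := subMul_L1.neg p

theorem L1_one : L1 1 = 1 := by
  rw [← C_1, L1_eq_LN, LN_C subMul_intAbs]
  simp

theorem coeff_le_L1 (p : ℤ[X]) (i : ℕ) : |((p.coeff i : ℤ) : ℝ)| ≤ L1 p :=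
  coeff_le_LN subMul_intAbs p i

theorem L1_sum_le {ι : Type*} (s : Finset ι) (g : ι → ℤ[X]) :
    L1 (∑ i ∈ s, g i) ≤ ∑ i ∈ s, L1 (g i) := subMul_L1.sum s g

theorem L2_add_le (p q : ℤ[X][X]) : L2 (p + q) ≤ L2 p + L2 q := subMul_L2.add p q

theorem L2_mul_le (p q : ℤ[X][X]) : L2 (p * q) ≤ L2 p * L2 q := subMul_L2.mul p q

theorem L2_neg (p : ℤ[X][X]) : L2 (-p) = L2 p := subMul_L2.neg p

theorem L2_sum_le {ι : Type*} (s : Finset ι) (g : ι → ℤ[X][X]) :
    L2 (∑ i ∈ s, g i) ≤ ∑ i ∈ s, L2 (g i) := subMul_L2.sum s g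

theorem L2_prod_le {ι : Type*} (s : Finset ι) (g : ι → ℤ[X][X]) :
    L2 (∏ i ∈ s, g i) ≤ ∏ i ∈ s, L2 (g i) := by
  classical
  induction s using Finset.induction_on with
  | empty => simpa using subMul_L2.one
  | insert a s ha ih =>
    rw [prod_insert ha, prod_insert ha]
    exact (L2_mul_le _ _).trans (mul_le_mul_of_nonneg_left ih (L2_nonneg _))

/-- an array with entries `≤ M`, zero unless `i + j ≤ d`, `j ≤ e` -/
theorem L2_toP_le (d e : ℕ) (A : ℕ → ℕ → ℤ) (M : ℝ) (hM : ∀ i j, |((A i j : ℤ) : ℝ)| ≤ M)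
    (hA : ∀ i j, A i j ≠ 0 → i + j ≤ d ∧ j ≤ e) : L2 (toP d A) ≤ (d + 1) * (e + 1) * M := by
  have hM0 : 0 ≤ M := (abs_nonneg _).trans (hM 0 0)
  have h1 : ∀ i j : ℕ, L2 (C (C (A i j) * X ^ i) * X ^ j : ℤ[X][X]) ≤ |((A i j : ℤ) : ℝ)| := by
    intro i j
    refine (L2_mul_le _ _).trans ?_
    have h2 : L2 (C (C (A i j) * X ^ i) : ℤ[X][X]) ≤ |((A i j : ℤ) : ℝ)| := by
      rw [L2_eq_LN, LN_C subMul_L1]
      refine (L1_mul_le _ _).trans ?_
      have h3 : L1 (C (A i j)) = |((A i j : ℤ) : ℝ)| := by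
        rw [L1_eq_LN, LN_C subMul_intAbs]
      rw [h3]
      exact mul_le_of_le_one_right (abs_nonneg _) (LN_X_pow_le subMul_intAbs i)
    have h4 : L2 (X ^ j : ℤ[X][X]) ≤ 1 := LN_X_pow_le subMul_L1 j
    calc _ ≤ |((A i j : ℤ) : ℝ)| * 1 := mul_le_mul h2 h4 (L2_nonneg _) (abs_nonneg _)
      _ = _ := mul_one _
  unfold toP
  refine (L2_sum_le _ _).trans ?_
  have h5 : ∀ i ∈ range (d + 1), L2 (∑ j ∈ range (d + 1 - i), C (C (A i j) * X ^ i) * X ^ j :
      ℤ[X][X]) ≤ (e + 1) * M := by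
    intro i _
    refine (L2_sum_le _ _).trans ?_
    have h6 : ∀ j ∈ range (d + 1 - i), L2 (C (C (A i j) * X ^ i) * X ^ j : ℤ[X][X]) ≤
        if j ∈ range (e + 1) then M else 0 := by
      intro j _
      refine (h1 i j).trans ?_
      split_ifs with hj
      · exact hM i j
      · have : A i j = 0 := by
          by_contra hne
          exact hj (mem_range.2 (Nat.lt_succ_of_le (hA i j hne).2))
        simp [this]
    refine (sum_le_sum h6).trans ?_
    rw [← sum_filter]
    rw [sum_const, nsmul_eq_mul]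
    refine mul_le_mul_of_nonneg_right ?_ hM0
    have h7 : ((range (d + 1 - i)).filter (fun j => j ∈ range (e + 1))).card ≤
        (range (e + 1)).card := card_le_card fun j hj => (mem_filter.1 hj).2
    rw [card_range] at h7
    exact_mod_cast h7
  refine (sum_le_sum h5).trans ?_
  rw [sum_const, nsmul_eq_mul, card_range]
  push_cast
  rw [mul_assoc]

theorem coeff_dX (p : ℤ[X][X]) (j : ℕ) : (dX p).coeff j = derivative (p.coeff j) := by
  unfold dX
  rw [finsetSum_coeff]
  simp only [coeff_C_mul, coeff_X_pow, mul_ite, mul_one, mul_zero]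
  rw [sum_ite_eq p.support j]
  split_ifs with hj
  · rfl
  · rw [notMem_support_iff.1 hj, derivative_zero]

theorem natDegree_dX_le (p : ℤ[X][X]) : (dX p).natDegree ≤ p.natDegree := by
  rw [natDegree_le_iff_coeff_eq_zero]
  intro j hj
  rw [coeff_dX, coeff_eq_zero_of_natDegree_lt hj, derivative_zero]

theorem L2_dX_le (p : ℤ[X][X]) {dx : ℕ} (hpx : ∀ j, (p.coeff j).natDegree ≤ dx) :
    L2 (dX p) ≤ dx * L2 p := by
  rw [L2_eq_LN, LN_eq_range subMul_L1.zero (dX p) (natDegree_dX_le p),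
    LN_eq_range subMul_L1.zero p le_rfl, mul_sum]
  refine sum_le_sum fun j _ => ?_
  rw [coeff_dX]
  exact LN_derivative_le subMul_intAbs (p.coeff j) (hpx j)

theorem natDegree_coeff_mul_le {p q : ℤ[X][X]} {a b : ℕ} (hp : ∀ j, (p.coeff j).natDegree ≤ a)
    (hq : ∀ j, (q.coeff j).natDegree ≤ b) (j : ℕ) : ((p * q).coeff j).natDegree ≤ a + b := by
  rw [coeff_mul]
  refine natDegree_sum_le_of_forall_le _ _ fun x _ => ?_
  exact natDegree_mul_le.trans (Nat.add_le_add (hp _) (hq _))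

theorem natDegree_coeff_derivative_le {p : ℤ[X][X]} {a : ℕ} (hp : ∀ j, (p.coeff j).natDegree ≤ a)
    (j : ℕ) : ((derivative p).coeff j).natDegree ≤ a := by
  rw [coeff_derivative]
  refine natDegree_mul_le.trans ?_
  have : ((j : ℤ[X]) + 1).natDegree = 0 := by
    have h := natDegree_natCast (R := ℤ) (j + 1)
    push_cast at h
    exact h
  rw [this, add_zero]
  exact hp _

theorem natDegree_coeff_dX_le {p : ℤ[X][X]} {a : ℕ} (hp : ∀ j, (p.coeff j).natDegree ≤ a)
    (j : ℕ) : ((dX p).coeff j).natDegree ≤ a := by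
  rw [coeff_dX]
  exact (natDegree_derivative_le _).trans ((Nat.sub_le _ _).trans (hp j))

/-- one application of the derivation -/
theorem Dop_bound {n : ℕ} (F p : ℤ[X][X]) (hFy : F.natDegree ≤ n)
    (hFx : ∀ j, (F.coeff j).natDegree ≤ n) (dx : ℕ) (hpx : ∀ j, (p.coeff j).natDegree ≤ dx) :
    (∀ j, ((Dop F p).coeff j).natDegree ≤ dx + n) ∧ (Dop F p).natDegree ≤ p.natDegree + n ∧
      L2 (Dop F p) ≤ n * L2 F * (dx + p.natDegree) * L2 p := by
  refine ⟨fun j => ?_, ?_, ?_⟩
  · unfold Dop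
    rw [coeff_sub]
    refine (natDegree_sub_le _ _).trans (max_le ?_ ?_)
    · rw [add_comm]
      exact natDegree_coeff_mul_le (natDegree_coeff_derivative_le hFx)
        (natDegree_coeff_dX_le hpx) j
    · rw [add_comm]
      exact natDegree_coeff_mul_le (natDegree_coeff_dX_le hFx)
        (natDegree_coeff_derivative_le hpx) j
  · unfold Dop
    refine (natDegree_sub_le _ _).trans (max_le ?_ ?_)
    · refine natDegree_mul_le.trans ?_
      have h1 := natDegree_derivative_le F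
      have h2 := natDegree_dX_le p
      omega
    · refine natDegree_mul_le.trans ?_
      have h1 := natDegree_derivative_le p
      have h2 := natDegree_dX_le F
      omega
  · unfold Dop
    refine (subMul_L2.sub _ _).trans ?_
    have h1 : L2 (derivative F * dX p) ≤ (n * L2 F) * (dx * L2 p) := by
      refine (L2_mul_le _ _).trans ?_
      exact mul_le_mul (LN_derivative_le subMul_L1 F hFy) (L2_dX_le p hpx) (L2_nonneg _)
        (mul_nonneg (Nat.cast_nonneg _) (L2_nonneg _))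
    have h2 : L2 (dX F * derivative p) ≤ (n * L2 F) * (p.natDegree * L2 p) := by
      refine (L2_mul_le _ _).trans ?_
      exact mul_le_mul (L2_dX_le F hFx) (LN_derivative_le subMul_L1 p le_rfl) (L2_nonneg _)
        (mul_nonneg (Nat.cast_nonneg _) (L2_nonneg _))
    calc _ ≤ (n * L2 F) * (dx * L2 p) + (n * L2 F) * (p.natDegree * L2 p) := add_le_add h1 h2
      _ = _ := by ring

end Pool.Agent.H72.ES
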