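import Pool.Agent.H72.ES.Bridge

/-! # Flexes at infinity: contact with lines -/

namespace Pool.Agent.H72.ES

open Finset Polynomial

/-- restriction of the curve to a line, in terms of the Taylor coefficients -/
theorem ev_line (n : ℕ) (G : ℕ → ℕ → ℤ) (θ β x : ℝ) (hx : x ≠ 0) :
    ev n (cst ℝ G) x (θ * x + β) =
      ∑ i ∈ range (n + 1), ∑ j ∈ range (n + 1 - i), tc n G θ i j * β ^ j * x ^ (n - i - j) := by
  have ht : (1 / x) * x = 1 := by field_simp
  rw [ev_eq_evt n (cst ℝ G) x (θ * x + β) (1 / x) ht]
  have h1 : 1 / x * (θ * x + β) = θ + β * (1 / x) := by field_simp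
  rw [h1, evt_taylor, mul_sum]
  refine sum_congr rfl fun i hi => ?_
  rw [mul_sum]
  simp only [mem_range] at hi
  have hsub : range (n + 1 - i) ⊆ range (n + 1) := range_subset_range.2 (by omega)
  rw [← sum_subset hsub]
  · refine sum_congr rfl fun j hj => ?_
    simp only [mem_range] at hj
    have h2 : x ^ n = x ^ (n - i - j) * x ^ i * x ^ j := by
      rw [← pow_add, ← pow_add]
      congr 1
      omega
    rw [h2, mul_pow]
    have h3 : x ^ i * (1 / x) ^ i = 1 := by rw [← mul_pow, mul_comm, ht, one_pow]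
    have h4 : x ^ j * (1 / x) ^ j = 1 := by rw [← mul_pow, mul_comm, ht, one_pow]
    calc x ^ (n - i - j) * x ^ i * x ^ j * (tc n G θ i j * (1 / x) ^ i * (β ^ j * (1 / x) ^ j))
        = tc n G θ i j * β ^ j * x ^ (n - i - j) * (x ^ i * (1 / x) ^ i) *
            (x ^ j * (1 / x) ^ j) := by ring
      _ = _ := by rw [h3, h4]; ring
  · intro j hj hj'
    simp only [mem_range] at hj hj'
    have : tc n G θ i j = 0 := by
      unfold tc
      refine sum_eq_zero fun l hl => ?_
      simp only [mem_range] at hl
      rw [Nat.choose_eq_zero_of_lt (by omega)]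
      simp
    rw [this]
    ring

/-- the restriction to the line as a polynomial -/
theorem line_poly (n : ℕ) (G : ℕ → ℕ → ℤ) (θ β : ℝ) :
    ev n (cst ℝ[X] G) X (C θ * X + C β) =
      ∑ i ∈ range (n + 1), ∑ j ∈ range (n + 1 - i),
        C (tc n G θ i j * β ^ j) * X ^ (n - i - j) := by
  refine Polynomial.eq_of_infinite_eval_eq _ _ ?_
  refine Set.Infinite.mono (s := {x : ℝ | x ≠ 0}) ?_ ?_
  · intro x hx
    have hx0 : x ≠ 0 := hx
    show Polynomial.eval x _ = Polynomial.eval x _
    have h1 := ev_map (Polynomial.evalRingHom x) n (cst ℝ[X] G) X (C θ * X + C β)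
    rw [cst_map] at h1
    simp only [coe_evalRingHom, eval_X, eval_add, eval_mul, eval_C] at h1
    rw [h1, ev_line n G θ β x hx0]
    simp only [eval_finsetSum, eval_mul, eval_C, eval_pow, eval_X]
  · have : {x : ℝ | x ≠ 0} = ({0} : Set ℝ)ᶜ := by
      ext x
      simp
    rw [this]
    exact (Set.finite_singleton (0 : ℝ)).infinite_compl

theorem coeff_line (n : ℕ) (a : ℕ → ℕ → ℝ) (s : ℕ) (hs : s ≤ n) :
    (∑ i ∈ range (n + 1), ∑ j ∈ range (n + 1 - i), C (a i j) * X ^ (n - i - j) : ℝ[X]).coeff
      (n - s) = ∑ i ∈ range (s + 1), a i (s - i) := by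
  simp only [finsetSum_coeff, coeff_C_mul, coeff_X_pow]
  have hsub : range (s + 1) ⊆ range (n + 1) := range_subset_range.2 (by omega)
  rw [← sum_subset hsub]
  · refine sum_congr rfl fun i hi => ?_
    simp only [mem_range] at hi
    rw [sum_eq_single (s - i)]
    · rw [if_pos (by omega), mul_one]
    · intro j hj hne
      simp only [mem_range] at hj
      rw [if_neg (by omega), mul_zero]
    · intro h
      exact absurd (mem_range.2 (by omega)) h
  · intro i hi hi'
    simp only [mem_range] at hi hi'
    refine sum_eq_zero fun j hj => ?_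
    simp only [mem_range] at hj
    rw [if_neg (by omega), mul_zero]

theorem coeff_line_big (n : ℕ) (a : ℕ → ℕ → ℝ) (N : ℕ) (hN : n < N) :
    (∑ i ∈ range (n + 1), ∑ j ∈ range (n + 1 - i), C (a i j) * X ^ (n - i - j) : ℝ[X]).coeff
      N = 0 := by
  simp only [finsetSum_coeff, coeff_C_mul, coeff_X_pow]
  refine sum_eq_zero fun i _ => sum_eq_zero fun j _ => ?_
  rw [if_neg (by omega), mul_zero]

/-- if no line has contact of order `≥ 3` with the curve at a real point at infinity then the flex
polynomial does not vanish at the real roots of the leading polynomial -/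
theorem flexP_ne_of_contact {n : ℕ} (hn : 4 ≤ n) (G : ℕ → ℕ → ℤ)
    (hirr : Irreducible (leadQ n G))
    (h : ∀ θ β : ℝ, n - 2 ≤ (ev n (cst ℝ[X] G) X (C θ * X + C β)).natDegree) :
    ∀ θ : ℝ, aeval θ (part n 0 G) = 0 → aeval θ (flexP n G) ≠ 0 := by
  intro θ hθ h0
  have e00 : tc n G θ 0 0 = 0 := by
    rw [tc_zero_zero, ← part_zero]
    exact hθ
  -- `f'(θ) ≠ 0`
  have hmap : (part n 0 G).map (algebraMap ℤ ℚ) = leadQ n G := by
    unfold part leadQ
    rw [Polynomial.map_sum]
    refine sum_congr rfl fun j _ => ?_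
    simp
  have e01 : tc n G θ 0 1 ≠ 0 := by
    rw [tc_zero_one, ← part_zero]
    intro h1
    have hsep : (leadQ n G).Separable := hirr.separable
    obtain ⟨u, v, huv⟩ := hsep
    have h2 : aeval θ (leadQ n G) = 0 := by
      rw [← hmap, aeval_map_algebraMap]
      exact hθ
    have h3 : aeval θ (derivative (leadQ n G)) = 0 := by
      rw [← hmap, derivative_map, aeval_map_algebraMap]
      exact h1
    have h4 := congrArg (aeval θ) huv
    rw [map_add, map_mul, map_mul, h2, h3, map_one] at h4
    simp at h4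
  set β : ℝ := - tc n G θ 1 0 / tc n G θ 0 1 with hβ
  have hfl : flexv n G θ = 0 := by
    rw [flexP_eval] at h0
    linarith
  have hdeg := h θ β
  have hlt : (ev n (cst ℝ[X] G) X (C θ * X + C β)).natDegree < n - 2 := by
    rw [line_poly]
    refine lt_of_le_of_lt (b := n - 3) ?_ (by omega)
    rw [natDegree_le_iff_coeff_eq_zero]
    intro N hN
    by_cases hNn : n < N
    · exact coeff_line_big n (fun i j => tc n G θ i j * β ^ j) N hNn
    · obtain ⟨s, hs, rfl⟩ : ∃ s, s ≤ 2 ∧ N = n - s := ⟨n - N, by omega, by omega⟩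
      rw [coeff_line n (fun i j => tc n G θ i j * β ^ j) s (by omega)]
      interval_cases s
      · simp [e00]
      · rw [sum_range_succ, sum_range_one]
        simp only [Nat.sub_zero, pow_one, Nat.sub_self, pow_zero, mul_one]
        rw [hβ]
        field_simp
        ring
      · rw [sum_range_succ, sum_range_succ, sum_range_one]
        simp only [Nat.sub_zero, Nat.sub_self, pow_zero, mul_one]
        norm_num
        have h5 : (tc n G θ 0 2 * β ^ 2 + tc n G θ 1 1 * β + tc n G θ 2 0) * tc n G θ 0 1 ^ 2 =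
            flexv n G θ := by
          rw [hβ]
          unfold flexv
          field_simp
          ring
        rw [hfl] at h5
        exact (mul_eq_zero.1 h5).resolve_right (pow_ne_zero _ e01)
  omega

end Pool.Agent.H72.ES
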