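import Pool.Agent.H72.ES.Expand

/-! # [ES-CONIC] An integer conic of moderate height does not pass through a huge point

`q : Fin 6 → ℤ` nonzero, `|q m| ≤ Z`, `P = (x,y)` on the curve near `θ`, `|x| > (b^20 Z)^(n+1)`.
`q(P) = ∑ q m * mono x y m = q'_0 x² + q'_1 x + q'_2 + q'_3 u + q'_4 w + q'_5 u²` where
`u = y - θx - be`, `w = x u - ga` (see `mono_eq_psi`: `y = θx + be + u`,
`xy = θx² + be x + ga + w`, `y² = θ²x² + 2θ be x + (be²+2θ ga) + 2be u + 2θ w + u²`), so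
`q'_0 = q_0 + q_4 θ + q_5 θ²`, `q'_1 = q_1 + q_3 θ + q_4 be + 2 q_5 θ be`, ...,
`|q'_j| ≤ Z b^8`, `|u|, |w|, u² ≤ 1` (`expand3`).
* `(q_0,q_4,q_5) ≠ 0`: `τ = q_0 + q_4 α + q_5 α² ≠ 0` in `O.R` (`O.indep`, `2 < n`),
  `ν τ ≤ Z (1 + Q² + Q⁴) ≤ Z b`, Liouville `|q'_0| ≥ 1/(Q^(4n) (Z b)^n) ≥ 1/(b² Z)^n / b`;
  `|q(P)| ≥ |q'_0| x² - 5 Z b^8 |x| > 0`.
* else `(q_1, q_3) ≠ 0`: `q(P) = (q_1 + q_3 θ) x + (q_2 + q_3 be) + q_3 u`, same argument.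
* else `q(P) = q_2 ≠ 0`. -/

namespace Pool.Agent.H72.ES

open Finset Polynomial

variable {n Q : ℕ} {f : ℤ[X]} {θ : ℝ}

theorem conic_coeff (p0 p1 p2 : ℤ)
    (h : (C p0 + C p1 * Polynomial.X + C p2 * Polynomial.X ^ 2 : ℤ[X]) = 0) :
    p0 = 0 ∧ p1 = 0 ∧ p2 = 0 := by
  have h0 := congrArg (fun p => coeff p 0) h
  have h1 := congrArg (fun p => coeff p 1) h
  have h2 := congrArg (fun p => coeff p 2) h
  simp only [coeff_add, coeff_C_mul, coeff_X_pow, coeff_X, coeff_C, coeff_zero] at h0 h1 h2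
  norm_num at h0 h1 h2
  exact ⟨h0, h1, h2⟩

theorem sixteen_le_pow448 : (16 : ℝ) ≤ 2 ^ 448 := by
  calc (16 : ℝ) = 2 ^ 4 := by norm_num
    _ ≤ 2 ^ 448 := pow_le_pow_right₀ (by norm_num) (by norm_num)

theorem conic_lower (O : Ord ℝ n Q f θ) (hn : 4 ≤ n) (hQ : 2 ^ n ≤ Q) (p0 p1 p2 : ℤ)
    (hp : ¬ (p0 = 0 ∧ p1 = 0 ∧ p2 = 0)) (Z : ℝ) (hZ : 1 ≤ Z) (h0 : |(p0 : ℝ)| ≤ Z)
    (h1 : |(p1 : ℝ)| ≤ Z) (h2 : |(p2 : ℝ)| ≤ Z) (X : ℝ) (hX : (bb n Q ^ 20 * Z) ^ (n + 1) < X) :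
    5 * (Z * bb n Q ^ 8) < |(p0 : ℝ) + p1 * θ + p2 * θ ^ 2| * X := by
  have hb1 := one_le_bb hn hQ
  have hb0 := bb_pos hn hQ
  have hb16 : (16 : ℝ) ≤ bb n Q := sixteen_le_pow448.trans (two_pow_le_bb hn hQ)
  set b := bb n Q with hb
  have hQ16 := sixteen_leR hn hQ
  have hτ : (p0 : O.R) + p1 * O.α + p2 * O.α ^ 2 ≠ 0 := by
    intro h
    have h3 := O.indep (C p0 + C p1 * Polynomial.X + C p2 * Polynomial.X ^ 2) (by
      have : (C p0 + C p1 * Polynomial.X + C p2 * Polynomial.X ^ 2 : ℤ[X]).natDegree ≤ 2 := by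
        compute_degree
      omega) (by simpa using h)
    exact hp (conic_coeff p0 p1 p2 h3)
  have hνα : O.ν O.α ≤ (Q : ℝ) ^ 2 := O.ν_α.trans (nQ_le hn hQ)
  have hν0 := O.ν_nonneg O.α
  have hZ0 : 0 ≤ Z := by linarith
  have hν : O.ν ((p0 : O.R) + p1 * O.α + p2 * O.α ^ 2) ≤ Z * b := by
    have e0 : O.ν (p0 : O.R) ≤ Z := (O.ν_int p0).trans h0
    have e1 : O.ν ((p1 : O.R) * O.α) ≤ Z * (Q : ℝ) ^ 2 :=
      (O.ν_mul _ _).trans (mul_le_mul ((O.ν_int p1).trans h1) hνα hν0 hZ0)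
    have e2' : O.ν (O.α ^ 2) ≤ ((Q : ℝ) ^ 2) ^ 2 := by
      rw [pow_two, pow_two ((Q : ℝ) ^ 2)]
      exact (O.ν_mul _ _).trans (mul_le_mul hνα hνα hν0 (by positivity))
    have e2 : O.ν ((p2 : O.R) * O.α ^ 2) ≤ Z * ((Q : ℝ) ^ 2) ^ 2 :=
      (O.ν_mul _ _).trans (mul_le_mul ((O.ν_int p2).trans h2) e2' (O.ν_nonneg _) hZ0)
    have e3 := O.ν_add ((p0 : O.R) + p1 * O.α) (p2 * O.α ^ 2)
    have e4 := O.ν_add (p0 : O.R) (p1 * O.α)
    have e5 : 1 + (Q : ℝ) ^ 2 + ((Q : ℝ) ^ 2) ^ 2 ≤ b := by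
      have e6 : (Q : ℝ) ^ 5 ≤ b := Qpow_le_bb hn hQ (by nlinarith)
      have e7 : (1 : ℝ) ≤ Q := by linarith
      have e8 : 1 + (Q : ℝ) ^ 2 + ((Q : ℝ) ^ 2) ^ 2 ≤ (Q : ℝ) ^ 5 := by
        have e9 : (1 : ℝ) ≤ (Q : ℝ) ^ 4 := one_le_pow₀ e7
        have e10 : (Q : ℝ) ^ 2 ≤ (Q : ℝ) ^ 4 := pow_le_pow_right₀ e7 (by norm_num)
        have e11 : ((Q : ℝ) ^ 2) ^ 2 = (Q : ℝ) ^ 4 := by ring
        have e12 : (Q : ℝ) ^ 5 = Q * (Q : ℝ) ^ 4 := by ring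
        rw [e11, e12]
        nlinarith
      linarith
    have e6 : Z * (1 + (Q : ℝ) ^ 2 + ((Q : ℝ) ^ 2) ^ 2) ≤ Z * b := mul_le_mul_of_nonneg_left e5 hZ0
    linarith
  have hφ : O.φ ((p0 : O.R) + p1 * O.α + p2 * O.α ^ 2) = (p0 : ℝ) + p1 * θ + p2 * θ ^ 2 := by
    simp only [map_add, map_mul, map_pow, map_intCast, O.φ_α]
  have hL := O.liouville _ hτ
  rw [hφ, Real.norm_eq_abs] at hL
  set A := |(p0 : ℝ) + p1 * θ + p2 * θ ^ 2| with hA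
  have hA0 : 0 ≤ A := abs_nonneg _
  have hL2 : 1 ≤ A * (b * (Z * b) ^ n) := by
    refine hL.trans (mul_le_mul_of_nonneg_left ?_ hA0)
    apply mul_le_mul (Qpow_le_bb hn hQ (by nlinarith)) _ (pow_nonneg (O.ν_nonneg _) _) hb0.le
    exact pow_le_pow_left₀ (O.ν_nonneg _) hν n
  have hApos : 0 < A := by
    rcases hA0.lt_or_eq with h | h
    · exact h
    · rw [← h, zero_mul] at hL2; linarith
  have hbig : (b ^ 19 * Z) * (b * (Z * b) ^ n) ≤ (b ^ 20 * Z) ^ (n + 1) := by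
    have e1 : (b ^ 20 * Z) ^ (n + 1) = (b ^ 20 * Z) * ((b ^ 19) ^ n * (Z * b) ^ n) := by
      rw [pow_succ, ← mul_pow]
      have : b ^ 19 * (Z * b) = b ^ 20 * Z := by ring
      rw [this]; ring
    rw [e1]
    have e2 : (1 : ℝ) ≤ (b ^ 19) ^ n := one_le_pow₀ (one_le_pow₀ hb1)
    have e3 : 0 ≤ (b ^ 20 * Z) * (Z * b) ^ n := by positivity
    calc (b ^ 19 * Z) * (b * (Z * b) ^ n) = 1 * ((b ^ 20 * Z) * (Z * b) ^ n) := by ring
      _ ≤ (b ^ 19) ^ n * ((b ^ 20 * Z) * (Z * b) ^ n) := mul_le_mul_of_nonneg_right e2 e3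
      _ = _ := by ring
  have h5 : 5 * b ^ 8 ≤ b ^ 19 := by
    have e1 : (5 : ℝ) ≤ b ^ 11 := by
      have : b ≤ b ^ 11 := le_self_pow₀ hb1 (by norm_num)
      linarith
    calc 5 * b ^ 8 ≤ b ^ 11 * b ^ 8 := mul_le_mul_of_nonneg_right e1 (by positivity)
      _ = b ^ 19 := by ring
  calc 5 * (Z * b ^ 8) = (5 * b ^ 8) * Z := by ring
    _ ≤ b ^ 19 * Z := mul_le_mul_of_nonneg_right h5 hZ0
    _ = (b ^ 19 * Z) * 1 := by ring
    _ ≤ (b ^ 19 * Z) * (A * (b * (Z * b) ^ n)) := mul_le_mul_of_nonneg_left hL2 (by positivity)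
    _ = A * ((b ^ 19 * Z) * (b * (Z * b) ^ n)) := by ring
    _ ≤ A * (b ^ 20 * Z) ^ (n + 1) := mul_le_mul_of_nonneg_left hbig hA0
    _ < A * X := mul_lt_mul_of_pos_left hX hApos

theorem conic_abs3 {Z c1 c2 c3 : ℝ} {a1 a2 a3 t1 t2 t3 : ℝ} (hZ : 0 ≤ Z) (h1 : |a1| ≤ Z)
    (h2 : |a2| ≤ Z) (h3 : |a3| ≤ Z) (k1 : |t1| ≤ c1) (k2 : |t2| ≤ c2) (k3 : |t3| ≤ c3) :
    |a1 * t1 + a2 * t2 + a3 * t3| ≤ Z * (c1 + c2 + c3) := by
  have e1 : |a1 * t1| ≤ Z * c1 := by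
    rw [abs_mul]; exact mul_le_mul h1 k1 (abs_nonneg _) hZ
  have e2 : |a2 * t2| ≤ Z * c2 := by
    rw [abs_mul]; exact mul_le_mul h2 k2 (abs_nonneg _) hZ
  have e3 : |a3 * t3| ≤ Z * c3 := by
    rw [abs_mul]; exact mul_le_mul h3 k3 (abs_nonneg _) hZ
  calc |a1 * t1 + a2 * t2 + a3 * t3| ≤ |a1 * t1 + a2 * t2| + |a3 * t3| := abs_add_le _ _
    _ ≤ |a1 * t1| + |a2 * t2| + |a3 * t3| := by linarith [abs_add_le (a1 * t1) (a2 * t2)]
    _ ≤ Z * (c1 + c2 + c3) := by linarith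

theorem conic_ne {O : Ord ℝ n Q f θ} {F : ℕ → ℕ → ℤ} (hF : Norml n Q f F) (br : Branch O F)
    (q : Fin 6 → ℤ) (hq : q ≠ 0) (Z : ℝ) (hZ : 1 ≤ Z) (hqZ : ∀ m, |((q m : ℤ) : ℝ)| ≤ Z)
    (x y : ℤ) (hbig : (bb n Q ^ 20 * Z) ^ (n + 1) < |(x : ℝ)|)
    (hy : |(y : ℝ) / x - θ| ≤ 1 / bb n Q) (h0 : ev n F x y = 0) :
    ∑ m, q m * mono x y m ≠ 0 := by
  have hn := hF.hn
  have hQ := hF.hQ
  have hb1 := one_le_bb hn hQ
  have hb0 := bb_pos hn hQ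
  have hb16 : (16 : ℝ) ≤ bb n Q := sixteen_le_pow448.trans (two_pow_le_bb hn hQ)
  have hlow := conic_lower O hn hQ
  obtain ⟨hbe, hga, -⟩ := expand_bounds hF br
  set b := bb n Q with hb
  set X := |(x : ℝ)| with hXdef
  have hZ0 : 0 ≤ Z := by linarith
  have hbZ : 1 ≤ b ^ 20 * Z := by
    have : 1 ≤ b ^ 20 := one_le_pow₀ hb1
    nlinarith
  have hX20 : b ^ 20 ≤ X := by
    have h1 : b ^ 20 * Z ≤ (b ^ 20 * Z) ^ (n + 1) := le_self_pow₀ hbZ (by omega)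
    have h2 : b ^ 20 ≤ b ^ 20 * Z := le_mul_of_one_le_right (by positivity) hZ
    linarith
  have hX1 : 1 ≤ X := (one_le_pow₀ hb1).trans hX20
  have hX0 : 0 < X := by linarith
  have hx0 : (x : ℝ) ≠ 0 := by
    intro h; rw [hXdef, h, abs_zero] at hX0; exact lt_irrefl _ hX0
  have h5 : b ^ 5 ≤ X := (pow_le_pow_right₀ hb1 (by norm_num)).trans hX20
  have hexp := expand3 hF br x y h5 hy h0
  have hθ : |θ| ≤ b := by
    have h1 := O.φ_le O.α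
    rw [O.φ_α, Real.norm_eq_abs] at h1
    exact h1.trans (O.ν_α.trans ((nQ_le hn hQ).trans (Qpow_le_bb hn hQ (by nlinarith))))
  set u : ℝ := (y : ℝ) - θ * x - br.be with hu
  set w : ℝ := x * u - br.ga with hw
  have hXsq : X ^ 2 = (x : ℝ) ^ 2 := sq_abs _
  have hw1 : |w| ≤ 1 := by
    have h1 : w = x * ((y : ℝ) - (θ * x + br.be + br.ga / x)) := by
      rw [hw, hu]; field_simp; ring
    rw [h1, abs_mul]
    calc X * |(y : ℝ) - (θ * x + br.be + br.ga / x)| ≤ X * (b ^ 20 / (x : ℝ) ^ 2) :=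
          mul_le_mul_of_nonneg_left hexp hX0.le
      _ = b ^ 20 / X := by rw [← hXsq]; field_simp
      _ ≤ 1 := by rw [div_le_one hX0]; exact hX20
  have hu1 : |u| ≤ 1 := by
    have h1 : u = (w + br.ga) / x := by
      rw [hw]; field_simp; ring
    rw [h1, abs_div, div_le_one hX0]
    have h2 : |w + br.ga| ≤ 1 + b ^ 6 := (abs_add_le _ _).trans (by linarith)
    have h3 : 1 + b ^ 6 ≤ b ^ 20 := by
      have h4 : b ^ 6 * b ≤ b ^ 20 := by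
        rw [← pow_succ]; exact pow_le_pow_right₀ hb1 (by norm_num)
      have h5 : (1 : ℝ) ≤ b ^ 6 := one_le_pow₀ hb1
      have h6 : b ^ 6 * 2 ≤ b ^ 6 * b := mul_le_mul_of_nonneg_left (by linarith) (by positivity)
      linarith
    linarith
  have hy' : (y : ℝ) = θ * x + br.be + u := by rw [hu]; ring
  have hxu : (x : ℝ) * u = br.ga + w := by rw [hw]; ring
  have hZX : Z * b ^ 8 ≤ Z * b ^ 8 * X := le_mul_of_one_le_right (by positivity) hX1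
  have p28 : b ^ 2 ≤ b ^ 7 := pow_le_pow_right₀ hb1 (by norm_num)
  have p18 : b ≤ b ^ 7 := by simpa using pow_le_pow_right₀ hb1 (show 1 ≤ 7 by norm_num)
  have p38 : b ^ 3 ≤ b ^ 7 := pow_le_pow_right₀ hb1 (by norm_num)
  have p48 : b ^ 4 ≤ b ^ 7 := pow_le_pow_right₀ hb1 (by norm_num)
  have p68 : b ^ 6 ≤ b ^ 7 := pow_le_pow_right₀ hb1 (by norm_num)
  have p08 : 1 ≤ b ^ 7 := one_le_pow₀ hb1
  have p78 : 16 * b ^ 7 ≤ b ^ 8 := by
    calc 16 * b ^ 7 ≤ b * b ^ 7 := mul_le_mul_of_nonneg_right hb16 (by positivity)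
      _ = b ^ 8 := by ring
  -- the real value
  intro hsum
  have hcast : (q 0 : ℝ) * (x : ℝ) ^ 2 + q 1 * x + q 2 + q 3 * y + q 4 * (x * y)
      + q 5 * (y : ℝ) ^ 2 = 0 := by
    have h1 : ((∑ m, q m * mono x y m : ℤ) : ℝ) = 0 := by rw [hsum]; simp
    rw [← h1, Fin.sum_univ_six]
    simp only [mono, Matrix.cons_val]
    push_cast
    ring
  have hval : (q 0 + q 4 * θ + q 5 * θ ^ 2) * (x : ℝ) ^ 2
      + (q 1 + q 3 * θ + (q 4 * br.be + q 5 * (2 * θ * br.be))) * x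
      + ((q 2 : ℝ) * 1 + q 3 * br.be + (q 4 * br.ga + q 5 * (br.be ^ 2 + 2 * θ * br.ga)))
      + ((q 3 : ℝ) * u + q 5 * (2 * br.be * u))
      + ((q 4 : ℝ) * w + q 5 * (2 * θ * w + u ^ 2)) = 0 := by
    rw [← hcast, hy']
    linear_combination (-(q 4 : ℝ) - 2 * θ * q 5) * hxu
  by_cases hA : q 0 = 0 ∧ q 4 = 0 ∧ q 5 = 0
  · obtain ⟨a0, a4, a5⟩ := hA
    simp only [a0, a4, a5, Int.cast_zero, zero_mul, add_zero, zero_add, mul_one] at hval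
    by_cases hB : q 1 = 0 ∧ q 3 = 0
    · obtain ⟨a1, a3⟩ := hB
      simp only [a1, a3, Int.cast_zero, zero_mul, add_zero, zero_add] at hval
      have a2 : q 2 = 0 := by exact_mod_cast hval
      apply hq
      funext m
      fin_cases m <;> simp [a0, a1, a2, a3, a4, a5]
    · have h1 := hlow (q 1) (q 3) 0 (by tauto) Z hZ (hqZ 1) (hqZ 3) (by simpa using hZ0) X hbig
      simp only [Int.cast_zero, zero_mul, add_zero] at h1
      have h2 : (q 1 + q 3 * θ) * (x : ℝ) = -((q 2 : ℝ) * 1 + q 3 * br.be + q 3 * u) := by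
        linear_combination hval
      have h3 : |(q 1 + q 3 * θ) * (x : ℝ)| ≤ Z * (1 + b ^ 2 + 1) := by
        rw [h2, abs_neg]
        exact conic_abs3 hZ0 (hqZ 2) (hqZ 3) (hqZ 3) (by simp) hbe hu1
      rw [abs_mul] at h3
      have h4 : Z * (1 + b ^ 2 + 1) ≤ Z * (5 * b ^ 8) := by
        apply mul_le_mul_of_nonneg_left _ hZ0
        linarith
      have h5 : Z * (5 * b ^ 8) = 5 * (Z * b ^ 8) := by ring
      linarith
  · have h1 := hlow (q 0) (q 4) (q 5) hA Z hZ (hqZ 0) (hqZ 4) (hqZ 5) X hbig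
    have k2 : |2 * θ * br.be| ≤ 2 * b ^ 3 := by
      rw [abs_mul, abs_mul, abs_two]
      calc 2 * |θ| * |br.be| ≤ 2 * b * b ^ 2 :=
            mul_le_mul (by linarith) hbe (abs_nonneg _) (by positivity)
        _ = 2 * b ^ 3 := by ring
    have k1 : |(q 1 : ℝ) * 1 + q 3 * θ + (q 4 * br.be + q 5 * (2 * θ * br.be))|
        ≤ Z * b ^ 8 := by
      have e1 := conic_abs3 hZ0 (hqZ 1) (hqZ 3) (hqZ 4) (by simp : |(1 : ℝ)| ≤ 1) hθ hbe
      have e2 : |(q 5 : ℝ) * (2 * θ * br.be)| ≤ Z * (2 * b ^ 3) := by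
        rw [abs_mul]; exact mul_le_mul (hqZ 5) k2 (abs_nonneg _) hZ0
      have e3 := abs_add_le ((q 1 : ℝ) * 1 + q 3 * θ + q 4 * br.be) (q 5 * (2 * θ * br.be))
      have e4 : Z * (1 + b + b ^ 2 + 2 * b ^ 3) ≤ Z * b ^ 8 := by
        apply mul_le_mul_of_nonneg_left _ hZ0
        linarith
      have e5 : (q 1 : ℝ) * 1 + q 3 * θ + (q 4 * br.be + q 5 * (2 * θ * br.be))
          = (q 1 : ℝ) * 1 + q 3 * θ + q 4 * br.be + q 5 * (2 * θ * br.be) := by ring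
      rw [e5]
      linarith
    have k3 : |br.be ^ 2 + 2 * θ * br.ga| ≤ b ^ 4 + 2 * b ^ 7 := by
      have e1 : |br.be ^ 2| ≤ b ^ 4 := by
        rw [abs_pow]
        calc |br.be| ^ 2 ≤ (b ^ 2) ^ 2 := pow_le_pow_left₀ (abs_nonneg _) hbe 2
          _ = b ^ 4 := by ring
      have e2 : |2 * θ * br.ga| ≤ 2 * b ^ 7 := by
        rw [abs_mul, abs_mul, abs_two]
        calc 2 * |θ| * |br.ga| ≤ 2 * b * b ^ 6 :=
              mul_le_mul (by linarith) hga (abs_nonneg _) (by positivity)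
          _ = 2 * b ^ 7 := by ring
      linarith [abs_add_le (br.be ^ 2) (2 * θ * br.ga)]
    have k4 : |(q 2 : ℝ) * 1 + q 3 * br.be + (q 4 * br.ga + q 5 * (br.be ^ 2 + 2 * θ * br.ga))|
        ≤ Z * b ^ 8 := by
      have e1 := conic_abs3 hZ0 (hqZ 2) (hqZ 3) (hqZ 4) (by simp : |(1 : ℝ)| ≤ 1) hbe hga
      have e2 : |(q 5 : ℝ) * (br.be ^ 2 + 2 * θ * br.ga)| ≤ Z * (b ^ 4 + 2 * b ^ 7) := by
        rw [abs_mul]; exact mul_le_mul (hqZ 5) k3 (abs_nonneg _) hZ0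
      have e3 := abs_add_le ((q 2 : ℝ) * 1 + q 3 * br.be + q 4 * br.ga)
        (q 5 * (br.be ^ 2 + 2 * θ * br.ga))
      have e4 : Z * (1 + b ^ 2 + b ^ 6 + (b ^ 4 + 2 * b ^ 7)) ≤ Z * b ^ 8 := by
        apply mul_le_mul_of_nonneg_left _ hZ0
        linarith
      have e5 : (q 2 : ℝ) * 1 + q 3 * br.be + (q 4 * br.ga + q 5 * (br.be ^ 2 + 2 * θ * br.ga))
          = (q 2 : ℝ) * 1 + q 3 * br.be + q 4 * br.ga
            + q 5 * (br.be ^ 2 + 2 * θ * br.ga) := by ring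
      rw [e5]
      linarith
    have k5 : |(q 3 : ℝ) * u + q 5 * (2 * br.be * u)| ≤ Z * b ^ 8 := by
      have e1 : |(q 3 : ℝ) * u| ≤ Z * 1 := by
        rw [abs_mul]; exact mul_le_mul (hqZ 3) hu1 (abs_nonneg _) hZ0
      have e2 : |2 * br.be * u| ≤ 2 * b ^ 2 := by
        rw [abs_mul, abs_mul, abs_two]
        calc 2 * |br.be| * |u| ≤ 2 * b ^ 2 * 1 :=
              mul_le_mul (by linarith) hu1 (abs_nonneg _) (by positivity)
          _ = 2 * b ^ 2 := by ring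
      have e3 : |(q 5 : ℝ) * (2 * br.be * u)| ≤ Z * (2 * b ^ 2) := by
        rw [abs_mul]; exact mul_le_mul (hqZ 5) e2 (abs_nonneg _) hZ0
      have e4 : Z * (1 + 2 * b ^ 2) ≤ Z * b ^ 8 := by
        apply mul_le_mul_of_nonneg_left _ hZ0
        linarith
      linarith [abs_add_le ((q 3 : ℝ) * u) (q 5 * (2 * br.be * u))]
    have k6 : |(q 4 : ℝ) * w + q 5 * (2 * θ * w + u ^ 2)| ≤ Z * b ^ 8 := by
      have e1 : |(q 4 : ℝ) * w| ≤ Z * 1 := by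
        rw [abs_mul]; exact mul_le_mul (hqZ 4) hw1 (abs_nonneg _) hZ0
      have e2 : |2 * θ * w| ≤ 2 * b := by
        rw [abs_mul, abs_mul, abs_two]
        calc 2 * |θ| * |w| ≤ 2 * b * 1 :=
              mul_le_mul (by linarith) hw1 (abs_nonneg _) (by positivity)
          _ = 2 * b := by ring
      have e2' : |u ^ 2| ≤ 1 := by
        rw [abs_pow]; exact pow_le_one₀ (abs_nonneg _) hu1
      have e3 : |(q 5 : ℝ) * (2 * θ * w + u ^ 2)| ≤ Z * (2 * b + 1) := by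
        rw [abs_mul]
        exact mul_le_mul (hqZ 5) (by linarith [abs_add_le (2 * θ * w) (u ^ 2)])
          (abs_nonneg _) hZ0
      have e4 : Z * (1 + (2 * b + 1)) ≤ Z * b ^ 8 := by
        apply mul_le_mul_of_nonneg_left _ hZ0
        linarith
      linarith [abs_add_le ((q 4 : ℝ) * w) (q 5 * (2 * θ * w + u ^ 2))]
    have h2 : (q 0 + q 4 * θ + q 5 * θ ^ 2) * (x : ℝ) ^ 2
        = -(((q 1 : ℝ) * 1 + q 3 * θ + (q 4 * br.be + q 5 * (2 * θ * br.be))) * x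
      + ((q 2 : ℝ) * 1 + q 3 * br.be + (q 4 * br.ga + q 5 * (br.be ^ 2 + 2 * θ * br.ga)))
      + ((q 3 : ℝ) * u + q 5 * (2 * br.be * u))
      + ((q 4 : ℝ) * w + q 5 * (2 * θ * w + u ^ 2))) := by
      linear_combination hval
    have h3 : |q 0 + q 4 * θ + q 5 * θ ^ 2| * X ^ 2 ≤ Z * b ^ 8 * X + Z * b ^ 8 + Z * b ^ 8
        + Z * b ^ 8 := by
      have e0 : |q 0 + q 4 * θ + q 5 * θ ^ 2| * X ^ 2
          = |(q 0 + q 4 * θ + q 5 * θ ^ 2) * (x : ℝ) ^ 2| := by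
        rw [abs_mul, abs_pow]
      rw [e0, h2, abs_neg]
      set t1 := ((q 1 : ℝ) * 1 + q 3 * θ + (q 4 * br.be + q 5 * (2 * θ * br.be))) with ht1
      set t2 := ((q 2 : ℝ) * 1 + q 3 * br.be
        + (q 4 * br.ga + q 5 * (br.be ^ 2 + 2 * θ * br.ga))) with ht2
      set t3 := ((q 3 : ℝ) * u + q 5 * (2 * br.be * u)) with ht3
      set t4 := ((q 4 : ℝ) * w + q 5 * (2 * θ * w + u ^ 2)) with ht4
      have g1 : |t1 * x| ≤ Z * b ^ 8 * X := by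
        rw [abs_mul]; exact mul_le_mul_of_nonneg_right k1 hX0.le
      calc |t1 * x + t2 + t3 + t4| ≤ |t1 * x| + |t2| + |t3| + |t4| := by
            have g2 := abs_add_le (t1 * x + t2 + t3) t4
            have g3 := abs_add_le (t1 * x + t2) t3
            have g4 := abs_add_le (t1 * x) t2
            linarith
        _ ≤ _ := by linarith
    have h4 : |q 0 + q 4 * θ + q 5 * θ ^ 2| * X ^ 2 ≤ 5 * (Z * b ^ 8) * X := by
      have : 0 ≤ Z * b ^ 8 * X := by positivity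
      linarith
    have h5 : 5 * (Z * b ^ 8) * X < |q 0 + q 4 * θ + q 5 * θ ^ 2| * X ^ 2 := by
      have := mul_lt_mul_of_pos_right h1 hX0
      calc 5 * (Z * b ^ 8) * X < |q 0 + q 4 * θ + q 5 * θ ^ 2| * X * X := this
        _ = _ := by ring
    linarith

end Pool.Agent.H72.ES
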