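import Pool.Agent.H72.ES.Window
import Pool.Agent.H72.ES.Norm

/-! # Counting all large points of a family -/

namespace Pool.Agent.H72.ES

open Finset Polynomial

variable {n Q M : ℕ} {f : ℤ[X]} {G : ℕ → ℕ → ℤ}

/-- a large point with a small value is close to a real asymptotic direction -/
theorem far_point (h : Fam n Q M f G) (x y : ℤ) (hs : |ev n G x y| ≤ (M : ℤ))
    (hbig : (Q : ℝ) ^ 2 * bb n Q ^ (250 * n) ≤ ((max |x| |y| : ℤ) : ℝ)) :
    bb n Q ^ (250 * n) ≤ |(x : ℝ)| ∧ ∃ θ : ℝ, aeval θ f = 0 ∧ |(y : ℝ) / x - θ| ≤ 1 / bb n Q := by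
  have hn := h.hn
  have hN := h.norml
  have hb1 := one_le_bb h.hn h.hQ
  have hQ1 := one_le_QR h.hn h.hQ
  have hQ16 := sixteen_leR h.hn h.hQ
  have h4b : (4 : ℝ) ≤ bb n Q := le_trans (by norm_num) (thousand_le_bb h.hn h.hQ)
  have hMQ : (M : ℤ) ≤ Q := by
    have hMQ : (2 : ℤ) * M ≤ Q := by exact_mod_cast h.hM
    have hM0 : (0 : ℤ) ≤ M := Int.natCast_nonneg M
    linarith
  have hQb5 : (Q : ℝ) ^ 5 ≤ bb n Q := Qpow_le_bb h.hn h.hQ (by nlinarith)
  have hQbn : (Q : ℝ) ^ (2 * n + 4) ≤ bb n Q := Qpow_le_bb h.hn h.hQ (by nlinarith)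
  set b := bb n Q with hb
  have hb0 : 0 < b := by linarith
  have hQ0 : (0 : ℝ) < Q := by linarith
  have hbpow : b ≤ b ^ (250 * n) := by
    calc b = b ^ 1 := (pow_one b).symm
      _ ≤ b ^ (250 * n) := pow_le_pow_right₀ hb1 (by omega)
  have hlt : (Q : ℤ) ^ 5 < max |x| |y| := by
    have : (Q : ℝ) ^ 5 < ((max |x| |y| : ℤ) : ℝ) := by
      calc (Q : ℝ) ^ 5 ≤ b ^ (250 * n) := hQb5.trans hbpow
        _ < (Q : ℝ) ^ 2 * b ^ (250 * n) := by
          have e1 : (1 : ℝ) < (Q : ℝ) ^ 2 := one_lt_pow₀ (by linarith) (by norm_num)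
          have e2 : 0 < b ^ (250 * n) := by positivity
          nlinarith
        _ ≤ _ := hbig
    exact_mod_cast this
  have hslope := slope_bound hN x y (hs.trans hMQ) hlt
  have hslopeR : |(y : ℝ)| ≤ (Q : ℝ) ^ 2 * |(x : ℝ)| := by exact_mod_cast hslope
  have hxb : b ^ (250 * n) ≤ |(x : ℝ)| := by
    have e1 : ((max |x| |y| : ℤ) : ℝ) ≤ (Q : ℝ) ^ 2 * |(x : ℝ)| := by
      push_cast
      refine max_le ?_ hslopeR
      have e1 : (1 : ℝ) ≤ (Q : ℝ) ^ 2 := one_le_pow₀ hQ1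
      nlinarith [abs_nonneg (x : ℝ)]
    exact le_of_mul_le_mul_left (hbig.trans e1) (by positivity)
  refine ⟨hxb, ?_⟩
  have hx0 : 0 < |(x : ℝ)| := lt_of_lt_of_le (by positivity) hxb
  have hx : x ≠ 0 := by
    rintro rfl
    simp at hx0
  have hl := lead_small hN x y (hs.trans hMQ) hx hslope
  refine near_root hN h.irr _ (hl.trans ?_)
  rw [← hb, div_le_div_iff₀ hx0 (by positivity), one_mul]
  calc (Q : ℝ) ^ (2 * n + 4) * b ^ (n + 2) ≤ b * b ^ (n + 2) := by gcongr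
    _ = b ^ (n + 3) := by ring
    _ ≤ b ^ (250 * n) := pow_le_pow_right₀ hb1 (by omega)
    _ ≤ |(x : ℝ)| := hxb

/-- number of large points of a family -/
theorem family_count (h : Fam n Q M f G) (L : ℝ) (hL : 1 ≤ L) (S : Finset (ℤ × ℤ))
    (hs : ∀ P ∈ S, |ev n G P.1 P.2| ≤ (M : ℤ)) (hline : LineBd L S)
    (hbig : ∀ P ∈ S, (Q : ℝ) ^ 2 * bb n Q ^ (250 * n) ≤ ((max |P.1| |P.2| : ℤ) : ℝ)) :
    (S.card : ℝ) ≤ 120 * L * n ^ 3 := by
  classical
  obtain ⟨hm, hd, hc⟩ := h.norml.lead_props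
  set rts : Finset ℝ := (f.map (Int.castRingHom ℝ)).roots.toFinset with hrts
  have hmR : (f.map (Int.castRingHom ℝ)).Monic := hm.map _
  have hcard : rts.card ≤ n := by
    calc rts.card ≤ Multiset.card (f.map (Int.castRingHom ℝ)).roots := Multiset.toFinset_card_le _
      _ ≤ (f.map (Int.castRingHom ℝ)).natDegree := Polynomial.card_roots' _
      _ = n := by rw [hm.natDegree_map, hd]
  have hmem : ∀ θ : ℝ, aeval θ f = 0 → θ ∈ rts := by
    intro θ hθ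
    rw [hrts, Multiset.mem_toFinset, mem_roots hmR.ne_zero, IsRoot.def, eval_map,
      ← algebraMap_int_eq, ← aeval_def]
    exact hθ
  have hmem' : ∀ θ ∈ rts, aeval θ f = 0 := by
    intro θ hθ
    rw [hrts, Multiset.mem_toFinset, mem_roots hmR.ne_zero, IsRoot.def, eval_map,
      ← algebraMap_int_eq, ← aeval_def] at hθ
    exact hθ
  set T : ℝ → Finset (ℤ × ℤ) := fun θ => S.filter (fun P => |(P.2 : ℝ) / P.1 - θ| ≤ 1 / bb n Q)
    with hT
  have hsub : S ⊆ rts.biUnion T := by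
    intro P hP
    obtain ⟨_, θ, hθ, hnear⟩ := far_point h P.1 P.2 (hs P hP) (hbig P hP)
    exact mem_biUnion.2 ⟨θ, hmem θ hθ, mem_filter.2 ⟨hP, hnear⟩⟩
  have hclass : ∀ θ ∈ rts, ((T θ).card : ℝ) ≤ 120 * L * n ^ 2 := by
    intro θ hθ
    obtain ⟨O⟩ := exists_ord ℝ h.hn h.hQ hm hd hc h.irr θ (hmem' θ hθ)
    have hTS : T θ ⊆ S := filter_subset _ _
    refine class_count h O L hL (T θ) ⟨?_, ?_⟩ (hline.mono hTS) ?_
    · exact fun P hP => hs P (hTS hP)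
    · exact fun P hP => (mem_filter.1 hP).2
    · exact fun P hP => (far_point h P.1 P.2 (hs P (hTS hP)) (hbig P (hTS hP))).1
  have h1 : S.card ≤ ∑ θ ∈ rts, (T θ).card := (card_le_card hsub).trans card_biUnion_le
  have hL0 : 0 ≤ L := by linarith
  calc (S.card : ℝ) ≤ ∑ θ ∈ rts, ((T θ).card : ℝ) := by exact_mod_cast h1
    _ ≤ ∑ θ ∈ rts, (120 * L * n ^ 2) := sum_le_sum hclass
    _ = rts.card * (120 * L * n ^ 2) := by rw [sum_const, nsmul_eq_mul]
    _ ≤ n * (120 * L * n ^ 2) := by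
      gcongr
    _ = 120 * L * n ^ 3 := by ring

end Pool.Agent.H72.ES
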