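import Mathlib

/-!
# MP_821da1_nt: effective Siegel theorem for almost all curves `G(x,y) = c` -- definitions

Arrays `F : ℕ → ℕ → ℤ` are coefficient arrays, `F i j` is the coefficient of `x^i y^j`.
`ev n c x y` is the value of the polynomial of degree `≤ n` with coefficients `c`,
`evt n c t z` is the homogenised value (`t = 1/x`, `z = y/x`):
`ev n c x y = x^n * evt n c (1/x) (y/x)`.
-/

namespace Pool.Agent.H72.ES

open Finset Polynomial

/-- value at `(x, y)` of the polynomial of degree `≤ n` with coefficients `c i j` of `x^i y^j` -/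
def ev {S : Type*} [CommRing S] (n : ℕ) (c : ℕ → ℕ → S) (x y : S) : S :=
  ∑ i ∈ range (n + 1), ∑ j ∈ range (n + 1 - i), c i j * x ^ i * y ^ j

/-- homogenised value: `t^n * (value at (1/t, z/t))` -/
def evt {S : Type*} [CommRing S] (n : ℕ) (c : ℕ → ℕ → S) (t z : S) : S :=
  ∑ i ∈ range (n + 1), ∑ j ∈ range (n + 1 - i), c i j * t ^ (n - i - j) * z ^ j

/-- cast of an integer array to a commutative ring -/
def cst (S : Type*) [CommRing S] (F : ℕ → ℕ → ℤ) : ℕ → ℕ → S := fun i j => (F i j : S)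

/-- the partial derivative in `y` -/
def evy {S : Type*} [CommRing S] (n : ℕ) (c : ℕ → ℕ → S) (x y : S) : S :=
  ∑ i ∈ range (n + 1), ∑ j ∈ range (n + 1 - i), c i j * x ^ i * ((j : S) * y ^ (j - 1))

/-- the dehomogenised leading form `f(1, z)` -/
noncomputable def lead (n : ℕ) (F : ℕ → ℕ → ℤ) : ℤ[X] :=
  ∑ j ∈ range (n + 1), C (F (n - j) j) * X ^ j

/-- Taylor coefficients: `evt n F t (α + v) = ∑ tc i j t^i v^j` -/
def tc {S : Type*} [CommRing S] (n : ℕ) (F : ℕ → ℕ → ℤ) (α : S) (i j : ℕ) : S :=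
  ∑ l ∈ range (n + 1 - i), (F (n - i - l) l : S) * (l.choose j : S) * α ^ (l - j)

/-- the basic constant `b = Q^(7 n^2)` -/
noncomputable def bb (n Q : ℕ) : ℝ := (Q : ℝ) ^ (7 * n ^ 2)

/-- Standing assumptions on a normalised curve: degree `n ≥ 4`, monic in `y`, coefficients
bounded by `Q ≥ 2^n`, leading form `f`. -/
structure Norml (n Q : ℕ) (f : ℤ[X]) (F : ℕ → ℕ → ℤ) : Prop where
  hn : 4 ≤ n
  hQ : 2 ^ n ≤ Q
  lead_eq : lead n F = f
  top : F 0 n = 1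
  bound : ∀ i j, i + j ≤ n → |F i j| ≤ (Q : ℤ)

/-- The order `ℤ[α] = ℤ[X]/(f)` together with a submultiplicative size function `ν`, integer
coordinates and an embedding `φ` with `φ α = θ`. -/
structure Ord (𝕜 : Type) [RCLike 𝕜] (n Q : ℕ) (f : ℤ[X]) (θ : 𝕜) where
  R : Type
  [cr : CommRing R]
  [dom : IsDomain R]
  α : R
  ν : R → ℝ
  coord : R →+ (Fin n → ℤ)
  φ : R →+* 𝕜
  root : aeval α f = 0
  ν_nonneg : ∀ a, 0 ≤ ν a
  ν_zero : ν 0 = 0
  ν_neg : ∀ a, ν (-a) = ν a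
  ν_add : ∀ a b, ν (a + b) ≤ ν a + ν b
  ν_mul : ∀ a b, ν (a * b) ≤ ν a * ν b
  ν_int : ∀ m : ℤ, ν (m : R) ≤ |(m : ℝ)|
  ν_α : ν α ≤ n * Q
  coord_inj : Function.Injective coord
  coord_le : ∀ a k, |((coord a k : ℤ) : ℝ)| ≤ ν a
  φ_α : φ α = θ
  φ_le : ∀ a, ‖φ a‖ ≤ ν a
  liouville : ∀ a, a ≠ 0 → 1 ≤ ‖φ a‖ * ((Q : ℝ) ^ (4 * n) * ν a ^ n)
  indep : ∀ p : ℤ[X], p.natDegree < n → aeval α p = 0 → p = 0

attribute [instance] Ord.cr Ord.dom

/-- `κ = f'(α)` -/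
noncomputable def Ord.κ {𝕜 : Type} [RCLike 𝕜] {n Q : ℕ} {f : ℤ[X]} {θ : 𝕜}
    (O : Ord 𝕜 n Q f θ) : O.R := aeval O.α (derivative f)

/-- weighted truncated `ℓ¹` seminorm of a power series -/
noncomputable def wn {R : Type*} [CommRing R] (ν : R → ℝ) (ρ : ℝ) (K : ℕ) (a : PowerSeries R) :
    ℝ := ∑ k ∈ range (K + 1), ν (PowerSeries.coeff k a) * ρ ^ k

/-- The branch at infinity with slope `α`, as a power series over the order:
`t = κ² s`, `z = α + κ w(s)`. -/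
structure Branch {𝕜 : Type} [RCLike 𝕜] {n Q : ℕ} {f : ℤ[X]} {θ : 𝕜} (O : Ord 𝕜 n Q f θ)
    (F : ℕ → ℕ → ℤ) where
  w : PowerSeries O.R
  h0 : PowerSeries.constantCoeff w = 0
  eq : evt n (cst (PowerSeries O.R) F) (PowerSeries.C O.κ ^ 2 * PowerSeries.X)
    (PowerSeries.C O.α + PowerSeries.C O.κ * w) = 0
  bd : ∀ K, wn O.ν (1 / bb n Q ^ 2) K w ≤ 1 / bb n Q

/-- The six monomials of degree `≤ 2`. -/
def mono {S : Type*} [CommRing S] (x y : S) : Fin 6 → S := ![x ^ 2, x, 1, y, x * y, y ^ 2]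

/-- The adapted basis of conics at the branch `y = θ x + be + ga / x + ...`. -/
def psi (θ be ga x y : ℝ) : Fin 6 → ℝ :=
  ![x ^ 2, x, 1, y - θ * x - be, x * (y - θ * x - be) - ga, (y - θ * x - be) ^ 2]

/-- `ν` is a submultiplicative size function -/
structure SubMul {R : Type*} [CommRing R] (ν : R → ℝ) : Prop where
  nonneg : ∀ a, 0 ≤ ν a
  zero : ν 0 = 0
  neg : ∀ a, ν (-a) = ν a
  add : ∀ a b, ν (a + b) ≤ ν a + ν b
  mul : ∀ a b, ν (a * b) ≤ ν a * ν b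
  one : ν 1 ≤ 1

end Pool.Agent.H72.ES
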