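import Pool.Agent.H72.ES.SNorm

/-! # [ES-EVAL] Evaluation of a polynomial with many vanishing low coefficients

`p ∈ O.R[X]`, `∑_k ν(p_k) r^k ≤ M` (all partial sums), `p_k = 0` for `k < T`, `u ∈ ℝ⟦X⟧` with
weighted norm `≤ μ ≤ r`. Then `N(p(u)) ≤ ∑_{k ≥ T} |φ p_k| μ^k ≤ ∑ ν(p_k) r^k (μ/r)^k
≤ M (μ/r)^T` (note `0 ≤ μ/r ≤ 1`, and `|φ a| ≤ ν a`; `wn` of a constant series is the value). -/

namespace Pool.Agent.H72.ES

open Finset Polynomial

variable {n Q : ℕ} {f : ℤ[X]} {θ : ℝ}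

theorem eval_small (O : Ord ℝ n Q f θ) (p : O.R[X]) (r : ℝ) (hr : 0 < r) (M : ℝ)
    (hM : ∀ K, wn O.ν r K (p : PowerSeries O.R) ≤ M) (T : ℕ) (hT : ∀ k < T, p.coeff k = 0)
    (ρ : ℝ) (hρ : 0 ≤ ρ) (u : PowerSeries ℝ) (μ : ℝ)
    (hμ : ∀ K, wn (fun a : ℝ => |a|) ρ K u ≤ μ) (hμr : μ ≤ r) (K : ℕ) :
    wn (fun a : ℝ => |a|) ρ K (Polynomial.eval₂ ((PowerSeries.C (R := ℝ)).comp O.φ) u p) ≤
      M * (μ / r) ^ T := by
  have hsm := subMul_abs
  have hμ0 : 0 ≤ μ := (wn_nonneg hsm hρ K u).trans (hμ K)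
  have hq0 : 0 ≤ μ / r := div_nonneg hμ0 hr.le
  have hq1 : μ / r ≤ 1 := by rw [div_le_one hr]; exact hμr
  rw [Polynomial.eval₂_eq_sum_range]
  refine (wn_sum_le hsm hρ K _ _).trans ?_
  have hterm : ∀ k ∈ range (p.natDegree + 1),
      wn (fun a : ℝ => |a|) ρ K (((PowerSeries.C (R := ℝ)).comp O.φ) (p.coeff k) * u ^ k) ≤
        (μ / r) ^ T * (O.ν (p.coeff k) * r ^ k) := by
    intro k _
    by_cases hk : k < T
    · rw [hT k hk, map_zero, zero_mul, wn_zero hsm, O.ν_zero]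
      simp
    · have hk' : T ≤ k := not_lt.1 hk
      have h1 : wn (fun a : ℝ => |a|) ρ K (((PowerSeries.C (R := ℝ)).comp O.φ) (p.coeff k) * u ^ k)
          ≤ O.ν (p.coeff k) * μ ^ k := by
        refine (wn_mul_le hsm hρ K _ _).trans ?_
        rw [RingHom.comp_apply, wn_C hsm]
        refine mul_le_mul (by simpa using O.φ_le (p.coeff k)) ?_ (wn_nonneg hsm hρ K _)
          (O.ν_nonneg _)
        exact (wn_pow_le hsm hρ K u k).trans
          (pow_le_pow_left₀ (wn_nonneg hsm hρ K u) (hμ K) k)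
      have h2 : μ ^ k = (μ / r) ^ k * r ^ k := by
        rw [div_pow, div_mul_cancel₀ _ (pow_ne_zero _ hr.ne')]
      have h3 : (μ / r) ^ k ≤ (μ / r) ^ T := pow_le_pow_of_le_one hq0 hq1 hk'
      calc _ ≤ O.ν (p.coeff k) * μ ^ k := h1
        _ = (μ / r) ^ k * (O.ν (p.coeff k) * r ^ k) := by rw [h2]; ring
        _ ≤ _ := mul_le_mul_of_nonneg_right h3 (mul_nonneg (O.ν_nonneg _) (pow_nonneg hr.le _))
  refine (sum_le_sum hterm).trans ?_
  rw [← mul_sum, mul_comm]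
  refine mul_le_mul_of_nonneg_right ?_ (pow_nonneg hq0 _)
  have h := hM p.natDegree
  unfold wn at h
  simpa only [Polynomial.coeff_coe] using h

end Pool.Agent.H72.ES
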