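import Pool.Agent.H72.ES.Expand

/-! # [ES-LOWNE] A polynomial of degree `< n` does not vanish at a huge point

`g` a nonzero integer array with `g i j = 0` for `n ≤ i + j`, `|g| ≤ Z`, `Z ≥ 1`; `(x,y)` an
integer point on the curve near `θ`, `(b^20 Z)^(n+1) < |x|`. Then `ev n g x y ≠ 0`.

Let `k < n` be the largest degree with some `g i j ≠ 0`, `i + j = k`; `γ = ∑_{j≤k} g (k-j) j α^j`
is nonzero in `O.R` (`O.indep`, degree `≤ k < n`), `ν γ ≤ n Z (n Q)^(n-1) ≤ Z b`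
(`n Q ≤ Q²`, `Q^(2n+1) ≤ Q^(7n²) = b`). Liouville:
`1 ≤ |φ γ| Q^(4n) (Z b)^n ≤ |φ γ| b (Z b)^n`.
`z = y/x`: by `expand3` (multiplied by `1/x`) and `expand_bounds`
`|z - θ| ≤ (b² + b⁶/|x| + b^20/x²)/|x| ≤ b³/|x|` (as `|x| ≥ b^20`). `|θ| ≤ ν α ≤ n Q ≤ Q²`,
`|z| ≤ 2 Q²`.
`ev n g x y = x^k (∑_j g (k-j) j z^j + ∑_{i+j<k} g i j x^(i+j-k) z^j)`;
`|∑_j g (k-j) j (z^j - θ^j)| ≤ n Z n (2Q²)^n b³/|x|`,
`|∑_{i+j<k} ...| ≤ n² Z (2Q²)^n/|x|`; together `≤ Z b^5/|x|` (`n² (2Q²)^n ≤ Q^(3n+1) ≤ b`).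
So if `ev n g x y = 0` then `1/(b (Z b)^n) ≤ |φ γ| ≤ Z b^5/|x|`, i.e.
`|x| ≤ Z b^6 (Z b)^n ≤ (b^20 Z)^(n+1)`: contradiction. -/

namespace Pool.Agent.H72.ES

open Finset Polynomial

variable {n Q : ℕ} {f : ℤ[X]} {θ : ℝ}

/-- crude bound of a double sum over the triangle -/
theorem lne_dsum {M : Type*} [AddCommMonoid M] (ν : M → ℝ) (h0 : ν 0 = 0)
    (hadd : ∀ a b, ν (a + b) ≤ ν a + ν b) (n : ℕ) (t : ℕ → ℕ → M) (B : ℝ) (hB : 0 ≤ B)
    (ht : ∀ i j, i + j ≤ n → ν (t i j) ≤ B) :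
    ν (∑ i ∈ range (n + 1), ∑ j ∈ range (n + 1 - i), t i j) ≤ ((n : ℝ) + 1) ^ 2 * B := by
  have hs : ∀ {ι : Type} (s : Finset ι) (u : ι → M), ν (∑ i ∈ s, u i) ≤ ∑ i ∈ s, ν (u i) := by
    intro ι s u
    classical
    induction s using Finset.induction_on with
    | empty => simp [h0]
    | insert a s ha ih =>
      rw [Finset.sum_insert ha, Finset.sum_insert ha]
      exact (hadd _ _).trans (by linarith)
  refine (hs _ _).trans ?_
  have h1 : ∀ i ∈ range (n + 1), ν (∑ j ∈ range (n + 1 - i), t i j) ≤ ((n : ℝ) + 1) * B := by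
    intro i hi
    refine (hs _ _).trans ?_
    have h2 : ∑ j ∈ range (n + 1 - i), ν (t i j) ≤ (range (n + 1 - i)).card • B := by
      refine sum_le_card_nsmul _ _ _ fun j hj => ht i j ?_
      have := mem_range.1 hi
      have := mem_range.1 hj
      omega
    refine h2.trans ?_
    rw [card_range, nsmul_eq_mul]
    refine mul_le_mul_of_nonneg_right ?_ hB
    have : n + 1 - i ≤ n + 1 := by omega
    exact_mod_cast this
  refine (sum_le_card_nsmul _ _ _ h1).trans (le_of_eq ?_)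
  rw [card_range, nsmul_eq_mul]
  push_cast
  ring

/-- Liouville for an element of size `≤ Z b` at a huge `X` -/
theorem lne_lower (O : Ord ℝ n Q f θ) (hn : 4 ≤ n) (hQ : 2 ^ n ≤ Q) (γ : O.R) (hγ : γ ≠ 0)
    (Z : ℝ) (hZ : 1 ≤ Z) (hν : O.ν γ ≤ Z * bb n Q) (X : ℝ)
    (hX : (bb n Q ^ 20 * Z) ^ (n + 1) < X) : bb n Q ^ 19 * Z < |O.φ γ| * X := by
  have hb1 := one_le_bb hn hQ
  have hb0 := bb_pos hn hQ
  set b := bb n Q with hb
  have hZ0 : 0 ≤ Z := by linarith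
  have hL := O.liouville _ hγ
  rw [Real.norm_eq_abs] at hL
  set A := |O.φ γ| with hA
  have hA0 : 0 ≤ A := abs_nonneg _
  have hL2 : 1 ≤ A * (b * (Z * b) ^ n) := by
    refine hL.trans (mul_le_mul_of_nonneg_left ?_ hA0)
    apply mul_le_mul (Qpow_le_bb hn hQ (by nlinarith)) _ (pow_nonneg (O.ν_nonneg _) _) hb0.le
    exact pow_le_pow_left₀ (O.ν_nonneg _) hν n
  have hApos : 0 < A := by
    rcases hA0.lt_or_eq with h | h
    · exact h
    · rw [← h, zero_mul] at hL2; linarith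
  have hbig : (b ^ 19 * Z) * (b * (Z * b) ^ n) ≤ (b ^ 20 * Z) ^ (n + 1) := by
    have e1 : (b ^ 20 * Z) ^ (n + 1) = (b ^ 20 * Z) * ((b ^ 19) ^ n * (Z * b) ^ n) := by
      rw [pow_succ, ← mul_pow]
      have : b ^ 19 * (Z * b) = b ^ 20 * Z := by ring
      rw [this]; ring
    rw [e1]
    have e2 : (1 : ℝ) ≤ (b ^ 19) ^ n := one_le_pow₀ (one_le_pow₀ hb1)
    have e3 : 0 ≤ (b ^ 20 * Z) * (Z * b) ^ n := by positivity
    calc (b ^ 19 * Z) * (b * (Z * b) ^ n) = 1 * ((b ^ 20 * Z) * (Z * b) ^ n) := by ring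
      _ ≤ (b ^ 19) ^ n * ((b ^ 20 * Z) * (Z * b) ^ n) := mul_le_mul_of_nonneg_right e2 e3
      _ = _ := by ring
  calc b ^ 19 * Z = (b ^ 19 * Z) * 1 := by ring
    _ ≤ (b ^ 19 * Z) * (A * (b * (Z * b) ^ n)) := mul_le_mul_of_nonneg_left hL2 (by positivity)
    _ = A * ((b ^ 19 * Z) * (b * (Z * b) ^ n)) := by ring
    _ ≤ A * (b ^ 20 * Z) ^ (n + 1) := mul_le_mul_of_nonneg_left hbig hA0
    _ < A * X := mul_lt_mul_of_pos_left hX hApos

/-- the largest degree of a nonzero coefficient -/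
theorem lne_top (n : ℕ) (g : ℕ → ℕ → ℤ) (hg : ∃ i j, g i j ≠ 0)
    (hgs : ∀ i j, n ≤ i + j → g i j = 0) :
    ∃ k i0 j0, k < n ∧ i0 + j0 = k ∧ g i0 j0 ≠ 0 ∧ ∀ i j, k < i + j → g i j = 0 := by
  classical
  obtain ⟨i, j, hij⟩ := hg
  let P : ℕ → Prop := fun k => ∃ i j, i + j = k ∧ g i j ≠ 0
  have hP : ∃ k, k < n ∧ P k := by
    refine ⟨i + j, ?_, i, j, rfl, hij⟩
    by_contra h
    exact hij (hgs i j (by omega))
  have hbdd : ∀ k, P k → k ≤ n := by
    rintro k ⟨i, j, rfl, h⟩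
    by_contra h'
    exact h (hgs i j (by omega))
  obtain ⟨k0, hk0, hPk0⟩ := hP
  refine ⟨Nat.findGreatest P n, ?_⟩
  have h1 : P (Nat.findGreatest P n) := Nat.findGreatest_spec (m := k0) hk0.le hPk0
  obtain ⟨i0, j0, h2, h3⟩ := h1
  refine ⟨i0, j0, ?_, h2, h3, ?_⟩
  · by_contra h
    exact h3 (hgs i0 j0 (by omega))
  · intro i j hij
    by_contra h
    have h4 : Nat.findGreatest P n < i + j := hij
    exact Nat.findGreatest_is_greatest h4 (hbdd _ ⟨i, j, rfl, h⟩) ⟨i, j, rfl, h⟩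

/-- the element `γ` -/
noncomputable def lneG {S : Type*} [CommRing S] (n k : ℕ) (g : ℕ → ℕ → ℤ) (a : S) : S :=
  ∑ i ∈ range (n + 1), ∑ j ∈ range (n + 1 - i), if i + j = k then (g i j : S) * a ^ j else 0

theorem lneG_map {S S' : Type*} [CommRing S] [CommRing S'] (ψ : S →+* S') (n k : ℕ)
    (g : ℕ → ℕ → ℤ) (a : S) : ψ (lneG n k g a) = lneG n k g (ψ a) := by
  simp only [lneG, map_sum, apply_ite ψ, map_mul, map_intCast, map_pow, map_zero]

theorem lne_gamma_ne (O : Ord ℝ n Q f θ) (g : ℕ → ℕ → ℤ) (k i0 j0 : ℕ) (hk : k < n)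
    (h0 : i0 + j0 = k) (hg : g i0 j0 ≠ 0) : lneG n k g O.α ≠ 0 := by
  intro h
  have h1 : lneG n k g (X : ℤ[X]) = 0 := by
    apply O.indep
    · have : (lneG n k g (X : ℤ[X])).natDegree ≤ k := by
        unfold lneG
        refine natDegree_sum_le_of_forall_le _ _ fun i _ => ?_
        refine natDegree_sum_le_of_forall_le _ _ fun j _ => ?_
        split_ifs with hij
        · refine natDegree_mul_le.trans ?_
          have e1 : ((g i j : ℤ) : ℤ[X]).natDegree = 0 := natDegree_intCast _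
          have e2 : (X ^ j : ℤ[X]).natDegree ≤ j := natDegree_X_pow_le j
          omega
        · simp
      omega
    · have e := lneG_map (aeval O.α : ℤ[X] →ₐ[ℤ] O.R).toRingHom n k g X
      have e' : (aeval O.α : ℤ[X] →ₐ[ℤ] O.R).toRingHom X = O.α := aeval_X _
      rw [e'] at e
      exact e.trans h
  have h2 : (lneG n k g (X : ℤ[X])).coeff j0 = g i0 j0 := by
    unfold lneG
    rw [finsetSum_coeff, Finset.sum_eq_single i0]
    · rw [finsetSum_coeff, Finset.sum_eq_single j0]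
      · rw [if_pos h0]
        have : ((g i0 j0 : ℤ) : ℤ[X]) = C (g i0 j0) := by simp
        rw [this, coeff_C_mul, coeff_X_pow, if_pos rfl, mul_one]
      · intro j _ hj
        rw [if_neg (by omega), coeff_zero]
      · intro hj
        exact absurd (mem_range.2 (by omega)) hj
    · intro i _ hi
      rw [finsetSum_coeff]
      refine Finset.sum_eq_zero fun j _ => ?_
      split_ifs with hij
      · have : ((g i j : ℤ) : ℤ[X]) = C (g i j) := by simp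
        rw [this, coeff_C_mul, coeff_X_pow, if_neg (by omega), mul_zero]
      · simp
    · intro hi
      exact absurd (mem_range.2 (by omega)) hi
  rw [h1, coeff_zero] at h2
  exact hg h2.symm

theorem lne_gamma_nu (O : Ord ℝ n Q f θ) (hn : 4 ≤ n) (hQ : 2 ^ n ≤ Q) (g : ℕ → ℕ → ℤ) (k : ℕ)
    (Z : ℝ) (hZ : 1 ≤ Z) (hgZ : ∀ i j, |((g i j : ℤ) : ℝ)| ≤ Z) :
    O.ν (lneG n k g O.α) ≤ Z * bb n Q := by
  have hQ1 := one_le_QR hn hQ
  have hνα : O.ν O.α ≤ (Q : ℝ) ^ 2 := O.ν_α.trans (nQ_le hn hQ)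
  have hpow : ∀ j, 1 ≤ j → O.ν (O.α ^ j) ≤ ((Q : ℝ) ^ 2) ^ j := by
    intro j hj
    induction j, hj using Nat.le_induction with
    | base => simpa using hνα
    | succ j hj ih =>
      rw [pow_succ, pow_succ]
      exact (O.ν_mul _ _).trans (mul_le_mul ih hνα (O.ν_nonneg _) (by positivity))
  have hterm : ∀ i j, i + j ≤ n →
      O.ν (if i + j = k then ((g i j : ℤ) : O.R) * O.α ^ j else 0) ≤ Z * ((Q : ℝ) ^ 2) ^ n := by
    intro i j hij
    split_ifs with h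
    · rcases Nat.eq_zero_or_pos j with hj | hj
      · subst hj
        rw [pow_zero, mul_one]
        refine ((O.ν_int _).trans (hgZ i 0)).trans ?_
        have : (1 : ℝ) ≤ ((Q : ℝ) ^ 2) ^ n := one_le_pow₀ (one_le_pow₀ hQ1)
        nlinarith
      · refine (O.ν_mul _ _).trans ?_
        refine mul_le_mul ((O.ν_int _).trans (hgZ i j)) ((hpow j hj).trans ?_) (O.ν_nonneg _)
          (by linarith)
        exact pow_le_pow_right₀ (one_le_pow₀ hQ1) (by omega)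
    · rw [O.ν_zero]; positivity
  refine (lne_dsum O.ν O.ν_zero O.ν_add n _ (Z * ((Q : ℝ) ^ 2) ^ n) (by positivity)
    hterm).trans ?_
  have h1 : ((n : ℝ) + 1) ^ 2 ≤ (Q : ℝ) ^ 2 :=
    pow_le_pow_left₀ (by positivity) (n_add_one_leR hn hQ) 2
  calc ((n : ℝ) + 1) ^ 2 * (Z * ((Q : ℝ) ^ 2) ^ n) ≤ (Q : ℝ) ^ 2 * (Z * ((Q : ℝ) ^ 2) ^ n) :=
        mul_le_mul_of_nonneg_right h1 (by positivity)
    _ = Z * (Q : ℝ) ^ (2 * n + 2) := by rw [← pow_mul]; ring
    _ ≤ Z * bb n Q := mul_le_mul_of_nonneg_left (Qpow_le_bb hn hQ (by nlinarith)) (by linarith)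

theorem low_ne {O : Ord ℝ n Q f θ} {F : ℕ → ℕ → ℤ} (hF : Norml n Q f F) (br : Branch O F)
    (g : ℕ → ℕ → ℤ) (hg : ∃ i j, g i j ≠ 0) (hgs : ∀ i j, n ≤ i + j → g i j = 0)
    (Z : ℝ) (hZ : 1 ≤ Z) (hgZ : ∀ i j, |((g i j : ℤ) : ℝ)| ≤ Z)
    (x y : ℤ) (hbig : (bb n Q ^ 20 * Z) ^ (n + 1) < |(x : ℝ)|)
    (hy : |(y : ℝ) / x - θ| ≤ 1 / bb n Q) (h0 : ev n F x y = 0) :
    ev n g x y ≠ 0 := by
  have hn := hF.hn
  have hQ := hF.hQ
  have hb1 := one_le_bb hn hQ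
  have hb0 := bb_pos hn hQ
  have hb1000 := thousand_le_bb hn hQ
  have hQ1 := one_le_QR hn hQ
  obtain ⟨k, i0, j0, hkn, hk0, hg0, htop⟩ := lne_top n g hg hgs
  have hlow := lne_lower O hn hQ _ (lne_gamma_ne O g k i0 j0 hkn hk0 hg0) Z hZ
    (lne_gamma_nu O hn hQ g k Z hZ hgZ) _ hbig
  rw [lneG_map, O.φ_α] at hlow
  obtain ⟨hbe, hga, -⟩ := expand_bounds hF br
  set b := bb n Q with hb
  set X' := |(x : ℝ)| with hXdef
  have hZ0 : 0 ≤ Z := by linarith
  have hbZ : 1 ≤ b ^ 20 * Z := by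
    have : 1 ≤ b ^ 20 := one_le_pow₀ hb1
    nlinarith
  have hX20 : b ^ 20 ≤ X' := by
    have h1 : b ^ 20 * Z ≤ (b ^ 20 * Z) ^ (n + 1) := le_self_pow₀ hbZ (by omega)
    have h2 : b ^ 20 ≤ b ^ 20 * Z := le_mul_of_one_le_right (by positivity) hZ
    linarith
  have hX1 : 1 ≤ X' := (one_le_pow₀ hb1).trans hX20
  have hX0 : 0 < X' := by linarith
  have hx0 : (x : ℝ) ≠ 0 := by
    intro h; rw [hXdef, h, abs_zero] at hX0; exact lt_irrefl _ hX0
  have h5 : b ^ 5 ≤ X' := (pow_le_pow_right₀ hb1 (by norm_num)).trans hX20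
  have hexp := expand3 hF br x y h5 hy h0
  have hθ : |θ| ≤ (Q : ℝ) ^ 2 := by
    have h1 := O.φ_le O.α
    rw [O.φ_α, Real.norm_eq_abs] at h1
    exact h1.trans (O.ν_α.trans (nQ_le hn hQ))
  set z : ℝ := (y : ℝ) / x with hz
  have hyz : (y : ℝ) = x * z := by rw [hz]; field_simp
  -- bound of z - θ
  have hδ : |z - θ| * X' ≤ b ^ 3 := by
    have e1 : (z - θ) * x = ((y : ℝ) - (θ * x + br.be + br.ga / x)) + (br.be + br.ga / x) := by
      rw [hyz]; ring
    rw [hXdef, ← abs_mul, e1]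
    have e2 : |br.ga / x| ≤ 1 := by
      rw [abs_div, div_le_one hX0]
      exact (hga.trans (pow_le_pow_right₀ hb1 (by norm_num))).trans hX20
    have e3 : b ^ 20 / (x : ℝ) ^ 2 ≤ 1 := by
      have : (x : ℝ) ^ 2 = X' ^ 2 := (sq_abs _).symm
      rw [this, div_le_one (by positivity)]
      exact hX20.trans (le_self_pow₀ hX1 (by norm_num))
    have e4 := abs_add_le ((y : ℝ) - (θ * x + br.be + br.ga / x)) (br.be + br.ga / x)
    have e5 := abs_add_le br.be (br.ga / x)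
    have e6 : b ^ 2 + 1 + 1 ≤ b ^ 3 := by
      have : b ^ 3 = b * b ^ 2 := by ring
      have h1 : (1 : ℝ) ≤ b ^ 2 := one_le_pow₀ hb1
      rw [this]; nlinarith
    linarith
  set R : ℝ := 2 * (Q : ℝ) ^ 2 with hR
  have hR1 : 1 ≤ R := by
    have : (1 : ℝ) ≤ (Q : ℝ) ^ 2 := one_le_pow₀ hQ1
    rw [hR]; linarith
  have hθR : |θ| ≤ R := by
    have : (0 : ℝ) ≤ (Q : ℝ) ^ 2 := by positivity
    rw [hR]; linarith
  have hzR : |z| ≤ R := by
    have h1 : |z| ≤ |z - θ| + |θ| := by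
      have := abs_add_le (z - θ) θ
      simpa using this
    have h2 : 1 / b ≤ 1 := by rw [div_le_one hb0]; exact hb1
    have h3 : (1 : ℝ) ≤ (Q : ℝ) ^ 2 := one_le_pow₀ hQ1
    rw [hR]; linarith
  have hRn : R ^ n ≤ (Q : ℝ) ^ (2 * n + 1) := by
    rw [hR, mul_pow, ← pow_mul]
    calc (2 : ℝ) ^ n * (Q : ℝ) ^ (2 * n) ≤ Q * (Q : ℝ) ^ (2 * n) :=
          mul_le_mul_of_nonneg_right (two_pow_leR hQ) (by positivity)
      _ = (Q : ℝ) ^ (2 * n + 1) := by ring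
  have hRj : ∀ j, j ≤ n → R ^ j ≤ R ^ n := fun j hj => pow_le_pow_right₀ hR1 hj
  -- the decomposition
  intro hev
  have hcast : ∑ i ∈ range (n + 1), ∑ j ∈ range (n + 1 - i),
      ((g i j : ℤ) : ℝ) * (x : ℝ) ^ i * (y : ℝ) ^ j = 0 := by
    have h1 : ((ev n g x y : ℤ) : ℝ) = 0 := by rw [hev]; simp
    rw [← h1, ev]
    push_cast
    rfl
  have hdec : lneG n k g θ
      + (∑ i ∈ range (n + 1), ∑ j ∈ range (n + 1 - i),
          if i + j = k then ((g i j : ℤ) : ℝ) * (z ^ j - θ ^ j) else 0)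
      + (∑ i ∈ range (n + 1), ∑ j ∈ range (n + 1 - i),
          if i + j < k then ((g i j : ℤ) : ℝ) * z ^ j * ((x : ℝ) ^ (i + j) / (x : ℝ) ^ k) else 0)
      = 0 := by
    have h1 : (∑ i ∈ range (n + 1), ∑ j ∈ range (n + 1 - i),
      ((g i j : ℤ) : ℝ) * (x : ℝ) ^ i * (y : ℝ) ^ j) / (x : ℝ) ^ k = 0 := by
      rw [hcast, zero_div]
    refine Eq.trans ?_ h1
    rw [lneG, ← sum_add_distrib, ← sum_add_distrib, sum_div]
    refine sum_congr rfl fun i _ => ?_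
    rw [← sum_add_distrib, ← sum_add_distrib, sum_div]
    refine sum_congr rfl fun j _ => ?_
    have hyj : (y : ℝ) ^ j = (x : ℝ) ^ j * z ^ j := by rw [hyz, mul_pow]
    rw [hyj]
    clear_value z
    rcases lt_trichotomy (i + j) k with h | h | h
    · rw [if_neg h.ne, if_neg h.ne, if_pos h, pow_add, div_eq_mul_inv, div_eq_mul_inv]
      ring
    · rw [if_pos h, if_pos h, if_neg (by omega)]
      have hxk : (x : ℝ) ^ k ≠ 0 := pow_ne_zero _ hx0
      have : (x : ℝ) ^ i * (x : ℝ) ^ j = (x : ℝ) ^ k := by rw [← pow_add, h]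
      field_simp
      rw [← this]
      ring
    · rw [if_neg (by omega), if_neg (by omega), if_neg (by omega), htop i j h]
      simp
  set T2 := (∑ i ∈ range (n + 1), ∑ j ∈ range (n + 1 - i),
          if i + j = k then ((g i j : ℤ) : ℝ) * (z ^ j - θ ^ j) else 0) with hT2
  set T3 := (∑ i ∈ range (n + 1), ∑ j ∈ range (n + 1 - i),
          if i + j < k then ((g i j : ℤ) : ℝ) * z ^ j * ((x : ℝ) ^ (i + j) / (x : ℝ) ^ k) else 0)
    with hT3
  have hn1 : ((n : ℝ) + 1) ^ 2 ≤ (Q : ℝ) ^ 2 :=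
    pow_le_pow_left₀ (by positivity) (n_add_one_leR hn hQ) 2
  have hT2b : |T2| * X' ≤ Z * b ^ 4 := by
    have h1 : |T2| ≤ ((n : ℝ) + 1) ^ 2 * (Z * (|z - θ| * n * R ^ n)) := by
      refine lne_dsum (fun t : ℝ => |t|) abs_zero abs_add_le n _ _ (by positivity) ?_
      intro i j hij
      split_ifs with h
      · rw [abs_mul]
        refine mul_le_mul (hgZ i j) ?_ (abs_nonneg _) hZ0
        refine (abs_pow_sub_pow_le z θ j).trans ?_
        have e1 : max |z| |θ| ^ (j - 1) ≤ R ^ n :=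
          (pow_le_pow_left₀ (le_max_of_le_left (abs_nonneg _)) (max_le hzR hθR) _).trans
            (hRj _ (by omega))
        have e2 : (j : ℝ) ≤ n := by exact_mod_cast (by omega : j ≤ n)
        exact mul_le_mul (mul_le_mul_of_nonneg_left e2 (abs_nonneg _)) e1 (by positivity)
          (by positivity)
      · rw [abs_zero]; positivity
    calc |T2| * X' ≤ (((n : ℝ) + 1) ^ 2 * (Z * (|z - θ| * n * R ^ n))) * X' :=
          mul_le_mul_of_nonneg_right h1 hX0.le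
      _ = ((n : ℝ) + 1) ^ 2 * n * R ^ n * Z * (|z - θ| * X') := by ring
      _ ≤ (Q : ℝ) ^ 2 * Q * (Q : ℝ) ^ (2 * n + 1) * Z * b ^ 3 := by
          have e1 : ((n : ℝ) + 1) ^ 2 * n ≤ (Q : ℝ) ^ 2 * Q :=
            mul_le_mul hn1 (n_leR hn hQ) (by positivity) (by positivity)
          have e2 : ((n : ℝ) + 1) ^ 2 * n * R ^ n ≤ (Q : ℝ) ^ 2 * Q * (Q : ℝ) ^ (2 * n + 1) :=
            mul_le_mul e1 hRn (by positivity) (by positivity)
          have e3 := mul_le_mul_of_nonneg_right e2 hZ0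
          exact mul_le_mul e3 hδ (by positivity) (by positivity)
      _ = Z * ((Q : ℝ) ^ (2 * n + 4) * b ^ 3) := by ring
      _ ≤ Z * (b * b ^ 3) := by
          refine mul_le_mul_of_nonneg_left (mul_le_mul_of_nonneg_right
            (Qpow_le_bb hn hQ (by nlinarith)) (by positivity)) hZ0
      _ = Z * b ^ 4 := by ring
  have hT3b : |T3| * X' ≤ Z * b := by
    have h1 : |T3| ≤ ((n : ℝ) + 1) ^ 2 * (Z * (R ^ n * (1 / X'))) := by
      refine lne_dsum (fun t : ℝ => |t|) abs_zero abs_add_le n _ _ (by positivity) ?_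
      intro i j hij
      split_ifs with h
      · rw [abs_mul, abs_mul, mul_assoc]
        refine mul_le_mul (hgZ i j) ?_ (by positivity) hZ0
        refine mul_le_mul ?_ ?_ (abs_nonneg _) (by positivity)
        · rw [abs_pow]
          exact (pow_le_pow_left₀ (abs_nonneg _) hzR j).trans (hRj j (by omega))
        · rw [abs_div, abs_pow, abs_pow, div_le_div_iff₀ (by positivity) hX0, one_mul]
          calc X' ^ (i + j) * X' = X' ^ (i + j + 1) := by ring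
            _ ≤ X' ^ k := pow_le_pow_right₀ hX1 (by omega)
      · rw [abs_zero]; positivity
    calc |T3| * X' ≤ (((n : ℝ) + 1) ^ 2 * (Z * (R ^ n * (1 / X')))) * X' :=
          mul_le_mul_of_nonneg_right h1 hX0.le
      _ = ((n : ℝ) + 1) ^ 2 * R ^ n * Z := by field_simp
      _ ≤ (Q : ℝ) ^ 2 * (Q : ℝ) ^ (2 * n + 1) * Z :=
          mul_le_mul_of_nonneg_right (mul_le_mul hn1 hRn (by positivity) (by positivity)) hZ0
      _ = Z * (Q : ℝ) ^ (2 * n + 3) := by ring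
      _ ≤ Z * b := mul_le_mul_of_nonneg_left (Qpow_le_bb hn hQ (by nlinarith)) hZ0
  have hA : |lneG n k g θ| * X' ≤ Z * b ^ 4 + Z * b := by
    have h1 : lneG n k g θ = -(T2 + T3) := by linarith
    rw [h1, abs_neg]
    have := mul_le_mul_of_nonneg_right (abs_add_le T2 T3) hX0.le
    linarith
  have hfin : Z * b ^ 4 + Z * b ≤ b ^ 19 * Z := by
    have e1 : b ^ 4 + b ≤ b ^ 19 := by
      have h1 : b ^ 4 * b ≤ b ^ 19 := by
        rw [← pow_succ]; exact pow_le_pow_right₀ hb1 (by norm_num)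
      have h2 : b ≤ b ^ 4 := le_self_pow₀ hb1 (by norm_num)
      have h3 : b ^ 4 * 2 ≤ b ^ 4 * b := mul_le_mul_of_nonneg_left (by linarith) (by positivity)
      linarith
    calc Z * b ^ 4 + Z * b = Z * (b ^ 4 + b) := by ring
      _ ≤ Z * b ^ 19 := mul_le_mul_of_nonneg_left e1 hZ0
      _ = _ := by ring
  linarith

end Pool.Agent.H72.ES
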