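import Pool.Agent.H72.ES.NormB
import Pool.Agent.H72.ES.LowNe

/-! # The number of exceptional curves with given terms of degree `≥ n - 3` -/

namespace Pool.Agent.H72.ES

open Finset Polynomial

/-- two different curves with the same terms of degree `≥ n - 3` share no large integer point -/
theorem shared_point {n H : ℕ} (hn : 4 ≤ n) (hH : 2 ≤ H) (G : ℕ → ℕ → ℤ) (ha : G 0 n ≠ 0)
    (hirr : Irreducible (leadQ n G)) (F1 F2 : ℕ → ℕ → ℤ)
    (h1 : ∀ i j, i + j ≤ n → |F1 i j| ≤ (H : ℤ)) (h2 : ∀ i j, i + j ≤ n → |F2 i j| ≤ (H : ℤ))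
    (h1G : Top4 n F1 G) (h2G : Top4 n F2 G) (h1s : ∀ i j, n < i + j → F1 i j = 0)
    (h2s : ∀ i j, n < i + j → F2 i j = 0) (P : ℤ × ℤ)
    (hP : (H : ℤ) ^ (600 * n ^ 5) < max |P.1| |P.2|) (hP1 : ev n F1 P.1 P.2 = 0)
    (hP2 : ev n F2 P.1 P.2 = 0) : F1 = F2 := by
  by_contra hne
  have hirr' := lead_nrm_irreducible (by omega : 1 ≤ n) G ha hirr
  have hN1 := norml_nrm hn hH h1G h1
  have hN2 := norml_nrm hn hH h2G h2
  set Q : ℕ := 2 * H ^ n with hQ
  set f := lead n (nrm n G) with hf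
  set a := G 0 n with hadef
  have ha1 : F1 0 n = a := h1G 0 n (by omega) (by omega)
  have ha2 : F2 0 n = a := h2G 0 n (by omega) (by omega)
  have hz1 : ev n (nrm n F1) P.1 (a * P.2) = 0 := by
    rw [← ha1, ev_nrm (by omega), hP1, mul_zero]
  have hz2 : ev n (nrm n F2) P.1 (a * P.2) = 0 := by
    rw [← ha2, ev_nrm (by omega), hP2, mul_zero]
  have hb1 := one_le_bb hN1.hn hN1.hQ
  have h4b : (4 : ℝ) ≤ bb n Q := le_trans (by norm_num) (thousand_le_bb hN1.hn hN1.hQ)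
  have hQb := Q_le_bb hN1.hn hN1.hQ
  have hB : bb n Q ^ (n + 3) ≤ bb n Q ^ (60 * n ^ 2) := pow_le_pow_right₀ hb1 (by nlinarith)
  have hbig : (Q : ℝ) ^ 2 * bb n Q ^ (60 * n ^ 2) ≤ ((max |P.1| |a * P.2| : ℤ) : ℝ) := by
    have h3 : (((H : ℤ) ^ (600 * n ^ 5) : ℤ) : ℝ) ≤ ((max |P.1| |a * P.2| : ℤ) : ℝ) := by
      have : max |P.1| |P.2| ≤ max |P.1| |a * P.2| := by
        refine max_le_max le_rfl ?_
        rw [abs_mul]
        have : 1 ≤ |a| := Int.one_le_abs ha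
        nlinarith [abs_nonneg P.2]
      exact_mod_cast hP.le.trans this
    refine le_trans (threshold_le hn hH) ?_
    push_cast at h3 ⊢
    exact h3
  obtain ⟨hx, θ, hθ, hnear⟩ := far_pointB hN1 hirr' P.1 (a * P.2) (by rw [hz1]; simp) _ hB hbig
  obtain ⟨hm, hd, hc⟩ := hN1.lead_props
  obtain ⟨O⟩ := exists_ord ℝ hN1.hn hN1.hQ hm hd hc hirr' θ hθ
  obtain ⟨br⟩ := exists_branch O hN1
  set g : ℕ → ℕ → ℤ := fun i j => nrm n F1 i j - nrm n F2 i j with hg
  have hg4 : ∀ i j, n < i + j + 4 → g i j = 0 := by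
    intro i j hij
    by_cases hj : j = n
    · simp [hg, nrm, hj]
    · by_cases hle : i + j ≤ n
      · simp only [hg, nrm, hj, if_false]
        rw [ha1, ha2, h1G i j hle hij, h2G i j hle hij, sub_self]
      · simp only [hg, nrm, hj, if_false]
        rw [h1s i j (by omega), h2s i j (by omega)]
        ring
  have hgne : ∃ i j, g i j ≠ 0 := by
    by_contra hall
    push Not at hall
    apply hne
    funext i j
    by_cases h : n < i + j
    · rw [h1s i j h, h2s i j h]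
    · by_cases h4 : n < i + j + 4
      · rw [h1G i j (by omega) h4, h2G i j (by omega) h4]
      · have h5 := hall i j
        have hj : j ≠ n := by omega
        simp only [hg, nrm, hj, if_false] at h5
        rw [ha1, ha2, ← mul_sub] at h5
        have h6 := (mul_eq_zero.1 h5).resolve_left (pow_ne_zero _ ha)
        linarith
  have hgZ : ∀ i j, |((g i j : ℤ) : ℝ)| ≤ (Q : ℝ) := by
    intro i j
    by_cases h : i + j ≤ n
    · have e1 := nrm_bound (by omega : 1 ≤ n) F1 H (by omega) h1 i j h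
      have e2 := nrm_bound (by omega : 1 ≤ n) F2 H (by omega) h2 i j h
      have e3 : |g i j| ≤ (Q : ℤ) := by
        refine (abs_sub _ _).trans ?_
        rw [hQ]
        push_cast at e1 e2 ⊢
        linarith
      exact_mod_cast e3
    · rw [hg4 i j (by omega)]
      simp
  have hQ1 := one_le_QR hN1.hn hN1.hQ
  refine low_ne hN1 br g hgne (fun i j hij => hg4 i j (by omega)) (Q : ℝ) hQ1 hgZ P.1 (a * P.2)
    ?_ hnear hz1 ?_
  · refine lt_of_lt_of_le ?_ hx
    calc (bb n Q ^ 20 * (Q : ℝ)) ^ (n + 1) ≤ (bb n Q ^ 20 * bb n Q) ^ (n + 1) := by gcongr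
      _ = bb n Q ^ (21 * (n + 1)) := by
        rw [← pow_succ, ← pow_mul]
      _ < bb n Q ^ (60 * n ^ 2) := pow_lt_pow_right₀ (by linarith) (by nlinarith)
  · have : ev n g P.1 (a * P.2) = ev n (nrm n F1) P.1 (a * P.2) - ev n (nrm n F2) P.1 (a * P.2) := by
      unfold ev
      rw [← sum_sub_distrib]
      refine sum_congr rfl fun i _ => ?_
      rw [← sum_sub_distrib]
      refine sum_congr rfl fun j _ => ?_
      simp only [hg]
      ring
    rw [this, hz1, hz2, sub_self]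

/-- **All but `80 n³` curves with given terms of degree `≥ n - 3` satisfy the effective bound.** -/
theorem exceptional_count {n H : ℕ} (hn : 4 ≤ n) (hH : 2 ≤ H) (G : ℕ → ℕ → ℤ)
    (hG : ∀ i j, i + j ≤ n → |G i j| ≤ (H : ℤ)) (ha : G 0 n ≠ 0)
    (hirr : Irreducible (leadQ n G))
    (hflex : ∀ θ : ℝ, aeval θ (part n 0 G) = 0 → aeval θ (flexP n G) ≠ 0)
    (T : Finset (ℕ → ℕ → ℤ))
    (hT : ∀ F ∈ T, (∀ i j, i + j ≤ n → |F i j| ≤ (H : ℤ)) ∧ Top4 n F G ∧
      (∀ i j, n < i + j → F i j = 0) ∧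
      ∃ P : ℤ × ℤ, (H : ℤ) ^ (600 * n ^ 5) < max |P.1| |P.2| ∧ ev n F P.1 P.2 = 0) :
    T.card ≤ 80 * n ^ 3 := by
  classical
  choose! p hp using fun F hF => (hT F hF).2.2.2
  have hinj : Set.InjOn p T := by
    intro F1 hF1 F2 hF2 h12
    have hF1' : F1 ∈ T := hF1
    have hF2' : F2 ∈ T := hF2
    refine shared_point hn hH G ha hirr F1 F2 (hT F1 hF1').1 (hT F2 hF2').1 (hT F1 hF1').2.1
      (hT F2 hF2').2.1 (hT F1 hF1').2.2.1 (hT F2 hF2').2.2.1 (p F1) (hp F1 hF1').1 (hp F1 hF1').2 ?_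
    rw [h12]
    exact (hp F2 hF2').2
  rw [← card_image_of_injOn hinj]
  refine main_countB hn hH G hG ha hirr hflex _ ?_
  intro P hP
  obtain ⟨F, hF, rfl⟩ := mem_image.1 hP
  exact ⟨(hp F hF).1, F, (hT F hF).1, (hT F hF).2.1, (hp F hF).2⟩

end Pool.Agent.H72.ES
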