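import Pool.Agent.H72.ES.Approx

/-! # [ES-EXPAND] Expansion of an integer point at the branch

`be = φ(w_1)/κ`, `ga = φ(w_2)/κ³`, `de = φ(w_3)/κ⁵` (`κ = O.φ O.κ`), so that
`z = θ + be t + ga t² + de t³ + ...` (`v(t) = κ w(t/κ²)`), `y = θ x + be + ga/x + de/x² + ...`.

Bounds: `|φ w_k| ≤ ν(w_k) ≤ b^(2k)/b` (`br.bd`, `coeff_le_wn`), `1/|κ| ≤ Q^(3n²) ≤ b`
(`kappa_lower`): `|be| ≤ b²`, `|ga| ≤ b⁶`, `|de| ≤ b^10`.

Expansions: apply `approx_z` with the constant series `t = C (1/x)`, `z = C (y/x)`, `ρ = 1`,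
`τ = 1/|x|` (`wn` of a constant series is the absolute value; `evt` of constants is a constant),
`T = 3`, `ε = 0` for `expand3`; `T = 4`, `ε = Q/|x|^4` for `expand4`
(`evt n F (1/x) (y/x) = ev n F x y / x^n`, `n ≥ 4`). `zT` is then the constant
`θ + be/x + ga/x² (+ de/x³)`. Multiply by `x`. -/

namespace Pool.Agent.H72.ES

open Finset Polynomial

variable {n Q : ℕ} {f : ℤ[X]} {θ : ℝ}

noncomputable def Branch.be {O : Ord ℝ n Q f θ} {F : ℕ → ℕ → ℤ} (br : Branch O F) : ℝ :=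
  O.φ (PowerSeries.coeff 1 br.w) / O.φ O.κ

noncomputable def Branch.ga {O : Ord ℝ n Q f θ} {F : ℕ → ℕ → ℤ} (br : Branch O F) : ℝ :=
  O.φ (PowerSeries.coeff 2 br.w) / O.φ O.κ ^ 3

noncomputable def Branch.de {O : Ord ℝ n Q f θ} {F : ℕ → ℕ → ℤ} (br : Branch O F) : ℝ :=
  O.φ (PowerSeries.coeff 3 br.w) / O.φ O.κ ^ 5

theorem exp_phi_coeff {O : Ord ℝ n Q f θ} {F : ℕ → ℕ → ℤ} (hF : Norml n Q f F)
    (br : Branch O F) (k : ℕ) :
    |O.φ (PowerSeries.coeff k br.w)| * bb n Q ≤ bb n Q ^ (2 * k) := by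
  have h1 := br.bd k
  have hb := bb_pos hF.hn hF.hQ
  have h2 := coeff_le_wn O.subMul (by positivity : (0 : ℝ) ≤ 1 / bb n Q ^ 2) (le_refl k) br.w
  have h3 := h2.trans h1
  have h4 : |O.φ (PowerSeries.coeff k br.w)| ≤ O.ν (PowerSeries.coeff k br.w) := by
    have := O.φ_le (PowerSeries.coeff k br.w)
    rwa [Real.norm_eq_abs] at this
  rw [one_div_pow, mul_one_div, ← pow_mul, div_le_div_iff₀ (by positivity) hb, one_mul] at h3
  exact (mul_le_mul_of_nonneg_right h4 hb.le).trans h3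

theorem exp_kappa {O : Ord ℝ n Q f θ} {F : ℕ → ℕ → ℤ} (hF : Norml n Q f F) :
    0 < |O.φ O.κ| ∧ 1 / |O.φ O.κ| ≤ bb n Q := by
  have h1 := kappa_lower O hF
  rw [Real.norm_eq_abs] at h1
  have h2 : 0 < |O.φ O.κ| := by
    rcases (abs_nonneg (O.φ O.κ)).lt_or_eq with h | h
    · exact h
    · rw [← h, zero_mul] at h1
      linarith
  refine ⟨h2, ?_⟩
  rw [div_le_iff₀ h2]
  have h3 : (Q : ℝ) ^ (3 * n ^ 2) ≤ bb n Q := Qpow_le_bb hF.hn hF.hQ (by nlinarith)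
  calc (1 : ℝ) ≤ |O.φ O.κ| * (Q : ℝ) ^ (3 * n ^ 2) := h1
    _ ≤ |O.φ O.κ| * bb n Q := mul_le_mul_of_nonneg_left h3 h2.le
    _ = _ := mul_comm _ _

theorem expand_bounds {O : Ord ℝ n Q f θ} {F : ℕ → ℕ → ℤ} (hF : Norml n Q f F)
    (br : Branch O F) :
    |br.be| ≤ bb n Q ^ 2 ∧ |br.ga| ≤ bb n Q ^ 6 ∧ |br.de| ≤ bb n Q ^ 10 := by
  have hb := bb_pos hF.hn hF.hQ
  obtain ⟨hk0, hk⟩ := exp_kappa (O := O) hF
  have hk' : 0 ≤ 1 / |O.φ O.κ| := by positivity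
  have c1 : |O.φ (PowerSeries.coeff 1 br.w)| ≤ bb n Q := by
    have := exp_phi_coeff hF br 1
    refine le_of_mul_le_mul_right (this.trans_eq ?_) hb
    ring
  have c2 : |O.φ (PowerSeries.coeff 2 br.w)| ≤ bb n Q ^ 3 := by
    have := exp_phi_coeff hF br 2
    refine le_of_mul_le_mul_right (this.trans_eq ?_) hb
    ring
  have c3 : |O.φ (PowerSeries.coeff 3 br.w)| ≤ bb n Q ^ 5 := by
    have := exp_phi_coeff hF br 3
    refine le_of_mul_le_mul_right (this.trans_eq ?_) hb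
    ring
  refine ⟨?_, ?_, ?_⟩
  · have e : |br.be| = |O.φ (PowerSeries.coeff 1 br.w)| * (1 / |O.φ O.κ|) := by
      rw [Branch.be, abs_div]; ring
    rw [e]
    calc |O.φ (PowerSeries.coeff 1 br.w)| * (1 / |O.φ O.κ|) ≤ bb n Q * bb n Q :=
          mul_le_mul c1 hk hk' hb.le
      _ = _ := by ring
  · have e : |br.ga| = |O.φ (PowerSeries.coeff 2 br.w)| * (1 / |O.φ O.κ|) ^ 3 := by
      rw [Branch.ga, abs_div, abs_pow, one_div_pow]; ring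
    rw [e]
    calc |O.φ (PowerSeries.coeff 2 br.w)| * (1 / |O.φ O.κ|) ^ 3 ≤ bb n Q ^ 3 * bb n Q ^ 3 :=
          mul_le_mul c2 (pow_le_pow_left₀ hk' hk 3) (by positivity) (by positivity)
      _ = _ := by ring
  · have e : |br.de| = |O.φ (PowerSeries.coeff 3 br.w)| * (1 / |O.φ O.κ|) ^ 5 := by
      rw [Branch.de, abs_div, abs_pow, one_div_pow]; ring
    rw [e]
    calc |O.φ (PowerSeries.coeff 3 br.w)| * (1 / |O.φ O.κ|) ^ 5 ≤ bb n Q ^ 5 * bb n Q ^ 5 :=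
          mul_le_mul c3 (pow_le_pow_left₀ hk' hk 5) (by positivity) (by positivity)
      _ = _ := by ring

theorem exp_zT_const {O : Ord ℝ n Q f θ} {F : ℕ → ℕ → ℤ} (br : Branch O F) (s : ℝ) (T : ℕ) :
    zT br (PowerSeries.C s) T = PowerSeries.C (θ + O.φ O.κ *
      ∑ i ∈ range T, O.φ (PowerSeries.coeff i br.w) * (1 / O.φ O.κ ^ 2 * s) ^ i) := by
  unfold zT
  rw [PowerSeries.eval₂_trunc_eq_sum_range]
  simp only [map_add, map_mul, map_sum, map_pow, RingHom.comp_apply]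

theorem exp_evt_const (F : ℕ → ℕ → ℤ) (x y : ℤ) (hx : (x : ℝ) ≠ 0) :
    evt n (cst (PowerSeries ℝ) F) (PowerSeries.C (1 / (x : ℝ))) (PowerSeries.C ((y : ℝ) / x)) =
      PowerSeries.C ((1 / (x : ℝ)) ^ n * ((ev n F x y : ℤ) : ℝ)) := by
  have h1 : evt n (cst (PowerSeries ℝ) F) (PowerSeries.C (1 / (x : ℝ)))
      (PowerSeries.C ((y : ℝ) / x)) =
      PowerSeries.C (evt n (cst ℝ F) (1 / (x : ℝ)) ((y : ℝ) / x)) := by
    rw [evt_map, cst_map]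
  have h2 : (y : ℝ) / x = (1 / (x : ℝ)) * y := by ring
  have h3 : ((ev n F x y : ℤ) : ℝ) = ev n (cst ℝ F) (x : ℝ) (y : ℝ) := by
    have := ev_map (Int.castRingHom ℝ) n F x y
    rw [eq_intCast, eq_intCast, eq_intCast] at this
    exact this
  rw [h1, h2, evt_eq_ev n (cst ℝ F) (x : ℝ) (y : ℝ) (1 / (x : ℝ)) (by field_simp), h3]

/-- the general estimate -/
theorem exp_main {O : Ord ℝ n Q f θ} {F : ℕ → ℕ → ℤ} (hF : Norml n Q f F) (br : Branch O F)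
    (x y : ℤ) (hx : bb n Q ^ 5 ≤ |(x : ℝ)|) (hy : |(y : ℝ) / x - θ| ≤ 1 / bb n Q)
    (T : ℕ) (E : ℝ) (hE : |((ev n F x y : ℤ) : ℝ)| ≤ E) :
    |(y : ℝ) / x - (θ + O.φ O.κ * ∑ i ∈ range T,
      O.φ (PowerSeries.coeff i br.w) * (1 / O.φ O.κ ^ 2 * (1 / x)) ^ i)| ≤
      2 * bb n Q * (E / |(x : ℝ)| ^ n + bb n Q * (1 / |(x : ℝ)| * bb n Q ^ 4) ^ T) := by
  have hb := bb_pos hF.hn hF.hQ
  have hx0 : 0 < |(x : ℝ)| := lt_of_lt_of_le (by positivity) hx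
  have hxne : (x : ℝ) ≠ 0 := abs_pos.1 hx0
  have h := approx_z O hF br (PowerSeries.C (1 / (x : ℝ))) (PowerSeries.C ((y : ℝ) / x)) 1
    one_pos (1 / |(x : ℝ)|)
    (fun K => by rw [wn_C subMul_abs, abs_div, abs_one])
    (by rw [one_div_mul_eq_div, div_le_one hx0]; exact hx)
    (fun K => by rw [← map_sub, wn_C subMul_abs]; exact hy)
    (E / |(x : ℝ)| ^ n)
    (fun K => by
      rw [exp_evt_const F x y hxne, wn_C subMul_abs, abs_mul, abs_pow, abs_div, abs_one,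
        one_div_pow, one_div_mul_eq_div]
      exact div_le_div_of_nonneg_right hE (by positivity)) T 0
  rw [exp_zT_const, ← map_sub, wn_C subMul_abs] at h
  exact h

theorem expand3 {O : Ord ℝ n Q f θ} {F : ℕ → ℕ → ℤ} (hF : Norml n Q f F) (br : Branch O F)
    (x y : ℤ) (hx : bb n Q ^ 5 ≤ |(x : ℝ)|) (hy : |(y : ℝ) / x - θ| ≤ 1 / bb n Q)
    (h0 : ev n F x y = 0) :
    |(y : ℝ) - (θ * x + br.be + br.ga / x)| ≤ bb n Q ^ 20 / (x : ℝ) ^ 2 := by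
  have hb := bb_pos hF.hn hF.hQ
  have hb1 := one_le_bb hF.hn hF.hQ
  have hx0 : 0 < |(x : ℝ)| := lt_of_lt_of_le (by positivity) hx
  have hxne : (x : ℝ) ≠ 0 := abs_pos.1 hx0
  have hk : O.φ O.κ ≠ 0 := abs_pos.1 (exp_kappa (O := O) hF).1
  have h := exp_main hF br x y hx hy 3 0 (by rw [h0]; simp)
  have hw0 : PowerSeries.coeff 0 br.w = 0 := by
    rw [PowerSeries.coeff_zero_eq_constantCoeff_apply, br.h0]
  have e1 : (y : ℝ) - (θ * x + br.be + br.ga / x) = x * ((y : ℝ) / x -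
      (θ + O.φ O.κ * ∑ i ∈ range 3,
        O.φ (PowerSeries.coeff i br.w) * (1 / O.φ O.κ ^ 2 * (1 / x)) ^ i)) := by
    simp only [sum_range_succ, range_zero, sum_empty, hw0, map_zero, Branch.be, Branch.ga]
    field_simp
    ring
  rw [e1, abs_mul]
  refine (mul_le_mul_of_nonneg_left h hx0.le).trans ?_
  have hsq : (x : ℝ) ^ 2 = |(x : ℝ)| ^ 2 := (sq_abs _).symm
  rw [hsq]
  have e2 : |(x : ℝ)| * (2 * bb n Q * (0 / |(x : ℝ)| ^ n +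
      bb n Q * (1 / |(x : ℝ)| * bb n Q ^ 4) ^ 3)) = 2 * bb n Q ^ 14 / |(x : ℝ)| ^ 2 := by
    rw [zero_div]
    field_simp
    ring
  rw [e2]
  refine div_le_div_of_nonneg_right ?_ (by positivity)
  have h2 : (2 : ℝ) ≤ bb n Q := by
    refine le_trans ?_ (Q_le_bb hF.hn hF.hQ)
    linarith [sixteen_leR hF.hn hF.hQ]
  calc 2 * bb n Q ^ 14 ≤ bb n Q * bb n Q ^ 14 := by gcongr
    _ = bb n Q ^ 15 := by ring
    _ ≤ bb n Q ^ 20 := pow_le_pow_right₀ hb1 (by norm_num)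

theorem expand4 {O : Ord ℝ n Q f θ} {F : ℕ → ℕ → ℤ} (hF : Norml n Q f F) (br : Branch O F)
    (x y : ℤ) (hx : bb n Q ^ 5 ≤ |(x : ℝ)|) (hy : |(y : ℝ) / x - θ| ≤ 1 / bb n Q)
    (h0 : |ev n F x y| ≤ (Q : ℤ)) :
    |(y : ℝ) - (θ * x + br.be + br.ga / x + br.de / (x : ℝ) ^ 2)| ≤
      bb n Q ^ 25 / |(x : ℝ)| ^ 3 := by
  have hb := bb_pos hF.hn hF.hQ
  have hb1 := one_le_bb hF.hn hF.hQ
  have hx0 : 0 < |(x : ℝ)| := lt_of_lt_of_le (by positivity) hx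
  have hx1 : 1 ≤ |(x : ℝ)| := le_trans (one_le_pow₀ hb1) hx
  have hxne : (x : ℝ) ≠ 0 := abs_pos.1 hx0
  have hk : O.φ O.κ ≠ 0 := abs_pos.1 (exp_kappa (O := O) hF).1
  have hEq : |((ev n F x y : ℤ) : ℝ)| ≤ (Q : ℝ) := by exact_mod_cast h0
  have h := exp_main hF br x y hx hy 4 Q hEq
  have hw0 : PowerSeries.coeff 0 br.w = 0 := by
    rw [PowerSeries.coeff_zero_eq_constantCoeff_apply, br.h0]
  have e1 : (y : ℝ) - (θ * x + br.be + br.ga / x + br.de / (x : ℝ) ^ 2) = x * ((y : ℝ) / x -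
      (θ + O.φ O.κ * ∑ i ∈ range 4,
        O.φ (PowerSeries.coeff i br.w) * (1 / O.φ O.κ ^ 2 * (1 / x)) ^ i)) := by
    simp only [sum_range_succ, range_zero, sum_empty, hw0, map_zero, Branch.be, Branch.ga,
      Branch.de]
    field_simp
    ring
  rw [e1, abs_mul]
  refine (mul_le_mul_of_nonneg_left h hx0.le).trans ?_
  have hQb : (Q : ℝ) ≤ bb n Q := Q_le_bb hF.hn hF.hQ
  have hn4 : |(x : ℝ)| ^ 4 ≤ |(x : ℝ)| ^ n := pow_le_pow_right₀ hx1 hF.hn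
  have e3 : (Q : ℝ) / |(x : ℝ)| ^ n ≤ bb n Q / |(x : ℝ)| ^ 4 := by
    calc (Q : ℝ) / |(x : ℝ)| ^ n ≤ bb n Q / |(x : ℝ)| ^ n :=
          div_le_div_of_nonneg_right hQb (by positivity)
      _ ≤ bb n Q / |(x : ℝ)| ^ 4 := div_le_div_of_nonneg_left hb.le (by positivity) hn4
  have h2 : (4 : ℝ) ≤ bb n Q := by
    refine le_trans ?_ (Q_le_bb hF.hn hF.hQ)
    linarith [sixteen_leR hF.hn hF.hQ]
  calc |(x : ℝ)| * (2 * bb n Q * ((Q : ℝ) / |(x : ℝ)| ^ n +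
      bb n Q * (1 / |(x : ℝ)| * bb n Q ^ 4) ^ 4))
      ≤ |(x : ℝ)| * (2 * bb n Q * (bb n Q / |(x : ℝ)| ^ 4 +
      bb n Q * (1 / |(x : ℝ)| * bb n Q ^ 4) ^ 4)) := by gcongr
    _ = (2 * bb n Q ^ 2 + 2 * bb n Q ^ 18) / |(x : ℝ)| ^ 3 := by
        field_simp
    _ ≤ bb n Q ^ 25 / |(x : ℝ)| ^ 3 := by
        refine div_le_div_of_nonneg_right ?_ (by positivity)
        have h3 : bb n Q ^ 2 ≤ bb n Q ^ 18 := pow_le_pow_right₀ hb1 (by norm_num)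
        calc 2 * bb n Q ^ 2 + 2 * bb n Q ^ 18 ≤ 4 * bb n Q ^ 18 := by linarith
          _ ≤ bb n Q * bb n Q ^ 18 := by gcongr
          _ = bb n Q ^ 19 := by ring
          _ ≤ bb n Q ^ 25 := pow_le_pow_right₀ hb1 (by norm_num)

end Pool.Agent.H72.ES
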