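import Pool.Agent.H72.ES.Expand

/-! # Expansion of integer points of all curves with the same terms of degree `≥ n - 3` -/

namespace Pool.Agent.H72.ES

open Finset Polynomial

/-- Agreement of the terms of degree `≥ n - 3`. -/
def Top4 (n : ℕ) (F G : ℕ → ℕ → ℤ) : Prop := ∀ i j, i + j ≤ n → n < i + j + 4 → F i j = G i j

variable {n Q : ℕ} {f : ℤ[X]} {θ : ℝ}

theorem slope_of_near (O : Ord ℝ n Q f θ) {F : ℕ → ℕ → ℤ} (hF : Norml n Q f F) (x y : ℤ)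
    (hx : x ≠ 0) (hy : |(y : ℝ) / x - θ| ≤ 1 / bb n Q) : |(y : ℝ)| ≤ (Q : ℝ) ^ 3 * |(x : ℝ)| := by
  have hb := bb_pos hF.hn hF.hQ
  have hb1 := one_le_bb hF.hn hF.hQ
  have hQ16 := sixteen_leR hF.hn hF.hQ
  have hx0 : 0 < |(x : ℝ)| := abs_pos.2 (by exact_mod_cast hx)
  have hθ : |θ| ≤ (Q : ℝ) ^ 2 := by
    have h1 := O.φ_le O.α
    rw [O.φ_α, Real.norm_eq_abs] at h1
    exact h1.trans (O.ν_α.trans (nQ_le hF.hn hF.hQ))
  have h1 : |(y : ℝ) / x| ≤ (Q : ℝ) ^ 3 := by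
    have h2 : 1 / bb n Q ≤ 1 := by
      rw [div_le_one hb]
      exact hb1
    calc |(y : ℝ) / x| = |((y : ℝ) / x - θ) + θ| := by ring_nf
      _ ≤ |(y : ℝ) / x - θ| + |θ| := abs_add_le _ _
      _ ≤ 1 + (Q : ℝ) ^ 2 := by linarith
      _ ≤ (Q : ℝ) ^ 3 := by
        have : (Q : ℝ) ^ 3 = Q * (Q : ℝ) ^ 2 := by ring
        rw [this]
        have : (1 : ℝ) ≤ (Q : ℝ) ^ 2 := one_le_pow₀ (by linarith)
        nlinarith
  rw [abs_div, div_le_iff₀ hx0] at h1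
  exact h1

theorem ev_small_of_top4 (O : Ord ℝ n Q f θ) {F G : ℕ → ℕ → ℤ} (hF : Norml n Q f F)
    (hG : Norml n Q f G) (hFG : Top4 n F G) (x y : ℤ) (hx : x ≠ 0)
    (hy : |(y : ℝ) / x - θ| ≤ 1 / bb n Q) (h0 : ev n F x y = 0) :
    |((ev n G x y : ℤ) : ℝ)| ≤ bb n Q * |(x : ℝ)| ^ (n - 4) := by
  have hn := hF.hn
  have hslope := slope_of_near O hF x y hx hy
  have hQ1 := one_le_QR hF.hn hF.hQ
  have hQ16 := sixteen_leR hF.hn hF.hQ
  have hx1 : 1 ≤ |(x : ℝ)| := by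
    have : 1 ≤ |x| := Int.one_le_abs hx
    exact_mod_cast this
  have h1 : ((ev n G x y : ℤ) : ℝ) = ∑ i ∈ range (n + 1), ∑ j ∈ range (n + 1 - i),
      ((G i j - F i j : ℤ) : ℝ) * (x : ℝ) ^ i * (y : ℝ) ^ j := by
    have h2 : ev n G x y = ev n G x y - ev n F x y := by rw [h0, sub_zero]
    rw [h2]
    unfold ev
    rw [← sum_sub_distrib]
    push_cast
    refine sum_congr rfl fun i _ => ?_
    rw [← sum_sub_distrib]
    refine sum_congr rfl fun j _ => ?_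
    ring
  rw [h1]
  have h2 : ∀ i ∈ range (n + 1), ∀ j ∈ range (n + 1 - i),
      |((G i j - F i j : ℤ) : ℝ) * (x : ℝ) ^ i * (y : ℝ) ^ j| ≤
        2 * Q * (Q : ℝ) ^ (3 * n) * |(x : ℝ)| ^ (n - 4) := by
    intro i hi j hj
    simp only [mem_range] at hi hj
    by_cases h : n < i + j + 4
    · rw [hFG i j (by omega) h]
      simp
      positivity
    · rw [abs_mul, abs_mul, abs_pow, abs_pow]
      have e1 : |((G i j - F i j : ℤ) : ℝ)| ≤ 2 * Q := by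
        have e2 : |G i j - F i j| ≤ 2 * (Q : ℤ) := by
          have := abs_sub (G i j) (F i j)
          have g1 := hG.bound i j (by omega)
          have g2 := hF.bound i j (by omega)
          linarith
        exact_mod_cast e2
      calc |((G i j - F i j : ℤ) : ℝ)| * |(x : ℝ)| ^ i * |(y : ℝ)| ^ j
          ≤ 2 * Q * |(x : ℝ)| ^ i * ((Q : ℝ) ^ 3 * |(x : ℝ)|) ^ j := by gcongr
        _ = 2 * Q * (Q : ℝ) ^ (3 * j) * |(x : ℝ)| ^ (i + j) := by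
          rw [mul_pow, ← pow_mul, pow_add]
          ring
        _ ≤ 2 * Q * (Q : ℝ) ^ (3 * n) * |(x : ℝ)| ^ (n - 4) := by
          have e3 : (Q : ℝ) ^ (3 * j) ≤ (Q : ℝ) ^ (3 * n) := pow_le_pow_right₀ hQ1 (by omega)
          have e4 : |(x : ℝ)| ^ (i + j) ≤ |(x : ℝ)| ^ (n - 4) := pow_le_pow_right₀ hx1 (by omega)
          gcongr
  have h3 : |∑ i ∈ range (n + 1), ∑ j ∈ range (n + 1 - i),
      ((G i j - F i j : ℤ) : ℝ) * (x : ℝ) ^ i * (y : ℝ) ^ j| ≤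
      ∑ i ∈ range (n + 1), ∑ j ∈ range (n + 1 - i),
        2 * Q * (Q : ℝ) ^ (3 * n) * |(x : ℝ)| ^ (n - 4) := by
    refine (abs_sum_le_sum_abs _ _).trans (sum_le_sum fun i hi => ?_)
    exact (abs_sum_le_sum_abs _ _).trans (sum_le_sum fun j hj => h2 i hi j hj)
  refine h3.trans ?_
  have h4 : ∑ i ∈ range (n + 1), ∑ j ∈ range (n + 1 - i),
        2 * (Q : ℝ) * (Q : ℝ) ^ (3 * n) * |(x : ℝ)| ^ (n - 4) ≤
      ∑ i ∈ range (n + 1), ((n : ℝ) + 1) * (2 * Q * (Q : ℝ) ^ (3 * n) * |(x : ℝ)| ^ (n - 4)) := by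
    refine sum_le_sum fun i hi => ?_
    rw [sum_const, nsmul_eq_mul, card_range]
    have : ((n + 1 - i : ℕ) : ℝ) ≤ (n : ℝ) + 1 := by
      have : n + 1 - i ≤ n + 1 := Nat.sub_le _ _
      exact_mod_cast this
    gcongr
  refine h4.trans ?_
  rw [sum_const, nsmul_eq_mul, card_range]
  have hnQ := n_add_one_leR hF.hn hF.hQ
  push_cast
  calc ((n : ℝ) + 1) * (((n : ℝ) + 1) * (2 * Q * (Q : ℝ) ^ (3 * n) * |(x : ℝ)| ^ (n - 4)))
      ≤ Q * (Q * (Q * Q * (Q : ℝ) ^ (3 * n) * |(x : ℝ)| ^ (n - 4))) := by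
        have : (2 : ℝ) ≤ Q := by linarith
        gcongr
    _ = (Q : ℝ) ^ (3 * n + 4) * |(x : ℝ)| ^ (n - 4) := by ring
    _ ≤ bb n Q * |(x : ℝ)| ^ (n - 4) := by
        have : (Q : ℝ) ^ (3 * n + 4) ≤ bb n Q := Qpow_le_bb hF.hn hF.hQ (by nlinarith)
        gcongr

theorem expand4g {O : Ord ℝ n Q f θ} {F G : ℕ → ℕ → ℤ} (hF : Norml n Q f F)
    (hG : Norml n Q f G) (hFG : Top4 n F G) (br : Branch O G)
    (x y : ℤ) (hx : bb n Q ^ 5 ≤ |(x : ℝ)|) (hy : |(y : ℝ) / x - θ| ≤ 1 / bb n Q)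
    (h0 : ev n F x y = 0) :
    |(y : ℝ) - (θ * x + br.be + br.ga / x + br.de / (x : ℝ) ^ 2)| ≤
      bb n Q ^ 25 / |(x : ℝ)| ^ 3 := by
  have hb := bb_pos hF.hn hF.hQ
  have hb1 := one_le_bb hF.hn hF.hQ
  have hx0 : 0 < |(x : ℝ)| := lt_of_lt_of_le (by positivity) hx
  have hx1 : 1 ≤ |(x : ℝ)| := le_trans (one_le_pow₀ hb1) hx
  have hxne : (x : ℝ) ≠ 0 := abs_pos.1 hx0
  have hxz : x ≠ 0 := by exact_mod_cast hxne
  have hk : O.φ O.κ ≠ 0 := abs_pos.1 (exp_kappa (O := O) hF).1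
  have hEq := ev_small_of_top4 O hF hG hFG x y hxz hy h0
  have h := exp_main hG br x y hx hy 4 _ hEq
  have hw0 : PowerSeries.coeff 0 br.w = 0 := by
    rw [PowerSeries.coeff_zero_eq_constantCoeff_apply, br.h0]
  have e1 : (y : ℝ) - (θ * x + br.be + br.ga / x + br.de / (x : ℝ) ^ 2) = x * ((y : ℝ) / x -
      (θ + O.φ O.κ * ∑ i ∈ range 4,
        O.φ (PowerSeries.coeff i br.w) * (1 / O.φ O.κ ^ 2 * (1 / x)) ^ i)) := by
    simp only [sum_range_succ, range_zero, sum_empty, hw0, map_zero, Branch.be, Branch.ga,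
      Branch.de]
    field_simp
    ring
  rw [e1, abs_mul]
  refine (mul_le_mul_of_nonneg_left h hx0.le).trans ?_
  have e3 : bb n Q * |(x : ℝ)| ^ (n - 4) / |(x : ℝ)| ^ n = bb n Q / |(x : ℝ)| ^ 4 := by
    have : |(x : ℝ)| ^ n = |(x : ℝ)| ^ (n - 4) * |(x : ℝ)| ^ 4 := by
      rw [← pow_add]
      congr 1
      have := hF.hn
      omega
    rw [this]
    field_simp
  rw [e3]
  have h2 : (4 : ℝ) ≤ bb n Q := by
    refine le_trans ?_ (Q_le_bb hF.hn hF.hQ)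
    linarith [sixteen_leR hF.hn hF.hQ]
  calc |(x : ℝ)| * (2 * bb n Q * (bb n Q / |(x : ℝ)| ^ 4 +
      bb n Q * (1 / |(x : ℝ)| * bb n Q ^ 4) ^ 4))
      = (2 * bb n Q ^ 2 + 2 * bb n Q ^ 18) / |(x : ℝ)| ^ 3 := by
        field_simp
    _ ≤ bb n Q ^ 25 / |(x : ℝ)| ^ 3 := by
        refine div_le_div_of_nonneg_right ?_ (by positivity)
        have h3 : bb n Q ^ 2 ≤ bb n Q ^ 18 := pow_le_pow_right₀ hb1 (by norm_num)
        calc 2 * bb n Q ^ 2 + 2 * bb n Q ^ 18 ≤ 4 * bb n Q ^ 18 := by linarith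
          _ ≤ bb n Q * bb n Q ^ 18 := by gcongr
          _ = bb n Q ^ 19 := by ring
          _ ≤ bb n Q ^ 25 := pow_le_pow_right₀ hb1 (by norm_num)

end Pool.Agent.H72.ES
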