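import Pool.Agent.H72.ES.Const

/-! # [ES-FAR] Large integer points with `|G| ≤ Q` lie close to an asymptotic direction

(a) If `Q^5 < max(|x|,|y|)` and `|G(x,y)| ≤ Q` then `|y| ≤ Q² |x|` (so `x ≠ 0`).
Suppose `|y| > Q² |x|`. Then `|y| > Q^5`-ish (`|y| = max`). Leading form:
`|y^n + ∑_{j<n} G (n-j) j x^(n-j) y^j| ≥ |y|^n (1 - ∑_{j<n} Q Q^(-2(n-j))) ≥ |y|^n / 2`
(`|x| ≤ |y|/Q²`, `∑_{k≥1} Q^(1-2k) ≤ 2/Q ≤ 1/2`), lower terms
`≤ (n+1)² Q |y|^(n-1) ≤ Q³ |y|^(n-1)`, so `|G| ≥ |y|^(n-1) (|y|/2 - Q³) > Q`.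

(b) With `z = y/x`, `|z| ≤ Q²`: `f(z) = G(x,y)/x^n - ∑_{i+j<n} G i j x^(i+j-n) z^j`, so
`|f(z)| ≤ (Q + (n+1)² Q Q^(2n)) / |x| ≤ Q^(2n+4)/|x|`. -/

namespace Pool.Agent.H72.ES

open Finset Polynomial

theorem far_cast {n : ℕ} (G : ℕ → ℕ → ℤ) (x y : ℤ) :
    ((ev n G x y : ℤ) : ℝ) =
      ∑ i ∈ range (n + 1), ∑ j ∈ range (n + 1 - i), (G i j : ℝ) * (x : ℝ) ^ i * (y : ℝ) ^ j := by
  unfold ev
  push_cast
  rfl

theorem far_term {n Q : ℕ} {f : ℤ[X]} {G : ℕ → ℕ → ℤ} (hG : Norml n Q f G) (x y : ℝ) {i j : ℕ}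
    (h : i + j ≤ n) : |(G i j : ℝ) * x ^ i * y ^ j| ≤ Q * |x| ^ i * |y| ^ j := by
  rw [abs_mul, abs_mul, abs_pow, abs_pow]
  have h1 : |(G i j : ℝ)| ≤ Q := by exact_mod_cast hG.bound i j h
  gcongr

theorem slope_bound {n Q : ℕ} {f : ℤ[X]} {G : ℕ → ℕ → ℤ} (hG : Norml n Q f G) (x y : ℤ)
    (h : |ev n G x y| ≤ (Q : ℤ)) (hbig : (Q : ℤ) ^ 5 < max |x| |y|) :
    |y| ≤ (Q : ℤ) ^ 2 * |x| := by
  by_contra hcon
  push Not at hcon
  have hn := hG.hn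
  have hQ := hG.hQ
  have hQ1 := one_le_QR hn hQ
  have hQ16 := sixteen_leR hn hQ
  have hnsq := n_sq_leR hn hQ
  have hn4 : (4 : ℝ) ≤ n := by exact_mod_cast hn
  set X : ℝ := |(x : ℝ)| with hX
  set Y : ℝ := |(y : ℝ)| with hY
  have hXY : (Q : ℝ) ^ 2 * X < Y := by
    rw [hX, hY]
    exact_mod_cast hcon
  have hX0 : 0 ≤ X := abs_nonneg _
  have hXleY : X ≤ Y := (le_mul_of_one_le_left hX0 (one_le_pow₀ hQ1)).trans hXY.le
  have hYbig : (Q : ℝ) ^ 5 < Y := by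
    have h1 : ((max |x| |y| : ℤ) : ℝ) = Y := by
      rw [Int.cast_max]
      push_cast
      exact max_eq_right hXleY
    rw [← h1]
    exact_mod_cast hbig
  have hY1 : 1 ≤ Y := (one_le_pow₀ hQ1).trans hYbig.le
  have hY0 : 0 < Y := by linarith
  obtain ⟨m, rfl⟩ : ∃ m, n = m + 1 := ⟨n - 1, by omega⟩
  -- the value as a real number
  have hev : |((ev (m + 1) G x y : ℤ) : ℝ)| ≤ Q := by exact_mod_cast h
  rw [far_cast] at hev
  rw [sum_range_succ'] at hev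
  have e0 : ∑ j ∈ range (m + 1 + 1 - 0), (G 0 j : ℝ) * (x : ℝ) ^ 0 * (y : ℝ) ^ j =
      (∑ j ∈ range (m + 1), (G 0 j : ℝ) * (x : ℝ) ^ 0 * (y : ℝ) ^ j) + (y : ℝ) ^ (m + 1) := by
    rw [Nat.sub_zero, sum_range_succ, hG.top]
    simp
  rw [e0] at hev
  -- bounds
  have b0 : |∑ j ∈ range (m + 1), (G 0 j : ℝ) * (x : ℝ) ^ 0 * (y : ℝ) ^ j| ≤
      (m + 1) * (Q * Y ^ m) := by
    refine (abs_sum_le_sum_abs _ _).trans ?_
    have : ∀ j ∈ range (m + 1), |(G 0 j : ℝ) * (x : ℝ) ^ 0 * (y : ℝ) ^ j| ≤ Q * Y ^ m := by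
      intro j hj
      rw [mem_range] at hj
      refine (far_term hG _ _ (by omega)).trans ?_
      rw [pow_zero, mul_one]
      exact mul_le_mul_of_nonneg_left (pow_le_pow_right₀ hY1 (by omega)) (by positivity)
    refine (sum_le_sum this).trans ?_
    rw [sum_const, card_range, nsmul_eq_mul]
    push_cast
    exact le_rfl
  have b1 : |∑ i ∈ range (m + 1), ∑ j ∈ range (m + 1 + 1 - (i + 1)),
      (G (i + 1) j : ℝ) * (x : ℝ) ^ (i + 1) * (y : ℝ) ^ j| ≤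
      ((m + 1) * (m + 2) / 2) * (Y ^ (m + 1) / Q) := by
    refine (abs_sum_le_sum_abs _ _).trans ?_
    have h1 : ∀ i ∈ range (m + 1), |∑ j ∈ range (m + 1 + 1 - (i + 1)),
        (G (i + 1) j : ℝ) * (x : ℝ) ^ (i + 1) * (y : ℝ) ^ j| ≤
        (((m + 1 - i : ℕ)) : ℝ) * (Y ^ (m + 1) / Q) := by
      intro i hi
      rw [mem_range] at hi
      refine (abs_sum_le_sum_abs _ _).trans ?_
      have h2 : ∀ j ∈ range (m + 1 + 1 - (i + 1)),
          |(G (i + 1) j : ℝ) * (x : ℝ) ^ (i + 1) * (y : ℝ) ^ j| ≤ Y ^ (m + 1) / Q := by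
        intro j hj
        rw [mem_range] at hj
        refine (far_term hG _ _ (by omega)).trans ?_
        rw [le_div_iff₀ (by positivity)]
        have h3 : X ^ i * Y ^ j ≤ Y ^ m := by
          calc X ^ i * Y ^ j ≤ Y ^ i * Y ^ j := by gcongr
            _ = Y ^ (i + j) := by rw [pow_add]
            _ ≤ Y ^ m := pow_le_pow_right₀ hY1 (by omega)
        calc (Q : ℝ) * X ^ (i + 1) * Y ^ j * Q = ((Q : ℝ) ^ 2 * X) * (X ^ i * Y ^ j) := by ring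
          _ ≤ Y * Y ^ m := by gcongr
          _ = Y ^ (m + 1) := by ring
      refine (sum_le_sum h2).trans ?_
      rw [sum_const, card_range, nsmul_eq_mul]
      have : m + 1 + 1 - (i + 1) = m + 1 - i := by omega
      rw [this]
    refine (sum_le_sum h1).trans ?_
    rw [← sum_mul]
    refine mul_le_mul_of_nonneg_right (le_of_eq ?_) (by positivity)
    have h4 : ∑ i ∈ range (m + 1), (((m + 1 - i : ℕ)) : ℝ) = ∑ i ∈ range (m + 1), ((i : ℝ) + 1) := by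
      rw [← sum_range_reflect]
      refine sum_congr rfl fun i hi => ?_
      rw [mem_range] at hi
      have : m + 1 - (m + 1 - 1 - i) = i + 1 := by omega
      rw [this]
      push_cast
      ring
    rw [h4]
    have h5 : ∀ k : ℕ, ∑ i ∈ range k, ((i : ℝ) + 1) = k * (k + 1) / 2 := by
      intro k
      induction k with
      | zero => simp
      | succ k ih => rw [sum_range_succ, ih]; push_cast; ring
    rw [h5]
    push_cast
    ring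
  have hlow : Y ^ (m + 1) ≤ Q + (m + 1) * (Q * Y ^ m) +
      ((m + 1) * (m + 2) / 2) * (Y ^ (m + 1) / Q) := by
    have h1 : Y ^ (m + 1) = |(y : ℝ) ^ (m + 1)| := by rw [abs_pow]
    have h2 : (y : ℝ) ^ (m + 1) =
        (∑ i ∈ range (m + 1), ∑ j ∈ range (m + 1 + 1 - (i + 1)),
          (G (i + 1) j : ℝ) * (x : ℝ) ^ (i + 1) * (y : ℝ) ^ j +
        ((∑ j ∈ range (m + 1), (G 0 j : ℝ) * (x : ℝ) ^ 0 * (y : ℝ) ^ j) + (y : ℝ) ^ (m + 1))) -
        (∑ j ∈ range (m + 1), (G 0 j : ℝ) * (x : ℝ) ^ 0 * (y : ℝ) ^ j) -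
        (∑ i ∈ range (m + 1), ∑ j ∈ range (m + 1 + 1 - (i + 1)),
          (G (i + 1) j : ℝ) * (x : ℝ) ^ (i + 1) * (y : ℝ) ^ j) := by ring
    calc Y ^ (m + 1) = |(y : ℝ) ^ (m + 1)| := h1
      _ = _ := congrArg abs h2
      _ ≤ _ := abs_sub _ _
      _ ≤ _ := add_le_add ((abs_sub _ _).trans (add_le_add hev b0)) b1
  push_cast at hnsq hn4
  have hm0 : (0 : ℝ) ≤ m := Nat.cast_nonneg m
  have hYm : 0 < Y ^ m := by positivity
  -- the last term is at most (5/8) Y^(m+1)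
  have c1 : ((m : ℝ) + 1) * (m + 2) / 2 * (Y ^ (m + 1) / Q) ≤ 5 / 8 * Y ^ (m + 1) := by
    have h1 : ((m : ℝ) + 1) * (m + 2) / 2 ≤ 5 / 8 * Q := by nlinarith
    calc ((m : ℝ) + 1) * (m + 2) / 2 * (Y ^ (m + 1) / Q) ≤ 5 / 8 * Q * (Y ^ (m + 1) / Q) :=
          mul_le_mul_of_nonneg_right h1 (by positivity)
      _ = 5 / 8 * Y ^ (m + 1) := by field_simp
  have c2 : ((m : ℝ) + 1) * (Q * Y ^ m) ≤ 1 / 16 * Y ^ (m + 1) := by
    have h1 : ((m : ℝ) + 1) ≤ Q := by nlinarith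
    have h2 : ((m : ℝ) + 1) * Q ≤ 1 / 16 * Y := by
      have h3 : 16 * ((m : ℝ) + 1) * Q ≤ Q ^ 5 := by
        calc 16 * ((m : ℝ) + 1) * Q ≤ Q * Q * Q := by gcongr
          _ = Q ^ 3 := by ring
          _ ≤ Q ^ 5 := pow_le_pow_right₀ hQ1 (by norm_num)
      linarith
    calc ((m : ℝ) + 1) * (Q * Y ^ m) = (((m : ℝ) + 1) * Q) * Y ^ m := by ring
      _ ≤ (1 / 16 * Y) * Y ^ m := mul_le_mul_of_nonneg_right h2 hYm.le
      _ = 1 / 16 * Y ^ (m + 1) := by ring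
  have c3 : (Q : ℝ) ≤ 1 / 16 * Y ^ (m + 1) := by
    have h1 : Y ≤ Y ^ (m + 1) := le_self_pow₀ hY1 (by omega)
    have h2 : 16 * (Q : ℝ) ≤ Q ^ 5 := by
      calc 16 * (Q : ℝ) ≤ Q * Q := by gcongr
        _ = Q ^ 2 := by ring
        _ ≤ Q ^ 5 := pow_le_pow_right₀ hQ1 (by norm_num)
    linarith
  have hYp : 0 < Y ^ (m + 1) := by positivity
  linarith

theorem lead_small {n Q : ℕ} {f : ℤ[X]} {G : ℕ → ℕ → ℤ} (hG : Norml n Q f G) (x y : ℤ)
    (h : |ev n G x y| ≤ (Q : ℤ)) (hx : x ≠ 0) (hy : |y| ≤ (Q : ℤ) ^ 2 * |x|) :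
    |aeval ((y : ℝ) / x) f| ≤ (Q : ℝ) ^ (2 * n + 4) / |(x : ℝ)| := by
  have hn := hG.hn
  have hQ := hG.hQ
  have hQ1 := one_le_QR hn hQ
  have hQn := n_add_one_leR hn hQ
  set X : ℝ := |(x : ℝ)| with hX
  set Y : ℝ := |(y : ℝ)| with hY
  have hxR : (x : ℝ) ≠ 0 := by exact_mod_cast hx
  have hX1 : 1 ≤ X := by
    rw [hX]
    exact_mod_cast Int.one_le_abs hx
  have hX0 : 0 < X := by linarith
  have hYX : Y ≤ (Q : ℝ) ^ 2 * X := by
    rw [hX, hY]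
    exact_mod_cast hy
  have hY0 : 0 ≤ Y := abs_nonneg _
  have hev : |((ev n G x y : ℤ) : ℝ)| ≤ Q := by exact_mod_cast h
  rw [far_cast] at hev
  -- the leading form
  have hlead : (x : ℝ) ^ n * aeval ((y : ℝ) / x) f =
      ∑ i ∈ range (n + 1), (G i (n - i) : ℝ) * (x : ℝ) ^ i * (y : ℝ) ^ (n - i) := by
    rw [← hG.lead_eq]
    unfold lead
    rw [map_sum, mul_sum, ← sum_range_reflect]
    refine sum_congr rfl fun i hi => ?_
    rw [mem_range] at hi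
    have h1 : n + 1 - 1 - i = n - i := by omega
    have h2 : n - (n - i) = i := by omega
    rw [h1, h2, map_mul, map_pow, aeval_X, aeval_C, div_pow]
    have h3 : (x : ℝ) ^ n = (x : ℝ) ^ i * (x : ℝ) ^ (n - i) := by
      rw [← pow_add]
      congr 1
      omega
    rw [h3]
    have h4 : (x : ℝ) ^ (n - i) ≠ 0 := pow_ne_zero _ hxR
    simp only [algebraMap_int_eq, eq_intCast]
    field_simp
  have hsplit : ∑ i ∈ range (n + 1), ∑ j ∈ range (n + 1 - i),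
      (G i j : ℝ) * (x : ℝ) ^ i * (y : ℝ) ^ j =
      ∑ i ∈ range (n + 1), ∑ j ∈ range (n - i), (G i j : ℝ) * (x : ℝ) ^ i * (y : ℝ) ^ j +
      ∑ i ∈ range (n + 1), (G i (n - i) : ℝ) * (x : ℝ) ^ i * (y : ℝ) ^ (n - i) := by
    rw [← sum_add_distrib]
    refine sum_congr rfl fun i hi => ?_
    rw [mem_range] at hi
    have h1 : n + 1 - i = n - i + 1 := by omega
    rw [h1, sum_range_succ]
  rw [hsplit, ← hlead] at hev
  obtain ⟨m, rfl⟩ : ∃ m, n = m + 1 := ⟨n - 1, by omega⟩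
  have hlow : |∑ i ∈ range (m + 1 + 1), ∑ j ∈ range (m + 1 - i),
      (G i j : ℝ) * (x : ℝ) ^ i * (y : ℝ) ^ j| ≤
      (Q * Q) * (Q * ((Q : ℝ) ^ (2 * m) * X ^ m)) := by
    refine (abs_sum_le_sum_abs _ _).trans ?_
    have h1 : ∀ i ∈ range (m + 1 + 1), |∑ j ∈ range (m + 1 - i),
        (G i j : ℝ) * (x : ℝ) ^ i * (y : ℝ) ^ j| ≤ Q * (Q * ((Q : ℝ) ^ (2 * m) * X ^ m)) := by
      intro i hi
      refine (abs_sum_le_sum_abs _ _).trans ?_
      have h2 : ∀ j ∈ range (m + 1 - i), |(G i j : ℝ) * (x : ℝ) ^ i * (y : ℝ) ^ j| ≤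
          Q * ((Q : ℝ) ^ (2 * m) * X ^ m) := by
        intro j hj
        rw [mem_range] at hj
        refine (far_term hG _ _ (by omega)).trans ?_
        rw [mul_assoc]
        refine mul_le_mul_of_nonneg_left ?_ (by positivity)
        calc X ^ i * Y ^ j ≤ X ^ i * ((Q : ℝ) ^ 2 * X) ^ j := by gcongr
          _ = (Q : ℝ) ^ (2 * j) * X ^ (i + j) := by rw [mul_pow, ← pow_mul, pow_add]; ring
          _ ≤ (Q : ℝ) ^ (2 * m) * X ^ m := by
            gcongr <;> omega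
      refine (sum_le_sum h2).trans ?_
      rw [sum_const, card_range, nsmul_eq_mul]
      refine mul_le_mul_of_nonneg_right ?_ (by positivity)
      refine le_trans ?_ hQn
      have : ((m + 1 - i : ℕ) : ℝ) ≤ ((m + 1 : ℕ) : ℝ) := by
        exact_mod_cast Nat.sub_le _ _
      linarith
    refine (sum_le_sum h1).trans ?_
    rw [sum_const, card_range, nsmul_eq_mul, mul_assoc]
    refine mul_le_mul_of_nonneg_right ?_ (by positivity)
    push_cast at hQn ⊢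
    exact hQn
  have hfin : X ^ (m + 1) * |aeval ((y : ℝ) / x) f| ≤
      Q + (Q * Q) * (Q * ((Q : ℝ) ^ (2 * m) * X ^ m)) := by
    have e1 : X ^ (m + 1) * |aeval ((y : ℝ) / x) f| =
        |(x : ℝ) ^ (m + 1) * aeval ((y : ℝ) / x) f| := by rw [abs_mul, abs_pow]
    have e2 : (x : ℝ) ^ (m + 1) * aeval ((y : ℝ) / x) f =
        (∑ i ∈ range (m + 1 + 1), ∑ j ∈ range (m + 1 - i),
          (G i j : ℝ) * (x : ℝ) ^ i * (y : ℝ) ^ j + (x : ℝ) ^ (m + 1) * aeval ((y : ℝ) / x) f) -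
        ∑ i ∈ range (m + 1 + 1), ∑ j ∈ range (m + 1 - i),
          (G i j : ℝ) * (x : ℝ) ^ i * (y : ℝ) ^ j := by ring
    rw [e1, e2]
    exact (abs_sub _ _).trans (add_le_add hev hlow)
  rw [le_div_iff₀ hX0]
  have hXm : 0 < X ^ m := by positivity
  have hXm1 : 1 ≤ X ^ m := one_le_pow₀ hX1
  have h9 : X ^ m * (|aeval ((y : ℝ) / x) f| * X) ≤ X ^ m * (Q : ℝ) ^ (2 * (m + 1) + 4) := by
    calc X ^ m * (|aeval ((y : ℝ) / x) f| * X) = X ^ (m + 1) * |aeval ((y : ℝ) / x) f| := by ring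
      _ ≤ Q + (Q * Q) * (Q * ((Q : ℝ) ^ (2 * m) * X ^ m)) := hfin
      _ = Q + Q ^ (2 * m + 3) * X ^ m := by ring
      _ ≤ Q ^ (2 * m + 3) * X ^ m + Q ^ (2 * m + 3) * X ^ m := by
          gcongr
          calc (Q : ℝ) = Q ^ 1 * 1 := by ring
            _ ≤ Q ^ (2 * m + 3) * X ^ m := by
              gcongr
              omega
      _ = 2 * (Q ^ (2 * m + 3) * X ^ m) := by ring
      _ ≤ Q * (Q ^ (2 * m + 3) * X ^ m) := by
          gcongr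
          linarith [sixteen_leR hn hQ]
      _ = X ^ m * Q ^ (2 * m + 4) := by ring
      _ ≤ X ^ m * (Q : ℝ) ^ (2 * (m + 1) + 4) := by
          gcongr
          omega
  exact le_of_mul_le_mul_left h9 hXm

end Pool.Agent.H72.ES
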