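import Pool.Agent.H72.ES.Expand

/-! # [ES-GAFORM] The second coefficient of the branch (flexes at infinity)

`c_ij = tc n F O.α i j`. Compare the coefficients of `X^1` and `X^2` in `br.eq`
(`evt_taylor`: `0 = ∑_{i,j≤n} c_ij κ^(2i) X^i (κ w)^j`, `w = w₁ X + w₂ X² + ...`,
`c_00 = f(α) = 0`, `c_01 = κ`, `κ ≠ 0`, `O.R` is a domain):
* `X^1`: `c_10 κ² + κ * κ w₁ = 0`, so `w₁ = - c_10`;
* `X^2`: `c_20 κ⁴ + c_11 κ² κ w₁ + c_02 κ² w₁² + κ * κ w₂ = 0`, so
  `w₂ = -(c_20 κ² + c_11 κ w₁ + c_02 w₁²) = -(c_20 c_01² - c_11 c_01 c_10 + c_02 c_10²)`.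
Apply `φ` (`tc_map`): `φ w₂ = - flexv n F θ ≠ 0`, so `w₂ ≠ 0`, `ν w₂ ≤ b³` (`br.bd`,
`coeff_le_wn`), Liouville: `1 ≤ |φ w₂| Q^(4n) (b³)^n ≤ |φ w₂| b^(3n+1)`
(`Q^(4n) ≤ Q^(7n²) = b`), and `ga = φ w₂/κ³`, `|κ| ≤ ν κ ≤ Q^(2n)`, `|κ|³ ≤ Q^(6n) ≤ b`
(`6 n ≤ 7 n²`), so `1 ≤ |ga| |κ|³ b^(3n+1) ≤ |ga| b^(3n+2) ≤ |ga| b^(4n)`.

`tc_eq_eval`: `tc n F α i j = ∑_{l ≤ n-i} F (n-i-l) l C(l,j) α^(l-j)` is the value at `α` of the
`j`-th Hasse derivative of `part n i F = ∑_l F (n-i-l) l X^l` (`hasseDeriv 1 = derivative`,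
`2 * hasseDeriv 2 = derivative²`). -/

namespace Pool.Agent.H72.ES

open Finset Polynomial

/-- `F_{n-k}(1, X)`, the homogeneous part of degree `n - k` at `(1, X)` -/
noncomputable def part (n k : ℕ) (F : ℕ → ℕ → ℤ) : ℤ[X] :=
  ∑ j ∈ range (n + 1 - k), C (F (n - k - j) j) * X ^ j

/-- `2 f'^2 h - 2 f' g' g + f'' g^2` for the homogeneous parts `f, g, h` of degrees `n, n-1, n-2`
at `(1, X)`: it vanishes at a root `θ` of `f` iff the point at infinity with slope `θ` is a flex -/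
noncomputable def flexP (n : ℕ) (F : ℕ → ℕ → ℤ) : ℤ[X] :=
  2 * derivative (part n 0 F) ^ 2 * part n 2 F -
    2 * derivative (part n 0 F) * derivative (part n 1 F) * part n 1 F +
    derivative (derivative (part n 0 F)) * part n 1 F ^ 2

/-- the same in terms of Taylor coefficients -/
def flexv {S : Type*} [CommRing S] (n : ℕ) (F : ℕ → ℕ → ℤ) (θ : S) : S :=
  tc n F θ 2 0 * tc n F θ 0 1 ^ 2 - tc n F θ 1 1 * tc n F θ 0 1 * tc n F θ 1 0 +
    tc n F θ 0 2 * tc n F θ 1 0 ^ 2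

theorem part_zero (n : ℕ) (F : ℕ → ℕ → ℤ) : part n 0 F = lead n F := by
  simp [part, lead]

theorem tc_eq_eval {S : Type*} [CommRing S] (n : ℕ) (F : ℕ → ℕ → ℤ) (θ : S) (i j : ℕ) :
    tc n F θ i j = aeval θ (hasseDeriv j (part n i F)) := by
  unfold tc part
  rw [map_sum, map_sum]
  refine sum_congr rfl fun l _ => ?_
  rw [C_mul_X_pow_eq_monomial, hasseDeriv_monomial, aeval_monomial]
  simp only [map_mul, algebraMap_int_eq, eq_intCast, Int.cast_natCast]
  ring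

theorem flexP_eval {S : Type*} [CommRing S] (n : ℕ) (F : ℕ → ℕ → ℤ) (θ : S) :
    aeval θ (flexP n F) = 2 * flexv n F θ := by
  have h01 : aeval θ (derivative (part n 0 F)) = tc n F θ 0 1 := by
    rw [tc_eq_eval, hasseDeriv_one]
  have h11 : aeval θ (derivative (part n 1 F)) = tc n F θ 1 1 := by
    rw [tc_eq_eval, hasseDeriv_one]
  have h20 : aeval θ (part n 2 F) = tc n F θ 2 0 := by
    rw [tc_eq_eval, hasseDeriv_zero, LinearMap.id_apply]
  have h10 : aeval θ (part n 1 F) = tc n F θ 1 0 := by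
    rw [tc_eq_eval, hasseDeriv_zero, LinearMap.id_apply]
  have h02 : aeval θ (derivative (derivative (part n 0 F))) = 2 * tc n F θ 0 2 := by
    rw [tc_eq_eval]
    have h3 : derivative (derivative (part n 0 F)) = 2 * hasseDeriv 2 (part n 0 F) := by
      have h4 := factorial_smul_hasseDeriv (R := ℤ) 2
      have h5 := congrFun h4 (part n 0 F)
      rw [LinearMap.smul_apply, nsmul_eq_mul] at h5
      simp only [Nat.factorial_two, Function.iterate_succ, Function.iterate_zero,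
        Function.comp_apply, id_eq, Nat.cast_ofNat] at h5
      exact h5.symm
    rw [h3, map_mul, map_ofNat]
  unfold flexP flexv
  simp only [map_add, map_sub, map_mul, map_pow, h01, h11, h20, h10, h02, map_ofNat]
  ring

variable {n Q : ℕ} {f : ℤ[X]} {θ : ℝ}

theorem gaForm_sum_three {M : Type*} [AddCommMonoid M] {n : ℕ} (hn : 4 ≤ n) (g : ℕ → ℕ → M)
    (hg : ∀ i j, 3 ≤ i + j → g i j = 0) :
    ∑ i ∈ range (n + 1), ∑ j ∈ range (n + 1), g i j =
      g 0 0 + g 0 1 + g 0 2 + (g 1 0 + g 1 1) + g 2 0 := by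
  have hsub : range 3 ⊆ range (n + 1) := by
    intro x hx
    rw [mem_range] at hx ⊢
    omega
  have h1 : ∑ i ∈ range (n + 1), ∑ j ∈ range (n + 1), g i j =
      ∑ i ∈ range 3, ∑ j ∈ range 3, g i j := by
    rw [← sum_subset hsub]
    · refine sum_congr rfl fun i _ => ?_
      rw [← sum_subset hsub]
      intro j _ hj
      rw [mem_range, not_lt] at hj
      exact hg i j (by omega)
    · intro i _ hi
      rw [mem_range, not_lt] at hi
      exact sum_eq_zero fun j _ => hg i j (by omega)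
  rw [h1]
  simp only [sum_range_succ, range_zero, sum_empty, zero_add]
  rw [hg 1 2 (by omega), hg 2 1 (by omega), hg 2 2 (by omega)]
  simp only [add_zero]

theorem gaForm_coeffs (O : Ord ℝ n Q f θ) {F : ℕ → ℕ → ℤ} (hF : Norml n Q f F)
    (br : Branch O F) :
    PowerSeries.coeff 2 br.w = -(tc n F O.α 2 0 * O.κ ^ 2 -
      tc n F O.α 1 1 * O.κ * tc n F O.α 1 0 + tc n F O.α 0 2 * tc n F O.α 1 0 ^ 2) := by
  obtain ⟨w', hw'⟩ := PowerSeries.X_dvd_iff.2 br.h0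
  set w2 : O.R := PowerSeries.coeff 1 w' with hw2
  have hcw2 : PowerSeries.coeff 2 br.w = w2 := by
    rw [hw', PowerSeries.coeff_succ_X_mul]
  have hκ := kappa_ne O hF
  have h00 : tc n F O.α 0 0 = 0 := by rw [tc_zero_zero, hF.lead_eq]; exact O.root
  have h01 : tc n F O.α 0 1 = O.κ := by rw [tc_zero_one, hF.lead_eq]; rfl
  have heq := br.eq
  rw [evt_taylor] at heq
  have hterm : ∀ i j : ℕ, tc n F (PowerSeries.C O.α) i j *
      (PowerSeries.C O.κ ^ 2 * PowerSeries.X) ^ i * (PowerSeries.C O.κ * br.w) ^ j =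
      PowerSeries.X ^ (i + j) * (PowerSeries.C (tc n F O.α i j * O.κ ^ (2 * i + j)) * w' ^ j) := by
    intro i j
    rw [← tc_map (PowerSeries.C (R := O.R)) n F O.α i j, hw', mul_pow, mul_pow, mul_pow,
      ← pow_mul, map_mul, map_pow, pow_add, pow_add]
    ring
  have hcoeff : ∀ m : ℕ, m ≤ 2 → ∀ i j : ℕ, 3 ≤ i + j → PowerSeries.coeff m
      (PowerSeries.X ^ (i + j) * (PowerSeries.C (tc n F O.α i j * O.κ ^ (2 * i + j)) * w' ^ j)) =
      0 := by
    intro m hm i j hij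
    rw [PowerSeries.coeff_X_pow_mul', if_neg (by omega)]
  have hc : ∀ m : ℕ, m ≤ 2 → (∑ i ∈ range (n + 1), ∑ j ∈ range (n + 1), PowerSeries.coeff m
      (PowerSeries.X ^ (i + j) * (PowerSeries.C (tc n F O.α i j * O.κ ^ (2 * i + j)) *
        w' ^ j))) = 0 := by
    intro m hm
    have h := congrArg (PowerSeries.coeff m) heq
    rw [map_sum, map_zero] at h
    rw [← h]
    refine sum_congr rfl fun i _ => ?_
    rw [map_sum]
    refine sum_congr rfl fun j _ => ?_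
    rw [hterm]
  have h1 := hc 1 (by norm_num)
  rw [gaForm_sum_three hF.hn _ (hcoeff 1 (by norm_num))] at h1
  have h2 := hc 2 (by norm_num)
  rw [gaForm_sum_three hF.hn _ (hcoeff 2 (by norm_num))] at h2
  simp only [PowerSeries.coeff_X_pow_mul', PowerSeries.coeff_C_mul] at h1 h2
  norm_num at h1 h2
  rw [h01] at h1 h2
  set v := PowerSeries.constantCoeff w' with hv
  have e1 : O.κ ^ 2 * (v + tc n F O.α 1 0) = 0 := by linear_combination h1
  have hv1 : v = -tc n F O.α 1 0 := by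
    have := (mul_eq_zero.1 e1).resolve_left (pow_ne_zero 2 hκ)
    linear_combination this
  have e2 : O.κ ^ 2 * (w2 + tc n F O.α 0 2 * v ^ 2 + tc n F O.α 1 1 * O.κ * v +
      tc n F O.α 2 0 * O.κ ^ 2) = 0 := by
    rw [hw2]
    linear_combination h2
  have e3 := (mul_eq_zero.1 e2).resolve_left (pow_ne_zero 2 hκ)
  rw [hcw2]
  rw [hv1] at e3
  linear_combination e3

theorem ga_lower (O : Ord ℝ n Q f θ) {F : ℕ → ℕ → ℤ} (hF : Norml n Q f F) (br : Branch O F)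
    (h : flexv n F θ ≠ 0) : 1 ≤ |br.ga| * bb n Q ^ (4 * n) := by
  have hn := hF.hn
  have hQ := hF.hQ
  have hb0 := bb_pos hn hQ
  have hb1 := one_le_bb hn hQ
  have hQ1 := one_le_QR hn hQ
  set w2 : O.R := PowerSeries.coeff 2 br.w with hw2
  have hφw : O.φ w2 = -flexv n F θ := by
    rw [hw2, gaForm_coeffs O hF br]
    have h01 : O.φ O.κ = tc n F θ 0 1 := by
      have : tc n F O.α 0 1 = O.κ := by rw [tc_zero_one, hF.lead_eq]; rfl
      rw [← this, tc_map, O.φ_α]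
    simp only [map_neg, map_add, map_sub, map_mul, map_pow, h01, tc_map, O.φ_α]
    unfold flexv
    ring
  have hw0 : w2 ≠ 0 := by
    intro h0
    rw [h0, map_zero] at hφw
    exact h (neg_eq_zero.1 hφw.symm)
  have hν : O.ν w2 ≤ bb n Q ^ 3 := by
    have h1 := coeff_le_wn O.subMul (by positivity : (0 : ℝ) ≤ 1 / bb n Q ^ 2) (le_refl 2) br.w
    have h2 := h1.trans (br.bd 2)
    rw [← hw2] at h2
    rw [one_div_pow, mul_one_div, ← pow_mul, div_le_div_iff₀ (by positivity) hb0, one_mul] at h2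
    refine le_of_mul_le_mul_right (h2.trans_eq ?_) hb0
    ring
  have hl := O.liouville w2 hw0
  rw [Real.norm_eq_abs] at hl
  have hQ4 : (Q : ℝ) ^ (4 * n) ≤ bb n Q := Qpow_le_bb hn hQ (by nlinarith)
  have hνn : O.ν w2 ^ n ≤ bb n Q ^ (3 * n) := by
    rw [pow_mul]
    exact pow_le_pow_left₀ (O.ν_nonneg _) hν n
  have hl2 : 1 ≤ |O.φ w2| * bb n Q ^ (3 * n + 1) := by
    refine hl.trans (mul_le_mul_of_nonneg_left ?_ (abs_nonneg _))
    rw [pow_succ, mul_comm]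
    exact mul_le_mul hνn hQ4 (by positivity) (by positivity)
  obtain ⟨hκ0, -⟩ := exp_kappa (O := O) hF
  have hκ : |O.φ O.κ| ≤ (Q : ℝ) ^ (2 * n) := by
    have := (O.φ_le O.κ).trans (kappa_bound O hF)
    rwa [Real.norm_eq_abs] at this
  have hκ3 : |O.φ O.κ| ^ 3 ≤ bb n Q := by
    calc |O.φ O.κ| ^ 3 ≤ ((Q : ℝ) ^ (2 * n)) ^ 3 := pow_le_pow_left₀ (abs_nonneg _) hκ 3
      _ = (Q : ℝ) ^ (6 * n) := by rw [← pow_mul]; congr 1; ring
      _ ≤ bb n Q := Qpow_le_bb hn hQ (by nlinarith)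
  have hga : |O.φ w2| = |br.ga| * |O.φ O.κ| ^ 3 := by
    rw [Branch.ga, abs_div, abs_pow, div_mul_cancel₀ _ (by positivity)]
  rw [hga] at hl2
  calc 1 ≤ |br.ga| * |O.φ O.κ| ^ 3 * bb n Q ^ (3 * n + 1) := hl2
    _ ≤ |br.ga| * bb n Q * bb n Q ^ (3 * n + 1) := by
        refine mul_le_mul_of_nonneg_right ?_ (by positivity)
        exact mul_le_mul_of_nonneg_left hκ3 (abs_nonneg _)
    _ = |br.ga| * bb n Q ^ (3 * n + 2) := by ring
    _ ≤ |br.ga| * bb n Q ^ (4 * n) :=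
        mul_le_mul_of_nonneg_left (bbpow_mono hn hQ (by omega)) (abs_nonneg _)

end Pool.Agent.H72.ES
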