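import Pool.Agent.H72.ES.Choose5
import Pool.Agent.H72.ES.Taylor

/-! # [ES-GAP] The gap principle (determinant method)

Five integer points `p i = (x_i, y_i)`, no three collinear, `X ≤ |x_i| ≤ X^(1+δ)`,
`δ = 1/(3n)`, `X > b^(200 n)`, `y_i = θ x_i + be + ga/x_i + de/x_i² + O(b^25/|x_i|³)`,
`|be|, |ga|, |de| ≤ b^10`. Contradiction.

Let `M` be the `5 × 6` integer matrix with rows `mono x_i y_i = (x², x, 1, y, xy, y²)` and
`q_m` the signed maximal minors, i.e. `∑ q_m v_m = det (v; M)` (6×6, first row `v`).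
(1) `q ≠ 0`: the rows of `M` are linearly independent: for each `i` there is a product of two
linear polynomials (lines through two pairs of the other four points) vanishing at the other four
points but not at `p i`. The conic `q` vanishes at the five points (two equal rows). If
`q_0 = q_4 = q_5 = 0` then `q` is a nonzero polynomial of degree `≤ 1` vanishing at 5 points, no
three collinear: impossible. So `(q_0, q_4, q_5) ≠ 0`.
(2) Put `u = y - θx - be`, `w = x u - ga` (`psi`). `|u| ≤ 2b^10/|x|`, `|w| ≤ 2 b^10/|x|`; more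
precisely `u = ga/x + ρ_u`, `w = de/x + ρ_w` with `|ρ_u|, |ρ_w| ≤ b^26/x²`. Let `M'` have rows
`psi θ be ga x_i y_i = (x², x, 1, u, w, u²)`. `mono = (unitriangular real matrix) psi`
(`y = θx+be+u`, `xy = θx²+be x+ga+w`, `y² = θ²x²+2θbe x+(be²+2θga)+2be u+2θ w+u²`), entries
`≤ b^21`.
Maximal minors of `M'` (columns omitted): `x²`: `≤ 5! X^(1+δ) (2b^10/X)² (2b^10/X)² ≤
b^41 X^(-3+δ)`; `x`: `≤ b^41 X^(-2+2δ)`; `1`: `≤ b^41 X^(-1+3δ)`; `u` or `w`: `≤ b^41 X^(3δ)`;
`u²`: `det (x²,x,1,u,w)`: by multilinearity in the last two columns, `det(..,ga/x,de/x) = 0`, the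
remaining three terms contain one column `≤ b^10/X` or `b^26/X²` and one column `≤ b^26/X²`:
`≤ b^60 X^(3+3δ-3)`. So all maximal minors of `M'` are `≤ b^60 X^(3δ)`, and (columns of `M` are
combinations of columns of `M'` with coefficients `≤ b^21`) all `|q_m| ≤ b^130 X^(3δ)`.
(3) `τ := q_0 + q_4 θ + q_5 θ²` equals `det (v; M)` for the real row `v = (1,0,0,0,θ,θ²)`; after
the column operations the first row becomes `(1,0,0,0,0,0)`, so `|τ|` = the minor of `M'` without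
the column `x²`: `|τ| ≤ b^41 X^(-3+δ)`.
(4) Liouville for `a = q_0 + q_4 α + q_5 α² ≠ 0` in `O.R` (`O.indep`, `2 < n`):
`ν a ≤ b^130 X^(3δ) (1 + Q² + Q⁴) ≤ b^131 X^(3δ)`,
`1 ≤ |τ| Q^(4n) ν(a)^n ≤ b^41 X^(-3+δ) b (b^131 X^(3δ))^n = b^(42+131 n) X^(-3+δ+1)
≤ b^(42+131n) X^(-1)`. So `X ≤ b^(42+131n) ≤ b^(200 n)`: contradiction (`n ≥ 4`). -/

namespace Pool.Agent.H72.ES

open Finset Polynomial

variable {n Q : ℕ} {f : ℤ[X]} {θ : ℝ}

namespace GapAux

/-! ### determinants with a free first row -/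

/-- the matrix with first row `v` and then the rows of `M` -/
def gm {S : Type*} (v : Fin 6 → S) (M : Fin 5 → Fin 6 → S) : Matrix (Fin 6) (Fin 6) S :=
  Matrix.of (Fin.cons v M : Fin 6 → Fin 6 → S)

/-- the signed minor omitting the column `m` -/
def cof {S : Type*} [CommRing S] (M : Fin 5 → Fin 6 → S) (m : Fin 6) : S :=
  (-1) ^ (m : ℕ) * (Matrix.of fun i j : Fin 5 => M i (m.succAbove j)).det

lemma gm_det {S : Type*} [CommRing S] (v : Fin 6 → S) (M : Fin 5 → Fin 6 → S) :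
    (gm v M).det = ∑ m, v m * cof M m := by
  rw [Matrix.det_succ_row_zero]
  refine Finset.sum_congr rfl fun m _ => ?_
  have e : (gm v M).submatrix Fin.succ m.succAbove =
      Matrix.of fun i j : Fin 5 => M i (m.succAbove j) := by
    ext i j
    simp [gm]
  rw [e]
  have e2 : gm v M 0 m = v m := by simp [gm]
  rw [e2]
  unfold cof
  ring

lemma cof_cast (M : Fin 5 → Fin 6 → ℤ) (m : Fin 6) :
    ((cof M m : ℤ) : ℝ) = cof (fun i j => ((M i j : ℤ) : ℝ)) m := by
  unfold cof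
  push_cast
  congr 1

lemma cof_mul {S : Type*} [CommRing S] (M' : Fin 5 → Fin 6 → S) (T : Matrix (Fin 6) (Fin 6) S)
    (hT : T.det = 1) (M : Fin 5 → Fin 6 → S) (hM : ∀ i m, M i m = ∑ k, M' i k * T k m)
    (k : Fin 6) : ∑ m, T k m * cof M m = cof M' k := by
  classical
  have h1 : gm (T k) M = gm (Pi.single k 1) M' * T := by
    ext i j
    rw [Matrix.mul_apply]
    refine Fin.cases ?_ (fun i => ?_) i
    · simp [gm, Pi.single_apply]
    · simp [gm, hM]
  have h2 := congrArg Matrix.det h1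
  rw [Matrix.det_mul, hT, mul_one, gm_det, gm_det] at h2
  rw [h2]
  simp [Pi.single_apply]

lemma det_col_bound (A : Matrix (Fin 5) (Fin 5) ℝ) (B : Fin 5 → ℝ) (h : ∀ i j, |A i j| ≤ B j) :
    |A.det| ≤ 120 * (B 0 * B 1 * B 2 * B 3 * B 4) := by
  rw [Matrix.det_apply']
  refine (Finset.abs_sum_le_sum_abs _ _).trans ?_
  have h1 : ∀ σ : Equiv.Perm (Fin 5), |((Equiv.Perm.sign σ : ℤ) : ℝ) * ∏ i, A (σ i) i| ≤
      B 0 * B 1 * B 2 * B 3 * B 4 := by
    intro σ
    rw [abs_mul]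
    have h2 : |((Equiv.Perm.sign σ : ℤ) : ℝ)| = 1 := by
      rcases Int.units_eq_one_or (Equiv.Perm.sign σ) with h | h <;> rw [h] <;> simp
    rw [h2, one_mul, Finset.abs_prod]
    calc ∏ i, |A (σ i) i| ≤ ∏ i, B i :=
          Finset.prod_le_prod (fun i _ => abs_nonneg _) fun i _ => h _ _
      _ = B 0 * B 1 * B 2 * B 3 * B 4 := by rw [Fin.prod_univ_five]
  refine (Finset.sum_le_sum fun σ _ => h1 σ).trans ?_
  rw [Finset.sum_const, Finset.card_univ, Fintype.card_perm, Fintype.card_fin, nsmul_eq_mul]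
  norm_num [Nat.factorial]

/-- the unitriangular matrix expressing `mono` in terms of `psi` -/
def TT (θ be ga : ℝ) : Matrix (Fin 6) (Fin 6) ℝ :=
  !![1, 0, 0, 0, θ, θ ^ 2;
     0, 1, 0, θ, be, 2 * θ * be;
     0, 0, 1, be, ga, be ^ 2 + 2 * θ * ga;
     0, 0, 0, 1, 0, 2 * be;
     0, 0, 0, 0, 1, 2 * θ;
     0, 0, 0, 0, 0, 1]

lemma TT_det (θ be ga : ℝ) : (TT θ be ga).det = 1 := by
  have h : (TT θ be ga).BlockTriangular id := by
    intro i j hij
    fin_cases i <;> fin_cases j <;> simp_all [TT]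
  rw [Matrix.det_of_isUpperTriangular h]
  simp [Fin.prod_univ_succ, TT]

lemma mono_eq (θ be ga x y : ℝ) (m : Fin 6) :
    mono x y m = ∑ k, psi θ be ga x y k * TT θ be ga k m := by
  rw [Fin.sum_univ_six]
  fin_cases m <;> simp [mono, psi, TT] <;> ring

/-! ### the five by five determinants as functions of two columns -/

/-- the determinant with columns `A, B, C, c, d` -/
def D5 (A B C c d : Fin 5 → ℝ) : ℝ := (Matrix.of ![A, B, C, c, d]).det

lemma D5_add4 (A B C c c' d : Fin 5 → ℝ) :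
    D5 A B C (c + c') d = D5 A B C c d + D5 A B C c' d := by
  have h : ∀ v, Matrix.of ![A, B, C, v, d] = (Matrix.of ![A, B, C, c, d]).updateRow 3 v := by
    intro v
    ext i j
    fin_cases i <;> simp [Matrix.updateRow_apply]
  unfold D5
  rw [h (c + c'), Matrix.det_updateRow_add, ← h, ← h]

lemma D5_add5 (A B C c d d' : Fin 5 → ℝ) :
    D5 A B C c (d + d') = D5 A B C c d + D5 A B C c d' := by
  have h : ∀ v, Matrix.of ![A, B, C, c, v] = (Matrix.of ![A, B, C, c, d]).updateRow 4 v := by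
    intro v
    ext i j
    fin_cases i <;> simp [Matrix.updateRow_apply]
  unfold D5
  rw [h (d + d'), Matrix.det_updateRow_add, ← h, ← h]

lemma D5_smul4 (A B C c d : Fin 5 → ℝ) (s : ℝ) :
    D5 A B C (s • c) d = s * D5 A B C c d := by
  have h : ∀ v, Matrix.of ![A, B, C, v, d] = (Matrix.of ![A, B, C, c, d]).updateRow 3 v := by
    intro v
    ext i j
    fin_cases i <;> simp [Matrix.updateRow_apply]
  unfold D5
  rw [h (s • c), Matrix.det_updateRow_smul, ← h]

lemma D5_smul5 (A B C c d : Fin 5 → ℝ) (s : ℝ) :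
    D5 A B C c (s • d) = s * D5 A B C c d := by
  have h : ∀ v, Matrix.of ![A, B, C, c, v] = (Matrix.of ![A, B, C, c, d]).updateRow 4 v := by
    intro v
    ext i j
    fin_cases i <;> simp [Matrix.updateRow_apply]
  unfold D5
  rw [h (s • d), Matrix.det_updateRow_smul, ← h]

lemma D5_self (A B C c : Fin 5 → ℝ) : D5 A B C c c = 0 := by
  unfold D5
  exact Matrix.det_zero_of_row_eq (i := 3) (j := 4) (by decide) (by ext j; simp)

lemma D5_bound (A B C c d : Fin 5 → ℝ) {a' b' c' d' e' : ℝ} (h1 : ∀ i, |A i| ≤ a')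
    (h2 : ∀ i, |B i| ≤ b') (h3 : ∀ i, |C i| ≤ c') (h4 : ∀ i, |c i| ≤ d') (h5 : ∀ i, |d i| ≤ e') :
    |D5 A B C c d| ≤ 120 * (a' * b' * c' * d' * e') := by
  unfold D5
  rw [← Matrix.det_transpose]
  have := det_col_bound (Matrix.of ![A, B, C, c, d]).transpose ![a', b', c', d', e'] ?_
  · simpa using this
  · intro i j
    rw [Matrix.transpose_apply]
    fin_cases j
    · simpa using h1 i
    · simpa using h2 i
    · simpa using h3 i
    · simpa using h4 i
    · simpa using h5 i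

lemma D5_split (A B C t u w ru rw' : Fin 5 → ℝ) (ga de : ℝ) (hu : u = ga • t + ru)
    (hw : w = de • t + rw') :
    D5 A B C u w = ga * D5 A B C t rw' + D5 A B C ru w := by
  subst hu
  rw [D5_add4, D5_smul4]
  have : D5 A B C t w = D5 A B C t rw' := by
    rw [hw, D5_add5, D5_smul5, D5_self, mul_zero, zero_add]
  rw [this]

/-- the minors of a `5 × 6` matrix given by its six columns -/
lemma cof_zero_eq (M : Fin 5 → Fin 6 → ℝ) :
    cof M 0 = D5 (fun i => M i 1) (fun i => M i 2) (fun i => M i 3) (fun i => M i 4)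
      (fun i => M i 5) := by
  unfold cof D5
  rw [← Matrix.det_transpose]
  simp only [Fin.val_zero, pow_zero, one_mul]
  congr 1
  ext i j
  fin_cases i <;> rfl

lemma cof_four_eq (M : Fin 5 → Fin 6 → ℝ) :
    cof M 4 = D5 (fun i => M i 0) (fun i => M i 1) (fun i => M i 2) (fun i => M i 3)
      (fun i => M i 5) := by
  unfold cof D5
  rw [← Matrix.det_transpose]
  have e : ((-1 : ℝ)) ^ ((4 : Fin 6) : ℕ) = 1 := by norm_num
  rw [e, one_mul]
  congr 1
  ext i j
  fin_cases i <;> rfl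

lemma cof_five_eq (M : Fin 5 → Fin 6 → ℝ) :
    cof M 5 = -D5 (fun i => M i 0) (fun i => M i 1) (fun i => M i 2) (fun i => M i 3)
      (fun i => M i 4) := by
  unfold cof D5
  rw [← Matrix.det_transpose]
  have e : ((-1 : ℝ)) ^ ((5 : Fin 6) : ℕ) = -1 := by norm_num
  rw [e, neg_one_mul]
  congr 2
  ext i j
  fin_cases i <;> rfl

/-! ### nondegeneracy -/

/-- the linear form vanishing on the line through `a` and `b` -/
def ln (a b p : ℤ × ℤ) : ℤ := (b.1 - a.1) * (p.2 - a.2) - (p.1 - a.1) * (b.2 - a.2)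

lemma ln_left (a b : ℤ × ℤ) : ln a b a = 0 := by unfold ln; ring

lemma ln_right (a b : ℤ × ℤ) : ln a b b = 0 := by unfold ln; ring

lemma ln_ne {a b p : ℤ × ℤ} (h : ¬ Col a b p) : ln a b p ≠ 0 := by
  intro h'
  apply h
  unfold Col
  unfold ln at h'
  linarith

/-- the integer matrix of the five points -/
def MZ (p : Fin 5 → ℤ × ℤ) : Fin 5 → Fin 6 → ℤ := fun i => mono (p i).1 (p i).2

lemma indep_rows (p : Fin 5 → ℤ × ℤ)
    (hcol : ∀ i j k, i ≠ j → i ≠ k → j ≠ k → ¬ Col (p i) (p j) (p k)) :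
    LinearIndependent ℚ (fun i : Fin 5 => (fun m : Fin 6 => ((MZ p i m : ℤ) : ℚ))) := by
  rw [Fintype.linearIndependent_iff]
  intro g hg i
  have hm : ∀ m : Fin 6, ∑ j, g j * ((MZ p j m : ℤ) : ℚ) = 0 := by
    intro m
    have := congrFun hg m
    simpa [Finset.sum_apply] using this
  have h0 := hm 0
  have h1 := hm 1
  have h2 := hm 2
  have h3 := hm 3
  have h4 := hm 4
  have h5 := hm 5
  simp only [MZ, mono, Matrix.cons_val] at h0 h1 h2 h3 h4 h5
  push_cast at h0 h1 h2 h3 h4 h5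
  have key : ∀ a b c d : ℤ × ℤ, ∑ j, g j * ((ln a b (p j) : ℚ) * (ln c d (p j) : ℚ)) = 0 := by
    intro a b c d
    have e : ∑ j, g j * ((ln a b (p j) : ℚ) * (ln c d (p j) : ℚ)) =
        ((b.2 - a.2) * (d.2 - c.2) : ℚ) * ∑ j, g j * ((p j).1 : ℚ) ^ 2 +
        (-(b.2 - a.2) * (c.1 * (d.2 - c.2) - (d.1 - c.1) * c.2) -
          (d.2 - c.2) * (a.1 * (b.2 - a.2) - (b.1 - a.1) * a.2) : ℚ) *
          ∑ j, g j * ((p j).1 : ℚ) +
        ((a.1 * (b.2 - a.2) - (b.1 - a.1) * a.2) * (c.1 * (d.2 - c.2) - (d.1 - c.1) * c.2) : ℚ) *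
          ∑ j, g j * (1 : ℚ) +
        ((b.1 - a.1) * (c.1 * (d.2 - c.2) - (d.1 - c.1) * c.2) +
          (d.1 - c.1) * (a.1 * (b.2 - a.2) - (b.1 - a.1) * a.2) : ℚ) *
          ∑ j, g j * ((p j).2 : ℚ) +
        (-(b.2 - a.2) * (d.1 - c.1) - (d.2 - c.2) * (b.1 - a.1) : ℚ) *
          ∑ j, g j * (((p j).1 : ℚ) * ((p j).2 : ℚ)) +
        ((b.1 - a.1) * (d.1 - c.1) : ℚ) * ∑ j, g j * ((p j).2 : ℚ) ^ 2 := by
      simp only [Finset.mul_sum, ← Finset.sum_add_distrib]
      refine Finset.sum_congr rfl fun j _ => ?_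
      unfold ln
      push_cast
      ring
    rw [e, h0, h1, h2, h3, h4, h5]
    ring
  have hch : ∀ i : Fin 5, ∃ a b c d : Fin 5, a ≠ b ∧ a ≠ i ∧ b ≠ i ∧ c ≠ d ∧ c ≠ i ∧ d ≠ i ∧
      ∀ j, j ≠ i → j = a ∨ j = b ∨ j = c ∨ j = d := by decide
  obtain ⟨a, b, c, d, hab, hai, hbi, hcd, hci, hdi, hj⟩ := hch i
  have h := key (p a) (p b) (p c) (p d)
  rw [Finset.sum_eq_single i] at h
  · have h6 : (ln (p a) (p b) (p i) : ℚ) ≠ 0 := by
      exact_mod_cast ln_ne (hcol a b i hab hai hbi)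
    have h7 : (ln (p c) (p d) (p i) : ℚ) ≠ 0 := by
      exact_mod_cast ln_ne (hcol c d i hcd hci hdi)
    rcases mul_eq_zero.1 h with h | h
    · exact h
    · exact absurd h (mul_ne_zero h6 h7)
  · intro j _ hji
    rcases hj j hji with rfl | rfl | rfl | rfl
    · rw [ln_left]; simp
    · rw [ln_right]; simp
    · rw [ln_left]; simp
    · rw [ln_right]; simp
  · intro h; exact absurd (Finset.mem_univ i) h

lemma cof_ne (p : Fin 5 → ℤ × ℤ)
    (hcol : ∀ i j k, i ≠ j → i ≠ k → j ≠ k → ¬ Col (p i) (p j) (p k)) :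
    ∃ m, cof (MZ p) m ≠ 0 := by
  by_contra hc
  push Not at hc
  have hind := indep_rows p hcol
  set v : Fin 5 → Fin 6 → ℚ := fun i : Fin 5 => (fun m : Fin 6 => ((MZ p i m : ℤ) : ℚ)) with hv
  -- a vector outside the span
  have hx : ∃ x : Fin 6 → ℚ, x ∉ Submodule.span ℚ (Set.range v) := by
    by_contra hx
    push Not at hx
    have htop : Submodule.span ℚ (Set.range v) = ⊤ := by
      rw [eq_top_iff]
      intro x _
      exact hx x
    have h1 := finrank_range_le_card (R := ℚ) v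
    rw [Set.finrank, htop, finrank_top, Module.finrank_fin_fun, Fintype.card_fin] at h1
    omega
  obtain ⟨x, hx⟩ := hx
  have h2 : LinearIndependent ℚ (Fin.cons x v : Fin 6 → Fin 6 → ℚ) :=
    linearIndependent_finCons.2 ⟨hind, hx⟩
  have h3 : (gm x v).det ≠ 0 := by
    have h4 : IsUnit (gm x v) := by
      rw [← Matrix.linearIndependent_rows_iff_isUnit]
      exact h2
    exact ((Matrix.isUnit_iff_isUnit_det _).1 h4).ne_zero
  apply h3
  rw [gm_det]
  refine Finset.sum_eq_zero fun m _ => ?_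
  have h5 : cof v m = ((cof (MZ p) m : ℤ) : ℚ) := by
    unfold cof
    push_cast
    congr 1
  rw [h5, hc m]
  simp

lemma gm_self {S : Type*} [CommRing S] (M : Fin 5 → Fin 6 → S) (i : Fin 5) :
    ∑ m, M i m * cof M m = 0 := by
  rw [← gm_det]
  refine Matrix.det_zero_of_row_eq (i := 0) (j := i.succ) (Fin.succ_ne_zero i).symm ?_
  ext j
  simp [gm]

lemma cof_quad_ne (p : Fin 5 → ℤ × ℤ)
    (hcol : ∀ i j k, i ≠ j → i ≠ k → j ≠ k → ¬ Col (p i) (p j) (p k))
    (h0 : cof (MZ p) 0 = 0) (h4 : cof (MZ p) 4 = 0) (h5 : cof (MZ p) 5 = 0) : False := by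
  have h : ∀ i, (p i).1 * cof (MZ p) 1 + cof (MZ p) 2 + (p i).2 * cof (MZ p) 3 = 0 := by
    intro i
    have := gm_self (MZ p) i
    rw [Fin.sum_univ_six, h0, h4, h5] at this
    simpa [MZ, mono] using this
  have e0 := h 0
  have e1 := h 1
  have e2 := h 2
  have hne := ln_ne (hcol 0 1 2 (by decide) (by decide) (by decide))
  have k1 : ln (p 0) (p 1) (p 2) * cof (MZ p) 1 = 0 := by
    unfold ln
    linear_combination ((p 2).2 - (p 0).2) * (e1 - e0) - ((p 1).2 - (p 0).2) * (e2 - e0)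
  have k3 : ln (p 0) (p 1) (p 2) * cof (MZ p) 3 = 0 := by
    unfold ln
    linear_combination ((p 1).1 - (p 0).1) * (e2 - e0) - ((p 2).1 - (p 0).1) * (e1 - e0)
  have k1' := (mul_eq_zero.1 k1).resolve_left hne
  have k3' := (mul_eq_zero.1 k3).resolve_left hne
  have k2' : cof (MZ p) 2 = 0 := by
    rw [k1', k3'] at e0
    linarith
  obtain ⟨m, hm⟩ := cof_ne p hcol
  apply hm
  fin_cases m
  · exact h0
  · exact k1'
  · exact k2'
  · exact k3'
  · exact h4
  · exact h5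

/-! ### sizes -/

/-- sizes of `u`, `w` and of their remainders at one point -/
lemma uw_bounds {b be ga de θ x y X : ℝ} (hb : 2 ≤ b) (hX : b ^ 800 ≤ X) (hx : X ≤ |x|)
    (hga : |ga| ≤ b ^ 10) (hde : |de| ≤ b ^ 10)
    (h : |y - (θ * x + be + ga / x + de / x ^ 2)| ≤ b ^ 25 / |x| ^ 3) :
    |y - θ * x - be| ≤ b ^ 11 / X ∧ |x * (y - θ * x - be) - ga| ≤ b ^ 11 / X ∧
    |y - θ * x - be - ga * x⁻¹| ≤ b ^ 11 / X ^ 2 ∧
    |x * (y - θ * x - be) - ga - de * x⁻¹| ≤ b ^ 25 / X ^ 2 ∧ |x⁻¹| ≤ 1 / X := by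
  have hb1 : (1 : ℝ) ≤ b := by linarith
  have hb0 : (0 : ℝ) < b := by linarith
  have hX1 : 1 ≤ X := (one_le_pow₀ hb1).trans hX
  have hX0 : 0 < X := by linarith
  have hx0 : 0 < |x| := hX0.trans_le hx
  have hxne : x ≠ 0 := abs_pos.1 hx0
  have hX25 : b ^ 25 ≤ X := (pow_le_pow_right₀ hb1 (by norm_num)).trans hX
  set E : ℝ := y - (θ * x + be + ga / x + de / x ^ 2) with hE
  have hinv : |x⁻¹| ≤ 1 / X := by
    rw [abs_inv, ← one_div]
    exact one_div_le_one_div_of_le hX0 hx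
  have hinv0 : 0 ≤ |x⁻¹| := abs_nonneg _
  -- the error
  have hE3 : |E| ≤ b ^ 25 / X ^ 3 := by
    refine h.trans ?_
    exact div_le_div_of_nonneg_left (by positivity) (by positivity)
      (pow_le_pow_left₀ hX0.le hx 3)
  have hxE : |x * E| ≤ b ^ 25 / X ^ 2 := by
    rw [abs_mul]
    calc |x| * |E| ≤ |x| * (b ^ 25 / |x| ^ 3) := mul_le_mul_of_nonneg_left h hx0.le
      _ = b ^ 25 / |x| ^ 2 := by field_simp
      _ ≤ b ^ 25 / X ^ 2 := div_le_div_of_nonneg_left (by positivity) (by positivity)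
          (pow_le_pow_left₀ hX0.le hx 2)
  have hde2 : |de * x⁻¹ ^ 2| ≤ b ^ 10 / X ^ 2 := by
    rw [abs_mul, abs_pow]
    calc |de| * |x⁻¹| ^ 2 ≤ b ^ 10 * (1 / X) ^ 2 :=
          mul_le_mul hde (pow_le_pow_left₀ hinv0 hinv 2) (by positivity) (by positivity)
      _ = b ^ 10 / X ^ 2 := by field_simp
  have hga1 : |ga * x⁻¹| ≤ b ^ 10 / X := by
    rw [abs_mul]
    calc |ga| * |x⁻¹| ≤ b ^ 10 * (1 / X) := mul_le_mul hga hinv hinv0 (by positivity)
      _ = b ^ 10 / X := by field_simp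
  have hde1 : |de * x⁻¹| ≤ b ^ 10 / X := by
    rw [abs_mul]
    calc |de| * |x⁻¹| ≤ b ^ 10 * (1 / X) := mul_le_mul hde hinv hinv0 (by positivity)
      _ = b ^ 10 / X := by field_simp
  have hE3' : |E| ≤ 1 / X ^ 2 := by
    refine hE3.trans ?_
    rw [div_le_div_iff₀ (by positivity) (by positivity), one_mul]
    calc b ^ 25 * X ^ 2 ≤ X * X ^ 2 := mul_le_mul_of_nonneg_right hX25 (by positivity)
      _ = X ^ 3 := by ring
  have hxE' : |x * E| ≤ 1 / X := by
    refine hxE.trans ?_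
    rw [div_le_div_iff₀ (by positivity) (by positivity), one_mul]
    calc b ^ 25 * X ≤ X * X := mul_le_mul_of_nonneg_right hX25 (by positivity)
      _ = X ^ 2 := by ring
  have hb11 : b ^ 10 + 1 ≤ b ^ 11 := by
    have h1 : 1 ≤ b ^ 10 := one_le_pow₀ hb1
    have h2 : b ^ 11 = b ^ 10 * b := by ring
    rw [h2]
    nlinarith
  have hru : |y - θ * x - be - ga * x⁻¹| ≤ b ^ 11 / X ^ 2 := by
    have e : y - θ * x - be - ga * x⁻¹ = de * x⁻¹ ^ 2 + E := by
      rw [hE]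
      field_simp
      ring
    rw [e]
    refine (abs_add_le _ _).trans ((add_le_add hde2 hE3').trans ?_)
    rw [← add_div]
    exact div_le_div_of_nonneg_right hb11 (by positivity)
  have hrw : |x * (y - θ * x - be) - ga - de * x⁻¹| ≤ b ^ 25 / X ^ 2 := by
    have e : x * (y - θ * x - be) - ga - de * x⁻¹ = x * E := by
      rw [hE]
      field_simp
      ring
    rw [e]
    exact hxE
  refine ⟨?_, ?_, hru, hrw, hinv⟩
  · have e : y - θ * x - be = ga * x⁻¹ + (y - θ * x - be - ga * x⁻¹) := by ring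
    rw [e]
    refine (abs_add_le _ _).trans ?_
    have h1 : |y - θ * x - be - ga * x⁻¹| ≤ 1 / X := by
      refine hru.trans ?_
      rw [div_le_div_iff₀ (by positivity) (by positivity), one_mul]
      have : b ^ 11 ≤ X := (pow_le_pow_right₀ hb1 (by norm_num)).trans hX25
      calc b ^ 11 * X ≤ X * X := mul_le_mul_of_nonneg_right this (by positivity)
        _ = X ^ 2 := by ring
    refine (add_le_add hga1 h1).trans ?_
    rw [← add_div]
    exact div_le_div_of_nonneg_right hb11 (by positivity)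
  · have e : x * (y - θ * x - be) - ga = de * x⁻¹ +
        (x * (y - θ * x - be) - ga - de * x⁻¹) := by ring
    rw [e]
    refine (abs_add_le _ _).trans ?_
    have e2 : x * (y - θ * x - be) - ga - de * x⁻¹ = x * E := by
      rw [hE]
      field_simp
      ring
    rw [e2]
    refine (add_le_add hde1 hxE').trans ?_
    rw [← add_div]
    exact div_le_div_of_nonneg_right hb11 (by positivity)

end GapAux

open GapAux

theorem gap (hn : 4 ≤ n) (hQ : 2 ^ n ≤ Q) (O : Ord ℝ n Q f θ) (be ga de : ℝ)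
    (hbe : |be| ≤ bb n Q ^ 10) (hga : |ga| ≤ bb n Q ^ 10) (hde : |de| ≤ bb n Q ^ 10) (X : ℝ)
    (hX : bb n Q ^ (200 * n) < X) (p : Fin 5 → ℤ × ℤ)
    (hp1 : ∀ i, X ≤ |((p i).1 : ℝ)|)
    (hp2 : ∀ i, |((p i).1 : ℝ)| ≤ X ^ (1 + 1 / (3 * (n : ℝ))))
    (hp3 : ∀ i, |((p i).2 : ℝ) - (θ * (p i).1 + be + ga / (p i).1 + de / ((p i).1 : ℝ) ^ 2)| ≤
      bb n Q ^ 25 / |((p i).1 : ℝ)| ^ 3)
    (hcol : ∀ i j k, i ≠ j → i ≠ k → j ≠ k → ¬ Col (p i) (p j) (p k)) : False := by
  set b : ℝ := bb n Q with hbdef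
  have hb240 : (240 : ℝ) ≤ b := by
    have h1 := sixteen_leR hn hQ
    have h2 : (Q : ℝ) ^ 2 ≤ b := Qpow_le_bb hn hQ (by nlinarith)
    nlinarith
  have hb1 : (1 : ℝ) ≤ b := by linarith
  have hb0 : (0 : ℝ) < b := by linarith
  have hmono : ∀ {k l : ℕ}, k ≤ l → b ^ k ≤ b ^ l := fun h => pow_le_pow_right₀ hb1 h
  have hX800 : b ^ 800 ≤ X := (hmono (by omega)).trans hX.le
  have hX1 : 1 ≤ X := (one_le_pow₀ hb1).trans hX800
  have hX0 : 0 < X := by linarith
  -- the slope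
  have hνα : O.ν O.α ≤ b :=
    O.ν_α.trans ((nQ_le hn hQ).trans (Qpow_le_bb hn hQ (by nlinarith)))
  have hθ : |θ| ≤ b := by
    have h1 := O.φ_le O.α
    rw [O.φ_α, Real.norm_eq_abs] at h1
    exact h1.trans hνα
  -- the powers of X
  have hn0 : (0 : ℝ) < n := by
    have : 0 < n := by omega
    exact_mod_cast this
  set Z : ℝ := X ^ (1 / (n : ℝ)) with hZ
  set Y : ℝ := X ^ (1 + 1 / (3 * (n : ℝ))) with hY
  have hZ1 : 1 ≤ Z := Real.one_le_rpow hX1 (by positivity)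
  have hZ0 : 0 < Z := by linarith
  have hZX : Z ≤ X := by
    have h1 : (1 : ℝ) / n ≤ 1 := by
      rw [div_le_one hn0]
      have : 1 ≤ n := by omega
      exact_mod_cast this
    calc Z ≤ X ^ (1 : ℝ) := Real.rpow_le_rpow_of_exponent_le hX1 h1
      _ = X := Real.rpow_one X
  have hZn : Z ^ n = X := by
    rw [hZ, ← Real.rpow_natCast, ← Real.rpow_mul hX0.le, one_div,
      inv_mul_cancel₀ hn0.ne', Real.rpow_one]
  have hY0 : 0 < Y := Real.rpow_pos_of_pos hX0 _
  have hY3 : Y ^ 3 = X ^ 3 * Z := by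
    rw [hY, hZ, ← Real.rpow_natCast, ← Real.rpow_mul hX0.le, ← Real.rpow_natCast,
      ← Real.rpow_add hX0]
    congr 1
    push_cast
    field_simp
  have hYXZ : Y ≤ X * Z := by
    have h1 : Y ^ 3 ≤ (X * Z) ^ 3 := by
      rw [hY3, mul_pow]
      refine mul_le_mul_of_nonneg_left ?_ (by positivity)
      have : Z = Z ^ 1 := (pow_one Z).symm
      calc Z = Z ^ 1 := this
        _ ≤ Z ^ 3 := pow_le_pow_right₀ hZ1 (by norm_num)
    exact le_of_pow_le_pow_left₀ (by norm_num) (by positivity) h1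
  -- the columns
  set x : Fin 5 → ℝ := fun i => ((p i).1 : ℝ) with hx
  set y : Fin 5 → ℝ := fun i => ((p i).2 : ℝ) with hy
  set u : Fin 5 → ℝ := fun i => y i - θ * x i - be with hu
  set w : Fin 5 → ℝ := fun i => x i * (y i - θ * x i - be) - ga with hw
  set M' : Fin 5 → Fin 6 → ℝ := fun i => psi θ be ga (x i) (y i) with hM'
  set M : Fin 5 → Fin 6 → ℝ := fun i m => ((MZ p i m : ℤ) : ℝ) with hM
  have hMm : ∀ i m, M i m = mono (x i) (y i) m := by
    intro i m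
    rw [hM]
    fin_cases m <;> simp [MZ, mono, hx, hy]
  have hMT : ∀ i m, M i m = ∑ k, M' i k * TT θ be ga k m := by
    intro i m
    rw [hMm]
    exact mono_eq θ be ga (x i) (y i) m
  have hcof := cof_mul M' (TT θ be ga) (TT_det θ be ga) M hMT
  have hq : ∀ m, ((cof (MZ p) m : ℤ) : ℝ) = cof M m := fun m => cof_cast (MZ p) m
  set q : Fin 6 → ℤ := fun m => cof (MZ p) m with hqdef
  have e0 : (q 0 : ℝ) + θ * q 4 + θ ^ 2 * q 5 = cof M' 0 := by
    rw [← hcof 0, Fin.sum_univ_six]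
    simp only [hqdef, hq]
    simp [TT]
  have e4 : (q 4 : ℝ) + 2 * θ * q 5 = cof M' 4 := by
    rw [← hcof 4, Fin.sum_univ_six]
    simp only [hqdef, hq]
    simp [TT]
  have e5 : (q 5 : ℝ) = cof M' 5 := by
    rw [← hcof 5, Fin.sum_univ_six]
    simp only [hqdef, hq]
    simp [TT]
  -- sizes of the columns
  have hub := fun i => uw_bounds (by linarith : (2 : ℝ) ≤ b) hX800 (hp1 i) hga hde (hp3 i)
  have cx : ∀ i, |x i| ≤ Y := hp2
  have cx2 : ∀ i, |x i ^ 2| ≤ Y ^ 2 := fun i => by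
    rw [abs_pow]
    exact pow_le_pow_left₀ (abs_nonneg _) (cx i) 2
  have c1 : ∀ i : Fin 5, |(fun _ : Fin 5 => (1 : ℝ)) i| ≤ 1 := fun i => by simp
  have cu : ∀ i, |u i| ≤ b ^ 11 / X := fun i => (hub i).1
  have cw : ∀ i, |w i| ≤ b ^ 11 / X := fun i => (hub i).2.1
  have cu2 : ∀ i, |u i ^ 2| ≤ (b ^ 11 / X) ^ 2 := fun i => by
    rw [abs_pow]
    exact pow_le_pow_left₀ (abs_nonneg _) (cu i) 2
  set t : Fin 5 → ℝ := fun i => (x i)⁻¹ with ht
  set ru : Fin 5 → ℝ := fun i => u i - ga * (x i)⁻¹ with hru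
  set rw' : Fin 5 → ℝ := fun i => w i - de * (x i)⁻¹ with hrw
  have ct : ∀ i, |t i| ≤ 1 / X := fun i => (hub i).2.2.2.2
  have cru : ∀ i, |ru i| ≤ b ^ 11 / X ^ 2 := fun i => (hub i).2.2.1
  have crw : ∀ i, |rw' i| ≤ b ^ 25 / X ^ 2 := fun i => (hub i).2.2.2.1
  -- the three minors
  have b0 : |cof M' 0| ≤ b ^ 45 * Z / X ^ 3 := by
    rw [cof_zero_eq]
    have h1 := D5_bound x (fun _ => 1) u w (fun i => u i ^ 2) cx c1 cu cw cu2
    refine le_trans (by simpa [hM', psi] using h1) ?_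
    have e : 120 * (Y * (b ^ 11 / X) * (b ^ 11 / X) * (b ^ 11 / X) ^ 2) =
        120 * b ^ 44 * (Y / X ^ 4) := by
      field_simp
    have e' : b ^ 45 * Z / X ^ 3 = b * b ^ 44 * (X * Z / X ^ 4) := by
      field_simp
    rw [e, e']
    refine mul_le_mul ?_ ?_ (by positivity) (by positivity)
    · exact mul_le_mul_of_nonneg_right (by linarith) (by positivity)
    · exact div_le_div_of_nonneg_right hYXZ (by positivity)
  have b4 : |cof M' 4| ≤ b ^ 34 * Z := by
    rw [cof_four_eq]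
    have h1 := D5_bound (fun i => x i ^ 2) x (fun _ => 1) u (fun i => u i ^ 2) cx2 cx c1 cu cu2
    refine le_trans (by simpa [hM', psi] using h1) ?_
    have e : 120 * (Y ^ 2 * Y * (b ^ 11 / X) * (b ^ 11 / X) ^ 2) =
        120 * b ^ 33 * (Y ^ 3 / X ^ 3) := by
      field_simp
    have e2 : Y ^ 3 / X ^ 3 = Z := by
      rw [hY3]
      field_simp
    have e3 : b ^ 34 * Z = b * b ^ 33 * Z := by ring
    rw [e, e2, e3]
    exact mul_le_mul_of_nonneg_right (mul_le_mul_of_nonneg_right (by linarith) (by positivity))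
      hZ0.le
  have b5 : |cof M' 5| ≤ b ^ 36 * Z := by
    rw [cof_five_eq, abs_neg]
    have hsp := D5_split (fun i => x i ^ 2) x (fun _ => 1) t u w ru rw' ga de
      (by ext i; simp [hru, ht]) (by ext i; simp [hrw, ht])
    have h0 : D5 (fun i => M' i 0) (fun i => M' i 1) (fun i => M' i 2) (fun i => M' i 3)
        (fun i => M' i 4) = D5 (fun i => x i ^ 2) x (fun _ => 1) u w := by
      simp [hM', psi, hu, hw]
    rw [h0, hsp]
    have h1 := D5_bound (fun i => x i ^ 2) x (fun _ => 1) t rw' cx2 cx c1 ct crw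
    have h2 := D5_bound (fun i => x i ^ 2) x (fun _ => 1) ru w cx2 cx c1 cru cw
    have e2 : Y ^ 3 / X ^ 3 = Z := by
      rw [hY3]
      field_simp
    have e3 : 120 * (Y ^ 2 * Y * 1 * (1 / X) * (b ^ 25 / X ^ 2)) = 120 * b ^ 25 * Z := by
      rw [← e2]
      field_simp
    have e4 : 120 * (Y ^ 2 * Y * 1 * (b ^ 11 / X ^ 2) * (b ^ 11 / X)) = 120 * b ^ 22 * Z := by
      rw [← e2]
      field_simp
    rw [e3] at h1
    rw [e4] at h2
    refine (abs_add_le _ _).trans ?_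
    rw [abs_mul]
    have h3 := mul_le_mul hga h1 (abs_nonneg _) (by positivity)
    refine (add_le_add h3 h2).trans ?_
    have h4 : b ^ 22 ≤ b ^ 35 := hmono (by norm_num)
    have h5 : b ^ 36 = b * b ^ 35 := by ring
    have h6 : b ^ 10 * (120 * b ^ 25 * Z) + 120 * b ^ 22 * Z = 120 * (b ^ 35 + b ^ 22) * Z := by
      ring
    rw [h6, h5]
    refine mul_le_mul_of_nonneg_right ?_ hZ0.le
    have h7 : 0 ≤ b ^ 35 := by positivity
    nlinarith
  -- the coefficients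
  have q5 : |(q 5 : ℝ)| ≤ b ^ 36 * Z := by rw [e5]; exact b5
  have q4 : |(q 4 : ℝ)| ≤ b ^ 38 * Z := by
    have e : (q 4 : ℝ) = cof M' 4 - 2 * θ * q 5 := by rw [← e4]; ring
    rw [e]
    refine (abs_sub _ _).trans ?_
    have h1 : |2 * θ * (q 5 : ℝ)| ≤ 2 * b * (b ^ 36 * Z) := by
      rw [abs_mul, abs_mul, abs_two]
      exact mul_le_mul (mul_le_mul_of_nonneg_left hθ (by norm_num)) q5 (abs_nonneg _)
        (by positivity)
    refine (add_le_add b4 h1).trans ?_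
    have h2 : b ^ 34 ≤ b ^ 37 := hmono (by norm_num)
    have h3 : b ^ 34 * Z + 2 * b * (b ^ 36 * Z) = (b ^ 34 + 2 * b ^ 37) * Z := by ring
    rw [h3]
    refine mul_le_mul_of_nonneg_right ?_ hZ0.le
    have h4 : b ^ 38 = b * b ^ 37 := by ring
    have h5 : 0 ≤ b ^ 37 := by positivity
    rw [h4]
    nlinarith
  have q0 : |(q 0 : ℝ)| ≤ b ^ 46 * Z := by
    have e : (q 0 : ℝ) = cof M' 0 - (θ * q 4 + θ ^ 2 * q 5) := by rw [← e0]; ring
    rw [e]
    refine (abs_sub _ _).trans ?_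
    have h1 : |θ * (q 4 : ℝ)| ≤ b * (b ^ 38 * Z) := by
      rw [abs_mul]
      exact mul_le_mul hθ q4 (abs_nonneg _) (by positivity)
    have h2 : |θ ^ 2 * (q 5 : ℝ)| ≤ b ^ 2 * (b ^ 36 * Z) := by
      rw [abs_mul, abs_pow]
      exact mul_le_mul (pow_le_pow_left₀ (abs_nonneg _) hθ 2) q5 (abs_nonneg _) (by positivity)
    have h3 : b ^ 45 * Z / X ^ 3 ≤ b ^ 45 * Z :=
      div_le_self (by positivity) (one_le_pow₀ hX1)
    refine (add_le_add (b0.trans h3) ((abs_add_le _ _).trans (add_le_add h1 h2))).trans ?_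
    have h4 : b ^ 45 * Z + (b * (b ^ 38 * Z) + b ^ 2 * (b ^ 36 * Z)) =
        (b ^ 45 + b ^ 39 + b ^ 38) * Z := by ring
    rw [h4]
    refine mul_le_mul_of_nonneg_right ?_ hZ0.le
    have h5 : b ^ 39 ≤ b ^ 45 := hmono (by norm_num)
    have h6 : b ^ 38 ≤ b ^ 45 := hmono (by norm_num)
    have h7 : b ^ 46 = b * b ^ 45 := by ring
    have h8 : 0 ≤ b ^ 45 := by positivity
    rw [h7]
    nlinarith
  -- the algebraic number
  set a : O.R := ((q 0 : ℤ) : O.R) + ((q 4 : ℤ) : O.R) * O.α + ((q 5 : ℤ) : O.R) * O.α ^ 2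
    with ha
  have ha0 : a ≠ 0 := by
    intro h0
    set P : ℤ[X] := C (q 0) + C (q 4) * Polynomial.X + C (q 5) * Polynomial.X ^ 2 with hP
    have hdeg : P.natDegree < n := by
      refine lt_of_le_of_lt (b := 2) ?_ (by omega)
      rw [hP]
      compute_degree
    have hP0 := O.indep P hdeg (by
      rw [hP]
      simp only [map_add, map_mul, map_pow, aeval_X, aeval_C]
      simp only [algebraMap_int_eq, eq_intCast]
      exact h0)
    have k0 : q 0 = 0 := by
      have := congrArg (fun r => Polynomial.coeff r 0) hP0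
      simp only [hP, coeff_add, coeff_C_mul, coeff_C, coeff_X, coeff_X_pow, coeff_zero] at this
      simpa using this
    have k4 : q 4 = 0 := by
      have := congrArg (fun r => Polynomial.coeff r 1) hP0
      simp only [hP, coeff_add, coeff_C_mul, coeff_C, coeff_X, coeff_X_pow, coeff_zero] at this
      simpa using this
    have k5 : q 5 = 0 := by
      have := congrArg (fun r => Polynomial.coeff r 2) hP0
      simp only [hP, coeff_add, coeff_C_mul, coeff_C, coeff_X, coeff_X_pow, coeff_zero] at this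
      simpa using this
    exact cof_quad_ne p hcol k0 k4 k5
  have hφ : ‖O.φ a‖ ≤ b ^ 45 * Z / X ^ 3 := by
    have e : O.φ a = cof M' 0 := by
      rw [← e0, ha]
      simp only [map_add, map_mul, map_pow, map_intCast, O.φ_α]
      ring
    rw [e, Real.norm_eq_abs]
    exact b0
  have hνa : O.ν a ≤ b ^ 47 * Z := by
    have h1 := O.ν_add (((q 0 : ℤ) : O.R) + ((q 4 : ℤ) : O.R) * O.α) (((q 5 : ℤ) : O.R) * O.α ^ 2)
    have h2 := O.ν_add ((q 0 : ℤ) : O.R) (((q 4 : ℤ) : O.R) * O.α)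
    have h3 := O.ν_mul ((q 4 : ℤ) : O.R) O.α
    have h4 := O.ν_mul ((q 5 : ℤ) : O.R) (O.α ^ 2)
    have h5 := O.subMul.pow O.α 2
    have h6 : O.ν ((q 0 : ℤ) : O.R) ≤ b ^ 46 * Z := (O.ν_int _).trans q0
    have h7 : O.ν ((q 4 : ℤ) : O.R) * O.ν O.α ≤ b ^ 38 * Z * b :=
      mul_le_mul ((O.ν_int _).trans q4) hνα (O.ν_nonneg _) (by positivity)
    have h8 : O.ν ((q 5 : ℤ) : O.R) * O.ν (O.α ^ 2) ≤ b ^ 36 * Z * b ^ 2 :=
      mul_le_mul ((O.ν_int _).trans q5)
        (h5.trans (pow_le_pow_left₀ (O.ν_nonneg _) hνα 2)) (O.ν_nonneg _) (by positivity)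
    have h9 : O.ν a ≤ (b ^ 46 + b ^ 39 + b ^ 38) * Z := by
      have e : (b ^ 46 + b ^ 39 + b ^ 38) * Z = b ^ 46 * Z + b ^ 38 * Z * b + b ^ 36 * Z * b ^ 2 := by
        ring
      rw [e, ha]
      linarith
    refine h9.trans (mul_le_mul_of_nonneg_right ?_ hZ0.le)
    have h10 : b ^ 39 ≤ b ^ 46 := hmono (by norm_num)
    have h11 : b ^ 38 ≤ b ^ 46 := hmono (by norm_num)
    have h12 : b ^ 47 = b * b ^ 46 := by ring
    have h13 : 0 ≤ b ^ 46 := by positivity
    rw [h12]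
    nlinarith
  have hL := O.liouville a ha0
  have hQb : (Q : ℝ) ^ (4 * n) ≤ b := Qpow_le_bb hn hQ (by nlinarith)
  have h1 : (1 : ℝ) ≤ b ^ 45 * Z / X ^ 3 * (b * (b ^ 47 * Z) ^ n) := by
    refine hL.trans (mul_le_mul hφ (mul_le_mul hQb
      (pow_le_pow_left₀ (O.ν_nonneg _) hνa n) ?_ hb0.le) ?_ (by positivity))
    · exact pow_nonneg (O.ν_nonneg _) n
    · exact mul_nonneg (by positivity) (pow_nonneg (O.ν_nonneg _) n)
  have h2 : b ^ 45 * Z / X ^ 3 * (b * (b ^ 47 * Z) ^ n) = b ^ (46 + 47 * n) * (Z / X ^ 2) := by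
    rw [mul_pow, hZn, pow_add, pow_mul]
    field_simp
  rw [h2] at h1
  have h3 : Z / X ^ 2 ≤ 1 / X := by
    rw [div_le_div_iff₀ (by positivity) hX0]
    nlinarith
  have h4 : (1 : ℝ) ≤ b ^ (46 + 47 * n) * (1 / X) :=
    h1.trans (mul_le_mul_of_nonneg_left h3 (by positivity))
  rw [mul_one_div, le_div_iff₀ hX0, one_mul] at h4
  have h5 : b ^ (46 + 47 * n) ≤ b ^ (200 * n) := hmono (by omega)
  linarith

end Pool.Agent.H72.ES
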