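import Pool.Agent.H72.ES.SNorm

/-! # [ES-INVT] The series `1/(x₁ + κ₁² X)` and its weighted norm

`t = ∑ x₁⁻¹ (-κ₁²/x₁)^k X^k`; with `ρ = |x₁|/(4 κ₁²)` the weighted norm is
`|x₁|⁻¹ ∑_{k≤K} 4^(-k) ≤ 2/|x₁|`. -/

namespace Pool.Agent.H72.ES

open Finset

private theorem geom_quarter_le (K : ℕ) : ∑ k ∈ range (K + 1), ((1 : ℝ) / 4) ^ k ≤ 2 := by
  have h : ∀ K : ℕ, ∑ k ∈ range (K + 1), ((1 : ℝ) / 4) ^ k ≤ 2 - (1 / 4) ^ K := by
    intro K
    induction K with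
    | zero => norm_num
    | succ K ih =>
      rw [sum_range_succ]
      have h1 : ((1 : ℝ) / 4) ^ (K + 1) = (1 / 4) ^ K * (1 / 4) := pow_succ _ _
      have h2 : 0 < ((1 : ℝ) / 4) ^ K := by positivity
      linarith
  have h2 : 0 < ((1 : ℝ) / 4) ^ K := by positivity
  linarith [h K]

theorem exists_inv (x1 κ1 : ℝ) (hx : x1 ≠ 0) (hk : κ1 ≠ 0) :
    ∃ t : PowerSeries ℝ, t * (PowerSeries.C x1 + PowerSeries.C (κ1 ^ 2) * PowerSeries.X) = 1 ∧
      PowerSeries.constantCoeff t = 1 / x1 ∧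
      ∀ K, wn (fun a : ℝ => |a|) (|x1| / (4 * κ1 ^ 2)) K t ≤ 2 / |x1| := by
  refine ⟨PowerSeries.mk fun k => x1⁻¹ * (-κ1 ^ 2 / x1) ^ k, ?_, ?_, ?_⟩
  · ext m
    rw [mul_add, ← mul_assoc, map_add, PowerSeries.coeff_mul_C, PowerSeries.coeff_mk]
    cases m with
    | zero =>
      rw [PowerSeries.coeff_zero_mul_X, PowerSeries.coeff_one]
      simp [hx]
    | succ m =>
      rw [PowerSeries.coeff_succ_mul_X, PowerSeries.coeff_mul_C, PowerSeries.coeff_mk,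
        PowerSeries.coeff_one, if_neg (Nat.succ_ne_zero m), pow_succ]
      field_simp
      ring
  · rw [← PowerSeries.coeff_zero_eq_constantCoeff_apply, PowerSeries.coeff_mk]
    simp
  · intro K
    have hx' : 0 < |x1| := abs_pos.2 hx
    have hk' : 0 < κ1 ^ 2 := by positivity
    have h1 : wn (fun a : ℝ => |a|) (|x1| / (4 * κ1 ^ 2)) K
        (PowerSeries.mk fun k => x1⁻¹ * (-κ1 ^ 2 / x1) ^ k) =
        |x1|⁻¹ * ∑ k ∈ range (K + 1), ((1 : ℝ) / 4) ^ k := by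
      unfold wn
      rw [mul_sum]
      refine sum_congr rfl fun k _ => ?_
      simp only [PowerSeries.coeff_mk]
      rw [abs_mul, abs_pow, abs_div, abs_neg, abs_inv, abs_of_pos hk', mul_assoc, ← mul_pow]
      congr 2
      field_simp
    rw [h1, div_eq_mul_inv, mul_comm]
    exact mul_le_mul_of_nonneg_right (geom_quarter_le K) (by positivity)

end Pool.Agent.H72.ES
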