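import Pool.Agent.H72.ES.Const

/-! # [ES-LIOU] Liouville inequality for an eigenvalue of a nonsingular integer matrix

Proof. Let `A = adjugate M`. `∑ j, (∑ i, v i * M i j) * A j 0 = ∑ i, v i * (M * A) i 0
= det M * v 0 = det M` and the left side is `t * ∑ j, v j * A j 0`. `|det M| ≥ 1`.
Every entry of `A` is a determinant of `M` with one row (or column) replaced by a unit vector
(`Matrix.adjugate_apply`), so by the Leibniz formula `|A j 0| ≤ n! * m ^ n` (`m ≥ 1`).
Hence `1 ≤ ‖t‖ * n * V * (n! * m ^ n)`. -/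

namespace Pool.Agent.H72.ES

theorem liou_norm_int {𝕜 : Type} [RCLike 𝕜] (k : ℤ) : ‖((k : ℤ) : 𝕜)‖ = |((k : ℤ) : ℝ)| := by
  rw [← RCLike.ofReal_intCast, RCLike.norm_ofReal]

/-- every entry of the adjugate is small -/
theorem liou_adj {n : ℕ} (M : Matrix (Fin n) (Fin n) ℤ) (m : ℝ) (hm : 1 ≤ m)
    (hM : ∀ i j, |((M i j : ℤ) : ℝ)| ≤ m) (i j : Fin n) :
    |((M.adjugate i j : ℤ) : ℝ)| ≤ n.factorial * m ^ n := by
  rw [Matrix.adjugate_apply]
  have h1 : (((M.updateRow j (Pi.single i 1)).det : ℤ) : ℝ) =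
      ((M.updateRow j (Pi.single i 1)).map (Int.castRingHom ℝ)).det := by
    rw [← RingHom.mapMatrix_apply, ← RingHom.map_det]
    rfl
  rw [h1]
  have h2 : ∀ k l, AbsoluteValue.abs
      (((M.updateRow j (Pi.single i 1)).map (Int.castRingHom ℝ)) k l) ≤ m := by
    intro k l
    change |((M.updateRow j (Pi.single i 1) k l : ℤ) : ℝ)| ≤ m
    by_cases hk : k = j
    · subst hk
      rw [Matrix.updateRow_self]
      by_cases hl : l = i
      · subst hl
        simpa using hm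
      · rw [Pi.single_eq_of_ne hl]
        simp
        linarith
    · rw [Matrix.updateRow_ne hk]
      exact hM k l
  have h3 := Matrix.det_le h2
  rw [Fintype.card_fin, nsmul_eq_mul] at h3
  exact h3

theorem liou_matrix {𝕜 : Type} [RCLike 𝕜] {n : ℕ} (hn : 0 < n) (M : Matrix (Fin n) (Fin n) ℤ)
    (hdet : M.det ≠ 0) (m : ℝ) (hm : 1 ≤ m) (hM : ∀ i j, |((M i j : ℤ) : ℝ)| ≤ m)
    (v : Fin n → 𝕜) (V : ℝ) (hv0 : v ⟨0, hn⟩ = 1) (hv : ∀ i, ‖v i‖ ≤ V) (t : 𝕜)
    (ht : ∀ j, ∑ i, v i * ((M i j : ℤ) : 𝕜) = t * v j) :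
    1 ≤ ‖t‖ * (n * V * n.factorial * m ^ n) := by
  classical
  set z : Fin n := ⟨0, hn⟩ with hz
  have hV : 0 ≤ V := (norm_nonneg _).trans (hv z)
  have h1 : ((M.det : ℤ) : 𝕜) = t * ∑ j, v j * ((M.adjugate j z : ℤ) : 𝕜) := by
    have h2 : ∑ j, (∑ i, v i * ((M i j : ℤ) : 𝕜)) * ((M.adjugate j z : ℤ) : 𝕜) =
        ((M.det : ℤ) : 𝕜) := by
      calc ∑ j, (∑ i, v i * ((M i j : ℤ) : 𝕜)) * ((M.adjugate j z : ℤ) : 𝕜)
          = ∑ i, v i * (((M * M.adjugate) i z : ℤ) : 𝕜) := by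
            simp_rw [Finset.sum_mul]
            rw [Finset.sum_comm]
            refine Finset.sum_congr rfl fun i _ => ?_
            rw [Matrix.mul_apply]
            push_cast
            rw [Finset.mul_sum]
            refine Finset.sum_congr rfl fun j _ => ?_
            ring
        _ = ((M.det : ℤ) : 𝕜) := by
            rw [Matrix.mul_adjugate, Finset.sum_eq_single z]
            · rw [hv0]
              simp
            · intro i _ hi
              simp [Matrix.one_apply_ne hi]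
            · intro h
              exact absurd (Finset.mem_univ _) h
    rw [← h2, Finset.mul_sum]
    refine Finset.sum_congr rfl fun j _ => ?_
    rw [ht j]
    ring
  have h3 : ‖∑ j, v j * ((M.adjugate j z : ℤ) : 𝕜)‖ ≤ n * V * n.factorial * m ^ n := by
    refine (norm_sum_le _ _).trans ?_
    have h4 : ∀ j ∈ Finset.univ, ‖v j * ((M.adjugate j z : ℤ) : 𝕜)‖ ≤
        V * (n.factorial * m ^ n) := by
      intro j _
      rw [norm_mul]
      have h5 : ‖((M.adjugate j z : ℤ) : 𝕜)‖ = |((M.adjugate j z : ℤ) : ℝ)| :=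
        liou_norm_int _
      rw [h5]
      exact mul_le_mul (hv j) (liou_adj M m hm hM j z) (abs_nonneg _) hV
    refine (Finset.sum_le_card_nsmul _ _ _ h4).trans (le_of_eq ?_)
    rw [Finset.card_univ, Fintype.card_fin, nsmul_eq_mul]
    ring
  have h6 : (1 : ℝ) ≤ ‖((M.det : ℤ) : 𝕜)‖ := by
    rw [liou_norm_int]
    exact_mod_cast Int.one_le_abs hdet
  rw [h1, norm_mul] at h6
  exact h6.trans (mul_le_mul_of_nonneg_left h3 (norm_nonneg _))

end Pool.Agent.H72.ES
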