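import Pool.Agent.H72.ES.Norm
import Pool.Agent.H72.ES.Taylor

/-! # [ES-NEARROOT] A real point where `f` is very small is close to a REAL root of `f`

Proof. `f` splits over `ℂ`; `|f(z)| = ∏ ‖z - θ_i‖` (`n` factors, `f` monic), so some complex
root `θ` has `‖z - θ‖^n ≤ |f(z)| ≤ b^(-(n+2))`; `‖z-θ‖ ≤ 1/b` follows, and more precisely
`δ := ‖z - θ‖` satisfies `δ^n ≤ b^(-(n+2))`, in particular `δ ≤ 1/b`.
If `θ` is not real then `conj θ ≠ θ` is a root and `‖θ - conj θ‖ = 2 |Im θ| ≤ 2 ‖z - θ‖ ≤ 2/b`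
(`z` real). `f'(θ) = ∏_{θ_i ≠ θ} (θ - θ_i)` (roots are simple; or write `f = (X - θ) g`,
`f'(θ) = g(θ)`, `|g(θ)| ≤ ‖θ - conj θ‖ * ∏ others`), every root has `‖θ_i‖ ≤ n Q ≤ Q²`
(e.g. `O.φ_le`, `O.ν_α` for `exists_ord ℂ`, or a Cauchy bound), so
`‖f'(θ)‖ ≤ (2/b) (2 Q²)^n ≤ Q^(-7n² + 3n + 1)`. But `exists_ord ℂ ... θ` and `kappa_lower` give
`‖f'(θ)‖ = ‖O.φ O.κ‖ ≥ Q^(-3n²)`: contradiction. So `θ` is real. (`kappa_lower` needs a
normalised array `F` with `lead n F = f`, it is a hypothesis here.) -/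

namespace Pool.Agent.H72.ES

open Finset Polynomial

theorem nr_hom {𝕜 : Type} [RCLike 𝕜] {n Q : ℕ} {f : ℤ[X]} {θ : 𝕜} (O : Ord 𝕜 n Q f θ)
    (p : ℤ[X]) : O.φ (aeval O.α p) = aeval θ p := by
  rw [aeval_def, hom_eval₂, O.φ_α, aeval_def]
  congr 1
  exact RingHom.ext_int _ _

/-- a product of norms each at least `c` -/
theorem nr_prod_ge (c : ℝ) (hc : 0 ≤ c) (s : Multiset ℂ) (z : ℂ) (h : ∀ r ∈ s, c ≤ ‖z - r‖) :
    c ^ s.card ≤ ‖(s.map fun r => z - r).prod‖ := by
  induction s using Multiset.induction_on with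
  | empty => simp
  | cons a s ih =>
    rw [Multiset.map_cons, Multiset.prod_cons, norm_mul, Multiset.card_cons, pow_succ']
    exact mul_le_mul (h a (Multiset.mem_cons_self a s))
      (ih fun r hr => h r (Multiset.mem_cons_of_mem hr)) (pow_nonneg hc _) (norm_nonneg _)

theorem nr_prod_le (c : ℝ) (hc : 0 ≤ c) (s : Multiset ℂ) (z : ℂ) (h : ∀ r ∈ s, ‖z - r‖ ≤ c) :
    ‖(s.map fun r => z - r).prod‖ ≤ c ^ s.card := by
  induction s using Multiset.induction_on with
  | empty => simp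
  | cons a s ih =>
    rw [Multiset.map_cons, Multiset.prod_cons, norm_mul, Multiset.card_cons, pow_succ']
    exact mul_le_mul (h a (Multiset.mem_cons_self a s))
      (ih fun r hr => h r (Multiset.mem_cons_of_mem hr)) (norm_nonneg _) hc

theorem near_root {n Q : ℕ} {f : ℤ[X]} {F : ℕ → ℕ → ℤ} (hF : Norml n Q f F)
    (hf : Irreducible f) (z : ℝ) (hz : |aeval z f| ≤ 1 / bb n Q ^ (n + 2)) :
    ∃ θ : ℝ, aeval θ f = 0 ∧ |z - θ| ≤ 1 / bb n Q := by
  obtain ⟨hm, hd, hc⟩ := hF.lead_props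
  have hb := bb_pos hF.hn hF.hQ
  have hQ16 := sixteen_leR hF.hn hF.hQ
  have hb16 : (16 : ℝ) ≤ bb n Q := hQ16.trans (Q_le_bb hF.hn hF.hQ)
  set g : ℂ[X] := f.map (Int.castRingHom ℂ) with hg
  have hgm : g.Monic := hm.map _
  have hgd : g.natDegree = n := by rw [hg, hm.natDegree_map, hd]
  have hsp : g.Splits := IsAlgClosed.splits g
  have hcard : g.roots.card = n := by rw [← hgd]; exact splits_iff_card_roots.1 hsp
  have hprod : (g.roots.map fun a => X - C a).prod = g := by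
    exact (hsp.eq_prod_roots_of_monic hgm).symm
  have hev : ∀ w : ℂ, aeval w f = eval w g := by
    intro w
    rw [hg, eval_map, aeval_def]
    rfl
  have hevp : ∀ w : ℂ, eval w g = (g.roots.map fun r => w - r).prod := by
    intro w
    conv_lhs => rw [← hprod]
    rw [eval_multiset_prod, Multiset.map_map]
    simp
  -- every root comes from an order
  have hroot : ∀ r ∈ g.roots, aeval r f = 0 := by
    intro r hr
    rw [hev]
    exact (mem_roots'.1 hr).2
  have hrootb : ∀ r ∈ g.roots, ‖r‖ ≤ (Q : ℝ) ^ 2 := by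
    intro r hr
    obtain ⟨O⟩ := exists_ord ℂ hF.hn hF.hQ hm hd hc hf r (hroot r hr)
    have h1 := O.φ_le O.α
    rw [O.φ_α] at h1
    exact h1.trans (O.ν_α.trans (nQ_le hF.hn hF.hQ))
  -- a root close to `z`
  have hzr : ‖eval (z : ℂ) g‖ ≤ 1 / bb n Q ^ (n + 2) := by
    rw [← hev]
    have : aeval (z : ℂ) f = ((aeval z f : ℝ) : ℂ) :=
      aeval_algebraMap_apply ℂ z f
    rw [this, Complex.norm_real, Real.norm_eq_abs]
    exact hz
  obtain ⟨θ, hθ, hθz⟩ : ∃ θ ∈ g.roots, ‖(z : ℂ) - θ‖ ≤ 1 / bb n Q := by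
    by_contra hcon
    push Not at hcon
    have h1 := nr_prod_ge (1 / bb n Q) (by positivity) g.roots (z : ℂ)
      (fun r hr => (hcon r hr).le)
    rw [← hevp, hcard] at h1
    have h2 := h1.trans hzr
    rw [one_div_pow, one_div_le_one_div (by positivity) (by positivity)] at h2
    have h3 : bb n Q ^ n < bb n Q ^ (n + 2) := pow_lt_pow_right₀ (by linarith) (by omega)
    linarith
  -- the root is real
  have him : θ.im = 0 := by
    by_contra him
    have hne : (starRingEnd ℂ) θ ≠ θ := by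
      intro h
      exact him (Complex.conj_eq_iff_im.1 h)
    have hconj : (starRingEnd ℂ) θ ∈ g.roots := by
      rw [mem_roots']
      refine ⟨hgm.ne_zero, ?_⟩
      have h1 := hroot θ hθ
      have h2 : aeval ((starRingEnd ℂ) θ) f = (starRingEnd ℂ) (aeval θ f) := by
        rw [aeval_def, aeval_def, hom_eval₂]
        congr 1
        exact RingHom.ext_int _ _
      rw [IsRoot.def, ← hev, h2, h1, map_zero]
    obtain ⟨s, hs⟩ := Multiset.exists_cons_of_mem hθ
    have hconj' : (starRingEnd ℂ) θ ∈ s := by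
      rw [hs, Multiset.mem_cons] at hconj
      exact hconj.resolve_left hne
    obtain ⟨s', hs'⟩ := Multiset.exists_cons_of_mem hconj'
    have hcs : s'.card = n - 2 := by
      have := hcard
      rw [hs, hs', Multiset.card_cons, Multiset.card_cons] at this
      omega
    -- the derivative
    have hfac : g = (X - C θ) * ((X - C ((starRingEnd ℂ) θ)) * (s'.map fun a => X - C a).prod) := by
      conv_lhs => rw [← hprod, hs, hs']
      rw [Multiset.map_cons, Multiset.prod_cons, Multiset.map_cons, Multiset.prod_cons]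
    have hder : eval θ (derivative g) = (θ - (starRingEnd ℂ) θ) * (s'.map fun r => θ - r).prod := by
      rw [hfac, derivative_mul, eval_add, eval_mul, eval_mul, derivative_sub, derivative_X,
        derivative_C, sub_zero, eval_one, one_mul, eval_mul, eval_sub, eval_X, eval_C,
        eval_sub, eval_X, eval_C, sub_self, zero_mul, add_zero, eval_multiset_prod,
        Multiset.map_map]
      simp
    obtain ⟨O⟩ := exists_ord ℂ hF.hn hF.hQ hm hd hc hf θ (hroot θ hθ)
    have hκ : O.φ O.κ = eval θ (derivative g) := by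
      rw [Ord.κ, nr_hom O, hg, derivative_map, eval_map, aeval_def]
      rfl
    have hlow := kappa_lower O hF
    rw [hκ, hder, norm_mul] at hlow
    have h1 : ‖θ - (starRingEnd ℂ) θ‖ ≤ 2 / bb n Q := by
      have h2 : θ - (starRingEnd ℂ) θ = (θ - z) - (starRingEnd ℂ) (θ - z) := by
        rw [map_sub, Complex.conj_ofReal]
        ring
      rw [h2]
      refine (norm_sub_le _ _).trans ?_
      rw [RCLike.norm_conj, norm_sub_rev θ (z : ℂ)]
      calc ‖(z : ℂ) - θ‖ + ‖(z : ℂ) - θ‖ ≤ 1 / bb n Q + 1 / bb n Q := add_le_add hθz hθz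
        _ = 2 / bb n Q := by ring
    have h3 : ‖(s'.map fun r => θ - r).prod‖ ≤ (2 * (Q : ℝ) ^ 2) ^ (n - 2) := by
      rw [← hcs]
      refine nr_prod_le _ (by positivity) s' θ fun r hr => ?_
      have hr' : r ∈ g.roots := by
        rw [hs, hs']
        exact Multiset.mem_cons_of_mem (Multiset.mem_cons_of_mem hr)
      refine (norm_sub_le _ _).trans ?_
      linarith [hrootb r hr', hrootb θ hθ]
    have h4 : ‖θ - (starRingEnd ℂ) θ‖ * ‖(s'.map fun r => θ - r).prod‖ * (Q : ℝ) ^ (3 * n ^ 2) ≤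
        2 / bb n Q * (2 * (Q : ℝ) ^ 2) ^ (n - 2) * (Q : ℝ) ^ (3 * n ^ 2) := by
      gcongr
    have h5 : 2 / bb n Q * (2 * (Q : ℝ) ^ 2) ^ (n - 2) * (Q : ℝ) ^ (3 * n ^ 2) < 1 := by
      have h6 : 2 / bb n Q * (2 * (Q : ℝ) ^ 2) ^ (n - 2) * (Q : ℝ) ^ (3 * n ^ 2) =
          (2 * (2 * (Q : ℝ) ^ 2) ^ (n - 2) * (Q : ℝ) ^ (3 * n ^ 2)) / bb n Q := by ring
      rw [h6, div_lt_one hb]
      have h7 : (2 * (Q : ℝ) ^ 2) ≤ (Q : ℝ) ^ 3 := by nlinarith [sq_nonneg (Q : ℝ)]
      calc 2 * (2 * (Q : ℝ) ^ 2) ^ (n - 2) * (Q : ℝ) ^ (3 * n ^ 2)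
          ≤ (Q : ℝ) * ((Q : ℝ) ^ 3) ^ (n - 2) * (Q : ℝ) ^ (3 * n ^ 2) := by
            gcongr
            linarith
        _ = (Q : ℝ) ^ (1 + 3 * (n - 2) + 3 * n ^ 2) := by
            rw [pow_add, pow_add, pow_one, ← pow_mul]
        _ < (Q : ℝ) ^ (7 * n ^ 2) := by
            refine pow_lt_pow_right₀ (by linarith) ?_
            have := hF.hn
            nlinarith [Nat.sub_le n 2]
        _ = bb n Q := rfl
    linarith
  have hre : θ = ((θ.re : ℝ) : ℂ) := by
    apply Complex.ext <;> simp [him]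
  refine ⟨θ.re, ?_, ?_⟩
  · have h1 := hroot θ hθ
    rw [hre] at h1
    have : aeval ((θ.re : ℝ) : ℂ) f = ((aeval θ.re f : ℝ) : ℂ) :=
      aeval_algebraMap_apply ℂ θ.re f
    rw [this] at h1
    exact_mod_cast h1
  · refine le_trans ?_ hθz
    have := Complex.abs_re_le_norm ((z : ℂ) - θ)
    simpa using this

end Pool.Agent.H72.ES
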