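import Pool.Agent.H72.ES.Count
import Pool.Agent.H72.ES.ExpandG
import Pool.Agent.H72.ES.NoCol
import Pool.Agent.H72.ES.GaForm

/-! # Counting large points on all curves with the same terms of degree `≥ n - 3`, no flexes at
infinity -/

namespace Pool.Agent.H72.ES

open Finset Polynomial

variable {n Q : ℕ} {f : ℤ[X]} {θ : ℝ}

/-- the points near `θ` on curves with the same terms of degree `≥ n - 3` as `G` -/
structure PtsB (n Q : ℕ) (f : ℤ[X]) (G : ℕ → ℕ → ℤ) (θ : ℝ) (S : Finset (ℤ × ℤ)) : Prop where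
  mem : ∀ P ∈ S, ∃ F, Norml n Q f F ∧ Top4 n F G ∧ ev n F P.1 P.2 = 0
  near : ∀ P ∈ S, |(P.2 : ℝ) / P.1 - θ| ≤ 1 / bb n Q

theorem PtsB.mono {G : ℕ → ℕ → ℤ} {S T : Finset (ℤ × ℤ)} (h : PtsB n Q f G θ S)
    (hT : T ⊆ S) : PtsB n Q f G θ T where
  mem := fun P hP => h.mem P (hT hP)
  near := fun P hP => h.near P (hT hP)

theorem one_windowB {G : ℕ → ℕ → ℤ} (hN : Norml n Q f G) (O : Ord ℝ n Q f θ)
    (br : Branch O G) (hga0 : 1 ≤ |br.ga| * bb n Q ^ (4 * n)) (S : Finset (ℤ × ℤ))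
    (hS : PtsB n Q f G θ S) (X : ℝ) (hX : bb n Q ^ (60 * n ^ 2) ≤ X)
    (h1 : ∀ P ∈ S, X ≤ |(P.1 : ℝ)|)
    (h2 : ∀ P ∈ S, |(P.1 : ℝ)| ≤ X ^ (1 + 1 / (3 * (n : ℝ)))) : S.card ≤ 4 := by
  by_contra hc
  push Not at hc
  obtain ⟨T, hTS, hT⟩ := Finset.exists_subset_card_eq (s := S) (n := 5) hc
  set e := T.equivFinOfCardEq hT with he
  set p : Fin 5 → ℤ × ℤ := fun i => (e.symm i).1 with hp
  have hpS : ∀ i, p i ∈ S := fun i => hTS (e.symm i).2
  have hpi : Function.Injective p := by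
    intro i j hij
    exact e.symm.injective (Subtype.ext hij)
  obtain ⟨hbe, hga, hde⟩ := expand_bounds hN br
  have hb1 := one_le_bb hN.hn hN.hQ
  have h4b : (4 : ℝ) ≤ bb n Q := le_trans (by norm_num) (thousand_le_bb hN.hn hN.hQ)
  have hn := hN.hn
  have hbe' : |br.be| ≤ bb n Q ^ 10 := hbe.trans (pow_le_pow_right₀ hb1 (by norm_num))
  have hga' : |br.ga| ≤ bb n Q ^ 10 := hga.trans (pow_le_pow_right₀ hb1 (by norm_num))
  have hE : ∀ i, |((p i).2 : ℝ) - (θ * (p i).1 + br.be + br.ga / (p i).1 +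
      br.de / ((p i).1 : ℝ) ^ 2)| ≤ bb n Q ^ 25 / |((p i).1 : ℝ)| ^ 3 := by
    intro i
    obtain ⟨F, hF, hFG, h0⟩ := hS.mem _ (hpS i)
    refine expand4g hF hN hFG br (p i).1 (p i).2 ?_ (hS.near _ (hpS i)) h0
    refine le_trans ?_ ((hX.trans (h1 _ (hpS i))))
    exact pow_le_pow_right₀ hb1 (by nlinarith)
  have hXs : bb n Q ^ (200 * n) < X := by
    refine lt_of_lt_of_le ?_ hX
    exact pow_lt_pow_right₀ (by linarith) (by nlinarith)
  refine gap hN.hn hN.hQ O br.be br.ga br.de hbe' hga' hde X hXs p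
    (fun i => h1 _ (hpS i)) (fun i => h2 _ (hpS i)) hE ?_
  intro i j k hij hik hjk
  refine no_col hN.hn hN.hQ O br.be br.ga br.de hbe' hga' hde hga0 X hX (p i) (p j) (p k)
    (fun h => hij (hpi h)) (fun h => hik (hpi h)) (fun h => hjk (hpi h)) ?_ ?_ ?_
  all_goals
    intro P hP
    simp only [Set.mem_insert_iff, Set.mem_singleton_iff] at hP
    rcases hP with rfl | rfl | rfl
  · exact h1 _ (hpS i)
  · exact h1 _ (hpS j)
  · exact h1 _ (hpS k)
  · exact h2 _ (hpS i)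
  · exact h2 _ (hpS j)
  · exact h2 _ (hpS k)
  · exact hE i
  · exact hE j
  · exact hE k

theorem windowsB {G : ℕ → ℕ → ℤ} (hN : Norml n Q f G) (O : Ord ℝ n Q f θ)
    (br : Branch O G) (hga0 : 1 ≤ |br.ga| * bb n Q ^ (4 * n)) (m : ℕ) :
    ∀ (S : Finset (ℤ × ℤ)), PtsB n Q f G θ S → ∀ X : ℝ,
    bb n Q ^ (60 * n ^ 2) ≤ X → (∀ P ∈ S, X ≤ |(P.1 : ℝ)|) →
    (∀ P ∈ S, |(P.1 : ℝ)| < X ^ ((1 + 1 / (3 * (n : ℝ))) ^ m)) → S.card ≤ 4 * m := by
  induction m with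
  | zero =>
    intro S _ X _ h1 h2
    have : S = ∅ := by
      apply eq_empty_of_forall_notMem
      intro P hP
      have e1 := h1 P hP
      have e2 := h2 P hP
      simp only [pow_zero, Real.rpow_one] at e2
      linarith
    simp [this]
  | succ m ih =>
    intro S hS X hX h1 h2
    have hb1 := one_le_bb hN.hn hN.hQ
    have hX1 : 1 ≤ X := (one_le_pow₀ hb1).trans hX
    have hX0 : 0 < X := by linarith
    set δ : ℝ := 1 + 1 / (3 * (n : ℝ)) with hδ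
    have hn0 : (0 : ℝ) < n := by
      have := hN.hn
      exact_mod_cast (by omega : 0 < n)
    have hδ1 : 1 ≤ δ := by
      have : (0 : ℝ) ≤ 1 / (3 * (n : ℝ)) := by positivity
      linarith
    have hXδ : X ≤ X ^ δ := by
      calc X = X ^ (1 : ℝ) := (Real.rpow_one X).symm
        _ ≤ X ^ δ := Real.rpow_le_rpow_of_exponent_le hX1 hδ1
    set S1 := S.filter (fun P => |(P.1 : ℝ)| < X ^ δ) with hS1
    set S2 := S.filter (fun P => ¬ |(P.1 : ℝ)| < X ^ δ) with hS2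
    have hs1 : S1 ⊆ S := filter_subset _ _
    have hs2 : S2 ⊆ S := filter_subset _ _
    have e1 : S1.card ≤ 4 := by
      refine one_windowB hN O br hga0 S1 (hS.mono hs1) X hX
        (fun P hP => h1 P (hs1 hP)) ?_
      intro P hP
      exact ((mem_filter.1 hP).2).le
    have e2 : S2.card ≤ 4 * m := by
      refine ih S2 (hS.mono hs2) (X ^ δ) (hX.trans hXδ) ?_ ?_
      · intro P hP
        exact not_lt.1 (mem_filter.1 hP).2
      · intro P hP
        have := h2 P (hs2 hP)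
        rw [← Real.rpow_mul hX0.le]
        have e3 : δ * δ ^ m = δ ^ (m + 1) := by ring
        rw [e3]
        exact this
    have e3 : S1.card + S2.card = S.card := by
      rw [hS1, hS2]
      exact card_filter_add_card_filter_not _
    omega

theorem class_countB {G : ℕ → ℕ → ℤ} (hN : Norml n Q f G) (hf : Irreducible f)
    (O : Ord ℝ n Q f θ) (hflex : flexv n G θ ≠ 0) (S : Finset (ℤ × ℤ))
    (hS : PtsB n Q f G θ S) (h1 : ∀ P ∈ S, bb n Q ^ (60 * n ^ 2) ≤ |(P.1 : ℝ)|) :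
    S.card ≤ 80 * n ^ 2 := by
  obtain ⟨br⟩ := exists_branch O hN
  have hga0 := ga_lower O hN br hflex
  have hn := hN.hn
  have hb1 := one_le_bb hN.hn hN.hQ
  have h4b : (4 : ℝ) ≤ bb n Q := le_trans (by norm_num) (thousand_le_bb hN.hn hN.hQ)
  set b := bb n Q with hb
  have hb0 : 0 < b := by linarith
  have hbb : 1 < b := by linarith
  have h4n := four_n_le hn
  have hA1 : ((3667 : ℕ) : ℝ) ≤ (1 + 1 / (3 * (n : ℝ))) ^ (3 * n * 12) := by
    refine le_trans ?_ (two_pow_le_window (by omega) 12)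
    norm_num
  have hA2 : ((2000 * n : ℕ) : ℝ) ≤ (1 + 1 / (3 * (n : ℝ))) ^ (3 * n * (n + 9)) := by
    refine le_trans ?_ (two_pow_le_window (by omega) (n + 9))
    have : 2000 * n ≤ 2 ^ (n + 9) := by
      rw [pow_add]
      omega
    exact_mod_cast this
  set S1 := S.filter (fun P => |(P.1 : ℝ)| < b ^ (220000 * n ^ 2)) with hS1
  set S2 := S.filter (fun P => ¬ |(P.1 : ℝ)| < b ^ (220000 * n ^ 2)) with hS2
  have hs1 : S1 ⊆ S := filter_subset _ _
  have hs2 : S2 ⊆ S := filter_subset _ _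
  have hnn : 1 ≤ n ^ 2 := Nat.one_le_pow _ _ (by omega)
  have e1 : S1.card ≤ 4 * (3 * n * 12) := by
    refine windowsB hN O br hga0 _ S1 (hS.mono hs1) (b ^ (60 * n ^ 2))
      (le_refl _) (fun P hP => h1 P (hs1 hP)) ?_
    intro P hP
    have h3 := (mem_filter.1 hP).2
    refine lt_of_lt_of_le h3 ?_
    have hB1 : 1 ≤ b ^ (60 * n ^ 2) := one_le_pow₀ hb1
    calc b ^ (220000 * n ^ 2) ≤ b ^ ((60 * n ^ 2) * 3667) := pow_le_pow_right₀ hb1 (by omega)
      _ = (b ^ (60 * n ^ 2)) ^ 3667 := by rw [← pow_mul]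
      _ = (b ^ (60 * n ^ 2)) ^ ((3667 : ℕ) : ℝ) := (Real.rpow_natCast _ _).symm
      _ ≤ _ := Real.rpow_le_rpow_of_exponent_le hB1 hA1
  have e2 : S2.card ≤ 4 * (3 * n * (n + 9)) := by
    by_cases hne : S2.Nonempty
    · obtain ⟨P1, hP1, hmin⟩ := S2.exists_min_image (fun P => |(P.1 : ℝ)|) hne
      have hX : b ^ (220000 * n ^ 2) ≤ |(P1.1 : ℝ)| := not_lt.1 (mem_filter.1 hP1).2
      refine windowsB hN O br hga0 _ S2 (hS.mono hs2) |(P1.1 : ℝ)|
        (le_trans (pow_le_pow_right₀ hb1 (by omega)) hX) hmin ?_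
      intro P hP
      have hX1 : 1 ≤ |(P1.1 : ℝ)| := (one_le_pow₀ hb1).trans hX
      have hlt : |(P.1 : ℝ)| < |(P1.1 : ℝ)| ^ (2000 * n) := by
        by_contra hc
        push Not at hc
        obtain ⟨F1, hF1, _, h01⟩ := hS.mem P1 (hs2 hP1)
        obtain ⟨F2, hF2, _, h02⟩ := hS.mem P (hs2 hP)
        exact two_point hf O hF1 hF2 P1.1 P1.2 P.1 P.2 h01 h02
          (hS.near P1 (hs2 hP1)) (hS.near P (hs2 hP)) hX hc
      refine lt_of_lt_of_le hlt ?_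
      rw [← Real.rpow_natCast]
      exact Real.rpow_le_rpow_of_exponent_le hX1 hA2
    · rw [not_nonempty_iff_eq_empty] at hne
      rw [hne]
      simp
  have e3 : S1.card + S2.card = S.card := by
    rw [hS1, hS2]
    exact card_filter_add_card_filter_not _
  rw [← e3]
  have e4 : n * 4 ≤ n ^ 2 := by nlinarith
  nlinarith

/-- a large point on a normalised curve is close to a real asymptotic direction -/
theorem far_pointB {F : ℕ → ℕ → ℤ} (hN : Norml n Q f F) (hf : Irreducible f) (x y : ℤ)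
    (hs : |ev n F x y| ≤ (Q : ℤ)) (B : ℝ) (hB : bb n Q ^ (n + 3) ≤ B)
    (hbig : (Q : ℝ) ^ 2 * B ≤ ((max |x| |y| : ℤ) : ℝ)) :
    B ≤ |(x : ℝ)| ∧ ∃ θ : ℝ, aeval θ f = 0 ∧ |(y : ℝ) / x - θ| ≤ 1 / bb n Q := by
  have hn := hN.hn
  have hb1 := one_le_bb hN.hn hN.hQ
  have hQ1 := one_le_QR hN.hn hN.hQ
  have hQ16 := sixteen_leR hN.hn hN.hQ
  have hQb5 : (Q : ℝ) ^ 5 ≤ bb n Q := Qpow_le_bb hN.hn hN.hQ (by nlinarith)
  have hQbn : (Q : ℝ) ^ (2 * n + 4) ≤ bb n Q := Qpow_le_bb hN.hn hN.hQ (by nlinarith)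
  set b := bb n Q with hb
  have hb0 : 0 < b := by linarith
  have hQ0 : (0 : ℝ) < Q := by linarith
  have hbpow : b ≤ B := by
    calc b = b ^ 1 := (pow_one b).symm
      _ ≤ b ^ (n + 3) := pow_le_pow_right₀ hb1 (by omega)
      _ ≤ B := hB
  have hB0 : 0 < B := by linarith
  have hlt : (Q : ℤ) ^ 5 < max |x| |y| := by
    have : (Q : ℝ) ^ 5 < ((max |x| |y| : ℤ) : ℝ) := by
      calc (Q : ℝ) ^ 5 ≤ B := hQb5.trans hbpow
        _ < (Q : ℝ) ^ 2 * B := by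
          have e1 : (1 : ℝ) < (Q : ℝ) ^ 2 := one_lt_pow₀ (by linarith) (by norm_num)
          nlinarith
        _ ≤ _ := hbig
    exact_mod_cast this
  have hslope := slope_bound hN x y hs hlt
  have hslopeR : |(y : ℝ)| ≤ (Q : ℝ) ^ 2 * |(x : ℝ)| := by exact_mod_cast hslope
  have hxb : B ≤ |(x : ℝ)| := by
    have e1 : ((max |x| |y| : ℤ) : ℝ) ≤ (Q : ℝ) ^ 2 * |(x : ℝ)| := by
      push_cast
      refine max_le ?_ hslopeR
      have e1 : (1 : ℝ) ≤ (Q : ℝ) ^ 2 := one_le_pow₀ hQ1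
      nlinarith [abs_nonneg (x : ℝ)]
    exact le_of_mul_le_mul_left (hbig.trans e1) (by positivity)
  refine ⟨hxb, ?_⟩
  have hx0 : 0 < |(x : ℝ)| := lt_of_lt_of_le (by positivity) hxb
  have hx : x ≠ 0 := by
    rintro rfl
    simp at hx0
  have hl := lead_small hN x y hs hx hslope
  refine near_root hN hf _ (hl.trans ?_)
  rw [← hb, div_le_div_iff₀ hx0 (by positivity), one_mul]
  calc (Q : ℝ) ^ (2 * n + 4) * b ^ (n + 2) ≤ b * b ^ (n + 2) := by gcongr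
    _ = b ^ (n + 3) := by ring
    _ ≤ |(x : ℝ)| := hB.trans hxb

/-- number of large points on all curves with the same terms of degree `≥ n - 3` as `G` -/
theorem family_countB {G : ℕ → ℕ → ℤ} (hN : Norml n Q f G) (hf : Irreducible f)
    (hflex : ∀ θ : ℝ, aeval θ f = 0 → flexv n G θ ≠ 0) (S : Finset (ℤ × ℤ))
    (hs : ∀ P ∈ S, ∃ F, Norml n Q f F ∧ Top4 n F G ∧ ev n F P.1 P.2 = 0)
    (hbig : ∀ P ∈ S, (Q : ℝ) ^ 2 * bb n Q ^ (60 * n ^ 2) ≤ ((max |P.1| |P.2| : ℤ) : ℝ)) :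
    S.card ≤ 80 * n ^ 3 := by
  classical
  obtain ⟨hm, hd, hc⟩ := hN.lead_props
  have hn := hN.hn
  have hb1 := one_le_bb hN.hn hN.hQ
  set rts : Finset ℝ := (f.map (Int.castRingHom ℝ)).roots.toFinset with hrts
  have hmR : (f.map (Int.castRingHom ℝ)).Monic := hm.map _
  have hcard : rts.card ≤ n := by
    calc rts.card ≤ Multiset.card (f.map (Int.castRingHom ℝ)).roots := Multiset.toFinset_card_le _
      _ ≤ (f.map (Int.castRingHom ℝ)).natDegree := Polynomial.card_roots' _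
      _ = n := by rw [hm.natDegree_map, hd]
  have hmem : ∀ θ : ℝ, aeval θ f = 0 → θ ∈ rts := by
    intro θ hθ
    rw [hrts, Multiset.mem_toFinset, mem_roots hmR.ne_zero, IsRoot.def, eval_map,
      ← algebraMap_int_eq, ← aeval_def]
    exact hθ
  have hmem' : ∀ θ ∈ rts, aeval θ f = 0 := by
    intro θ hθ
    rw [hrts, Multiset.mem_toFinset, mem_roots hmR.ne_zero, IsRoot.def, eval_map,
      ← algebraMap_int_eq, ← aeval_def] at hθ
    exact hθ
  have hB : bb n Q ^ (n + 3) ≤ bb n Q ^ (60 * n ^ 2) := pow_le_pow_right₀ hb1 (by nlinarith)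
  have hfar : ∀ P ∈ S, bb n Q ^ (60 * n ^ 2) ≤ |(P.1 : ℝ)| ∧
      ∃ θ : ℝ, aeval θ f = 0 ∧ |(P.2 : ℝ) / P.1 - θ| ≤ 1 / bb n Q := by
    intro P hP
    obtain ⟨F, hF, _, h0⟩ := hs P hP
    exact far_pointB hF hf P.1 P.2 (by rw [h0]; simp) _ hB (hbig P hP)
  set T : ℝ → Finset (ℤ × ℤ) := fun θ => S.filter (fun P => |(P.2 : ℝ) / P.1 - θ| ≤ 1 / bb n Q)
    with hT
  have hsub : S ⊆ rts.biUnion T := by
    intro P hP
    obtain ⟨_, θ, hθ, hnear⟩ := hfar P hP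
    exact mem_biUnion.2 ⟨θ, hmem θ hθ, mem_filter.2 ⟨hP, hnear⟩⟩
  have hclass : ∀ θ ∈ rts, (T θ).card ≤ 80 * n ^ 2 := by
    intro θ hθ
    obtain ⟨O⟩ := exists_ord ℝ hN.hn hN.hQ hm hd hc hf θ (hmem' θ hθ)
    have hTS : T θ ⊆ S := filter_subset _ _
    refine class_countB hN hf O (hflex θ (hmem' θ hθ)) (T θ) ⟨?_, ?_⟩ ?_
    · exact fun P hP => hs P (hTS hP)
    · exact fun P hP => (mem_filter.1 hP).2
    · exact fun P hP => (hfar P (hTS hP)).1
  calc S.card ≤ ∑ θ ∈ rts, (T θ).card := (card_le_card hsub).trans card_biUnion_le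
    _ ≤ ∑ θ ∈ rts, (80 * n ^ 2) := sum_le_sum hclass
    _ = rts.card * (80 * n ^ 2) := by rw [sum_const, smul_eq_mul]
    _ ≤ n * (80 * n ^ 2) := Nat.mul_le_mul_right _ hcard
    _ = 80 * n ^ 3 := by ring

end Pool.Agent.H72.ES
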