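import Pool.Agent.H72.ES.Normalize
import Pool.Agent.H72.ES.WindowB

/-! # Normalisation for the flex-free count -/

namespace Pool.Agent.H72.ES

open Finset Polynomial

theorem nrm_mul_pow {n : ℕ} (hn : 1 ≤ n) (G : ℕ → ℕ → ℤ) (i l : ℕ) (h : i + l ≤ n) :
    nrm n G i l * G 0 n ^ l = G 0 n ^ (n - 1) * G i l := by
  by_cases hl : l = n
  · subst hl
    have hi : i = 0 := by omega
    subst hi
    simp only [nrm, if_true]
    obtain ⟨m, rfl⟩ : ∃ m, l = m + 1 := ⟨l - 1, by omega⟩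
    simp only [Nat.add_sub_cancel]
    ring
  · simp only [nrm, hl, if_false]
    have : G 0 n ^ (n - 1) = G 0 n ^ (n - 1 - l) * G 0 n ^ l := by
      rw [← pow_add]
      congr 1
      omega
    rw [this]
    ring

theorem tc_nrm {n : ℕ} (hn : 1 ≤ n) (G : ℕ → ℕ → ℤ) (θ : ℝ) (i j : ℕ) :
    tc n (nrm n G) (((G 0 n : ℤ) : ℝ) * θ) i j * ((G 0 n : ℤ) : ℝ) ^ j =
      ((G 0 n : ℤ) : ℝ) ^ (n - 1) * tc n G θ i j := by
  unfold tc
  rw [sum_mul, mul_sum]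
  refine sum_congr rfl fun l hl => ?_
  simp only [mem_range] at hl
  by_cases hj : j ≤ l
  · have h1 := nrm_mul_pow hn G (n - i - l) l (by omega)
    have h2 : ((nrm n G (n - i - l) l : ℤ) : ℝ) * ((G 0 n : ℤ) : ℝ) ^ l =
        ((G 0 n : ℤ) : ℝ) ^ (n - 1) * ((G (n - i - l) l : ℤ) : ℝ) := by
      exact_mod_cast h1
    have h3 : ((G 0 n : ℤ) : ℝ) ^ l = ((G 0 n : ℤ) : ℝ) ^ (l - j) * ((G 0 n : ℤ) : ℝ) ^ j := by
      rw [← pow_add]
      congr 1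
      omega
    rw [mul_pow]
    calc ((nrm n G (n - i - l) l : ℤ) : ℝ) * (l.choose j : ℝ) *
        (((G 0 n : ℤ) : ℝ) ^ (l - j) * θ ^ (l - j)) * ((G 0 n : ℤ) : ℝ) ^ j
        = ((nrm n G (n - i - l) l : ℤ) : ℝ) * (((G 0 n : ℤ) : ℝ) ^ (l - j) *
            ((G 0 n : ℤ) : ℝ) ^ j) * (l.choose j : ℝ) * θ ^ (l - j) := by ring
      _ = _ := by rw [← h3, h2]; ring
  · rw [Nat.choose_eq_zero_of_lt (by omega)]
    simp

theorem flexv_nrm {n : ℕ} (hn : 1 ≤ n) (G : ℕ → ℕ → ℤ) (ha : G 0 n ≠ 0) (θ : ℝ)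
    (h : flexv n G θ ≠ 0) : flexv n (nrm n G) (((G 0 n : ℤ) : ℝ) * θ) ≠ 0 := by
  have haR : ((G 0 n : ℤ) : ℝ) ≠ 0 := by exact_mod_cast ha
  set a : ℝ := ((G 0 n : ℤ) : ℝ) with hadef
  intro h0
  have e20 := tc_nrm hn G θ 2 0
  have e01 := tc_nrm hn G θ 0 1
  have e11 := tc_nrm hn G θ 1 1
  have e10 := tc_nrm hn G θ 1 0
  have e02 := tc_nrm hn G θ 0 2
  rw [← hadef] at e20 e01 e11 e10 e02
  simp only [pow_zero, mul_one, pow_one] at e20 e01 e11 e10 e02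
  have key : flexv n (nrm n G) (a * θ) * a ^ 2 = (a ^ (n - 1)) ^ 3 * flexv n G θ := by
    unfold flexv
    calc (tc n (nrm n G) (a * θ) 2 0 * tc n (nrm n G) (a * θ) 0 1 ^ 2 -
          tc n (nrm n G) (a * θ) 1 1 * tc n (nrm n G) (a * θ) 0 1 * tc n (nrm n G) (a * θ) 1 0 +
          tc n (nrm n G) (a * θ) 0 2 * tc n (nrm n G) (a * θ) 1 0 ^ 2) * a ^ 2
        = tc n (nrm n G) (a * θ) 2 0 * (tc n (nrm n G) (a * θ) 0 1 * a) ^ 2 -
          (tc n (nrm n G) (a * θ) 1 1 * a) * (tc n (nrm n G) (a * θ) 0 1 * a) *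
            tc n (nrm n G) (a * θ) 1 0 +
          (tc n (nrm n G) (a * θ) 0 2 * a ^ 2) * tc n (nrm n G) (a * θ) 1 0 ^ 2 := by ring
      _ = _ := by rw [e20, e01, e11, e10, e02]; ring
  rw [h0, zero_mul] at key
  rcases mul_eq_zero.1 key.symm with h1 | h1
  · exact pow_ne_zero _ (pow_ne_zero _ haR) h1
  · exact h h1

theorem lead_nrm_root {n : ℕ} (hn : 1 ≤ n) (G : ℕ → ℕ → ℤ) (ha : G 0 n ≠ 0) (θ : ℝ)
    (h : aeval θ (lead n (nrm n G)) = 0) : ∃ θ' : ℝ, θ = ((G 0 n : ℤ) : ℝ) * θ' ∧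
      aeval θ' (part n 0 G) = 0 := by
  have haR : ((G 0 n : ℤ) : ℝ) ≠ 0 := by exact_mod_cast ha
  refine ⟨θ / ((G 0 n : ℤ) : ℝ), by field_simp, ?_⟩
  have h1 := tc_nrm hn G (θ / ((G 0 n : ℤ) : ℝ)) 0 0
  have h2 : ((G 0 n : ℤ) : ℝ) * (θ / ((G 0 n : ℤ) : ℝ)) = θ := by field_simp
  rw [h2, tc_zero_zero, h, zero_mul, tc_zero_zero] at h1
  rw [part_zero]
  exact (mul_eq_zero.1 h1.symm).resolve_left (pow_ne_zero _ haR)

theorem top4_nrm {n : ℕ} (_hn : 4 ≤ n) {F G : ℕ → ℕ → ℤ} (h : Top4 n F G) :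
    Top4 n (nrm n F) (nrm n G) := by
  intro i j hij hij4
  have h0 : F 0 n = G 0 n := h 0 n (by omega) (by omega)
  by_cases hj : j = n
  · simp [nrm, hj]
  · simp only [nrm, hj, if_false]
    rw [h0, h i j hij hij4]

theorem norml_nrm {n H : ℕ} (hn : 4 ≤ n) (hH : 2 ≤ H) {F G : ℕ → ℕ → ℤ} (hFG : Top4 n F G)
    (hF : ∀ i j, i + j ≤ n → |F i j| ≤ (H : ℤ)) :
    Norml n (2 * H ^ n) (lead n (nrm n G)) (nrm n F) where
  hn := hn
  hQ := by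
    have : 2 ^ n ≤ H ^ n := Nat.pow_le_pow_left hH n
    omega
  lead_eq := by
    have h4 := top4_nrm hn hFG
    unfold lead
    refine sum_congr rfl fun j hj => ?_
    simp only [mem_range] at hj
    rw [h4 (n - j) j (by omega) (by omega)]
  top := by simp [nrm]
  bound := fun i j hij => by
    have := nrm_bound (by omega : 1 ≤ n) F H (by omega) hF i j hij
    refine this.trans ?_
    push_cast
    have : (0 : ℤ) ≤ (H : ℤ) ^ n := by positivity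
    linarith

theorem threshold_le {n H : ℕ} (hn : 4 ≤ n) (hH : 2 ≤ H) :
    (((2 * H ^ n : ℕ) : ℝ)) ^ 2 * bb n (2 * H ^ n) ^ (60 * n ^ 2) ≤
      (H : ℝ) ^ (600 * n ^ 5) := by
  have hHR : (1 : ℝ) ≤ H := by exact_mod_cast (by omega : 1 ≤ H)
  have hQH : ((2 * H ^ n : ℕ) : ℝ) ≤ (H : ℝ) ^ (n + 1) := by
    push_cast
    have : (2 : ℝ) ≤ H := by exact_mod_cast hH
    calc 2 * (H : ℝ) ^ n ≤ H * (H : ℝ) ^ n := by gcongr
      _ = (H : ℝ) ^ (n + 1) := by ring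
  unfold bb
  set Q : ℝ := ((2 * H ^ n : ℕ) : ℝ) with hQ
  have hQ0 : (0 : ℝ) ≤ Q := Nat.cast_nonneg _
  calc Q ^ 2 * (Q ^ (7 * n ^ 2)) ^ (60 * n ^ 2) = Q ^ (2 + 420 * n ^ 4) := by
        rw [← pow_mul, ← pow_add]
        congr 1
        ring
    _ ≤ ((H : ℝ) ^ (n + 1)) ^ (2 + 420 * n ^ 4) := pow_le_pow_left₀ hQ0 hQH _
    _ = (H : ℝ) ^ ((n + 1) * (2 + 420 * n ^ 4)) := by rw [← pow_mul]
    _ ≤ (H : ℝ) ^ (600 * n ^ 5) := by
        refine pow_le_pow_right₀ hHR ?_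
        have h3 : 4 * (n + 1) ≤ 5 * n := by omega
        have h4 : 2 + 420 * n ^ 4 ≤ 421 * n ^ 4 := by
          have : 2 ≤ n ^ 4 := by
            calc 2 ≤ 4 ^ 4 := by norm_num
              _ ≤ n ^ 4 := Nat.pow_le_pow_left hn 4
          omega
        have h5 : 4 * ((n + 1) * (2 + 420 * n ^ 4)) ≤ 4 * (600 * n ^ 5) := by
          calc 4 * ((n + 1) * (2 + 420 * n ^ 4)) = (4 * (n + 1)) * (2 + 420 * n ^ 4) := by ring
            _ ≤ (5 * n) * (421 * n ^ 4) := Nat.mul_le_mul h3 h4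
            _ = 2105 * n ^ 5 := by ring
            _ ≤ 2400 * n ^ 5 := Nat.mul_le_mul_right _ (by norm_num)
            _ = 4 * (600 * n ^ 5) := by ring
        omega

/-- **Flex-free count.** -/
theorem main_countB {n H : ℕ} (hn : 4 ≤ n) (hH : 2 ≤ H) (G : ℕ → ℕ → ℤ)
    (hG : ∀ i j, i + j ≤ n → |G i j| ≤ (H : ℤ)) (ha : G 0 n ≠ 0)
    (hirr : Irreducible (leadQ n G))
    (hflex : ∀ θ : ℝ, aeval θ (part n 0 G) = 0 → aeval θ (flexP n G) ≠ 0)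
    (S : Finset (ℤ × ℤ))
    (hS : ∀ P ∈ S, (H : ℤ) ^ (600 * n ^ 5) < max |P.1| |P.2| ∧
      ∃ F : ℕ → ℕ → ℤ, (∀ i j, i + j ≤ n → |F i j| ≤ (H : ℤ)) ∧ Top4 n F G ∧
        ev n F P.1 P.2 = 0) :
    S.card ≤ 80 * n ^ 3 := by
  classical
  set a := G 0 n with hadef
  have hirr' := lead_nrm_irreducible (by omega : 1 ≤ n) G ha hirr
  set g : ℤ × ℤ → ℤ × ℤ := fun P => (P.1, a * P.2) with hg
  have hginj : Function.Injective g := by
    intro P P' h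
    simp only [hg, Prod.mk.injEq] at h
    exact Prod.ext h.1 (mul_left_cancel₀ ha h.2)
  have hmax : ∀ P : ℤ × ℤ, max |P.1| |P.2| ≤ max |P.1| |a * P.2| := by
    intro P
    refine max_le_max le_rfl ?_
    rw [abs_mul]
    have : 1 ≤ |a| := Int.one_le_abs ha
    nlinarith [abs_nonneg P.2]
  rw [← card_image_of_injective S hginj]
  refine family_countB (norml_nrm hn hH (fun i j _ _ => rfl) hG) hirr' ?_ (S.image g) ?_ ?_
  · intro θ hθ
    obtain ⟨θ', rfl, hθ'⟩ := lead_nrm_root (by omega) G ha θ hθ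
    refine flexv_nrm (by omega) G ha θ' ?_
    have h1 := hflex θ' hθ'
    rw [flexP_eval] at h1
    exact right_ne_zero_of_mul h1
  · intro P hP
    obtain ⟨R, hR, rfl⟩ := mem_image.1 hP
    obtain ⟨_, F, hF, hFG, h0⟩ := hS R hR
    refine ⟨nrm n F, norml_nrm hn hH hFG hF, top4_nrm hn hFG, ?_⟩
    have hF0 : F 0 n = a := hFG 0 n (by omega) (by omega)
    have h1 := ev_nrm (by omega : 1 ≤ n) F R.1 R.2
    rw [hF0] at h1
    simp only [hg]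
    rw [h1, h0, mul_zero]
  · intro P hP
    obtain ⟨R, hR, rfl⟩ := mem_image.1 hP
    have h2 : (((H : ℤ) ^ (600 * n ^ 5) : ℤ) : ℝ) ≤ ((max |(g R).1| |(g R).2| : ℤ) : ℝ) := by
      exact_mod_cast ((hS R hR).1.le.trans (hmax R))
    refine le_trans (threshold_le hn hH) ?_
    push_cast at h2 ⊢
    exact h2

end Pool.Agent.H72.ES
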