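import Pool.Agent.H72.ES.Expand

/-! The adapted basis of conics over the order. -/

namespace Pool.Agent.H72.ES

open Finset Polynomial

variable {n Q : ℕ} {f : ℤ[X]} {θ : ℝ}

/-- the coordinates of the monomials in the adapted basis, scaled by powers of `κ` -/
noncomputable def Psi (O : Ord ℝ n Q f θ) (w1 w2 : O.R) : Fin 6 → Fin 6 → O.R :=
  ![![1, 0, 0, 0, O.α, O.α ^ 2],
    ![0, O.κ, 0, O.κ * O.α, w1, 2 * O.α * w1],
    ![0, 0, O.κ ^ 3, O.κ ^ 2 * w1, w2, O.κ * w1 ^ 2 + 2 * O.α * w2],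
    ![0, 0, 0, O.κ, 0, 2 * w1],
    ![0, 0, 0, 0, 1, 2 * O.α],
    ![0, 0, 0, 0, 0, 1]]

/-- the scaling exponents -/
def sc : Fin 6 → ℕ := ![0, 1, 3, 1, 0, 0]

theorem mono_eq (O : Ord ℝ n Q f θ) (hκ : O.φ O.κ ≠ 0) (w1 w2 : O.R) (x y : ℝ) (m : Fin 6) :
    mono x y m = ∑ j, psi θ (O.φ w1 / O.φ O.κ) (O.φ w2 / O.φ O.κ ^ 3) x y j *
      (O.φ (Psi O w1 w2 j m) / O.φ O.κ ^ sc j) := by
  fin_cases m <;>
    simp [mono, psi, Psi, sc, Fin.sum_univ_succ, O.φ_α, map_ofNat]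
  all_goals field_simp
  all_goals ring

theorem Psi_bound (O : Ord ℝ n Q f θ) {F : ℕ → ℕ → ℤ} (hF : Norml n Q f F) (w1 w2 : O.R)
    (h1 : O.ν w1 ≤ bb n Q) (h2 : O.ν w2 ≤ bb n Q ^ 3) (j m : Fin 6) :
    O.ν (Psi O w1 w2 j m) ≤ bb n Q ^ 5 := by
  have hb1 : (4 : ℝ) ≤ bb n Q := le_trans (by norm_num) (thousand_le_bb hF.hn hF.hQ)
  set b := bb n Q with hb
  have hb0 : 0 ≤ b := by linarith
  have S := O.subMul
  have hα : O.ν O.α ≤ b := O.ν_α.trans ((nQ_le hF.hn hF.hQ).trans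
    (Qpow_le_bb hF.hn hF.hQ (by nlinarith [hF.hn])))
  have hκ : O.ν O.κ ≤ b := (kappa_bound O hF).trans
    (Qpow_le_bb hF.hn hF.hQ (by nlinarith [hF.hn]))
  have hle : ∀ k ≤ 5, b ^ k ≤ b ^ 5 := fun k hk => bbpow_mono hF.hn hF.hQ hk
  have h0 : ∀ a, 0 ≤ O.ν a := O.ν_nonneg
  have e1 : O.ν 1 ≤ b ^ 5 := S.one.trans (by simpa using hle 0 (by norm_num))
  have e0 : O.ν 0 ≤ b ^ 5 := by rw [O.ν_zero]; positivity
  have m2 : ∀ {a c : O.R} {k l : ℕ}, O.ν a ≤ b ^ k → O.ν c ≤ b ^ l → O.ν (a * c) ≤ b ^ (k + l) := by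
    intro a c k l ha hc
    rw [pow_add]
    exact (O.ν_mul a c).trans (mul_le_mul ha hc (h0 _) (by positivity))
  have hα' : O.ν O.α ≤ b ^ 1 := by simpa using hα
  have hκ' : O.ν O.κ ≤ b ^ 1 := by simpa using hκ
  have h1' : O.ν w1 ≤ b ^ 1 := by simpa using h1
  have htwo : O.ν (2 : O.R) ≤ 2 := by
    have := O.ν_int 2
    simpa using this
  have e2 : O.ν (2 : O.R) ≤ b ^ 1 := by simp only [pow_one]; linarith
  have hα2 : O.ν (O.α ^ 2) ≤ b ^ 2 := by rw [pow_two]; exact m2 hα' hα'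
  have hκ2 : O.ν (O.κ ^ 2) ≤ b ^ 2 := by rw [pow_two]; exact m2 hκ' hκ'
  have hκ3 : O.ν (O.κ ^ 3) ≤ b ^ 3 := by rw [pow_succ]; exact m2 hκ2 hκ'
  have hw12 : O.ν (w1 ^ 2) ≤ b ^ 2 := by rw [pow_two]; exact m2 h1' h1'
  have c1 : O.ν (O.κ * O.α) ≤ b ^ 2 := m2 hκ' hα'
  have c2 : O.ν (2 * O.α * w1) ≤ b ^ 3 := m2 (m2 e2 hα') h1'
  have c3 : O.ν (O.κ ^ 2 * w1) ≤ b ^ 3 := m2 hκ2 h1'
  have c4 : O.ν (O.κ * w1 ^ 2 + 2 * O.α * w2) ≤ b ^ 5 := by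
    have d1 : O.ν (O.κ * w1 ^ 2) ≤ b ^ 3 := m2 hκ' hw12
    have d2 : O.ν (2 * O.α * w2) ≤ 2 * b ^ 4 := by
      have := m2 hα' h2
      calc O.ν (2 * O.α * w2) = O.ν (2 * (O.α * w2)) := by rw [mul_assoc]
        _ ≤ O.ν 2 * O.ν (O.α * w2) := O.ν_mul _ _
        _ ≤ 2 * b ^ 4 := mul_le_mul htwo this (h0 _) (by norm_num)
    have d3 : b ^ 3 ≤ b ^ 4 := bbpow_mono hF.hn hF.hQ (by norm_num)
    calc O.ν (O.κ * w1 ^ 2 + 2 * O.α * w2) ≤ b ^ 3 + 2 * b ^ 4 :=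
          (O.ν_add _ _).trans (add_le_add d1 d2)
      _ ≤ 4 * b ^ 4 := by linarith [show (0:ℝ) ≤ b ^ 4 by positivity]
      _ ≤ b * b ^ 4 := mul_le_mul_of_nonneg_right hb1 (by positivity)
      _ = b ^ 5 := by ring
  have c5 : O.ν (2 * w1) ≤ b ^ 2 := m2 e2 h1'
  have c6 : O.ν (2 * O.α) ≤ b ^ 2 := m2 e2 hα'
  fin_cases j <;> fin_cases m <;>
    first
    | exact e0
    | exact e1
    | exact hα'.trans (hle 1 (by norm_num))
    | exact hα2.trans (hle 2 (by norm_num))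
    | exact hκ'.trans (hle 1 (by norm_num))
    | exact c1.trans (hle 2 (by norm_num))
    | exact h1'.trans (hle 1 (by norm_num))
    | exact c2.trans (hle 3 (by norm_num))
    | exact hκ3.trans (hle 3 (by norm_num))
    | exact c3.trans (hle 3 (by norm_num))
    | exact h2.trans (hle 3 (by norm_num))
    | exact c4
    | exact c5.trans (hle 2 (by norm_num))
    | exact c6.trans (hle 2 (by norm_num))

end Pool.Agent.H72.ES
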