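import Pool.Agent.H72.ES.Defs

/-! # [ES-SERIES] Formal implicit function theorem

`w = ∑_{i,j ≤ n} c_ij X^i w^j` with `c_00 = c_01 = 0` has a solution with zero constant
coefficient over every commutative ring.

Proof. `Φ(w)` = right side. If `X ∣ w, w'` and `X^k ∣ w - w'` then `X^(k+1) ∣ Φ w - Φ w'`
(terms with `i ≥ 1` gain an `X`; for `j ≥ 2`, `w^j - w'^j = (w - w') * (sum of products of
`j - 1 ≥ 1` factors divisible by `X`)`; `c_00`, `c_01` vanish). Put `W 0 = 0`,
`W (k+1) = Φ (W k)`: `X ∣ W k`, `X^(k+1) ∣ W (k+1) - W k`. Define `w` by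
`coeff k w = coeff k (W k)`; then `X^(k+1) ∣ w - W k` (all coefficients `≤ k` agree) and
`w - Φ w` is divisible by every power of `X`. -/

namespace Pool.Agent.H72.ES

open Finset

/-- the right side of the fixed point equation -/
noncomputable def serPhi {R : Type*} [CommRing R] (n : ℕ) (c : ℕ → ℕ → R)
    (w : PowerSeries R) : PowerSeries R :=
  ∑ i ∈ range (n + 1), ∑ j ∈ range (n + 1),
        PowerSeries.C (c i j) * PowerSeries.X ^ i * w ^ j

/-- the iterates -/
noncomputable def serW {R : Type*} [CommRing R] (n : ℕ) (c : ℕ → ℕ → R) : ℕ → PowerSeries R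
  | 0 => 0
  | (k + 1) => serPhi n c (serW n c k)

theorem serPhi_sub {R : Type*} [CommRing R] (n : ℕ) (c : ℕ → ℕ → R)
    (hc1 : c 0 1 = 0) (w w' : PowerSeries R) (k : ℕ) (hw : PowerSeries.X ∣ w)
    (hw' : PowerSeries.X ∣ w') (h : PowerSeries.X ^ k ∣ w - w') :
    PowerSeries.X ^ (k + 1) ∣ serPhi n c w - serPhi n c w' := by
  unfold serPhi
  rw [← Finset.sum_sub_distrib]
  refine Finset.dvd_sum fun i _ => ?_
  rw [← Finset.sum_sub_distrib]
  refine Finset.dvd_sum fun j _ => ?_
  rw [← mul_sub]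
  rcases Nat.eq_zero_or_pos i with hi | hi
  · subst hi
    rcases j with _ | _ | j
    · simp
    · simp [hc1]
    · have h1 : w ^ (j + 2) - w' ^ (j + 2) =
          w ^ (j + 1) * (w - w') + w' * (w ^ (j + 1) - w' ^ (j + 1)) := by ring
      have h2 : PowerSeries.X ^ (k + 1) ∣ w ^ (j + 1) * (w - w') := by
        rw [pow_succ' (PowerSeries.X : PowerSeries R) k]
        exact mul_dvd_mul (dvd_pow hw (by omega)) h
      have h3 : PowerSeries.X ^ (k + 1) ∣ w' * (w ^ (j + 1) - w' ^ (j + 1)) := by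
        rw [pow_succ' (PowerSeries.X : PowerSeries R) k]
        exact mul_dvd_mul hw' (h.trans (sub_dvd_pow_sub_pow _ _ _))
      rw [h1]
      exact Dvd.dvd.mul_left (dvd_add h2 h3) _
  · rw [mul_assoc, pow_succ' (PowerSeries.X : PowerSeries R) k]
    refine Dvd.dvd.mul_left ?_ _
    exact mul_dvd_mul (dvd_pow_self _ (by omega)) (h.trans (sub_dvd_pow_sub_pow _ _ _))

theorem X_dvd_serPhi {R : Type*} [CommRing R] (n : ℕ) (c : ℕ → ℕ → R) (hc0 : c 0 0 = 0)
    (w : PowerSeries R) (hw : PowerSeries.X ∣ w) : PowerSeries.X ∣ serPhi n c w := by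
  unfold serPhi
  refine Finset.dvd_sum fun i _ => Finset.dvd_sum fun j _ => ?_
  rcases Nat.eq_zero_or_pos i with hi | hi
  · subst hi
    rcases j with _ | j
    · simp [hc0]
    · exact Dvd.dvd.mul_left (dvd_pow hw (by omega)) _
  · exact Dvd.dvd.mul_right (Dvd.dvd.mul_left (dvd_pow_self _ (by omega)) _) _

theorem X_dvd_serW {R : Type*} [CommRing R] (n : ℕ) (c : ℕ → ℕ → R) (hc0 : c 0 0 = 0)
    (k : ℕ) : PowerSeries.X ∣ serW n c k := by
  induction k with
  | zero => simp [serW]
  | succ k ih => exact X_dvd_serPhi n c hc0 _ ih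

theorem serW_succ_sub {R : Type*} [CommRing R] (n : ℕ) (c : ℕ → ℕ → R) (hc0 : c 0 0 = 0)
    (hc1 : c 0 1 = 0) (k : ℕ) : PowerSeries.X ^ (k + 1) ∣ serW n c (k + 1) - serW n c k := by
  induction k with
  | zero => simpa [serW] using X_dvd_serW n c hc0 1
  | succ k ih =>
    exact serPhi_sub n c hc1 _ _ _ (X_dvd_serW n c hc0 _) (X_dvd_serW n c hc0 _) ih

theorem exists_series {R : Type*} [CommRing R] (n : ℕ) (c : ℕ → ℕ → R) (hc0 : c 0 0 = 0)
    (hc1 : c 0 1 = 0) :
    ∃ w : PowerSeries R, PowerSeries.constantCoeff w = 0 ∧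
      w = ∑ i ∈ range (n + 1), ∑ j ∈ range (n + 1),
        PowerSeries.C (c i j) * PowerSeries.X ^ i * w ^ j := by
  have hcoef : ∀ m k, m ≤ k → PowerSeries.coeff m (serW n c k) =
      PowerSeries.coeff m (serW n c m) := by
    intro m k hmk
    induction k, hmk using Nat.le_induction with
    | base => rfl
    | succ k hk ih =>
      have h1 := PowerSeries.X_pow_dvd_iff.mp (serW_succ_sub n c hc0 hc1 k) m (by omega)
      rw [map_sub, sub_eq_zero] at h1
      rw [h1, ih]
  set w : PowerSeries R := PowerSeries.mk fun k => PowerSeries.coeff k (serW n c k) with hw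
  have hwW : ∀ k, PowerSeries.X ^ (k + 1) ∣ w - serW n c k := by
    intro k
    rw [PowerSeries.X_pow_dvd_iff]
    intro m hm
    rw [map_sub, sub_eq_zero, hw, PowerSeries.coeff_mk, hcoef m k (by omega)]
  have hX : PowerSeries.X ∣ w := by
    have := hwW 0
    simpa [serW] using this
  refine ⟨w, PowerSeries.X_dvd_iff.mp hX, ?_⟩
  change w = serPhi n c w
  have key : ∀ k, PowerSeries.X ^ (k + 1) ∣ w - serPhi n c w := by
    intro k
    have h1 : w - serPhi n c w =
        (w - serW n c (k + 1)) - (serPhi n c w - serPhi n c (serW n c k)) := by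
      rw [serW]; ring
    rw [h1]
    refine dvd_sub ((pow_dvd_pow _ (by omega)).trans (hwW (k + 1))) ?_
    exact (pow_dvd_pow _ (by omega)).trans
      (serPhi_sub n c hc1 _ _ _ hX (X_dvd_serW n c hc0 _) (hwW k))
  rw [← sub_eq_zero]
  ext m
  have := PowerSeries.X_pow_dvd_iff.mp (key m) m (by omega)
  simpa using this

end Pool.Agent.H72.ES
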