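import Pool.Agent.H72.ES.SNorm
import Pool.Agent.H72.ES.Taylor

/-! # [ES-SIEGEL] The auxiliary function

Unknown: integers `a(m,i,j)`, `m : Fin 6`, `j < n`, `i + j ≤ 2 la`; their number is
`U = 6 (2 n la - n(n-3)/2) = 12 n la - 3 n (n-3)` (for fixed `j < n` there are `2 la - j + 1`
values of `i`). Equations: for each `j' : Fin 6`, `k < T j'` the element
`∑_{m,i,j} a(m,i,j) Ψ_{j'm} coeff k ((κ² X)^(2la-i-j) (α + κ w)^j)` of `O.R` vanishes, i.e.
its `n` integer coordinates `O.coord` vanish: `E = n ∑ T ≤ n (11.5 la + 9)` equations.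
`U - E ≥ n (la/2 - 9 - 3(n-3)) ≥ n la / 4` since `la ≥ 12 n`, so `E/(U-E) ≤ (11.5 la + 9)/(la/4)
≤ 50`. (If `∑ T = 0` there is no equation and any nonzero array works.)
Size of the coefficients of the equations: `|coord| ≤ ν`, and
`ν (coeff k ((κ²X)^p (α+κw)^j)) ≤ (b²)^k * wn K (..) ≤ b^(2k) (ν(κ)²/b²)^p (ν α + ν κ / b)^j
≤ b^(10 la) (2 Q²)^n ≤ b^(10 la + 1)` (use `coeff_le_wn`, `wn_mul_le`, `wn_pow_le`, `wn_X_le`,
`br.bd`; `ν κ ≤ Q^(2n) ≤ b`); with `Ψ`: `≤ b^(10 la + 6) ≤ b^(11 la)`. Siegel's lemma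
(`Int.Matrix.exists_ne_zero_int_vec_norm_le`): a nonzero solution with
`|a| ≤ (U b^(11 la))^(E/(U-E)) ≤ (12 n la b^(11 la))^50 ≤ (b^(12 la))^50 = b^(600 la)`. -/

namespace Pool.Agent.H72.ES

open Finset Polynomial

variable {𝕜 : Type} [RCLike 𝕜] {n Q : ℕ} {f : ℤ[X]} {θ : 𝕜}

/-- the index set of the unknowns: pairs `⟨j, i⟩` with `j < n`, `i + j ≤ N` -/
def siegelSet (n N : ℕ) : Finset (Σ _ : ℕ, ℕ) := (range n).sigma fun j => range (N + 1 - j)

theorem siegel_mem {n N : ℕ} {p : Σ _ : ℕ, ℕ} :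
    p ∈ siegelSet n N ↔ p.1 < n ∧ p.2 < N + 1 - p.1 := by
  simp [siegelSet]

theorem siegel_card {n N : ℕ} (h : n ≤ N + 1) :
    2 * ((siegelSet n N).card : ℤ) = n * (2 * N + 3 - n) := by
  rw [siegelSet, card_sigma]
  simp only [card_range]
  have key : ∀ m, m ≤ n → 2 * ((∑ j ∈ range m, (N + 1 - j) : ℕ) : ℤ) = m * (2 * N + 3 - m) := by
    intro m
    induction m with
    | zero => intro _; simp
    | succ m ih =>
      intro hm
      rw [sum_range_succ]
      push_cast [Nat.cast_sub (show m ≤ N + 1 by omega)]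
      have := ih (by omega)
      push_cast at this
      linarith [this]
  exact key n le_rfl

theorem siegel_evt {S : Type*} [CommRing S] {n N : ℕ} (h : n ≤ N + 1) (c : ℕ → ℕ → S)
    (hc : ∀ i j, n ≤ j → c i j = 0) (t z : S) :
    evt N c t z = ∑ p ∈ siegelSet n N, c p.2 p.1 * t ^ (N - p.2 - p.1) * z ^ p.1 := by
  unfold evt siegelSet
  rw [sum_sigma]
  rw [sum_comm' (s := range (N + 1)) (t := fun i => range (N + 1 - i)) (t' := range (N + 1))
    (s' := fun j => range (N + 1 - j))]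
  · symm
    apply sum_subset
    · intro j hj
      simp only [mem_range] at hj ⊢
      omega
    · intro j _ hj
      simp only [mem_range, not_lt] at hj
      apply sum_eq_zero
      intro i _
      rw [hc i j hj]
      ring
  · intro i j
    simp only [mem_range]
    omega

/-- size of the coefficients of the linear equations -/
theorem siegel_size (O : Ord 𝕜 n Q f θ) {F : ℕ → ℕ → ℤ} (hF : Norml n Q f F) (br : Branch O F)
    (r : O.R) (hr : O.ν r ≤ bb n Q ^ 5) (la : ℕ) (hla : 12 * n ≤ la) (k p j : ℕ)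
    (hk : k < 5 * la) (hj : j < n) :
    O.ν (PowerSeries.coeff k (PowerSeries.C r * ((PowerSeries.C O.κ ^ 2 * PowerSeries.X) ^ p *
      (PowerSeries.C O.α + PowerSeries.C O.κ * br.w) ^ j))) ≤ bb n Q ^ (11 * la) := by
  have hn := hF.hn
  have hQ := hF.hQ
  have hsub := O.subMul
  have hb0 : 0 < bb n Q := bb_pos hn hQ
  have hb1 : 1 ≤ bb n Q := one_le_bb hn hQ
  set b := bb n Q with hb
  have hρ : (0 : ℝ) ≤ 1 / b ^ 2 := by positivity
  set ρ : ℝ := 1 / b ^ 2 with hρd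
  have hκ : O.ν O.κ ≤ (Q : ℝ) ^ (2 * n) := kappa_bound O hF
  have hκb : O.ν O.κ ≤ b := hκ.trans (Qpow_le_bb hn hQ (by nlinarith))
  have hκ0 : 0 ≤ O.ν O.κ := O.ν_nonneg _
  -- the first factor
  have h1 : wn O.ν ρ k (PowerSeries.C O.κ ^ 2 * PowerSeries.X) ≤ 1 := by
    refine (wn_mul_le hsub hρ k _ _).trans ?_
    have ha : wn O.ν ρ k (PowerSeries.C O.κ ^ 2) ≤ b ^ 2 := by
      refine (wn_pow_le hsub hρ k _ 2).trans ?_
      rw [wn_C hsub]
      exact pow_le_pow_left₀ hκ0 hκb 2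
    have hb' := wn_X_le (R := O.R) hsub hρ k
    calc wn O.ν ρ k (PowerSeries.C O.κ ^ 2) * wn O.ν ρ k PowerSeries.X ≤ b ^ 2 * ρ :=
          mul_le_mul ha hb' (wn_nonneg hsub hρ k _) (by positivity)
      _ = 1 := by
          rw [hρd]
          field_simp
  have h2 : wn O.ν ρ k (PowerSeries.C O.α + PowerSeries.C O.κ * br.w) ≤ (Q : ℝ) ^ 3 := by
    refine (wn_add_le hsub hρ k _ _).trans ?_
    rw [wn_C hsub]
    have ha : wn O.ν ρ k (PowerSeries.C O.κ * br.w) ≤ 1 := by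
      refine (wn_mul_le hsub hρ k _ _).trans ?_
      rw [wn_C hsub]
      calc O.ν O.κ * wn O.ν ρ k br.w ≤ b * (1 / b) :=
            mul_le_mul hκb (br.bd k) (wn_nonneg hsub hρ k _) hb0.le
        _ = 1 := by field_simp
    have hα := O.ν_α
    have h3 := nQ_le hn hQ
    have h4 := sixteen_leR hn hQ
    calc O.ν O.α + wn O.ν ρ k (PowerSeries.C O.κ * br.w) ≤ (Q : ℝ) ^ 2 + 1 := by linarith
      _ ≤ (Q : ℝ) ^ 3 := by nlinarith [sq_nonneg (Q : ℝ)]
  have hQ1 := one_le_QR hn hQ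
  -- the whole product
  have h3 : wn O.ν ρ k (PowerSeries.C r * ((PowerSeries.C O.κ ^ 2 * PowerSeries.X) ^ p *
      (PowerSeries.C O.α + PowerSeries.C O.κ * br.w) ^ j)) ≤ b ^ 6 := by
    refine (wn_mul_le hsub hρ k _ _).trans ?_
    rw [wn_C hsub]
    have ha : wn O.ν ρ k ((PowerSeries.C O.κ ^ 2 * PowerSeries.X) ^ p *
      (PowerSeries.C O.α + PowerSeries.C O.κ * br.w) ^ j) ≤ b := by
      refine (wn_mul_le hsub hρ k _ _).trans ?_
      have hx : wn O.ν ρ k ((PowerSeries.C O.κ ^ 2 * PowerSeries.X) ^ p) ≤ 1 :=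
        (wn_pow_le hsub hρ k _ p).trans (pow_le_one₀ (wn_nonneg hsub hρ k _) h1)
      have hy : wn O.ν ρ k ((PowerSeries.C O.α + PowerSeries.C O.κ * br.w) ^ j) ≤ b := by
        refine (wn_pow_le hsub hρ k _ j).trans ?_
        refine (pow_le_pow_left₀ (wn_nonneg hsub hρ k _) h2 j).trans ?_
        rw [← pow_mul]
        exact Qpow_le_bb hn hQ (by nlinarith)
      calc _ ≤ 1 * b := mul_le_mul hx hy (wn_nonneg hsub hρ k _) zero_le_one
        _ = b := one_mul b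
    calc O.ν r * _ ≤ b ^ 5 * b := mul_le_mul hr ha (wn_nonneg hsub hρ k _) (by positivity)
      _ = b ^ 6 := by ring
  have h4 := (coeff_le_wn hsub hρ (le_refl k) (PowerSeries.C r * ((PowerSeries.C O.κ ^ 2 *
    PowerSeries.X) ^ p * (PowerSeries.C O.α + PowerSeries.C O.κ * br.w) ^ j))).trans h3
  set v := O.ν (PowerSeries.coeff k (PowerSeries.C r * ((PowerSeries.C O.κ ^ 2 *
    PowerSeries.X) ^ p * (PowerSeries.C O.α + PowerSeries.C O.κ * br.w) ^ j))) with hv
  have h5 : v = v * ρ ^ k * (b ^ 2) ^ k := by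
    rw [mul_assoc, ← mul_pow, hρd]
    have : 1 / b ^ 2 * b ^ 2 = 1 := by field_simp
    rw [this, one_pow, mul_one]
  rw [h5]
  calc v * ρ ^ k * (b ^ 2) ^ k ≤ b ^ 6 * (b ^ 2) ^ k :=
        mul_le_mul_of_nonneg_right h4 (by positivity)
    _ = b ^ (6 + 2 * k) := by rw [← pow_mul, ← pow_add]
    _ ≤ b ^ (11 * la) := pow_le_pow_right₀ hb1 (by omega)

attribute [local instance] Matrix.seminormedAddCommGroup

theorem siegel (O : Ord 𝕜 n Q f θ) {F : ℕ → ℕ → ℤ} (hF : Norml n Q f F) (br : Branch O F)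
    (Ψ : Fin 6 → Fin 6 → O.R) (hΨ : ∀ j m, O.ν (Ψ j m) ≤ bb n Q ^ 5) (la : ℕ)
    (hla : 12 * n ≤ la) (T : Fin 6 → ℕ) (hT : ∀ j, T j ≤ 5 * la)
    (hTs : 2 * ∑ j, T j ≤ 23 * la + 18) :
    ∃ A : Fin 6 → ℕ → ℕ → ℤ, (∃ m i j, A m i j ≠ 0) ∧
      (∀ m i j, A m i j ≠ 0 → i + j ≤ 2 * la ∧ j < n) ∧
      (∀ m i j, |((A m i j : ℤ) : ℝ)| ≤ bb n Q ^ (600 * la)) ∧
      ∀ j, ∀ k < T j, PowerSeries.coeff k (∑ m, PowerSeries.C (Ψ j m) *
        evt (2 * la) (cst (PowerSeries O.R) (A m)) (PowerSeries.C O.κ ^ 2 * PowerSeries.X)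
          (PowerSeries.C O.α + PowerSeries.C O.κ * br.w)) = 0 := by
  classical
  have hn := hF.hn
  have hQ := hF.hQ
  have hb1 : 1 ≤ bb n Q := one_le_bb hn hQ
  by_cases hT0 : ∑ j, T j = 0
  · -- no equations
    refine ⟨fun _ i j => if i = 0 ∧ j = 0 then 1 else 0, ⟨0, 0, 0, by simp⟩, ?_, ?_, ?_⟩
    · intro m i j h
      have : i = 0 ∧ j = 0 := by
        by_contra hc
        exact h (if_neg hc)
      omega
    · intro m i j
      refine le_trans ?_ (one_le_pow₀ hb1)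
      show |(((if i = 0 ∧ j = 0 then 1 else 0 : ℤ)) : ℝ)| ≤ 1
      split_ifs <;> simp
    · intro j k hk
      have : T j = 0 := (Finset.sum_eq_zero_iff.1 hT0) j (mem_univ j)
      omega
  set t : PowerSeries O.R := PowerSeries.C O.κ ^ 2 * PowerSeries.X with ht
  set z : PowerSeries O.R := PowerSeries.C O.α + PowerSeries.C O.κ * br.w with hz
  set S := siegelSet n (2 * la) with hS
  have hcS : 2 * (S.card : ℤ) = n * (4 * la + 3 - n) := by
    have := siegel_card (n := n) (N := 2 * la) (by omega)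
    push_cast at this
    rw [← hS] at this
    linarith
  let g : (Σ _ : ℕ, ℕ) → Fin 6 → Fin 6 → PowerSeries O.R := fun p j m =>
    PowerSeries.C (Ψ j m) * (t ^ (2 * la - p.2 - p.1) * z ^ p.1)
  let M : Matrix (Σ j : Fin 6, Fin (T j) × Fin n) (Fin 6 × {p // p ∈ S}) ℤ :=
    Matrix.of fun r c => O.coord (PowerSeries.coeff r.2.1 (g c.2 r.1 c.1)) r.2.2
  have hcα : Fintype.card (Σ j : Fin 6, Fin (T j) × Fin n) = n * ∑ j, T j := by
    rw [Fintype.card_sigma, mul_sum]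
    refine sum_congr rfl fun j _ => ?_
    rw [Fintype.card_prod, Fintype.card_fin, Fintype.card_fin, mul_comm]
  have hcβ : Fintype.card (Fin 6 × {p // p ∈ S}) = 6 * S.card := by
    rw [Fintype.card_prod, Fintype.card_fin, Fintype.card_coe]
  -- E and U
  have hE2 : 2 * ((n * ∑ j, T j : ℕ) : ℝ) ≤ n * (23 * la + 18) := by
    have h1 : ((2 * ∑ j, T j : ℕ) : ℝ) ≤ ((23 * la + 18 : ℕ) : ℝ) := by exact_mod_cast hTs
    have h2 : (n : ℝ) * ((2 * ∑ j, T j : ℕ) : ℝ) ≤ n * ((23 * la + 18 : ℕ) : ℝ) :=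
      mul_le_mul_of_nonneg_left h1 (Nat.cast_nonneg n)
    push_cast at h2 ⊢
    linarith
  have hU2 : ((6 * S.card : ℕ) : ℝ) = 3 * (n * (4 * la + 3 - n)) := by
    have : (2 * (S.card : ℝ)) = n * (4 * la + 3 - n) := by exact_mod_cast hcS
    push_cast
    linarith
  have hnR : (4 : ℝ) ≤ n := by exact_mod_cast hn
  have hlaR : 12 * (n : ℝ) ≤ la := by exact_mod_cast hla
  have hdiff : (n : ℝ) * la / 4 ≤ ((6 * S.card : ℕ) : ℝ) - ((n * ∑ j, T j : ℕ) : ℝ) := by
    rw [hU2]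
    have : (n : ℝ) * (12 * n) ≤ n * la := mul_le_mul_of_nonneg_left hlaR (by linarith)
    nlinarith
  have hpos : 0 < (n : ℝ) * la / 4 := by
    have : 0 < (la : ℝ) := by linarith
    positivity
  have hlt : Fintype.card (Σ j : Fin 6, Fin (T j) × Fin n) <
      Fintype.card (Fin 6 × {p // p ∈ S}) := by
    rw [hcα, hcβ]
    have : ((n * ∑ j, T j : ℕ) : ℝ) < ((6 * S.card : ℕ) : ℝ) := by linarith
    exact_mod_cast this
  have hmpos : 0 < Fintype.card (Σ j : Fin 6, Fin (T j) × Fin n) := by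
    rw [hcα]
    have : 0 < ∑ j, T j := Nat.pos_of_ne_zero hT0
    have h4 : 0 < n := by omega
    positivity
  obtain ⟨x, hx0, hMx, hxn⟩ := Int.Matrix.exists_ne_zero_int_vec_norm_le M hlt hmpos
  -- norm bound
  have hMn : ‖M‖ ≤ bb n Q ^ (11 * la) := by
    rw [Matrix.norm_le_iff (by positivity)]
    intro r c
    have hc := siegel_mem.1 c.2.2
    have h1 := siegel_size O hF br (Ψ r.1 c.1) (hΨ _ _) la hla (r.2.1 : ℕ)
      (2 * la - c.2.1.2 - c.2.1.1) c.2.1.1 (lt_of_lt_of_le r.2.1.2 (hT r.1)) hc.1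
    rw [Int.norm_eq_abs]
    exact (O.coord_le _ _).trans h1
  have hxle : ‖x‖ ≤ bb n Q ^ (600 * la) := by
    refine hxn.trans ?_
    rw [hcα, hcβ]
    have hbase1 : (1 : ℝ) ≤ ((6 * S.card : ℕ) : ℝ) * max 1 ‖M‖ := by
      have h1 : (1 : ℝ) ≤ ((6 * S.card : ℕ) : ℝ) := by
        have : 0 < 6 * S.card := by
          rw [← hcβ]
          omega
        exact_mod_cast this
      exact one_le_mul_of_one_le_of_one_le h1 (le_max_left _ _)
    have hexp : (((n * ∑ j, T j : ℕ) : ℝ)) / (((6 * S.card : ℕ) : ℝ) -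
        ((n * ∑ j, T j : ℕ) : ℝ)) ≤ (50 : ℕ) := by
      rw [div_le_iff₀ (by linarith)]
      have h3 : (n : ℝ) * 48 ≤ n * la :=
        mul_le_mul_of_nonneg_left (by linarith) (by linarith)
      push_cast at hE2 hdiff hpos ⊢
      nlinarith
    have hbase2 : ((6 * S.card : ℕ) : ℝ) * max 1 ‖M‖ ≤ bb n Q ^ (12 * la) := by
      have h1 : max 1 ‖M‖ ≤ bb n Q ^ (11 * la) := max_le (one_le_pow₀ hb1) hMn
      have h2 : ((6 * S.card : ℕ) : ℝ) ≤ bb n Q ^ la := by
        rw [hU2]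
        have hQ16 := sixteen_leR hn hQ
        have hnQ := n_leR hn hQ
        have h3 : (la : ℝ) ≤ (Q : ℝ) ^ la := by
          have h4 : (la : ℝ) ≤ (2 : ℝ) ^ la := by exact_mod_cast Nat.lt_two_pow_self.le
          exact h4.trans (pow_le_pow_left₀ (by norm_num) (by linarith) la)
        calc 3 * ((n : ℝ) * (4 * la + 3 - n)) ≤ 16 * n * la := by
              have : (n : ℝ) * 48 ≤ n * la :=
                mul_le_mul_of_nonneg_left (by linarith) (by linarith)
              nlinarith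
          _ ≤ Q * Q * (Q : ℝ) ^ la := by
              have h5 : (16 : ℝ) * n ≤ Q * Q :=
                mul_le_mul hQ16 hnQ (by linarith) (by linarith)
              exact mul_le_mul h5 h3 (by positivity) (by positivity)
          _ = (Q : ℝ) ^ (la + 2) := by ring
          _ ≤ (Q : ℝ) ^ (7 * n ^ 2 * la) := Qpow_mono hn hQ (by nlinarith)
          _ = bb n Q ^ la := by rw [bb, ← pow_mul]
      calc ((6 * S.card : ℕ) : ℝ) * max 1 ‖M‖ ≤ bb n Q ^ la * bb n Q ^ (11 * la) :=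
            mul_le_mul h2 h1 (by positivity) (by positivity)
        _ = bb n Q ^ (12 * la) := by rw [← pow_add]; congr 1; ring
    calc (((6 * S.card : ℕ) : ℝ) * max 1 ‖M‖) ^ ((((n * ∑ j, T j : ℕ) : ℝ)) /
          (((6 * S.card : ℕ) : ℝ) - ((n * ∑ j, T j : ℕ) : ℝ)))
        ≤ (((6 * S.card : ℕ) : ℝ) * max 1 ‖M‖) ^ (((50 : ℕ) : ℝ)) :=
          Real.rpow_le_rpow_of_exponent_le hbase1 hexp
      _ = (((6 * S.card : ℕ) : ℝ) * max 1 ‖M‖) ^ 50 := Real.rpow_natCast _ _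
      _ ≤ (bb n Q ^ (12 * la)) ^ 50 := pow_le_pow_left₀ (by positivity) hbase2 50
      _ = bb n Q ^ (600 * la) := by rw [← pow_mul]; congr 1; ring
  -- the array
  let A : Fin 6 → ℕ → ℕ → ℤ := fun m i j =>
    if h : (⟨j, i⟩ : Σ _ : ℕ, ℕ) ∈ S then x (m, ⟨⟨j, i⟩, h⟩) else 0
  have hA : ∀ m (p : Σ _ : ℕ, ℕ) (h : p ∈ S), A m p.2 p.1 = x (m, ⟨p, h⟩) := by
    intro m p h
    exact dif_pos h
  have hA0 : ∀ m i j, A m i j ≠ 0 → (⟨j, i⟩ : Σ _ : ℕ, ℕ) ∈ S := by
    intro m i j h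
    by_contra hc
    exact h (dif_neg hc)
  refine ⟨A, ?_, ?_, ?_, ?_⟩
  · have : ∃ c, x c ≠ 0 := by
      by_contra hc
      push Not at hc
      exact hx0 (funext hc)
    obtain ⟨⟨m, ⟨p, hp⟩⟩, hc⟩ := this
    exact ⟨m, p.2, p.1, by rw [hA m p hp]; exact hc⟩
  · intro m i j h
    have := siegel_mem.1 (hA0 m i j h)
    simp only at this
    omega
  · intro m i j
    by_cases h : (⟨j, i⟩ : Σ _ : ℕ, ℕ) ∈ S
    · have h1 := hA m ⟨j, i⟩ h
      simp only at h1
      rw [h1, ← Int.norm_eq_abs]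
      exact (norm_le_pi_norm x _).trans hxle
    · have h1 : A m i j = 0 := dif_neg h
      rw [h1]
      simp only [Int.cast_zero, abs_zero]
      positivity
  · intro j k hk
    apply O.coord_inj
    rw [map_zero]
    funext c
    have h1 : (M.mulVec x) ⟨j, (⟨k, hk⟩, c)⟩ = 0 := by rw [hMx]; rfl
    rw [Matrix.mulVec, dotProduct, Fintype.sum_prod_type] at h1
    have h2 : ∀ m, evt (2 * la) (cst (PowerSeries O.R) (A m)) t z =
        ∑ p ∈ S, (A m p.2 p.1 : PowerSeries O.R) * t ^ (2 * la - p.2 - p.1) * z ^ p.1 := by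
      intro m
      rw [siegel_evt (n := n) (N := 2 * la) (by omega) (cst (PowerSeries O.R) (A m)) ?_ t z]
      · rfl
      · intro i j hj
        have : A m i j = 0 := by
          by_contra hc
          have := siegel_mem.1 (hA0 m i j hc)
          simp only at this
          omega
        simp [cst, this]
    have h3 : PowerSeries.coeff k (∑ m, PowerSeries.C (Ψ j m) *
        evt (2 * la) (cst (PowerSeries O.R) (A m)) t z) =
        ∑ m, ∑ p ∈ S, A m p.2 p.1 • PowerSeries.coeff k (g p j m) := by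
      rw [map_sum]
      refine sum_congr rfl fun m _ => ?_
      rw [h2 m, mul_sum, map_sum]
      refine sum_congr rfl fun p _ => ?_
      rw [← map_zsmul]
      congr 1
      simp only [g, zsmul_eq_mul]
      ring
    rw [h3, map_sum]
    rw [Finset.sum_apply, Pi.zero_apply, ← h1]
    refine sum_congr rfl fun m _ => ?_
    rw [map_sum, Finset.sum_apply, ← Finset.sum_coe_sort S]
    refine sum_congr rfl fun p _ => ?_
    rw [map_zsmul, hA m p.1 p.2]
    simp only [Pi.smul_apply, smul_eq_mul, M, Matrix.of_apply]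
    rw [mul_comm]

end Pool.Agent.H72.ES
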