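import Pool.Agent.H72.ES.Approx

/-! # [ES-SMALL] Functions vanishing to high order at infinity are small at near solutions

`F~(t,z) = 0`, `z` near `θ`, `c` an array over `O.R` with `ν c_ij ≤ M`, zero unless `i+j ≤ d`,
`j ≤ n`, whose expansion along the branch vanishes to order `T`. Then
`wn (c~(t,z)) ≤ wn (c~(t,zT)) + wn (c~(t,z) - c~(t,zT))`. First term: `eval_zT`. Second:
`∑ |φ c_ij| wn(t)^(d-i-j) wn(z^j - zT^j) ≤ (d+1)(n+1) M * n (2Q²)^n * wn(z - zT)`
(`wn z, wn zT ≤ |θ| + 1/b ≤ 2 Q²`), and `approx_z` with `ε = 0`: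
`wn (z - zT) ≤ 2 b² (τ b⁴)^T`. Total `≤ (d+1) M b^4 (τ b⁴)^T`. -/

namespace Pool.Agent.H72.ES

open Finset Polynomial

variable {n Q : ℕ} {f : ℤ[X]} {θ : ℝ}

private theorem wn_pow_sub_pow_le {ρ : ℝ} (hρ : 0 ≤ ρ) (K : ℕ) (x y : PowerSeries ℝ) {B D : ℝ}
    (hB : 1 ≤ B) (hx : wn (fun a : ℝ => |a|) ρ K x ≤ B) (hy : wn (fun a : ℝ => |a|) ρ K y ≤ B)
    (hD : wn (fun a : ℝ => |a|) ρ K (x - y) ≤ D) (j : ℕ) :
    wn (fun a : ℝ => |a|) ρ K (x ^ j - y ^ j) ≤ j * B ^ j * D := by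
  have hsm := subMul_abs
  have hD0 : 0 ≤ D := (wn_nonneg hsm hρ K _).trans hD
  have hB0 : 0 ≤ B := zero_le_one.trans hB
  induction j with
  | zero => simp [wn_zero hsm]
  | succ j ih =>
    have h1 : x ^ (j + 1) - y ^ (j + 1) = x ^ j * (x - y) + (x ^ j - y ^ j) * y := by ring
    rw [h1]
    refine (wn_add_le hsm hρ K _ _).trans ?_
    have h2 : wn (fun a : ℝ => |a|) ρ K (x ^ j * (x - y)) ≤ B ^ j * D := by
      refine (wn_mul_le hsm hρ K _ _).trans ?_
      refine mul_le_mul ?_ hD (wn_nonneg hsm hρ K _) (pow_nonneg hB0 _)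
      exact (wn_pow_le hsm hρ K x j).trans (pow_le_pow_left₀ (wn_nonneg hsm hρ K x) hx j)
    have h3 : wn (fun a : ℝ => |a|) ρ K ((x ^ j - y ^ j) * y) ≤ (j * B ^ j * D) * B := by
      refine (wn_mul_le hsm hρ K _ _).trans ?_
      exact mul_le_mul ih hy (wn_nonneg hsm hρ K _) (by positivity)
    have h4 : B ^ j * D ≤ B ^ (j + 1) * D :=
      mul_le_mul_of_nonneg_right (pow_le_pow_right₀ hB (Nat.le_succ j)) hD0
    push_cast
    calc _ ≤ B ^ j * D + (j * B ^ j * D) * B := add_le_add h2 h3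
      _ ≤ B ^ (j + 1) * D + (j * B ^ j * D) * B := by linarith
      _ = _ := by ring

theorem small_tilde (O : Ord ℝ n Q f θ) {F : ℕ → ℕ → ℤ} (hF : Norml n Q f F)
    (br : Branch O F) (t z : PowerSeries ℝ) (ρ : ℝ) (hρ : 0 < ρ) (τ : ℝ)
    (hτ : ∀ K, wn (fun a : ℝ => |a|) ρ K t ≤ τ) (hτb : τ * bb n Q ^ 5 ≤ 1)
    (he : ∀ K, wn (fun a : ℝ => |a|) ρ K (z - PowerSeries.C θ) ≤ 1 / bb n Q)
    (heq : evt n (cst (PowerSeries ℝ) F) t z = 0)
    (d : ℕ) (c : ℕ → ℕ → O.R) (hc : ∀ i j, c i j ≠ 0 → i + j ≤ d ∧ j ≤ n) (M : ℝ)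
    (hM : ∀ i j, O.ν (c i j) ≤ M) (T : ℕ)
    (hT : ∀ k < T, PowerSeries.coeff k (evt d (fun i j => PowerSeries.C (c i j))
      (PowerSeries.C O.κ ^ 2 * PowerSeries.X) (PowerSeries.C O.α + PowerSeries.C O.κ * br.w)) = 0)
    (K : ℕ) :
    wn (fun a : ℝ => |a|) ρ K (evt d (fun i j => PowerSeries.C (O.φ (c i j))) t z) ≤
      (d + 1) * M * bb n Q ^ 4 * (τ * bb n Q ^ 4) ^ T := by
  have hsm := subMul_abs
  have hρ0 := hρ.le
  have hn := hF.hn
  have hQ := hF.hQ
  have hb1 : 1 ≤ bb n Q := one_le_bb hn hQ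
  have hb0 : 0 < bb n Q := bb_pos hn hQ
  have hQ1 : (1 : ℝ) ≤ Q := one_le_QR hn hQ
  have hτ0 : 0 ≤ τ := (wn_nonneg hsm hρ0 K t).trans (hτ K)
  have hτ1 : τ ≤ 1 := by
    have h1 : 1 ≤ bb n Q ^ 5 := one_le_pow₀ hb1
    calc τ = τ * 1 := (mul_one τ).symm
      _ ≤ τ * bb n Q ^ 5 := mul_le_mul_of_nonneg_left h1 hτ0
      _ ≤ 1 := hτb
  have hM0 : 0 ≤ M := (O.ν_nonneg _).trans (hM 0 0)
  set E : ℝ := (τ * bb n Q ^ 4) ^ T with hE
  have hE0 : 0 ≤ E := by positivity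
  set B : ℝ := 2 * (Q : ℝ) ^ 2 with hBdef
  have hQ2 : (1 : ℝ) ≤ (Q : ℝ) ^ 2 := one_le_pow₀ hQ1
  have hB1 : 1 ≤ B := by rw [hBdef]; linarith
  have hθ : |θ| ≤ (Q : ℝ) ^ 2 := by
    have h1 := O.φ_le O.α
    rw [O.φ_α, Real.norm_eq_abs] at h1
    exact h1.trans (O.ν_α.trans (nQ_le hn hQ))
  have hbinv : 1 / bb n Q ≤ 1 := by rw [div_le_one hb0]; exact hb1
  have hbd : ∀ x : PowerSeries ℝ, wn (fun a : ℝ => |a|) ρ K (x - PowerSeries.C θ) ≤ 1 / bb n Q →
      wn (fun a : ℝ => |a|) ρ K x ≤ B := by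
    intro x hx
    have h1 : x = (x - PowerSeries.C θ) + PowerSeries.C θ := by ring
    rw [h1]
    refine (wn_add_le hsm hρ0 K _ _).trans ?_
    rw [wn_C hsm]
    rw [hBdef]
    linarith
  have hzB := hbd z (he K)
  have hzTB := hbd (zT br t T) (wn_zT_le O hF br t ρ hρ τ hτ hτb T K)
  set D : ℝ := 2 * bb n Q * (0 + bb n Q * (τ * bb n Q ^ 4) ^ T) with hD
  have happ : wn (fun a : ℝ => |a|) ρ K (z - zT br t T) ≤ D := by
    refine approx_z O hF br t z ρ hρ τ hτ hτb he 0 ?_ T K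
    intro K'
    rw [heq, wn_zero hsm]
  have hD0 : 0 ≤ D := (wn_nonneg hsm hρ0 K _).trans happ
  have hfirst := eval_zT O hF br t ρ hρ τ hτ hτb d c hc M hM T hT K
  -- the difference
  have hdiff : evt d (fun i j => PowerSeries.C (O.φ (c i j))) t z -
      evt d (fun i j => PowerSeries.C (O.φ (c i j))) t (zT br t T) =
      ∑ i ∈ range (d + 1), ∑ j ∈ range (d + 1 - i),
        PowerSeries.C (O.φ (c i j)) * t ^ (d - i - j) * (z ^ j - zT br t T ^ j) := by
    unfold evt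
    rw [← sum_sub_distrib]
    refine sum_congr rfl fun i _ => ?_
    rw [← sum_sub_distrib]
    refine sum_congr rfl fun j _ => ?_
    ring
  have hsecond : wn (fun a : ℝ => |a|) ρ K (evt d (fun i j => PowerSeries.C (O.φ (c i j))) t z -
      evt d (fun i j => PowerSeries.C (O.φ (c i j))) t (zT br t T)) ≤
      (d + 1) * ((n + 1) * (M * (n * B ^ n * D))) := by
    rw [hdiff]
    refine (wn_sum_le hsm hρ0 K _ _).trans ?_
    have hi : ∀ i ∈ range (d + 1), wn (fun a : ℝ => |a|) ρ K (∑ j ∈ range (d + 1 - i),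
        PowerSeries.C (O.φ (c i j)) * t ^ (d - i - j) * (z ^ j - zT br t T ^ j)) ≤
        (n + 1) * (M * (n * B ^ n * D)) := by
      intro i _
      refine (wn_sum_le hsm hρ0 K _ _).trans ?_
      have hj : ∀ j ∈ range (d + 1 - i), wn (fun a : ℝ => |a|) ρ K
          (PowerSeries.C (O.φ (c i j)) * t ^ (d - i - j) * (z ^ j - zT br t T ^ j)) ≤
          if j ∈ range (n + 1) then M * (n * B ^ n * D) else 0 := by
        intro j _
        split_ifs with hjn
        · have hjn' : j ≤ n := Nat.lt_succ_iff.1 (mem_range.1 hjn)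
          refine (wn_mul_le hsm hρ0 K _ _).trans ?_
          refine mul_le_mul ?_ ?_ (wn_nonneg hsm hρ0 K _) hM0
          · refine (wn_mul_le hsm hρ0 K _ _).trans ?_
            rw [wn_C hsm]
            have h1 : |O.φ (c i j)| ≤ M := by
              have := (O.φ_le (c i j)).trans (hM i j)
              rwa [Real.norm_eq_abs] at this
            have h2 : wn (fun a : ℝ => |a|) ρ K (t ^ (d - i - j)) ≤ 1 :=
              (wn_pow_le hsm hρ0 K t _).trans
                (pow_le_one₀ (wn_nonneg hsm hρ0 K t) ((hτ K).trans hτ1))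
            calc _ ≤ M * 1 := mul_le_mul h1 h2 (wn_nonneg hsm hρ0 K _) hM0
              _ = M := mul_one M
          · refine (wn_pow_sub_pow_le hρ0 K z (zT br t T) hB1 hzB hzTB happ j).trans ?_
            refine mul_le_mul_of_nonneg_right ?_ hD0
            refine mul_le_mul (by exact_mod_cast hjn') (pow_le_pow_right₀ hB1 hjn')
              (by positivity) (Nat.cast_nonneg _)
        · have : c i j = 0 := by
            by_contra hne
            exact hjn (mem_range.2 (Nat.lt_succ_of_le (hc i j hne).2))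
          rw [this, map_zero, map_zero, zero_mul, zero_mul, wn_zero hsm]
      refine (sum_le_sum hj).trans ?_
      rw [← sum_filter, sum_const, nsmul_eq_mul]
      refine mul_le_mul_of_nonneg_right ?_ (by positivity)
      have h7 : ((range (d + 1 - i)).filter (fun j => j ∈ range (n + 1))).card ≤
          (range (n + 1)).card := card_le_card fun j hj => (mem_filter.1 hj).2
      rw [card_range] at h7
      exact_mod_cast h7
    refine (sum_le_sum hi).trans ?_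
    rw [sum_const, nsmul_eq_mul, card_range]
    push_cast
    exact le_rfl
  have hsplit : wn (fun a : ℝ => |a|) ρ K (evt d (fun i j => PowerSeries.C (O.φ (c i j))) t z) ≤
      (d + 1) * (n + 1) * M * B ^ n * E + (d + 1) * ((n + 1) * (M * (n * B ^ n * D))) := by
    have h1 : evt d (fun i j => PowerSeries.C (O.φ (c i j))) t z =
        evt d (fun i j => PowerSeries.C (O.φ (c i j))) t (zT br t T) +
        (evt d (fun i j => PowerSeries.C (O.φ (c i j))) t z -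
          evt d (fun i j => PowerSeries.C (O.φ (c i j))) t (zT br t T)) := by ring
    rw [h1]
    exact (wn_add_le hsm hρ0 K _ _).trans (add_le_add hfirst hsecond)
  refine hsplit.trans ?_
  -- constants
  have hA : ((n : ℝ) + 1) * B ^ n ≤ bb n Q := by
    have h1 : B ^ n ≤ (Q : ℝ) ^ (2 * n + 1) := by
      rw [hBdef, mul_pow, ← pow_mul, pow_succ, mul_comm]
      exact mul_le_mul_of_nonneg_left (two_pow_leR hQ) (by positivity)
    calc ((n : ℝ) + 1) * B ^ n ≤ Q * (Q : ℝ) ^ (2 * n + 1) :=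
          mul_le_mul (n_add_one_leR hn hQ) h1 (by positivity) (by positivity)
      _ = (Q : ℝ) ^ (2 * n + 2) := by ring
      _ ≤ bb n Q := Qpow_le_bb hn hQ (by nlinarith)
  have hC : 1 + 2 * (n : ℝ) * bb n Q ^ 2 ≤ bb n Q ^ 3 := by
    have h1 : (1 : ℝ) ≤ bb n Q ^ 2 := one_le_pow₀ hb1
    have h2 : 1 + 2 * (n : ℝ) ≤ bb n Q := by
      have h3 : (Q : ℝ) ^ 2 ≤ bb n Q := Qpow_le_bb hn hQ (by nlinarith)
      have h4 := n_leR hn hQ
      have h5 := sixteen_leR hn hQ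
      nlinarith
    have h6 : bb n Q ^ 3 = bb n Q * bb n Q ^ 2 := by ring
    rw [h6]
    nlinarith
  have hfin : (d + 1) * (n + 1) * M * B ^ n * E + (d + 1) * ((n + 1) * (M * (n * B ^ n * D))) =
      ((d + 1) * M * E) * (((n + 1) * B ^ n) * (1 + 2 * (n : ℝ) * bb n Q ^ 2)) := by
    rw [hD, ← hE]
    ring
  rw [hfin]
  have h1 : ((n : ℝ) + 1) * B ^ n * (1 + 2 * (n : ℝ) * bb n Q ^ 2) ≤ bb n Q * bb n Q ^ 3 :=
    mul_le_mul hA hC (by positivity) hb0.le
  calc ((d + 1) * M * E) * (((n + 1) * B ^ n) * (1 + 2 * (n : ℝ) * bb n Q ^ 2))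
      ≤ ((d + 1) * M * E) * (bb n Q * bb n Q ^ 3) :=
        mul_le_mul_of_nonneg_left h1 (by positivity)
    _ = (d + 1) * M * bb n Q ^ 4 * E := by ring

end Pool.Agent.H72.ES
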