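import Pool.Agent.H72.ES.Psi
import Pool.Agent.H72.ES.SmallTilde
import Pool.Agent.H72.ES.Siegel

/-! The function `h = A(·; P₂)` along the local series of the first point. -/

namespace Pool.Agent.H72.ES

open Finset Polynomial

variable {n Q : ℕ} {f : ℤ[X]} {θ : ℝ}

/-- `c_j = ∑_m Ψ_jm A_m` -/
noncomputable def cj (O : Ord ℝ n Q f θ) (w1 w2 : O.R) (A : Fin 6 → ℕ → ℕ → ℤ) (j : Fin 6) :
    ℕ → ℕ → O.R := fun i k => ∑ m, Psi O w1 w2 j m * (A m i k : O.R)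

theorem h_identity (O : Ord ℝ n Q f θ) (hκ : O.φ O.κ ≠ 0) (w1 w2 : O.R)
    (A : Fin 6 → ℕ → ℕ → ℤ) (x2 y2 : ℤ) (d : ℕ) (x Y : PowerSeries ℤ) (t : PowerSeries ℝ)
    (ht : t * PowerSeries.map (Int.castRingHom ℝ) x = 1) :
    PowerSeries.map (Int.castRingHom ℝ)
      (ev d (cst (PowerSeries ℤ) (fun i k => ∑ m, mono x2 y2 m * A m i k)) x Y) =
    ∑ j, PowerSeries.C (psi θ (O.φ w1 / O.φ O.κ) (O.φ w2 / O.φ O.κ ^ 3) x2 y2 j /
        O.φ O.κ ^ sc j) *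
      ((PowerSeries.map (Int.castRingHom ℝ) x) ^ d *
        evt d (fun i k => PowerSeries.C (O.φ (cj O w1 w2 A j i k))) t
          (t * PowerSeries.map (Int.castRingHom ℝ) Y)) := by
  set ψ := PowerSeries.map (Int.castRingHom ℝ) with hψ
  rw [ev_map]
  have h1 : ∀ j, (ψ x) ^ d * evt d (fun i k => PowerSeries.C (O.φ (cj O w1 w2 A j i k))) t
      (t * ψ Y) = ev d (fun i k => PowerSeries.C (O.φ (cj O w1 w2 A j i k))) (ψ x) (ψ Y) :=
    fun j => (ev_eq_evt d _ (ψ x) (ψ Y) t ht).symm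
  simp only [h1]
  rw [← ev_sum]
  congr 1
  funext i k
  have hm : ∀ m, ((mono x2 y2 m : ℤ) : ℝ) = mono (x2 : ℝ) (y2 : ℝ) m := by
    intro m
    fin_cases m <;> simp [mono]
  have hL : ψ (cst (PowerSeries ℤ) (fun i k => ∑ m, mono x2 y2 m * A m i k) i k) =
      PowerSeries.C (∑ m, mono (x2 : ℝ) (y2 : ℝ) m * (A m i k : ℝ)) := by
    simp only [cst, map_intCast]
    rw [← map_intCast (PowerSeries.C (R := ℝ))]
    congr 1
    push_cast
    refine sum_congr rfl fun m _ => ?_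
    rw [hm]
  rw [hL]
  simp only [← map_mul, ← map_sum]
  congr 1
  simp only [cj, map_sum, map_mul, map_intCast]
  have h2 : ∀ m, mono (x2 : ℝ) (y2 : ℝ) m * (A m i k : ℝ) =
      ∑ j, psi θ (O.φ w1 / O.φ O.κ) (O.φ w2 / O.φ O.κ ^ 3) x2 y2 j / O.φ O.κ ^ sc j *
        (O.φ (Psi O w1 w2 j m) * (A m i k : ℝ)) := by
    intro m
    rw [mono_eq O hκ w1 w2, sum_mul]
    refine sum_congr rfl fun j _ => ?_
    ring
  simp only [h2]
  rw [sum_comm]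
  refine sum_congr rfl fun j _ => ?_
  rw [mul_sum]

theorem cj_vanish (O : Ord ℝ n Q f θ) (w1 w2 : O.R) (A : Fin 6 → ℕ → ℕ → ℤ) (j : Fin 6)
    (d : ℕ) (a b : PowerSeries O.R) :
    evt d (fun i k => PowerSeries.C (cj O w1 w2 A j i k)) a b =
      ∑ m, PowerSeries.C (Psi O w1 w2 j m) * evt d (cst (PowerSeries O.R) (A m)) a b := by
  rw [← evt_sum]
  congr 1
  funext i k
  simp [cj, cst, map_sum, map_mul]

theorem cj_bound (O : Ord ℝ n Q f θ) (w1 w2 : O.R) (A : Fin 6 → ℕ → ℕ → ℤ) (B Z : ℝ)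
    (hB : ∀ j m, O.ν (Psi O w1 w2 j m) ≤ B)
    (hZ : ∀ m i j, |((A m i j : ℤ) : ℝ)| ≤ Z) (j : Fin 6) (i k : ℕ) :
    O.ν (cj O w1 w2 A j i k) ≤ 6 * (B * Z) := by
  have S := O.subMul
  have hB0 : 0 ≤ B := (O.ν_nonneg _).trans (hB 0 0)
  refine (S.sum _ _).trans ?_
  have : ∀ m ∈ (univ : Finset (Fin 6)), O.ν (Psi O w1 w2 j m * (A m i k : O.R)) ≤ B * Z := by
    intro m _
    exact (O.ν_mul _ _).trans (mul_le_mul (hB j m) ((O.ν_int _).trans (hZ m i k))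
      (O.ν_nonneg _) hB0)
  refine (sum_le_sum this).trans ?_
  simp

theorem cj_support (O : Ord ℝ n Q f θ) (w1 w2 : O.R) (A : Fin 6 → ℕ → ℕ → ℤ) (d e : ℕ)
    (hA : ∀ m i j, A m i j ≠ 0 → i + j ≤ d ∧ j < e) (j : Fin 6) (i k : ℕ)
    (h : cj O w1 w2 A j i k ≠ 0) : i + k ≤ d ∧ k < e := by
  by_contra hc
  apply h
  unfold cj
  refine sum_eq_zero fun m _ => ?_
  have : A m i k = 0 := by
    by_contra h'
    exact hc (hA m i k h')
  simp [this]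

end Pool.Agent.H72.ES
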