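import Pool.Agent.H72.ES.TwoPoint

/-! # Numerical lemmas for the two-point theorem -/

namespace Pool.Agent.H72.ES

open Finset Polynomial

variable {n Q : ℕ}

theorem two_la_le (la : ℕ) : (2 * (la : ℝ) + 1) * 36 ≤ 2 ^ (2 * la + 6) := by
  induction la with
  | zero => norm_num
  | succ k ih =>
    have : (2 : ℝ) ^ (2 * (k + 1) + 6) = 4 * 2 ^ (2 * k + 6) := by
      rw [show 2 * (k + 1) + 6 = (2 * k + 6) + 2 from by ring, pow_add]
      ring
    rw [this]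
    push_cast
    have h2 : (0 : ℝ) ≤ k := Nat.cast_nonneg k
    nlinarith

theorem weight_bound (hn : 4 ≤ n) (hQ : 2 ^ n ≤ Q) (p : ℝ) (hp : 0 ≤ p) (X : ℝ) (hX : 1 ≤ X)
    (la e T : ℕ) (hT : T ≤ 5 * la) (hla : 54 ≤ la)
    (h : p * X ^ (2 * la) * X ^ e ≤ bb n Q ^ 42 * X ^ T) (s : ℝ) (hs0 : 0 ≤ s)
    (hs : s ≤ bb n Q ^ 3) :
    6 * ((p * s) * ((2 * X) ^ (2 * la) * ((2 * la + 1) * (6 * (bb n Q ^ 5 * bb n Q ^ (600 * la)))
      * bb n Q ^ 4 * (2 / X * bb n Q ^ 4) ^ T)) * X ^ e) ≤ bb n Q ^ (622 * la) := by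
  have hb1 := one_le_bb hn hQ
  have h2b := two_pow_le_bb hn hQ
  set b := bb n Q with hb
  have hb0 : 0 < b := lt_of_lt_of_le one_pos hb1
  have hX0 : 0 < X := by linarith
  have h1 : p * X ^ (2 * la) * X ^ e / X ^ T ≤ b ^ 42 := by
    rw [div_le_iff₀ (by positivity)]
    exact h
  have h10 : 0 ≤ p * X ^ (2 * la) * X ^ e / X ^ T := by positivity
  have hT2 : (2 * b ^ 4) ^ T ≤ (2 * b ^ 4) ^ (5 * la) := by
    apply pow_le_pow_right₀ _ hT
    have : (1 : ℝ) ≤ b ^ 4 := one_le_pow₀ hb1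
    linarith
  have hE : (2 * b ^ 4) ^ (5 * la) = 2 ^ (5 * la) * b ^ (20 * la) := by
    rw [mul_pow, ← pow_mul]
    ring_nf
  have hlaR : (0 : ℝ) ≤ la := Nat.cast_nonneg _
  have h3 : (2 : ℝ) ^ (2 * la) * ((2 * la + 1) * 36) * 2 ^ (5 * la) ≤ b ^ la := by
    calc (2 : ℝ) ^ (2 * la) * ((2 * la + 1) * 36) * 2 ^ (5 * la)
        ≤ 2 ^ (2 * la) * 2 ^ (2 * la + 6) * 2 ^ (5 * la) := by
          gcongr
          exact two_la_le la
      _ = 2 ^ (9 * la + 6) := by rw [← pow_add, ← pow_add]; ring_nf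
      _ ≤ 2 ^ (448 * la) := pow_le_pow_right₀ (by norm_num) (by omega)
      _ = (2 ^ 448) ^ la := by rw [pow_mul]
      _ ≤ b ^ la := pow_le_pow_left₀ (by positivity) h2b _
  have h4 : b ^ 54 ≤ b ^ la := pow_le_pow_right₀ hb1 hla
  calc 6 * ((p * s) * ((2 * X) ^ (2 * la) * ((2 * la + 1) * (6 * (b ^ 5 * b ^ (600 * la)))
      * b ^ 4 * (2 / X * b ^ 4) ^ T)) * X ^ e)
      = (p * X ^ (2 * la) * X ^ e / X ^ T) * s * (2 ^ (2 * la) * ((2 * la + 1) * 36)) *
          (b ^ 9 * b ^ (600 * la)) * (2 * b ^ 4) ^ T := by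
        have : (2 / X * b ^ 4) ^ T = (2 * b ^ 4) ^ T / X ^ T := by
          rw [← div_pow]
          congr 1
          ring
        rw [this, mul_pow 2 X]
        ring
    _ ≤ b ^ 42 * b ^ 3 * (2 ^ (2 * la) * ((2 * la + 1) * 36)) *
          (b ^ 9 * b ^ (600 * la)) * (2 ^ (5 * la) * b ^ (20 * la)) := by
        rw [← hE]
        gcongr
    _ = b ^ 54 * (2 ^ (2 * la) * ((2 * la + 1) * 36) * 2 ^ (5 * la)) *
          (b ^ (600 * la) * b ^ (20 * la)) := by ring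
    _ ≤ b ^ la * b ^ la * (b ^ (600 * la) * b ^ (20 * la)) := by gcongr
    _ = b ^ (622 * la) := by
        rw [← pow_add, ← pow_add, ← pow_add]
        congr 1
        ring

/-- the coefficients of `h` below `K` are smaller than one -/
theorem small_lt_one (hn : 4 ≤ n) (hQ : 2 ^ n ≤ Q) (X : ℝ) (hX : bb n Q ^ 14999 ≤ X)
    (la e k : ℕ) (hla : 1 ≤ la) (he : la < 12 * e) (hk : 48 * n * k ≤ la) (a κ1 : ℝ)
    (ha : 0 ≤ a) (hκ0 : 0 < κ1) (hκ : κ1 ≤ bb n Q * X ^ (n - 1))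
    (h : a * (X / (4 * κ1 ^ 2)) ^ k * X ^ e ≤ bb n Q ^ (622 * la)) : a < 1 := by
  have hb1 := one_le_bb hn hQ
  have h4b : (4 : ℝ) ≤ bb n Q := le_trans (by norm_num) (thousand_le_bb hn hQ)
  set b := bb n Q with hb
  have hb0 : 0 < b := by linarith
  have hbb : 1 < b := by linarith
  have hX1 : 1 ≤ X := le_trans (one_le_pow₀ hb1) hX
  have hX0 : 0 < X := by linarith
  -- (4 b² X^(2n-3))^k bounds the inverse of the weight
  have h1 : (4 * κ1 ^ 2) ≤ b ^ 3 * X ^ (2 * n - 3) * X := by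
    calc 4 * κ1 ^ 2 ≤ 4 * (b * X ^ (n - 1)) ^ 2 := by gcongr
      _ = 4 * b ^ 2 * X ^ (2 * n - 2) := by
        rw [mul_pow, ← pow_mul]
        have : (n - 1) * 2 = 2 * n - 2 := by omega
        rw [this]; ring
      _ ≤ b * b ^ 2 * X ^ (2 * n - 2) := by gcongr
      _ = b ^ 3 * X ^ (2 * n - 3) * X := by
        have : X ^ (2 * n - 2) = X ^ (2 * n - 3) * X := by
          rw [← pow_succ]
          congr 1
          omega
        rw [this]; ring
  have h2 : (1 : ℝ) ≤ X / (4 * κ1 ^ 2) * (b ^ 3 * X ^ (2 * n - 3)) := by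
    rw [div_mul_eq_mul_div, le_div_iff₀ (by positivity), one_mul]
    linarith
  have h3 : (1 : ℝ) ≤ (X / (4 * κ1 ^ 2)) ^ k * (b ^ (3 * k) * X ^ ((2 * n - 3) * k)) := by
    have := one_le_pow₀ (n := k) h2
    rw [mul_pow, mul_pow, ← pow_mul, ← pow_mul] at this
    exact this
  -- hence a X^e ≤ b^(622 la) b^(3k) X^((2n-3)k)
  have h4 : a * X ^ e ≤ b ^ (622 * la) * (b ^ (3 * k) * X ^ ((2 * n - 3) * k)) := by
    calc a * X ^ e = a * X ^ e * 1 := by ring
      _ ≤ a * X ^ e * ((X / (4 * κ1 ^ 2)) ^ k * (b ^ (3 * k) * X ^ ((2 * n - 3) * k))) := by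
        gcongr
      _ = (a * (X / (4 * κ1 ^ 2)) ^ k * X ^ e) * (b ^ (3 * k) * X ^ ((2 * n - 3) * k)) := by ring
      _ ≤ _ := by gcongr
  by_contra hcon
  push Not at hcon
  have h5 : X ^ e ≤ b ^ (622 * la) * (b ^ (3 * k) * X ^ ((2 * n - 3) * k)) := by
    refine le_trans ?_ h4
    have : 0 < X ^ e := by positivity
    nlinarith
  have hk3 : 3 * k ≤ la := by
    have : 3 * k ≤ 48 * n * k := by
      have : 3 ≤ 48 * n := by omega
      exact Nat.mul_le_mul_right k this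
    omega
  have h6 : b ^ (3 * k) ≤ b ^ la := pow_le_pow_right₀ hb1 hk3
  have h7 : X ^ e ≤ b ^ (623 * la) * X ^ ((2 * n - 3) * k) := by
    refine h5.trans ?_
    calc b ^ (622 * la) * (b ^ (3 * k) * X ^ ((2 * n - 3) * k))
        ≤ b ^ (622 * la) * (b ^ la * X ^ ((2 * n - 3) * k)) := by gcongr
      _ = b ^ (623 * la) * X ^ ((2 * n - 3) * k) := by
        rw [← mul_assoc, ← pow_add]
        congr 2
        ring
  -- 24 (2n-3) k ≤ la, 24 e > 2 la
  have h8 : 24 * ((2 * n - 3) * k) ≤ la := by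
    have : 24 * ((2 * n - 3) * k) ≤ 48 * n * k := by
      have : 24 * (2 * n - 3) ≤ 48 * n := by omega
      calc 24 * ((2 * n - 3) * k) = (24 * (2 * n - 3)) * k := by ring
        _ ≤ 48 * n * k := Nat.mul_le_mul_right k this
    omega
  set g := (2 * n - 3) * k with hg
  have h9 : X ^ (2 * la) ≤ (b ^ (623 * la)) ^ 24 * X ^ la := by
    calc X ^ (2 * la) ≤ X ^ (24 * e) := pow_le_pow_right₀ hX1 (by omega)
      _ = (X ^ e) ^ 24 := by rw [← pow_mul]; ring_nf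
      _ ≤ (b ^ (623 * la) * X ^ g) ^ 24 := pow_le_pow_left₀ (by positivity) h7 _
      _ = (b ^ (623 * la)) ^ 24 * X ^ (24 * g) := by
        rw [mul_pow, ← pow_mul X]
        ring_nf
      _ ≤ (b ^ (623 * la)) ^ 24 * X ^ la := by
        gcongr
  have h10 : X ^ la ≤ (b ^ (623 * la)) ^ 24 := by
    have : X ^ (2 * la) = X ^ la * X ^ la := by rw [← pow_add]; ring_nf
    rw [this] at h9
    exact le_of_mul_le_mul_right h9 (by positivity)
  have h11 : b ^ (14999 * la) ≤ b ^ (14952 * la) := by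
    calc b ^ (14999 * la) = (b ^ 14999) ^ la := by rw [pow_mul]
      _ ≤ X ^ la := pow_le_pow_left₀ (by positivity) hX _
      _ ≤ (b ^ (623 * la)) ^ 24 := h10
      _ = b ^ (14952 * la) := by rw [← pow_mul]; ring_nf
  have h12 := (pow_le_pow_iff_right₀ hbb).1 h11
  omega

/-- the final numerical contradiction -/
theorem final_contra (hn : 4 ≤ n) (hQ : 2 ^ n ≤ Q) (X : ℝ)
    (hX : bb n Q ^ (220000 * n ^ 2) ≤ X) (la K : ℕ) (hla : 2000 * n ≤ la)
    (hK : la < 48 * n * (K + 1))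
    (h : X ^ (K - 4) ≤ ((Q : ℝ) ^ (200 * n) * (((2 * la : ℕ) : ℝ) + 13 * n) ^ 36 *
      (bb n Q ^ (600 * la)) ^ 6) ^ n) : False := by
  have hb1 := one_le_bb hn hQ
  have h4b : (4 : ℝ) ≤ bb n Q := le_trans (by norm_num) (thousand_le_bb hn hQ)
  have hQb := Q_le_bb hn hQ
  have hbb : 1 < bb n Q := by linarith
  have h2b := two_pow_le_bb hn hQ
  set b := bb n Q with hb
  have hb0 : 0 < b := lt_trans one_pos hbb
  have hX0 : 0 < X := lt_of_lt_of_le (by positivity) hX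
  have h1 : (Q : ℝ) ^ (200 * n) ≤ b ^ la := by
    calc (Q : ℝ) ^ (200 * n) ≤ b ^ (200 * n) := pow_le_pow_left₀ (by positivity) hQb _
      _ ≤ b ^ la := pow_le_pow_right₀ hb1 (by omega)
  have h2 : (((2 * la : ℕ) : ℝ) + 13 * n) ^ 36 ≤ b ^ la := by
    have h3 : ((2 * la : ℕ) : ℝ) + 13 * n ≤ 2 ^ (2 * la + 6) := by
      have e1 := two_la_le la
      have e2 : (13 * (n : ℝ)) ≤ la := by
        have : 13 * n ≤ la := by omega
        exact_mod_cast this
      push_cast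
      have e3 : (0 : ℝ) ≤ la := Nat.cast_nonneg _
      linarith
    calc (((2 * la : ℕ) : ℝ) + 13 * n) ^ 36 ≤ (2 ^ (2 * la + 6)) ^ 36 :=
          pow_le_pow_left₀ (by positivity) h3 _
      _ = 2 ^ (72 * la + 216) := by rw [← pow_mul]; ring_nf
      _ ≤ 2 ^ (448 * la) := pow_le_pow_right₀ (by norm_num) (by omega)
      _ = (2 ^ 448) ^ la := by rw [pow_mul]
      _ ≤ b ^ la := pow_le_pow_left₀ (by positivity) h2b _
  have h5 : X ^ (K - 4) ≤ b ^ (3602 * la * n) := by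
    refine h.trans ?_
    calc ((Q : ℝ) ^ (200 * n) * (((2 * la : ℕ) : ℝ) + 13 * n) ^ 36 * (b ^ (600 * la)) ^ 6) ^ n
        ≤ (b ^ la * b ^ la * (b ^ (600 * la)) ^ 6) ^ n := by gcongr
      _ = b ^ (3602 * la * n) := by
        rw [← pow_mul, ← pow_add, ← pow_add, ← pow_mul]
        congr 1
        ring
  have h6 : b ^ (220000 * n ^ 2 * (K - 4)) ≤ b ^ (3602 * la * n) := by
    rw [pow_mul]
    exact (pow_le_pow_left₀ (by positivity) hX _).trans h5
  have h7 := (pow_le_pow_iff_right₀ hbb).1 h6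
  have hKbig : 4 ≤ K := by
    by_contra hc
    have : K + 1 ≤ 4 := by omega
    have : 48 * n * (K + 1) ≤ 48 * n * 4 := Nat.mul_le_mul_left _ this
    omega
  obtain ⟨M, rfl⟩ : ∃ M, K = M + 4 := ⟨K - 4, by omega⟩
  simp only [Nat.add_sub_cancel] at h7
  -- 48 n M > la - 240 n ≥ 0.88 la
  have h8 : la < 48 * (n * M) + 240 * n := by
    calc la < 48 * n * (M + 4 + 1) := hK
      _ = 48 * (n * M) + 240 * n := by ring
  have h9 : 220000 * n ^ 2 * M ≤ 3602 * la * n := h7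
  have hn0 : 0 < n := by omega
  have h10 : 220000 * (n * M) ≤ 3602 * la := by
    have : n * (220000 * (n * M)) ≤ n * (3602 * la) := by
      calc n * (220000 * (n * M)) = 220000 * n ^ 2 * M := by ring
        _ ≤ 3602 * la * n := h9
        _ = n * (3602 * la) := by ring
    exact Nat.le_of_mul_le_mul_left this hn0
  omega

end Pool.Agent.H72.ES
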