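import Pool.Agent.H72.ES.TwoA
import Pool.Agent.H72.ES.EstE
import Pool.Agent.H72.ES.InvT
import Pool.Agent.H72.ES.Local
import Pool.Agent.H72.ES.EvY
import Pool.Agent.H72.ES.Conic
import Pool.Agent.H72.ES.Mult
import Pool.Agent.H72.ES.BranchEx

/-! # The two-point theorem (assembly) -/

namespace Pool.Agent.H72.ES

open Finset Polynomial

variable {n Q : ℕ} {f : ℤ[X]} {θ : ℝ}

/-- the vanishing orders -/
def TT (la e : ℕ) : Fin 6 → ℕ := ![4 * la + 2 + e, 3 * la + 1 + e, 2 * la + e, la + e, la + e, e]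

/-- bounds for the adapted basis at the second point -/
theorem psi_bounds (O : Ord ℝ n Q f θ) {F : ℕ → ℕ → ℤ} (hF : Norml n Q f F) (br : Branch O F)
    (x2 y2 : ℤ) (h0 : ev n F x2 y2 = 0) (hy : |(y2 : ℝ) / x2 - θ| ≤ 1 / bb n Q)
    (X : ℝ) (hX : 1 ≤ X) (la e : ℕ) (hx : bb n Q ^ 30 ≤ |(x2 : ℝ)|)
    (hl : X ^ la ≤ |(x2 : ℝ)|) (hu : |(x2 : ℝ)| ≤ X ^ (la + 1)) (j : Fin 6) :
    |psi θ br.be br.ga x2 y2 j| * X ^ (2 * la) * X ^ e ≤ bb n Q ^ 42 * X ^ TT la e j := by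
  have hb1 := one_le_bb hF.hn hF.hQ
  obtain ⟨_, hga, _⟩ := expand_bounds hF br
  set b := bb n Q with hb
  have hb0 : 0 < b := by linarith
  have hx2 : 0 < |(x2 : ℝ)| := lt_of_lt_of_le (by positivity) hx
  have hx5 : b ^ 5 ≤ |(x2 : ℝ)| := le_trans (pow_le_pow_right₀ hb1 (by norm_num)) hx
  have hE := expand3 hF br x2 y2 hx5 hy h0
  have hX0 : 0 < X := by linarith
  -- bounds on u and w
  have hsq : (x2 : ℝ) ^ 2 = |(x2 : ℝ)| ^ 2 := (sq_abs _).symm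
  have hxne : (x2 : ℝ) ≠ 0 := by
    intro h
    simp [h] at hx2
  have hu1 : |(y2 : ℝ) - θ * x2 - br.be| ≤ b ^ 21 / |(x2 : ℝ)| := by
    have h1 : (y2 : ℝ) - θ * x2 - br.be = ((y2 : ℝ) - (θ * x2 + br.be + br.ga / x2)) +
        br.ga / x2 := by ring
    rw [h1]
    have h2 : |br.ga / (x2 : ℝ)| ≤ b ^ 6 / |(x2 : ℝ)| := by
      rw [abs_div]
      gcongr
    have h3 : b ^ 20 / (x2 : ℝ) ^ 2 ≤ b ^ 20 / |(x2 : ℝ)| := by
      rw [hsq]
      gcongr
      have : (1 : ℝ) ≤ |(x2 : ℝ)| := le_trans (one_le_pow₀ hb1) hx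
      nlinarith
    calc _ ≤ |(y2 : ℝ) - (θ * x2 + br.be + br.ga / x2)| + |br.ga / (x2 : ℝ)| := abs_add_le _ _
      _ ≤ b ^ 20 / |(x2 : ℝ)| + b ^ 6 / |(x2 : ℝ)| := add_le_add (hE.trans h3) h2
      _ = (b ^ 20 + b ^ 6) / |(x2 : ℝ)| := by ring
      _ ≤ b ^ 21 / |(x2 : ℝ)| := by
        gcongr
        have h4 : b ^ 6 ≤ b ^ 20 := pow_le_pow_right₀ hb1 (by norm_num)
        have h5 : (2 : ℝ) ≤ b := le_trans (by norm_num) (thousand_le_bb hF.hn hF.hQ)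
        have h6 : b ^ 21 = b * b ^ 20 := by ring
        rw [h6]
        nlinarith [show (0:ℝ) < b ^ 20 by positivity]
  have hw1 : |(x2 : ℝ) * ((y2 : ℝ) - θ * x2 - br.be) - br.ga| ≤ b ^ 20 / |(x2 : ℝ)| := by
    have h1 : (x2 : ℝ) * ((y2 : ℝ) - θ * x2 - br.be) - br.ga =
        x2 * ((y2 : ℝ) - (θ * x2 + br.be + br.ga / x2)) := by
      field_simp
      ring
    rw [h1, abs_mul]
    calc |(x2 : ℝ)| * |(y2 : ℝ) - (θ * x2 + br.be + br.ga / x2)|
        ≤ |(x2 : ℝ)| * (b ^ 20 / (x2 : ℝ) ^ 2) := by gcongr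
      _ = b ^ 20 / |(x2 : ℝ)| := by
        rw [hsq]
        field_simp
  have hP : ∀ k, b ^ k ≤ b ^ 42 ∨ 42 < k := fun k => by
    by_cases h : k ≤ 42
    · exact Or.inl (pow_le_pow_right₀ hb1 h)
    · exact Or.inr (by omega)
  have hb42 : (1 : ℝ) ≤ b ^ 42 := one_le_pow₀ hb1
  fin_cases j
  · have h1 : |psi θ br.be br.ga x2 y2 0| ≤ X ^ (2 * la + 2) := by
      simp only [psi, Matrix.cons_val_zero]
      rw [abs_pow]
      calc |(x2 : ℝ)| ^ 2 ≤ (X ^ (la + 1)) ^ 2 := by gcongr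
        _ = X ^ (2 * la + 2) := by rw [← pow_mul]; ring_nf
    calc |psi θ br.be br.ga x2 y2 0| * X ^ (2 * la) * X ^ e
        ≤ X ^ (2 * la + 2) * X ^ (2 * la) * X ^ e := by gcongr
      _ = 1 * X ^ (4 * la + 2 + e) := by rw [one_mul, ← pow_add, ← pow_add]; ring_nf
      _ ≤ b ^ 42 * X ^ (4 * la + 2 + e) := by gcongr
  · have h1 : |psi θ br.be br.ga x2 y2 1| ≤ X ^ (la + 1) := by
      simpa [psi] using hu
    calc |psi θ br.be br.ga x2 y2 1| * X ^ (2 * la) * X ^ e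
        ≤ X ^ (la + 1) * X ^ (2 * la) * X ^ e := by gcongr
      _ = 1 * X ^ (3 * la + 1 + e) := by rw [one_mul, ← pow_add, ← pow_add]; ring_nf
      _ ≤ b ^ 42 * X ^ (3 * la + 1 + e) := by gcongr
  · have h1 : |psi θ br.be br.ga x2 y2 2| = 1 := by simp [psi]
    calc |psi θ br.be br.ga x2 y2 2| * X ^ (2 * la) * X ^ e
        = 1 * X ^ (2 * la + e) := by rw [h1, one_mul, one_mul, ← pow_add]
      _ ≤ b ^ 42 * X ^ (2 * la + e) := by gcongr
  · have h1 : |psi θ br.be br.ga x2 y2 3| ≤ b ^ 21 / X ^ la := by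
      simp only [psi]
      refine hu1.trans ?_
      gcongr
    calc |psi θ br.be br.ga x2 y2 3| * X ^ (2 * la) * X ^ e
        ≤ b ^ 21 / X ^ la * X ^ (2 * la) * X ^ e := by gcongr
      _ = b ^ 21 * X ^ (la + e) := by
        have : X ^ (2 * la) = X ^ la * X ^ la := by rw [← pow_add]; ring_nf
        rw [this, pow_add]
        field_simp
      _ ≤ b ^ 42 * X ^ (la + e) := by
        gcongr
        norm_num
  · have h1 : |psi θ br.be br.ga x2 y2 4| ≤ b ^ 20 / X ^ la := by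
      simp only [psi]
      refine hw1.trans ?_
      gcongr
    calc |psi θ br.be br.ga x2 y2 4| * X ^ (2 * la) * X ^ e
        ≤ b ^ 20 / X ^ la * X ^ (2 * la) * X ^ e := by gcongr
      _ = b ^ 20 * X ^ (la + e) := by
        have : X ^ (2 * la) = X ^ la * X ^ la := by rw [← pow_add]; ring_nf
        rw [this, pow_add]
        field_simp
      _ ≤ b ^ 42 * X ^ (la + e) := by
        gcongr
        norm_num
  · have h1 : |psi θ br.be br.ga x2 y2 5| ≤ (b ^ 21 / X ^ la) ^ 2 := by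
      simp only [psi]
      show |((y2 : ℝ) - θ * x2 - br.be) ^ 2| ≤ _
      rw [abs_pow]
      have : |(y2 : ℝ) - θ * x2 - br.be| ≤ b ^ 21 / X ^ la := by
        refine hu1.trans ?_
        gcongr
      gcongr
    calc |psi θ br.be br.ga x2 y2 5| * X ^ (2 * la) * X ^ e
        ≤ (b ^ 21 / X ^ la) ^ 2 * X ^ (2 * la) * X ^ e := by gcongr
      _ = b ^ 42 * X ^ e := by
        have : X ^ (2 * la) = X ^ la * X ^ la := by rw [← pow_add]; ring_nf
        rw [this]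
        field_simp
      _ ≤ b ^ 42 * X ^ e := le_refl _

end Pool.Agent.H72.ES
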