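import Pool.Agent.H72.ES.TwoC
import Pool.Agent.H72.ES.Gap
import Pool.Agent.H72.ES.Choose5
import Pool.Agent.H72.ES.Far
import Pool.Agent.H72.ES.NearRoot

/-! # Counting the points near one asymptotic direction -/

namespace Pool.Agent.H72.ES

open Finset Polynomial

variable {n Q : ℕ} {f : ℤ[X]} {θ : ℝ}

/-- the array with constant coefficient lowered by `c` -/
def subc (F : ℕ → ℕ → ℤ) (c : ℤ) : ℕ → ℕ → ℤ :=
  fun i j => if i = 0 ∧ j = 0 then F 0 0 - c else F i j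

theorem ev_subc (n : ℕ) (F : ℕ → ℕ → ℤ) (c x y : ℤ) :
    ev n (subc F c) x y = ev n F x y - c := by
  unfold ev
  have h1 : ∀ i ∈ range (n + 1), ∑ j ∈ range (n + 1 - i), subc F c i j * x ^ i * y ^ j =
      ∑ j ∈ range (n + 1 - i), F i j * x ^ i * y ^ j - if i = 0 then c else 0 := by
    intro i hi
    have h2 : ∀ j ∈ range (n + 1 - i), subc F c i j * x ^ i * y ^ j =
        F i j * x ^ i * y ^ j - if j = 0 then (if i = 0 then c else 0) else 0 := by
      intro j _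
      by_cases hi0 : i = 0
      · by_cases hj0 : j = 0
        · simp [subc, hi0, hj0]
        · simp [subc, hj0]
      · simp [subc, hi0]
    rw [sum_congr rfl h2, sum_sub_distrib]
    congr 1
    rw [sum_ite_eq']
    simp only [mem_range] at hi ⊢
    have : 0 < n + 1 - i := by omega
    simp [this]
  rw [sum_congr rfl h1, sum_sub_distrib]
  congr 1
  rw [sum_ite_eq']
  simp

theorem norml_subc {G : ℕ → ℕ → ℤ} (hn : 4 ≤ n) (M : ℕ) (hM : 2 * M ≤ Q) (hQ : 2 ^ n ≤ Q)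
    (hlead : lead n G = f) (htop : G 0 n = 1) (hG : ∀ i j, i + j ≤ n → |G i j| ≤ (M : ℤ))
    (c : ℤ) (hc : |c| ≤ M) : Norml n Q f (subc G c) where
  hn := hn
  hQ := hQ
  lead_eq := by
    rw [← hlead]
    unfold lead
    refine sum_congr rfl fun j hj => ?_
    have : ¬ (n - j = 0 ∧ j = 0) := by omega
    simp [subc, this]
  top := by
    have : n ≠ 0 := by omega
    simp [subc, this, htop]
  bound := by
    intro i j hij
    have hMQ : (2 : ℤ) * M ≤ Q := by exact_mod_cast hM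
    have hM0 : (0 : ℤ) ≤ M := Int.natCast_nonneg M
    by_cases h : i = 0 ∧ j = 0
    · simp only [subc, h, and_self, if_true]
      have h1 := hG 0 0 (by omega)
      have h2 : |G 0 0 - c| ≤ |G 0 0| + |c| := abs_sub _ _
      linarith
    · simp only [subc, h, if_false]
      exact (hG i j hij).trans (by linarith)

/-- Standing data of a normalised family `G - c`, `|c| ≤ M`, `2 M ≤ Q`. -/
structure Fam (n Q M : ℕ) (f : ℤ[X]) (G : ℕ → ℕ → ℤ) : Prop where
  hn : 4 ≤ n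
  hQ : 2 ^ n ≤ Q
  hM : 2 * M ≤ Q
  irr : Irreducible f
  lead_eq : lead n G = f
  top : G 0 n = 1
  bound : ∀ i j, i + j ≤ n → |G i j| ≤ (M : ℤ)

theorem Fam.norml {M : ℕ} {G : ℕ → ℕ → ℤ} (h : Fam n Q M f G) : Norml n Q f G where
  hn := h.hn
  hQ := h.hQ
  lead_eq := h.lead_eq
  top := h.top
  bound := fun i j hij => by
    have hMQ : (2 : ℤ) * M ≤ Q := by exact_mod_cast h.hM
    have hM0 : (0 : ℤ) ≤ M := Int.natCast_nonneg M
    exact (h.bound i j hij).trans (by linarith)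

theorem Fam.norml_sub {M : ℕ} {G : ℕ → ℕ → ℤ} (h : Fam n Q M f G) (c : ℤ) (hc : |c| ≤ M) :
    Norml n Q f (subc G c) :=
  norml_subc h.hn M h.hM h.hQ h.lead_eq h.top h.bound c hc

/-- the points of a family close to the direction `θ` -/
structure Pts (n Q M : ℕ) (G : ℕ → ℕ → ℤ) (θ : ℝ) (S : Finset (ℤ × ℤ)) : Prop where
  small : ∀ P ∈ S, |ev n G P.1 P.2| ≤ (M : ℤ)
  near : ∀ P ∈ S, |(P.2 : ℝ) / P.1 - θ| ≤ 1 / bb n Q

theorem Pts.mono {M : ℕ} {G : ℕ → ℕ → ℤ} {S T : Finset (ℤ × ℤ)} (h : Pts n Q M G θ S)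
    (hT : T ⊆ S) : Pts n Q M G θ T where
  small := fun P hP => h.small P (hT hP)
  near := fun P hP => h.near P (hT hP)

/-- every subset of `S` on a line has at most `L` elements -/
def LineBd (L : ℝ) (S : Finset (ℤ × ℤ)) : Prop :=
  ∀ P ∈ S, ∀ P' ∈ S, P ≠ P' → ∀ S' ⊆ S, (∀ R ∈ S', Col P P' R) → (S'.card : ℝ) ≤ L

theorem LineBd.mono {L : ℝ} {S T : Finset (ℤ × ℤ)} (h : LineBd L S) (hT : T ⊆ S) : LineBd L T :=
  fun P hP P' hP' hne S' hS' hc => h P (hT hP) P' (hT hP') hne S' (hS'.trans hT) hc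

/-- one window -/
theorem one_window {M : ℕ} {G : ℕ → ℕ → ℤ} (h : Fam n Q M f G) (O : Ord ℝ n Q f θ) (L : ℝ)
    (hL : 1 ≤ L) (S : Finset (ℤ × ℤ)) (hS : Pts n Q M G θ S) (hline : LineBd L S) (X : ℝ)
    (hX : bb n Q ^ (200 * n) < X) (h1 : ∀ P ∈ S, X ≤ |(P.1 : ℝ)|)
    (h2 : ∀ P ∈ S, |(P.1 : ℝ)| ≤ X ^ (1 + 1 / (3 * (n : ℝ)))) : (S.card : ℝ) ≤ 6 * L := by
  by_contra hc
  push Not at hc
  obtain ⟨p, hpS, hpi, hcol⟩ := choose5 S L hL hline hc
  have hN := h.norml
  obtain ⟨br⟩ := exists_branch O hN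
  obtain ⟨hbe, hga, hde⟩ := expand_bounds hN br
  have hb1 := one_le_bb h.hn h.hQ
  refine gap h.hn h.hQ O br.be br.ga br.de
    (hbe.trans (pow_le_pow_right₀ hb1 (by norm_num)))
    (hga.trans (pow_le_pow_right₀ hb1 (by norm_num))) hde X hX p
    (fun i => h1 _ (hpS i)) (fun i => h2 _ (hpS i)) ?_ hcol
  intro i
  have hMQ : (M : ℤ) ≤ Q := by
    have hMQ : (2 : ℤ) * M ≤ Q := by exact_mod_cast h.hM
    have hM0 : (0 : ℤ) ≤ M := Int.natCast_nonneg M
    linarith
  refine expand4 hN br (p i).1 (p i).2 ?_ (hS.near _ (hpS i)) ((hS.small _ (hpS i)).trans hMQ)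
  refine le_trans ?_ (h1 _ (hpS i))
  exact (pow_le_pow_right₀ hb1 (by have := h.hn; omega)).trans hX.le

/-- many windows -/
theorem windows {M : ℕ} {G : ℕ → ℕ → ℤ} (h : Fam n Q M f G) (O : Ord ℝ n Q f θ) (L : ℝ)
    (hL : 1 ≤ L) (m : ℕ) : ∀ (S : Finset (ℤ × ℤ)), Pts n Q M G θ S → LineBd L S → ∀ X : ℝ,
    bb n Q ^ (200 * n) < X → (∀ P ∈ S, X ≤ |(P.1 : ℝ)|) →
    (∀ P ∈ S, |(P.1 : ℝ)| < X ^ ((1 + 1 / (3 * (n : ℝ))) ^ m)) → (S.card : ℝ) ≤ 6 * L * m := by
  induction m with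
  | zero =>
    intro S _ _ X _ h1 h2
    have : S = ∅ := by
      apply eq_empty_of_forall_notMem
      intro P hP
      have e1 := h1 P hP
      have e2 := h2 P hP
      simp only [pow_zero, Real.rpow_one] at e2
      linarith
    simp [this]
  | succ m ih =>
    intro S hS hline X hX h1 h2
    have hb1 := one_le_bb h.hn h.hQ
    have hX1 : 1 < X := lt_of_le_of_lt (one_le_pow₀ hb1) hX
    have hX0 : 0 < X := by linarith
    set δ : ℝ := 1 + 1 / (3 * (n : ℝ)) with hδ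
    have hn0 : (0 : ℝ) < n := by
      have := h.hn
      exact_mod_cast (by omega : 0 < n)
    have hδ1 : 1 ≤ δ := by
      have : (0 : ℝ) ≤ 1 / (3 * (n : ℝ)) := by positivity
      linarith
    have hXδ : X ≤ X ^ δ := by
      calc X = X ^ (1 : ℝ) := (Real.rpow_one X).symm
        _ ≤ X ^ δ := Real.rpow_le_rpow_of_exponent_le hX1.le hδ1
    set S1 := S.filter (fun P => |(P.1 : ℝ)| < X ^ δ) with hS1
    set S2 := S.filter (fun P => ¬ |(P.1 : ℝ)| < X ^ δ) with hS2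
    have hs1 : S1 ⊆ S := filter_subset _ _
    have hs2 : S2 ⊆ S := filter_subset _ _
    have e1 : (S1.card : ℝ) ≤ 6 * L := by
      refine one_window h O L hL S1 (hS.mono hs1) (hline.mono hs1) X hX
        (fun P hP => h1 P (hs1 hP)) ?_
      intro P hP
      exact ((mem_filter.1 hP).2).le
    have e2 : (S2.card : ℝ) ≤ 6 * L * m := by
      refine ih S2 (hS.mono hs2) (hline.mono hs2) (X ^ δ) (lt_of_lt_of_le hX hXδ) ?_ ?_
      · intro P hP
        exact not_lt.1 (mem_filter.1 hP).2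
      · intro P hP
        have := h2 P (hs2 hP)
        rw [← Real.rpow_mul hX0.le]
        have e3 : δ * δ ^ m = δ ^ (m + 1) := by ring
        rw [e3]
        exact this
    have e3 : S1.card + S2.card = S.card := by
      rw [hS1, hS2]
      exact card_filter_add_card_filter_not _
    have e4 : (S.card : ℝ) = S1.card + S2.card := by rw [← e3]; push_cast; ring
    rw [e4]
    push_cast
    linarith

/-- `(1 + 1/(3n))^(3 n k) ≥ 2^k` -/
theorem two_pow_le_window (hn : 1 ≤ n) (k : ℕ) :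
    (2 : ℝ) ^ k ≤ (1 + 1 / (3 * (n : ℝ))) ^ (3 * n * k) := by
  have hn0 : (0 : ℝ) < n := by exact_mod_cast hn
  have h1 : (2 : ℝ) ≤ (1 + 1 / (3 * (n : ℝ))) ^ (3 * n) := by
    have := one_add_mul_le_pow (a := 1 / (3 * (n : ℝ))) (by
      have : (0 : ℝ) ≤ 1 / (3 * (n : ℝ)) := by positivity
      linarith) (3 * n)
    refine le_trans ?_ this
    push_cast
    have : (3 * (n : ℝ)) * (1 / (3 * (n : ℝ))) = 1 := by field_simp
    rw [this]
    norm_num
  rw [pow_mul]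
  exact pow_le_pow_left₀ (by norm_num) h1 _

theorem four_n_le (hn : 4 ≤ n) : 4 * n ≤ 2 ^ n := by
  induction n, hn using Nat.le_induction with
  | base => norm_num
  | succ k hk ih =>
    have : 2 ^ (k + 1) = 2 * 2 ^ k := by ring
    rw [this]
    omega

/-- all points near one direction -/
theorem class_count {M : ℕ} {G : ℕ → ℕ → ℤ} (h : Fam n Q M f G) (O : Ord ℝ n Q f θ) (L : ℝ)
    (hL : 1 ≤ L) (S : Finset (ℤ × ℤ)) (hS : Pts n Q M G θ S) (hline : LineBd L S)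
    (h1 : ∀ P ∈ S, bb n Q ^ (250 * n) ≤ |(P.1 : ℝ)|) : (S.card : ℝ) ≤ 120 * L * n ^ 2 := by
  have hn := h.hn
  have hb1 := one_le_bb h.hn h.hQ
  have h4b : (4 : ℝ) ≤ bb n Q := le_trans (by norm_num) (thousand_le_bb h.hn h.hQ)
  set b := bb n Q with hb
  have hb0 : 0 < b := by linarith
  have hbb : 1 < b := by linarith
  have hn0 : (0 : ℝ) < n := by exact_mod_cast (by omega : 0 < n)
  have hn4 : (4 : ℝ) ≤ n := by exact_mod_cast hn
  have h4n := four_n_le hn
  -- the exponents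
  have hA1 : ((880 * n : ℕ) : ℝ) ≤ (1 + 1 / (3 * (n : ℝ))) ^ (3 * n * (n + 8)) := by
    refine le_trans ?_ (two_pow_le_window (by omega) (n + 8))
    have : 880 * n ≤ 2 ^ (n + 8) := by
      rw [pow_add]
      omega
    exact_mod_cast this
  have hA2 : ((2000 * n : ℕ) : ℝ) ≤ (1 + 1 / (3 * (n : ℝ))) ^ (3 * n * (n + 9)) := by
    refine le_trans ?_ (two_pow_le_window (by omega) (n + 9))
    have : 2000 * n ≤ 2 ^ (n + 9) := by
      rw [pow_add]
      omega
    exact_mod_cast this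
  set S1 := S.filter (fun P => |(P.1 : ℝ)| < b ^ (220000 * n ^ 2)) with hS1
  set S2 := S.filter (fun P => ¬ |(P.1 : ℝ)| < b ^ (220000 * n ^ 2)) with hS2
  have hs1 : S1 ⊆ S := filter_subset _ _
  have hs2 : S2 ⊆ S := filter_subset _ _
  have e1 : (S1.card : ℝ) ≤ 6 * L * (3 * n * (n + 8) : ℕ) := by
    refine windows h O L hL _ S1 (hS.mono hs1) (hline.mono hs1) (b ^ (250 * n))
      (pow_lt_pow_right₀ hbb (by omega)) (fun P hP => h1 P (hs1 hP)) ?_
    intro P hP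
    have h3 := (mem_filter.1 hP).2
    refine lt_of_lt_of_le h3 ?_
    have hB1 : 1 ≤ b ^ (250 * n) := one_le_pow₀ hb1
    calc b ^ (220000 * n ^ 2) = (b ^ (250 * n)) ^ (880 * n) := by
          rw [← pow_mul]
          congr 1
          ring
      _ = (b ^ (250 * n)) ^ ((880 * n : ℕ) : ℝ) := (Real.rpow_natCast _ _).symm
      _ ≤ _ := Real.rpow_le_rpow_of_exponent_le hB1 hA1
  have e2 : (S2.card : ℝ) ≤ 6 * L * (3 * n * (n + 9) : ℕ) := by
    by_cases hne : S2.Nonempty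
    · obtain ⟨P1, hP1, hmin⟩ := S2.exists_min_image (fun P => |(P.1 : ℝ)|) hne
      have hX : b ^ (220000 * n ^ 2) ≤ |(P1.1 : ℝ)| := not_lt.1 (mem_filter.1 hP1).2
      have hnn : n ≤ n ^ 2 := Nat.le_self_pow (by norm_num) n
      refine windows h O L hL _ S2 (hS.mono hs2) (hline.mono hs2) |(P1.1 : ℝ)|
        (lt_of_lt_of_le (pow_lt_pow_right₀ hbb (by omega)) hX) hmin ?_
      intro P hP
      have hX1 : 1 ≤ |(P1.1 : ℝ)| := (one_le_pow₀ hb1).trans hX
      have hlt : |(P.1 : ℝ)| < |(P1.1 : ℝ)| ^ (2000 * n) := by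
        by_contra hc
        push Not at hc
        refine two_point h.irr O (h.norml_sub _ (hS.small P1 (hs2 hP1)))
          (h.norml_sub _ (hS.small P (hs2 hP))) P1.1 P1.2 P.1 P.2 ?_ ?_
          (hS.near P1 (hs2 hP1)) (hS.near P (hs2 hP)) hX hc
        · rw [ev_subc, sub_self]
        · rw [ev_subc, sub_self]
      refine lt_of_lt_of_le hlt ?_
      rw [← Real.rpow_natCast]
      exact Real.rpow_le_rpow_of_exponent_le hX1 hA2
    · rw [not_nonempty_iff_eq_empty] at hne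
      rw [hne]
      simp
      positivity
  have e3 : S1.card + S2.card = S.card := by
    rw [hS1, hS2]
    exact card_filter_add_card_filter_not _
  have e4 : (S.card : ℝ) = S1.card + S2.card := by rw [← e3]; push_cast; ring
  rw [e4]
  push_cast at e1 e2
  have e5 : 6 * L * (3 * (n : ℝ) * (n + 8)) + 6 * L * (3 * n * (n + 9)) ≤ 120 * L * n ^ 2 := by
    have e6 : 6 * L * (3 * (n : ℝ) * (n + 8)) + 6 * L * (3 * n * (n + 9)) =
        L * (36 * (n : ℝ) ^ 2 + 306 * n) := by ring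
    rw [e6]
    have e7 : 36 * (n : ℝ) ^ 2 + 306 * n ≤ 120 * n ^ 2 := by nlinarith
    calc L * (36 * (n : ℝ) ^ 2 + 306 * n) ≤ L * (120 * n ^ 2) := by gcongr
      _ = 120 * L * n ^ 2 := by ring
  linarith

end Pool.Agent.H72.ES
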